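import Pool.Agent.W_7d29a1_HK20.PowK20

/-!
STORM LB (helper29): the consequences of `w_n ≤ n ^ ε σ_n ^ 2`, pure part and powers.
-/

set_option autoImplicit false

namespace Pool.Agent.W_7d29a1_LB

open MeasureTheory ProbabilityTheory Filter Topology
open Pool.Agent.W_7d29a1_F Pool.Agent.W_7d29a1_h4g Pool.Agent.W_7d29a1_H Pool.Agent.W_7d29a1_HS
open Pool.Agent.W_7d29a1_HK20
open Pool.Agent.W_7d29a1_SR (toF)

/-- **The lower bound of the variance** at the tilt `s`: `w_n ≤ n ^ ε Var`. -/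
def LB20 (μ : Measure ℝ) (s : ℝ) : Prop :=
  ∀ ε : ℝ, 0 < ε → ∃ n₁ : ℕ, ∀ n : ℕ, n₁ ≤ n → wd μ s n ≤ (n : ℝ) ^ ε * EE μ s n ^ 2

/-- `n ^ (1 + d) ≤ w E ^ 2` and `w ≤ n ^ (d / 2) E ^ 2` give `n ^ ((1 + d / 2) / 4) ≤ E`. -/
theorem quarter29 {n w E d : ℝ} (hn : 0 < n) (hE : 0 < E) (h1 : n ^ (1 + d) ≤ w * E ^ 2) (h2 : w ≤ n ^ (d / 2) * E ^ 2) :
    n ^ ((1 + d / 2) / 4) ≤ E := by
  have hd : 0 < n ^ (d / 2) := Real.rpow_pos_of_pos hn _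
  have e1 : n ^ (1 + d) = n ^ (d / 2) * n ^ (1 + d / 2) := by
    rw [← Real.rpow_add hn]
    ring_nf
  have h3 : n ^ (d / 2) * n ^ (1 + d / 2) ≤ n ^ (d / 2) * E ^ 4 := by
    rw [← e1]
    calc n ^ (1 + d) ≤ w * E ^ 2 := h1
      _ ≤ n ^ (d / 2) * E ^ 2 * E ^ 2 := mul_le_mul_of_nonneg_right h2 (by positivity)
      _ = n ^ (d / 2) * E ^ 4 := by ring
  have h4 : n ^ (1 + d / 2) ≤ E ^ 4 := le_of_mul_le_mul_left h3 hd
  have h6 := Real.rpow_le_rpow (Real.rpow_nonneg hn.le _) h4 (show (0 : ℝ) ≤ 1 / 4 by norm_num)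
  rw [← Real.rpow_natCast E 4, ← Real.rpow_mul hE.le, ← Real.rpow_mul hn.le] at h6
  norm_num at h6
  rw [show (1 + d / 2) / 4 = (1 + d / 2) * (1 / 4) by ring]
  exact h6

/-- `c n x ≤ w ^ 2` and `w ≤ n ^ e (x / a) ^ 2` give `n ^ ((1 - 3 e) / 3) ≤ x`. -/
theorem third29 {n w x a c e : ℝ} (hn : 0 < n) (ha : 0 < a) (hc : 0 < c) (hx : 0 < x) (hw : 0 ≤ w)
    (h1 : c * (n * x) ≤ w ^ 2) (h2 : w ≤ n ^ e * (x / a) ^ 2) (h3 : 1 / (c * a ^ 4) ≤ n ^ e) :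
    n ^ ((1 - 3 * e) / 3) ≤ x := by
  have he : 0 < n ^ e := Real.rpow_pos_of_pos hn _
  have h4 : c * (n * x) ≤ (n ^ e * (x / a) ^ 2) ^ 2 := h1.trans (pow_le_pow_left₀ hw h2 2)
  have e2 : (n ^ e * (x / a) ^ 2) ^ 2 = (n ^ e) ^ 2 * x ^ 3 / a ^ 4 * x := by
    field_simp
  rw [e2, show c * (n * x) = (c * n) * x by ring] at h4
  have h5 : c * n ≤ (n ^ e) ^ 2 * x ^ 3 / a ^ 4 := le_of_mul_le_mul_right h4 hx
  rw [le_div_iff₀ (by positivity)] at h5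
  have h6 : n ≤ (n ^ e) ^ 3 * x ^ 3 := by
    have h7 : n = (c * n * a ^ 4) * (1 / (c * a ^ 4)) := by
      field_simp
    calc n = (c * n * a ^ 4) * (1 / (c * a ^ 4)) := h7
      _ ≤ ((n ^ e) ^ 2 * x ^ 3) * n ^ e := mul_le_mul h5 h3 (by positivity) (by positivity)
      _ = (n ^ e) ^ 3 * x ^ 3 := by ring
  have h8 : n ^ (1 - 3 * e) ≤ x ^ 3 := by
    have e3 : n = n ^ (3 * e) * n ^ (1 - 3 * e) := by
      rw [← Real.rpow_add hn]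
      ring_nf
      rw [Real.rpow_one]
    have e4 : (n ^ e) ^ 3 = n ^ (3 * e) := by
      rw [← Real.rpow_natCast, ← Real.rpow_mul hn.le]
      ring_nf
    rw [e4] at h6
    have h9 : n ^ (3 * e) * n ^ (1 - 3 * e) ≤ n ^ (3 * e) * x ^ 3 := by
      rw [← e3]
      exact h6
    exact le_of_mul_le_mul_left h9 (Real.rpow_pos_of_pos hn _)
  have h6 := Real.rpow_le_rpow (Real.rpow_nonneg hn.le _) h8 (show (0 : ℝ) ≤ 1 / 3 by norm_num)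
  rw [← Real.rpow_natCast x 3, ← Real.rpow_mul hx.le, ← Real.rpow_mul hn.le] at h6
  norm_num at h6
  rw [show (1 - 3 * e) / 3 = (1 - 3 * e) * (1 / 3) by ring]
  exact h6

variable {Ω : Type*} [MeasurableSpace Ω] {P : Measure Ω} [IsProbabilityMeasure P] {ω : ℕ × ℤ → Ω → ℝ} {β h : ℝ}
  {μ : Measure ℝ} [IsProbabilityMeasure μ] {c C : ℝ} {n₀ : ℕ}

/-- `w_n ≤ n ^ ε σ_n ^ 2`. -/
theorem wd_sgm29 (hI : In μ (2 * h) c C n₀) (f : Fac μ (2 * h)) (hL : LB20 μ (2 * h))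
    (hmp : MeasurePreserving (fun x => toF β fun p => ω p x) P (law μ)) {ε : ℝ} (hε : 0 < ε) (B : ℝ) :
    ∀ᶠ n : ℕ in atTop, B * wd μ (2 * h) n ≤ (n : ℝ) ^ ε * sgm P β h ω n ^ 2 := by
  obtain ⟨a, A, ha, hA, h1⟩ := sgmS (P := P) (β := β) (ω := ω) f hmp
  obtain ⟨n₁, h2⟩ := hL (ε / 2) (by positivity)
  filter_upwards [eventually_ge_atTop 1, eventually_ge_atTop n₁, ev_pow20 (|B| / a ^ 2) (show 0 < ε / 2 by positivity),
    wd_large20 hI 0] with n h4 h5 h6 h0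
  have hn : (0 : ℝ) < n := by exact_mod_cast h4
  obtain ⟨h8, h9⟩ := h1 n h4
  have hE := EE_pos (μ := μ) (s := 2 * h) n
  have e1 : (n : ℝ) ^ ε = (n : ℝ) ^ (ε / 2) * (n : ℝ) ^ (ε / 2) := by
    rw [← Real.rpow_add hn]
    ring_nf
  have h10 : (a * EE μ (2 * h) n) ^ 2 ≤ sgm P β h ω n ^ 2 := pow_le_pow_left₀ (by positivity) h8 2
  rw [div_le_iff₀ (by positivity)] at h6
  have hpos : 0 < (n : ℝ) ^ (ε / 2) := Real.rpow_pos_of_pos hn _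
  calc B * wd μ (2 * h) n ≤ |B| * ((n : ℝ) ^ (ε / 2) * EE μ (2 * h) n ^ 2) :=
        mul_le_mul (le_abs_self B) (h2 n h5) h0 (abs_nonneg B)
    _ ≤ ((n : ℝ) ^ (ε / 2) * a ^ 2) * ((n : ℝ) ^ (ε / 2) * EE μ (2 * h) n ^ 2) :=
        mul_le_mul_of_nonneg_right h6 (by positivity)
    _ = (n : ℝ) ^ ε * (a * EE μ (2 * h) n) ^ 2 := by
        rw [e1]
        ring
    _ ≤ _ := mul_le_mul_of_nonneg_left h10 (Real.rpow_nonneg hn.le _)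

/-- `σ_n ≥ n ^ (1 / 4 + e)`. -/
theorem sgm_quarter29 (f : Fac μ (2 * h)) (hN : NP20 μ (2 * h)) (hL : LB20 μ (2 * h))
    (hmp : MeasurePreserving (fun x => toF β fun p => ω p x) P (law μ)) :
    ∃ e : ℝ, 0 < e ∧ ∀ᶠ n : ℕ in atTop, (n : ℝ) ^ (1 / 4 + e) ≤ sgm P β h ω n := by
  obtain ⟨a, A, ha, hA, h1⟩ := sgmS (P := P) (β := β) (ω := ω) f hmp
  obtain ⟨d, hd, n₁, h2⟩ := hN
  obtain ⟨n₂, h3⟩ := hL (d / 2) (by positivity)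
  refine ⟨d / 16, by positivity, ?_⟩
  filter_upwards [eventually_ge_atTop 1, eventually_ge_atTop n₁, eventually_ge_atTop n₂,
    ev_pow20 (1 / a) (show 0 < d / 16 by positivity)] with n h4 h5 h6 h7
  have hn : (0 : ℝ) < n := by exact_mod_cast h4
  obtain ⟨h8, h9⟩ := h1 n h4
  have hE := EE_pos (μ := μ) (s := 2 * h) n
  have h10 := quarter29 hn hE (h2 n h5) (h3 n h6)
  rw [div_le_iff₀ ha] at h7
  have e1 : (n : ℝ) ^ ((1 + d / 2) / 4) = (n : ℝ) ^ (d / 16) * (n : ℝ) ^ (1 / 4 + d / 16) := by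
    rw [← Real.rpow_add hn]
    ring_nf
  have hp : 0 ≤ (n : ℝ) ^ (1 / 4 + d / 16) := Real.rpow_nonneg hn.le _
  calc (n : ℝ) ^ (1 / 4 + d / 16) ≤ (n : ℝ) ^ (d / 16) * a * (n : ℝ) ^ (1 / 4 + d / 16) := le_mul_of_one_le_left hp h7
    _ = a * ((n : ℝ) ^ (d / 16) * (n : ℝ) ^ (1 / 4 + d / 16)) := by ring
    _ = a * (n : ℝ) ^ ((1 + d / 2) / 4) := by rw [e1]
    _ ≤ a * EE μ (2 * h) n := mul_le_mul_of_nonneg_left h10 ha.le
    _ ≤ _ := h8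

/-- `σ_n ≥ n ^ (1 / 3 - ε)` where `c n σ_n ≤ w_n ^ 2`. -/
theorem sgm_third29 (hI : In μ (2 * h) c C n₀) (f : Fac μ (2 * h)) (hL : LB20 μ (2 * h))
    (hmp : MeasurePreserving (fun x => toF β fun p => ω p x) P (law μ)) {b : ℝ} (hb : 0 < b)
    (hk : ∀ᶠ n : ℕ in atTop, b * (n * sgm P β h ω n) ≤ wd μ (2 * h) n ^ 2) {ε : ℝ} (hε : 0 < ε) :
    ∀ᶠ n : ℕ in atTop, (n : ℝ) ^ (1 / 3 - ε) ≤ sgm P β h ω n := by
  obtain ⟨a, A, ha, hA, h1⟩ := sgmS (P := P) (β := β) (ω := ω) f hmp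
  obtain ⟨n₁, h2⟩ := hL ε hε
  filter_upwards [hk, eventually_ge_atTop 1, eventually_ge_atTop n₁, ev_pow20 (1 / (b * a ^ 4)) hε, wd_large20 hI 0]
    with n h3 h4 h5 h6 h0
  have hn : (0 : ℝ) < n := by exact_mod_cast h4
  obtain ⟨h8, h9⟩ := h1 n h4
  have hE := EE_pos (μ := μ) (s := 2 * h) n
  have hs : 0 < sgm P β h ω n := lt_of_lt_of_le (by positivity) h8
  have h10 : EE μ (2 * h) n ≤ sgm P β h ω n / a := by
    rw [le_div_iff₀ ha]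
    linarith
  have h11 := third29 (e := ε) hn ha hb hs h0 h3
    ((h2 n h5).trans (mul_le_mul_of_nonneg_left (pow_le_pow_left₀ hE.le h10 2) (Real.rpow_nonneg hn.le _))) h6
  rw [show 1 / 3 - ε = (1 - 3 * ε) / 3 by ring]
  exact h11

end Pool.Agent.W_7d29a1_LB
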