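import Pool.Agent.W_7d29a1_LB.Cons29

/-!
STORM LB + UB + CURV0 IN THE LIMSUP FORM (helper29): THE EXPONENTS OF THE POLYMER UNDER A FORCE, with the lower bound
`n ^ (1 / 3 - ε) ≤ E_n` along a sequence of lengths, at every tilt, as a third input.
-/

set_option autoImplicit false

namespace Pool.Agent.W_7d29a1_LB

open MeasureTheory ProbabilityTheory Filter Topology
open Pool.Agent.W_7d29a1_F Pool.Agent.W_7d29a1_H Pool.Agent.W_7d29a1_HS Pool.Agent.W_7d29a1_HK20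
open Pool.Agent.W_7d29a1_HM
open Pool.Agent.W_7d29a1_SR (toF mp_toF)
open Pool.Agent.W_7d29a1_h47 (EM Nondeg EM_of Nondeg_of map_toEnv walk endMGF)

/-- The lower bound `n ^ (1 / 3 - ε) ≤ E_n` at the tilt `s` for arbitrarily large lengths `n`. -/
def CVL29 (μ : Measure ℝ) (s : ℝ) : Prop :=
  ∀ ε : ℝ, 0 < ε → ∃ᶠ n : ℕ in atTop, (n : ℝ) ^ (1 / 3 - ε) ≤ EE μ s n

/-- The form in which the last step of CURV0 is proved: the unit is not uniformly stiff. -/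
theorem cvl_of29 {μ : Measure ℝ} {s : ℝ}
    (h : ∀ c : ℝ, 0 < c → ∀ r₀ : ℕ, ¬ ∀ r : ℕ, r₀ ≤ r → EE μ s r ≤ (r : ℝ) ^ (1 / 3 - c)) : CVL29 μ s := by
  intro ε hε
  rw [frequently_atTop]
  intro r₀
  by_contra hcon
  push Not at hcon
  exact h ε hε r₀ fun r hr => (hcon r hr).le

/-- A lower bound along a sequence bounds the upper limit of the logarithms. -/
theorem sup_ge29 {w : ℕ → ℝ} (hw : Bd20 w) {b : ℝ} (h : ∃ᶠ n : ℕ in atTop, (n : ℝ) ^ b ≤ w n) :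
    b ≤ limsup (lg20 w) atTop := by
  refine le_limsup_of_frequently_le ?_ hw.bdd.1
  refine (h.and_eventually (eventually_ge_atTop 2)).mono fun n hn => ?_
  have hn2 : (2 : ℝ) ≤ n := by exact_mod_cast hn.2
  have hl : 0 < Real.log n := Real.log_pos (by linarith)
  have h1 := Real.log_le_log (Real.rpow_pos_of_pos (by linarith) _) hn.1
  rw [Real.log_rpow (by linarith)] at h1
  exact (le_div_iff₀ hl).2 h1

/-- The lower bound of the standard deviation along a sequence. -/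
theorem sgm_cvl29 (hC : ∀ (μ : Measure ℝ) [IsProbabilityMeasure μ], EM μ → Nondeg μ → ∀ s, CVL29 μ s)
    {Ω : Type*} [MeasurableSpace Ω] (P : Measure Ω) [IsProbabilityMeasure P]
    (ω : ℕ × ℤ → Ω → ℝ) (hmeas : ∀ p, Measurable (ω p)) (hindep : iIndepFun ω P)
    (hident : ∀ p q, IdentDistrib (ω p) (ω q) P P) (hnc : ¬ ∃ c : ℝ, ∀ᵐ x ∂P, ω (0, 0) x = c)
    (hexp : ∀ b : ℝ, Integrable (fun x => Real.exp (b * ω (0, 0) x)) P) {β : ℝ} (hβ : 0 < β)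
    (h : ℝ) {ε : ℝ} (hε : 0 < ε) :
    ∃ᶠ n : ℕ in atTop, (n : ℝ) ^ (1 / 3 - ε) ≤ Real.sqrt (Var[fun x => Real.log (fZ β h (fun p => ω p x) n); P]) := by
  obtain ⟨μ, hμdef⟩ : ∃ μ : Measure ℝ, μ = P.map fun x => β * ω (0, 0) x := ⟨_, rfl⟩
  have hm0 : Measurable fun x => β * ω (0, 0) x := (hmeas _).const_mul β
  have hprob : IsProbabilityMeasure μ := by
    rw [hμdef]
    exact Measure.isProbabilityMeasure_map hm0.aemeasurable
  have hμ : EM μ := by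
    rw [hμdef]
    exact EM_of (hmeas _) hexp β
  have hnd : Nondeg μ := by
    rw [hμdef]
    exact Nondeg_of (hmeas _) hnc hβ
  have hmp := mp_toF hmeas hindep hident β
  rw [← hμdef] at hmp
  have f := (inp20 μ hμ hnd).fac (2 * h)
  obtain ⟨a, A, ha, hA, h1⟩ := sgmS (P := P) (β := β) (ω := ω) f hmp
  have h2 := hC μ hμ hnd (2 * h) (ε / 2) (by positivity)
  refine (h2.and_eventually ((eventually_ge_atTop 1).and (ev_pow20 (1 / a) (show 0 < ε / 2 by positivity)))).mono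
    fun n hn0 => ?_
  obtain ⟨h4, h3, h5⟩ := hn0
  have hn : (0 : ℝ) < n := by exact_mod_cast h3
  have e1 : (n : ℝ) ^ (1 / 3 - ε / 2) = (n : ℝ) ^ (ε / 2) * (n : ℝ) ^ (1 / 3 - ε) := by
    rw [← Real.rpow_add hn]
    ring_nf
  rw [div_le_iff₀ ha] at h5
  have hp : 0 ≤ (n : ℝ) ^ (1 / 3 - ε) := Real.rpow_nonneg hn.le _
  calc (n : ℝ) ^ (1 / 3 - ε) ≤ (n : ℝ) ^ (ε / 2) * a * (n : ℝ) ^ (1 / 3 - ε) := le_mul_of_one_le_left hp h5
    _ = a * (n : ℝ) ^ (1 / 3 - ε / 2) := by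
        rw [e1]
        ring
    _ ≤ a * EE μ (2 * h) n := mul_le_mul_of_nonneg_left h4 ha.le
    _ ≤ _ := (h1 n h3).1

/-- **THE EXPONENTS**, from `w_n ≤ n ^ ε Var`, `Var ≤ n ^ ε w_n` and `n ^ (1 / 3 - ε) ≤ σ_n` infinitely often at every tilt. -/
theorem main_L29 (hL : ∀ (μ : Measure ℝ) [IsProbabilityMeasure μ], EM μ → Nondeg μ → ∀ s, LB20 μ s)
    (hU : ∀ (μ : Measure ℝ) [IsProbabilityMeasure μ], EM μ → Nondeg μ → ∀ s, UB20 μ s)
    (hC : ∀ (μ : Measure ℝ) [IsProbabilityMeasure μ], EM μ → Nondeg μ → ∀ s, CVL29 μ s)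
    {Ω : Type*} [MeasurableSpace Ω] (P : Measure Ω) [IsProbabilityMeasure P]
    (ω : ℕ × ℤ → Ω → ℝ) (hmeas : ∀ p, Measurable (ω p)) (hindep : iIndepFun ω P)
    (hident : ∀ p q, IdentDistrib (ω p) (ω q) P P) (hnc : ¬ ∃ c : ℝ, ∀ᵐ x ∂P, ω (0, 0) x = c)
    (hexp : ∀ b : ℝ, Integrable (fun x => Real.exp (b * ω (0, 0) x)) P) {β : ℝ} (hβ : 0 < β) :
    ∃ (lam J : ℝ → ℝ) (σ : ℝ → ℕ → ℝ), Differentiable ℝ lam ∧ deriv lam 0 = 0 ∧ Set.range (deriv lam) = Set.Ioo (-1) 1 ∧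
      (∀ h, ∀ᵐ x ∂P, Tendsto (fun n : ℕ => Real.log (endMGF β h (fun p => ω p x) n) / n) atTop (𝓝 (lam h))) ∧
      (∀ v, |v| < 1 → IsLUB (Set.range fun k => k * v - lam k) (J v)) ∧
      (∀ h n, σ h n = Real.sqrt (Var[fun x => Real.log (fZ β h (fun p => ω p x) n); P])) ∧
      -- every force
      (∀ h : ℝ,
        (∀ (q : ℕ) (ε : ℝ), 0 < ε → ∀ᶠ n : ℕ in atTop,
          (n : ℝ) ^ (-ε) * σ h n ^ (2 * q) ≤
            ∫ x, fE β h (fun p => ω p x) n (fun s => |(walk s n : ℝ) - deriv lam h * n| ^ q) ∂P ∧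
          ∫ x, fE β h (fun p => ω p x) n (fun s => |(walk s n : ℝ) - deriv lam h * n| ^ q) ∂P ≤
            ∫ x, fE β h (fun p => ω p x) n (fun s => mxv (deriv lam h) s ^ q) ∂P ∧
          ∫ x, fE β h (fun p => ω p x) n (fun s => mxv (deriv lam h) s ^ q) ∂P ≤ (n : ℝ) ^ ε * σ h n ^ (2 * q)) ∧
        nuF P β h (deriv lam h) ω = 2 * limsup (fun n : ℕ => Real.log (σ h n) / Real.log n) atTop ∧
        chiF P β h ω = liminf (fun n : ℕ => Real.log (σ h n) / Real.log n) atTop ∧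
        (∀ ε : ℝ, 0 < ε → ∃ᶠ n : ℕ in atTop, (n : ℝ) ^ (1 / 3 - ε) ≤ σ h n) ∧
        2 / 3 ≤ nuF P β h (deriv lam h) ω ∧
        (∃ c : ℝ, 0 < c ∧ (∀ᶠ n : ℕ in atTop, (n : ℝ) ^ (1 / 4 + c) ≤ σ h n ∧ σ h n ≤ (n : ℝ) ^ (1 / 2 - c)) ∧
          1 / 4 + c ≤ chiF P β h ω ∧ chiF P β h ω ≤ nuF P β h (deriv lam h) ω / 2 ∧
          nuF P β h (deriv lam h) ω ≤ 1 - c) ∧
        (∀ κ : ℝ, Tendsto (fun u : ℝ => Real.log (J (deriv lam h + u) - J (deriv lam h) - h * u) / Real.log u) (𝓝[>] 0)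
          (𝓝 κ) →
          Tendsto (fun n : ℕ => Real.log (σ h n) / Real.log n) atTop (𝓝 ((κ - 1) / (2 * κ - 1))) ∧
          nuF P β h (deriv lam h) ω = (2 * κ - 2) / (2 * κ - 1) ∧ chiF P β h ω = (κ - 1) / (2 * κ - 1))) ∧
      -- a dense set of forces
      (∃ T : Set ℝ, Dense T ∧ ∀ h ∈ T,
        nuF P β h (deriv lam h) ω = 2 / 3 ∧ chiF P β h ω = 1 / 3 ∧
        Tendsto (fun n : ℕ => Real.log (σ h n) / Real.log n) atTop (𝓝 (1 / 3)) ∧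
        ∃ c C : ℝ, 0 < c ∧
        (∀ r : ℝ, |r| ≤ 1 → c * r ^ 2 ≤ lam (h + r) - lam h - r * deriv lam h ∧
          lam (h + r) - lam h - r * deriv lam h ≤ C * r ^ 2) ∧
        (∀ᶠ n : ℕ in atTop,
          c * (n * σ h n) ≤
            ∫ x, fE β h (fun p => ω p x) n (fun s => |(walk s n : ℝ) - deriv lam h * n| ^ 2) ∂P ∧
          ∫ x, fE β h (fun p => ω p x) n (fun s => mxv (deriv lam h) s ^ 2) ∂P ≤ C * (n * σ h n)) ∧
        (∀ᶠ n : ℕ in atTop, ∀ R : ℝ, 1 ≤ R → 1 - ∫ x, fP β h (fun p => ω p x) n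
          {s | mxv (deriv lam h) s ≤ R * Real.sqrt (n * σ h n)} ∂P ≤ C * Real.exp (-(c * R ^ c))) ∧
        (∀ ε : ℝ, 0 < ε → ∃ a : ℝ, 0 < a ∧ ∀ᶠ n : ℕ in atTop, ∫ x, fP β h (fun p => ω p x) n
          {s | |(walk s n : ℝ) - deriv lam h * n| ≤ a * Real.sqrt (n * σ h n)} ∂P ≤ ε) ∧
        (∀ q : ℕ, ∃ a A : ℝ, 0 < a ∧ ∀ᶠ n : ℕ in atTop,
          a * Real.sqrt (n * σ h n) ^ q ≤
            ∫ x, fE β h (fun p => ω p x) n (fun s => |(walk s n : ℝ) - deriv lam h * n| ^ q) ∂P ∧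
          ∫ x, fE β h (fun p => ω p x) n (fun s => mxv (deriv lam h) s ^ q) ∂P ≤ A * Real.sqrt (n * σ h n) ^ q)) ∧
      -- almost every force
      (∀ᵐ h : ℝ, nuF P β h (deriv lam h) ω = 2 / 3 ∧ chiF P β h ω ≤ 1 / 3 ∧
        limsup (fun n : ℕ => Real.log (σ h n) / Real.log n) atTop = 1 / 3 ∧
        ∃ C : ℝ, ∀ᶠ n : ℕ in atTop,
          ∫ x, fE β h (fun p => ω p x) n (fun s => mxv (deriv lam h) s ^ 2) ∂P ≤ C * (n * σ h n)) ∧
      -- almost every velocity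
      (∀ᵐ v : ℝ, ∀ h : ℝ, deriv lam h = v → 1 / 3 ≤ chiF P β h ω ∧
        ∃ c : ℝ, 0 < c ∧ ∀ᶠ n : ℕ in atTop, c * (n * σ h n) ≤
          ∫ x, fE β h (fun p => ω p x) n (fun s => |(walk s n : ℝ) - v * n| ^ 2) ∂P) := by
  obtain ⟨lam, J, σ, hd, hd0, hr, hlim, hJ, hσ, hE, hT, hF, hV⟩ := main_A29 hL hU P ω hmeas hindep hident hnc hexp hβ
  have hlow : ∀ (h ε : ℝ), 0 < ε → ∃ᶠ n : ℕ in atTop, (n : ℝ) ^ (1 / 3 - ε) ≤ σ h n := fun h ε hε =>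
    (sgm_cvl29 hC P ω hmeas hindep hident hnc hexp hβ h hε).mono fun n h1 => by
      rw [hσ h n]
      exact h1
  have hB : ∀ h, Bd20 (σ h) := by
    intro h
    obtain ⟨-, -, -, ⟨c, hc, hev, -⟩, -⟩ := hE h
    filter_upwards [hev, eventually_ge_atTop 1] with n h1 h2
    have hn1 : (1 : ℝ) ≤ n := by exact_mod_cast h2
    refine ⟨(Real.one_le_rpow hn1 (by positivity)).trans h1.1, h1.2.trans ?_⟩
    calc (n : ℝ) ^ (1 / 2 - c) ≤ (n : ℝ) ^ (1 : ℝ) := Real.rpow_le_rpow_of_exponent_le hn1 (by linarith)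
      _ = n := Real.rpow_one _
  have hls : ∀ h, 1 / 3 ≤ limsup (lg20 (σ h)) atTop := fun h => by
    refine le_of_forall_pos_le_add fun ε hε => ?_
    rw [← sub_le_iff_le_add]
    exact sup_ge29 (hB h) (hlow h ε hε)
  refine ⟨lam, J, σ, hd, hd0, hr, hlim, hJ, hσ, fun h => ?_, hT, ?_, ?_⟩
  · obtain ⟨g1, g2, g3, g4, g5⟩ := hE h
    refine ⟨g1, g2, g3, hlow h, ?_, g4, g5⟩
    rw [g2]
    have := hls h
    have h3 : limsup (fun n : ℕ => Real.log (σ h n) / Real.log n) atTop = limsup (lg20 (σ h)) atTop := rfl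
    rw [h3]
    linarith
  · filter_upwards [hF] with h hh
    obtain ⟨h1, h2, h3, h4⟩ := hh
    obtain ⟨-, g2, -, -⟩ := hE h
    have h3' : limsup (lg20 (σ h)) atTop ≤ 1 / 3 := h3
    have h5 := hls h
    have g2' : nuF P β h (deriv lam h) ω = 2 * limsup (lg20 (σ h)) atTop := g2
    exact ⟨by linarith, h2, le_antisymm h3' h5, h4⟩
  · filter_upwards [hV] with v hv h hh
    obtain ⟨-, h2, h3⟩ := hv h hh
    exact ⟨h2, h3⟩

end Pool.Agent.W_7d29a1_LB
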