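import Pool.Agent.W_7d29a1_HK20.ExpK20
import Pool.Agent.W_7d29a1_LB.Pow29

/-!
STORM LB + UB (helper29): exponents of sequences (pure).
-/

set_option autoImplicit false

namespace Pool.Agent.W_7d29a1_LB

open Filter Topology
open Pool.Agent.W_7d29a1_HK20

/-- Comparison of upper and lower limits. -/
theorem lim_le29 {f g : ℕ → ℝ} {k : ℝ} (hk : 0 < k)
    (hf : IsBoundedUnder (· ≤ ·) atTop f ∧ IsBoundedUnder (· ≥ ·) atTop f)
    (hg : IsBoundedUnder (· ≤ ·) atTop g ∧ IsBoundedUnder (· ≥ ·) atTop g)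
    (h : ∀ ε : ℝ, 0 < ε → ∀ᶠ n : ℕ in atTop, f n ≤ k * g n + ε) :
    limsup f atTop ≤ k * limsup g atTop ∧ liminf f atTop ≤ k * liminf g atTop := by
  constructor
  · refine le_of_forall_pos_le_add fun ε hε => ?_
    refine limsup_le_of_le hf.2.isCoboundedUnder_le ?_
    have he : ∀ᶠ n in atTop, g n < limsup g atTop + ε / (2 * k) :=
      eventually_lt_of_limsup_lt (by have : 0 < ε / (2 * k) := by positivity
                                     linarith) hg.1
    filter_upwards [he, h (ε / 2) (by positivity)] with n h1 h2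
    have h3 := mul_le_mul_of_nonneg_left h1.le hk.le
    have h4 : k * (limsup g atTop + ε / (2 * k)) = k * limsup g atTop + ε / 2 := by
      field_simp
    linarith
  · have h5 : liminf f atTop / k ≤ liminf g atTop := by
      refine le_of_forall_pos_le_add fun ε hε => ?_
      rw [← sub_le_iff_le_add]
      refine le_liminf_of_le hg.1.isCoboundedUnder_ge ?_
      have he : ∀ᶠ n in atTop, liminf f atTop - k * ε / 2 < f n :=
        eventually_lt_of_lt_liminf (by have : 0 < k * ε / 2 := by positivity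
                                       linarith) hf.2
      filter_upwards [he, h (k * ε / 2) (by positivity)] with n h1 h2
      rw [sub_le_iff_le_add, div_le_iff₀ hk]
      nlinarith
    rw [div_le_iff₀ hk] at h5
    linarith

/-- `w ≤ n ^ ε σ ^ 2` in exponents. -/
theorem lg_up29 {σ w : ℕ → ℝ} (hσ : Bd20 σ) (hw : Bd20 w)
    (h : ∀ ε : ℝ, 0 < ε → ∀ᶠ n : ℕ in atTop, w n ≤ (n : ℝ) ^ ε * σ n ^ 2) :
    limsup (lg20 w) atTop ≤ 2 * limsup (lg20 σ) atTop ∧ liminf (lg20 w) atTop ≤ 2 * liminf (lg20 σ) atTop := by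
  refine lim_le29 two_pos hw.bdd hσ.bdd fun ε hε => ?_
  filter_upwards [h ε hε, hσ, hw, log_const20 0 one_pos] with n h1 h2 h3 ⟨h4, h5, _⟩
  have hn0 : (0 : ℝ) < n := by linarith
  have hs : 0 < σ n := by linarith [h2.1]
  have h6 := Real.log_le_log (by linarith [h3.1]) h1
  rw [Real.log_mul (by positivity) (by positivity), Real.log_rpow hn0, Real.log_pow] at h6
  push_cast at h6
  unfold lg20
  rw [div_le_iff₀ h5]
  have e : (2 * (Real.log (σ n) / Real.log n) + ε) * Real.log n = ε * Real.log n + 2 * Real.log (σ n) := by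
    field_simp
    ring
  rw [e]
  exact h6

/-- `σ ^ 2 ≤ n ^ ε w` in exponents. -/
theorem lg_low29 {σ w : ℕ → ℝ} (hσ : Bd20 σ) (hw : Bd20 w)
    (h : ∀ ε : ℝ, 0 < ε → ∀ᶠ n : ℕ in atTop, σ n ^ 2 ≤ (n : ℝ) ^ ε * w n) :
    limsup (lg20 σ) atTop ≤ 1 / 2 * limsup (lg20 w) atTop ∧ liminf (lg20 σ) atTop ≤ 1 / 2 * liminf (lg20 w) atTop := by
  refine lim_le29 one_half_pos hσ.bdd hw.bdd fun ε hε => ?_
  filter_upwards [h (2 * ε) (by positivity), hσ, hw, log_const20 0 one_pos] with n h1 h2 h3 ⟨h4, h5, _⟩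
  have hn0 : (0 : ℝ) < n := by linarith
  have hs : 0 < σ n := by linarith [h2.1]
  have hww : 0 < w n := by linarith [h3.1]
  have h6 := Real.log_le_log (by positivity) h1
  rw [Real.log_mul (by positivity) (by positivity), Real.log_rpow hn0, Real.log_pow] at h6
  push_cast at h6
  unfold lg20
  rw [div_le_iff₀ h5]
  have e : (1 / 2 * (Real.log (w n) / Real.log n) + ε) * Real.log n = ε * Real.log n + 1 / 2 * Real.log (w n) := by
    field_simp
    ring
  rw [e]
  linarith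

/-- `c n σ ≤ n ^ ε σ ^ 4` gives `1 / 3 ≤ liminf`. -/
theorem lg_third29 {σ : ℕ → ℝ} (hσ : Bd20 σ) {c : ℝ} (hc : 0 < c)
    (h : ∀ ε : ℝ, 0 < ε → ∀ᶠ n : ℕ in atTop, c * (n * σ n) ≤ (n : ℝ) ^ ε * (σ n ^ 2) ^ 2) :
    1 / 3 ≤ liminf (lg20 σ) atTop := by
  refine le_of_forall_pos_le_add fun ε hε => ?_
  rw [← sub_le_iff_le_add]
  refine le_liminf_of_le hσ.bdd.1.isCoboundedUnder_ge ?_
  filter_upwards [h ε hε, hσ, log_const20 (Real.log c) hε] with n h1 h2 ⟨h4, h5, h6⟩
  have hn0 : (0 : ℝ) < n := by linarith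
  have hs : 0 < σ n := by linarith [h2.1]
  have h7 := Real.log_le_log (by positivity) h1
  rw [Real.log_mul hc.ne' (by positivity), Real.log_mul hn0.ne' hs.ne', Real.log_mul (by positivity) (by positivity),
    Real.log_rpow hn0, Real.log_pow, Real.log_pow] at h7
  push_cast at h7
  unfold lg20
  rw [le_div_iff₀ h5]
  have := neg_abs_le (Real.log c)
  nlinarith

/-- The limit from the two limits. -/
theorem lg_tendsto29 {σ : ℕ → ℝ} (hσ : Bd20 σ) {x : ℝ} (h1 : x ≤ liminf (lg20 σ) atTop) (h2 : limsup (lg20 σ) atTop ≤ x) :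
    Tendsto (lg20 σ) atTop (𝓝 x) :=
  tendsto_of_le_liminf_of_limsup_le h1 h2 hσ.bdd.1 hσ.bdd.2

end Pool.Agent.W_7d29a1_LB
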