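import Pool.Agent.W_7d29a1_HM.Final
import Pool.Agent.W_7d29a1_HM.FinalK
import Pool.Agent.W_7d29a1_HK20.RangeK20
import Pool.Agent.W_7d29a1_LB.Exp29

/-!
STORM LB + UB (helper29): THE EXPONENTS OF THE POLYMER UNDER A FORCE.
-/

set_option autoImplicit false

namespace Pool.Agent.W_7d29a1_LB

open MeasureTheory ProbabilityTheory Filter Topology
open Pool.Agent.W_7d29a1_HK20
open Pool.Agent.W_7d29a1_HM
open Pool.Agent.W_7d29a1_h47 (walk energy polE endMGF)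

/-- The scaling relation in the form of `scale29`. -/
def ScaleF29 {Ω : Type*} [MeasurableSpace Ω] (P : Measure Ω) (ω : ℕ × ℤ → Ω → ℝ) (β : ℝ) (lam : ℝ → ℝ) : Prop :=
  ∀ (h : ℝ) (q : ℕ) (ε : ℝ), 0 < ε → ∀ᶠ n : ℕ in atTop,
    (n : ℝ) ^ (-ε) * (Var[fun x => Real.log (fZ β h (fun p => ω p x) n); P]) ^ q ≤
      ∫ x, fE β h (fun p => ω p x) n (fun s => |(walk s n : ℝ) - deriv lam h * n| ^ q) ∂P ∧
    ∫ x, fE β h (fun p => ω p x) n (fun s => |(walk s n : ℝ) - deriv lam h * n| ^ q) ∂P ≤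
      ∫ x, fE β h (fun p => ω p x) n (fun s => mxv (deriv lam h) s ^ q) ∂P ∧
    ∫ x, fE β h (fun p => ω p x) n (fun s => mxv (deriv lam h) s ^ q) ∂P ≤
      (n : ℝ) ^ ε * (Var[fun x => Real.log (fZ β h (fun p => ω p x) n); P]) ^ q

theorem fZ_pos29 (β h : ℝ) (η : ℕ × ℤ → ℝ) (n : ℕ) : 0 < fZ β h η n := by
  unfold fZ
  have : 0 < ∑ s : Fin n → Bool, Real.exp (h * (walk s n : ℝ) + β * energy η s) :=
    Finset.sum_pos (fun s _ => Real.exp_pos _) Finset.univ_nonempty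
  positivity

theorem log_endMGF29 (β h : ℝ) (η : ℕ × ℤ → ℝ) (n : ℕ) :
    Real.log (endMGF β h η n) = Real.log (fZ β h η n) - Real.log (fZ β 0 η n) := by
  rw [← Real.log_div (fZ_pos29 β h η n).ne' (fZ_pos29 β 0 η n).ne']
  congr 1
  unfold endMGF polE fZ
  rw [div_div_div_cancel_right₀ (by positivity)]
  simp only [Real.exp_add, zero_mul, Real.exp_zero, one_mul]

/-- Everything at one force from `main_F` and the scaling relation. -/
theorem one29 {σ w : ℕ → ℝ} {c : ℝ} (hc : 0 < c) {nu chi : ℝ} {I : ℝ → ℝ}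
    (hev : ∀ᶠ n : ℕ in atTop, (n : ℝ) ^ c ≤ σ n ∧ σ n ≤ (n : ℝ) ^ (1 / 2 - c) ∧
      (n : ℝ) ^ (1 / 3 + c) ≤ w n ∧ w n ≤ (n : ℝ) ^ (1 - c) ∧ (n : ℝ) ^ (1 + c) ≤ w n * σ n ^ 2)
    (hup : ∀ ε : ℝ, 0 < ε → ∀ᶠ n : ℕ in atTop, w n ≤ (n : ℝ) ^ ε * σ n ^ 2)
    (hlow : ∀ ε : ℝ, 0 < ε → ∀ᶠ n : ℕ in atTop, σ n ^ 2 ≤ (n : ℝ) ^ ε * w n)
    (hnu : nu = limsup (lg20 w) atTop) (hchi : chi = liminf (lg20 σ) atTop)
    (hk : ∀ κ : ℝ, Tendsto (fun u : ℝ => Real.log (I u) / Real.log u) (𝓝[>] 0) (𝓝 κ) →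
          limsup (lg20 σ) atTop = 1 - κ * (1 - nu) ∧
          chi = 1 - κ * (1 - liminf (lg20 w) atTop)) :
    Bd20 σ ∧ nu = 2 * limsup (lg20 σ) atTop ∧ (∃ e : ℝ, 0 < e ∧ (∀ᶠ n : ℕ in atTop, (n : ℝ) ^ (1 / 4 + e) ≤ σ n ∧
      σ n ≤ (n : ℝ) ^ (1 / 2 - e)) ∧ 1 / 4 + e ≤ chi ∧ chi ≤ nu / 2 ∧ nu ≤ 1 - e) ∧
      (∀ κ : ℝ, Tendsto (fun u : ℝ => Real.log (I u) / Real.log u) (𝓝[>] 0) (𝓝 κ) →
        Tendsto (lg20 σ) atTop (𝓝 ((κ - 1) / (2 * κ - 1))) ∧ nu = (2 * κ - 2) / (2 * κ - 1)) := by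
  have hσ : Bd20 σ := by
    filter_upwards [hev, eventually_ge_atTop 1] with n h1 h2
    have hn1 : (1 : ℝ) ≤ n := by exact_mod_cast h2
    refine ⟨(Real.one_le_rpow hn1 hc.le).trans h1.1, h1.2.1.trans ?_⟩
    calc (n : ℝ) ^ (1 / 2 - c) ≤ (n : ℝ) ^ (1 : ℝ) := Real.rpow_le_rpow_of_exponent_le hn1 (by linarith)
      _ = n := Real.rpow_one _
  have hw : Bd20 w := by
    filter_upwards [hev, eventually_ge_atTop 1] with n h1 h2
    have hn1 : (1 : ℝ) ≤ n := by exact_mod_cast h2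
    refine ⟨(Real.one_le_rpow hn1 (by positivity)).trans h1.2.2.1, h1.2.2.2.1.trans ?_⟩
    calc (n : ℝ) ^ (1 - c) ≤ (n : ℝ) ^ (1 : ℝ) := Real.rpow_le_rpow_of_exponent_le hn1 (by linarith)
      _ = n := Real.rpow_one _
  obtain ⟨u1, u2⟩ := lg_up29 hσ hw hup
  obtain ⟨l1, l2⟩ := lg_low29 hσ hw hlow
  have hnu2 : nu = 2 * limsup (lg20 σ) atTop := by
    rw [hnu]
    linarith
  have hchi2 : 2 * chi = liminf (lg20 w) atTop := by
    rw [hchi]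
    linarith
  refine ⟨hσ, hnu2, ?_, fun κ hκ => ?_⟩
  · have hlo : ∀ᶠ n : ℕ in atTop, (n : ℝ) ^ (1 / 4 + c / 8) ≤ σ n := by
      filter_upwards [hev, hup (c / 2) (by positivity), hσ, eventually_ge_atTop 1] with n h1 h2 h3 h4
      have hn : (0 : ℝ) < n := by exact_mod_cast h4
      have h5 := quarter29 (d := c) hn (by linarith [h3.1]) h1.2.2.2.2 h2
      rw [show 1 / 4 + c / 8 = (1 + c / 2) / 4 by ring]
      exact h5
    have hl1 := low20 hσ (c := 1) one_pos (hlo.mono fun n h1 => by rw [one_mul]; exact h1)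
    have hl2 := up20 hσ (C := 1) one_pos (hev.mono fun n h1 => by rw [one_mul]; exact h1.2.1)
    have hl3 := inf_le_sup20 hσ
    refine ⟨c / 8, by positivity, ?_, ?_, ?_, ?_⟩
    · filter_upwards [hlo, hev, eventually_ge_atTop 1] with n h1 h2 h3
      have hn1 : (1 : ℝ) ≤ n := by exact_mod_cast h3
      exact ⟨h1, h2.2.1.trans (Real.rpow_le_rpow_of_exponent_le hn1 (by linarith))⟩
    · rw [hchi]
      exact hl1
    · rw [hchi, hnu2]
      linarith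
    · rw [hnu2]
      linarith
  · obtain ⟨k1, k2⟩ := hk κ hκ
    have hne : 2 * κ - 1 ≠ 0 := by
      intro h0
      rw [hnu2] at k1
      have e1 : κ = 1 / 2 := by linarith
      rw [e1] at k1
      linarith
    have e1 : limsup (lg20 σ) atTop = (κ - 1) / (2 * κ - 1) := by
      rw [eq_div_iff hne]
      rw [hnu2] at k1
      linarith
    have e2 : liminf (lg20 σ) atTop = (κ - 1) / (2 * κ - 1) := by
      rw [eq_div_iff hne, ← hchi]
      rw [← hchi2] at k2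
      linarith
    refine ⟨lg_tendsto29 hσ e2.ge e1.le, ?_⟩
    rw [hnu2, e1]
    ring

/-- **THE EXPONENTS**: from the scaling relation. -/
theorem main_S29 {Ω : Type*} [MeasurableSpace Ω] (P : Measure Ω) [IsProbabilityMeasure P]
    (ω : ℕ × ℤ → Ω → ℝ) (hmeas : ∀ p, Measurable (ω p)) (hindep : iIndepFun ω P)
    (hident : ∀ p q, IdentDistrib (ω p) (ω q) P P) (hnc : ¬ ∃ c : ℝ, ∀ᵐ x ∂P, ω (0, 0) x = c)
    (hexp : ∀ b : ℝ, Integrable (fun x => Real.exp (b * ω (0, 0) x)) P) {β : ℝ} (hβ : 0 < β)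
    (hS : ∀ lam : ℝ → ℝ, (∀ h, ∀ᵐ x ∂P, Tendsto (fun n : ℕ => Real.log (endMGF β h (fun p => ω p x) n) / n) atTop
      (𝓝 (lam h))) → ScaleF29 P ω β lam) :
    ∃ (lam J : ℝ → ℝ) (σ : ℝ → ℕ → ℝ), Differentiable ℝ lam ∧ deriv lam 0 = 0 ∧ Set.range (deriv lam) = Set.Ioo (-1) 1 ∧
      (∀ h, ∀ᵐ x ∂P, Tendsto (fun n : ℕ => Real.log (endMGF β h (fun p => ω p x) n) / n) atTop (𝓝 (lam h))) ∧
      (∀ v, |v| < 1 → IsLUB (Set.range fun k => k * v - lam k) (J v)) ∧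
      (∀ h n, σ h n = Real.sqrt (Var[fun x => Real.log (fZ β h (fun p => ω p x) n); P])) ∧
      -- every force
      (∀ h : ℝ,
        (∀ (q : ℕ) (ε : ℝ), 0 < ε → ∀ᶠ n : ℕ in atTop,
          (n : ℝ) ^ (-ε) * σ h n ^ (2 * q) ≤
            ∫ x, fE β h (fun p => ω p x) n (fun s => |(walk s n : ℝ) - deriv lam h * n| ^ q) ∂P ∧
          ∫ x, fE β h (fun p => ω p x) n (fun s => |(walk s n : ℝ) - deriv lam h * n| ^ q) ∂P ≤
            ∫ x, fE β h (fun p => ω p x) n (fun s => mxv (deriv lam h) s ^ q) ∂P ∧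
          ∫ x, fE β h (fun p => ω p x) n (fun s => mxv (deriv lam h) s ^ q) ∂P ≤ (n : ℝ) ^ ε * σ h n ^ (2 * q)) ∧
        nuF P β h (deriv lam h) ω = 2 * limsup (fun n : ℕ => Real.log (σ h n) / Real.log n) atTop ∧
        chiF P β h ω = liminf (fun n : ℕ => Real.log (σ h n) / Real.log n) atTop ∧
        (∃ c : ℝ, 0 < c ∧ (∀ᶠ n : ℕ in atTop, (n : ℝ) ^ (1 / 4 + c) ≤ σ h n ∧ σ h n ≤ (n : ℝ) ^ (1 / 2 - c)) ∧
          1 / 4 + c ≤ chiF P β h ω ∧ chiF P β h ω ≤ nuF P β h (deriv lam h) ω / 2 ∧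
          nuF P β h (deriv lam h) ω ≤ 1 - c) ∧
        (∀ κ : ℝ, Tendsto (fun u : ℝ => Real.log (J (deriv lam h + u) - J (deriv lam h) - h * u) / Real.log u) (𝓝[>] 0)
          (𝓝 κ) →
          Tendsto (fun n : ℕ => Real.log (σ h n) / Real.log n) atTop (𝓝 ((κ - 1) / (2 * κ - 1))) ∧
          nuF P β h (deriv lam h) ω = (2 * κ - 2) / (2 * κ - 1) ∧ chiF P β h ω = (κ - 1) / (2 * κ - 1))) ∧
      -- a dense set of forces
      (∃ T : Set ℝ, Dense T ∧ ∀ h ∈ T,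
        nuF P β h (deriv lam h) ω = 2 / 3 ∧ chiF P β h ω = 1 / 3 ∧
        Tendsto (fun n : ℕ => Real.log (σ h n) / Real.log n) atTop (𝓝 (1 / 3)) ∧
        ∃ c C : ℝ, 0 < c ∧
        (∀ r : ℝ, |r| ≤ 1 → c * r ^ 2 ≤ lam (h + r) - lam h - r * deriv lam h ∧
          lam (h + r) - lam h - r * deriv lam h ≤ C * r ^ 2) ∧
        (∀ᶠ n : ℕ in atTop,
          c * (n * σ h n) ≤
            ∫ x, fE β h (fun p => ω p x) n (fun s => |(walk s n : ℝ) - deriv lam h * n| ^ 2) ∂P ∧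
          ∫ x, fE β h (fun p => ω p x) n (fun s => mxv (deriv lam h) s ^ 2) ∂P ≤ C * (n * σ h n)) ∧
        (∀ᶠ n : ℕ in atTop, ∀ R : ℝ, 1 ≤ R → 1 - ∫ x, fP β h (fun p => ω p x) n
          {s | mxv (deriv lam h) s ≤ R * Real.sqrt (n * σ h n)} ∂P ≤ C * Real.exp (-(c * R ^ c))) ∧
        (∀ ε : ℝ, 0 < ε → ∃ a : ℝ, 0 < a ∧ ∀ᶠ n : ℕ in atTop, ∫ x, fP β h (fun p => ω p x) n
          {s | |(walk s n : ℝ) - deriv lam h * n| ≤ a * Real.sqrt (n * σ h n)} ∂P ≤ ε) ∧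
        (∀ q : ℕ, ∃ a A : ℝ, 0 < a ∧ ∀ᶠ n : ℕ in atTop,
          a * Real.sqrt (n * σ h n) ^ q ≤
            ∫ x, fE β h (fun p => ω p x) n (fun s => |(walk s n : ℝ) - deriv lam h * n| ^ q) ∂P ∧
          ∫ x, fE β h (fun p => ω p x) n (fun s => mxv (deriv lam h) s ^ q) ∂P ≤ A * Real.sqrt (n * σ h n) ^ q)) ∧
      -- almost every force
      (∀ᵐ h : ℝ, nuF P β h (deriv lam h) ω ≤ 2 / 3 ∧ chiF P β h ω ≤ 1 / 3 ∧
        limsup (fun n : ℕ => Real.log (σ h n) / Real.log n) atTop ≤ 1 / 3 ∧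
        ∃ C : ℝ, ∀ᶠ n : ℕ in atTop,
          ∫ x, fE β h (fun p => ω p x) n (fun s => mxv (deriv lam h) s ^ 2) ∂P ≤ C * (n * σ h n)) ∧
      -- almost every velocity
      (∀ᵐ v : ℝ, ∀ h : ℝ, deriv lam h = v → 2 / 3 ≤ nuF P β h v ω ∧ 1 / 3 ≤ chiF P β h ω ∧
        ∃ c : ℝ, 0 < c ∧ ∀ᶠ n : ℕ in atTop, c * (n * σ h n) ≤
          ∫ x, fE β h (fun p => ω p x) n (fun s => |(walk s n : ℝ) - v * n| ^ 2) ∂P) := by
  obtain ⟨lam, σ, hd, hlim, hσ, ⟨T, hT, hTall⟩, hF, hV⟩ := main_K P ω hmeas hindep hident hnc hexp hβ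
  obtain ⟨lam', J, F, -, h0, hd0, hlim', -, hJ, hall⟩ := main_F P ω hmeas hindep hident hnc hexp hβ
  have hid : lam' = lam := by
    funext h
    obtain ⟨x, hx1, hx2, hx3⟩ := ((hlim' h).and ((hlim' 0).and (hlim h))).exists
    have h1 : Tendsto (fun n : ℕ => Real.log (endMGF β h (fun p => ω p x) n) / n) atTop (𝓝 ((F + lam' h) - (F + lam' 0))) :=
      (hx1.sub hx2).congr fun n => by rw [log_endMGF29, sub_div]
    have h2 := tendsto_nhds_unique hx3 h1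
    rw [h2, h0]
    ring
  subst hid
  have hSF := hS lam' hlim
  have hsq : ∀ h n, σ h n ^ 2 = Var[fun x => Real.log (fZ β h (fun p => ω p x) n); P] := fun h n => by
    rw [hσ h n]
    exact Real.sq_sqrt (variance_nonneg _ _)
  -- every force
  have hE : ∀ h : ℝ, Bd20 (σ h) ∧ (∀ (q : ℕ) (ε : ℝ), 0 < ε → ∀ᶠ n : ℕ in atTop,
          (n : ℝ) ^ (-ε) * σ h n ^ (2 * q) ≤
            ∫ x, fE β h (fun p => ω p x) n (fun s => |(walk s n : ℝ) - deriv lam' h * n| ^ q) ∂P ∧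
          ∫ x, fE β h (fun p => ω p x) n (fun s => |(walk s n : ℝ) - deriv lam' h * n| ^ q) ∂P ≤
            ∫ x, fE β h (fun p => ω p x) n (fun s => mxv (deriv lam' h) s ^ q) ∂P ∧
          ∫ x, fE β h (fun p => ω p x) n (fun s => mxv (deriv lam' h) s ^ q) ∂P ≤ (n : ℝ) ^ ε * σ h n ^ (2 * q)) ∧
      nuF P β h (deriv lam' h) ω = 2 * limsup (lg20 (σ h)) atTop ∧ chiF P β h ω = liminf (lg20 (σ h)) atTop ∧
      (∃ e : ℝ, 0 < e ∧ (∀ᶠ n : ℕ in atTop, (n : ℝ) ^ (1 / 4 + e) ≤ σ h n ∧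
        σ h n ≤ (n : ℝ) ^ (1 / 2 - e)) ∧ 1 / 4 + e ≤ chiF P β h ω ∧ chiF P β h ω ≤ nuF P β h (deriv lam' h) ω / 2 ∧
        nuF P β h (deriv lam' h) ω ≤ 1 - e) ∧
      (∀ κ : ℝ, Tendsto (fun u : ℝ => Real.log (J (deriv lam' h + u) - J (deriv lam' h) - h * u) / Real.log u) (𝓝[>] 0)
          (𝓝 κ) → Tendsto (lg20 (σ h)) atTop (𝓝 ((κ - 1) / (2 * κ - 1))) ∧
          nuF P β h (deriv lam' h) ω = (2 * κ - 2) / (2 * κ - 1)) := by
    intro h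
    have hsc : ∀ (q : ℕ) (ε : ℝ), 0 < ε → ∀ᶠ n : ℕ in atTop,
          (n : ℝ) ^ (-ε) * σ h n ^ (2 * q) ≤
            ∫ x, fE β h (fun p => ω p x) n (fun s => |(walk s n : ℝ) - deriv lam' h * n| ^ q) ∂P ∧
          ∫ x, fE β h (fun p => ω p x) n (fun s => |(walk s n : ℝ) - deriv lam' h * n| ^ q) ∂P ≤
            ∫ x, fE β h (fun p => ω p x) n (fun s => mxv (deriv lam' h) s ^ q) ∂P ∧
          ∫ x, fE β h (fun p => ω p x) n (fun s => mxv (deriv lam' h) s ^ q) ∂P ≤ (n : ℝ) ^ ε * σ h n ^ (2 * q) := by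
      intro q ε hε
      filter_upwards [hSF h q ε hε] with n h1
      rw [pow_mul, hsq]
      exact h1
    obtain ⟨v, I, σ', w, c, C, n₁, hc, hv, -, hI, -, -, -, -, hσ', -, hev, -, -, -, -, -, hmom, hnu, hchi, -, -, -, -, -, -, -,
      -, hk⟩ := hall h
    subst hv
    have hσσ : σ' = σ h := by
      funext n
      rw [hσ' n, hσ h n]
    subst hσσ
    have hI' : I = fun u => J (deriv lam' h + u) - J (deriv lam' h) - h * u := funext hI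
    subst hI'
    obtain ⟨a, A, ha, hm⟩ := hmom 1
    have hup : ∀ ε : ℝ, 0 < ε → ∀ᶠ n : ℕ in atTop, w n ≤ (n : ℝ) ^ ε * σ h n ^ 2 := by
      intro ε hε
      filter_upwards [hm, hsc 1 (ε / 2) (by positivity), ev_pow20 (1 / a) (show 0 < ε / 2 by positivity),
        eventually_ge_atTop 1] with n h1 h2 h3 h4
      have hn : (0 : ℝ) < n := by exact_mod_cast h4
      have e1 : (n : ℝ) ^ ε = (n : ℝ) ^ (ε / 2) * (n : ℝ) ^ (ε / 2) := by
        rw [← Real.rpow_add hn]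
        ring_nf
      have h5 : a * w n ≤ (n : ℝ) ^ (ε / 2) * σ h n ^ 2 := by
        have h6 := (h1.1.trans h2.2.1).trans h2.2.2
        simpa using h6
      calc w n ≤ (n : ℝ) ^ (ε / 2) * σ h n ^ 2 / a := by
            rw [le_div_iff₀ ha]
            linarith
        _ = 1 / a * ((n : ℝ) ^ (ε / 2) * σ h n ^ 2) := by ring
        _ ≤ (n : ℝ) ^ (ε / 2) * ((n : ℝ) ^ (ε / 2) * σ h n ^ 2) := mul_le_mul_of_nonneg_right h3 (by positivity)
        _ = (n : ℝ) ^ ε * σ h n ^ 2 := by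
            rw [e1]
            ring
    have hlow : ∀ ε : ℝ, 0 < ε → ∀ᶠ n : ℕ in atTop, σ h n ^ 2 ≤ (n : ℝ) ^ ε * w n := by
      intro ε hε
      filter_upwards [hm, hsc 1 (ε / 2) (by positivity), ev_pow20 A (show 0 < ε / 2 by positivity),
        eventually_ge_atTop 1, hev] with n h1 h2 h3 h4 h5
      have hn : (0 : ℝ) < n := by exact_mod_cast h4
      have e1 : (n : ℝ) ^ ε = (n : ℝ) ^ (ε / 2) * (n : ℝ) ^ (ε / 2) := by
        rw [← Real.rpow_add hn]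
        ring_nf
      have hw0 : 0 ≤ w n := (Real.rpow_nonneg hn.le _).trans h5.2.2.1
      have h6 : (n : ℝ) ^ (-(ε / 2)) * σ h n ^ 2 ≤ A * w n := by
        have h7 := (h2.1.trans h2.2.1).trans h1.2
        simpa using h7
      rw [Real.rpow_neg hn.le, inv_mul_le_iff₀ (Real.rpow_pos_of_pos hn _)] at h6
      calc σ h n ^ 2 ≤ (n : ℝ) ^ (ε / 2) * (A * w n) := h6
        _ ≤ (n : ℝ) ^ (ε / 2) * ((n : ℝ) ^ (ε / 2) * w n) :=
            mul_le_mul_of_nonneg_left (mul_le_mul_of_nonneg_right h3 hw0) (Real.rpow_nonneg hn.le _)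
        _ = (n : ℝ) ^ ε * w n := by
            rw [e1]
            ring
    obtain ⟨g1, g2, g3, g4⟩ := one29 (σ := σ h) (w := w) (nu := nuF P β h (deriv lam' h) ω) (chi := chiF P β h ω) hc
      (hev.mono fun n h1 => ⟨h1.1, h1.2.1, h1.2.2.1, h1.2.2.2.1, h1.2.2.2.2.2.1⟩) hup hlow hnu hchi
      (fun κ hκ => ⟨(hk κ hκ).1, (hk κ hκ).2.1⟩)
    exact ⟨g1, hsc, g2, hchi, g3, g4⟩
  -- the dense set
  have hthird : ∀ (h c : ℝ), 0 < c → (∀ᶠ n : ℕ in atTop, c * (n * σ h n) ≤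
      ∫ x, fE β h (fun p => ω p x) n (fun s => |(walk s n : ℝ) - deriv lam' h * n| ^ 2) ∂P) →
      1 / 3 ≤ liminf (lg20 (σ h)) atTop := by
    intro h c hc h1
    refine lg_third29 (hE h).1 hc fun ε hε => ?_
    filter_upwards [h1, (hE h).2.1 2 ε hε] with n h2 h3
    refine (h2.trans (h3.2.1.trans h3.2.2)).trans (le_of_eq ?_)
    rw [pow_mul]
  refine ⟨lam', J, σ, hd, hd0, lim_unique20 P ω hmeas hindep hident hnc hexp hβ hlim, hlim, hJ, hσ, fun h => ?_,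
    ⟨T, hT, fun h hh => ?_⟩, ?_, ?_⟩
  · obtain ⟨-, g1, g2, g3, g4, g5⟩ := hE h
    refine ⟨g1, g2, g3, g4, fun κ hκ => ?_⟩
    obtain ⟨k1, k2⟩ := g5 κ hκ
    refine ⟨k1, k2, ?_⟩
    rw [g3]
    exact k1.liminf_eq
  · obtain ⟨hB, -, g2, g3, -, -⟩ := hE h
    obtain ⟨c, C, hc, hq, hev, htail, hend, hmom, hnu2, hchi, -⟩ := hTall h hh
    have hnu2' : 2 * nuF P β h (deriv lam' h) ω - 1 = limsup (lg20 (σ h)) atTop := hnu2
    have hnu3 : nuF P β h (deriv lam' h) ω = 2 / 3 := by linarith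
    have hls : limsup (lg20 (σ h)) atTop = 1 / 3 := by linarith
    have hli := hthird h c hc (hev.mono fun n h1 => h1.1)
    have hle := inf_le_sup20 hB
    have hli' : liminf (lg20 (σ h)) atTop = 1 / 3 := le_antisymm (by linarith) hli
    refine ⟨hnu3, by rw [g3, hli'], lg_tendsto29 hB hli hls.le, c, C, hc, hq, hev.mono fun n h1 => ⟨h1.1, h1.2.1⟩, htail,
      hend, hmom⟩
  · filter_upwards [hF] with h hh
    obtain ⟨hB, -, g2, g3, ⟨e, he, -, g5, g6, -⟩, -⟩ := hE h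
    obtain ⟨c, C, hc, hev, hnu2, -⟩ := hh
    have hnu2' : 2 * nuF P β h (deriv lam' h) ω - 1 ≤ limsup (lg20 (σ h)) atTop := hnu2
    have h1 : nuF P β h (deriv lam' h) ω ≤ 2 / 3 := by linarith
    refine ⟨h1, by linarith, ?_, C, hev⟩
    have h2 : limsup (lg20 (σ h)) atTop ≤ 1 / 3 := by linarith
    exact h2
  · filter_upwards [hV] with v hv h hh
    obtain ⟨c, hc, hev, -⟩ := hv h hh
    subst hh
    obtain ⟨hB, -, g2, g3, ⟨e, he, -, g5, g6, -⟩, -⟩ := hE h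
    have h1 := hthird h c hc hev
    exact ⟨by linarith, by linarith, c, hc, hev⟩

end Pool.Agent.W_7d29a1_LB
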