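import Pool.Agent.W_7d29a1_LB.Scale29
import Pool.Agent.W_7d29a1_LB.Fin29

/-!
STORM LB + UB (helper29): THE EXPONENTS OF THE POLYMER UNDER A FORCE, from the two bounds of the variance at every tilt.
-/

set_option autoImplicit false

namespace Pool.Agent.W_7d29a1_LB

open MeasureTheory ProbabilityTheory Filter Topology
open Pool.Agent.W_7d29a1_HM
open Pool.Agent.W_7d29a1_h47 (EM Nondeg walk endMGF)

/-- **THE EXPONENTS**, from `w_n ≤ n ^ ε Var` and `Var ≤ n ^ ε w_n` at every tilt. -/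
theorem main_A29 (hL : ∀ (μ : Measure ℝ) [IsProbabilityMeasure μ], EM μ → Nondeg μ → ∀ s, LB20 μ s)
    (hU : ∀ (μ : Measure ℝ) [IsProbabilityMeasure μ], EM μ → Nondeg μ → ∀ s, UB20 μ s)
    {Ω : Type*} [MeasurableSpace Ω] (P : Measure Ω) [IsProbabilityMeasure P]
    (ω : ℕ × ℤ → Ω → ℝ) (hmeas : ∀ p, Measurable (ω p)) (hindep : iIndepFun ω P)
    (hident : ∀ p q, IdentDistrib (ω p) (ω q) P P) (hnc : ¬ ∃ c : ℝ, ∀ᵐ x ∂P, ω (0, 0) x = c)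
    (hexp : ∀ b : ℝ, Integrable (fun x => Real.exp (b * ω (0, 0) x)) P) {β : ℝ} (hβ : 0 < β) :
    ∃ (lam J : ℝ → ℝ) (σ : ℝ → ℕ → ℝ), Differentiable ℝ lam ∧ deriv lam 0 = 0 ∧ Set.range (deriv lam) = Set.Ioo (-1) 1 ∧
      (∀ h, ∀ᵐ x ∂P, Tendsto (fun n : ℕ => Real.log (endMGF β h (fun p => ω p x) n) / n) atTop (𝓝 (lam h))) ∧
      (∀ v, |v| < 1 → IsLUB (Set.range fun k => k * v - lam k) (J v)) ∧
      (∀ h n, σ h n = Real.sqrt (Var[fun x => Real.log (fZ β h (fun p => ω p x) n); P])) ∧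
      -- every force
      (∀ h : ℝ,
        (∀ (q : ℕ) (ε : ℝ), 0 < ε → ∀ᶠ n : ℕ in atTop,
          (n : ℝ) ^ (-ε) * σ h n ^ (2 * q) ≤
            ∫ x, fE β h (fun p => ω p x) n (fun s => |(walk s n : ℝ) - deriv lam h * n| ^ q) ∂P ∧
          ∫ x, fE β h (fun p => ω p x) n (fun s => |(walk s n : ℝ) - deriv lam h * n| ^ q) ∂P ≤
            ∫ x, fE β h (fun p => ω p x) n (fun s => mxv (deriv lam h) s ^ q) ∂P ∧
          ∫ x, fE β h (fun p => ω p x) n (fun s => mxv (deriv lam h) s ^ q) ∂P ≤ (n : ℝ) ^ ε * σ h n ^ (2 * q)) ∧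
        nuF P β h (deriv lam h) ω = 2 * limsup (fun n : ℕ => Real.log (σ h n) / Real.log n) atTop ∧
        chiF P β h ω = liminf (fun n : ℕ => Real.log (σ h n) / Real.log n) atTop ∧
        (∃ c : ℝ, 0 < c ∧ (∀ᶠ n : ℕ in atTop, (n : ℝ) ^ (1 / 4 + c) ≤ σ h n ∧ σ h n ≤ (n : ℝ) ^ (1 / 2 - c)) ∧
          1 / 4 + c ≤ chiF P β h ω ∧ chiF P β h ω ≤ nuF P β h (deriv lam h) ω / 2 ∧
          nuF P β h (deriv lam h) ω ≤ 1 - c) ∧
        (∀ κ : ℝ, Tendsto (fun u : ℝ => Real.log (J (deriv lam h + u) - J (deriv lam h) - h * u) / Real.log u) (𝓝[>] 0)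
          (𝓝 κ) →
          Tendsto (fun n : ℕ => Real.log (σ h n) / Real.log n) atTop (𝓝 ((κ - 1) / (2 * κ - 1))) ∧
          nuF P β h (deriv lam h) ω = (2 * κ - 2) / (2 * κ - 1) ∧ chiF P β h ω = (κ - 1) / (2 * κ - 1))) ∧
      -- a dense set of forces
      (∃ T : Set ℝ, Dense T ∧ ∀ h ∈ T,
        nuF P β h (deriv lam h) ω = 2 / 3 ∧ chiF P β h ω = 1 / 3 ∧
        Tendsto (fun n : ℕ => Real.log (σ h n) / Real.log n) atTop (𝓝 (1 / 3)) ∧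
        ∃ c C : ℝ, 0 < c ∧
        (∀ r : ℝ, |r| ≤ 1 → c * r ^ 2 ≤ lam (h + r) - lam h - r * deriv lam h ∧
          lam (h + r) - lam h - r * deriv lam h ≤ C * r ^ 2) ∧
        (∀ᶠ n : ℕ in atTop,
          c * (n * σ h n) ≤
            ∫ x, fE β h (fun p => ω p x) n (fun s => |(walk s n : ℝ) - deriv lam h * n| ^ 2) ∂P ∧
          ∫ x, fE β h (fun p => ω p x) n (fun s => mxv (deriv lam h) s ^ 2) ∂P ≤ C * (n * σ h n)) ∧
        (∀ᶠ n : ℕ in atTop, ∀ R : ℝ, 1 ≤ R → 1 - ∫ x, fP β h (fun p => ω p x) n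
          {s | mxv (deriv lam h) s ≤ R * Real.sqrt (n * σ h n)} ∂P ≤ C * Real.exp (-(c * R ^ c))) ∧
        (∀ ε : ℝ, 0 < ε → ∃ a : ℝ, 0 < a ∧ ∀ᶠ n : ℕ in atTop, ∫ x, fP β h (fun p => ω p x) n
          {s | |(walk s n : ℝ) - deriv lam h * n| ≤ a * Real.sqrt (n * σ h n)} ∂P ≤ ε) ∧
        (∀ q : ℕ, ∃ a A : ℝ, 0 < a ∧ ∀ᶠ n : ℕ in atTop,
          a * Real.sqrt (n * σ h n) ^ q ≤
            ∫ x, fE β h (fun p => ω p x) n (fun s => |(walk s n : ℝ) - deriv lam h * n| ^ q) ∂P ∧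
          ∫ x, fE β h (fun p => ω p x) n (fun s => mxv (deriv lam h) s ^ q) ∂P ≤ A * Real.sqrt (n * σ h n) ^ q)) ∧
      -- almost every force
      (∀ᵐ h : ℝ, nuF P β h (deriv lam h) ω ≤ 2 / 3 ∧ chiF P β h ω ≤ 1 / 3 ∧
        limsup (fun n : ℕ => Real.log (σ h n) / Real.log n) atTop ≤ 1 / 3 ∧
        ∃ C : ℝ, ∀ᶠ n : ℕ in atTop,
          ∫ x, fE β h (fun p => ω p x) n (fun s => mxv (deriv lam h) s ^ 2) ∂P ≤ C * (n * σ h n)) ∧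
      -- almost every velocity
      (∀ᵐ v : ℝ, ∀ h : ℝ, deriv lam h = v → 2 / 3 ≤ nuF P β h v ω ∧ 1 / 3 ≤ chiF P β h ω ∧
        ∃ c : ℝ, 0 < c ∧ ∀ᶠ n : ℕ in atTop, c * (n * σ h n) ≤
          ∫ x, fE β h (fun p => ω p x) n (fun s => |(walk s n : ℝ) - v * n| ^ 2) ∂P) :=
  main_S29 P ω hmeas hindep hident hnc hexp hβ fun _ hlim h q _ hε =>
    scale29 hL hU P ω hmeas hindep hident hnc hexp hβ hlim h q hε

end Pool.Agent.W_7d29a1_LB
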