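import Pool.Agent.W_7d29a1_HZ.Z96_ScaleZ
import Pool.Agent.W_7d29a1_HZ.Defs
import Pool.Agent.W_7d29a1_HN.VarLe

/-!
STORM LB (MP_7d29a1_pr, row 671 of the table `proofs`, helper77): the end. From the step `V (x + w) ≥ V (x) + 1` to the lower bound
`Var log Z_n ≥ n ^ (- ε) w_n`. (helper86)
-/

set_option autoImplicit false

namespace Pool.Agent.W_7d29a1_LB

open MeasureTheory ProbabilityTheory Filter Topology
open Pool.Agent.W_7d29a1_F Pool.Agent.W_7d29a1_h4g Pool.Agent.W_7d29a1_H Pool.Agent.W_7d29a1_HS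

/-- Climbing with the steps `w`. -/
theorem climb86 {F : ℕ → ℝ} {w x0 : ℕ} {X : ℝ} (hF : 0 ≤ F x0)
    (hstep : ∀ x : ℕ, x0 ≤ x → ((x + w : ℕ) : ℝ) ≤ X → F x + 1 ≤ F (x + w)) :
    ∀ k : ℕ, ((x0 + k * w : ℕ) : ℝ) ≤ X → (k : ℝ) ≤ F (x0 + k * w)
  | 0, _ => by simpa using hF
  | k + 1, h => by
    have e1 : x0 + (k + 1) * w = x0 + k * w + w := by ring
    have h1 : ((x0 + k * w : ℕ) : ℝ) ≤ X := by
      refine le_trans ?_ h
      exact_mod_cast (by rw [e1]; omega : x0 + k * w ≤ x0 + (k + 1) * w)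
    have h2 := climb86 hF hstep k h1
    have h3 := hstep (x0 + k * w) (Nat.le_add_right _ _) (by rw [← e1]; exact h)
    rw [e1]
    push_cast
    linarith

/-- The number of the steps. -/
theorem climb_num86 {F : ℕ → ℝ} {w x0 : ℕ} {X v : ℝ} (hw : 1 ≤ w) (hF : ∀ x, 0 ≤ F x)
    (hstep : ∀ x : ℕ, x0 ≤ x → ((x + w : ℕ) : ℝ) ≤ X → F x + 1 ≤ F (x + w)) (hv : ∀ x, F x ≤ v) :
    X - x0 - w ≤ w * v := by
  have hwR : (0 : ℝ) < w := by exact_mod_cast hw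
  have hv0 : 0 ≤ v := (hF 0).trans (hv 0)
  rcases lt_or_ge (X - x0) 0 with h | h
  · nlinarith
  obtain ⟨k, hk⟩ : ∃ k : ℕ, k = ⌊(X - x0) / w⌋₊ := ⟨_, rfl⟩
  have h1 : (k : ℝ) ≤ (X - x0) / w := by
    rw [hk]
    exact Nat.floor_le (div_nonneg h hwR.le)
  have h2 : (X - x0) / w < k + 1 := by
    rw [hk]
    exact Nat.lt_floor_add_one _
  rw [le_div_iff₀ hwR] at h1
  rw [div_lt_iff₀ hwR] at h2
  have h3 := climb86 (hF x0) hstep k (by push_cast; linarith)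
  have h4 := h3.trans (hv _)
  have h5 : (k : ℝ) * w ≤ v * w := mul_le_mul_of_nonneg_right h4 hwR.le
  nlinarith

variable {μ : Measure ℝ} [IsProbabilityMeasure μ] {s c C : ℝ} {n₀ : ℕ}

/-- **`V (x) = E (U_x - U_0) ^ 2`**, `U_x` the free energy of the polymer with the free end point and the start `(0, x)`. -/
noncomputable def Vx (μ : Measure ℝ) (s : ℝ) (n : ℕ) (x : ℤ) : ℝ := ∫ η, (V μ s η (0, x) n - V μ s η 0 n) ^ 2 ∂(law μ)

theorem Vx_nonneg (s : ℝ) (n : ℕ) (x : ℤ) : 0 ≤ Vx μ s n x := integral_nonneg fun _ => sq_nonneg _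

theorem var_shift86 (s : ℝ) (n : ℕ) (a : Pt) :
    ∫ η, (V μ s η a n - ∫ ξ, V μ s ξ 0 n ∂(law μ)) ^ 2 ∂(law μ) = Var[fun η => V μ s η 0 n; law μ] := by
  have hm : Measurable fun η : Env => V μ s η 0 n := measurable_V 0 n
  rw [variance_eq_integral hm.aemeasurable]
  have h := mp_sh (μ := μ) a
  have h2 : (fun η : Env => (V μ s η a n - ∫ ξ, V μ s ξ 0 n ∂(law μ)) ^ 2) =
      fun η : Env => (fun ξ => (V μ s ξ 0 n - ∫ ζ, V μ s ζ 0 n ∂(law μ)) ^ 2) (sh a η) := by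
    funext η
    show _ = (V μ s (sh a η) 0 n - _) ^ 2
    rw [V_sh, zero_add]
  rw [h2, ← integral_map h.measurable.aemeasurable (f := fun ξ : Env => (V μ s ξ 0 n - ∫ ζ, V μ s ζ 0 n ∂(law μ)) ^ 2)
    ((hm.sub_const _).pow_const 2).aestronglyMeasurable, h.map_eq]

/-- `V (x) ≤ 4 Var U_0`. -/
theorem Vx_le (hEM : Pool.Agent.W_7d29a1_h47.EM μ) (s : ℝ) (n : ℕ) (x : ℤ) :
    Vx μ s n x ≤ 4 * Var[fun η => V μ s η 0 n; law μ] := by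
  have h1 := var_shift86 (μ := μ) s n (0, x)
  have h2 := var_shift86 (μ := μ) s n 0
  have i1 : Integrable (fun η => (V μ s η (0, x) n - ∫ ξ, V μ s ξ 0 n ∂(law μ)) ^ 2) (law μ) :=
    ((Sub_V (0, x) n).sub (Sub.const (∫ ξ, V μ s ξ 0 n ∂(law μ)))).sq_integrable hEM
  have i2 : Integrable (fun η => (V μ s η 0 n - ∫ ξ, V μ s ξ 0 n ∂(law μ)) ^ 2) (law μ) :=
    ((Sub_V 0 n).sub (Sub.const (∫ ξ, V μ s ξ 0 n ∂(law μ)))).sq_integrable hEM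
  have i3 : Integrable (fun η => (V μ s η (0, x) n - V μ s η 0 n) ^ 2) (law μ) :=
    ((Sub_V (0, x) n).sub (Sub_V 0 n)).sq_integrable hEM
  unfold Vx
  calc ∫ η, (V μ s η (0, x) n - V μ s η 0 n) ^ 2 ∂(law μ)
      ≤ ∫ η, (2 * (V μ s η (0, x) n - ∫ ξ, V μ s ξ 0 n ∂(law μ)) ^ 2 +
          2 * (V μ s η 0 n - ∫ ξ, V μ s ξ 0 n ∂(law μ)) ^ 2) ∂(law μ) := by
        refine integral_mono i3 ((i1.const_mul 2).add (i2.const_mul 2)) fun η => ?_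
        show (V μ s η (0, x) n - V μ s η 0 n) ^ 2 ≤ 2 * (V μ s η (0, x) n - ∫ ξ, V μ s ξ 0 n ∂(law μ)) ^ 2 +
          2 * (V μ s η 0 n - ∫ ξ, V μ s ξ 0 n ∂(law μ)) ^ 2
        nlinarith [sq_nonneg ((V μ s η (0, x) n - ∫ ξ, V μ s ξ 0 n ∂(law μ)) + (V μ s η 0 n - ∫ ξ, V μ s ξ 0 n ∂(law μ)))]
    _ = 4 * Var[fun η => V μ s η 0 n; law μ] := by
        rw [integral_add (i1.const_mul 2) (i2.const_mul 2), integral_const_mul, integral_const_mul, h1, h2]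
        ring

/-- **THE END OF STORM LB**: from the step to `Var log Z_n ≥ n ^ (- ε) w_n`. -/
theorem end_of (h : In μ s c C n₀)
    (hstep : ∀ ε : ℝ, 0 < ε → ∃ N₀ : ℕ, ∀ n : ℕ, N₀ ≤ n → ∃ w x0 : ℕ, 1 ≤ w ∧ (w : ℝ) ≤ (n : ℝ) ^ ε ∧
      (x0 : ℝ) ≤ (n : ℝ) ^ ε ∧ ∀ x : ℕ, x0 ≤ x → ((x + w : ℕ) : ℝ) ≤ (n : ℝ) ^ (-ε) * wd μ s n →
        Vx μ s n x + 1 ≤ Vx μ s n ((x + w : ℕ) : ℤ)) :
    ∀ ε : ℝ, 0 < ε → ∃ N₀ : ℕ, ∀ n : ℕ, N₀ ≤ n →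
      (n : ℝ) ^ (-ε) * wd μ s n ≤ Var[fun η => V μ s η 0 n; law μ] := by
  intro ε hε
  obtain ⟨e, he⟩ : ∃ e : ℝ, e = min (ε / 4) (1 / 32) := ⟨_, rfl⟩
  have he0 : 0 < e := by rw [he]; positivity
  have he1 : 4 * e ≤ ε := by
    have : e ≤ ε / 4 := by rw [he]; exact min_le_left _ _
    linarith
  have he2 : e ≤ 1 / 32 := by rw [he]; exact min_le_right _ _
  obtain ⟨N₁, h1⟩ := hstep e he0
  obtain ⟨N₂, h2⟩ := Pool.Agent.W_7d29a1_HZ.Z96.wd_eq96 h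
  obtain ⟨N₃, h3⟩ := eventually_atTop.1
    ((((tendsto_rpow_atTop he0).comp tendsto_natCast_atTop_atTop).eventually_ge_atTop 8).and (eventually_ge_atTop 2))
  refine ⟨max N₁ (max N₂ N₃), fun n hn => ?_⟩
  obtain ⟨w, x0, hw, hwn, hx0, hst⟩ := h1 n ((le_max_left _ _).trans hn)
  obtain ⟨-, -, hW⟩ := h2 n (((le_max_left _ _).trans (le_max_right _ _)).trans hn)
  obtain ⟨h8, hn2⟩ := h3 n (((le_max_right _ _).trans (le_max_right _ _)).trans hn)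
  have h8' : (8 : ℝ) ≤ (n : ℝ) ^ e := h8
  have hn1 : (1 : ℝ) ≤ n := by
    have : (2 : ℝ) ≤ n := by exact_mod_cast hn2
    linarith
  have hn0 : (0 : ℝ) < n := by linarith
  have hW0 : 0 < wd μ s n := (Real.rpow_pos_of_pos hn0 _).trans_le hW
  have hV0 : 0 ≤ Var[fun η => V μ s η 0 n; law μ] := variance_nonneg _ _
  have key := climb_num86 (F := fun x : ℕ => Vx μ s n x) (v := 4 * Var[fun η => V μ s η 0 n; law μ]) hw
    (fun x => Vx_nonneg s n x) hst fun x => Vx_le h.em s n x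
  -- the numbers: `t = n ^ e`
  obtain ⟨t, ht⟩ : ∃ t : ℝ, t = (n : ℝ) ^ e := ⟨_, rfl⟩
  have ht8 : 8 ≤ t := by rw [ht]; exact h8'
  have ht0 : 0 < t := by linarith
  have hneg : (n : ℝ) ^ (-e) = 1 / t := by rw [Real.rpow_neg hn0.le, ← ht, one_div]
  rw [← ht] at hwn hx0
  rw [hneg] at key
  have hWt : t ^ 8 ≤ wd μ s n := by
    refine le_trans ?_ hW
    rw [ht, ← Real.rpow_natCast, ← Real.rpow_mul hn0.le]
    exact Real.rpow_le_rpow_of_exponent_le hn1 (by push_cast; linarith)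
  have hε' : (n : ℝ) ^ (-ε) ≤ 1 / t ^ 4 := by
    rw [ht, one_div, ← Real.rpow_natCast, ← Real.rpow_mul hn0.le, ← Real.rpow_neg hn0.le]
    exact Real.rpow_le_rpow_of_exponent_le hn1 (by push_cast; linarith)
  have hwv : (w : ℝ) * (4 * Var[fun η => V μ s η 0 n; law μ]) ≤ t * (4 * Var[fun η => V μ s η 0 n; law μ]) :=
    mul_le_mul_of_nonneg_right hwn (by positivity)
  have h5 : 1 / t * wd μ s n - 2 * t ≤ t * (4 * Var[fun η => V μ s η 0 n; law μ]) := by linarith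
  -- multiply by `t`
  have h6 : wd μ s n - 2 * t ^ 2 ≤ t ^ 2 * (4 * Var[fun η => V μ s η 0 n; law μ]) := by
    have h7 := mul_le_mul_of_nonneg_left h5 ht0.le
    have e1 : t * (1 / t * wd μ s n - 2 * t) = wd μ s n - 2 * t ^ 2 := by field_simp
    rw [e1] at h7
    linarith
  have h9 : 4 * t ^ 2 ≤ wd μ s n := by
    refine le_trans ?_ hWt
    have h10 : (4 : ℝ) ≤ t ^ 6 := by nlinarith [pow_le_pow_left₀ (by norm_num : (0 : ℝ) ≤ 8) ht8 6]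
    calc 4 * t ^ 2 ≤ t ^ 6 * t ^ 2 := mul_le_mul_of_nonneg_right h10 (by positivity)
      _ = t ^ 8 := by ring
  have h11 : wd μ s n ≤ 8 * (t ^ 2 * Var[fun η => V μ s η 0 n; law μ]) := by linarith
  have h12 : wd μ s n ≤ t ^ 4 * Var[fun η => V μ s η 0 n; law μ] := by
    refine h11.trans ?_
    have h13 : (8 : ℝ) ≤ t ^ 2 := by nlinarith
    calc 8 * (t ^ 2 * Var[fun η => V μ s η 0 n; law μ]) ≤ t ^ 2 * (t ^ 2 * Var[fun η => V μ s η 0 n; law μ]) :=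
          mul_le_mul_of_nonneg_right h13 (by positivity)
      _ = t ^ 4 * Var[fun η => V μ s η 0 n; law μ] := by ring
  calc (n : ℝ) ^ (-ε) * wd μ s n ≤ 1 / t ^ 4 * wd μ s n := mul_le_mul_of_nonneg_right hε' hW0.le
    _ ≤ 1 / t ^ 4 * (t ^ 4 * Var[fun η => V μ s η 0 n; law μ]) := mul_le_mul_of_nonneg_left h12 (by positivity)
    _ = Var[fun η => V μ s η 0 n; law μ] := by field_simp

/-- The same for the unit: `EE ^ 2 ≥ n ^ (- ε) w`. -/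
theorem end_EE (h : In μ s c C n₀)
    (hv : ∀ ε : ℝ, 0 < ε → ∃ N₀ : ℕ, ∀ n : ℕ, N₀ ≤ n →
      (n : ℝ) ^ (-ε) * wd μ s n ≤ Var[fun η => V μ s η 0 n; law μ]) :
    ∀ ε : ℝ, 0 < ε → ∃ N₀ : ℕ, ∀ n : ℕ, N₀ ≤ n → (n : ℝ) ^ (-ε) * wd μ s n ≤ EE μ s n ^ 2 := by
  intro ε hε
  obtain ⟨A, hA, h1⟩ := Pool.Agent.W_7d29a1_HN.var_le83 h
  obtain ⟨N₁, h2⟩ := hv (ε / 2) (by positivity)
  obtain ⟨N₃, h3⟩ := eventually_atTop.1
    ((((tendsto_rpow_atTop (show 0 < ε / 2 by positivity)).comp tendsto_natCast_atTop_atTop).eventually_ge_atTop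
      (A ^ 2)).and (eventually_ge_atTop 1))
  obtain ⟨N₂, h4⟩ := Pool.Agent.W_7d29a1_HZ.Z96.wd_eq96 h
  refine ⟨max N₁ (max N₂ N₃), fun n hn => ?_⟩
  have g1 := h2 n ((le_max_left _ _).trans hn)
  obtain ⟨-, -, hW⟩ := h4 n (((le_max_left _ _).trans (le_max_right _ _)).trans hn)
  obtain ⟨h8, hn1⟩ := h3 n (((le_max_right _ _).trans (le_max_right _ _)).trans hn)
  have h8' : A ^ 2 ≤ (n : ℝ) ^ (ε / 2) := h8
  have hn0 : (0 : ℝ) < n := by exact_mod_cast hn1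
  have g2 := g1.trans (h1 n hn1)
  have hA2 : 0 < A ^ 2 := by positivity
  have hp : 0 < (n : ℝ) ^ (ε / 2) := Real.rpow_pos_of_pos hn0 _
  have e1 : (n : ℝ) ^ (-ε) * wd μ s n = (n : ℝ) ^ (-(ε / 2)) * ((n : ℝ) ^ (-(ε / 2)) * wd μ s n) := by
    rw [← mul_assoc, ← Real.rpow_add hn0]
    congr 2
    ring
  rw [e1]
  calc (n : ℝ) ^ (-(ε / 2)) * ((n : ℝ) ^ (-(ε / 2)) * wd μ s n) ≤ (n : ℝ) ^ (-(ε / 2)) * (A ^ 2 * EE μ s n ^ 2) :=
        mul_le_mul_of_nonneg_left g2 (Real.rpow_nonneg hn0.le _)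
    _ ≤ (n : ℝ) ^ (-(ε / 2)) * ((n : ℝ) ^ (ε / 2) * EE μ s n ^ 2) :=
        mul_le_mul_of_nonneg_left (mul_le_mul_of_nonneg_right h8' (by positivity)) (Real.rpow_nonneg hn0.le _)
    _ = EE μ s n ^ 2 := by
        rw [← mul_assoc, ← Real.rpow_add hn0, neg_add_cancel, Real.rpow_zero, one_mul]

end Pool.Agent.W_7d29a1_LB
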