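import Pool.Agent.W_7d29a1_HZ.PB
import Pool.Agent.W_7d29a1_HL.Main

/-!
STORM LB (MP_7d29a1_pr, proofs row 671), section 6: the times `t1` (the width reaches `x`) and `t0 = t1 n ^ (- e)`. (helper14)
-/

set_option autoImplicit false

namespace Pool.Agent.W_7d29a1_LB

open MeasureTheory ProbabilityTheory Filter Topology
open Pool.Agent.W_7d29a1_F Pool.Agent.W_7d29a1_h4g Pool.Agent.W_7d29a1_H
open Pool.Agent.W_7d29a1_HS (In wd)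
open Pool.Agent.W_7d29a1_HZ (wd' EE' wd'_pow EE'_pow wd'_eq)

variable {μ : Measure ℝ} [IsProbabilityMeasure μ] {s c C : ℝ} {n₀ : ℕ}

theorem wd1_14 (μ : Measure ℝ) (s : ℝ) (n : ℕ) : 1 ≤ wd' μ s n := le_max_left _ _

theorem EE1_14 (μ : Measure ℝ) (s : ℝ) (n : ℕ) : 1 ≤ EE' μ s n := le_max_left _ _

theorem wd0_14 (μ : Measure ℝ) (s : ℝ) : wd' μ s 0 = 1 := by
  unfold Pool.Agent.W_7d29a1_HZ.wd' Pool.Agent.W_7d29a1_HS.wd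
  simp

/-- A power of `n` is eventually larger than a number. -/
theorem evp14 {e : ℝ} (he : 0 < e) (B : ℝ) : ∀ᶠ n : ℕ in atTop, B ≤ (n : ℝ) ^ e :=
  ((tendsto_rpow_atTop he).comp tendsto_natCast_atTop_atTop).eventually_ge_atTop B

/-- **The times**: `t1` is the time at which the width is about `x`, `t0` is `t1` divided by `n ^ e`. -/
theorem times14 (h : In μ s c C n₀) : ∃ K a : ℝ, 1 ≤ K ∧ 0 < a ∧ a < 1 ∧ ∀ δ : ℝ, 0 < δ → δ ≤ 1 → ∀ e : ℝ, 0 < e → 2 * e ≤ δ →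
    ∃ N₀ : ℕ, ∀ n : ℕ, N₀ ≤ n → ∀ x : ℕ, (n : ℝ) ^ (3 * δ) ≤ x → (x : ℝ) ≤ (n : ℝ) ^ (-δ) * wd' μ s n → ∃ t1 t0 : ℕ,
      1 ≤ t0 ∧ t0 ≤ t1 ∧ 8 * t1 ≤ n ∧ (n : ℝ) ^ (2 * δ) ≤ t0 ∧ (x : ℝ) ≤ wd' μ s t1 ∧ wd' μ s t1 ≤ K * x ∧
      (n : ℝ) ^ e * t0 ≤ 2 * t1 ∧ (t1 : ℝ) ≤ (n : ℝ) ^ e * t0 ∧ (x : ℝ) ≤ K * (n : ℝ) ^ e * wd' μ s t0 ∧
      (n : ℝ) ^ (a * e) * wd' μ s t0 ≤ K * x := by
  obtain ⟨a, K, ha, ha1, hK, hw⟩ := wd'_pow h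
  have hK0 : 0 < K := by linarith
  obtain ⟨K1, hK1⟩ : ∃ K1 : ℝ, K1 = K * wd' μ s 1 := ⟨_, rfl⟩
  have hK1' : 1 ≤ K1 := by
    rw [hK1]
    have := wd1_14 μ s 1
    nlinarith
  refine ⟨4 * K ^ 2, a, by nlinarith, ha, ha1, fun δ hδ hδ1 e he hed => ?_⟩
  have ev : ∀ᶠ n : ℕ in atTop, 1 ≤ n ∧ 2 ≤ (n : ℝ) ^ e ∧ 2 * K1 ≤ (n : ℝ) ^ (δ / 2) ∧ 32 * K ^ 2 + 1 ≤ (n : ℝ) ^ δ := by
    filter_upwards [eventually_ge_atTop 1, evp14 he 2, evp14 (half_pos hδ) (2 * K1), evp14 hδ (32 * K ^ 2 + 1)] with n h1 h2 h3 h4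
    exact ⟨h1, h2, h3, h4⟩
  obtain ⟨N₀, hN₀⟩ := eventually_atTop.1 ev
  refine ⟨N₀, fun n hn x hx1 hx2 => ?_⟩
  obtain ⟨n1, n2, n3, n4⟩ := hN₀ n hn
  have hnR : (1 : ℝ) ≤ n := by exact_mod_cast n1
  have hn0 : (0 : ℝ) < n := by linarith
  have p3 : (n : ℝ) ^ (3 * δ) = (n : ℝ) ^ (2 * δ) * ((n : ℝ) ^ (δ / 2) * (n : ℝ) ^ (δ / 2)) := by
    rw [← Real.rpow_add hn0, ← Real.rpow_add hn0]
    congr 1
    ring
  have p2 : 1 ≤ (n : ℝ) ^ (2 * δ) := Real.one_le_rpow hnR (by positivity)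
  have pe : (n : ℝ) ^ e ≤ (n : ℝ) ^ (δ / 2) := Real.rpow_le_rpow_of_exponent_le hnR (by linarith)
  have hx0 : (2 * K1) * (n : ℝ) ^ e * (n : ℝ) ^ (2 * δ) ≤ x := by
    refine le_trans ?_ hx1
    rw [p3]
    have h1 : 2 * K1 * (n : ℝ) ^ e ≤ (n : ℝ) ^ (δ / 2) * (n : ℝ) ^ (δ / 2) :=
      mul_le_mul n3 pe (by positivity) (by positivity)
    calc 2 * K1 * (n : ℝ) ^ e * (n : ℝ) ^ (2 * δ) ≤ ((n : ℝ) ^ (δ / 2) * (n : ℝ) ^ (δ / 2)) * (n : ℝ) ^ (2 * δ) :=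
          mul_le_mul_of_nonneg_right h1 (by linarith)
      _ = _ := by ring
  have hxw : (x : ℝ) ≤ wd' μ s n := by
    refine hx2.trans ?_
    have h1 : (n : ℝ) ^ (-δ) ≤ 1 := Real.rpow_le_one_of_one_le_of_nonpos hnR (by linarith)
    have h2 := wd1_14 μ s n
    nlinarith
  -- the time `t1`
  have hex : ∃ t : ℕ, (x : ℝ) ≤ wd' μ s t := ⟨n, hxw⟩
  obtain ⟨t1, ht1⟩ : ∃ t1 : ℕ, t1 = Nat.find hex := ⟨_, rfl⟩
  have g1 : (x : ℝ) ≤ wd' μ s t1 := by rw [ht1]; exact Nat.find_spec hex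
  have g2 : ∀ t : ℕ, t < t1 → wd' μ s t < x := fun t ht => by
    rw [ht1] at ht
    exact not_le.1 (Nat.find_min hex ht)
  have g3 : t1 ≤ n := by rw [ht1]; exact Nat.find_min' hex hxw
  have hx4 : 4 ≤ (x : ℝ) := by
    have h1 : 4 ≤ 2 * K1 * (n : ℝ) ^ e := by nlinarith
    have h2 : 2 * K1 * (n : ℝ) ^ e * 1 ≤ 2 * K1 * (n : ℝ) ^ e * (n : ℝ) ^ (2 * δ) :=
      mul_le_mul_of_nonneg_left p2 (by positivity)
    linarith
  have t1pos : 1 ≤ t1 := by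
    rcases Nat.eq_zero_or_pos t1 with h0 | h0
    · rw [h0, wd0_14] at g1
      linarith
    · exact h0
  have ht1R : (1 : ℝ) ≤ t1 := by exact_mod_cast t1pos
  have ht10 : (0 : ℝ) < t1 := by linarith
  -- `t1` is large
  have g4 : (x : ℝ) ≤ K1 * t1 := by
    have h1 := (hw 1 t1 le_rfl t1pos).2.2
    have h2 : ((t1 : ℝ) / ((1 : ℕ) : ℝ)) ^ (1 - a) ≤ t1 := by
      rw [Nat.cast_one, div_one]
      calc (t1 : ℝ) ^ (1 - a) ≤ (t1 : ℝ) ^ (1 : ℝ) := Real.rpow_le_rpow_of_exponent_le ht1R (by linarith)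
        _ = t1 := Real.rpow_one _
    have h3 := wd1_14 μ s 1
    calc (x : ℝ) ≤ wd' μ s t1 := g1
      _ ≤ K * ((t1 : ℝ) / ((1 : ℕ) : ℝ)) ^ (1 - a) * wd' μ s 1 := h1
      _ ≤ K * t1 * wd' μ s 1 := by
        refine mul_le_mul_of_nonneg_right (mul_le_mul_of_nonneg_left h2 hK0.le) (by linarith)
      _ = K1 * t1 := by rw [hK1]; ring
  have g5 : 2 * (n : ℝ) ^ e * (n : ℝ) ^ (2 * δ) ≤ t1 := by
    have h1 : K1 * (2 * (n : ℝ) ^ e * (n : ℝ) ^ (2 * δ)) ≤ K1 * t1 := by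
      calc K1 * (2 * (n : ℝ) ^ e * (n : ℝ) ^ (2 * δ)) = 2 * K1 * (n : ℝ) ^ e * (n : ℝ) ^ (2 * δ) := by ring
        _ ≤ x := hx0
        _ ≤ _ := g4
    exact le_of_mul_le_mul_left h1 (by linarith)
  have t12 : 2 ≤ t1 := by
    have h1 : (2 : ℝ) * 2 * 1 ≤ 2 * (n : ℝ) ^ e * (n : ℝ) ^ (2 * δ) := by
      refine mul_le_mul (by linarith) p2 (by norm_num) (by positivity)
    have h2 : (2 : ℝ) ≤ t1 := by linarith
    exact_mod_cast h2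
  -- the width at `t1`
  have g6 : wd' μ s t1 ≤ 2 * K * x := by
    have h1 := (hw (t1 - 1) t1 (by omega) (by omega)).2.2
    have h2 : ((t1 : ℝ) / ((t1 - 1 : ℕ) : ℝ)) ≤ 2 := by
      have h3 : (1 : ℝ) ≤ ((t1 - 1 : ℕ) : ℝ) := by exact_mod_cast (by omega : 1 ≤ t1 - 1)
      rw [div_le_iff₀ (by linarith)]
      have h4 : (t1 : ℝ) = ((t1 - 1 : ℕ) : ℝ) + 1 := by
        have : t1 = (t1 - 1) + 1 := by omega
        exact_mod_cast this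
      linarith
    have h0 : 1 ≤ ((t1 : ℝ) / ((t1 - 1 : ℕ) : ℝ)) := by
      have h3 : (1 : ℝ) ≤ ((t1 - 1 : ℕ) : ℝ) := by exact_mod_cast (by omega : 1 ≤ t1 - 1)
      rw [one_le_div (by linarith)]
      exact_mod_cast (by omega : t1 - 1 ≤ t1)
    have h3 : ((t1 : ℝ) / ((t1 - 1 : ℕ) : ℝ)) ^ (1 - a) ≤ 2 := by
      calc ((t1 : ℝ) / ((t1 - 1 : ℕ) : ℝ)) ^ (1 - a) ≤ ((t1 : ℝ) / ((t1 - 1 : ℕ) : ℝ)) ^ (1 : ℝ) :=
            Real.rpow_le_rpow_of_exponent_le h0 (by linarith)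
        _ = _ := Real.rpow_one _
        _ ≤ 2 := h2
    have h4 := (g2 (t1 - 1) (by omega)).le
    have h5 := wd1_14 μ s (t1 - 1)
    calc wd' μ s t1 ≤ K * ((t1 : ℝ) / ((t1 - 1 : ℕ) : ℝ)) ^ (1 - a) * wd' μ s (t1 - 1) := h1
      _ ≤ K * 2 * x := by
        refine mul_le_mul (mul_le_mul_of_nonneg_left h3 hK0.le) h4 (by linarith) (by positivity)
      _ = 2 * K * x := by ring
  -- `8 t1 ≤ n`
  have g7 : 8 * t1 ≤ n := by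
    by_contra hcon
    push Not at hcon
    have h1 := (hw t1 n t1pos g3).2.2
    have h0 : 1 ≤ (n : ℝ) / t1 := by
      rw [one_le_div ht10]
      exact_mod_cast g3
    have h2 : ((n : ℝ) / t1) ^ (1 - a) ≤ 8 := by
      calc ((n : ℝ) / t1) ^ (1 - a) ≤ ((n : ℝ) / t1) ^ (1 : ℝ) := Real.rpow_le_rpow_of_exponent_le h0 (by linarith)
        _ = (n : ℝ) / t1 := Real.rpow_one _
        _ ≤ 8 := by
          rw [div_le_iff₀ ht10]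
          exact_mod_cast hcon.le
    have h3 : wd' μ s n ≤ 16 * K ^ 2 * x := by
      calc wd' μ s n ≤ K * ((n : ℝ) / t1) ^ (1 - a) * wd' μ s t1 := h1
        _ ≤ K * 8 * (2 * K * x) := by
          refine mul_le_mul (mul_le_mul_of_nonneg_left h2 hK0.le) g6 ?_ (by positivity)
          have := wd1_14 μ s t1
          linarith
        _ = 16 * K ^ 2 * x := by ring
    have h4 : (n : ℝ) ^ δ * x ≤ wd' μ s n := by
      have h5 := mul_le_mul_of_nonneg_left hx2 (Real.rpow_nonneg hn0.le δ)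
      rw [← mul_assoc, ← Real.rpow_add hn0, add_neg_cancel, Real.rpow_zero, one_mul] at h5
      exact h5
    have h5 : (32 * K ^ 2 + 1) * (x : ℝ) ≤ (n : ℝ) ^ δ * x := mul_le_mul_of_nonneg_right n4 (by linarith)
    nlinarith [sq_nonneg K]
  -- the time `t0`
  obtain ⟨t0, ht0⟩ : ∃ t0 : ℕ, t0 = ⌈(t1 : ℝ) / (n : ℝ) ^ e⌉₊ := ⟨_, rfl⟩
  have hne0 : 0 < (n : ℝ) ^ e := by positivity
  have q1 : (t1 : ℝ) / (n : ℝ) ^ e ≤ t0 := by rw [ht0]; exact Nat.le_ceil _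
  have q2 : (t0 : ℝ) < (t1 : ℝ) / (n : ℝ) ^ e + 1 := by rw [ht0]; exact Nat.ceil_lt_add_one (by positivity)
  have q3 : 2 * (n : ℝ) ^ (2 * δ) ≤ (t1 : ℝ) / (n : ℝ) ^ e := by
    rw [le_div_iff₀ hne0]
    calc 2 * (n : ℝ) ^ (2 * δ) * (n : ℝ) ^ e = 2 * (n : ℝ) ^ e * (n : ℝ) ^ (2 * δ) := by ring
      _ ≤ _ := g5
  have q4 : (n : ℝ) ^ (2 * δ) ≤ t0 := by linarith
  have q5 : (n : ℝ) ^ e * t0 ≤ 2 * t1 := by
    have h1 : (t0 : ℝ) ≤ 2 * ((t1 : ℝ) / (n : ℝ) ^ e) := by linarith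
    calc (n : ℝ) ^ e * t0 ≤ (n : ℝ) ^ e * (2 * ((t1 : ℝ) / (n : ℝ) ^ e)) := mul_le_mul_of_nonneg_left h1 hne0.le
      _ = 2 * t1 := by field_simp
  have q6 : (t1 : ℝ) ≤ (n : ℝ) ^ e * t0 := by
    rw [div_le_iff₀ hne0] at q1
    linarith
  have q7 : t0 ≤ t1 := by
    have h1 : (2 : ℝ) * t0 ≤ 2 * t1 := by
      have h2 : (2 : ℝ) * t0 ≤ (n : ℝ) ^ e * t0 := mul_le_mul_of_nonneg_right n2 (Nat.cast_nonneg _)
      linarith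
    have h3 : (t0 : ℝ) ≤ t1 := by linarith
    exact_mod_cast h3
  have q8 : 1 ≤ t0 := by
    have : (1 : ℝ) ≤ t0 := by linarith
    exact_mod_cast this
  have ht00 : (0 : ℝ) < t0 := by exact_mod_cast q8
  have hw0 := wd1_14 μ s t0
  obtain ⟨-, r1, r2⟩ := hw t0 t1 q8 q7
  have r0 : 1 ≤ (t1 : ℝ) / t0 := by
    rw [one_le_div ht00]
    exact_mod_cast q7
  refine ⟨t1, t0, q8, q7, g7, q4, g1, ?_, q5, q6, ?_, ?_⟩
  · nlinarith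
  · -- `x ≤ 4 K² n^e wd' t0`
    have h1 : ((t1 : ℝ) / t0) ^ (1 - a) ≤ (n : ℝ) ^ e := by
      calc ((t1 : ℝ) / t0) ^ (1 - a) ≤ ((t1 : ℝ) / t0) ^ (1 : ℝ) := Real.rpow_le_rpow_of_exponent_le r0 (by linarith)
        _ = (t1 : ℝ) / t0 := Real.rpow_one _
        _ ≤ (n : ℝ) ^ e := by
          rw [div_le_iff₀ ht00]
          exact q6
    calc (x : ℝ) ≤ wd' μ s t1 := g1
      _ ≤ K * ((t1 : ℝ) / t0) ^ (1 - a) * wd' μ s t0 := r2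
      _ ≤ K * (n : ℝ) ^ e * wd' μ s t0 := by
        refine mul_le_mul_of_nonneg_right (mul_le_mul_of_nonneg_left h1 hK0.le) (by linarith)
      _ ≤ 4 * K ^ 2 * (n : ℝ) ^ e * wd' μ s t0 := by
        refine mul_le_mul_of_nonneg_right (mul_le_mul_of_nonneg_right (by nlinarith) hne0.le) (by linarith)
  · -- `n^(a e) wd' t0 ≤ 4 K² x`
    have h1 : (n : ℝ) ^ e / 2 ≤ (t1 : ℝ) / t0 := by
      rw [div_le_div_iff₀ (by norm_num) ht00]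
      linarith
    have h2 : (n : ℝ) ^ (a * e) / 2 ≤ ((t1 : ℝ) / t0) ^ a := by
      calc (n : ℝ) ^ (a * e) / 2 ≤ (n : ℝ) ^ (a * e) / 2 ^ a := by
            refine div_le_div_of_nonneg_left (by positivity) (by positivity) ?_
            calc (2 : ℝ) ^ a ≤ 2 ^ (1 : ℝ) := Real.rpow_le_rpow_of_exponent_le (by norm_num) ha1.le
              _ = 2 := Real.rpow_one _
        _ = ((n : ℝ) ^ e / 2) ^ a := by
          rw [Real.div_rpow hne0.le (by norm_num), ← Real.rpow_mul hn0.le, mul_comm e a]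
        _ ≤ _ := Real.rpow_le_rpow (by positivity) h1 ha.le
    have h3 : K⁻¹ * ((n : ℝ) ^ (a * e) / 2) * wd' μ s t0 ≤ wd' μ s t1 :=
      (mul_le_mul_of_nonneg_right (mul_le_mul_of_nonneg_left h2 (by positivity)) (by linarith)).trans r1
    have h4 : (n : ℝ) ^ (a * e) * wd' μ s t0 = 2 * K * (K⁻¹ * ((n : ℝ) ^ (a * e) / 2) * wd' μ s t0) := by
      field_simp
    rw [h4]
    calc 2 * K * (K⁻¹ * ((n : ℝ) ^ (a * e) / 2) * wd' μ s t0) ≤ 2 * K * (2 * K * x) :=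
          mul_le_mul_of_nonneg_left (h3.trans g6) (by positivity)
      _ = 4 * K ^ 2 * x := by ring

/-- The unit grows at most like a power `< 1` of the width. -/
theorem EE_wd14 (h : In μ s c C n₀) : ∃ (K₁ c₁ : ℝ) (n₁ : ℕ), 1 ≤ K₁ ∧ 0 < c₁ ∧ c₁ < 1 ∧ ∀ m n : ℕ, n₁ ≤ m → m ≤ n →
    EE' μ s n ≤ K₁ * (wd' μ s n / wd' μ s m) ^ (1 - c₁) * EE' μ s m := by
  obtain ⟨C₁, c₁, n₃, hC₁, hc₁, hc₁', hSL⟩ := Pool.Agent.W_7d29a1_HL.sl h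
  obtain ⟨n₁, hn₁⟩ := wd'_eq h
  refine ⟨max C₁ 1, c₁, max n₃ n₁, le_max_right _ _, hc₁, hc₁', fun m n hm hmn => ?_⟩
  have h1 := hSL m n ((le_max_left _ _).trans hm) hmn
  obtain ⟨e1, e2, -⟩ := hn₁ m ((le_max_right _ _).trans hm)
  obtain ⟨e3, e4, -⟩ := hn₁ n (((le_max_right _ _).trans hm).trans hmn)
  rw [e1, e2, e3, e4]
  refine h1.trans ?_
  have hE := EE_pos (μ := μ) (s := s) m
  have hq : 0 ≤ (wd μ s n / wd μ s m) ^ (1 - c₁) := by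
    refine Real.rpow_nonneg ?_ _
    rw [← e1, ← e3]
    have := wd1_14 μ s m
    have := wd1_14 μ s n
    positivity
  exact mul_le_mul_of_nonneg_right (mul_le_mul_of_nonneg_right (le_max_left _ _) hq) hE.le

end Pool.Agent.W_7d29a1_LB
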