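import Pool.Agent.W_7d29a1_LB.SeamW
import Pool.Agent.W_7d29a1_LB.Times14
import Pool.Agent.W_7d29a1_HZ.ZE_Off

/-!
STORM LB (MP_7d29a1_pr, proofs row 671), section 6.3: at the time `t0` the seam is far from the two cones of the starts, for all levels
`|a| ≤ n ^ ε EE' t1` at the same time. (helper14)
-/

set_option autoImplicit false

namespace Pool.Agent.W_7d29a1_LB

open MeasureTheory ProbabilityTheory Filter Topology
open Pool.Agent.W_7d29a1_F Pool.Agent.W_7d29a1_h4g Pool.Agent.W_7d29a1_H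
open Pool.Agent.W_7d29a1_HS (In wd)
open Pool.Agent.W_7d29a1_HZ (wd' EE' wd'_pow EE'_pow wd'_eq PBox pbox)
open Pool.Agent.W_7d29a1_HZ.ZE (OffC offc)

section det

variable {μ : Measure ℝ} {s : ℝ}

/-- The normalised kernels and the kernels `K`. -/
theorem W_K14 (η : Env) (x : ℤ) (i : ℕ) (y : ℤ) :
    W μ s η (0, x) i (y - x) = Real.exp (s * ((y - x : ℤ) : ℝ) - i * lam μ s) * K Set.univ η x i y := rfl

/-- On the right of the seam of the level `a`. -/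
theorem seam_right14 (η : Env) (a : ℝ) {x : ℤ} (hx : 1 ≤ x) {i : ℕ} {y : ℤ} (h : seam η (a + s * x) x i ≤ y) :
    Real.exp a * W μ s η 0 i y ≤ W μ s η (0, x) i (y - x) := by
  have h1 := (seam_inv η (a + s * x) hx i).2 y h
  have e0 : W μ s η 0 i y = Real.exp (s * (y : ℝ) - i * lam μ s) * K Set.univ η 0 i y := by
    have := W_K14 (μ := μ) (s := s) η 0 i y
    rw [sub_zero] at this
    exact this
  rw [e0, W_K14]
  have h2 := mul_le_mul_of_nonneg_left h1 (Real.exp_pos (s * ((y - x : ℤ) : ℝ) - i * lam μ s)).le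
  refine le_trans (le_of_eq ?_) h2
  rw [← mul_assoc, ← mul_assoc, ← Real.exp_add, ← Real.exp_add]
  congr 2
  push_cast
  ring

/-- On the left of the seam of the level `a`. -/
theorem seam_left14 (η : Env) (a : ℝ) {x : ℤ} (hx : 1 ≤ x) {i : ℕ} {y : ℤ} (h : y < seam η (a + s * x) x i) :
    W μ s η (0, x) i (y - x) ≤ Real.exp a * W μ s η 0 i y := by
  have h1 := (seam_inv η (a + s * x) hx i).1 y h
  have e0 : W μ s η 0 i y = Real.exp (s * (y : ℝ) - i * lam μ s) * K Set.univ η 0 i y := by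
    have := W_K14 (μ := μ) (s := s) η 0 i y
    rw [sub_zero] at this
    exact this
  rw [e0, W_K14]
  have h2 := mul_le_mul_of_nonneg_left h1 (Real.exp_pos (s * ((y - x : ℤ) : ℝ) - i * lam μ s)).le
  refine le_trans h2 (le_of_eq ?_)
  rw [← mul_assoc, ← mul_assoc, ← Real.exp_add, ← Real.exp_add]
  congr 2
  push_cast
  ring

/-- The separation, deterministic form: `r` = radius of the cones, `A` = bound of the levels. -/
theorem sep_det14 {n t0 : ℕ} {x : ℤ} {ε κ δ' r A : ℝ} {η : Env} (hO : OffC μ s n ε κ η) (hP : PBox μ s n δ' ε η)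
    (ht : t0 ≤ n) (hx : 1 ≤ x) (hxn : x ≤ n) (hr0 : 0 ≤ r) (hr : r + 1 ≤ (n : ℝ) ^ δ' * wd' μ s t0) (hrx : 2 * (r + 1) ≤ x)
    (hs0 : r + 1 ≤ sl μ s * t0) (hs1 : r + 1 ≤ (1 - sl μ s) * t0) (hκ : 0 ≤ κ)
    (hA : A + 2 * ((n : ℝ) ^ ε * EE' μ s t0) < κ * (EE' μ s t0 / wd' μ s t0) * (x / 2)) {a : ℝ} (ha : |a| ≤ A) :
    sl μ s * t0 + r < seam η (a + s * x) x t0 ∧ (seam η (a + s * x) x t0 : ℝ) ≤ x + sl μ s * t0 - r := by
  have hE : 0 ≤ EE' μ s t0 := zero_le_one.trans (le_max_left _ _)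
  have hw : 0 < wd' μ s t0 := zero_lt_one.trans_le (le_max_left _ _)
  have hq : 0 ≤ κ * (EE' μ s t0 / wd' μ s t0) := by positivity
  have hx0 : (0 : ℝ) ≤ x := by exact_mod_cast (by omega : (0 : ℤ) ≤ x)
  have ha1 := abs_le.1 ha
  have hzero : (((0 : ℕ) : ℤ), (0 : ℤ)) = (0 : Pt) := rfl
  constructor
  · by_contra hcon
    rw [not_lt] at hcon
    obtain ⟨y, hy⟩ : ∃ y : ℤ, y = ⌊sl μ s * t0 + r⌋ := ⟨_, rfl⟩
    have y1 : (y : ℝ) ≤ sl μ s * t0 + r := by rw [hy]; exact Int.floor_le _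
    have y2 : sl μ s * t0 + r < y + 1 := by rw [hy]; exact Int.lt_floor_add_one _
    have hsy : seam η (a + s * x) x t0 ≤ y := by
      rw [hy]
      exact Int.le_floor.2 hcon
    have h1 := seam_right14 (μ := μ) (s := s) η a hx hsy
    have y0 : 0 ≤ y := by
      have : (-1 : ℝ) < y := by linarith
      have h2 : (-1 : ℤ) < y := by exact_mod_cast this
      omega
    have yt : y ≤ t0 := by
      have : (y : ℝ) ≤ t0 := by linarith
      exact_mod_cast this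
    have h2 := (hP 0 t0 (by omega) 0 (by simp) y y0 yt).2.2 (by
      rw [abs_le]
      constructor <;> linarith)
    rw [hzero] at h2
    by_cases hyx : 0 ≤ y - x ∧ y - x ≤ t0
    · have h3 := hO 0 t0 (by omega) x (by rw [abs_of_nonneg (by omega)]; omega) (y - x) hyx.1 hyx.2
      rw [Nat.cast_zero] at h3
      have h4 : (x : ℝ) / 2 ≤ |((y - x : ℤ) : ℝ) - sl μ s * t0| := by
        rw [le_abs]
        right
        push_cast
        linarith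
      have h5 := mul_le_mul_of_nonneg_left h4 hq
      have h6 : Real.exp a * Real.exp (-((n : ℝ) ^ ε * EE' μ s t0)) ≤
          Real.exp ((n : ℝ) ^ ε * EE' μ s t0 - κ * (EE' μ s t0 / wd' μ s t0) * |((y - x : ℤ) : ℝ) - sl μ s * t0|) :=
        (mul_le_mul_of_nonneg_left h2 (Real.exp_pos a).le).trans (h1.trans h3)
      rw [← Real.exp_add, Real.exp_le_exp] at h6
      linarith
    · rw [W_eq_zero η _ hyx] at h1
      have h6 : 0 < Real.exp a * W μ s η 0 t0 y := mul_pos (Real.exp_pos _) ((Real.exp_pos _).trans_le h2)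
      linarith
  · by_contra hcon
    rw [not_le] at hcon
    obtain ⟨y, hy⟩ : ∃ y : ℤ, y = ⌊(x : ℝ) + sl μ s * t0 - r⌋ := ⟨_, rfl⟩
    have y1 : (y : ℝ) ≤ x + sl μ s * t0 - r := by rw [hy]; exact Int.floor_le _
    have y2 : (x : ℝ) + sl μ s * t0 - r < y + 1 := by rw [hy]; exact Int.lt_floor_add_one _
    have hsy : y < seam η (a + s * x) x t0 := by
      have : (y : ℝ) < seam η (a + s * x) x t0 := by linarith
      exact_mod_cast this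
    have h1 := seam_left14 (μ := μ) (s := s) η a hx hsy
    have y0 : 0 ≤ y - x := by
      have : (-1 : ℝ) < ((y - x : ℤ) : ℝ) := by push_cast; linarith
      have h2 : (-1 : ℤ) < y - x := by exact_mod_cast this
      omega
    have yt : y - x ≤ t0 := by
      have : ((y - x : ℤ) : ℝ) ≤ t0 := by push_cast; linarith
      exact_mod_cast this
    have h2 := (hP 0 t0 (by omega) x (by rw [abs_of_nonneg (by omega)]; omega) (y - x) y0 yt).2.2 (by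
      rw [abs_le]
      push_cast
      constructor <;> linarith)
    rw [Nat.cast_zero] at h2
    by_cases hyx : 0 ≤ y ∧ y ≤ t0
    · have h3 := hO 0 t0 (by omega) 0 (by simp) y hyx.1 hyx.2
      rw [hzero] at h3
      have h4 : (x : ℝ) / 2 ≤ |(y : ℝ) - sl μ s * t0| := by
        rw [le_abs]
        left
        linarith
      have h5 := mul_le_mul_of_nonneg_left h4 hq
      have h6 : Real.exp (-((n : ℝ) ^ ε * EE' μ s t0)) ≤ Real.exp a *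
          Real.exp ((n : ℝ) ^ ε * EE' μ s t0 - κ * (EE' μ s t0 / wd' μ s t0) * |(y : ℝ) - sl μ s * t0|) :=
        h2.trans (h1.trans (mul_le_mul_of_nonneg_left h3 (Real.exp_pos a).le))
      rw [← Real.exp_add, Real.exp_le_exp] at h6
      linarith
    · rw [W_eq_zero η _ hyx, mul_zero] at h1
      have h6 := (Real.exp_pos (-((n : ℝ) ^ ε * EE' μ s t0))).trans_le h2
      linarith

end det

variable {μ : Measure ℝ} [IsProbabilityMeasure μ] {s c C : ℝ} {n₀ : ℕ}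

/-- Two stretched exponentials. -/
theorem two_exp14 {n : ℕ} {c1 c2 : ℝ} (hn : 1 ≤ n) (h1 : 2 ≤ (n : ℝ) ^ (min c1 c2 / 2)) :
    Real.exp (-(n : ℝ) ^ c1) + Real.exp (-(n : ℝ) ^ c2) ≤ Real.exp (-(n : ℝ) ^ (min c1 c2 / 2)) := by
  have hnR : (1 : ℝ) ≤ n := by exact_mod_cast hn
  have hn0 : (0 : ℝ) < n := by linarith
  obtain ⟨y, hy⟩ : ∃ y : ℝ, y = (n : ℝ) ^ (min c1 c2 / 2) := ⟨_, rfl⟩
  have e1 : (n : ℝ) ^ min c1 c2 = y * y := by
    rw [hy, ← Real.rpow_add hn0]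
    congr 1
    ring
  rw [← hy] at h1 ⊢
  have h2 : 2 * y ≤ (n : ℝ) ^ c1 := by
    have := Real.rpow_le_rpow_of_exponent_le hnR (min_le_left c1 c2)
    rw [e1] at this
    nlinarith
  have h3 : 2 * y ≤ (n : ℝ) ^ c2 := by
    have := Real.rpow_le_rpow_of_exponent_le hnR (min_le_right c1 c2)
    rw [e1] at this
    nlinarith
  have h4 : Real.exp (-(n : ℝ) ^ c1) ≤ Real.exp (-(2 * y)) := Real.exp_le_exp.2 (by linarith)
  have h5 : Real.exp (-(n : ℝ) ^ c2) ≤ Real.exp (-(2 * y)) := Real.exp_le_exp.2 (by linarith)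
  have h6 : 2 * Real.exp (-(2 * y)) ≤ Real.exp (-y) := by
    have h7 : (2 : ℝ) ≤ Real.exp y := by
      have := Real.add_one_le_exp y
      linarith
    have h8 : Real.exp (-y) = Real.exp y * Real.exp (-(2 * y)) := by
      rw [← Real.exp_add]
      congr 1
      ring
    rw [h8]
    exact mul_le_mul_of_nonneg_right h7 (Real.exp_pos _).le
  linarith

/-- The event of the separation. -/
def SepE (μ : Measure ℝ) (s : ℝ) (n x t0 t1 : ℕ) (ε e1 : ℝ) (η : Env) : Prop :=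
  ∀ a : ℝ, |a| ≤ 3 * (n : ℝ) ^ ε * EE' μ s t1 + 1 →
    sl μ s * t0 + 2 * (n : ℝ) ^ e1 * wd' μ s t0 < seam η (a + s * x) x t0 ∧
    (seam η (a + s * x) x t0 : ℝ) ≤ x + sl μ s * t0 - 2 * (n : ℝ) ^ e1 * wd' μ s t0

/-- **SEPARATION.** For times `t0 ≤ t1` as in `times14`. -/
theorem sep14 (h : In μ s c C n₀) {K₀ a₀ δ e : ℝ} (hK₀ : 1 ≤ K₀) (ha₀ : 0 < a₀) (hδ : 0 < δ) (he : 0 < e) :
    ∃ e1 ε c' : ℝ, 0 < e1 ∧ 0 < ε ∧ 0 < c' ∧ (∀ ε' e1' : ℝ, 0 < ε' → ε' ≤ ε → 0 < e1' → e1' ≤ e1 → ∃ N₀ : ℕ, ∀ n : ℕ, N₀ ≤ n →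
      ∀ x t0 t1 : ℕ, 1 ≤ x → x ≤ n → 1 ≤ t0 → t0 ≤ t1 → t1 ≤ n → (n : ℝ) ^ (2 * δ) ≤ t0 → (x : ℝ) ≤ wd' μ s t1 →
      wd' μ s t1 ≤ K₀ * x → (n : ℝ) ^ (a₀ * e) * wd' μ s t0 ≤ K₀ * x →
      law μ {η | ¬ SepE μ s n x t0 t1 ε' e1' η} ≤ ENNReal.ofReal (Real.exp (-(n : ℝ) ^ c'))) := by
  obtain ⟨κ, hκ, hoff⟩ := offc h
  obtain ⟨K₁, c₁, n₁, hK₁, hc₁, hc₁', hEw⟩ := EE_wd14 h
  obtain ⟨aw, Kw, haw, haw1, hKw, hw⟩ := wd'_pow h
  obtain ⟨aE, KE, haE, haE1, hKE, hEp⟩ := EE'_pow h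
  obtain ⟨g, hg⟩ : ∃ g : ℝ, g = a₀ * e := ⟨_, rfl⟩
  have hg0 : 0 < g := by rw [hg]; positivity
  obtain ⟨ε, hε⟩ : ∃ ε : ℝ, ε = c₁ * g / 2 := ⟨_, rfl⟩
  have hε0 : 0 < ε := by rw [hε]; positivity
  obtain ⟨c1, hc1, L1, hL1⟩ := hoff ε hε0
  obtain ⟨δp, c2, hδp, hc2, L2, hL2⟩ := pbox h ε hε0
  have hs0 := h.sl_pos
  have hs1 := h.sl_lt
  obtain ⟨σ, hσ⟩ : ∃ σ : ℝ, σ = min (sl μ s) (1 - sl μ s) := ⟨_, rfl⟩
  have hσ0 : 0 < σ := by rw [hσ]; exact lt_min hs0 (by linarith)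
  have hσ1 : σ ≤ sl μ s := by rw [hσ]; exact min_le_left _ _
  have hσ2 : σ ≤ 1 - sl μ s := by rw [hσ]; exact min_le_right _ _
  obtain ⟨e1, he1⟩ : ∃ e1 : ℝ, e1 = min (δp / 2) (min (g / 2) (δ * aw)) := ⟨_, rfl⟩
  have he10 : 0 < e1 := by rw [he1]; positivity
  have he1a : e1 ≤ δp / 2 := by rw [he1]; exact min_le_left _ _
  have he1b : e1 ≤ g / 2 := by rw [he1]; exact (min_le_right _ _).trans (min_le_left _ _)
  have he1c : e1 ≤ δ * aw := by rw [he1]; exact (min_le_right _ _).trans (min_le_right _ _)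
  obtain ⟨W1, hW1⟩ : ∃ W1 : ℝ, W1 = Kw * wd' μ s 1 := ⟨_, rfl⟩
  have hW10 : 1 ≤ W1 := by
    rw [hW1]
    have := wd1_14 μ s 1
    nlinarith
  refine ⟨e1, ε, min c1 c2 / 2, he10, hε0, by positivity, fun ε' e1' hε' hε'1 he1' he1'1 => ?_⟩
  have ev : ∀ᶠ n : ℕ in atTop, 1 ≤ n ∧ (n₁ : ℝ) ≤ (n : ℝ) ^ (2 * δ) ∧ 3 ≤ (n : ℝ) ^ (δp / 2) ∧ 8 * K₀ ≤ (n : ℝ) ^ (g / 2) ∧
      3 * W1 / σ ≤ (n : ℝ) ^ (δ * aw) ∧ 4 * (4 + 2 * KE) * (K₀ ^ 3 * K₁) / κ < (n : ℝ) ^ ε ∧ 2 ≤ (n : ℝ) ^ (min c1 c2 / 2) := by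
    filter_upwards [eventually_ge_atTop 1, evp14 (by positivity : 0 < 2 * δ) n₁, evp14 (half_pos hδp) 3,
      evp14 (half_pos hg0) (8 * K₀), evp14 (by positivity : 0 < δ * aw) (3 * W1 / σ),
      evp14 hε0 (4 * (4 + 2 * KE) * (K₀ ^ 3 * K₁) / κ + 1), evp14 (by positivity : 0 < min c1 c2 / 2) 2] with n h1 h2 h3 h4 h5 h6 h7
    exact ⟨h1, h2, h3, h4, h5, by linarith, h7⟩
  obtain ⟨N₀, hN₀⟩ := eventually_atTop.1 ev
  refine ⟨max N₀ (max L1 L2), fun n hn x t0 t1 hx hxn ht0 ht01 ht1n hδt hxw hwx hwt => ?_⟩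
  obtain ⟨m1, m2, m3, m4, m5, m6, m7⟩ := hN₀ n ((le_max_left _ _).trans hn)
  have q1 := hL1 n (((le_max_left _ _).trans (le_max_right _ _)).trans hn)
  have q2 := hL2 n (((le_max_right _ _).trans (le_max_right _ _)).trans hn)
  have hnR : (1 : ℝ) ≤ n := by exact_mod_cast m1
  have hn0 : (0 : ℝ) < n := by linarith
  have ht0R : (1 : ℝ) ≤ t0 := by exact_mod_cast ht0
  have ht00 : (0 : ℝ) < t0 := by linarith
  have hxR : (1 : ℝ) ≤ x := by exact_mod_cast hx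
  have w0 := wd1_14 μ s t0
  have w1 := wd1_14 μ s t1
  have E0 := EE1_14 μ s t0
  have E1 := EE1_14 μ s t1
  obtain ⟨r, hr⟩ : ∃ r : ℝ, r = 2 * (n : ℝ) ^ e1' * wd' μ s t0 := ⟨_, rfl⟩
  have hne1 : 1 ≤ (n : ℝ) ^ e1' := Real.one_le_rpow hnR he1'.le
  have hnw : 1 ≤ (n : ℝ) ^ e1' * wd' μ s t0 := by
    calc (1 : ℝ) = 1 * 1 := (one_mul 1).symm
      _ ≤ (n : ℝ) ^ e1' * wd' μ s t0 := mul_le_mul hne1 w0 zero_le_one (zero_le_one.trans hne1)
  have hr1 : 1 ≤ r := by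
    rw [hr, mul_assoc]
    linarith
  have hr3 : r + 1 ≤ 3 * ((n : ℝ) ^ e1' * wd' μ s t0) := by
    rw [hr, mul_assoc]
    linarith
  -- the cone
  have hc_a : r + 1 ≤ (n : ℝ) ^ δp * wd' μ s t0 := by
    have h1 : (n : ℝ) ^ e1' ≤ (n : ℝ) ^ (δp / 2) := Real.rpow_le_rpow_of_exponent_le hnR (he1'1.trans he1a)
    have h2 : (n : ℝ) ^ δp = (n : ℝ) ^ (δp / 2) * (n : ℝ) ^ (δp / 2) := by
      rw [← Real.rpow_add hn0]
      congr 1
      ring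
    refine hr3.trans ?_
    rw [h2, ← mul_assoc]
    refine mul_le_mul_of_nonneg_right ?_ (by linarith)
    exact mul_le_mul m3 h1 (by positivity) (by positivity)
  -- the distance
  have hc_b : 2 * (r + 1) ≤ x := by
    have h1 : (n : ℝ) ^ e1' ≤ (n : ℝ) ^ (g / 2) := Real.rpow_le_rpow_of_exponent_le hnR (he1'1.trans he1b)
    have h2 : (n : ℝ) ^ g = (n : ℝ) ^ (g / 2) * (n : ℝ) ^ (g / 2) := by
      rw [← Real.rpow_add hn0]
      congr 1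
      ring
    have h3 : 8 * K₀ * ((n : ℝ) ^ e1' * wd' μ s t0) ≤ K₀ * x := by
      refine le_trans ?_ hwt
      rw [← hg, h2, ← mul_assoc]
      refine mul_le_mul_of_nonneg_right ?_ (by linarith)
      exact mul_le_mul m4 h1 (by positivity) (by positivity)
    have h4 : 8 * ((n : ℝ) ^ e1' * wd' μ s t0) ≤ x := by
      have h5 : K₀ * (8 * ((n : ℝ) ^ e1' * wd' μ s t0)) ≤ K₀ * x := by linarith
      exact le_of_mul_le_mul_left h5 (by linarith)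
    have h5 : 0 ≤ (n : ℝ) ^ e1' * wd' μ s t0 := by positivity
    linarith
  -- the slope
  have hc_c : r + 1 ≤ σ * t0 := by
    have h1 := (hw 1 t0 le_rfl ht0).2.2
    have h2 : wd' μ s t0 ≤ W1 * (t0 : ℝ) ^ (1 - aw) := by
      rw [Nat.cast_one, div_one] at h1
      rw [hW1]
      calc wd' μ s t0 ≤ Kw * (t0 : ℝ) ^ (1 - aw) * wd' μ s 1 := h1
        _ = _ := by ring
    have h3 : 3 * W1 / σ * (n : ℝ) ^ e1' ≤ (t0 : ℝ) ^ aw := by
      have h4 : (n : ℝ) ^ e1' ≤ (n : ℝ) ^ (δ * aw) := Real.rpow_le_rpow_of_exponent_le hnR (he1'1.trans he1c)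
      have h5 : (n : ℝ) ^ (2 * δ * aw) ≤ (t0 : ℝ) ^ aw := by
        rw [Real.rpow_mul hn0.le]
        exact Real.rpow_le_rpow (by positivity) hδt haw.le
      have h6 : (n : ℝ) ^ (2 * δ * aw) = (n : ℝ) ^ (δ * aw) * (n : ℝ) ^ (δ * aw) := by
        rw [← Real.rpow_add hn0]
        congr 1
        ring
      refine le_trans ?_ h5
      rw [h6]
      exact mul_le_mul m5 h4 (by positivity) (by positivity)
    have h4 : 3 * W1 * (n : ℝ) ^ e1' ≤ σ * (t0 : ℝ) ^ aw := by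
      have h5 := mul_le_mul_of_nonneg_left h3 hσ0.le
      calc 3 * W1 * (n : ℝ) ^ e1' = σ * (3 * W1 / σ * (n : ℝ) ^ e1') := by field_simp
        _ ≤ _ := h5
    have h5 : (t0 : ℝ) ^ aw * (t0 : ℝ) ^ (1 - aw) = t0 := by
      rw [← Real.rpow_add ht00]
      simp
    calc r + 1 ≤ 3 * ((n : ℝ) ^ e1' * wd' μ s t0) := hr3
      _ ≤ 3 * ((n : ℝ) ^ e1' * (W1 * (t0 : ℝ) ^ (1 - aw))) := by gcongr
      _ = 3 * W1 * (n : ℝ) ^ e1' * (t0 : ℝ) ^ (1 - aw) := by ring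
      _ ≤ σ * (t0 : ℝ) ^ aw * (t0 : ℝ) ^ (1 - aw) := mul_le_mul_of_nonneg_right h4 (by positivity)
      _ = σ * t0 := by rw [mul_assoc, h5]
  have hc_d : r + 1 ≤ sl μ s * t0 := hc_c.trans (mul_le_mul_of_nonneg_right hσ1 ht00.le)
  have hc_e : r + 1 ≤ (1 - sl μ s) * t0 := hc_c.trans (mul_le_mul_of_nonneg_right hσ2 ht00.le)
  -- the levels
  have hc_f : (3 * (n : ℝ) ^ ε' * EE' μ s t1 + 1) + 2 * ((n : ℝ) ^ ε * EE' μ s t0) < κ * (EE' μ s t0 / wd' μ s t0) * ((x : ℝ) / 2) := by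
    have hn1 : n₁ ≤ t0 := by
      have : (n₁ : ℝ) ≤ t0 := m2.trans hδt
      exact_mod_cast this
    have h1 := hEw t0 t1 hn1 ht01
    have h2 := (hEp t0 t1 ht0 ht01).1
    obtain ⟨ρ, hρ⟩ : ∃ ρ : ℝ, ρ = wd' μ s t1 / wd' μ s t0 := ⟨_, rfl⟩
    have hρ0 : 0 < ρ := by rw [hρ]; positivity
    rw [← hρ] at h1
    have h3 : (n : ℝ) ^ g ≤ K₀ ^ 2 * ρ := by
      have h4 : (n : ℝ) ^ g * wd' μ s t0 ≤ K₀ * wd' μ s t1 := by
        rw [hg]
        exact hwt.trans (mul_le_mul_of_nonneg_left hxw (by linarith))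
      have h5 : (n : ℝ) ^ g ≤ K₀ * ρ := by
        rw [hρ, ← mul_div_assoc, le_div_iff₀ (by linarith)]
        exact h4
      refine h5.trans ?_
      refine mul_le_mul_of_nonneg_right ?_ hρ0.le
      calc K₀ = K₀ * 1 := (mul_one K₀).symm
        _ ≤ K₀ * K₀ := mul_le_mul_of_nonneg_left hK₀ (zero_le_one.trans hK₀)
        _ = K₀ ^ 2 := (sq K₀).symm
    -- `n^(2 ε) ≤ K₀² ρ^c₁`
    have h4 : (n : ℝ) ^ ε * (n : ℝ) ^ ε ≤ K₀ ^ 2 * ρ ^ c₁ := by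
      have h5 : (n : ℝ) ^ ε * (n : ℝ) ^ ε = ((n : ℝ) ^ g) ^ c₁ := by
        rw [← Real.rpow_add hn0, ← Real.rpow_mul hn0.le]
        congr 1
        rw [hε]
        ring
      rw [h5]
      refine (Real.rpow_le_rpow (by positivity) h3 hc₁.le).trans ?_
      rw [Real.mul_rpow (by positivity) hρ0.le]
      refine mul_le_mul_of_nonneg_right ?_ (by positivity)
      calc (K₀ ^ 2) ^ c₁ ≤ (K₀ ^ 2) ^ (1 : ℝ) := Real.rpow_le_rpow_of_exponent_le (one_le_pow₀ hK₀) hc₁'.le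
        _ = K₀ ^ 2 := Real.rpow_one _
    have h5 : ρ ^ c₁ * ρ ^ (1 - c₁) = ρ := by
      rw [← Real.rpow_add hρ0]
      simp
    -- `n^(2ε) EE' t1 ≤ K₀² K₁ ρ EE' t0`
    have h6 : (n : ℝ) ^ ε * (n : ℝ) ^ ε * EE' μ s t1 ≤ K₀ ^ 2 * K₁ * (ρ * EE' μ s t0) := by
      calc (n : ℝ) ^ ε * (n : ℝ) ^ ε * EE' μ s t1 ≤ (K₀ ^ 2 * ρ ^ c₁) * (K₁ * ρ ^ (1 - c₁) * EE' μ s t0) :=
            mul_le_mul h4 h1 (by linarith) (by positivity)
        _ = K₀ ^ 2 * K₁ * ((ρ ^ c₁ * ρ ^ (1 - c₁)) * EE' μ s t0) := by ring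
        _ = _ := by rw [h5]
    -- `ρ EE' t0 ≤ K₀ x EE' t0 / wd' t0`
    have h7 : ρ * EE' μ s t0 ≤ K₀ * (EE' μ s t0 / wd' μ s t0 * x) := by
      rw [hρ]
      have : wd' μ s t1 / wd' μ s t0 * EE' μ s t0 ≤ (K₀ * x) / wd' μ s t0 * EE' μ s t0 := by
        refine mul_le_mul_of_nonneg_right ?_ (by linarith)
        exact div_le_div_of_nonneg_right hwx (by linarith)
      refine this.trans (le_of_eq ?_)
      field_simp
    obtain ⟨q, hq⟩ : ∃ q : ℝ, q = EE' μ s t0 / wd' μ s t0 * x := ⟨_, rfl⟩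
    have hq0 : 0 < q := by rw [hq]; positivity
    rw [← hq] at h7
    have hnε : 0 < (n : ℝ) ^ ε := by positivity
    have hnε1 : 1 ≤ (n : ℝ) ^ ε := Real.one_le_rpow hnR hε0.le
    have h8 : (3 * (n : ℝ) ^ ε' * EE' μ s t1 + 1) + 2 * ((n : ℝ) ^ ε * EE' μ s t0) ≤ (4 + 2 * KE) * ((n : ℝ) ^ ε * EE' μ s t1) := by
      have a1 : (n : ℝ) ^ ε' ≤ (n : ℝ) ^ ε := Real.rpow_le_rpow_of_exponent_le hnR hε'1
      have a2 : (n : ℝ) ^ ε' * EE' μ s t1 ≤ (n : ℝ) ^ ε * EE' μ s t1 := mul_le_mul_of_nonneg_right a1 (by linarith)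
      have a3 : (n : ℝ) ^ ε * EE' μ s t0 ≤ (n : ℝ) ^ ε * (KE * EE' μ s t1) := mul_le_mul_of_nonneg_left h2 hnε.le
      have a4 : 1 ≤ (n : ℝ) ^ ε * EE' μ s t1 := by
        calc (1 : ℝ) = 1 * 1 := (one_mul 1).symm
          _ ≤ (n : ℝ) ^ ε * EE' μ s t1 := mul_le_mul hnε1 E1 zero_le_one hnε.le
      have a5 : (n : ℝ) ^ ε * (KE * EE' μ s t1) = KE * ((n : ℝ) ^ ε * EE' μ s t1) := by ring
      rw [a5] at a3
      have a6 : 3 * (n : ℝ) ^ ε' * EE' μ s t1 = 3 * ((n : ℝ) ^ ε' * EE' μ s t1) := by ring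
      have a7 : (4 + 2 * KE) * ((n : ℝ) ^ ε * EE' μ s t1) = 4 * ((n : ℝ) ^ ε * EE' μ s t1) + 2 * (KE * ((n : ℝ) ^ ε * EE' μ s t1)) := by
        ring
      rw [a6, a7]
      linarith
    have h9 : (n : ℝ) ^ ε * ((n : ℝ) ^ ε * EE' μ s t1) ≤ K₀ ^ 3 * K₁ * q := by
      have a1 := mul_le_mul_of_nonneg_left h7 (by positivity : 0 ≤ K₀ ^ 2 * K₁)
      calc (n : ℝ) ^ ε * ((n : ℝ) ^ ε * EE' μ s t1) = (n : ℝ) ^ ε * (n : ℝ) ^ ε * EE' μ s t1 := by ring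
        _ ≤ K₀ ^ 2 * K₁ * (ρ * EE' μ s t0) := h6
        _ ≤ K₀ ^ 2 * K₁ * (K₀ * q) := a1
        _ = K₀ ^ 3 * K₁ * q := by ring
    have h10 : (4 + 2 * KE) * (K₀ ^ 3 * K₁) < (n : ℝ) ^ ε * (κ / 4) := by
      rw [div_lt_iff₀ hκ] at m6
      linarith
    have h11 : (n : ℝ) ^ ε * ((4 + 2 * KE) * ((n : ℝ) ^ ε * EE' μ s t1)) < (n : ℝ) ^ ε * (κ / 4 * q) := by
      calc (n : ℝ) ^ ε * ((4 + 2 * KE) * ((n : ℝ) ^ ε * EE' μ s t1)) = (4 + 2 * KE) * ((n : ℝ) ^ ε * ((n : ℝ) ^ ε * EE' μ s t1)) := by ring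
        _ ≤ (4 + 2 * KE) * (K₀ ^ 3 * K₁ * q) := mul_le_mul_of_nonneg_left h9 (by linarith)
        _ = (4 + 2 * KE) * (K₀ ^ 3 * K₁) * q := by ring
        _ < (n : ℝ) ^ ε * (κ / 4) * q := mul_lt_mul_of_pos_right h10 hq0
        _ = _ := by ring
    have h12 := lt_of_mul_lt_mul_left h11 hnε.le
    have h13 : κ * (EE' μ s t0 / wd' μ s t0) * ((x : ℝ) / 2) = κ / 2 * q := by
      rw [hq]
      ring
    rw [h13]
    have h14 : 0 < κ * q := mul_pos hκ hq0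
    have h15 : κ / 4 * q = κ * q / 4 := by ring
    have h16 : κ / 2 * q = κ * q / 2 := by ring
    rw [h15] at h12
    rw [h16]
    linarith
  have hmain : {η | ¬ SepE μ s n x t0 t1 ε' e1' η} ⊆ {η | ¬ OffC μ s n ε κ η} ∪ {η | ¬ PBox μ s n δp ε η} := by
    intro η hη
    rw [Set.mem_ofPred_eq] at hη
    by_contra hcon
    rw [Set.mem_union, not_or, Set.mem_ofPred_eq, Set.mem_ofPred_eq, not_not, not_not] at hcon
    refine hη fun a ha => ?_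
    have h1 := sep_det14 (μ := μ) (s := s) (n := n) (t0 := t0) (x := (x : ℤ)) (r := r) hcon.1 hcon.2 (ht01.trans ht1n)
      (by exact_mod_cast hx) (by exact_mod_cast hxn) (by linarith) hc_a (by exact_mod_cast hc_b) hc_d hc_e hκ.le
      (by rw [Int.cast_natCast]; exact hc_f) ha
    rw [hr] at h1
    exact_mod_cast h1
  refine (measure_mono hmain).trans ((measure_union_le _ _).trans ?_)
  refine (add_le_add q1 q2).trans ?_
  rw [← ENNReal.ofReal_add (Real.exp_pos _).le (Real.exp_pos _).le]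
  exact ENNReal.ofReal_le_ofReal (two_exp14 m1 m7)

end Pool.Agent.W_7d29a1_LB
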