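import Pool.Agent.W_7d29a1_LB.NSDef
import Pool.Agent.W_7d29a1_HX.XT_Node
import Pool.Agent.W_7d29a1_LB.Sep14

/-!
STORM LB (MP_7d29a1_pr, proofs row 671), section 6.2: the difference of the free energies of two starts at the distance of the width of
the time `t1` is at most `3 n ^ ε EE' t1`, outside an event of probability `exp (- n ^ c)`. (helper14)
-/

set_option autoImplicit false

namespace Pool.Agent.W_7d29a1_LB

open MeasureTheory ProbabilityTheory Filter Topology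
open Pool.Agent.W_7d29a1_F Pool.Agent.W_7d29a1_h4g Pool.Agent.W_7d29a1_H Pool.Agent.W_7d29a1_X
open Pool.Agent.W_7d29a1_HS (In wd)
open Pool.Agent.W_7d29a1_HZ (wd' EE' wd'_pow EE'_pow wd'_eq PBox pbox NSp)

section det

variable {μ : Measure ℝ} {s : ℝ}

open Classical in
/-- The quenched probability of a steep place. -/
noncomputable def st14 (μ : Measure ℝ) (s : ℝ) (n : ℕ) (ε : ℝ) (η : Env) : ℝ :=
  ∑ S ∈ (Finset.range n).powerset, GS μ s η n S * (if NSp μ s n n ε S then 0 else 1)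

theorem st14_nonneg (n : ℕ) (ε : ℝ) (η : Env) : 0 ≤ st14 μ s n ε η := by
  unfold st14
  refine Finset.sum_nonneg fun S _ => mul_nonneg (GS_nonneg η n S) ?_
  split_ifs <;> norm_num

/-- The free energies of two starts, one direction. -/
theorem two_starts14 {n t : ℕ} {z1 z2 : ℤ} {ε δ' ε' D : ℝ} {η : Env} (hP : PBox μ s n δ' ε η) (ht1 : 1 ≤ t) (ht : t ≤ n)
    (hz1 : |z1| ≤ n) (hz2 : |z2| ≤ n) (hzD : |((z1 - z2 : ℤ) : ℝ)| ≤ D)
    (hst : st14 μ s n ε' (sh (0, z1) η) ≤ 1 / 2)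
    (hc : (n : ℝ) ^ ε' * wd' μ s t + D ≤ (n : ℝ) ^ δ' * wd' μ s t)
    (hs0 : (n : ℝ) ^ ε' * wd' μ s t + D ≤ sl μ s * t) (hs1 : (n : ℝ) ^ ε' * wd' μ s t + D ≤ (1 - sl μ s) * t) :
    V μ s η (0, z1) n ≤ V μ s η (0, z2) n + (2 * ((n : ℝ) ^ ε * EE' μ s t) + 1) := by
  classical
  obtain ⟨k, hk⟩ : ∃ k : ℕ, n = t + k := ⟨n - t, by omega⟩
  obtain ⟨η', hη'⟩ : ∃ η' : Env, η' = sh (0, z1) η := ⟨_, rfl⟩
  have eV : V μ s η' 0 n = V μ s η (0, z1) n := by rw [hη', V_sh, zero_add]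
  have eW : ∀ y : ℤ, W μ s η' 0 t y = W μ s η (0, z1) t y := fun y => by rw [hη', W_sh, zero_add]
  have eU : ∀ y : ℤ, V μ s η' ((t : ℤ), y) k = V μ s η ((t : ℤ), y + z1) k := fun y => by
    have e : (((t : ℤ), y) : Pt) + ((0 : ℤ), z1) = ((t : ℤ), y + z1) := by
      ext
      · show (t : ℤ) + 0 = t
        exact add_zero _
      · rfl
    rw [hη', V_sh, e]
  obtain ⟨w, hw⟩ : ∃ w : ℝ, w = (n : ℝ) ^ ε' * wd' μ s t := ⟨_, rfl⟩
  rw [← hw] at hc hs0 hs1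
  have hD0 : 0 ≤ D := (abs_nonneg _).trans hzD
  have hzD' := abs_le.1 hzD
  -- the indicator of the cone
  obtain ⟨f, hf⟩ : ∃ f : ℤ → ℝ, ∀ y : ℤ, f y = if |(y : ℝ) - sl μ s * t| ≤ w then 1 else 0 :=
    ⟨fun y => if |(y : ℝ) - sl μ s * t| ≤ w then 1 else 0, fun _ => rfl⟩
  have hf0 : ∀ y, 0 ≤ f y := fun y => by rw [hf]; split_ifs <;> norm_num
  have h1 : 1 / 2 ≤ ∑ S ∈ (Finset.range n).powerset, GS μ s η' n S * f (pos S t) := by
    have h2 := GS_sum (μ := μ) (s := s) η' n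
    have h3 : ∑ S ∈ (Finset.range n).powerset, GS μ s η' n S ≤
        ∑ S ∈ (Finset.range n).powerset, (GS μ s η' n S * f (pos S t) + GS μ s η' n S * (if NSp μ s n n ε' S then 0 else 1)) := by
      refine Finset.sum_le_sum fun S _ => ?_
      have h4 := GS_nonneg (μ := μ) (s := s) η' n S
      by_cases h5 : NSp μ s n n ε' S
      · have h6 := h5 0 t ht1 (by omega)
        rw [zero_add, pos_zero, sub_zero, ← hw] at h6
        have h7 : f (pos S t) = 1 := by rw [hf, if_pos h6]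
        rw [h7, if_pos h5]
        linarith
      · rw [if_neg h5]
        have := mul_nonneg h4 (hf0 (pos S t))
        linarith
    rw [Finset.sum_add_distrib, h2] at h3
    have h4 : ∑ S ∈ (Finset.range n).powerset, GS μ s η' n S * (if NSp μ s n n ε' S then (0 : ℝ) else 1) ≤ 1 / 2 := by
      rw [← hη'] at hst
      unfold st14 at hst
      convert hst using 4
    linarith
  have h2 : ∑ S ∈ (Finset.range n).powerset, GS μ s η' n S * f (pos S t) =
      ∑ y ∈ Finset.Icc (0 : ℤ) t, W μ s η' 0 t y * Real.exp (V μ s η' ((t : ℤ), y) k) / Real.exp (V μ s η' 0 n) * f y := by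
    rw [hk]
    exact GS_pos η' t k f
  rw [h2] at h1
  -- the upper bound
  have hE0 : 0 < Real.exp (V μ s η' 0 n) := Real.exp_pos _
  have h3 : Real.exp (V μ s η' 0 n) ≤ 2 * ∑ y ∈ Finset.Icc (0 : ℤ) t, W μ s η' 0 t y * Real.exp (V μ s η' ((t : ℤ), y) k) * f y := by
    have h4 := mul_le_mul_of_nonneg_left h1 hE0.le
    rw [Finset.mul_sum] at h4
    have h5 : ∑ y ∈ Finset.Icc (0 : ℤ) t, Real.exp (V μ s η' 0 n) *
        (W μ s η' 0 t y * Real.exp (V μ s η' ((t : ℤ), y) k) / Real.exp (V μ s η' 0 n) * f y) =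
        ∑ y ∈ Finset.Icc (0 : ℤ) t, W μ s η' 0 t y * Real.exp (V μ s η' ((t : ℤ), y) k) * f y := by
      refine Finset.sum_congr rfl fun y _ => ?_
      field_simp
    rw [h5] at h4
    linarith
  obtain ⟨u, hu⟩ : ∃ u : ℝ, u = (n : ℝ) ^ ε * EE' μ s t := ⟨_, rfl⟩
  have h4 : ∑ y ∈ Finset.Icc (0 : ℤ) t, W μ s η' 0 t y * Real.exp (V μ s η' ((t : ℤ), y) k) * f y ≤
      Real.exp (2 * u) * Real.exp (V μ s η (0, z2) n) := by
    have h5 : ∀ y ∈ Finset.Icc (0 : ℤ) t, W μ s η' 0 t y * Real.exp (V μ s η' ((t : ℤ), y) k) * f y ≤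
        Real.exp (2 * u) * (if y + z1 - z2 ∈ Finset.Icc (0 : ℤ) t then
          W μ s η (0, z2) t (y + z1 - z2) * Real.exp (V μ s η ((t : ℤ), z2 + (y + z1 - z2)) k) else 0) := by
      intro y hy
      rw [Finset.mem_Icc] at hy
      by_cases hy1 : |(y : ℝ) - sl μ s * t| ≤ w
      · have hy2 := abs_le.1 hy1
        have i1 : ((y + z1 - z2 : ℤ) : ℝ) = y + ((z1 - z2 : ℤ) : ℝ) := by push_cast; ring
        have h0 : 0 ≤ y + z1 - z2 := by
          have : (0 : ℝ) ≤ ((y + z1 - z2 : ℤ) : ℝ) := by rw [i1]; linarith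
          exact_mod_cast this
        have ht' : y + z1 - z2 ≤ t := by
          have : ((y + z1 - z2 : ℤ) : ℝ) ≤ t := by rw [i1]; linarith
          exact_mod_cast this
        rw [if_pos (Finset.mem_Icc.2 ⟨h0, ht'⟩)]
        have j1 := (hP 0 t (by omega) z1 (by have := abs_nonneg z1; omega) y hy.1 hy.2).1
        have j2 := (hP 0 t (by omega) z2 (by have := abs_nonneg z2; omega) (y + z1 - z2) h0 ht').2.2 (by
          rw [i1, abs_le]
          constructor <;> linarith)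
        rw [Nat.cast_zero, ← hu] at j1 j2
        have j3 : f y = 1 := by rw [hf, if_pos hy1]
        rw [j3, mul_one, eW, eU]
        have j4 : (((t : ℤ), z2 + (y + z1 - z2)) : Pt) = ((t : ℤ), y + z1) := by
          congr 1
          ring
        rw [j4, ← mul_assoc]
        refine mul_le_mul_of_nonneg_right ?_ (Real.exp_pos _).le
        have j5 : Real.exp u = Real.exp (2 * u) * Real.exp (-u) := by
          rw [← Real.exp_add]
          congr 1
          ring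
        rw [j5] at j1
        exact j1.trans (mul_le_mul_of_nonneg_left j2 (Real.exp_pos _).le)
      · have j3 : f y = 0 := by rw [hf, if_neg hy1]
        rw [j3, mul_zero]
        refine mul_nonneg (Real.exp_pos _).le ?_
        split_ifs
        · exact mul_nonneg (W_nonneg _ _ _ _) (Real.exp_pos _).le
        · exact le_rfl
    refine (Finset.sum_le_sum h5).trans ?_
    rw [← Finset.mul_sum]
    refine mul_le_mul_of_nonneg_left ?_ (Real.exp_pos _).le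
    have h6 : Real.exp (V μ s η (0, z2) n) = ∑ y ∈ Finset.Icc (0 : ℤ) t,
        W μ s η (0, z2) t y * Real.exp (V μ s η ((t : ℤ), z2 + y) k) := by
      rw [hk, exp_V_add]
      refine Finset.sum_congr rfl fun y _ => ?_
      simp only [zero_add]
    rw [h6, ← Finset.sum_filter]
    have h7 : ∑ y ∈ (Finset.Icc (0 : ℤ) t).filter (fun y => y + z1 - z2 ∈ Finset.Icc (0 : ℤ) t),
        W μ s η (0, z2) t (y + z1 - z2) * Real.exp (V μ s η ((t : ℤ), z2 + (y + z1 - z2)) k) =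
        ∑ y ∈ ((Finset.Icc (0 : ℤ) t).filter (fun y => y + z1 - z2 ∈ Finset.Icc (0 : ℤ) t)).image (fun y => y + z1 - z2),
          W μ s η (0, z2) t y * Real.exp (V μ s η ((t : ℤ), z2 + y) k) := by
      rw [Finset.sum_image]
      intro a _ b _ hab
      have : a + z1 - z2 = b + z1 - z2 := hab
      omega
    rw [h7]
    refine Finset.sum_le_sum_of_subset_of_nonneg ?_ fun y _ _ => mul_nonneg (W_nonneg _ _ _ _) (Real.exp_pos _).le
    intro y hy
    rw [Finset.mem_image] at hy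
    obtain ⟨a, ha, rfl⟩ := hy
    exact (Finset.mem_filter.1 ha).2
  have h5 : Real.exp (V μ s η (0, z1) n) ≤ Real.exp (V μ s η (0, z2) n + (2 * u + 1)) := by
    rw [← eV]
    refine h3.trans ?_
    have h6 : (2 : ℝ) ≤ Real.exp 1 := by
      have := Real.add_one_le_exp (1 : ℝ)
      linarith
    have h7 : Real.exp (V μ s η (0, z2) n + (2 * u + 1)) = Real.exp 1 * (Real.exp (2 * u) * Real.exp (V μ s η (0, z2) n)) := by
      rw [← Real.exp_add, ← Real.exp_add]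
      congr 1
      ring
    rw [h7]
    have h8 := mul_le_mul_of_nonneg_left h4 (by norm_num : (0 : ℝ) ≤ 2)
    refine h8.trans (mul_le_mul_of_nonneg_right h6 (by positivity))
  rw [← hu]
  exact Real.exp_le_exp.1 h5

end det

variable {μ : Measure ℝ} [IsProbabilityMeasure μ] {s c C : ℝ} {n₀ : ℕ}

omit [IsProbabilityMeasure μ] in
theorem measurable_st14 (n : ℕ) (ε : ℝ) : Measurable (st14 μ s n ε) := by
  classical
  unfold st14
  refine Finset.measurable_sum _ fun S _ => ?_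
  exact (Pool.Agent.W_7d29a1_HX.XT.measurable_GS n S).mul_const _

/-- Markov. -/
theorem st14_tail (hNS : NSFr μ s) {ε : ℝ} (hε : 0 < ε) : ∃ c' : ℝ, 0 < c' ∧ ∃ N₀ : ℕ, ∀ n : ℕ, N₀ ≤ n → ∀ z : ℤ,
    law μ {η | ¬ st14 μ s n ε (sh (0, z) η) ≤ 1 / 2} ≤ ENNReal.ofReal (2 * Real.exp (-(n : ℝ) ^ c')) := by
  obtain ⟨c', hc', N₀, hN₀⟩ := hNS ε hε
  refine ⟨c', hc', N₀, fun n hn z => ?_⟩
  have h1 : ∫ η, st14 μ s n ε η ∂(law μ) ≤ Real.exp (-(n : ℝ) ^ c') := by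
    refine le_trans (le_of_eq ?_) (hN₀ n hn)
    refine integral_congr_ae (Eventually.of_forall fun η => ?_)
    unfold st14
    refine Finset.sum_congr rfl fun S _ => ?_
    congr 1
  have hm := measurable_st14 (μ := μ) (s := s) n ε
  have hle : ∀ η, st14 μ s n ε η ≤ 1 := fun η => by
    classical
    rw [← GS_sum (μ := μ) (s := s) η n]
    unfold st14
    refine Finset.sum_le_sum fun S _ => ?_
    have := GS_nonneg (μ := μ) (s := s) η n S
    split_ifs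
    · linarith
    · linarith
  have hi : Integrable (st14 μ s n ε) (law μ) := by
    refine Integrable.of_bound hm.aestronglyMeasurable 1 (Eventually.of_forall fun η => ?_)
    rw [Real.norm_of_nonneg (st14_nonneg n ε η)]
    exact hle η
  have h2 := mul_meas_ge_le_integral_of_nonneg (μ := law μ) (Eventually.of_forall fun η => st14_nonneg (μ := μ) (s := s) n ε η) hi (1 / 2)
  have hms : MeasurableSet {η : Env | 1 / 2 ≤ st14 μ s n ε η} := measurableSet_le measurable_const hm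
  have h3 : law μ {η | ¬ st14 μ s n ε (sh (0, z) η) ≤ 1 / 2} ≤ law μ {η : Env | 1 / 2 ≤ st14 μ s n ε η} := by
    have h4 := (mp_sh (μ := μ) ((0 : ℤ), z)).measure_preimage hms.nullMeasurableSet
    rw [← h4]
    refine measure_mono fun η hη => ?_
    rw [Set.mem_ofPred_eq, not_le] at hη
    rw [Set.mem_preimage, Set.mem_ofPred_eq]
    exact hη.le
  refine h3.trans ?_
  rw [← ofReal_measureReal (measure_ne_top _ _)]
  refine ENNReal.ofReal_le_ofReal ?_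
  have h4 : (1 / 2 : ℝ) * (law μ).real {η : Env | 1 / 2 ≤ st14 μ s n ε η} ≤ Real.exp (-(n : ℝ) ^ c') := h2.trans h1
  linarith

/-- **The difference of the free energies of two near starts.** -/
theorem bdd14_of (h : In μ s c C n₀) (hNS : NSFr μ s) {δ : ℝ} (hδ : 0 < δ) : ∀ ε : ℝ, 0 < ε → ∃ c' : ℝ, 0 < c' ∧ ∃ N₀ : ℕ,
    ∀ n : ℕ, N₀ ≤ n → ∀ x t1 : ℕ, x ≤ n → (x : ℝ) ≤ 2 * wd' μ s t1 → t1 ≤ n → (n : ℝ) ^ (2 * δ) ≤ t1 →
    law μ {η | 3 * (n : ℝ) ^ ε * EE' μ s t1 < |V μ s η (0, (x : ℤ)) n - V μ s η 0 n|} ≤ ENNReal.ofReal (Real.exp (-(n : ℝ) ^ c')) := by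
  intro ε hε
  obtain ⟨aw, Kw, haw, haw1, hKw, hw⟩ := wd'_pow h
  obtain ⟨δp, c2, hδp, hc2, L2, hL2⟩ := pbox h ε hε
  obtain ⟨ε', hε'⟩ : ∃ ε' : ℝ, ε' = min (δp / 2) (δ * aw) := ⟨_, rfl⟩
  have hε'0 : 0 < ε' := by rw [hε']; positivity
  have hε'1 : ε' ≤ δp / 2 := by rw [hε']; exact min_le_left _ _
  have hε'2 : ε' ≤ δ * aw := by rw [hε']; exact min_le_right _ _
  obtain ⟨c1, hc1, L1, hL1⟩ := st14_tail hNS hε'0
  have hs0 := h.sl_pos
  have hs1 := h.sl_lt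
  obtain ⟨σ, hσ⟩ : ∃ σ : ℝ, σ = min (sl μ s) (1 - sl μ s) := ⟨_, rfl⟩
  have hσ0 : 0 < σ := by rw [hσ]; exact lt_min hs0 (by linarith)
  have hσ1 : σ ≤ sl μ s := by rw [hσ]; exact min_le_left _ _
  have hσ2 : σ ≤ 1 - sl μ s := by rw [hσ]; exact min_le_right _ _
  obtain ⟨W1, hW1⟩ : ∃ W1 : ℝ, W1 = Kw * wd' μ s 1 := ⟨_, rfl⟩
  have hW10 : 1 ≤ W1 := by
    rw [hW1]
    have := wd1_14 μ s 1
    nlinarith
  obtain ⟨c3, hc3⟩ : ∃ c3 : ℝ, c3 = min c1 c2 / 2 := ⟨_, rfl⟩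
  have hc30 : 0 < c3 := by rw [hc3]; positivity
  have ev : ∀ᶠ n : ℕ in atTop, 1 ≤ n ∧ 3 ≤ (n : ℝ) ^ (δp / 2) ∧ 3 * W1 / σ ≤ (n : ℝ) ^ (δ * aw) ∧ 6 ≤ (n : ℝ) ^ c3 ∧
      1 ≤ (n : ℝ) ^ (2 * δ) := by
    filter_upwards [eventually_ge_atTop 1, evp14 (half_pos hδp) 3, evp14 (by positivity : 0 < δ * aw) (3 * W1 / σ),
      evp14 hc30 6, evp14 (by positivity : 0 < 2 * δ) 1] with n h1 h3 h5 h7 h8
    exact ⟨h1, h3, h5, h7, h8⟩
  obtain ⟨N₀, hN₀⟩ := eventually_atTop.1 ev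
  refine ⟨c3, hc30, max N₀ (max L1 L2), fun n hn x t1 hxn hxw ht1n hδt => ?_⟩
  obtain ⟨m1, m3, m5, m7, m8⟩ := hN₀ n ((le_max_left _ _).trans hn)
  have q1 := hL1 n (((le_max_left _ _).trans (le_max_right _ _)).trans hn)
  have q2 := hL2 n (((le_max_right _ _).trans (le_max_right _ _)).trans hn)
  have hnR : (1 : ℝ) ≤ n := by exact_mod_cast m1
  have hn0 : (0 : ℝ) < n := by linarith
  have ht1R : (1 : ℝ) ≤ t1 := m8.trans hδt
  have ht11 : 1 ≤ t1 := by exact_mod_cast ht1R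
  have ht10 : (0 : ℝ) < t1 := by linarith
  have w1 := wd1_14 μ s t1
  have E1 := EE1_14 μ s t1
  have hne : 1 ≤ (n : ℝ) ^ ε' := Real.one_le_rpow hnR hε'0.le
  have hr3 : (n : ℝ) ^ ε' * wd' μ s t1 + 2 * wd' μ s t1 ≤ 3 * ((n : ℝ) ^ ε' * wd' μ s t1) := by
    have h1 : 1 * wd' μ s t1 ≤ (n : ℝ) ^ ε' * wd' μ s t1 := mul_le_mul_of_nonneg_right hne (by linarith)
    rw [one_mul] at h1
    linarith
  have hc_a : (n : ℝ) ^ ε' * wd' μ s t1 + 2 * wd' μ s t1 ≤ (n : ℝ) ^ δp * wd' μ s t1 := by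
    have h1 : (n : ℝ) ^ ε' ≤ (n : ℝ) ^ (δp / 2) := Real.rpow_le_rpow_of_exponent_le hnR hε'1
    have h2 : (n : ℝ) ^ δp = (n : ℝ) ^ (δp / 2) * (n : ℝ) ^ (δp / 2) := by
      rw [← Real.rpow_add hn0]
      congr 1
      ring
    refine hr3.trans ?_
    rw [h2, ← mul_assoc]
    refine mul_le_mul_of_nonneg_right ?_ (by linarith)
    exact mul_le_mul m3 h1 (by positivity) (by positivity)
  have hc_c : (n : ℝ) ^ ε' * wd' μ s t1 + 2 * wd' μ s t1 ≤ σ * t1 := by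
    have h1 := (hw 1 t1 le_rfl ht11).2.2
    have h2 : wd' μ s t1 ≤ W1 * (t1 : ℝ) ^ (1 - aw) := by
      rw [Nat.cast_one, div_one] at h1
      rw [hW1]
      calc wd' μ s t1 ≤ Kw * (t1 : ℝ) ^ (1 - aw) * wd' μ s 1 := h1
        _ = _ := by ring
    have h3 : 3 * W1 / σ * (n : ℝ) ^ ε' ≤ (t1 : ℝ) ^ aw := by
      have h4 : (n : ℝ) ^ ε' ≤ (n : ℝ) ^ (δ * aw) := Real.rpow_le_rpow_of_exponent_le hnR hε'2
      have h5 : (n : ℝ) ^ (2 * δ * aw) ≤ (t1 : ℝ) ^ aw := by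
        rw [Real.rpow_mul hn0.le]
        exact Real.rpow_le_rpow (by positivity) hδt haw.le
      have h6 : (n : ℝ) ^ (2 * δ * aw) = (n : ℝ) ^ (δ * aw) * (n : ℝ) ^ (δ * aw) := by
        rw [← Real.rpow_add hn0]
        congr 1
        ring
      refine le_trans ?_ h5
      rw [h6]
      exact mul_le_mul m5 h4 (by positivity) (by positivity)
    have h4 : 3 * W1 * (n : ℝ) ^ ε' ≤ σ * (t1 : ℝ) ^ aw := by
      have h5 := mul_le_mul_of_nonneg_left h3 hσ0.le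
      calc 3 * W1 * (n : ℝ) ^ ε' = σ * (3 * W1 / σ * (n : ℝ) ^ ε') := by field_simp
        _ ≤ _ := h5
    have h5 : (t1 : ℝ) ^ aw * (t1 : ℝ) ^ (1 - aw) = t1 := by
      rw [← Real.rpow_add ht10]
      simp
    calc (n : ℝ) ^ ε' * wd' μ s t1 + 2 * wd' μ s t1 ≤ 3 * ((n : ℝ) ^ ε' * wd' μ s t1) := hr3
      _ ≤ 3 * ((n : ℝ) ^ ε' * (W1 * (t1 : ℝ) ^ (1 - aw))) := by gcongr
      _ = 3 * W1 * (n : ℝ) ^ ε' * (t1 : ℝ) ^ (1 - aw) := by ring
      _ ≤ σ * (t1 : ℝ) ^ aw * (t1 : ℝ) ^ (1 - aw) := mul_le_mul_of_nonneg_right h4 (by positivity)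
      _ = σ * t1 := by rw [mul_assoc, h5]
  have hc_d := hc_c.trans (mul_le_mul_of_nonneg_right hσ1 ht10.le)
  have hc_e := hc_c.trans (mul_le_mul_of_nonneg_right hσ2 ht10.le)
  have hxD : |((x : ℝ))| ≤ 2 * wd' μ s t1 := by rw [abs_of_nonneg (Nat.cast_nonneg _)]; exact hxw
  have hsub : {η | 3 * (n : ℝ) ^ ε * EE' μ s t1 < |V μ s η (0, (x : ℤ)) n - V μ s η 0 n|} ⊆
      ({η | ¬ st14 μ s n ε' (sh (0, (x : ℤ)) η) ≤ 1 / 2} ∪ {η | ¬ st14 μ s n ε' (sh (0, (0 : ℤ)) η) ≤ 1 / 2}) ∪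
        {η | ¬ PBox μ s n δp ε η} := by
    intro η hη
    rw [Set.mem_ofPred_eq] at hη
    by_contra hcon
    rw [Set.mem_union, Set.mem_union, not_or, not_or, Set.mem_ofPred_eq, Set.mem_ofPred_eq, Set.mem_ofPred_eq, not_not, not_not,
      not_not] at hcon
    obtain ⟨⟨g1, g2⟩, g3⟩ := hcon
    have e1 := two_starts14 (μ := μ) (s := s) (n := n) (t := t1) (z1 := (x : ℤ)) (z2 := 0) (D := 2 * wd' μ s t1) g3 ht11 ht1n
      (by rw [abs_of_nonneg (by omega)]; exact_mod_cast hxn) (by simp) (by simpa using hxD) g1 hc_a hc_d hc_e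
    have e2 := two_starts14 (μ := μ) (s := s) (n := n) (t := t1) (z1 := 0) (z2 := (x : ℤ)) (D := 2 * wd' μ s t1) g3 ht11 ht1n
      (by simp) (by rw [abs_of_nonneg (by omega)]; exact_mod_cast hxn) (by simpa using hxD) g2 hc_a hc_d hc_e
    have e3 : (((0 : ℤ), (0 : ℤ)) : Pt) = 0 := rfl
    rw [e3] at e1 e2
    have hnε : 1 ≤ (n : ℝ) ^ ε := Real.one_le_rpow hnR hε.le
    have h8 : 1 ≤ (n : ℝ) ^ ε * EE' μ s t1 := by
      calc (1 : ℝ) = 1 * 1 := (one_mul 1).symm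
        _ ≤ (n : ℝ) ^ ε * EE' μ s t1 := mul_le_mul hnε E1 zero_le_one (zero_le_one.trans hnε)
    have h9 : |V μ s η (0, (x : ℤ)) n - V μ s η 0 n| ≤ 3 * (n : ℝ) ^ ε * EE' μ s t1 := by
      rw [abs_le]
      constructor <;> linarith
    linarith
  refine (measure_mono hsub).trans ((measure_union_le _ _).trans ?_)
  refine (add_le_add ((measure_union_le _ _).trans (add_le_add (q1 _) (q1 _))) q2).trans ?_
  rw [← ENNReal.ofReal_add (by positivity) (by positivity), ← ENNReal.ofReal_add (by positivity) (Real.exp_pos _).le]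
  refine ENNReal.ofReal_le_ofReal ?_
  -- the numbers
  obtain ⟨y, hy⟩ : ∃ y : ℝ, y = (n : ℝ) ^ c3 := ⟨_, rfl⟩
  have e1 : (n : ℝ) ^ min c1 c2 = y * y := by
    rw [hy, ← Real.rpow_add hn0, hc3]
    congr 1
    ring
  rw [← hy] at m7 ⊢
  have h2 : 2 * y ≤ (n : ℝ) ^ c1 := by
    have := Real.rpow_le_rpow_of_exponent_le hnR (min_le_left c1 c2)
    rw [e1] at this
    nlinarith
  have h3 : 2 * y ≤ (n : ℝ) ^ c2 := by
    have := Real.rpow_le_rpow_of_exponent_le hnR (min_le_right c1 c2)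
    rw [e1] at this
    nlinarith
  have h4 : Real.exp (-(n : ℝ) ^ c1) ≤ Real.exp (-(2 * y)) := Real.exp_le_exp.2 (by linarith)
  have h5 : Real.exp (-(n : ℝ) ^ c2) ≤ Real.exp (-(2 * y)) := Real.exp_le_exp.2 (by linarith)
  have h6 : 5 * Real.exp (-(2 * y)) ≤ Real.exp (-y) := by
    have h7 : (5 : ℝ) ≤ Real.exp y := by
      have := Real.add_one_le_exp y
      linarith
    have h8 : Real.exp (-y) = Real.exp y * Real.exp (-(2 * y)) := by
      rw [← Real.exp_add]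
      congr 1
      ring
    rw [h8]
    exact mul_le_mul_of_nonneg_right h7 (Real.exp_pos _).le
  linarith

end Pool.Agent.W_7d29a1_LB
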