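import Pool.Agent.W_7d29a1_LB.NSDef
import Pool.Agent.W_7d29a1_HX.XT_Node
import Pool.Agent.W_7d29a1_HZ.ZE_Off

/-!
STORM LB / UB (MP_7d29a1_pr, rows 671, 674): no steep places for the polymer with a free end. The free end measure is at most the sum of the
fixed end measures over the end points of the cone, plus the weight of the end points outside the cone, which is exponentially small outside an
event of exponentially small probability. (helper18)
-/

set_option autoImplicit false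

namespace Pool.Agent.W_7d29a1_LB

open Finset MeasureTheory ProbabilityTheory Filter Topology
open Pool.Agent.W_7d29a1_F Pool.Agent.W_7d29a1_X
open Pool.Agent.W_7d29a1_H (sl)
open Pool.Agent.W_7d29a1_HS (In wd)
open Pool.Agent.W_7d29a1_HZ (NSp wd' EE' gp P1 PBox)
open Pool.Agent.W_7d29a1_HZ.ZE (OffC)
open Pool.Agent.W_7d29a1_HX.XT (measurable_GS GS_le_one)
open scoped ENNReal

noncomputable section

variable {μ : Measure ℝ} {s : ℝ}

/-- The free end weight is at most the fixed end weight. -/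
theorem GS_le_gp (η : Env) {n : ℕ} (S : Finset ℕ) : GS μ s η n S ≤ gp μ s η n (pos S n) S := by
  have h0 := pos_nonneg S n
  have h1 := pos_le S n
  have hW : 0 < W μ s η 0 n (pos S n) := W_pos (μ := μ) (s := s) η 0 h0 h1
  have h2 : W μ s η 0 n (pos S n) ≤ Real.exp (V μ s η 0 n) := by
    rw [exp_V]
    unfold WS
    exact single_le_sum (f := fun y => W μ s η 0 n y) (fun y _ => W_nonneg _ _ _ _) (mem_Icc.2 ⟨h0, h1⟩)
  unfold GS gp
  rw [if_pos rfl]
  exact div_le_div_of_nonneg_left (pth_nonneg _ _ _) hW h2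

/-- The weight of the end points. -/
theorem GS_end (η : Env) (N : ℕ) (f : ℤ → ℝ) : ∑ S ∈ (range N).powerset, GS μ s η N S * f (pos S N) =
    ∑ y ∈ Icc (0 : ℤ) N, W μ s η 0 N y / Real.exp (V μ s η 0 N) * f y := by
  have h := GS_pos (μ := μ) (s := s) η N 0 f
  rw [Nat.add_zero] at h
  rw [h]
  refine sum_congr rfl fun y _ => ?_
  rw [V_zero, Real.exp_zero, mul_one]

open Classical in
/-- The Gibbs weight of the end points outside the cone, quenched. -/
theorem GS_off {N : ℕ} (hN : 1 ≤ N) {δ ε δ' κ : ℝ} (hδ' : 0 < δ') (hsl : 0 ≤ sl μ s) (hsl1 : sl μ s ≤ 1) {η : Env}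
    (hO : OffC μ s N ε κ η) (hP : PBox μ s N δ' ε η) (hbig : 3 * (N : ℝ) ^ ε ≤ κ * (N : ℝ) ^ δ) (hκ : 0 < κ) :
    ∑ S ∈ (range N).powerset, GS μ s η N S * (if |(pos S N : ℝ) - sl μ s * N| ≤ (N : ℝ) ^ δ * wd' μ s N then 0 else 1) ≤
      ((N : ℝ) + 1) * Real.exp (-(N : ℝ) ^ ε) := by
  have hNR : (1 : ℝ) ≤ N := by exact_mod_cast hN
  have hN0 : (0 : ℝ) < N := by linarith
  have hEp : 1 ≤ EE' μ s N := le_max_left _ _
  have hwp : 1 ≤ wd' μ s N := le_max_left _ _
  have hE0 : 0 < EE' μ s N := by linarith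
  have hw0 : 0 < wd' μ s N := by linarith
  have hNe : 0 < (N : ℝ) ^ ε := Real.rpow_pos_of_pos hN0 _
  -- the lower bound of the free weight
  have hV : Real.exp (-((N : ℝ) ^ ε * EE' μ s N)) ≤ Real.exp (V μ s η 0 N) := by
    obtain ⟨y, hy⟩ : ∃ y : ℤ, y = ⌊sl μ s * N⌋ := ⟨_, rfl⟩
    have hy0 : 0 ≤ y := by rw [hy]; exact Int.floor_nonneg.2 (by positivity)
    have hyR : (y : ℝ) ≤ sl μ s * N := by rw [hy]; exact Int.floor_le _
    have hyR' : sl μ s * N < y + 1 := by rw [hy]; exact Int.lt_floor_add_one _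
    have hyN : y ≤ N := by
      have h1 : (y : ℝ) ≤ N := hyR.trans (mul_le_of_le_one_left hN0.le hsl1)
      exact_mod_cast h1
    have hab : |(y : ℝ) - sl μ s * N| ≤ (N : ℝ) ^ δ' * wd' μ s N := by
      have h1 : (1 : ℝ) ≤ (N : ℝ) ^ δ' * wd' μ s N := by
        have h2 : (1 : ℝ) ≤ (N : ℝ) ^ δ' := Real.one_le_rpow hNR hδ'.le
        nlinarith
      refine le_trans ?_ h1
      rw [abs_le]
      constructor <;> linarith
    have h1 := (hP 0 N (by omega) 0 (by simp) y hy0 hyN).2.2 hab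
    have e0 : ((((0 : ℕ) : ℤ), (0 : ℤ)) : Pt) = 0 := rfl
    rw [e0] at h1
    refine h1.trans ?_
    rw [exp_V]
    unfold WS
    exact single_le_sum (f := fun y => W μ s η 0 N y) (fun y _ => W_nonneg _ _ _ _) (mem_Icc.2 ⟨hy0, hyN⟩)
  rw [GS_end η N fun y => if |(y : ℝ) - sl μ s * N| ≤ (N : ℝ) ^ δ * wd' μ s N then 0 else 1]
  have h2 : ∀ y ∈ Icc (0 : ℤ) N, W μ s η 0 N y / Real.exp (V μ s η 0 N) *
      (if |(y : ℝ) - sl μ s * N| ≤ (N : ℝ) ^ δ * wd' μ s N then 0 else 1) ≤ Real.exp (-(N : ℝ) ^ ε) := by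
    intro y hy
    rw [mem_Icc] at hy
    split_ifs with hc
    · rw [mul_zero]
      exact (Real.exp_pos _).le
    · rw [mul_one, div_le_iff₀ (Real.exp_pos _)]
      rw [not_le] at hc
      have h3 := hO 0 N (by omega) 0 (by simp) y hy.1 hy.2
      have e0 : ((((0 : ℕ) : ℤ), (0 : ℤ)) : Pt) = 0 := rfl
      rw [e0] at h3
      refine h3.trans (le_trans ?_ (mul_le_mul_of_nonneg_left hV (Real.exp_pos _).le))
      rw [← Real.exp_add]
      refine Real.exp_le_exp.2 ?_
      have h4 : κ * (N : ℝ) ^ δ * EE' μ s N ≤ κ * (EE' μ s N / wd' μ s N) * |(y : ℝ) - sl μ s * N| := by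
        have h5 : κ * (N : ℝ) ^ δ * EE' μ s N = κ * (EE' μ s N / wd' μ s N) * ((N : ℝ) ^ δ * wd' μ s N) := by
          field_simp
        rw [h5]
        exact mul_le_mul_of_nonneg_left hc.le (by positivity)
      have h6 : 3 * (N : ℝ) ^ ε * EE' μ s N ≤ κ * (N : ℝ) ^ δ * EE' μ s N := mul_le_mul_of_nonneg_right hbig hE0.le
      have h7 : (N : ℝ) ^ ε ≤ (N : ℝ) ^ ε * EE' μ s N := le_mul_of_one_le_right hNe.le hEp
      linarith
  refine (sum_le_sum h2).trans (le_of_eq ?_)
  rw [sum_const, Int.card_Icc]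
  have e1 : ((N : ℤ) + 1 - 0).toNat = N + 1 := by omega
  rw [e1, nsmul_eq_mul]
  push_cast
  ring

variable [IsProbabilityMeasure μ] {c C : ℝ} {n₀ : ℕ}

open Classical in
/-- The passage from the fixed ends to the free end, for a property of the path. -/
theorem free_of_fixed {N : ℕ} {χ : Finset ℕ → Prop} {A : Finset ℤ} {G : Set Env} {b e : ℝ}
    (hA : ∀ y ∈ A, P1 μ s N y (fun _ S => ¬ χ S) ≤ ENNReal.ofReal b)
    (hG : ∀ η ∈ G, ∑ S ∈ (range N).powerset, GS μ s η N S * (if pos S N ∈ A then 0 else 1) ≤ e) :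
    ENNReal.ofReal (∫ η, ∑ S ∈ (range N).powerset, GS μ s η N S * (if χ S then 0 else 1) ∂(law μ)) ≤
      A.card * ENNReal.ofReal b + ENNReal.ofReal e + law μ Gᶜ := by
  have hnn : ∀ η : Env, 0 ≤ ∑ S ∈ (range N).powerset, GS μ s η N S * (if χ S then (0 : ℝ) else 1) := fun η =>
    sum_nonneg fun S _ => mul_nonneg (GS_nonneg _ _ _) (by split_ifs <;> norm_num)
  have hmeas : Measurable fun η : Env => ∑ S ∈ (range N).powerset, GS μ s η N S * (if χ S then (0 : ℝ) else 1) :=
    Finset.measurable_fun_sum _ fun S _ => (measurable_GS N S).mul_const _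
  rw [integral_eq_lintegral_of_nonneg_ae (Eventually.of_forall hnn) hmeas.aestronglyMeasurable]
  refine ENNReal.ofReal_toReal_le.trans ?_
  -- the pointwise bound
  have hpt : ∀ η : Env, ENNReal.ofReal (∑ S ∈ (range N).powerset, GS μ s η N S * (if χ S then (0 : ℝ) else 1)) ≤
      (∑ y ∈ A, ∑ S ∈ (range N).powerset, ({η | ¬ χ S} : Set Env).indicator (fun η => ENNReal.ofReal (gp μ s η N y S)) η) +
      (ENNReal.ofReal e + (toMeasurable (law μ) Gᶜ).indicator (fun _ => (1 : ℝ≥0∞)) η) := by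
    intro η
    have h1 : ∑ S ∈ (range N).powerset, GS μ s η N S * (if χ S then (0 : ℝ) else 1) ≤
        (∑ y ∈ A, ∑ S ∈ (range N).powerset, gp μ s η N y S * (if χ S then (0 : ℝ) else 1)) +
        ∑ S ∈ (range N).powerset, GS μ s η N S * (if pos S N ∈ A then 0 else 1) := by
      rw [sum_comm, ← sum_add_distrib]
      refine sum_le_sum fun S _ => ?_
      have hgp : ∀ y, 0 ≤ gp μ s η N y S := fun y => Pool.Agent.W_7d29a1_HZ.gp_nonneg _ _ _ _
      by_cases hc : χ S
      · rw [if_pos hc, mul_zero]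
        exact add_nonneg (sum_nonneg fun y _ => by rw [mul_zero]) (mul_nonneg (GS_nonneg _ _ _) (by split_ifs <;> norm_num))
      · simp only [if_neg hc, mul_one]
        by_cases hp : pos S N ∈ A
        · rw [if_pos hp, mul_zero, add_zero]
          exact (GS_le_gp η S).trans (single_le_sum (f := fun y => gp μ s η N y S) (fun y _ => hgp y) hp)
        · rw [if_neg hp, mul_one]
          have := sum_nonneg (s := A) (f := fun y => gp μ s η N y S) fun y _ => hgp y
          linarith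
    refine (ENNReal.ofReal_le_ofReal h1).trans ?_
    rw [ENNReal.ofReal_add (sum_nonneg fun y _ => sum_nonneg fun S _ => mul_nonneg (Pool.Agent.W_7d29a1_HZ.gp_nonneg _ _ _ _)
      (by split_ifs <;> norm_num)) (sum_nonneg fun S _ => mul_nonneg (GS_nonneg _ _ _) (by split_ifs <;> norm_num))]
    refine add_le_add ?_ ?_
    · rw [ENNReal.ofReal_sum_of_nonneg fun y _ => sum_nonneg fun S _ => mul_nonneg (Pool.Agent.W_7d29a1_HZ.gp_nonneg _ _ _ _)
        (by split_ifs <;> norm_num)]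
      refine sum_le_sum fun y _ => ?_
      rw [ENNReal.ofReal_sum_of_nonneg fun S _ => mul_nonneg (Pool.Agent.W_7d29a1_HZ.gp_nonneg _ _ _ _)
        (by split_ifs <;> norm_num)]
      refine sum_le_sum fun S _ => ?_
      by_cases hc : χ S
      · rw [if_pos hc, mul_zero, ENNReal.ofReal_zero]
        exact bot_le
      · rw [if_neg hc, mul_one, Set.indicator_of_mem (show η ∈ {η | ¬ χ S} from hc)]
    · by_cases hg : η ∈ G
      · exact (ENNReal.ofReal_le_ofReal (hG η hg)).trans (le_self_add)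
      · have h2 : η ∈ toMeasurable (law μ) Gᶜ := subset_toMeasurable _ _ hg
        rw [Set.indicator_of_mem h2]
        refine le_trans ?_ (le_add_self)
        rw [← ENNReal.ofReal_one]
        refine ENNReal.ofReal_le_ofReal (le_trans (sum_le_sum fun S _ => ?_) (GS_sum (μ := μ) (s := s) η N).le)
        have := GS_nonneg (μ := μ) (s := s) η N S
        split_ifs
        · linarith
        · linarith
  refine (lintegral_mono hpt).trans ?_
  have m1 : ∀ (y : ℤ) (S : Finset ℕ), Measurable (({η | ¬ χ S} : Set Env).indicator fun η => ENNReal.ofReal (gp μ s η N y S)) := by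
    intro y S
    refine Measurable.indicator (Pool.Agent.W_7d29a1_HZ.measurable_gp N y S).ennreal_ofReal ?_
    by_cases hc : χ S
    · have e1 : ({η | ¬ χ S} : Set Env) = ∅ := by
        ext η
        simp [hc]
      rw [e1]
      exact MeasurableSet.empty
    · have e1 : ({η | ¬ χ S} : Set Env) = Set.univ := by
        ext η
        simp [hc]
      rw [e1]
      exact MeasurableSet.univ
  rw [lintegral_add_left (Finset.measurable_fun_sum _ fun y _ => Finset.measurable_fun_sum _ fun S _ => m1 y S),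
    lintegral_add_left measurable_const, lintegral_const, measure_univ, mul_one,
    lintegral_indicator (measurableSet_toMeasurable _ _), lintegral_const, one_mul, Measure.restrict_apply_univ,
    measure_toMeasurable, add_assoc]
  refine add_le_add ?_ le_rfl
  rw [lintegral_finsetSum _ fun y _ => Finset.measurable_fun_sum _ fun S _ => m1 y S]
  have h3 : ∀ y ∈ A, ∫⁻ η, ∑ S ∈ (range N).powerset, ({η | ¬ χ S} : Set Env).indicator (fun η => ENNReal.ofReal (gp μ s η N y S)) η
      ∂(law μ) ≤ ENNReal.ofReal b := by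
    intro y hy
    refine le_trans (le_of_eq ?_) (hA y hy)
    rw [Pool.Agent.W_7d29a1_HZ.P1_eq, lintegral_finsetSum _ fun S _ => m1 y S]
    refine sum_congr rfl fun S _ => ?_
    rw [lintegral_indicator]
    by_cases hc : χ S
    · have e1 : ({η | ¬ χ S} : Set Env) = ∅ := by
        ext η
        simp [hc]
      rw [e1]
      exact MeasurableSet.empty
    · have e1 : ({η | ¬ χ S} : Set Env) = Set.univ := by
        ext η
        simp [hc]
      rw [e1]
      exact MeasurableSet.univ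
  refine (sum_le_sum h3).trans (le_of_eq ?_)
  rw [sum_const, nsmul_eq_mul]

open Classical in
/-- **No steep places, free end.** -/
theorem nsf14 (h : In μ s c C n₀) : NSFr μ s := by
  intro ε hε
  obtain ⟨δ, c₁, hδ, hc₁, L₁, hns⟩ := Pool.Agent.W_7d29a1_HZ.ns h ε hε
  obtain ⟨κ, hκ, hoff⟩ := Pool.Agent.W_7d29a1_HZ.ZE.offc h
  obtain ⟨c₂, hc₂, L₂, hof⟩ := hoff (δ / 3) (by positivity)
  obtain ⟨δ', c₃, hδ', hc₃, L₃, hpb⟩ := Pool.Agent.W_7d29a1_HZ.pbox h (δ / 3) (by positivity)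
  obtain ⟨m, hm⟩ : ∃ m : ℝ, m = min (min c₁ c₂) (min c₃ (δ / 3)) := ⟨_, rfl⟩
  have hm0 : 0 < m := by
    rw [hm]
    exact lt_min (lt_min hc₁ hc₂) (lt_min hc₃ (by positivity))
  have m1 : m ≤ c₁ := by rw [hm]; exact (min_le_left _ _).trans (min_le_left _ _)
  have m2 : m ≤ c₂ := by rw [hm]; exact (min_le_left _ _).trans (min_le_right _ _)
  have m3 : m ≤ c₃ := by rw [hm]; exact (min_le_right _ _).trans (min_le_left _ _)
  have m4 : m ≤ δ / 3 := by rw [hm]; exact (min_le_right _ _).trans (min_le_right _ _)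
  have ev1 := Pool.Agent.W_7d29a1_HZ.Z22.absorb 6 1 (b := 1) (g := m) one_pos hm0
  have ev2 : ∀ᶠ L : ℕ in atTop, 3 / κ ≤ (L : ℝ) ^ (2 * δ / 3) :=
    ((tendsto_rpow_atTop (by positivity : 0 < 2 * δ / 3)).comp tendsto_natCast_atTop_atTop).eventually_ge_atTop _
  obtain ⟨N₁, hN₁⟩ := eventually_atTop.1 (ev1.and ev2)
  refine ⟨m / 2, by positivity, max (max (max L₁ L₂) (max L₃ N₁)) 1, fun N hN => ?_⟩
  have hL₁ : L₁ ≤ N := (le_max_left _ _).trans ((le_max_left _ _).trans ((le_max_left _ _).trans hN))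
  have hL₂ : L₂ ≤ N := (le_max_right _ _).trans ((le_max_left _ _).trans ((le_max_left _ _).trans hN))
  have hL₃ : L₃ ≤ N := (le_max_left _ _).trans ((le_max_right _ _).trans ((le_max_left _ _).trans hN))
  have hNN : N₁ ≤ N := (le_max_right _ _).trans ((le_max_right _ _).trans ((le_max_left _ _).trans hN))
  have hN1 : 1 ≤ N := (le_max_right _ _).trans hN
  have hNR : (1 : ℝ) ≤ N := by exact_mod_cast hN1
  have hN0 : (0 : ℝ) < N := by linarith
  obtain ⟨k1, k2⟩ := hN₁ N hNN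
  have hbig : 3 * (N : ℝ) ^ (δ / 3) ≤ κ * (N : ℝ) ^ δ := by
    have e1 : (N : ℝ) ^ δ = (N : ℝ) ^ (δ / 3) * (N : ℝ) ^ (2 * δ / 3) := by
      rw [← Real.rpow_add hN0]
      congr 1
      ring
    rw [div_le_iff₀ hκ] at k2
    have h0 : 0 < (N : ℝ) ^ (δ / 3) := by positivity
    rw [e1]
    nlinarith
  -- the cone
  obtain ⟨A, hA⟩ : ∃ A : Finset ℤ, A = (Icc (0 : ℤ) N).filter fun y : ℤ => |(y : ℝ) - sl μ s * N| ≤ (N : ℝ) ^ δ * wd' μ s N := ⟨_, rfl⟩
  have hmem : ∀ S : Finset ℕ, (pos S N ∈ A) ↔ |(pos S N : ℝ) - sl μ s * N| ≤ (N : ℝ) ^ δ * wd' μ s N := by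
    intro S
    rw [hA, mem_filter, mem_Icc]
    exact ⟨fun h => h.2, fun h => ⟨⟨pos_nonneg _ _, pos_le _ _⟩, h⟩⟩
  have hcard : (A.card : ℝ≥0∞) ≤ ENNReal.ofReal (2 * N) := by
    have h1 : A.card ≤ 2 * N := by
      rw [hA]
      refine (card_filter_le _ _).trans ?_
      rw [Int.card_Icc]
      omega
    rw [← ENNReal.ofReal_natCast]
    refine ENNReal.ofReal_le_ofReal ?_
    exact_mod_cast h1
  obtain ⟨G, hG⟩ : ∃ G : Set Env, G = {η | OffC μ s N (δ / 3) κ η ∧ PBox μ s N δ' (δ / 3) η} := ⟨_, rfl⟩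
  have hGc : law μ Gᶜ ≤ ENNReal.ofReal (Real.exp (-(N : ℝ) ^ c₂)) + ENNReal.ofReal (Real.exp (-(N : ℝ) ^ c₃)) := by
    refine le_trans (measure_mono ?_) ((measure_union_le _ _).trans (add_le_add (hof N hL₂) (hpb N hL₃)))
    intro η hη
    rw [hG] at hη
    by_contra hcon
    rw [Set.mem_union, not_or] at hcon
    refine hη ⟨?_, ?_⟩
    · by_contra h1
      exact hcon.1 h1
    · by_contra h1
      exact hcon.2 h1
  have hmain := free_of_fixed (μ := μ) (s := s) (N := N) (χ := fun S => NSp μ s N N ε S) (A := A) (G := G)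
    (b := Real.exp (-(N : ℝ) ^ c₁)) (e := ((N : ℝ) + 1) * Real.exp (-(N : ℝ) ^ (δ / 3)))
    (by
      intro y hy
      rw [hA, mem_filter, mem_Icc] at hy
      exact hns N hL₁ N (by omega) le_rfl y hy.1.1 hy.1.2 hy.2)
    (by
      intro η hη
      rw [hG] at hη
      have h1 := GS_off (μ := μ) (s := s) hN1 hδ' h.sl_pos.le h.sl_lt.le hη.1 hη.2 hbig hκ
      refine le_trans (le_of_eq ?_) h1
      refine sum_congr rfl fun S _ => ?_
      by_cases hp : pos S N ∈ A
      · rw [if_pos hp, if_pos ((hmem S).1 hp)]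
      · rw [if_neg hp, if_neg fun h2 => hp ((hmem S).2 h2)])
  obtain ⟨E, hE⟩ : ∃ E : ℝ, E = Real.exp (-(N : ℝ) ^ m) := ⟨_, rfl⟩
  have hE0 : 0 < E := by rw [hE]; exact Real.exp_pos _
  have hmono : ∀ a : ℝ, m ≤ a → Real.exp (-(N : ℝ) ^ a) ≤ E := fun a ha => by
    rw [hE]
    exact Real.exp_le_exp.2 (neg_le_neg (Real.rpow_le_rpow_of_exponent_le hNR ha))
  have hfin : ENNReal.ofReal (∫ η, ∑ S ∈ (range N).powerset, GS μ s η N S * (if NSp μ s N N ε S then 0 else 1) ∂(law μ)) ≤
      ENNReal.ofReal (6 * (N : ℝ) * E) := by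
    refine hmain.trans ?_
    have h1 : (A.card : ℝ≥0∞) * ENNReal.ofReal (Real.exp (-(N : ℝ) ^ c₁)) ≤ ENNReal.ofReal (2 * N * E) := by
      rw [ENNReal.ofReal_mul (by positivity)]
      exact mul_le_mul' hcard (ENNReal.ofReal_le_ofReal (hmono _ m1))
    have h2 : ENNReal.ofReal (((N : ℝ) + 1) * Real.exp (-(N : ℝ) ^ (δ / 3))) ≤ ENNReal.ofReal (2 * N * E) := by
      refine ENNReal.ofReal_le_ofReal (mul_le_mul (by linarith) (hmono _ m4) (Real.exp_pos _).le (by positivity))
    have h3 : law μ Gᶜ ≤ ENNReal.ofReal (2 * N * E) := by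
      refine hGc.trans ?_
      rw [← ENNReal.ofReal_add (Real.exp_pos _).le (Real.exp_pos _).le]
      refine ENNReal.ofReal_le_ofReal ?_
      have q1 := hmono _ m2
      have q2 := hmono _ m3
      nlinarith
    refine (add_le_add (add_le_add h1 h2) h3).trans (le_of_eq ?_)
    rw [← ENNReal.ofReal_add (by positivity) (by positivity), ← ENNReal.ofReal_add (by positivity) (by positivity)]
    congr 1
    ring
  have hreal : ∫ η, ∑ S ∈ (range N).powerset, GS μ s η N S * (if NSp μ s N N ε S then 0 else 1) ∂(law μ) ≤ 6 * (N : ℝ) * E :=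
    (ENNReal.ofReal_le_ofReal_iff (by positivity)).1 hfin
  rw [Real.rpow_one, one_mul, ← hE] at k1
  refine le_trans (le_of_eq ?_) (hreal.trans k1)
  refine integral_congr_ae (Eventually.of_forall fun η => sum_congr rfl fun S _ => ?_)
  by_cases hc : NSp μ s N N ε S
  · simp only [if_pos hc]
  · simp only [if_neg hc]

end

end Pool.Agent.W_7d29a1_LB
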