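import Pool.Agent.W_7d29a1_LB.Seam

/-!
STORM LB, section 2: the insertion of a fresh strip along a predictable seam preserves the law of the
environment.
-/

namespace Pool.Agent.W_7d29a1_LB

open MeasureTheory ProbabilityTheory Pool.Agent.W_7d29a1_F

noncomputable section

/-- Insertion of a strip of width `w` along a curve with a row for every integer (auxiliary form of
`ins`). -/
private def insZ (q : ℤ → ℤ) (w : ℤ) (ω ξ : Env) : Env := fun p =>
  if p.2 < q p.1 then ω p
  else if p.2 < q p.1 + w then ξ (p.1, p.2 - q p.1)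
  else ω (p.1, p.2 - w)

private lemma measurable_insZ {T : Type*} [MeasurableSpace T] {Q : T → ℤ → ℤ}
    (hQ : ∀ t, Measurable fun x => Q x t) (w : ℤ) {f g : T → Env} (hf : Measurable f)
    (hg : Measurable g) : Measurable fun x => insZ (Q x) w (f x) (g x) := by
  refine measurable_pi_iff.2 fun p => ?_
  have h1 : Measurable fun x : ℤ × T => (if p.2 < x.1 then f x.2 p
      else if p.2 < x.1 + w then g x.2 (p.1, p.2 - x.1) else f x.2 (p.1, p.2 - w)) := by
    refine measurable_from_prod_countable_right fun j => ?_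
    dsimp only
    split_ifs
    · exact (measurable_pi_apply p).comp hf
    · exact (measurable_pi_apply _).comp hg
    · exact (measurable_pi_apply _).comp hf
  exact h1.comp ((hQ p.1).prodMk measurable_id)

/-- Switching between measure preserving maps along a label which they do not change. -/
theorem mp_switch {Ω : Type*} [MeasurableSpace Ω] {P : Measure Ω} {k : Ω → ℤ} (hk : Measurable k)
    {T : ℤ → Ω → Ω} (hT : ∀ j, MeasurePreserving (T j) P P) (hkT : ∀ j ω, k (T j ω) = k ω) :
    MeasurePreserving (fun ω => T (k ω) ω) P P := by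
  have hm : Measurable (fun ω => T (k ω) ω) := by
    have h1 : Measurable fun x : ℤ × Ω => T x.1 x.2 :=
      measurable_from_prod_countable_right fun j => (hT j).measurable
    exact h1.comp (hk.prodMk measurable_id)
  refine ⟨hm, ?_⟩
  ext A hA
  rw [Measure.map_apply hm hA]
  have hj : ∀ j : ℤ, MeasurableSet (k ⁻¹' {j} ∩ A) := fun j =>
    (hk (measurableSet_singleton j)).inter hA
  have e1 : (fun ω => T (k ω) ω) ⁻¹' A = ⋃ j : ℤ, T j ⁻¹' (k ⁻¹' {j} ∩ A) := by
    ext ω
    simp only [Set.mem_preimage, Set.mem_iUnion, Set.mem_inter_iff, Set.mem_singleton_iff, hkT]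
    constructor
    · intro h
      exact ⟨k ω, rfl, h⟩
    · rintro ⟨j, hj1, hj2⟩
      rwa [hj1]
  have e2 : A = ⋃ j : ℤ, (k ⁻¹' {j} ∩ A) := by
    ext ω
    simp only [Set.mem_preimage, Set.mem_iUnion, Set.mem_inter_iff, Set.mem_singleton_iff]
    exact ⟨fun h => ⟨k ω, rfl, h⟩, fun ⟨_, _, h⟩ => h⟩
  have d2 : Pairwise (Function.onFun Disjoint fun j : ℤ => k ⁻¹' {j} ∩ A) := by
    intro i j hij
    refine Set.disjoint_left.2 fun ω h1 h2 => hij ?_
    have h3 : k ω = i := h1.1
    have h4 : k ω = j := h2.1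
    rw [← h3, ← h4]
  have d1 : Pairwise (Function.onFun Disjoint fun j : ℤ => T j ⁻¹' (k ⁻¹' {j} ∩ A)) := by
    intro i j hij
    refine Set.disjoint_left.2 fun ω h1 h2 => hij ?_
    have h3 : k (T i ω) = i := h1.1
    have h4 : k (T j ω) = j := h2.1
    rw [hkT] at h3 h4
    rw [← h3, ← h4]
  rw [e1, measure_iUnion d1 fun j => (hT j).measurable (hj j)]
  conv_rhs => rw [e2, measure_iUnion d2 hj]
  exact tsum_congr fun j => (hT j).measure_preimage (hj j).nullMeasurableSet

variable {μ : Measure ℝ} [IsProbabilityMeasure μ]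

private lemma meas_elim : Measurable (fun (w : Env × Env) (p : Pt ⊕ Pt) => Sum.elim w.1 w.2 p) := by
  refine measurable_pi_iff.2 fun p => ?_
  cases p with
  | inl p => exact (measurable_pi_apply p).comp measurable_fst
  | inr p => exact (measurable_pi_apply p).comp measurable_snd

private lemma map_elim : ((law μ).prod (law μ)).map
    (fun (w : Env × Env) (p : Pt ⊕ Pt) => Sum.elim w.1 w.2 p)
      = Measure.infinitePi fun _ : Pt ⊕ Pt => μ := by
  classical
  unfold law
  apply Measure.eq_infinitePi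
  intro s t ht
  rw [Measure.map_apply meas_elim (.pi s.countable_toSet fun i _ => ht i)]
  have h1 : (fun (w : Env × Env) (p : Pt ⊕ Pt) => Sum.elim w.1 w.2 p) ⁻¹' (Set.pi (s : Set _) t) =
      (Set.pi (s.toLeft : Set _) fun p => t (Sum.inl p)) ×ˢ
        (Set.pi (s.toRight : Set _) fun p => t (Sum.inr p)) := by
    ext w
    simp only [Set.mem_preimage, Set.mem_pi, Finset.mem_coe, Set.mem_prod, Finset.mem_toLeft,
      Finset.mem_toRight]
    constructor
    · intro h
      exact ⟨fun p hp => h _ hp, fun p hp => h _ hp⟩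
    · rintro ⟨h, h'⟩ p hp
      cases p with
      | inl p => exact h p hp
      | inr p => exact h' p hp
  rw [h1, Measure.prod_prod, Measure.infinitePi_pi _ (fun i _ => ht _),
    Measure.infinitePi_pi _ (fun i _ => ht _)]
  conv_rhs => rw [← Finset.toLeft_disjSum_toRight (u := s)]
  rw [Finset.prod_disjSum]

/-- Reindexing two environments together. -/
theorem mp_re {τ : Pt ⊕ Pt → Pt ⊕ Pt} (hτ : Function.Injective τ) :
    MeasurePreserving (fun w : Env × Env =>
      ((fun p => Sum.elim w.1 w.2 (τ (Sum.inl p)) : Env),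
        (fun p => Sum.elim w.1 w.2 (τ (Sum.inr p)) : Env)))
      ((law μ).prod (law μ)) ((law μ).prod (law μ)) := by
  have hE : MeasurePreserving (fun (w : Env × Env) (p : Pt ⊕ Pt) => Sum.elim w.1 w.2 p)
      ((law μ).prod (law μ)) (Measure.infinitePi fun _ : Pt ⊕ Pt => μ) := ⟨meas_elim, map_elim⟩
  have hR : MeasurePreserving (fun (u : Pt ⊕ Pt → ℝ) q => u (τ q))
      (Measure.infinitePi fun _ : Pt ⊕ Pt => μ) (Measure.infinitePi fun _ : Pt ⊕ Pt => μ) :=
    ⟨by fun_prop, Measure.map_infinitePi_infinitePi_of_inj (P := fun _ : Pt ⊕ Pt => μ) hτ⟩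
  have hm : Measurable (fun u : Pt ⊕ Pt → ℝ =>
      ((fun p => u (Sum.inl p) : Env), (fun p => u (Sum.inr p) : Env))) := by fun_prop
  have hS : MeasurePreserving (fun u : Pt ⊕ Pt → ℝ =>
      ((fun p => u (Sum.inl p) : Env), (fun p => u (Sum.inr p) : Env)))
      (Measure.infinitePi fun _ : Pt ⊕ Pt => μ) ((law μ).prod (law μ)) := by
    refine ⟨hm, ?_⟩
    rw [← map_elim, Measure.map_map hm meas_elim]
    exact Measure.map_id
  exact hS.comp (hR.comp hE)

/-- The index map of the row `t` with the seam at `j`. -/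
private def sg (w t j : ℤ) : Pt ⊕ Pt → Pt ⊕ Pt
  | Sum.inl p => if p.1 = t then (if p.2 < j then Sum.inl p else if p.2 < j + w then
      Sum.inr (p.1, p.2 - j) else Sum.inl (p.1, p.2 - w)) else Sum.inl p
  | Sum.inr p => if p.1 = t then (if p.2 < 0 then Sum.inr p else Sum.inr (p.1, p.2 + w))
      else Sum.inr p

private lemma sg_inj {w : ℤ} (hw : 0 ≤ w) (t j : ℤ) : Function.Injective (sg w t j) := by
  rintro (⟨a, x⟩ | ⟨a, x⟩) (⟨b, y⟩ | ⟨b, y⟩) h <;> simp only [sg] at h <;> split_ifs at h <;>
    simp only [Sum.inl.injEq, Sum.inr.injEq, Prod.mk.injEq, reduceCtorEq] at h ⊢ <;> omega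

/-- The change of the row `t`. -/
private def rowT (w t j : ℤ) (x : Env × Env) : Env × Env :=
  ((fun p => Sum.elim x.1 x.2 (sg w t j (Sum.inl p)) : Env),
    (fun p => Sum.elim x.1 x.2 (sg w t j (Sum.inr p)) : Env))

private lemma rowT_ne {w t j : ℤ} {x : Env × Env} {p : Pt} (h : p.1 ≠ t) :
    (rowT w t j x).1 p = x.1 p ∧ (rowT w t j x).2 p = x.2 p := by
  simp [rowT, sg, h]

private lemma rowT_eq {w t : ℤ} {q : ℤ → ℤ} {x : Env × Env} {p : Pt} (h : p.1 = t) :
    (rowT w t (q t) x).1 p = insZ q w x.1 x.2 p := by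
  subst h
  unfold rowT insZ sg
  dsimp only
  split_ifs <;> simp_all

/-- The curve depends on the earlier rows only. -/
private def Pred (Q : Env → ℤ → ℤ) : Prop :=
  ∀ (t : ℤ) (ω ω' : Env), (∀ p : Pt, p.1 < t → ω p = ω' p) → Q ω t = Q ω' t

private lemma mp_row {Q : Env → ℤ → ℤ} (hQ : ∀ t, Measurable fun ω => Q ω t) (hP : Pred Q) {w : ℤ}
    (hw : 0 ≤ w) (t : ℤ) : MeasurePreserving (fun x : Env × Env => rowT w t (Q x.1 t) x)
      ((law μ).prod (law μ)) ((law μ).prod (law μ)) := by
  refine mp_switch (k := fun x : Env × Env => Q x.1 t) (T := fun j => rowT w t j)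
    ((hQ t).comp measurable_fst) (fun j => mp_re (sg_inj hw t j)) fun j x => ?_
  exact hP t _ _ fun p hp => (rowT_ne (by omega)).1

/-- The change of the rows `N, N - 1, ..., N - m + 1`. -/
private def rows (Q : Env → ℤ → ℤ) (w N : ℤ) : ℕ → Env × Env → Env × Env
  | 0, x => x
  | m + 1, x => rowT w (N - m) (Q (rows Q w N m x).1 (N - m)) (rows Q w N m x)

private lemma mp_rows {Q : Env → ℤ → ℤ} (hQ : ∀ t, Measurable fun ω => Q ω t) (hP : Pred Q) {w : ℤ}
    (hw : 0 ≤ w) (N : ℤ) (m : ℕ) : MeasurePreserving (rows Q w N m)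
      ((law μ).prod (law μ)) ((law μ).prod (law μ)) := by
  induction m with
  | zero => exact MeasurePreserving.id _
  | succ m ih => exact (mp_row hQ hP hw (N - m)).comp ih

private lemma rows_spec {Q : Env → ℤ → ℤ} (hP : Pred Q) {w N : ℤ} (m : ℕ) (x : Env × Env) :
    (∀ p : Pt, p.1 ≤ N - m → (rows Q w N m x).1 p = x.1 p ∧ (rows Q w N m x).2 p = x.2 p) ∧
      ∀ p : Pt, N - m < p.1 → p.1 ≤ N → (rows Q w N m x).1 p = insZ (Q x.1) w x.1 x.2 p := by
  induction m with
  | zero => exact ⟨fun p _ => ⟨rfl, rfl⟩, fun p h1 h2 => absurd h1 (by push_cast; omega)⟩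
  | succ m ih =>
    obtain ⟨ih1, ih2⟩ := ih
    have hq : Q (rows Q w N m x).1 (N - m) = Q x.1 (N - m) :=
      hP _ _ _ fun p hp => (ih1 p hp.le).1
    refine ⟨fun p hp => ?_, fun p h1 h2 => ?_⟩
    · push_cast at hp
      have h := rowT_ne (w := w) (t := N - m) (j := Q (rows Q w N m x).1 (N - m))
        (x := rows Q w N m x) (p := p) (by omega)
      have h' := ih1 p (by omega)
      exact ⟨h.1.trans h'.1, h.2.trans h'.2⟩
    · push_cast at h1
      by_cases hp : p.1 = N - m
      · show (rowT w (N - m) (Q (rows Q w N m x).1 (N - m)) (rows Q w N m x)).1 p = _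
        rw [hq, rowT_eq hp]
        have e1 : ∀ y : ℤ, (rows Q w N m x).1 (p.1, y) = x.1 (p.1, y) := fun y =>
          (ih1 (p.1, y) hp.le).1
        have e2 : ∀ y : ℤ, (rows Q w N m x).2 (p.1, y) = x.2 (p.1, y) := fun y =>
          (ih1 (p.1, y) hp.le).2
        simp only [insZ, e1, e2]
      · have h := rowT_ne (w := w) (t := N - m) (j := Q (rows Q w N m x).1 (N - m))
          (x := rows Q w N m x) (p := p) hp
        exact h.1.trans (ih2 p (by omega) h2)

private lemma mp_insZ {Q : Env → ℤ → ℤ} (hQ : ∀ t, Measurable fun ω => Q ω t) (hP : Pred Q) {w : ℤ}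
    (hw : 0 ≤ w) : MeasurePreserving (fun x : Env × Env => insZ (Q x.1) w x.1 x.2)
      ((law μ).prod (law μ)) (law μ) := by
  have hm : Measurable (fun x : Env × Env => insZ (Q x.1) w x.1 x.2) :=
    measurable_insZ (Q := fun x : Env × Env => Q x.1) (fun t => (hQ t).comp measurable_fst) w
      measurable_fst measurable_snd
  refine ⟨hm, ?_⟩
  have hl : law μ = Measure.infinitePi fun _ : Pt => μ := rfl
  conv_rhs => rw [hl]
  refine Measure.eq_infinitePi (μ := fun _ : Pt => μ) ?_
  intro s t ht
  have hpi : MeasurableSet (Set.pi (s : Set Pt) t) :=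
    MeasurableSet.pi s.countable_toSet fun i _ => ht i
  rw [Measure.map_apply hm hpi]
  obtain ⟨b, hb⟩ : ∃ b : ℕ, ∀ p ∈ s, |p.1| ≤ (b : ℤ) := by
    refine ⟨(s.sup fun p => p.1.natAbs), fun p hp => ?_⟩
    have := Finset.le_sup (f := fun p : Pt => p.1.natAbs) hp
    rw [Int.abs_eq_natAbs]
    exact_mod_cast this
  have hsp := fun x => rows_spec hP (w := w) (N := b) (2 * b + 1) x
  have e1 : (fun x : Env × Env => insZ (Q x.1) w x.1 x.2) ⁻¹' (Set.pi (s : Set Pt) t) =
      (fun x : Env × Env => (rows Q w b (2 * b + 1) x).1) ⁻¹' (Set.pi (s : Set Pt) t) := by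
    ext x
    simp only [Set.mem_preimage, Set.mem_pi, Finset.mem_coe]
    refine forall₂_congr fun p hp => ?_
    have h := abs_le.1 (hb p hp)
    rw [(hsp x).2 p (by push_cast; omega) h.2]
  have hf : MeasurePreserving (fun x : Env × Env => (rows Q w b (2 * b + 1) x).1)
      ((law μ).prod (law μ)) (law μ) :=
    (measurePreserving_fst (μ := law μ) (ν := law μ)).comp (mp_rows hQ hP hw b (2 * b + 1))
  rw [e1, hf.measure_preimage hpi.nullMeasurableSet, hl, Measure.infinitePi_pi _ fun i _ => ht i]

private lemma ins_eq (q : ℕ → ℤ) (w : ℕ) (ω ξ : Env) :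
    ins q w ω ξ = insZ (fun t => q t.toNat) w ω ξ := rfl

/-- The environment with the strip is a measurable function (of whatever parameters). -/
theorem measurable_ins {T : Type*} [MeasurableSpace T] {q : T → ℕ → ℤ}
    (hq : ∀ i, Measurable fun x => q x i) (w : ℕ) {f g : T → Env} (hf : Measurable f)
    (hg : Measurable g) : Measurable fun x => ins (q x) w (f x) (g x) :=
  measurable_insZ (Q := fun x t => q x t.toNat) (fun t => hq t.toNat) w hf hg

/-- **THE LAW**: the environment with a fresh strip along a predictable curve has the law of the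
environment. -/
theorem mp_ins {q : Env → ℕ → ℤ} (hq : ∀ i, Measurable fun ω => q ω i)
    (hP : ∀ (i : ℕ) (ω ω' : Env), (∀ p : Pt, 1 ≤ p.1 → p.1 < i → ω p = ω' p) → q ω i = q ω' i)
    (w : ℕ) : MeasurePreserving (fun x : Env × Env => ins (q x.1) w x.1 x.2)
      ((law μ).prod (law μ)) (law μ) := by
  refine mp_insZ (Q := fun ω t => q ω t.toNat) (fun t => hq t.toNat) (fun t ω ω' h => ?_)
    (by positivity : (0 : ℤ) ≤ w)
  refine hP t.toNat ω ω' fun p h1 h2 => h p ?_
  omega

private lemma meas_K (R : Set Pt) (z : ℤ) : ∀ (i : ℕ) (y : ℤ), Measurable fun η : Env => K R η z i y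
  | 0, y => by
    simp only [K_zero]
    exact measurable_const
  | i + 1, y => by
    simp only [K_succ]
    refine Measurable.mul ?_ ((meas_K R z i y).add (meas_K R z i (y - 1)))
    by_cases h : (((i : ℤ) + 1, y) : Pt) ∈ R
    · simp only [Set.indicator_of_mem h]
      exact Real.measurable_exp.comp (measurable_pi_apply _)
    · simp only [Set.indicator_of_notMem h]
      exact measurable_const

private lemma meas_seam (b : ℝ) (x : ℤ) : ∀ i : ℕ, Measurable fun η : Env => seam η b x i
  | 0 => measurable_const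
  | i + 1 => by
    have h1 : Measurable fun w : ℤ × Env => (if K Set.univ w.2 x i w.1 + K Set.univ w.2 x i (w.1 - 1) <
        Real.exp b * (K Set.univ w.2 0 i w.1 + K Set.univ w.2 0 i (w.1 - 1))
        then w.1 + 1 else w.1) := by
      refine measurable_from_prod_countable_right fun j => ?_
      show Measurable fun η : Env => (if K Set.univ η x i j + K Set.univ η x i (j - 1) <
        Real.exp b * (K Set.univ η 0 i j + K Set.univ η 0 i (j - 1)) then j + 1 else j)
      exact Measurable.ite (measurableSet_lt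
        ((meas_K Set.univ x i j).add (meas_K Set.univ x i (j - 1)))
        (((meas_K Set.univ 0 i j).add (meas_K Set.univ 0 i (j - 1))).const_mul _))
        measurable_const measurable_const
    exact h1.comp ((meas_seam b x i).prodMk measurable_id)

/-- **The law of the environment with a fresh strip along the seam** (for every level `b`). -/
theorem mp_ins_seam (b : ℝ) (x : ℤ) (w : ℕ) :
    MeasurePreserving (fun v : Env × Env => ins (seam v.1 b x) w v.1 v.2)
      ((law μ).prod (law μ)) (law μ) :=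
  mp_ins (meas_seam b x) (fun i _ _ h => seam_congr b x i h) w

end

end Pool.Agent.W_7d29a1_LB
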