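import Pool.Agent.W_7d29a1_LB.Step
import Pool.Agent.W_7d29a1_LB.End86
import Pool.Agent.W_7d29a1_LB.Cons29
import Pool.Agent.W_7d29a1_UB.Fin92

/-!
STORM LB, closed: `w_n ≤ n ^ ε Var` at every tilt, without hypotheses, and the exponents (statement (A)). (helper29)
-/

set_option autoImplicit false

namespace Pool.Agent.W_7d29a1_LB

open MeasureTheory ProbabilityTheory Filter Topology
open Pool.Agent.W_7d29a1_F Pool.Agent.W_7d29a1_H Pool.Agent.W_7d29a1_HS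
open Pool.Agent.W_7d29a1_HZ (wd')
open Pool.Agent.W_7d29a1_h47 (EM Nondeg)

/-- The step in the form of `end_of`. -/
theorem step_end29 {μ : Measure ℝ} [IsProbabilityMeasure μ] {s c C : ℝ} {n₀ : ℕ} (h : In μ s c C n₀) {ε : ℝ} (hε : 0 < ε) :
    ∃ N₀ : ℕ, ∀ n : ℕ, N₀ ≤ n → ∃ w x0 : ℕ, 1 ≤ w ∧ (w : ℝ) ≤ (n : ℝ) ^ ε ∧
      (x0 : ℝ) ≤ (n : ℝ) ^ ε ∧ ∀ x : ℕ, x0 ≤ x → ((x + w : ℕ) : ℝ) ≤ (n : ℝ) ^ (-ε) * wd μ s n →
        Vx μ s n x + 1 ≤ Vx μ s n ((x + w : ℕ) : ℤ) := by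
  obtain ⟨δ, hδ⟩ : ∃ δ : ℝ, δ = min (ε / 4) (1 / 10) := ⟨_, rfl⟩
  have hδ0 : 0 < δ := by rw [hδ]; positivity
  have hδ1 : δ ≤ 1 / 10 := by rw [hδ]; exact min_le_right _ _
  have hδ2 : δ ≤ ε / 4 := by rw [hδ]; exact min_le_left _ _
  obtain ⟨n₁, h1⟩ := step h hδ0 hδ1
  obtain ⟨N₃, h3⟩ := eventually_atTop.1
    ((((tendsto_rpow_atTop (show 0 < ε / 4 by positivity)).comp tendsto_natCast_atTop_atTop).eventually_ge_atTop
      (2 : ℝ)).and (eventually_ge_atTop 1))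
  refine ⟨max n₁ N₃, fun n hn => ?_⟩
  obtain ⟨w, hw1, hw2, hw3⟩ := h1 n ((le_max_left _ _).trans hn)
  obtain ⟨h4, h5⟩ := h3 n ((le_max_right _ _).trans hn)
  have h4' : (2 : ℝ) ≤ (n : ℝ) ^ (ε / 4) := h4
  have hn1 : (1 : ℝ) ≤ n := by exact_mod_cast h5
  have hn0 : (0 : ℝ) < n := by linarith
  have hp1 : (1 : ℝ) ≤ (n : ℝ) ^ (3 * δ) := Real.one_le_rpow hn1 (by positivity)
  refine ⟨w, ⌈(n : ℝ) ^ (3 * δ)⌉₊, hw1, hw2.trans (Real.rpow_le_rpow_of_exponent_le hn1 (by linarith)), ?_, fun x hx hxw => ?_⟩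
  · have h6 := Nat.ceil_lt_add_one (show (0 : ℝ) ≤ (n : ℝ) ^ (3 * δ) by linarith)
    calc ((⌈(n : ℝ) ^ (3 * δ)⌉₊ : ℕ) : ℝ) ≤ 2 * (n : ℝ) ^ (3 * δ) := by linarith
      _ ≤ (n : ℝ) ^ (ε / 4) * (n : ℝ) ^ (3 * δ) := mul_le_mul_of_nonneg_right h4' (by linarith)
      _ = (n : ℝ) ^ (ε / 4 + 3 * δ) := by rw [← Real.rpow_add hn0]
      _ ≤ (n : ℝ) ^ ε := Real.rpow_le_rpow_of_exponent_le hn1 (by linarith)
  · have h7 : (n : ℝ) ^ (3 * δ) ≤ x := (Nat.le_ceil _).trans (by exact_mod_cast hx)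
    refine hw3 x h7 (hxw.trans ?_)
    have h8 : wd μ s n ≤ wd' μ s n := le_max_right _ _
    have h9 : (0 : ℝ) ≤ wd' μ s n := zero_le_one.trans (le_max_left _ _)
    calc (n : ℝ) ^ (-ε) * wd μ s n ≤ (n : ℝ) ^ (-ε) * wd' μ s n := mul_le_mul_of_nonneg_left h8 (Real.rpow_nonneg hn0.le _)
      _ ≤ (n : ℝ) ^ (-δ) * wd' μ s n :=
        mul_le_mul_of_nonneg_right (Real.rpow_le_rpow_of_exponent_le hn1 (by linarith)) h9

/-- **STORM LB at every tilt, no hypotheses.** -/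
theorem lb_all {μ : Measure ℝ} [IsProbabilityMeasure μ] (hE : EM μ) (hN : Nondeg μ) (s : ℝ) : LB20 μ s := by
  obtain ⟨c, C, n₀, h⟩ := in_tilt hE hN s
  intro ε hε
  obtain ⟨n₁, h1⟩ := end_EE h (end_of h fun _ he => step_end29 h he) ε hε
  refine ⟨max n₁ 1, fun n hn => ?_⟩
  have h2 := h1 n ((le_max_left _ _).trans hn)
  have hn0 : (0 : ℝ) < n := by exact_mod_cast ((le_max_right _ _).trans hn : 1 ≤ n)
  rwa [Real.rpow_neg hn0.le, inv_mul_le_iff₀ (Real.rpow_pos_of_pos hn0 _)] at h2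

/-- **STORM UB at every tilt**, in the form of `Cons29`. -/
theorem ub_all29 {μ : Measure ℝ} [IsProbabilityMeasure μ] (hE : EM μ) (hN : Nondeg μ) (s : ℝ) : UB20 μ s :=
  Pool.Agent.W_7d29a1_UB.ub_all hE hN s

end Pool.Agent.W_7d29a1_LB
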