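import Pool.Agent.W_7d29a1_HZ.NS

/-!
STORM LB / UB (MP_7d29a1_pr, rows 671, 674): the absence of steep places for free ends (definition; moved out of `LB/Meet` to shorten
the build path). (helper82)
-/

set_option autoImplicit false

namespace Pool.Agent.W_7d29a1_LB

open Finset MeasureTheory ProbabilityTheory
open Pool.Agent.W_7d29a1_F Pool.Agent.W_7d29a1_X
open Pool.Agent.W_7d29a1_HZ (NSp)

/-- No steep places, free ends. -/
def NSFr (μ : Measure ℝ) (s : ℝ) : Prop := ∀ ε : ℝ, 0 < ε → ∃ c' : ℝ, 0 < c' ∧ ∃ N₀ : ℕ, ∀ N : ℕ, N₀ ≤ N →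
  ∫ η, ∑ S ∈ (range N).powerset, GS μ s η N S * (haveI := Classical.dec (NSp μ s N N ε S); if NSp μ s N N ε S then 0 else 1) ∂(law μ) ≤
    Real.exp (-(N : ℝ) ^ c')

end Pool.Agent.W_7d29a1_LB
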