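import Pool.Agent.W_7d29a1_LB.Free82
import Pool.Agent.W_7d29a1_HZ.Z96_ScaleZ
import Pool.Agent.W_7d29a1_LB.NSDef

/-!
STORM LB (MP_7d29a1_pr, row 671), section 7: MEET. Two polymers with free ends (horizon `n`) in the same environment, started at the
distance `x ≤ n ^ (-ε) wd n`, meet in `[0, n / 2]`, up to the probability `n ^ (-ε / 2)`. (helper82)
-/

set_option autoImplicit false

namespace Pool.Agent.W_7d29a1_LB

open Finset MeasureTheory ProbabilityTheory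
open Pool.Agent.W_7d29a1_F Pool.Agent.W_7d29a1_X
open Pool.Agent.W_7d29a1_H (sl)
open Pool.Agent.W_7d29a1_HS (In wd)
open Pool.Agent.W_7d29a1_HZ (NSp wd')

noncomputable section

/-- Between the points of a grid of the mesh `m` the distance varies by at most `2 e`. -/
theorem grid_le {x : ℤ} {n n' m : ℕ} (hm : 1 ≤ m) (hn : n' ≤ n) {S S' : Finset ℕ} {σ e d : ℝ} (he : 0 ≤ e)
    (hS : ∀ i r : ℕ, 1 ≤ r → r ≤ m → i + r ≤ n → |((pos S (i + r) - pos S i : ℤ) : ℝ) - σ * r| ≤ e)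
    (hS' : ∀ i r : ℕ, 1 ≤ r → r ≤ m → i + r ≤ n → |((pos S' (i + r) - pos S' i : ℤ) : ℝ) - σ * r| ≤ e)
    (hd : ∀ j ≤ n' / m, (dst x S S' (j * m) : ℝ) < d) {i : ℕ} (hi : i ≤ n') : (dst x S S' i : ℝ) ≤ d + 2 * e := by
  obtain ⟨j, hj⟩ : ∃ j : ℕ, j = i / m := ⟨_, rfl⟩
  obtain ⟨r, hr⟩ : ∃ r : ℕ, r = i % m := ⟨_, rfl⟩
  have h1 : i = j * m + r := by
    rw [hj, hr, mul_comm]
    exact (Nat.div_add_mod i m).symm
  have h2 : r < m := by rw [hr]; exact Nat.mod_lt _ hm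
  have h3 : j ≤ n' / m := by rw [hj]; exact Nat.div_le_div_right hi
  have h4 := hd j h3
  rcases Nat.eq_zero_or_pos r with h0 | h0
  · rw [h1, h0, Nat.add_zero]
    linarith
  · have h5 := abs_le.1 (hS (j * m) r h0 h2.le (by omega))
    have h6 := abs_le.1 (hS' (j * m) r h0 h2.le (by omega))
    rw [h1]
    unfold dst at h4 ⊢
    push_cast at h4 h5 h6 ⊢
    linarith [h5.1, h6.2]

variable {μ : Measure ℝ} {s : ℝ} [IsProbabilityMeasure μ] {c C : ℝ} {n₀ : ℕ}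

open Classical in
/-- **MEET**, from the absence of steep places. -/
theorem meet_of (h : In μ s c C n₀) (hNS : NSFr μ s) {ε : ℝ} (hε : 0 < ε) (hε1 : ε ≤ 1) : ∃ N₀ : ℕ, ∀ n : ℕ, N₀ ≤ n →
    ∀ x : ℕ, 1 ≤ x → (x : ℝ) ≤ (n : ℝ) ^ (-ε) * wd μ s n →
    E2 μ s x n (fun S S' => if met x (n / 2) (S, S') then 0 else 1) ≤ (n : ℝ) ^ (-(ε / 2)) := by
  obtain ⟨a, K, ha, ha1, hK, hwd⟩ := Pool.Agent.W_7d29a1_HZ.Z96.wd_all96 h
  obtain ⟨n₁, hwn⟩ := Pool.Agent.W_7d29a1_HZ.Z96.wd_eq96 h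
  obtain ⟨ε₅, hε₅⟩ : ∃ ε₅ : ℝ, ε₅ = ε / 8 := ⟨_, rfl⟩
  obtain ⟨ε', hε'⟩ : ∃ ε' : ℝ, ε' = a * ε₅ / 2 := ⟨_, rfl⟩
  have hε₅0 : 0 < ε₅ := by rw [hε₅]; positivity
  have hε'0 : 0 < ε' := by rw [hε']; positivity
  have haε : a * ε₅ ≤ ε₅ := by nlinarith
  obtain ⟨ε₁, c₂, hε₁, hc₂, N₁, hfr⟩ := fresh_free h (ε := ε' / 2) (by positivity) (by rw [hε']; nlinarith)
  obtain ⟨ε₆, hε₆⟩ : ∃ ε₆ : ℝ, ε₆ = min (a * ε₅ / 4) (ε₁ / 2) := ⟨_, rfl⟩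
  have hε₆0 : 0 < ε₆ := by rw [hε₆]; exact lt_min (by positivity) (by positivity)
  have hε₆a : ε₆ ≤ a * ε₅ / 4 := by rw [hε₆]; exact min_le_left _ _
  have hε₆b : ε₆ ≤ ε₁ / 2 := by rw [hε₆]; exact min_le_right _ _
  obtain ⟨c', hc', N₂, hns⟩ := hNS ε₆ hε₆0
  have hev : ∀ (e : ℝ), 0 < e → ∀ B : ℝ, ∀ᶠ n : ℕ in Filter.atTop, B ≤ (n : ℝ) ^ e := fun e he B =>
    ((tendsto_rpow_atTop he).comp tendsto_natCast_atTop_atTop).eventually_ge_atTop B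
  have hexp : ∀ (e : ℝ), 0 < e → ∀ᶠ n : ℕ in Filter.atTop, Real.exp (-(n : ℝ) ^ e) ≤ (n : ℝ) ^ (-(ε / 2)) / 6 := by
    intro e he
    have t1 := tendsto_natCast_atTop_atTop (R := ℝ)
    have h1 : Filter.Tendsto (fun n : ℕ => Real.exp ((n : ℝ) ^ e) / ((n : ℝ) ^ e) ^ ((ε / 2) / e)) Filter.atTop Filter.atTop :=
      (tendsto_exp_div_rpow_atTop ((ε / 2) / e)).comp ((tendsto_rpow_atTop he).comp t1)
    filter_upwards [h1.eventually_ge_atTop 6, Filter.eventually_ge_atTop 1] with n hn hn1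
    have hn0 : (0 : ℝ) < n := by exact_mod_cast hn1
    have e1 : ((n : ℝ) ^ e) ^ ((ε / 2) / e) = (n : ℝ) ^ (ε / 2) := by
      rw [← Real.rpow_mul hn0.le]
      congr 1
      field_simp
    have hp : 0 < (n : ℝ) ^ (ε / 2) := by positivity
    rw [e1, le_div_iff₀ hp] at hn
    rw [Real.exp_neg, Real.rpow_neg hn0.le, inv_eq_one_div, inv_eq_one_div, div_div, div_le_div_iff₀ (Real.exp_pos _) (by positivity)]
    linarith
  have hall := ((hev (a * ε₅ / 4) (by positivity) (2 * K ^ 2)).and ((hev (ε' / 2) (by positivity) (6 * K)).and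
    ((hev (ε₁ / 2) (by positivity) K).and ((hev (ε / 4) (by positivity) 6).and ((hev (1 - ε₅) (by rw [hε₅]; linarith) 2).and
    ((hexp c' hc').and ((hexp c₂ hc₂).and (Filter.eventually_ge_atTop (max (max N₁ N₂) (max (2 * n₁) 4))))))))))
  obtain ⟨N₀, hN₀⟩ := Filter.eventually_atTop.1 hall
  refine ⟨N₀, fun n hn x hx1 hx => ?_⟩
  obtain ⟨g1, g2, g3, g4, g5, g6, g7, g8⟩ := hN₀ n hn
  have hnN₁ : N₁ ≤ n := (le_max_left _ _).trans ((le_max_left _ _).trans g8)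
  have hnN₂ : N₂ ≤ n := (le_max_right _ _).trans ((le_max_left _ _).trans g8)
  have hn2n : 2 * n₁ ≤ n := (le_max_left _ _).trans ((le_max_right _ _).trans g8)
  have hn4 : 4 ≤ n := (le_max_right _ _).trans ((le_max_right _ _).trans g8)
  have hnR : (4 : ℝ) ≤ n := by exact_mod_cast hn4
  have hn0 : (0 : ℝ) < n := by linarith
  have hn1 : (1 : ℝ) ≤ n := by linarith
  obtain ⟨w1, -, -⟩ := hwn n (by omega)
  obtain ⟨w2, -, -⟩ := hwn (n / 2) (by omega)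
  have hw1 : 1 ≤ wd μ s n := by rw [← w1]; exact le_max_left _ _
  have hw2 : 1 ≤ wd μ s (n / 2) := by rw [← w2]; exact le_max_left _ _
  obtain ⟨n', hn'1, hn'2, hF⟩ := hfr n hnN₁
  -- the grid
  obtain ⟨m, hm⟩ : ∃ m : ℕ, m = ⌊(n : ℝ) ^ (1 - ε₅)⌋₊ := ⟨_, rfl⟩
  have hm1 : (m : ℝ) ≤ (n : ℝ) ^ (1 - ε₅) := by rw [hm]; exact Nat.floor_le (by positivity)
  have hm2 : (n : ℝ) ^ (1 - ε₅) ≤ 2 * m := by
    have h1 := Nat.lt_floor_add_one ((n : ℝ) ^ (1 - ε₅))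
    rw [← hm] at h1
    have h2 : (1 : ℝ) ≤ m := by
      have : (1 : ℝ) < m + 1 := by linarith
      have h3 : 0 < m := by
        by_contra h4
        have h5 : m = 0 := by omega
        rw [h5] at this
        norm_num at this
      exact_mod_cast h3
    linarith
  have hm0 : 1 ≤ m := by
    by_contra h4
    have h5 : m = 0 := by omega
    rw [h5] at hm2
    have : (0 : ℝ) < (n : ℝ) ^ (1 - ε₅) := by positivity
    norm_num at hm2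
    linarith
  have hmR : (0 : ℝ) < m := by exact_mod_cast hm0
  have hmn : m ≤ n := by
    have h1 : (m : ℝ) ≤ n := by
      refine hm1.trans ?_
      calc (n : ℝ) ^ (1 - ε₅) ≤ (n : ℝ) ^ (1 : ℝ) := Real.rpow_le_rpow_of_exponent_le hn1 (by linarith)
        _ = n := Real.rpow_one _
    exact_mod_cast h1
  have e5 : (n : ℝ) ^ (1 - ε₅) * (n : ℝ) ^ ε₅ = n := by
    rw [← Real.rpow_add hn0]
    have : 1 - ε₅ + ε₅ = 1 := by ring
    rw [this, Real.rpow_one]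
  -- the distance
  obtain ⟨d, hd⟩ : ∃ d : ℝ, d = (n : ℝ) ^ (-ε') * wd μ s n := ⟨_, rfl⟩
  have hd0 : 0 < d := by rw [hd]; positivity
  obtain ⟨e, he⟩ : ∃ e : ℝ, e = (n : ℝ) ^ ε₆ * (K * wd' μ s m) := ⟨_, rfl⟩
  have hwm : 1 ≤ wd' μ s m := le_max_left _ _
  have hwm0 : 0 < wd' μ s m := lt_of_lt_of_le one_pos hwm
  have he0 : 0 ≤ e := by rw [he]; positivity
  -- `2 e ≤ d`
  have h2e : 2 * e ≤ d := by
    have h1 := (hwd m n hm0 hmn).2.1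
    rw [w1] at h1
    have h2 : (n : ℝ) ^ ε₅ ≤ (n : ℝ) / m := by
      rw [le_div_iff₀ hmR]
      calc (n : ℝ) ^ ε₅ * m ≤ (n : ℝ) ^ ε₅ * (n : ℝ) ^ (1 - ε₅) := mul_le_mul_of_nonneg_left hm1 (by positivity)
        _ = n := by rw [mul_comm]; exact e5
    have h3 : (n : ℝ) ^ (a * ε₅) ≤ ((n : ℝ) / m) ^ a := by
      calc (n : ℝ) ^ (a * ε₅) = ((n : ℝ) ^ ε₅) ^ a := by rw [← Real.rpow_mul hn0.le, mul_comm]
        _ ≤ ((n : ℝ) / m) ^ a := Real.rpow_le_rpow (by positivity) h2 ha.le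
    have h4 : (n : ℝ) ^ (a * ε₅) * wd' μ s m ≤ K * wd μ s n := by
      have h5 : K⁻¹ * ((n : ℝ) ^ (a * ε₅) * wd' μ s m) ≤ wd μ s n := by
        refine le_trans ?_ h1
        rw [← mul_assoc]
        exact mul_le_mul_of_nonneg_right (mul_le_mul_of_nonneg_left h3 (by positivity)) hwm0.le
      rw [inv_mul_le_iff₀ (by linarith)] at h5
      exact h5
    have e1 : (n : ℝ) ^ (a * ε₅) = (n : ℝ) ^ (a * ε₅ / 4) * ((n : ℝ) ^ (a * ε₅ / 4) * (n : ℝ) ^ ε') := by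
      rw [← Real.rpow_add hn0, ← Real.rpow_add hn0]
      congr 1
      rw [hε']
      ring
    have e2 : (n : ℝ) ^ ε₆ ≤ (n : ℝ) ^ (a * ε₅ / 4) := Real.rpow_le_rpow_of_exponent_le hn1 hε₆a
    have p1 : 0 < (n : ℝ) ^ (a * ε₅ / 4) := by positivity
    have p2 : 0 < (n : ℝ) ^ ε' := by positivity
    have h6 : 2 * K * ((n : ℝ) ^ (a * ε₅ / 4) * (n : ℝ) ^ ε' * wd' μ s m) ≤ wd μ s n := by
      -- `2 K ^ 2 n ^ (a ε₅ / 4) n ^ ε' wd' m ≤ n ^ (a ε₅) wd' m ≤ K wd n`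
      have h7 : 2 * K ^ 2 * ((n : ℝ) ^ (a * ε₅ / 4) * (n : ℝ) ^ ε' * wd' μ s m) ≤ K * wd μ s n := by
        refine le_trans ?_ h4
        rw [e1]
        have h8 := mul_le_mul_of_nonneg_right g1 (show 0 ≤ (n : ℝ) ^ (a * ε₅ / 4) * (n : ℝ) ^ ε' * wd' μ s m by positivity)
        calc 2 * K ^ 2 * ((n : ℝ) ^ (a * ε₅ / 4) * (n : ℝ) ^ ε' * wd' μ s m) ≤
            (n : ℝ) ^ (a * ε₅ / 4) * ((n : ℝ) ^ (a * ε₅ / 4) * (n : ℝ) ^ ε' * wd' μ s m) := h8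
          _ = (n : ℝ) ^ (a * ε₅ / 4) * ((n : ℝ) ^ (a * ε₅ / 4) * (n : ℝ) ^ ε') * wd' μ s m := by ring
      have hK0 : 0 < K := by linarith
      refine le_of_mul_le_mul_left ?_ hK0
      calc K * (2 * K * ((n : ℝ) ^ (a * ε₅ / 4) * (n : ℝ) ^ ε' * wd' μ s m)) =
          2 * K ^ 2 * ((n : ℝ) ^ (a * ε₅ / 4) * (n : ℝ) ^ ε' * wd' μ s m) := by ring
        _ ≤ K * wd μ s n := h7
    rw [hd, he, Real.rpow_neg hn0.le, inv_mul_eq_div, le_div_iff₀ p2]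
    refine le_trans ?_ h6
    have h9 : (n : ℝ) ^ ε₆ * (K * wd' μ s m * (n : ℝ) ^ ε') ≤ (n : ℝ) ^ (a * ε₅ / 4) * (K * wd' μ s m * (n : ℝ) ^ ε') :=
      mul_le_mul_of_nonneg_right e2 (by positivity)
    calc 2 * ((n : ℝ) ^ ε₆ * (K * wd' μ s m)) * (n : ℝ) ^ ε' = 2 * ((n : ℝ) ^ ε₆ * (K * wd' μ s m * (n : ℝ) ^ ε')) := by ring
      _ ≤ 2 * ((n : ℝ) ^ (a * ε₅ / 4) * (K * wd' μ s m * (n : ℝ) ^ ε')) := by linarith
      _ = 2 * K * ((n : ℝ) ^ (a * ε₅ / 4) * (n : ℝ) ^ ε' * wd' μ s m) := by ring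
  -- `2 d ≤ n ^ (-(ε' / 2)) wd (n / 2)`
  have hn2R : ((n / 2 : ℕ) : ℝ) * 3 ≥ n := by
    have h1 : n ≤ 3 * (n / 2) := by omega
    have h2 : (n : ℝ) ≤ 3 * ((n / 2 : ℕ) : ℝ) := by exact_mod_cast h1
    linarith
  have hn20 : (0 : ℝ) < ((n / 2 : ℕ) : ℝ) := by linarith
  have hw3 : wd μ s n ≤ 3 * K * wd μ s (n / 2) := by
    have h1 := (hwd (n / 2) n (by omega) (by omega)).2.2
    rw [w1, w2] at h1
    refine h1.trans ?_
    have h2 : ((n : ℝ) / ((n / 2 : ℕ) : ℝ)) ^ (1 - a) ≤ 3 := by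
      have h3 : (n : ℝ) / ((n / 2 : ℕ) : ℝ) ≤ 3 := by
        rw [div_le_iff₀ hn20]
        linarith
      calc ((n : ℝ) / ((n / 2 : ℕ) : ℝ)) ^ (1 - a) ≤ (3 : ℝ) ^ (1 - a) := Real.rpow_le_rpow (by positivity) h3 (by linarith)
        _ ≤ (3 : ℝ) ^ (1 : ℝ) := Real.rpow_le_rpow_of_exponent_le (by norm_num) (by linarith)
        _ = 3 := Real.rpow_one _
    calc K * ((n : ℝ) / ((n / 2 : ℕ) : ℝ)) ^ (1 - a) * wd μ s (n / 2) ≤ K * 3 * wd μ s (n / 2) :=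
          mul_le_mul_of_nonneg_right (mul_le_mul_of_nonneg_left h2 (by linarith)) (by linarith)
      _ = 3 * K * wd μ s (n / 2) := by ring
  have h2d : 2 * d ≤ (n : ℝ) ^ (-(ε' / 2)) * wd μ s (n / 2) := by
    have p2 : 0 < (n : ℝ) ^ (-ε') := by positivity
    have e1 : (n : ℝ) ^ (-(ε' / 2)) = (n : ℝ) ^ (ε' / 2) * (n : ℝ) ^ (-ε') := by
      rw [← Real.rpow_add hn0]
      congr 1
      ring
    rw [hd, e1]
    have h1 := mul_le_mul_of_nonneg_left hw3 (show 0 ≤ 2 * (n : ℝ) ^ (-ε') by positivity)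
    have h2 := mul_le_mul_of_nonneg_right g2 (show 0 ≤ (n : ℝ) ^ (-ε') * wd μ s (n / 2) by positivity)
    calc 2 * ((n : ℝ) ^ (-ε') * wd μ s n) = 2 * (n : ℝ) ^ (-ε') * wd μ s n := by ring
      _ ≤ 2 * (n : ℝ) ^ (-ε') * (3 * K * wd μ s (n / 2)) := h1
      _ = 6 * K * ((n : ℝ) ^ (-ε') * wd μ s (n / 2)) := by ring
      _ ≤ (n : ℝ) ^ (ε' / 2) * ((n : ℝ) ^ (-ε') * wd μ s (n / 2)) := h2
      _ = (n : ℝ) ^ (ε' / 2) * (n : ℝ) ^ (-ε') * wd μ s (n / 2) := by ring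
  obtain ⟨ρ, hρ⟩ : ∃ ρ : ℕ, ρ = ⌊(n : ℝ) ^ (-(ε' / 2)) * wd μ s (n / 2)⌋₊ := ⟨_, rfl⟩
  have hρ1 : (ρ : ℝ) ≤ (n : ℝ) ^ (-(ε' / 2)) * wd μ s (n / 2) := by rw [hρ]; exact Nat.floor_le (by positivity)
  have hfresh := hF ρ hρ1 x
  have hn'0 : 1 ≤ n' := by omega
  have hn'n : n' ≤ n := by omega
  -- the cone
  have hcone : (n : ℝ) ^ ε₆ * wd' μ s n' ≤ (n : ℝ) ^ ε₁ * wd μ s (n / 2) := by
    have h1 := (hwd n' (n / 2) hn'0 hn'1).1
    rw [w2] at h1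
    have h1' : wd' μ s n' ≤ K * wd μ s (n / 2) := h1
    have h2 : (n : ℝ) ^ ε₆ ≤ (n : ℝ) ^ (ε₁ / 2) := Real.rpow_le_rpow_of_exponent_le hn1 hε₆b
    have e1 : (n : ℝ) ^ ε₁ = (n : ℝ) ^ (ε₁ / 2) * (n : ℝ) ^ (ε₁ / 2) := by
      rw [← Real.rpow_add hn0]
      congr 1
      ring
    have p1 : 0 < (n : ℝ) ^ (ε₁ / 2) := by positivity
    have hwn' : 0 ≤ wd' μ s n' := zero_le_one.trans (le_max_left _ _)
    calc (n : ℝ) ^ ε₆ * wd' μ s n' ≤ (n : ℝ) ^ (ε₁ / 2) * (K * wd μ s (n / 2)) := mul_le_mul h2 h1' hwn' p1.le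
      _ = (n : ℝ) ^ (ε₁ / 2) * wd μ s (n / 2) * K := by ring
      _ ≤ (n : ℝ) ^ (ε₁ / 2) * wd μ s (n / 2) * (n : ℝ) ^ (ε₁ / 2) := mul_le_mul_of_nonneg_left g3 (by positivity)
      _ = (n : ℝ) ^ ε₁ * wd μ s (n / 2) := by rw [e1]; ring
  -- the union bound
  have hxZ : (1 : ℤ) ≤ (x : ℤ) := by exact_mod_cast hx1
  obtain ⟨F₁, hF₁⟩ : ∃ F₁ : ℕ → Finset ℕ → Finset ℕ → ℝ, F₁ = fun j S S' =>
    if ¬ met x (j * m) (S, S') ∧ d ≤ (dst x S S' (j * m) : ℝ) then 1 else 0 := ⟨_, rfl⟩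
  obtain ⟨F₂, hF₂⟩ : ∃ F₂ : Finset ℕ → ℝ, F₂ = fun S => if NSp μ s n n ε₆ S then 0 else 1 := ⟨_, rfl⟩
  obtain ⟨F₃, hF₃⟩ : ∃ F₃ : Finset ℕ → Finset ℕ → ℝ, F₃ = fun S S' => if (∀ i ≤ n', |dst x S S' i| ≤ ρ) ∧
    (∀ i, 1 ≤ i → i ≤ n' → dst x S S' i ≠ 0) ∧ |(pos S' n' : ℝ) - sl μ s * n'| ≤ (n : ℝ) ^ ε₁ * wd μ s (n / 2) then 1 else 0 := ⟨_, rfl⟩
  have hF₁0 : ∀ j S S', 0 ≤ F₁ j S S' := fun j S S' => by rw [hF₁]; beta_reduce; split_ifs <;> norm_num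
  have hF₂0 : ∀ S, 0 ≤ F₂ S := fun S => by rw [hF₂]; beta_reduce; split_ifs <;> norm_num
  have hF₃0 : ∀ S S', 0 ≤ F₃ S S' := fun S S' => by rw [hF₃]; beta_reduce; split_ifs <;> norm_num
  have hpt : ∀ S ∈ (range n).powerset, ∀ S' ∈ (range n).powerset, (if met x (n / 2) (S, S') then (0 : ℝ) else 1) ≤
      (∑ j ∈ range (n' / m + 1), F₁ j S S') + ((F₂ S + F₂ S') + F₃ S S') := by
    intro S _ S' _
    have s1 : 0 ≤ ∑ j ∈ range (n' / m + 1), F₁ j S S' := sum_nonneg fun j _ => hF₁0 j S S'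
    have s2 := hF₂0 S
    have s3 := hF₂0 S'
    have s4 := hF₃0 S S'
    by_cases hmt : met x (n / 2) (S, S')
    · rw [if_pos hmt]
      linarith
    rw [if_neg hmt]
    have hpos := dst_pos hxZ hmt
    by_cases hS : NSp μ s n n ε₆ S
    swap
    · have : F₂ S = 1 := by rw [hF₂]; exact if_neg hS
      linarith
    by_cases hS' : NSp μ s n n ε₆ S'
    swap
    · have : F₂ S' = 1 := by rw [hF₂]; exact if_neg hS'
      linarith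
    by_cases hgr : ∀ j ≤ n' / m, (dst x S S' (j * m) : ℝ) < d
    swap
    · push Not at hgr
      obtain ⟨j, hj, hjd⟩ := hgr
      have h1 : F₁ j S S' = 1 := by
        rw [hF₁]
        refine if_pos ⟨fun h2 => hmt ?_, hjd⟩
        obtain ⟨i, hi, h0⟩ := h2
        have h3 : j * m ≤ n' := (Nat.mul_le_mul_right m hj).trans (Nat.div_mul_le_self n' m)
        exact ⟨i, hi.trans (h3.trans hn'1), h0⟩
      have h2 : F₁ j S S' ≤ ∑ j ∈ range (n' / m + 1), F₁ j S S' :=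
        single_le_sum (f := fun j => F₁ j S S') (fun j _ => hF₁0 j S S') (mem_range.2 (by omega))
      linarith
    have hinc : ∀ T : Finset ℕ, NSp μ s n n ε₆ T → ∀ i r : ℕ, 1 ≤ r → r ≤ m → i + r ≤ n →
        |((pos T (i + r) - pos T i : ℤ) : ℝ) - sl μ s * r| ≤ e := by
      intro T hT i r hr hrm hir
      refine (hT i r hr hir).trans ?_
      rw [he]
      exact mul_le_mul_of_nonneg_left (hwd r m hr hrm).1 (by positivity)
    have hdist : ∀ i ≤ n', (dst x S S' i : ℝ) ≤ d + 2 * e := fun i hi =>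
      grid_le hm0 hn'n he0 (hinc S hS) (hinc S' hS') hgr hi
    have h1 : F₃ S S' = 1 := by
      rw [hF₃]
      refine if_pos ⟨fun i hi => ?_, fun i _ hi => (hpos i (hi.trans hn'1)).ne', ?_⟩
      · have h2 := hpos i (hi.trans hn'1)
        rw [abs_of_pos h2]
        have h3 := hdist i hi
        have h4 : (dst x S S' i : ℝ) ≤ (n : ℝ) ^ (-(ε' / 2)) * wd μ s (n / 2) := by linarith
        obtain ⟨k, hk⟩ : ∃ k : ℕ, dst x S S' i = k := ⟨(dst x S S' i).toNat, (Int.toNat_of_nonneg h2.le).symm⟩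
        rw [hk] at h4 ⊢
        have h5 : k ≤ ρ := by
          rw [hρ]
          refine Nat.le_floor ?_
          exact_mod_cast h4
        exact_mod_cast h5
      · have h2 := hS' 0 n' hn'0 (by omega)
        rw [Nat.zero_add, pos_zero, sub_zero] at h2
        exact h2.trans hcone
    linarith
  have hE := E2_mono (μ := μ) (s := s) (x := x) hpt
  refine hE.trans ?_
  rw [E2_add x n (fun S S' => ∑ j ∈ range (n' / m + 1), F₁ j S S') (fun S S' => (F₂ S + F₂ S') + F₃ S S'),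
    E2_add x n (fun S S' => F₂ S + F₂ S') F₃, E2_add x n (fun S _ => F₂ S) (fun _ S' => F₂ S'), E2_sum,
    E2_left, E2_right]
  have hnsn := hns n hnN₂
  have hns' : ∫ η, ∑ S ∈ (range n).powerset, GS μ s η n S * F₂ S ∂(law μ) ≤ Real.exp (-(n : ℝ) ^ c') := by
    rw [hF₂]
    convert hnsn
  have hfr' : E2 μ s x n F₃ ≤ Real.exp (-(n : ℝ) ^ c₂) := by
    rw [hF₃]
    exact hfresh
  have hmk : ∑ j ∈ range (n' / m + 1), E2 μ s x n (F₁ j) ≤ (n' / m + 1 : ℕ) * (x / d) := by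
    calc ∑ j ∈ range (n' / m + 1), E2 μ s x n (F₁ j) ≤ ∑ _j ∈ range (n' / m + 1), ((x : ℝ) / d) := by
          refine sum_le_sum fun j hj => ?_
          rw [mem_range] at hj
          have h3 : j * m ≤ n' := (Nat.mul_le_mul_right m (by omega : j ≤ n' / m)).trans (Nat.div_mul_le_self n' m)
          have h4 := markov (μ := μ) (s := s) hxZ (n := n) (t := j * m) (by omega) hd0
          rw [hF₁]
          exact_mod_cast h4
      _ = (n' / m + 1 : ℕ) * (x / d) := by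
          rw [sum_const, card_range, nsmul_eq_mul]
  -- the number of points of the grid
  have hcnt : ((n' / m + 1 : ℕ) : ℝ) ≤ 3 * (n : ℝ) ^ ε₅ := by
    have h1 : ((n' / m : ℕ) : ℝ) ≤ (n : ℝ) / m := by
      rw [le_div_iff₀ hmR]
      have h2 : n' / m * m ≤ n := (Nat.div_mul_le_self n' m).trans hn'n
      exact_mod_cast h2
    have h2 : (n : ℝ) / m ≤ 2 * (n : ℝ) ^ ε₅ := by
      rw [div_le_iff₀ hmR]
      have h3 := mul_le_mul_of_nonneg_right hm2 (show 0 ≤ (n : ℝ) ^ ε₅ by positivity)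
      rw [e5] at h3
      calc (n : ℝ) ≤ 2 * m * (n : ℝ) ^ ε₅ := h3
        _ = 2 * (n : ℝ) ^ ε₅ * m := by ring
    have h3 : (1 : ℝ) ≤ (n : ℝ) ^ ε₅ := Real.one_le_rpow hn1 hε₅0.le
    push_cast
    linarith
  have hxd : (x : ℝ) / d ≤ (n : ℝ) ^ (-ε) * (n : ℝ) ^ ε' := by
    rw [div_le_iff₀ hd0, hd]
    refine hx.trans (le_of_eq ?_)
    have e1 : (n : ℝ) ^ ε' * (n : ℝ) ^ (-ε') = 1 := by
      rw [← Real.rpow_add hn0, add_neg_cancel, Real.rpow_zero]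
    calc (n : ℝ) ^ (-ε) * wd μ s n = (n : ℝ) ^ (-ε) * ((n : ℝ) ^ ε' * (n : ℝ) ^ (-ε')) * wd μ s n := by rw [e1, mul_one]
      _ = (n : ℝ) ^ (-ε) * (n : ℝ) ^ ε' * ((n : ℝ) ^ (-ε') * wd μ s n) := by ring
  have hxd0 : 0 ≤ (x : ℝ) / d := by positivity
  have hfin : ((n' / m + 1 : ℕ) : ℝ) * (x / d) ≤ (n : ℝ) ^ (-(ε / 2)) / 2 := by
    have h1 : ((n' / m + 1 : ℕ) : ℝ) * (x / d) ≤ 3 * (n : ℝ) ^ ε₅ * ((n : ℝ) ^ (-ε) * (n : ℝ) ^ ε') :=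
      mul_le_mul hcnt hxd hxd0 (by positivity)
    refine h1.trans ?_
    have e1 : (n : ℝ) ^ ε₅ * ((n : ℝ) ^ (-ε) * (n : ℝ) ^ ε') ≤ (n : ℝ) ^ (-(ε / 2)) * (n : ℝ) ^ (-(ε / 4)) := by
      rw [← Real.rpow_add hn0, ← Real.rpow_add hn0, ← Real.rpow_add hn0]
      refine Real.rpow_le_rpow_of_exponent_le hn1 ?_
      rw [hε']
      have : a * ε₅ / 2 ≤ ε₅ / 2 := by linarith
      rw [hε₅] at this ⊢
      linarith
    have e2 : (n : ℝ) ^ (-(ε / 4)) ≤ 1 / 6 := by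
      rw [Real.rpow_neg hn0.le, inv_eq_one_div, div_le_div_iff₀ (by positivity) (by norm_num)]
      linarith
    have p1 : 0 < (n : ℝ) ^ (-(ε / 2)) := by positivity
    calc 3 * (n : ℝ) ^ ε₅ * ((n : ℝ) ^ (-ε) * (n : ℝ) ^ ε') = 3 * ((n : ℝ) ^ ε₅ * ((n : ℝ) ^ (-ε) * (n : ℝ) ^ ε')) := by ring
      _ ≤ 3 * ((n : ℝ) ^ (-(ε / 2)) * (n : ℝ) ^ (-(ε / 4))) := by linarith
      _ ≤ 3 * ((n : ℝ) ^ (-(ε / 2)) * (1 / 6)) := by
          have := mul_le_mul_of_nonneg_left e2 p1.le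
          linarith
      _ = (n : ℝ) ^ (-(ε / 2)) / 2 := by ring
  linarith

end

end Pool.Agent.W_7d29a1_LB
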