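import Pool.Agent.W_7d29a1_HX.XT_Node
import Pool.Agent.W_7d29a1_H.MeanA

/-!
STORM LB (MP_7d29a1_pr, row 671), section 7: two independent polymers with free ends in the same environment, started at `0` and at
`(0, x)`. Exchange of the tails after the first meeting; translation; hence the mean of the distance `D_t` on the event that they do not
meet before `t` is exactly `x`. (helper82)
-/

set_option autoImplicit false

namespace Pool.Agent.W_7d29a1_LB

open Finset MeasureTheory ProbabilityTheory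
open Pool.Agent.W_7d29a1_F Pool.Agent.W_7d29a1_X

noncomputable section

/-! ### The exchange of the tails -/

/-- The path `S` until the time `τ`, then the steps of `S'`. -/
def cut (τ : ℕ) (S S' : Finset ℕ) : Finset ℕ := (S ∩ range τ) ∪ (S' \ range τ)

theorem cut_sub {n τ : ℕ} {S S' : Finset ℕ} (h : S ⊆ range n) (h' : S' ⊆ range n) : cut τ S S' ⊆ range n :=
  union_subset (inter_subset_left.trans h) (sdiff_subset.trans h')

theorem pos_cut_le {τ i : ℕ} (h : i ≤ τ) (S S' : Finset ℕ) : pos (cut τ S S') i = pos S i := by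
  unfold pos cut
  have e1 : ((S ∩ range τ) ∪ (S' \ range τ)) ∩ range i = S ∩ range i := by
    ext a
    simp only [mem_inter, mem_union, mem_sdiff, mem_range]
    constructor
    · rintro ⟨h1 | h1, h2⟩
      · exact ⟨h1.1, h2⟩
      · exact absurd (lt_of_lt_of_le h2 h) h1.2
    · rintro ⟨h1, h2⟩
      exact ⟨Or.inl ⟨h1, lt_of_lt_of_le h2 h⟩, h2⟩
  rw [e1]

theorem pos_cut_ge {τ i : ℕ} (h : τ ≤ i) (S S' : Finset ℕ) :
    pos (cut τ S S') i = pos S τ + (pos S' i - pos S' τ) := by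
  unfold pos cut
  have e1 : ((S ∩ range τ) ∪ (S' \ range τ)) ∩ range i = (S ∩ range τ) ∪ ((S' ∩ range i) \ range τ) := by
    ext a
    simp only [mem_inter, mem_union, mem_sdiff, mem_range]
    constructor
    · rintro ⟨h1 | h1, h2⟩
      · exact Or.inl h1
      · exact Or.inr ⟨⟨h1.1, h2⟩, h1.2⟩
    · rintro (h1 | h1)
      · exact ⟨Or.inl h1, lt_of_lt_of_le h1.2 h⟩
      · exact ⟨Or.inr ⟨h1.1.1, h1.2⟩, h1.1.2⟩
  have e2 : Disjoint (S ∩ range τ) ((S' ∩ range i) \ range τ) := by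
    rw [disjoint_left]
    intro a h1 h2
    exact (mem_sdiff.1 h2).2 (mem_inter.1 h1).2
  have e3 : (S' ∩ range τ).card + ((S' ∩ range i) \ range τ).card = (S' ∩ range i).card := by
    have h1 : S' ∩ range τ = (S' ∩ range i) ∩ range τ := by
      ext a
      simp only [mem_inter, mem_range]
      constructor
      · rintro ⟨h1, h2⟩
        exact ⟨⟨h1, lt_of_lt_of_le h2 h⟩, h2⟩
      · rintro ⟨⟨h1, -⟩, h2⟩
        exact ⟨h1, h2⟩
    rw [h1]
    exact card_inter_add_card_sdiff _ _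
  rw [e1, card_union_of_disjoint e2]
  have e4 : ((S' ∩ range τ).card : ℤ) + (((S' ∩ range i) \ range τ).card : ℤ) = ((S' ∩ range i).card : ℤ) := by exact_mod_cast e3
  push_cast
  linarith

theorem cut_cut (τ : ℕ) (S S' : Finset ℕ) : cut τ (cut τ S S') (cut τ S' S) = S := by
  unfold cut
  ext a
  simp only [mem_inter, mem_union, mem_sdiff, mem_range]
  by_cases h : a < τ <;> simp [h]

/-- The distance of the two paths at the time `i`. -/
def dst (x : ℤ) (S S' : Finset ℕ) (i : ℕ) : ℤ := x + pos S' i - pos S i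

theorem dst_cut_le {τ i : ℕ} (h : i ≤ τ) (x : ℤ) (S S' : Finset ℕ) : dst x (cut τ S S') (cut τ S' S) i = dst x S S' i := by
  unfold dst
  rw [pos_cut_le h, pos_cut_le h]

theorem dst_cut_ge {τ i : ℕ} (h : τ ≤ i) {x : ℤ} {S S' : Finset ℕ} (h0 : dst x S S' τ = 0) :
    dst x (cut τ S S') (cut τ S' S) i = -dst x S S' i := by
  unfold dst at h0 ⊢
  rw [pos_cut_ge h, pos_cut_ge h]
  linarith

variable {μ : Measure ℝ} {s : ℝ}

theorem pth_cut {x : ℤ} (η : Env) {n τ : ℕ} (hτ : τ ≤ n) {S S' : Finset ℕ} (h0 : dst x S S' τ = 0) :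
    pth μ s η n (cut τ S S') * pth μ s (sh (0, x) η) n (cut τ S' S) = pth μ s η n S * pth μ s (sh (0, x) η) n S' := by
  unfold pth
  have e1 : Real.exp (s * (pos (cut τ S S') n : ℝ) - n * lam μ s) * Real.exp (s * (pos (cut τ S' S) n : ℝ) - n * lam μ s) =
      Real.exp (s * (pos S n : ℝ) - n * lam μ s) * Real.exp (s * (pos S' n : ℝ) - n * lam μ s) := by
    rw [← Real.exp_add, ← Real.exp_add, pos_cut_ge hτ, pos_cut_ge hτ]
    congr 1
    push_cast
    ring
  have e2 : (∏ i ∈ range n, Real.exp (η ((i : ℤ) + 1, pos (cut τ S S') (i + 1)))) *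
      ∏ i ∈ range n, Real.exp (sh (0, x) η ((i : ℤ) + 1, pos (cut τ S' S) (i + 1))) =
      (∏ i ∈ range n, Real.exp (η ((i : ℤ) + 1, pos S (i + 1)))) *
        ∏ i ∈ range n, Real.exp (sh (0, x) η ((i : ℤ) + 1, pos S' (i + 1))) := by
    rw [← prod_mul_distrib, ← prod_mul_distrib]
    refine prod_congr rfl fun i _ => ?_
    by_cases hi : i + 1 ≤ τ
    · rw [pos_cut_le hi, pos_cut_le hi]
    · have hi' : τ ≤ i + 1 := by omega
      unfold dst at h0
      have g1 : sh (0, x) η ((i : ℤ) + 1, pos (cut τ S' S) (i + 1)) = η ((i : ℤ) + 1, pos S (i + 1)) := by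
        show η (_, _) = η (_, _)
        congr 1
        refine Prod.ext ?_ ?_
        · show ((i : ℤ) + 1) + 0 = (i : ℤ) + 1
          ring
        · show pos (cut τ S' S) (i + 1) + x = pos S (i + 1)
          rw [pos_cut_ge hi']
          linarith
      have g2 : sh (0, x) η ((i : ℤ) + 1, pos S' (i + 1)) = η ((i : ℤ) + 1, pos (cut τ S S') (i + 1)) := by
        show η (_, _) = η (_, _)
        congr 1
        refine Prod.ext ?_ ?_
        · show ((i : ℤ) + 1) + 0 = (i : ℤ) + 1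
          ring
        · show pos S' (i + 1) + x = pos (cut τ S S') (i + 1)
          rw [pos_cut_ge hi']
          linarith
      rw [g1, g2, mul_comm]
  calc Real.exp (s * (pos (cut τ S S') n : ℝ) - n * lam μ s) * (∏ i ∈ range n, Real.exp (η ((i : ℤ) + 1, pos (cut τ S S') (i + 1)))) *
        (Real.exp (s * (pos (cut τ S' S) n : ℝ) - n * lam μ s) *
          ∏ i ∈ range n, Real.exp (sh (0, x) η ((i : ℤ) + 1, pos (cut τ S' S) (i + 1)))) =
      (Real.exp (s * (pos (cut τ S S') n : ℝ) - n * lam μ s) * Real.exp (s * (pos (cut τ S' S) n : ℝ) - n * lam μ s)) *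
        ((∏ i ∈ range n, Real.exp (η ((i : ℤ) + 1, pos (cut τ S S') (i + 1)))) *
          ∏ i ∈ range n, Real.exp (sh (0, x) η ((i : ℤ) + 1, pos (cut τ S' S) (i + 1)))) := by ring
    _ = _ := by
      rw [e1, e2]
      ring

/-- The first meeting. -/
def fm (x : ℤ) (P : Finset ℕ × Finset ℕ) : ℕ := sInf {i | dst x P.1 P.2 i = 0}

/-- The exchange of the tails after the first meeting. -/
def sw (x : ℤ) (P : Finset ℕ × Finset ℕ) : Finset ℕ × Finset ℕ := (cut (fm x P) P.1 P.2, cut (fm x P) P.2 P.1)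

/-- The paths meet in `[0, t]`. -/
def met (x : ℤ) (t : ℕ) (P : Finset ℕ × Finset ℕ) : Prop := ∃ i ≤ t, dst x P.1 P.2 i = 0

theorem fm_spec {x : ℤ} {t : ℕ} {P : Finset ℕ × Finset ℕ} (h : met x t P) : dst x P.1 P.2 (fm x P) = 0 ∧ fm x P ≤ t := by
  obtain ⟨i, hi, h0⟩ := h
  exact ⟨Nat.sInf_mem (s := {i | dst x P.1 P.2 i = 0}) ⟨i, h0⟩, (Nat.sInf_le h0).trans hi⟩

theorem fm_sw {x : ℤ} {t : ℕ} {P : Finset ℕ × Finset ℕ} (h : met x t P) : fm x (sw x P) = fm x P := by
  obtain ⟨h0, -⟩ := fm_spec h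
  have h1 : dst x (sw x P).1 (sw x P).2 (fm x P) = 0 := by
    show dst x (cut (fm x P) P.1 P.2) (cut (fm x P) P.2 P.1) (fm x P) = 0
    rw [dst_cut_le le_rfl]
    exact h0
  refine le_antisymm (Nat.sInf_le h1) ?_
  by_contra hlt
  rw [not_le] at hlt
  have h2 : dst x (sw x P).1 (sw x P).2 (fm x (sw x P)) = 0 :=
    Nat.sInf_mem (s := {i | dst x (sw x P).1 (sw x P).2 i = 0}) ⟨_, h1⟩
  have h3 : dst x P.1 P.2 (fm x (sw x P)) = 0 := by
    rw [← dst_cut_le hlt.le x P.1 P.2]
    exact h2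
  exact absurd (Nat.sInf_le (s := {i | dst x P.1 P.2 i = 0}) h3) (not_le.2 hlt)

theorem sw_sw {x : ℤ} {t : ℕ} {P : Finset ℕ × Finset ℕ} (h : met x t P) : sw x (sw x P) = P := by
  have e := fm_sw h
  show (cut (fm x (sw x P)) (sw x P).1 (sw x P).2, cut (fm x (sw x P)) (sw x P).2 (sw x P).1) = P
  rw [e]
  exact Prod.ext (cut_cut _ _ _) (cut_cut _ _ _)

theorem met_sw {x : ℤ} {t : ℕ} {P : Finset ℕ × Finset ℕ} (h : met x t P) : met x t (sw x P) := by
  obtain ⟨h0, h1⟩ := fm_spec h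
  refine ⟨fm x P, h1, ?_⟩
  show dst x (cut (fm x P) P.1 P.2) (cut (fm x P) P.2 P.1) (fm x P) = 0
  rw [dst_cut_le le_rfl]
  exact h0

open Classical in
/-- **EXCHANGE**: the mean distance at the time `t` vanishes on the event that the paths have met. -/
theorem swap_zero (x : ℤ) (η : Env) {n t : ℕ} (ht : t ≤ n) :
    ∑ S ∈ (range n).powerset, ∑ S' ∈ (range n).powerset, pth μ s η n S * pth μ s (sh (0, x) η) n S' *
      (if met x t (S, S') then (dst x S S' t : ℝ) else 0) = 0 := by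
  rw [← sum_product' (f := fun S S' => pth μ s η n S * pth μ s (sh (0, x) η) n S' *
      (if met x t (S, S') then (dst x S S' t : ℝ) else 0))]
  have e1 : ∀ P ∈ (range n).powerset ×ˢ (range n).powerset, pth μ s η n P.1 * pth μ s (sh (0, x) η) n P.2 *
      (if met x t (P.1, P.2) then (dst x P.1 P.2 t : ℝ) else 0) =
      if met x t P then pth μ s η n P.1 * pth μ s (sh (0, x) η) n P.2 * (dst x P.1 P.2 t : ℝ) else 0 := by
    intro P _
    by_cases h : met x t P
    · rw [if_pos h, if_pos h]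
    · rw [if_neg h, if_neg h, mul_zero]
  rw [sum_congr rfl e1, ← sum_filter]
  refine sum_involution (fun P _ => sw x P) (fun P hP => ?_) (fun P hP hf => ?_) (fun P hP => ?_) (fun P hP => ?_)
  · rw [mem_filter] at hP
    obtain ⟨h0, h1⟩ := fm_spec hP.2
    show _ + pth μ s η n (cut (fm x P) P.1 P.2) * pth μ s (sh (0, x) η) n (cut (fm x P) P.2 P.1) *
      (dst x (cut (fm x P) P.1 P.2) (cut (fm x P) P.2 P.1) t : ℝ) = 0
    rw [pth_cut η (h1.trans ht) h0, dst_cut_ge h1 h0]
    push_cast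
    ring
  · rw [mem_filter] at hP
    obtain ⟨h0, h1⟩ := fm_spec hP.2
    intro h2
    have h3 : dst x (sw x P).1 (sw x P).2 t = -dst x P.1 P.2 t := dst_cut_ge h1 h0
    rw [h2] at h3
    have h4 : dst x P.1 P.2 t = 0 := by omega
    refine hf ?_
    rw [h4]
    simp
  · rw [mem_filter, mem_product, mem_powerset, mem_powerset] at hP ⊢
    exact ⟨⟨cut_sub hP.1.1 hP.1.2, cut_sub hP.1.2 hP.1.1⟩, met_sw hP.2⟩
  · rw [mem_filter] at hP
    exact sw_sw hP.2

/-! ### The two polymers -/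

/-- The quenched mean of a function of the two paths; the second one starts at `(0, x)`. -/
def PP (μ : Measure ℝ) (s : ℝ) (x : ℤ) (n : ℕ) (η : Env) (F : Finset ℕ → Finset ℕ → ℝ) : ℝ :=
  ∑ S ∈ (range n).powerset, GS μ s η n S * ∑ S' ∈ (range n).powerset, GS μ s (sh (0, x) η) n S' * F S S'

/-- The annealed mean. -/
def E2 (μ : Measure ℝ) (s : ℝ) (x : ℤ) (n : ℕ) (F : Finset ℕ → Finset ℕ → ℝ) : ℝ := ∫ η, PP μ s x n η F ∂(law μ)

theorem PP_mono (x : ℤ) (n : ℕ) (η : Env) {F G : Finset ℕ → Finset ℕ → ℝ}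
    (h : ∀ S ∈ (range n).powerset, ∀ S' ∈ (range n).powerset, F S S' ≤ G S S') : PP μ s x n η F ≤ PP μ s x n η G :=
  sum_le_sum fun S hS => mul_le_mul_of_nonneg_left
    (sum_le_sum fun S' hS' => mul_le_mul_of_nonneg_left (h S hS S' hS') (GS_nonneg _ _ _)) (GS_nonneg _ _ _)

theorem PP_add (x : ℤ) (n : ℕ) (η : Env) (F G : Finset ℕ → Finset ℕ → ℝ) :
    PP μ s x n η (fun S S' => F S S' + G S S') = PP μ s x n η F + PP μ s x n η G := by
  unfold PP
  rw [← sum_add_distrib]
  refine sum_congr rfl fun S _ => ?_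
  rw [← mul_add, ← sum_add_distrib]
  congr 1
  exact sum_congr rfl fun S' _ => mul_add _ _ _

theorem PP_const_mul (x : ℤ) (n : ℕ) (η : Env) (c : ℝ) (F : Finset ℕ → Finset ℕ → ℝ) :
    PP μ s x n η (fun S S' => c * F S S') = c * PP μ s x n η F := by
  unfold PP
  rw [mul_sum]
  refine sum_congr rfl fun S _ => ?_
  rw [mul_left_comm]
  congr 1
  rw [mul_sum]
  exact sum_congr rfl fun S' _ => by ring

theorem PP_left (x : ℤ) (n : ℕ) (η : Env) (f : Finset ℕ → ℝ) :
    PP μ s x n η (fun S _ => f S) = ∑ S ∈ (range n).powerset, GS μ s η n S * f S := by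
  unfold PP
  refine sum_congr rfl fun S _ => ?_
  rw [← sum_mul, GS_sum, one_mul]

theorem PP_right (x : ℤ) (n : ℕ) (η : Env) (f : Finset ℕ → ℝ) :
    PP μ s x n η (fun _ S' => f S') = ∑ S' ∈ (range n).powerset, GS μ s (sh (0, x) η) n S' * f S' := by
  unfold PP
  rw [← sum_mul, GS_sum, one_mul]

theorem PP_const (x : ℤ) (n : ℕ) (η : Env) (c : ℝ) : PP μ s x n η (fun _ _ => c) = c := by
  rw [PP_left, ← sum_mul, GS_sum, one_mul]

theorem measurable_PP (x : ℤ) (n : ℕ) (F : Finset ℕ → Finset ℕ → ℝ) : Measurable fun η : Env => PP μ s x n η F := by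
  unfold PP
  refine Finset.measurable_fun_sum _ fun S _ => (Pool.Agent.W_7d29a1_HX.XT.measurable_GS n S).mul ?_
  exact Finset.measurable_fun_sum _ fun S' _ =>
    ((Pool.Agent.W_7d29a1_HX.XT.measurable_GS n S').comp (measurable_pi_lambda _ fun p => measurable_pi_apply _)).mul_const _

theorem PP_abs_le {x : ℤ} {n : ℕ} {η : Env} {F : Finset ℕ → Finset ℕ → ℝ} {B : ℝ}
    (h : ∀ S ∈ (range n).powerset, ∀ S' ∈ (range n).powerset, |F S S'| ≤ B) : |PP μ s x n η F| ≤ B := by
  rw [abs_le]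
  constructor
  · rw [← PP_const (μ := μ) (s := s) x n η (-B)]
    exact PP_mono x n η fun S hS S' hS' => (abs_le.1 (h S hS S' hS')).1
  · rw [← PP_const (μ := μ) (s := s) x n η B]
    exact PP_mono x n η fun S hS S' hS' => (abs_le.1 (h S hS S' hS')).2

theorem integrable_PP [IsProbabilityMeasure μ] (x : ℤ) (n : ℕ) (F : Finset ℕ → Finset ℕ → ℝ) :
    Integrable (fun η : Env => PP μ s x n η F) (law μ) := by
  obtain ⟨B, hB⟩ : ∃ B : ℝ, B = ∑ S ∈ (range n).powerset, ∑ S' ∈ (range n).powerset, |F S S'| := ⟨_, rfl⟩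
  refine Integrable.of_bound (measurable_PP x n F).aestronglyMeasurable B (Filter.Eventually.of_forall fun η => ?_)
  rw [Real.norm_eq_abs]
  refine PP_abs_le fun S hS S' hS' => ?_
  rw [hB]
  refine le_trans ?_ (single_le_sum (f := fun S => ∑ S' ∈ (range n).powerset, |F S S'|)
    (fun S _ => sum_nonneg fun S' _ => abs_nonneg _) hS)
  exact single_le_sum (f := fun S' => |F S S'|) (fun S' _ => abs_nonneg _) hS'

section prob

variable [IsProbabilityMeasure μ]

theorem E2_mono {x : ℤ} {n : ℕ} {F G : Finset ℕ → Finset ℕ → ℝ}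
    (h : ∀ S ∈ (range n).powerset, ∀ S' ∈ (range n).powerset, F S S' ≤ G S S') : E2 μ s x n F ≤ E2 μ s x n G :=
  integral_mono (integrable_PP x n F) (integrable_PP x n G) fun η => PP_mono x n η h

theorem E2_add (x : ℤ) (n : ℕ) (F G : Finset ℕ → Finset ℕ → ℝ) :
    E2 μ s x n (fun S S' => F S S' + G S S') = E2 μ s x n F + E2 μ s x n G := by
  unfold E2
  simp only [PP_add]
  exact integral_add (integrable_PP x n F) (integrable_PP x n G)

omit [IsProbabilityMeasure μ] in
theorem E2_const_mul (x : ℤ) (n : ℕ) (c : ℝ) (F : Finset ℕ → Finset ℕ → ℝ) :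
    E2 μ s x n (fun S S' => c * F S S') = c * E2 μ s x n F := by
  unfold E2
  simp only [PP_const_mul]
  exact integral_const_mul _ _

theorem E2_sum {ι : Type} (x : ℤ) (n : ℕ) (T : Finset ι) (F : ι → Finset ℕ → Finset ℕ → ℝ) :
    E2 μ s x n (fun S S' => ∑ i ∈ T, F i S S') = ∑ i ∈ T, E2 μ s x n (F i) := by
  classical
  induction T using Finset.induction_on with
  | empty =>
    simp only [sum_empty]
    unfold E2
    simp only [PP_const]
    simp
  | insert a T ha ih =>
    simp only [sum_insert ha]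
    rw [E2_add, ih]

theorem E2_const (x : ℤ) (n : ℕ) (c : ℝ) : E2 μ s x n (fun _ _ => c) = c := by
  unfold E2
  simp only [PP_const]
  rw [integral_const, probReal_univ, one_smul]

omit [IsProbabilityMeasure μ] in
theorem E2_left (x : ℤ) (n : ℕ) (f : Finset ℕ → ℝ) :
    E2 μ s x n (fun S _ => f S) = ∫ η, ∑ S ∈ (range n).powerset, GS μ s η n S * f S ∂(law μ) := by
  unfold E2
  simp only [PP_left]

/-- TRANSLATION. -/
theorem E2_right (x : ℤ) (n : ℕ) (f : Finset ℕ → ℝ) :
    E2 μ s x n (fun _ S' => f S') = ∫ η, ∑ S ∈ (range n).powerset, GS μ s η n S * f S ∂(law μ) := by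
  unfold E2
  simp only [PP_right]
  exact Pool.Agent.W_7d29a1_H.int_sh (0, x) (f := fun η => ∑ S' ∈ (range n).powerset, GS μ s η n S' * f S')
    (Finset.measurable_fun_sum _ fun S _ => (Pool.Agent.W_7d29a1_HX.XT.measurable_GS n S).mul_const _)

theorem E2_nonneg {x : ℤ} {n : ℕ} {F : Finset ℕ → Finset ℕ → ℝ}
    (h : ∀ S ∈ (range n).powerset, ∀ S' ∈ (range n).powerset, 0 ≤ F S S') : 0 ≤ E2 μ s x n F := by
  rw [← E2_const (μ := μ) (s := s) x n 0]
  exact E2_mono h

omit [IsProbabilityMeasure μ] in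
open Classical in
theorem PP_swap (x : ℤ) (η : Env) {n t : ℕ} (ht : t ≤ n) :
    PP μ s x n η (fun S S' => if met x t (S, S') then (dst x S S' t : ℝ) else 0) = 0 := by
  have h := swap_zero (μ := μ) (s := s) x η ht
  have e : PP μ s x n η (fun S S' => if met x t (S, S') then (dst x S S' t : ℝ) else 0) =
      (Real.exp (V μ s η 0 n))⁻¹ * (Real.exp (V μ s (sh (0, x) η) 0 n))⁻¹ *
        ∑ S ∈ (range n).powerset, ∑ S' ∈ (range n).powerset, pth μ s η n S * pth μ s (sh (0, x) η) n S' *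
          (if met x t (S, S') then (dst x S S' t : ℝ) else 0) := by
    unfold PP GS
    rw [mul_sum]
    refine sum_congr rfl fun S _ => ?_
    rw [mul_sum, mul_sum]
    refine sum_congr rfl fun S' _ => ?_
    rw [div_eq_mul_inv, div_eq_mul_inv]
    ring
  rw [e, h, mul_zero]

open Classical in
/-- **THE MEAN DISTANCE** at the time `t`, on the event that the paths do not meet before, is exactly `x`. -/
theorem D_mean (x : ℤ) {n t : ℕ} (ht : t ≤ n) :
    E2 μ s x n (fun S S' => if met x t (S, S') then 0 else (dst x S S' t : ℝ)) = x := by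
  have e1 : E2 μ s x n (fun S S' => if met x t (S, S') then (dst x S S' t : ℝ) else 0) = 0 := by
    unfold E2
    simp only [PP_swap x _ ht]
    simp
  have e2 : E2 μ s x n (fun S S' => (if met x t (S, S') then 0 else (dst x S S' t : ℝ)) +
      (if met x t (S, S') then (dst x S S' t : ℝ) else 0)) = E2 μ s x n (fun S S' => (dst x S S' t : ℝ)) := by
    congr 1
    funext S S'
    by_cases h : met x t (S, S')
    · rw [if_pos h, if_pos h, zero_add]
    · rw [if_neg h, if_neg h, add_zero]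
  rw [E2_add, e1, add_zero] at e2
  rw [e2]
  have e3 : E2 μ s x n (fun S S' => (dst x S S' t : ℝ)) =
      E2 μ s x n (fun S S' => ((x : ℝ) + (pos S' t : ℝ)) + (-1) * (pos S t : ℝ)) := by
    congr 1
    funext S S'
    unfold dst
    push_cast
    ring
  rw [e3, E2_add x n (fun _ S' => (x : ℝ) + (pos S' t : ℝ)) (fun S _ => (-1) * (pos S t : ℝ)),
    E2_add x n (fun _ _ => (x : ℝ)) (fun _ S' => (pos S' t : ℝ)), E2_const, E2_right x n (fun S => (pos S t : ℝ)),
    E2_const_mul x n (-1) (fun S _ => (pos S t : ℝ)), E2_left x n (fun S => (pos S t : ℝ))]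
  ring

omit [IsProbabilityMeasure μ] in
/-- Paths which do not meet keep their order. -/
theorem dst_pos {x : ℤ} (hx : 1 ≤ x) {t : ℕ} {S S' : Finset ℕ} (h : ¬ met x t (S, S')) : ∀ i ≤ t, 0 < dst x S S' i := by
  intro i
  induction i with
  | zero =>
    intro _
    unfold dst
    rw [pos_zero, pos_zero]
    omega
  | succ i ih =>
    intro hi
    have h1 := ih (by omega)
    have h2 : dst x S S' (i + 1) ≠ 0 := fun h3 => h ⟨i + 1, hi, h3⟩
    have h3 := Pool.Agent.W_7d29a1_HX.XT.dsp_nonneg i 1 S'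
    have h4 := Pool.Agent.W_7d29a1_HX.XT.dsp_le i 1 S
    unfold Pool.Agent.W_7d29a1_HX.XT.dsp at h3 h4
    unfold dst at h1 h2 ⊢
    push_cast at h4
    omega

open Classical in
/-- **MARKOV**: the distance is at least `d` and the paths have not met. -/
theorem markov {x : ℤ} (hx : 1 ≤ x) {n t : ℕ} (ht : t ≤ n) {d : ℝ} (hd : 0 < d) :
    E2 μ s x n (fun S S' => if ¬ met x t (S, S') ∧ d ≤ (dst x S S' t : ℝ) then 1 else 0) ≤ x / d := by
  rw [le_div_iff₀ hd, mul_comm, ← E2_const_mul, ← D_mean (μ := μ) (s := s) x ht]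
  refine E2_mono fun S _ S' _ => ?_
  by_cases h : met x t (S, S')
  · rw [if_neg (fun h' => h'.1 h), if_pos h, mul_zero]
  · have h1 := dst_pos hx h t le_rfl
    have h2 : (0 : ℝ) < dst x S S' t := by exact_mod_cast h1
    rw [if_neg h]
    split_ifs with h3
    · rw [mul_one]
      exact h3.2
    · rw [mul_zero]
      exact h2.le

end prob

end

end Pool.Agent.W_7d29a1_LB
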