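import Pool.Agent.W_7d29a1_LB.Seam
import Pool.Agent.W_7d29a1_F.CoreD2

/-!
STORM LB (MP_7d29a1_pr, row 671, helper77), section 1 in the normalised form of the tilt `s` (retained mass `Z0`, `(1.1)`), the
deterministic part of section 2 (`Z0 ≤ Z`), and the measurability of the seam.
-/

set_option autoImplicit false

namespace Pool.Agent.W_7d29a1_LB

open MeasureTheory ProbabilityTheory Filter Topology
open Pool.Agent.W_7d29a1_F

noncomputable section

variable {μ : Measure ℝ} {s : ℝ}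

/-- The normalised mass of the paths of length `n` from `(0, z)` in the region `R`. -/
def mass (μ : Measure ℝ) (s : ℝ) (R : Set Pt) (η : Env) (z : ℤ) (n : ℕ) : ℝ :=
  ∑ y ∈ Finset.Icc (0 : ℤ) n, WR μ s R η (0, z) n y

/-- The normalised point to line partition function from `(0, z)`. -/
def psi (μ : Measure ℝ) (s : ℝ) (η : Env) (z : ℤ) (n : ℕ) : ℝ := WS μ s η (0, z) n (Finset.Icc (0 : ℤ) n)

theorem log_psi (η : Env) (z : ℤ) (n : ℕ) : Real.log (psi μ s η z n) = V μ s η (0, z) n := rfl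

theorem psi_eq_mass (η : Env) (z : ℤ) (n : ℕ) : psi μ s η z n = mass μ s Set.univ η z n := rfl

theorem mass_nonneg (R : Set Pt) (η : Env) (z : ℤ) (n : ℕ) : 0 ≤ mass μ s R η z n :=
  Finset.sum_nonneg fun _ _ => WR_nonneg _ _ _ _ _

theorem mass_mono {R R' : Set Pt} (h : R ⊆ R') (η : Env) (z : ℤ) (n : ℕ) : mass μ s R η z n ≤ mass μ s R' η z n :=
  Finset.sum_le_sum fun y _ => mul_le_mul_of_nonneg_left (Zr_mono h η (0, z) n y) (Real.exp_pos _).le

theorem psi_pos (η : Env) (z : ℤ) (n : ℕ) : 0 < psi μ s η z n := by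
  unfold psi WS
  exact Finset.sum_pos (fun y hy => W_pos η (0, z) (Finset.mem_Icc.1 hy).1 (Finset.mem_Icc.1 hy).2)
    ⟨0, by rw [Finset.mem_Icc]; omega⟩

/-- The mass as a sum over the end points. -/
theorem mass_eq (R : Set Pt) (η : Env) (z : ℤ) (n : ℕ) (I : Finset ℤ) (hI : ∀ y, z ≤ y → y ≤ z + n → y ∈ I) :
    ∑ y ∈ I, Real.exp (s * y - n * lam μ s) * K R η z n y = Real.exp (s * z) * mass μ s R η z n := by
  have h1 : Finset.Icc z (z + n) ⊆ I := fun y hy => by
    rw [Finset.mem_Icc] at hy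
    exact hI y hy.1 hy.2
  rw [← Finset.sum_subset h1 (fun y _ hy => ?_)]
  · unfold mass
    rw [Finset.mul_sum]
    refine Finset.sum_nbij' (fun y => y - z) (fun y => y + z) ?_ ?_ ?_ ?_ ?_
    · intro y hy
      rw [Finset.mem_Icc] at hy ⊢
      omega
    · intro y hy
      rw [Finset.mem_Icc] at hy ⊢
      omega
    · intro y _
      show y - z + z = y
      ring
    · intro y _
      show y + z - z = y
      ring
    · intro y _
      show Real.exp (s * y - n * lam μ s) * Zr R η (0, z) n (y - z) =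
        Real.exp (s * z) * (Real.exp (s * ((y - z : ℤ) : ℝ) - n * lam μ s) * Zr R η (0, z) n (y - z))
      rw [← mul_assoc, ← Real.exp_add]
      congr 2
      push_cast
      ring
  · have h2 : K R η z n y = 0 := by
      unfold K
      refine Zr_eq_zero R η (0, z) ?_
      rw [Finset.mem_Icc] at hy
      omega
    rw [h2, mul_zero]

/-- **(1.1), left**, summed: `a` is the level for the normalised kernels. -/
theorem psi_le_left (η : Env) (a : ℝ) {x : ℤ} (hx : 1 ≤ x) (n : ℕ) :
    psi μ s η 0 n ≤ mass μ s (Lt (seam η (a + s * x) x)) η 0 n + Real.exp (-a) * psi μ s η x n := by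
  obtain ⟨I, hI⟩ : ∃ I : Finset ℤ, I = Finset.Icc 0 (x + n) := ⟨_, rfl⟩
  have hI0 : ∀ y, (0 : ℤ) ≤ y → y ≤ 0 + n → y ∈ I := fun y h1 h2 => by rw [hI, Finset.mem_Icc]; omega
  have hIx : ∀ y, x ≤ y → y ≤ x + n → y ∈ I := fun y h1 h2 => by rw [hI, Finset.mem_Icc]; omega
  have e1 := mass_eq (μ := μ) (s := s) Set.univ η 0 n I hI0
  have e2 := mass_eq (μ := μ) (s := s) (Lt (seam η (a + s * x) x)) η 0 n I hI0
  have e3 := mass_eq (μ := μ) (s := s) Set.univ η x n I hIx
  rw [Int.cast_zero, mul_zero, Real.exp_zero, one_mul] at e1 e2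
  have h1 : ∑ y ∈ I, Real.exp (s * y - n * lam μ s) * K Set.univ η 0 n y ≤
      ∑ y ∈ I, Real.exp (s * y - n * lam μ s) * K (Lt (seam η (a + s * x) x)) η 0 n y +
      Real.exp (-(a + s * x)) * ∑ y ∈ I, Real.exp (s * y - n * lam μ s) * K Set.univ η x n y := by
    rw [Finset.mul_sum, ← Finset.sum_add_distrib]
    refine Finset.sum_le_sum fun y _ => ?_
    have h2 := mul_le_mul_of_nonneg_left (retL η (a + s * x) hx n y) (Real.exp_pos (s * y - n * lam μ s)).le
    calc _ ≤ _ := h2
      _ = _ := by ring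
  rw [e1, e2, e3, ← mul_assoc, ← Real.exp_add, show -(a + s * x) + s * (x : ℝ) = -a by ring] at h1
  exact h1

/-- **(1.1), right**, summed. -/
theorem psi_le_right (η : Env) (a : ℝ) {x : ℤ} (hx : 1 ≤ x) (n : ℕ) :
    psi μ s η x n ≤ mass μ s (Rg (seam η (a + s * x) x)) η x n + Real.exp a * psi μ s η 0 n := by
  obtain ⟨I, hI⟩ : ∃ I : Finset ℤ, I = Finset.Icc 0 (x + n) := ⟨_, rfl⟩
  have hI0 : ∀ y, (0 : ℤ) ≤ y → y ≤ 0 + n → y ∈ I := fun y h1 h2 => by rw [hI, Finset.mem_Icc]; omega
  have hIx : ∀ y, x ≤ y → y ≤ x + n → y ∈ I := fun y h1 h2 => by rw [hI, Finset.mem_Icc]; omega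
  have e1 := mass_eq (μ := μ) (s := s) Set.univ η 0 n I hI0
  have e2 := mass_eq (μ := μ) (s := s) (Rg (seam η (a + s * x) x)) η x n I hIx
  have e3 := mass_eq (μ := μ) (s := s) Set.univ η x n I hIx
  rw [Int.cast_zero, mul_zero, Real.exp_zero, one_mul] at e1
  have h1 : ∑ y ∈ I, Real.exp (s * y - n * lam μ s) * K Set.univ η x n y ≤
      ∑ y ∈ I, Real.exp (s * y - n * lam μ s) * K (Rg (seam η (a + s * x) x)) η x n y +
      Real.exp (a + s * x) * ∑ y ∈ I, Real.exp (s * y - n * lam μ s) * K Set.univ η 0 n y := by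
    rw [Finset.mul_sum, ← Finset.sum_add_distrib]
    refine Finset.sum_le_sum fun y _ => ?_
    have h2 := mul_le_mul_of_nonneg_left (retR η (a + s * x) hx n y) (Real.exp_pos (s * y - n * lam μ s)).le
    calc _ ≤ _ := h2
      _ = _ := by ring
  have e4 : Real.exp (a + s * x) = Real.exp (s * x) * Real.exp a := by rw [← Real.exp_add]; ring_nf
  rw [e1, e2, e3, e4, mul_assoc, ← mul_add] at h1
  exact le_of_mul_le_mul_left h1 (Real.exp_pos _)

/-- The retained mass. -/
def Z0 (μ : Measure ℝ) (s : ℝ) (η : Env) (x : ℤ) (n : ℕ) (a : ℝ) : ℝ :=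
  mass μ s (Lt (seam η (a + s * x) x)) η 0 n + Real.exp (-a) * mass μ s (Rg (seam η (a + s * x) x)) η x n

/-- The mass of the two starts at the level `a`. -/
def Zt (μ : Measure ℝ) (s : ℝ) (η : Env) (x : ℤ) (n : ℕ) (a : ℝ) : ℝ := psi μ s η 0 n + Real.exp (-a) * psi μ s η x n

/-- **(1.1)**: the retained mass is at least the difference of the two masses. -/
theorem abs_le_Z0 (η : Env) (a : ℝ) {x : ℤ} (hx : 1 ≤ x) (n : ℕ) :
    |psi μ s η 0 n - Real.exp (-a) * psi μ s η x n| ≤ Z0 μ s η x n a := by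
  have h1 := psi_le_left (μ := μ) (s := s) η a hx n
  have h2 := psi_le_right (μ := μ) (s := s) η a hx n
  have h3 := mul_le_mul_of_nonneg_left h2 (Real.exp_pos (-a)).le
  rw [mul_add, ← mul_assoc (Real.exp (-a)) (Real.exp a), ← Real.exp_add, neg_add_cancel, Real.exp_zero, one_mul] at h3
  have h4 := mass_nonneg (μ := μ) (s := s) (Lt (seam η (a + s * x) x)) η 0 n
  have h5 := mul_nonneg (Real.exp_pos (-a)).le (mass_nonneg (μ := μ) (s := s) (Rg (seam η (a + s * x) x)) η x n)
  unfold Z0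
  rw [abs_le]
  constructor <;> linarith

/-- The path with all steps `0` stays on the left. -/
theorem K_Lt_pos {q : ℕ → ℤ} (hq : ∀ i, 1 ≤ q i) (η : Env) : ∀ i : ℕ, 0 < K (Lt q) η 0 i 0
  | 0 => by rw [K_zero, if_pos rfl]; exact one_pos
  | i + 1 => by
    rw [K_succ, Set.indicator_of_mem (mem_Lt.2 (by have := hq (i + 1); omega))]
    exact mul_pos (Real.exp_pos _) (add_pos_of_pos_of_nonneg (K_Lt_pos hq η i) (K_nonneg _ _ _ _ _))

theorem mass_Lt_pos {q : ℕ → ℤ} (hq : ∀ i, 1 ≤ q i) (η : Env) (n : ℕ) : 0 < mass μ s (Lt q) η 0 n := by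
  have h1 : 0 < WR μ s (Lt q) η (0, 0) n 0 := by
    have h2 := K_Lt_pos hq η n
    unfold K at h2
    rw [sub_zero] at h2
    exact mul_pos (Real.exp_pos _) h2
  refine lt_of_lt_of_le h1 ?_
  exact Finset.single_le_sum (f := fun y => WR μ s (Lt q) η (0, 0) n y) (fun y _ => WR_nonneg _ _ _ _ _)
    (Finset.mem_Icc.2 ⟨le_rfl, by omega⟩)

theorem Z0_pos (η : Env) (a : ℝ) {x : ℤ} (hx : 1 ≤ x) (n : ℕ) : 0 < Z0 μ s η x n a :=
  add_pos_of_pos_of_nonneg (mass_Lt_pos (fun i => hx.trans (le_seam _ _ _ i)) η n)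
    (mul_nonneg (Real.exp_pos _).le (mass_nonneg _ _ _ _))

theorem Zt_pos (η : Env) (x : ℤ) (n : ℕ) (a : ℝ) : 0 < Zt μ s η x n a :=
  add_pos (psi_pos _ _ _) (mul_pos (Real.exp_pos _) (psi_pos _ _ _))

/-- The mass which avoids the strip, left start. -/
theorem mass_avoid_left {q : ℕ → ℤ} (h0 : 1 ≤ q 0) (hq : ∀ i, q i ≤ q (i + 1)) {w : ℕ} (hw : 1 ≤ w) (ω ξ : Env) (n : ℕ) :
    mass μ s (Sp q w)ᶜ (ins q w ω ξ) 0 n = mass μ s (Lt q) ω 0 n := by
  refine Finset.sum_congr rfl fun y _ => ?_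
  have h1 := K_avoid_left h0 hq hw ω ξ n y
  unfold K at h1
  rw [sub_zero] at h1
  unfold WR
  rw [h1]

/-- The mass which avoids the strip, right start. -/
theorem mass_avoid_right {q : ℕ → ℤ} (hq : ∀ i, q (i + 1) ≤ q i + 1) {w : ℕ} (hw : 1 ≤ w) (ω ξ : Env) (n : ℕ) :
    mass μ s (Sp q w)ᶜ (ins q w ω ξ) (q 0 + w) n = mass μ s (Rg q) ω (q 0) n := by
  refine Finset.sum_congr rfl fun y _ => ?_
  have h1 := K_avoid_right hq hw ω ξ n (y + (q 0 + w))
  unfold K at h1
  rw [add_sub_cancel_right, show y + (q 0 + (w : ℤ)) - w - q 0 = y by ring] at h1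
  unfold WR
  rw [h1]

/-- **The insertion does not lose mass**: `Z0 ≤ Z`. -/
theorem Z0_le_Zt (ω ξ : Env) (a : ℝ) {x : ℤ} (hx : 1 ≤ x) (n : ℕ) {w : ℕ} (hw : 1 ≤ w) :
    Z0 μ s ω x n a ≤ Zt μ s (ins (seam ω (a + s * x) x) w ω ξ) (x + w) n a := by
  have h1 := mass_avoid_left (μ := μ) (s := s) (q := seam ω (a + s * x) x) (by rw [seam_zero]; exact hx)
    (fun i => (seam_step _ _ _ i).1) hw ω ξ n
  have h2 := mass_avoid_right (μ := μ) (s := s) (q := seam ω (a + s * x) x) (fun i => (seam_step _ _ _ i).2) hw ω ξ n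
  rw [seam_zero] at h2
  unfold Z0 Zt
  rw [← h1, ← h2]
  exact add_le_add (mass_mono (Set.subset_univ _) _ _ _)
    (mul_le_mul_of_nonneg_left (mass_mono (Set.subset_univ _) _ _ _) (Real.exp_pos _).le)

/-! ### Measurability (for a fixed level) -/

theorem measurable_K (R : Set Pt) (z : ℤ) (i : ℕ) (y : ℤ) : Measurable fun η : Env => K R η z i y :=
  measurable_Zr R (0, z) i (y - z)

theorem measurable_K_at (z : ℤ) (i : ℕ) {f : Env → ℤ} (hf : Measurable f) :
    Measurable fun η : Env => K Set.univ η z i (f η) := by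
  have h1 : Measurable fun p : Env × ℤ => K Set.univ p.1 z i p.2 :=
    measurable_from_prod_countable_left fun y => measurable_K Set.univ z i y
  exact h1.comp (measurable_id.prodMk hf)

theorem measurable_seam (b : ℝ) (x : ℤ) : ∀ i : ℕ, Measurable fun η : Env => seam η b x i
  | 0 => measurable_const
  | i + 1 => by
    have h0 := measurable_seam b x i
    have h1 := measurable_K_at x i h0
    have h2 := measurable_K_at x i (h0.sub_const 1)
    have h3 := measurable_K_at 0 i h0
    have h4 := measurable_K_at 0 i (h0.sub_const 1)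
    have h5 : MeasurableSet {η : Env | K Set.univ η x i (seam η b x i) + K Set.univ η x i (seam η b x i - 1) <
      Real.exp b * (K Set.univ η 0 i (seam η b x i) + K Set.univ η 0 i (seam η b x i - 1))} :=
      measurableSet_lt (h1.add h2) (measurable_const.mul (h3.add h4))
    exact Measurable.ite h5 (h0.add_const 1) h0

theorem measurable_K_Lt {q : Env → ℕ → ℤ} (hq : ∀ i, Measurable fun η => q η i) (z : ℤ) : ∀ (i : ℕ) (y : ℤ),
    Measurable fun η : Env => K (Lt (q η)) η z i y
  | 0, y => by simp only [K_zero]; exact measurable_const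
  | i + 1, y => by
    have h1 : ∀ η : Env, K (Lt (q η)) η z (i + 1) y = (if y < q η (i + 1) then Real.exp (η ((i : ℤ) + 1, y)) else 0) *
        (K (Lt (q η)) η z i y + K (Lt (q η)) η z i (y - 1)) := fun η => by
      rw [K_succ]
      by_cases h : y < q η (i + 1)
      · rw [Set.indicator_of_mem (mem_Lt.2 h), if_pos h]
      · rw [Set.indicator_of_notMem (fun h2 => h (mem_Lt.1 h2)), if_neg h]
    simp only [h1]
    exact (Measurable.ite (measurableSet_lt measurable_const (hq (i + 1)))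
      (Real.measurable_exp.comp (measurable_pi_apply _)) measurable_const).mul
      ((measurable_K_Lt hq z i y).add (measurable_K_Lt hq z i (y - 1)))

theorem measurable_K_Rg {q : Env → ℕ → ℤ} (hq : ∀ i, Measurable fun η => q η i) (z : ℤ) : ∀ (i : ℕ) (y : ℤ),
    Measurable fun η : Env => K (Rg (q η)) η z i y
  | 0, y => by simp only [K_zero]; exact measurable_const
  | i + 1, y => by
    have h1 : ∀ η : Env, K (Rg (q η)) η z (i + 1) y = (if q η (i + 1) ≤ y then Real.exp (η ((i : ℤ) + 1, y)) else 0) *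
        (K (Rg (q η)) η z i y + K (Rg (q η)) η z i (y - 1)) := fun η => by
      rw [K_succ]
      by_cases h : q η (i + 1) ≤ y
      · rw [Set.indicator_of_mem (mem_Rg.2 h), if_pos h]
      · rw [Set.indicator_of_notMem (fun h2 => h (mem_Rg.1 h2)), if_neg h]
    simp only [h1]
    exact (Measurable.ite (measurableSet_le (hq (i + 1)) measurable_const)
      (Real.measurable_exp.comp (measurable_pi_apply _)) measurable_const).mul
      ((measurable_K_Rg hq z i y).add (measurable_K_Rg hq z i (y - 1)))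

theorem measurable_psi (z : ℤ) (n : ℕ) : Measurable fun η : Env => psi μ s η z n := by
  have h1 : ∀ y ∈ Finset.Icc (0 : ℤ) n, Measurable fun η : Env => W μ s η (0, z) n y := fun y _ =>
    measurable_const.mul (measurable_Zr Set.univ (0, z) n y)
  exact Finset.measurable_sum _ h1

theorem measurable_Zt (x : ℤ) (n : ℕ) (a : ℝ) : Measurable fun η : Env => Zt μ s η x n a :=
  (measurable_psi 0 n).add (measurable_const.mul (measurable_psi x n))

theorem measurable_Z0 (x : ℤ) (n : ℕ) (a : ℝ) : Measurable fun η : Env => Z0 μ s η x n a := by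
  have h1 : Measurable fun η : Env => mass μ s (Lt (seam η (a + s * x) x)) η 0 n :=
    Finset.measurable_sum _ fun y _ => measurable_const.mul (by
      have h2 := measurable_K_Lt (measurable_seam (a + s * x) x) 0 n y
      unfold K at h2
      rwa [sub_zero] at h2)
  have h3 : Measurable fun η : Env => mass μ s (Rg (seam η (a + s * x) x)) η x n :=
    Finset.measurable_sum _ fun y _ => measurable_const.mul (by
      have h2 := measurable_K_Rg (measurable_seam (a + s * x) x) x n (y + x)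
      unfold K at h2
      rwa [add_sub_cancel_right] at h2)
  exact h1.add (measurable_const.mul h3)

end

end Pool.Agent.W_7d29a1_LB
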