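import Pool.Agent.W_7d29a1_LB.Ident
import Pool.Agent.W_7d29a1_LB.Law
import Pool.Agent.W_7d29a1_LB.SeamW
import Pool.Agent.W_7d29a1_H.MeanA

/-! STORM LB (MP_7d29a1_pr, row 671, helper77), section 3 on the model: the identity (3.1) for the
competition seam and the fresh strip. (helper27) -/

set_option autoImplicit false

namespace Pool.Agent.W_7d29a1_LB

open MeasureTheory ProbabilityTheory Filter Topology
open Pool.Agent.W_7d29a1_F Pool.Agent.W_7d29a1_H
open Pool.Agent.W_7d29a1_h47 (EM Nondeg)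

noncomputable section

variable {μ : Measure ℝ} {s : ℝ}

/-- The path with all steps `0`. -/
theorem K_Lt_ge27 {q : ℕ → ℤ} (hq : ∀ i, 1 ≤ q i) (η : Env) : ∀ i : ℕ,
    Real.exp (∑ j ∈ Finset.range i, η ((j : ℤ) + 1, 0)) ≤ K (Lt q) η 0 i 0
  | 0 => by rw [K_zero, if_pos rfl]; simp
  | i + 1 => by
    rw [K_succ, Set.indicator_of_mem (mem_Lt.2 (by have := hq (i + 1); omega)),
      Finset.sum_range_succ, Real.exp_add, mul_comm]
    refine mul_le_mul_of_nonneg_left ?_ (Real.exp_pos _).le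
    exact (K_Lt_ge27 hq η i).trans (le_add_of_nonneg_right (K_nonneg _ _ _ _ _))

/-- A lower bound of the retained mass which is integrable. -/
theorem log_Z0_ge27 (η : Env) (a : ℝ) {x : ℤ} (hx : 1 ≤ x) (n : ℕ) :
    -(n * lam μ s) + ∑ j ∈ Finset.range n, η ((j : ℤ) + 1, 0) ≤ Real.log (Z0 μ s η x n a) := by
  have hq : ∀ i, 1 ≤ seam η (a + s * x) x i := fun i => hx.trans (le_seam _ _ _ i)
  have h1 := K_Lt_ge27 hq η n
  have h2 : WR μ s (Lt (seam η (a + s * x) x)) η (0, 0) n 0 ≤ Z0 μ s η x n a := by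
    have h3 : WR μ s (Lt (seam η (a + s * x) x)) η (0, 0) n 0 ≤ mass μ s (Lt (seam η (a + s * x) x)) η 0 n :=
      Finset.single_le_sum (f := fun y => WR μ s (Lt (seam η (a + s * x) x)) η (0, 0) n y)
        (fun y _ => WR_nonneg _ _ _ _ _) (Finset.mem_Icc.2 ⟨le_rfl, by omega⟩)
    exact h3.trans (le_add_of_nonneg_right (mul_nonneg (Real.exp_pos _).le (mass_nonneg _ _ _ _)))
  have h4 : Real.exp (-(n * lam μ s) + ∑ j ∈ Finset.range n, η ((j : ℤ) + 1, 0)) ≤
      WR μ s (Lt (seam η (a + s * x) x)) η (0, 0) n 0 := by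
    unfold K at h1
    rw [sub_zero] at h1
    unfold WR
    rw [Real.exp_add, Int.cast_zero, mul_zero, zero_sub]
    exact mul_le_mul_of_nonneg_left h1 (Real.exp_pos _).le
  rw [← Real.log_exp (-(n * lam μ s) + ∑ j ∈ Finset.range n, η ((j : ℤ) + 1, 0))]
  exact Real.log_le_log (Real.exp_pos _) (h4.trans h2)

theorem Zt_eq27 (η : Env) (x : ℤ) (n : ℕ) (a : ℝ) : Zt μ s η x n a =
    Real.exp (V μ s η 0 n) + Real.exp (-a) * Real.exp (V μ s η (0, x) n) := by
  rw [exp_V, exp_V]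
  rfl

variable [IsProbabilityMeasure μ]

theorem memLp_V27 (hμ : EM μ) (s : ℝ) (a : Pt) (n : ℕ) : MemLp (fun η => V μ s η a n) 2 (law μ) :=
  (memLp_two_iff_integrable_sq (V_meas s a n).aestronglyMeasurable).2 (V_sq_int hμ s a n)

/-- **THE IDENTITY (3.1) FOR THE MODEL.** If `k a` is a lower bound of the gain `E log (Z / Z0)` at
the level `a`, for all `abs a ≤ A'`, then its integral is at most half of the growth of the second
moment, up to the total loss `11`. -/
theorem identM (hμ : EM μ) (s : ℝ) (n : ℕ) {x : ℤ} (hx : 1 ≤ x) {w : ℕ} (hw : 1 ≤ w)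
    {A' : ℝ} (hA' : 0 ≤ A') {k : ℝ → ℝ} (ik : IntervalIntegrable k volume (-A') A')
    (hk : ∀ a, |a| ≤ A' → k a ≤ ∫ v, (Real.log (Zt μ s (ins (seam v.1 (a + s * x) x) w v.1 v.2) (x + w) n a)
      - Real.log (Z0 μ s v.1 x n a)) ∂((law μ).prod (law μ))) :
    ∫ a in (-A')..A', k a ≤ (∫ η, (V μ s η (0, x + w) n - V μ s η 0 n) ^ 2 ∂(law μ)
      - ∫ η, (V μ s η (0, x) n - V μ s η 0 n) ^ 2 ∂(law μ)) / 2 + 11 := by
  have h := ident27_lim (P := (law μ).prod (law μ)) (Q := law μ) (om := Prod.fst)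
    (et := fun a v => ins (seam v.1 (a + s * x) x) w v.1 v.2)
    (U0 := fun η => V μ s η 0 n) (Ux := fun η => V μ s η (0, x) n) (Uy := fun η => V μ s η (0, x + w) n)
    (Z0 := fun a v => Z0 μ s v.1 x n a)
    (l := fun _ v => -(n * lam μ s) + ∑ j ∈ Finset.range n, v.1 ((j : ℤ) + 1, 0))
    measurePreserving_fst (fun a => mp_ins_seam (a + s * x) x w) (V_meas s _ n) (V_meas s _ n) (V_meas s _ n)
    (memLp_V27 hμ s _ n) (memLp_V27 hμ s _ n) (memLp_V27 hμ s _ n) (V_at s _ n) (V_at s _ n)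
    (fun a => ((Real.measurable_log.comp (measurable_Z0 x n a)).comp measurable_fst).aestronglyMeasurable)
    (fun a v => Z0_pos v.1 a hx n)
    (fun a v => by
      have h1 := abs_le_Z0 (μ := μ) (s := s) v.1 a hx n
      simp only [exp_V]
      exact h1)
    (fun a v => by
      have h1 := Z0_le_Zt (μ := μ) (s := s) v.1 v.2 a hx n hw
      rw [Zt_eq27] at h1
      exact h1)
    (fun a => by
      have h1 : Sub fun η : Env => -(n * lam μ s) + ∑ j ∈ Finset.range n, η ((j : ℤ) + 1, 0) :=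
        (Sub.const _).add (Sub.sum _ fun j _ => Sub.coord _)
      exact (h1.integrable hμ).comp_fst _)
    (fun a v => log_Z0_ge27 v.1 a hx n)
    hA' ik (fun a ha => by
      refine (hk a ha).trans (le_of_eq ?_)
      simp only [Zt_eq27])
  exact h

end

end Pool.Agent.W_7d29a1_LB
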