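import Pool.Agent.W_7d29a1_LB.Swap82
import Pool.Agent.W_7d29a1_HZ.Z82_FreshW

/-!
STORM LB (MP_7d29a1_pr, row 671), section 7: the fresh tube for two polymers with free ends (from `HZ/Z82_FreshW.fresh_exp`, constant
frame): up to an exceptional probability the second polymer, started at distance `x`, does not stay within `n ^ (-ε) wd (n / 2)` of the
first one for the time `n' ≥ n / 4` without meeting it. (helper82)
-/

set_option autoImplicit false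

namespace Pool.Agent.W_7d29a1_LB

open Finset MeasureTheory ProbabilityTheory
open Pool.Agent.W_7d29a1_F Pool.Agent.W_7d29a1_X
open Pool.Agent.W_7d29a1_H (sl)
open Pool.Agent.W_7d29a1_HS (In wd)
open Pool.Agent.W_7d29a1_Z82 (rsh Gp Gp_nonneg Gp_sum_le measurable_Gp close)

noncomputable section

variable {μ : Measure ℝ} {s : ℝ}

/-- The free end weight is at most the fixed end weight. -/
theorem GS_le_Gp (η : Env) {n : ℕ} {S : Finset ℕ} : GS μ s η n S ≤ Gp μ η n (pos S n) S := by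
  have h0 := pos_nonneg S n
  have h1 := pos_le S n
  have hW : 0 < W μ s η 0 n (pos S n) := W_pos (μ := μ) (s := s) η 0 h0 h1
  have h2 : W μ s η 0 n (pos S n) ≤ Real.exp (V μ s η 0 n) := by
    rw [exp_V]
    unfold WS
    exact single_le_sum (f := fun y => W μ s η 0 n y) (fun y _ => W_nonneg _ _ _ _) (mem_Icc.2 ⟨h0, h1⟩)
  unfold GS Gp
  rw [if_pos rfl]
  refine (div_le_div_of_nonneg_left (pth_nonneg _ _ _) hW h2).trans (le_of_eq ?_)
  unfold pth W WR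
  rw [mul_div_mul_left _ _ (Real.exp_pos _).ne', mul_div_mul_left _ _ (Real.exp_pos _).ne']

theorem GS_le_sum (η : Env) (n : ℕ) (S : Finset ℕ) : GS μ s η n S ≤ ∑ y ∈ Icc (0 : ℤ) n, Gp μ η n y S :=
  (GS_le_Gp η).trans (single_le_sum (f := fun y => Gp μ η n y S) (fun _ _ => Gp_nonneg _ _ _ _)
    (mem_Icc.2 ⟨pos_nonneg S n, pos_le S n⟩))

theorem rsh_sh (x : ℤ) (η : Env) : rsh (fun _ => -x) η = sh (0, x) η := by
  funext p
  show η (p.1, p.2 - -x) = η (p + (0, x))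
  congr 1
  refine Prod.ext ?_ ?_
  · show p.1 = p.1 + 0
    ring
  · show p.2 - -x = p.2 + x
    ring

/-- Two polymers with free ends are at most the sum over the fixed ends. -/
theorem PP_le_Gp (x : ℤ) (n : ℕ) (η : Env) {F : Finset ℕ → Finset ℕ → ℝ} (hF : ∀ S S', 0 ≤ F S S') :
    PP μ s x n η F ≤ ∑ y ∈ Icc (0 : ℤ) n, ∑ y' ∈ Icc (0 : ℤ) n, ∑ S ∈ (range n).powerset, Gp μ η n y S *
      ∑ S' ∈ (range n).powerset, Gp μ (rsh (fun _ => -x) η) n y' S' * F S S' := by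
  unfold PP
  have h1 : ∀ S ∈ (range n).powerset, GS μ s η n S * ∑ S' ∈ (range n).powerset, GS μ s (sh (0, x) η) n S' * F S S' ≤
      ∑ y ∈ Icc (0 : ℤ) n, ∑ y' ∈ Icc (0 : ℤ) n, Gp μ η n y S *
        ∑ S' ∈ (range n).powerset, Gp μ (rsh (fun _ => -x) η) n y' S' * F S S' := by
    intro S _
    have h2 : ∑ S' ∈ (range n).powerset, GS μ s (sh (0, x) η) n S' * F S S' ≤
        ∑ y' ∈ Icc (0 : ℤ) n, ∑ S' ∈ (range n).powerset, Gp μ (rsh (fun _ => -x) η) n y' S' * F S S' := by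
      rw [sum_comm]
      refine sum_le_sum fun S' _ => ?_
      rw [← sum_mul, rsh_sh]
      exact mul_le_mul_of_nonneg_right (GS_le_sum _ _ _) (hF S S')
    have h3 : 0 ≤ ∑ S' ∈ (range n).powerset, GS μ s (sh (0, x) η) n S' * F S S' :=
      sum_nonneg fun S' _ => mul_nonneg (GS_nonneg _ _ _) (hF S S')
    refine (mul_le_mul (GS_le_sum η n S) h2 h3 (sum_nonneg fun y _ => Gp_nonneg _ _ _ _)).trans (le_of_eq ?_)
    rw [sum_mul]
    refine sum_congr rfl fun y _ => ?_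
    rw [mul_sum]
  refine (sum_le_sum h1).trans (le_of_eq ?_)
  rw [sum_comm]
  refine sum_congr rfl fun y _ => ?_
  rw [sum_comm]

variable [IsProbabilityMeasure μ]

theorem integrable_Gp2 (x : ℤ) (n : ℕ) (y y' : ℤ) {F : Finset ℕ → Finset ℕ → ℝ} (hF : ∀ S S', 0 ≤ F S S' ∧ F S S' ≤ 1) :
    Integrable (fun η : Env => ∑ S ∈ (range n).powerset, Gp μ η n y S *
      ∑ S' ∈ (range n).powerset, Gp μ (rsh (fun _ => -x) η) n y' S' * F S S') (law μ) := by
  refine Integrable.of_bound (Finset.measurable_fun_sum _ fun S _ => (measurable_Gp n y S).mul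
    (Finset.measurable_fun_sum _ fun S' _ => ((measurable_Gp n y' S').comp
      (Pool.Agent.W_7d29a1_Z82.measurable_rsh _)).mul_const _)).aestronglyMeasurable 1 (Filter.Eventually.of_forall fun η => ?_)
  have h1 : ∀ S, 0 ≤ ∑ S' ∈ (range n).powerset, Gp μ (rsh (fun _ => -x) η) n y' S' * F S S' :=
    fun S => sum_nonneg fun S' _ => mul_nonneg (Gp_nonneg _ _ _ _) (hF S S').1
  have h2 : ∀ S, ∑ S' ∈ (range n).powerset, Gp μ (rsh (fun _ => -x) η) n y' S' * F S S' ≤ 1 := fun S => by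
    refine le_trans (sum_le_sum fun S' _ => ?_) (Gp_sum_le (μ := μ) (rsh (fun _ => -x) η) n y')
    have := mul_le_mul_of_nonneg_left (hF S S').2 (Gp_nonneg (μ := μ) (rsh (fun _ => -x) η) n y' S')
    linarith
  rw [Real.norm_eq_abs, abs_of_nonneg (sum_nonneg fun S _ => mul_nonneg (Gp_nonneg _ _ _ _) (h1 S))]
  refine le_trans (sum_le_sum fun S _ => ?_) (Gp_sum_le (μ := μ) η n y)
  have := mul_le_mul_of_nonneg_left (h2 S) (Gp_nonneg (μ := μ) η n y S)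
  linarith

variable {c C : ℝ} {n₀ : ℕ}

open Classical in
/-- **The fresh tube for free ends.** -/
theorem fresh_free (h : In μ s c C n₀) {ε : ℝ} (hε : 0 < ε) (hε1 : ε ≤ 1) : ∃ ε₁ c₂ : ℝ, 0 < ε₁ ∧ 0 < c₂ ∧
    ∃ N₀ : ℕ, ∀ n : ℕ, N₀ ≤ n → ∃ n' : ℕ, n' ≤ n / 2 ∧ n / 2 ≤ 2 * n' ∧
    ∀ ρ : ℕ, (ρ : ℝ) ≤ (n : ℝ) ^ (-ε) * wd μ s (n / 2) → ∀ x : ℤ,
    E2 μ s x n (fun S S' => if (∀ i ≤ n', |dst x S S' i| ≤ ρ) ∧ (∀ i, 1 ≤ i → i ≤ n' → dst x S S' i ≠ 0) ∧
      |(pos S' n' : ℝ) - sl μ s * n'| ≤ (n : ℝ) ^ ε₁ * wd μ s (n / 2) then 1 else 0) ≤ Real.exp (-(n : ℝ) ^ c₂) := by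
  obtain ⟨ε₁, c₂, hε₁, hc₂, L₀, hL₀, hf⟩ := Pool.Agent.W_7d29a1_HZ.Z82.fresh_exp h (ε := ε / 2) (by positivity) (by linarith)
  have hev : ∀ᶠ n : ℕ in Filter.atTop, ((n : ℝ) + 1) * ((n : ℝ) + 1) ≤ Real.exp ((n : ℝ) ^ (c₂ / 2)) ∧
      (n : ℝ) + 2 ≤ Real.exp ((n : ℝ) ^ c₂) ∧ 2 * (n : ℝ) ^ (c₂ / 2) ≤ (n : ℝ) ^ c₂ ∧ (n : ℝ) ^ (ε / 2) ≤ ((n / 2 : ℕ) : ℝ) := by
    have t1 := tendsto_natCast_atTop_atTop (R := ℝ)
    have a1 : ∀ e : ℝ, 0 < e → ∀ᶠ n : ℕ in Filter.atTop, ((n : ℝ) + 1) * ((n : ℝ) + 1) ≤ Real.exp ((n : ℝ) ^ e) := by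
      intro e he
      have h1 : Filter.Tendsto (fun n : ℕ => Real.exp ((n : ℝ) ^ e) / ((n : ℝ) ^ e) ^ (4 / e)) Filter.atTop Filter.atTop :=
        (tendsto_exp_div_rpow_atTop (4 / e)).comp ((tendsto_rpow_atTop he).comp t1)
      filter_upwards [h1.eventually_ge_atTop 1, Filter.eventually_ge_atTop 2] with n hn hn2
      have hnR : (2 : ℝ) ≤ n := by exact_mod_cast hn2
      have hn0 : (0 : ℝ) < n := by linarith
      have e1 : ((n : ℝ) ^ e) ^ (4 / e) = (n : ℝ) ^ 4 := by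
        rw [← Real.rpow_mul hn0.le]
        have : e * (4 / e) = ((4 : ℕ) : ℝ) := by
          field_simp
          norm_num
        rw [this, Real.rpow_natCast]
      rw [e1, one_le_div (by positivity)] at hn
      refine le_trans ?_ hn
      have h3 : (n : ℝ) + 1 ≤ n ^ 2 := by nlinarith
      calc ((n : ℝ) + 1) * ((n : ℝ) + 1) ≤ n ^ 2 * n ^ 2 := mul_le_mul h3 h3 (by positivity) (by positivity)
        _ = (n : ℝ) ^ 4 := by ring
    have a2 := a1 (c₂ / 2) (by positivity)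
    have a3 := a1 c₂ hc₂
    have a4 : ∀ᶠ n : ℕ in Filter.atTop, (2 : ℝ) ≤ (n : ℝ) ^ (c₂ / 2) :=
      ((tendsto_rpow_atTop (show 0 < c₂ / 2 by positivity)).comp t1).eventually_ge_atTop 2
    have a5 : ∀ᶠ n : ℕ in Filter.atTop, (4 : ℝ) ≤ (n : ℝ) ^ (1 - ε / 2) :=
      ((tendsto_rpow_atTop (show 0 < 1 - ε / 2 by linarith)).comp t1).eventually_ge_atTop 4
    filter_upwards [a2, a3, a4, a5, Filter.eventually_ge_atTop 4] with n h2 h3 h4 h5 hn4
    have hnR : (4 : ℝ) ≤ n := by exact_mod_cast hn4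
    have hn0 : (0 : ℝ) < n := by linarith
    refine ⟨h2, le_trans ?_ h3, ?_, ?_⟩
    · nlinarith
    · have e1 : (n : ℝ) ^ c₂ = (n : ℝ) ^ (c₂ / 2) * (n : ℝ) ^ (c₂ / 2) := by
        rw [← Real.rpow_add hn0]
        congr 1
        ring
      rw [e1]
      exact mul_le_mul_of_nonneg_right h4 (by positivity)
    · have e1 : (n : ℝ) ^ (ε / 2) * (n : ℝ) ^ (1 - ε / 2) = n := by
        rw [← Real.rpow_add hn0]
        have : ε / 2 + (1 - ε / 2) = 1 := by ring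
        rw [this, Real.rpow_one]
      have h6 : (n : ℝ) ^ (ε / 2) * 4 ≤ n := by
        calc (n : ℝ) ^ (ε / 2) * 4 ≤ (n : ℝ) ^ (ε / 2) * (n : ℝ) ^ (1 - ε / 2) := mul_le_mul_of_nonneg_left h5 (by positivity)
          _ = n := e1
      have h7 : n ≤ 2 * (n / 2) + 1 := by omega
      have h8 : (n : ℝ) ≤ 2 * ((n / 2 : ℕ) : ℝ) + 1 := by exact_mod_cast h7
      have h9 : 0 < (n : ℝ) ^ (ε / 2) := by positivity
      have h10 : (1 : ℝ) ≤ (n : ℝ) ^ (ε / 2) := Real.one_le_rpow (by linarith) (by positivity)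
      linarith
  obtain ⟨N₁, hN₁⟩ := Filter.eventually_atTop.1 hev
  refine ⟨ε₁, c₂ / 2, hε₁, by positivity, max N₁ (max ⌈L₀⌉₊ 1), fun n hn => ?_⟩
  have g1 : N₁ ≤ n := (le_max_left _ _).trans hn
  have g2 : ⌈L₀⌉₊ ≤ n := (le_max_left _ _).trans ((le_max_right _ _).trans hn)
  have g3 : 1 ≤ n := (le_max_right _ _).trans ((le_max_right _ _).trans hn)
  have g4 : L₀ ≤ n := (Nat.le_ceil _).trans (by exact_mod_cast g2)
  obtain ⟨k1, k2, k3, k4⟩ := hN₁ n g1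
  have hn1 : (1 : ℝ) ≤ n := by exact_mod_cast g3
  obtain ⟨n', hn', hn'', hF⟩ := hf n g4 (n / 2) k4
  refine ⟨n', hn', hn'', fun ρ hρ x => ?_⟩
  have hρ' : (ρ : ℝ) ≤ (n : ℝ) ^ (-(ε / 2)) * wd μ s (n / 2) := by
    refine hρ.trans (mul_le_mul_of_nonneg_right ?_ (Pool.Agent.W_7d29a1_HS.In.wd_nonneg h _))
    exact Real.rpow_le_rpow_of_exponent_le hn1 (by linarith)
  -- the pairs (start, displacement)
  obtain ⟨Q, hQ⟩ : ∃ Q : Finset (ℤ × ℤ), Q = ((Icc (0 : ℤ) n').filter fun z : ℤ =>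
    |(z : ℝ) - sl μ s * n'| ≤ (n : ℝ) ^ ε₁ * wd μ s (n / 2)).image fun z => ((0 : ℤ), z) := ⟨_, rfl⟩
  have hQc : (Q.card : ℝ) ≤ Real.exp ((n : ℝ) ^ c₂) := by
    refine le_trans ?_ k2
    have h1 : Q.card ≤ n' + 1 := by
      rw [hQ]
      refine card_image_le.trans ((card_filter_le _ _).trans ?_)
      rw [Int.card_Icc]
      omega
    have h2 : Q.card ≤ n + 2 := by omega
    exact_mod_cast h2
  have hQp : ∀ p ∈ Q, 0 ≤ p.2 ∧ p.2 ≤ n' ∧ |(p.2 : ℝ) - sl μ s * n'| ≤ (n : ℝ) ^ ε₁ * wd μ s (n / 2) := by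
    intro p hp
    rw [hQ, mem_image] at hp
    obtain ⟨z, hz, rfl⟩ := hp
    rw [mem_filter, mem_Icc] at hz
    exact ⟨hz.1.1, hz.1.2, hz.2⟩
  have hmain : ∀ y y' : ℤ, ∫ η, ∑ S ∈ (range n).powerset, Gp μ η n y S *
      ∑ S' ∈ (range n).powerset, Gp μ (rsh (fun _ => -x) η) n y' S' *
        (if close (fun _ => -x) ρ 0 n' Q S S' then 1 else 0) ∂(law μ) ≤ Real.exp (-(n : ℝ) ^ c₂) := by
    intro y y'
    have h1 := hF ρ hρ' 0 (n - n') n (fun _ => -x) y y' Q hQc hQp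
    have e1 : 0 + n' + (n - n') = n := by omega
    rw [e1] at h1
    exact h1
  have hF01 : ∀ S S' : Finset ℕ, (0 : ℝ) ≤ (if close (fun _ => -x) ρ 0 n' Q S S' then 1 else 0) ∧
      (if close (fun _ => -x) ρ 0 n' Q S S' then (1 : ℝ) else 0) ≤ 1 := fun S S' => by
    constructor <;> split_ifs <;> norm_num
  -- the event
  have hsub : E2 μ s x n (fun S S' => if (∀ i ≤ n', |dst x S S' i| ≤ ρ) ∧ (∀ i, 1 ≤ i → i ≤ n' → dst x S S' i ≠ 0) ∧
      |(pos S' n' : ℝ) - sl μ s * n'| ≤ (n : ℝ) ^ ε₁ * wd μ s (n / 2) then 1 else 0) ≤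
      E2 μ s x n (fun S S' => if close (fun _ => -x) ρ 0 n' Q S S' then 1 else 0) := by
    refine E2_mono fun S _ S' _ => ?_
    by_cases hc : (∀ i ≤ n', |dst x S S' i| ≤ ρ) ∧ (∀ i, 1 ≤ i → i ≤ n' → dst x S S' i ≠ 0) ∧
      |(pos S' n' : ℝ) - sl μ s * n'| ≤ (n : ℝ) ^ ε₁ * wd μ s (n / 2)
    · rw [if_pos hc, if_pos]
      obtain ⟨c1, c2, c3⟩ := hc
      refine ⟨fun i hi => ?_, fun i hi => ?_, ?_⟩
      · have := c1 i hi
        unfold dst at this
        rw [Nat.zero_add]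
        have e1 : pos S' i - -x - pos S i = x + pos S' i - pos S i := by ring
        rw [e1]
        exact this
      · have := c2 (i + 1) (by omega) (by omega)
        unfold dst at this
        rw [Nat.zero_add]
        intro h1
        apply this
        linarith
      · rw [Nat.zero_add, pos_zero, sub_zero, hQ, mem_image]
        refine ⟨pos S' n', ?_, rfl⟩
        rw [mem_filter, mem_Icc]
        exact ⟨⟨pos_nonneg _ _, pos_le _ _⟩, c3⟩
    · rw [if_neg hc]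
      exact (hF01 S S').1
  refine hsub.trans ?_
  have h2 : E2 μ s x n (fun S S' => if close (fun _ => -x) ρ 0 n' Q S S' then 1 else 0) ≤
      ∑ y ∈ Icc (0 : ℤ) n, ∑ y' ∈ Icc (0 : ℤ) n, Real.exp (-(n : ℝ) ^ c₂) := by
    unfold E2
    refine (integral_mono (integrable_PP x n _) (integrable_finsetSum _ fun y _ => integrable_finsetSum _ fun y' _ =>
      integrable_Gp2 x n y y' hF01) fun η => PP_le_Gp x n η fun S S' => (hF01 S S').1).trans ?_
    rw [integral_finsetSum _ fun y _ => integrable_finsetSum _ fun y' _ => integrable_Gp2 x n y y' hF01]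
    refine sum_le_sum fun y _ => ?_
    rw [integral_finsetSum _ fun y' _ => integrable_Gp2 x n y y' hF01]
    exact sum_le_sum fun y' _ => hmain y y'
  refine h2.trans ?_
  rw [sum_const, sum_const, Int.card_Icc]
  have e1 : ((n : ℤ) + 1 - 0).toNat = n + 1 := by omega
  rw [e1, nsmul_eq_mul, nsmul_eq_mul]
  push_cast
  rw [← mul_assoc]
  refine (mul_le_mul_of_nonneg_right k1 (Real.exp_pos _).le).trans ?_
  rw [← Real.exp_add]
  refine Real.exp_le_exp.2 ?_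
  linarith

end

end Pool.Agent.W_7d29a1_LB
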