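import Pool.Agent.W_7d29a1_LB.Pow29
import Pool.Agent.W_7d29a1_HK20.MainK20
import Pool.Agent.W_7d29a1_HK20.FinK20
import Pool.Agent.W_7d29a1_HM.Conv

/-!
STORM LB + UB (helper29): the scaling relation `w_n = σ_n ^ (2 + o(1))` at every force.
-/

set_option autoImplicit false

namespace Pool.Agent.W_7d29a1_LB

open MeasureTheory ProbabilityTheory Filter Topology
open Pool.Agent.W_7d29a1_F Pool.Agent.W_7d29a1_h4g Pool.Agent.W_7d29a1_H Pool.Agent.W_7d29a1_HS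
open Pool.Agent.W_7d29a1_HK20
open Pool.Agent.W_7d29a1_SR (toF mp_toF)
open Pool.Agent.W_7d29a1_h47 (EM Nondeg Lam LamN walk energy endMGF forceP forceE EM_of Nondeg_of map_toEnv tendsto_logZ
  log_endMGF)

/-- **The upper bound of the variance** at the tilt `s`: `Var ≤ n ^ ε w_n`. -/
def UB20 (μ : Measure ℝ) (s : ℝ) : Prop :=
  ∀ ε : ℝ, 0 < ε → ∃ n₁ : ℕ, ∀ n : ℕ, n₁ ≤ n → EE μ s n ^ 2 ≤ (n : ℝ) ^ ε * wd μ s n

section law

variable {Ω : Type*} [MeasurableSpace Ω] {P : Measure Ω} [IsProbabilityMeasure P] {ω : ℕ × ℤ → Ω → ℝ} {β h : ℝ}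
  {μ : Measure ℝ} [IsProbabilityMeasure μ] {c C : ℝ} {n₀ : ℕ}

/-- `σ_n ^ 2 ≤ n ^ ε w_n`. -/
theorem sgm_wd29 (hI : In μ (2 * h) c C n₀) (f : Fac μ (2 * h)) (hU : UB20 μ (2 * h))
    (hmp : MeasurePreserving (fun x => toF β fun p => ω p x) P (law μ)) {ε : ℝ} (hε : 0 < ε) :
    ∀ᶠ n : ℕ in atTop, sgm P β h ω n ^ 2 ≤ (n : ℝ) ^ ε * wd μ (2 * h) n := by
  obtain ⟨a, A, ha, hA, h1⟩ := sgmS (P := P) (β := β) (ω := ω) f hmp
  obtain ⟨n₁, h2⟩ := hU (ε / 2) (by positivity)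
  filter_upwards [eventually_ge_atTop 1, eventually_ge_atTop n₁, ev_pow20 (A ^ 2) (show 0 < ε / 2 by positivity),
    wd_large20 hI 0] with n h4 h5 h6 h0
  have hn : (0 : ℝ) < n := by exact_mod_cast h4
  obtain ⟨h8, h9⟩ := h1 n h4
  have hE := EE_pos (μ := μ) (s := 2 * h) n
  have hs : 0 < sgm P β h ω n := lt_of_lt_of_le (by positivity) h8
  have e1 : (n : ℝ) ^ ε = (n : ℝ) ^ (ε / 2) * (n : ℝ) ^ (ε / 2) := by
    rw [← Real.rpow_add hn]
    ring_nf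
  have hp : 0 ≤ (n : ℝ) ^ (ε / 2) := Real.rpow_nonneg hn.le _
  calc sgm P β h ω n ^ 2 ≤ (A * EE μ (2 * h) n) ^ 2 := pow_le_pow_left₀ hs.le h9 2
    _ = A ^ 2 * EE μ (2 * h) n ^ 2 := by ring
    _ ≤ (n : ℝ) ^ (ε / 2) * ((n : ℝ) ^ (ε / 2) * wd μ (2 * h) n) :=
        mul_le_mul h6 (h2 n h5) (by positivity) hp
    _ = (n : ℝ) ^ ε * wd μ (2 * h) n := by
        rw [e1]
        ring

/-- The upper half of the scaling relation at the force `h`: the moments of the path. -/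
theorem scaleUp29 (hI : In μ (2 * h) c C n₀) (f : Fac μ (2 * h)) (hL : LB20 μ (2 * h)) (hmeas : ∀ p, Measurable (ω p))
    (hmp : MeasurePreserving (fun x => toF β fun p => ω p x) P (law μ)) (q : ℕ) {ε : ℝ} (hε : 0 < ε) :
    ∀ᶠ n : ℕ in atTop, ∫ x, forceE β h (fun p => ω p x) n (fun s => mx (vel μ h) s ^ q) ∂P ≤
      (n : ℝ) ^ ε * (sgm P β h ω n ^ 2) ^ q := by
  obtain ⟨b, B, hb, hB, N, hN⟩ := maxS (P := P) (β := β) (ω := ω) f hmeas hmp (cmp_wd20 hI) q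
  have hd : 0 < ε / (q + 1) := by positivity
  filter_upwards [eventually_ge_atTop N, eventually_ge_atTop 1, wd_sgm29 (P := P) (β := β) (ω := ω) hI f hL hmp hd 1,
    ev_pow20 B hd, wd_large20 hI 0] with n h1 h2 h3 h4 h0
  have hn : (0 : ℝ) < n := by exact_mod_cast h2
  rw [one_mul] at h3
  have e1 : (n : ℝ) ^ ε = (n : ℝ) ^ (ε / (q + 1)) * ((n : ℝ) ^ (ε / (q + 1))) ^ q := by
    rw [← Real.rpow_natCast, ← Real.rpow_mul hn.le, ← Real.rpow_add hn]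
    congr 1
    field_simp
    ring
  refine (hN n h1).2.trans ?_
  calc B * wd μ (2 * h) n ^ q ≤ (n : ℝ) ^ (ε / (q + 1)) * ((n : ℝ) ^ (ε / (q + 1)) * sgm P β h ω n ^ 2) ^ q :=
        mul_le_mul h4 (pow_le_pow_left₀ h0 h3 q) (by positivity) (Real.rpow_nonneg hn.le _)
    _ = (n : ℝ) ^ ε * (sgm P β h ω n ^ 2) ^ q := by
        rw [e1, mul_pow]
        ring

/-- The lower half of the scaling relation at the force `h`: the moments of the end point. -/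
theorem scaleLow29 (hI : In μ (2 * h) c C n₀) (f : Fac μ (2 * h)) (hU : UB20 μ (2 * h)) (hmeas : ∀ p, Measurable (ω p))
    (hmp : MeasurePreserving (fun x => toF β fun p => ω p x) P (law μ))
    (hE : End20 P β h (vel μ h) ω (wd μ (2 * h))) (q : ℕ) {ε : ℝ} (hε : 0 < ε) :
    ∀ᶠ n : ℕ in atTop, (n : ℝ) ^ (-ε) * (sgm P β h ω n ^ 2) ^ q ≤
      ∫ x, forceE β h (fun p => ω p x) n (fun s => |(walk s n : ℝ) - vel μ h * n| ^ q) ∂P := by
  obtain ⟨a, ha, h1⟩ := hE.mom hmeas (wd_large20 hI 0) q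
  have hd : 0 < ε / (q + 1) := by positivity
  filter_upwards [h1, eventually_ge_atTop 1, sgm_wd29 (P := P) (β := β) (ω := ω) hI f hU hmp hd,
    ev_pow20 (1 / a) hd, wd_large20 hI 0] with n h1 h2 h3 h4 h0
  have hn : (0 : ℝ) < n := by exact_mod_cast h2
  have e1 : (n : ℝ) ^ ε = (n : ℝ) ^ (ε / (q + 1)) * ((n : ℝ) ^ (ε / (q + 1))) ^ q := by
    rw [← Real.rpow_natCast, ← Real.rpow_mul hn.le, ← Real.rpow_add hn]
    congr 1
    field_simp
    ring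
  refine le_trans ?_ h1
  have hp : 0 < (n : ℝ) ^ (ε / (q + 1)) := Real.rpow_pos_of_pos hn _
  rw [Real.rpow_neg hn.le, inv_mul_le_iff₀ (Real.rpow_pos_of_pos hn _)]
  rw [div_le_iff₀ ha] at h4
  calc (sgm P β h ω n ^ 2) ^ q ≤ ((n : ℝ) ^ (ε / (q + 1)) * wd μ (2 * h) n) ^ q := pow_le_pow_left₀ (sq_nonneg _) h3 q
    _ = 1 * (((n : ℝ) ^ (ε / (q + 1))) ^ q * wd μ (2 * h) n ^ q) := by rw [mul_pow, one_mul]
    _ ≤ ((n : ℝ) ^ (ε / (q + 1)) * a) * (((n : ℝ) ^ (ε / (q + 1))) ^ q * wd μ (2 * h) n ^ q) :=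
        mul_le_mul_of_nonneg_right h4 (by positivity)
    _ = (n : ℝ) ^ ε * (a * wd μ (2 * h) n ^ q) := by
        rw [e1]
        ring

end law

open Pool.Agent.W_7d29a1_HM

/-- **The scaling relation at every force**, in the objects of `ModelH`: the moments of the path of length `n` are those of the
variance of `log Z_n`, up to `n ^ ε`. -/
theorem scale29 (hL : ∀ (μ : Measure ℝ) [IsProbabilityMeasure μ], EM μ → Nondeg μ → ∀ s, LB20 μ s)
    (hU : ∀ (μ : Measure ℝ) [IsProbabilityMeasure μ], EM μ → Nondeg μ → ∀ s, UB20 μ s)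
    {Ω : Type*} [MeasurableSpace Ω] (P : Measure Ω) [IsProbabilityMeasure P]
    (ω : ℕ × ℤ → Ω → ℝ) (hmeas : ∀ p, Measurable (ω p)) (hindep : iIndepFun ω P)
    (hident : ∀ p q, IdentDistrib (ω p) (ω q) P P) (hnc : ¬ ∃ c : ℝ, ∀ᵐ x ∂P, ω (0, 0) x = c)
    (hexp : ∀ b : ℝ, Integrable (fun x => Real.exp (b * ω (0, 0) x)) P) {β : ℝ} (hβ : 0 < β) {lam : ℝ → ℝ}
    (hlim : ∀ h, ∀ᵐ x ∂P, Tendsto (fun n : ℕ => Real.log (endMGF β h (fun p => ω p x) n) / n) atTop (𝓝 (lam h)))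
    (h : ℝ) (q : ℕ) {ε : ℝ} (hε : 0 < ε) :
    ∀ᶠ n : ℕ in atTop,
      (n : ℝ) ^ (-ε) * (Var[fun x => Real.log (fZ β h (fun p => ω p x) n); P]) ^ q ≤
        ∫ x, fE β h (fun p => ω p x) n (fun s => |(walk s n : ℝ) - deriv lam h * n| ^ q) ∂P ∧
      ∫ x, fE β h (fun p => ω p x) n (fun s => |(walk s n : ℝ) - deriv lam h * n| ^ q) ∂P ≤
        ∫ x, fE β h (fun p => ω p x) n (fun s => mxv (deriv lam h) s ^ q) ∂P ∧
      ∫ x, fE β h (fun p => ω p x) n (fun s => mxv (deriv lam h) s ^ q) ∂P ≤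
        (n : ℝ) ^ ε * (Var[fun x => Real.log (fZ β h (fun p => ω p x) n); P]) ^ q := by
  obtain ⟨μ, hμdef⟩ : ∃ μ : Measure ℝ, μ = P.map fun x => β * ω (0, 0) x := ⟨_, rfl⟩
  have hm0 : Measurable fun x => β * ω (0, 0) x := (hmeas _).const_mul β
  have hprob : IsProbabilityMeasure μ := by
    rw [hμdef]
    exact Measure.isProbabilityMeasure_map hm0.aemeasurable
  have hμ : EM μ := by
    rw [hμdef]
    exact EM_of (hmeas _) hexp β
  have hnd : Nondeg μ := by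
    rw [hμdef]
    exact Nondeg_of (hmeas _) hnc hβ
  have hmpE := map_toEnv hmeas hindep hident β
  rw [← hμdef] at hmpE
  have hmp := mp_toF hmeas hindep hident β
  rw [← hμdef] at hmp
  have hI := inp20 μ hμ hnd
  have hE := end20 hmeas μ hμ hnd hmp
  have hid : lam = LamN μ := by
    funext h
    have g1 := hmpE.quasiMeasurePreserving.ae (tendsto_logZ hμ h)
    have g2 := hmpE.quasiMeasurePreserving.ae (tendsto_logZ hμ 0)
    obtain ⟨x, hx1, hx2, hx3⟩ := (g1.and (g2.and (hlim h))).exists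
    refine tendsto_nhds_unique hx3 ((hx1.sub hx2).congr fun n => ?_)
    rw [log_endMGF, sub_div]
  have hdv : deriv lam h = vel μ h := by
    rw [hid]
    exact ((Lam_hasDeriv20 hμ hnd h).sub_const (Lam μ 0)).deriv
  obtain ⟨c₁, C₁, n₁, hi⟩ := hI.inn (2 * h)
  have f := hI.fac (2 * h)
  have hsq : ∀ n : ℕ, sgm P β h ω n ^ 2 = Var[fun x => Real.log (fZ β h (fun p => ω p x) n); P] := fun n =>
    Real.sq_sqrt (variance_nonneg _ _)
  filter_upwards [scaleUp29 (P := P) (β := β) (ω := ω) hi f (hL μ hμ hnd (2 * h)) hmeas hmp q hε,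
    scaleLow29 (P := P) (β := β) (ω := ω) hi f (hU μ hμ hnd (2 * h)) hmeas hmp (hE h) q hε] with n h1 h2
  rw [hsq n] at h1 h2
  rw [hdv]
  simp only [fE_eq, mxv_eq]
  refine ⟨h2, integral_mono (forceE_integrable hmeas β h n _) (forceE_integrable hmeas β h n _) fun x =>
    forceE_mono' β h _ n fun s => pow_le_pow_left₀ (abs_nonneg _) ?_ q, h1⟩
  exact Finset.le_sup' (fun i => |(walk s i : ℝ) - vel μ h * i|) (Finset.mem_range.2 (Nat.lt_succ_self n))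

end Pool.Agent.W_7d29a1_LB
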