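import Mathlib

/-!
MP_7d29a1_pr, STORM LB, section 5 (depth pigeonhole), pure part.
Windows `I_k = [t0 + k h, t0 + (k+1) h)`, `k < K`; `dep i` = depth in the strip of the path at the
row `i` (`≤ 0` outside); regular: in a window where the depth is positive at some row it varies by
at most `o`.
-/

open Finset

namespace Pool.Agent.W_7d29a1_LB

/-- rows of the window number `k` -/
def win (t0 h k : ℕ) : Finset ℕ := Finset.Ico (t0 + k * h) (t0 + (k + 1) * h)

theorem card_win (t0 h k : ℕ) : (win t0 h k).card = h := by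
  unfold win; rw [Nat.card_Ico]; rw [add_mul, one_mul]; omega

/-- rows of window `k` with depth at least `l o` -/
def vis (dep : ℕ → ℤ) (t0 h : ℕ) (o : ℤ) (l k : ℕ) : Finset ℕ :=
  (win t0 h k).filter (fun i => (l : ℤ) * o ≤ dep i)

/-- number of visited cells at the level `l` -/
def Nl (dep : ℕ → ℤ) (t0 h K : ℕ) (o : ℤ) (l : ℕ) : ℕ :=
  ((Finset.range K).filter (fun k => (vis dep t0 h o l k).card ≠ 0)).card

/-- number of visited sites at the level `l` -/
def Tl (dep : ℕ → ℤ) (t0 h K : ℕ) (o : ℤ) (l : ℕ) : ℕ :=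
  ∑ k ∈ Finset.range K, (vis dep t0 h o l k).card

/-- in every window with a row of positive depth the depth varies by at most `o` -/
def DReg (dep : ℕ → ℤ) (t0 h K : ℕ) (o : ℤ) : Prop :=
  ∀ k < K, ∀ i ∈ win t0 h k, ∀ j ∈ win t0 h k, 0 < dep i → dep i ≤ dep j + o

theorem Tl_ge {dep : ℕ → ℤ} {t0 h K : ℕ} {o : ℤ} (ho : 0 < o) (hr : DReg dep t0 h K o) (l : ℕ) :
    h * Nl dep t0 h K o (l + 1) ≤ Tl dep t0 h K o l := by
  unfold Nl Tl
  rw [Finset.card_filter, Finset.mul_sum]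
  apply Finset.sum_le_sum
  intro k hk
  rw [Finset.mem_range] at hk
  split_ifs with h1
  · rw [mul_one]
    obtain ⟨i, hi⟩ := Finset.card_pos.mp (Nat.pos_of_ne_zero h1)
    unfold vis at hi
    rw [Finset.mem_filter] at hi
    have hsub : win t0 h k ⊆ vis dep t0 h o l k := by
      intro j hj
      unfold vis
      rw [Finset.mem_filter]
      refine ⟨hj, ?_⟩
      have hpos : 0 < dep i := by
        have : (0 : ℤ) < ((l + 1 : ℕ) : ℤ) * o := by positivity
        linarith [hi.2]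
      have := hr k hk i hi.1 j hj hpos
      have h2 := hi.2
      push_cast at h2
      nlinarith
    calc h = (win t0 h k).card := (card_win t0 h k).symm
      _ ≤ _ := Finset.card_le_card hsub
  · simp

theorem Nl_anti {dep : ℕ → ℤ} {t0 h K : ℕ} {o : ℤ} (ho : 0 < o) (l : ℕ) :
    Nl dep t0 h K o (l + 1) ≤ Nl dep t0 h K o l := by
  unfold Nl
  apply Finset.card_le_card
  intro k hk
  rw [Finset.mem_filter] at hk ⊢
  refine ⟨hk.1, ?_⟩
  obtain ⟨i, hi⟩ := Finset.card_pos.mp (Nat.pos_of_ne_zero hk.2)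
  apply Nat.pos_iff_ne_zero.mp
  apply Finset.card_pos.mpr
  refine ⟨i, ?_⟩
  unfold vis at hi ⊢
  rw [Finset.mem_filter] at hi ⊢
  refine ⟨hi.1, ?_⟩
  have h2 := hi.2
  push_cast at h2
  nlinarith

theorem Nl_le {dep : ℕ → ℤ} {t0 h K : ℕ} {o : ℤ} (l : ℕ) : Nl dep t0 h K o l ≤ K := by
  unfold Nl
  exact le_trans (Finset.card_filter_le _ _) (by rw [Finset.card_range])

/-- telescoping pigeonhole: a non increasing sequence from at most `X` to at least `1` in `r`
steps has a step with ratio at least `X^(-1/r)` -/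
theorem exists_ratio (N : ℕ → ℝ) (X : ℝ) (hX : 1 ≤ X) (r : ℕ) (hr : 1 ≤ r)
    (h1 : ∀ l, l ≤ r → 0 < N l) (hlast : 1 ≤ N r) (hfirst : N 0 ≤ X) :
    ∃ l < r, X ^ (-(1 / (r : ℝ))) ≤ N (l + 1) / N l := by
  by_contra hcon
  push Not at hcon
  set q : ℝ := X ^ (-(1 / (r : ℝ))) with hq
  have hqpos : 0 < q := Real.rpow_pos_of_pos (by linarith) _
  have hind : ∀ l, l ≤ r → N l ≤ q ^ l * N 0 := by
    intro l
    induction l with
    | zero => intro _; simp
    | succ l ih =>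
      intro hl
      have h2 := ih (by omega)
      have h3 := hcon l (by omega)
      rw [div_lt_iff₀ (h1 l (by omega))] at h3
      calc N (l + 1) ≤ q * N l := h3.le
        _ ≤ q * (q ^ l * N 0) := by gcongr
        _ = q ^ (l + 1) * N 0 := by ring
  have hstrict : N r < q ^ r * N 0 := by
    obtain ⟨s, rfl⟩ : ∃ s, r = s + 1 := ⟨r - 1, by omega⟩
    have h2 := hind s (by omega)
    have h3 := hcon s (by omega)
    rw [div_lt_iff₀ (h1 s (by omega))] at h3
    calc N (s + 1) < q * N s := h3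
      _ ≤ q * (q ^ s * N 0) := by gcongr
      _ = q ^ (s + 1) * N 0 := by ring
  have hqr : q ^ r = X⁻¹ := by
    rw [hq, ← Real.rpow_natCast, ← Real.rpow_mul (by linarith)]
    have : -(1 / (r : ℝ)) * (r : ℝ) = -1 := by
      have : (r : ℝ) ≠ 0 := by positivity
      field_simp
    rw [this, Real.rpow_neg_one]
  rw [hqr] at hstrict
  have : X⁻¹ * N 0 ≤ 1 := by
    rw [inv_mul_le_iff₀ (by linarith)]; linarith
  linarith

/-- **Section 5.** A regular path which reaches the depth `m o` in some window has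
`Σ_{1 ≤ l < m} T_l / N_l ≥ h X^(-1/(m-1))` for every `X ≥ max(1, K)`. -/
theorem depth_pigeon {dep : ℕ → ℤ} {t0 h K m : ℕ} {o : ℤ} {X : ℝ} (hm : 2 ≤ m) (ho : 0 < o)
    (hX1 : 1 ≤ X) (hX : (K : ℝ) ≤ X) (hr : DReg dep t0 h K o)
    (hreach : ∃ k < K, ∃ i ∈ win t0 h k, (m : ℤ) * o ≤ dep i) :
    (h : ℝ) * X ^ (-(1 / ((m - 1 : ℕ) : ℝ))) ≤
      ∑ l ∈ Finset.Ico 1 m, (Tl dep t0 h K o l : ℝ) / (Nl dep t0 h K o l : ℝ) := by
  classical
  have hNm : 1 ≤ Nl dep t0 h K o m := by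
    obtain ⟨k, hk, i, hi, hd⟩ := hreach
    apply Finset.card_pos.mpr
    refine ⟨k, ?_⟩
    rw [Finset.mem_filter]
    refine ⟨Finset.mem_range.mpr hk, ?_⟩
    apply Nat.pos_iff_ne_zero.mp
    apply Finset.card_pos.mpr
    exact ⟨i, by unfold vis; rw [Finset.mem_filter]; exact ⟨hi, hd⟩⟩
  have hanti : ∀ l, Nl dep t0 h K o (l + 1) ≤ Nl dep t0 h K o l := fun l => Nl_anti ho l
  have hmono : Antitone (fun l => Nl dep t0 h K o l) := antitone_nat_of_succ_le hanti
  have hpos : ∀ l, l ≤ m → 1 ≤ Nl dep t0 h K o l := fun l hl => le_trans hNm (hmono hl)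
  set N : ℕ → ℝ := fun l => (Nl dep t0 h K o (l + 1) : ℝ) with hN
  obtain ⟨l, hl, hratio⟩ := exists_ratio N X hX1 (m - 1) (by omega)
    (by intro l hl; have := hpos (l + 1) (by omega); simp only [hN]; exact_mod_cast this)
    (by
      simp only [hN]
      have : m - 1 + 1 = m := by omega
      rw [this]; exact_mod_cast hNm)
    (by
      simp only [hN]
      have h1 : Nl dep t0 h K o (0 + 1) ≤ K := Nl_le 1
      have h2 : (Nl dep t0 h K o (0 + 1) : ℝ) ≤ (K : ℝ) := by exact_mod_cast h1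
      linarith)
  have hmem : l + 1 ∈ Finset.Ico 1 m := by rw [Finset.mem_Ico]; omega
  have hterm : (h : ℝ) * X ^ (-(1 / ((m - 1 : ℕ) : ℝ))) ≤
      (Tl dep t0 h K o (l + 1) : ℝ) / (Nl dep t0 h K o (l + 1) : ℝ) := by
    have h1 : (h : ℝ) * (Nl dep t0 h K o (l + 1 + 1) : ℝ) ≤ (Tl dep t0 h K o (l + 1) : ℝ) := by
      exact_mod_cast Tl_ge ho hr (l + 1)
    have hp : (0 : ℝ) < (Nl dep t0 h K o (l + 1) : ℝ) := by
      have := hpos (l + 1) (by omega); exact_mod_cast this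
    calc (h : ℝ) * X ^ (-(1 / ((m - 1 : ℕ) : ℝ)))
        ≤ (h : ℝ) * (N (l + 1) / N l) := by gcongr
      _ = ((h : ℝ) * (Nl dep t0 h K o (l + 1 + 1) : ℝ)) / (Nl dep t0 h K o (l + 1) : ℝ) := by
          simp only [hN]; ring
      _ ≤ _ := by gcongr
  calc (h : ℝ) * X ^ (-(1 / ((m - 1 : ℕ) : ℝ)))
      ≤ (Tl dep t0 h K o (l + 1) : ℝ) / (Nl dep t0 h K o (l + 1) : ℝ) := hterm
    _ ≤ _ := Finset.single_le_sum (f := fun l => (Tl dep t0 h K o l : ℝ) / (Nl dep t0 h K o l : ℝ))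
        (fun i _ => by positivity) hmem

end Pool.Agent.W_7d29a1_LB
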