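import Mathlib

/-!
MP_7d29a1_pr, STORM LB, section 4.2 (average over the order of the cells), pure part.
No permutation is needed: downward induction on the set of the removed cells.
-/

open Finset

namespace Pool.Agent.W_7d29a1_LB

variable {K P : Type*} [DecidableEq K]

/-- total number of visited sites -/
noncomputable def TT (t : P → K → ℝ) (cells : Finset K) (S : P) : ℝ := ∑ k ∈ cells, t S k

/-- number of visited cells -/
noncomputable def NN (t : P → K → ℝ) (cells : Finset K) (S : P) : ℝ :=
  ((cells.filter (fun k => t S k ≠ 0)).card : ℝ)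

theorem perm_aux (paths : Finset P) (p : P → ℝ) (t : P → K → ℝ) (cells : Finset K)
    (L : Finset K → ℝ) (c τ : ℝ)
    (hstep : ∀ A ⊆ cells, ∀ k ∈ cells, k ∉ A →
      c * ∑ S ∈ paths.filter (fun S => ∀ a ∈ A, t S a = 0), p S * t S k - τ
        ≤ L A - L (insert k A)) :
    ∀ (d : ℕ) (A : Finset K), A ⊆ cells → (cells \ A).card = d →
      c * ∑ S ∈ paths.filter (fun S => ∀ a ∈ A, t S a = 0), p S * (TT t cells S / NN t cells S)
        - d * τ ≤ L A - L cells := by
  classical
  intro d
  induction d with
  | zero =>
    intro A hA hd
    have h1 : A = cells := by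
      apply Finset.Subset.antisymm hA
      rw [Finset.card_eq_zero, Finset.sdiff_eq_empty_iff_subset] at hd
      exact hd
    subst h1
    have h2 : ∀ S ∈ paths.filter (fun S => ∀ a ∈ A, t S a = 0),
        p S * (TT t A S / NN t A S) = 0 := by
      intro S hS
      rw [Finset.mem_filter] at hS
      have : TT t A S = 0 := Finset.sum_eq_zero (fun k hk => hS.2 k hk)
      rw [this]; simp
    rw [Finset.sum_eq_zero h2]; simp
  | succ d ih =>
    intro A hA hd
    set D : ℝ := ((d : ℝ) + 1) with hDdef
    have hDpos : 0 < D := by positivity
    have hcard : ((cells \ A).card : ℝ) = D := by rw [hd]; push_cast; rfl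
    -- sum of the steps
    have key : ∀ k ∈ cells \ A,
        c * ∑ S ∈ paths.filter (fun S => ∀ a ∈ A, t S a = 0), p S * t S k - τ
        + (c * ∑ S ∈ paths.filter (fun S => ∀ a ∈ insert k A, t S a = 0),
            p S * (TT t cells S / NN t cells S) - d * τ) ≤ L A - L cells := by
      intro k hk
      rw [Finset.mem_sdiff] at hk
      have h1 := hstep A hA k hk.1 hk.2
      have hins : insert k A ⊆ cells := Finset.insert_subset hk.1 hA
      have hc2 : (cells \ insert k A).card = d := by
        have : cells \ insert k A = (cells \ A).erase k := by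
          ext x; simp only [Finset.mem_sdiff, Finset.mem_insert, Finset.mem_erase]; tauto
        rw [this, Finset.card_erase_of_mem (by rw [Finset.mem_sdiff]; exact hk), hd]
        rfl
      have h2 := ih (insert k A) hins hc2
      linarith
    have hsum := Finset.sum_le_sum key
    rw [Finset.sum_const, nsmul_eq_mul, hcard, Finset.sum_add_distrib, Finset.sum_sub_distrib,
      Finset.sum_sub_distrib, Finset.sum_const, Finset.sum_const, nsmul_eq_mul, nsmul_eq_mul,
      hcard, ← Finset.mul_sum, ← Finset.mul_sum] at hsum
    -- exchange
    have e1 : ∑ k ∈ cells \ A, ∑ S ∈ paths.filter (fun S => ∀ a ∈ A, t S a = 0), p S * t S k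
        = ∑ S ∈ paths.filter (fun S => ∀ a ∈ A, t S a = 0), p S * TT t cells S := by
      rw [Finset.sum_comm]
      apply Finset.sum_congr rfl
      intro S hS
      rw [Finset.mem_filter] at hS
      rw [← Finset.mul_sum]
      congr 1
      unfold TT
      rw [← Finset.sum_sdiff hA]
      rw [Finset.sum_eq_zero (s := A) (fun a ha => hS.2 a ha), add_zero]
    have e2 : ∑ k ∈ cells \ A, ∑ S ∈ paths.filter (fun S => ∀ a ∈ insert k A, t S a = 0),
          p S * (TT t cells S / NN t cells S)
        = ∑ S ∈ paths.filter (fun S => ∀ a ∈ A, t S a = 0),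
          p S * (TT t cells S / NN t cells S) * (D - NN t cells S) := by
      have h3 : ∀ k ∈ cells \ A, ∑ S ∈ paths.filter (fun S => ∀ a ∈ insert k A, t S a = 0),
          p S * (TT t cells S / NN t cells S)
          = ∑ S ∈ paths.filter (fun S => ∀ a ∈ A, t S a = 0),
            (if t S k = 0 then p S * (TT t cells S / NN t cells S) else 0) := by
        intro k hk
        rw [← Finset.sum_filter, Finset.filter_filter]
        apply Finset.sum_congr _ (fun _ _ => rfl)
        ext S
        simp only [Finset.mem_filter, Finset.mem_insert, forall_eq_or_imp]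
        tauto
      rw [Finset.sum_congr rfl h3, Finset.sum_comm]
      apply Finset.sum_congr rfl
      intro S hS
      rw [Finset.mem_filter] at hS
      rw [← Finset.sum_filter, Finset.sum_const, nsmul_eq_mul, mul_comm]
      congr 1
      have h4 : (((cells \ A).filter (fun k => t S k = 0)).card : ℝ)
          + (((cells \ A).filter (fun k => ¬ t S k = 0)).card : ℝ) = D := by
        rw [← hcard]
        exact_mod_cast Finset.card_filter_add_card_filter_not (s := cells \ A)
          (fun k => t S k = 0)
      have h5 : (cells \ A).filter (fun k => ¬ t S k = 0) = cells.filter (fun k => t S k ≠ 0) := by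
        ext k
        simp only [Finset.mem_filter, Finset.mem_sdiff, ne_eq]
        constructor
        · rintro ⟨⟨h, _⟩, h'⟩; exact ⟨h, h'⟩
        · rintro ⟨h, h'⟩
          exact ⟨⟨h, fun hA' => h' (hS.2 k hA')⟩, h'⟩
      unfold NN
      rw [← h5]
      linarith
    rw [e1, e2] at hsum
    -- pointwise identity
    have e3 : ∑ S ∈ paths.filter (fun S => ∀ a ∈ A, t S a = 0), p S * TT t cells S
        + ∑ S ∈ paths.filter (fun S => ∀ a ∈ A, t S a = 0),
          p S * (TT t cells S / NN t cells S) * (D - NN t cells S)
        = D * ∑ S ∈ paths.filter (fun S => ∀ a ∈ A, t S a = 0),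
          p S * (TT t cells S / NN t cells S) := by
      rw [← Finset.sum_add_distrib, Finset.mul_sum]
      apply Finset.sum_congr rfl
      intro S _
      by_cases hN : NN t cells S = 0
      · have hT : TT t cells S = 0 := by
          unfold NN at hN
          have hN' : (cells.filter (fun k => t S k ≠ 0)).card = 0 := by exact_mod_cast hN
          rw [Finset.card_eq_zero] at hN'
          unfold TT
          apply Finset.sum_eq_zero
          intro k hk
          by_contra hne
          have : k ∈ cells.filter (fun k => t S k ≠ 0) := by
            rw [Finset.mem_filter]; exact ⟨hk, hne⟩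
          rw [hN'] at this
          exact absurd this (Finset.notMem_empty k)
        rw [hT]; simp
      · field_simp
        ring
    have h6 : D * (c * ∑ S ∈ paths.filter (fun S => ∀ a ∈ A, t S a = 0),
          p S * (TT t cells S / NN t cells S) - D * τ) ≤ D * (L A - L cells) := by
      have : c * ∑ S ∈ paths.filter (fun S => ∀ a ∈ A, t S a = 0), p S * TT t cells S - D * τ
          + (c * ∑ S ∈ paths.filter (fun S => ∀ a ∈ A, t S a = 0),
          p S * (TT t cells S / NN t cells S) * (D - NN t cells S) - D * (d * τ))
          = D * (c * ∑ S ∈ paths.filter (fun S => ∀ a ∈ A, t S a = 0),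
          p S * (TT t cells S / NN t cells S) - D * τ) := by
        have := congrArg (fun x => c * x) e3
        simp only [mul_add] at this
        rw [hDdef] at *
        linear_combination this
      linarith
    have h7 := le_of_mul_le_mul_left h6 hDpos
    push_cast
    rw [← hDdef]
    exact h7

/-- **Section 4.2.** `L A` = expected log of the mass of the paths which avoid the cells in `A`. -/
theorem perm_avg (paths : Finset P) (p : P → ℝ) (t : P → K → ℝ) (cells : Finset K)
    (L : Finset K → ℝ) (c τ : ℝ)
    (hstep : ∀ A ⊆ cells, ∀ k ∈ cells, k ∉ A →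
      c * ∑ S ∈ paths.filter (fun S => ∀ a ∈ A, t S a = 0), p S * t S k - τ
        ≤ L A - L (insert k A)) :
    c * ∑ S ∈ paths, p S * (TT t cells S / NN t cells S) - cells.card * τ ≤ L ∅ - L cells := by
  have h := perm_aux paths p t cells L c τ hstep cells.card ∅ (Finset.empty_subset _)
    (by rw [Finset.sdiff_empty])
  simpa using h

end Pool.Agent.W_7d29a1_LB
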