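import Pool.Agent.W_7d29a1_LB.Cov
import Pool.Agent.W_7d29a1_LB.Perm
import Pool.Agent.W_7d29a1_LB.Depth

/-!
MP_7d29a1_pr, STORM LB, (5.1) on abstract paths: Cov (4.1) for every set of removed cells, averaged
with Perm (4.2), summed over the levels of Depth (5).
-/

namespace Pool.Agent.W_7d29a1_LB

open MeasureTheory ProbabilityTheory Filter Topology Finset
open Pool.Agent.W_7d29a1_F Pool.Agent.W_7d29a1_Z17

noncomputable section

variable {μ : Measure ℝ} [IsProbabilityMeasure μ] {P : Type*}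

/-- The weight of a path. -/
def wp (c : P → ℝ) (S : P → Finset Pt) (p : P) (ξ : Env) : ℝ :=
  c p * Real.exp (∑ v ∈ S p, ξ v)

lemma wp_meas (c : P → ℝ) (S : P → Finset Pt) (p : P) : Measurable (wp c S p) := by
  unfold wp
  fun_prop

lemma wp_pos {c : P → ℝ} (S : P → Finset Pt) {p : P} (hc : 0 < c p) (ξ : Env) : 0 < wp c S p ξ :=
  mul_pos hc (Real.exp_pos _)

lemma log_memLp (hEM : Pool.Agent.W_7d29a1_h47.EM μ) {F : Finset P} {c : P → ℝ}
    {S : P → Finset Pt} (hc : ∀ p ∈ F, 0 < c p) (hne : ∃ p ∈ F, S p = ∅) :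
    MemLp (fun ξ => Real.log (mF F c S ξ)) 2 (law μ) := by
  obtain ⟨p, hp, hS⟩ := hne
  have h := lr_memLp (S := S) (F' := {p}) hEM (Finset.singleton_subset_iff.mpr hp) hc
    (Finset.singleton_nonempty p)
  have h2 : (fun ξ => Real.log (mF F c S ξ))
      = (fun ξ => Real.log (mF F c S ξ / mF {p} c S ξ)) + fun _ => Real.log (c p) := by
    funext ξ
    have h3 : mF {p} c S ξ = c p := by simp [mF, hS]
    simp only [Pi.add_apply]
    rw [h3, Real.log_div (mF_pos hc ⟨p, hp⟩ ξ).ne' (hc p hp).ne']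
    ring
  rw [h2]
  exact h.add (memLp_const _)

/-- The mean Gibbs probability of the path `p`. -/
def pr (μ : Measure ℝ) (F : Finset P) (c : P → ℝ) (S : P → Finset Pt) (p : P) : ℝ :=
  ∫ ξ, wp c S p ξ / mF F c S ξ ∂(law μ)

lemma ratio_mem {F : Finset P} {c : P → ℝ} (hc : ∀ p ∈ F, 0 < c p) (S : P → Finset Pt) {p : P}
    (hp : p ∈ F) (ξ : Env) : wp c S p ξ / mF F c S ξ ∈ Set.Icc (0 : ℝ) 1 := by
  have h1 := mF_pos (S := S) hc ⟨p, hp⟩ ξ
  have h2 := wp_pos S (hc p hp) ξ
  refine ⟨by positivity, ?_⟩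
  rw [div_le_one h1]
  exact Finset.single_le_sum (f := fun q => c q * Real.exp (∑ v ∈ S q, ξ v))
    (fun q hq => (wp_pos S (hc q hq) ξ).le) hp

lemma ratio_int {F : Finset P} {c : P → ℝ} (hc : ∀ p ∈ F, 0 < c p) (S : P → Finset Pt) {p : P}
    (hp : p ∈ F) : Integrable (fun ξ => wp c S p ξ / mF F c S ξ) (law μ) :=
  Integrable.of_mem_Icc 0 1 ((wp_meas c S p).div (mF_meas F c S)).aemeasurable
    (ae_of_all _ fun ξ => ratio_mem hc S hp ξ)

/-- **4.2 on paths, one level.** -/
theorem cell_level {a b u : ℝ} (hab : a < b) (hkap : 0 ≤ kap μ a b)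
    (paths : Finset P) {c : P → ℝ} (hc : ∀ p ∈ paths, 0 < c p)
    (S : P → Finset Pt) (hne : (paths.filter fun p => S p = ∅).Nonempty)
    (hEM : Pool.Agent.W_7d29a1_h47.EM μ) (hu : 0 < u)
    (K : ℕ) (C : ℕ → Finset Pt) (c0 : ℕ) (hc0 : 0 < c0)
    (hcard : ∀ k < K, (C k).card ≤ c0) :
    kap μ a b * ∑ p ∈ paths, pr μ paths c S p *
        (TT (fun p k => ((S p ∩ C k).card : ℝ)) (Finset.range K) p /
          NN (fun p k => ((S p ∩ C k).card : ℝ)) (Finset.range K) p) ≤
      4 * (b - a) * (u * Real.sqrt c0 * ∫ ξ, Real.log (mF paths c S ξ /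
          mF (paths.filter fun p => S p = ∅) c S ξ) ∂(law μ)
        + K * c0 * Real.sqrt (∫ ξ, (Real.log (mF paths c S ξ /
          mF (paths.filter fun p => S p = ∅) c S ξ)) ^ 2 ∂(law μ)) * Real.exp (-u ^ 2)) := by
  classical
  set t : P → ℕ → ℝ := fun p k => ((S p ∩ C k).card : ℝ) with ht
  set G : Env → ℝ := fun ξ => Real.log (mF paths c S ξ /
          mF (paths.filter fun p => S p = ∅) c S ξ) with hG
  have hsc0 : 0 < Real.sqrt (c0 : ℝ) := Real.sqrt_pos.mpr (by exact_mod_cast hc0)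
  -- families
  set F : Finset ℕ → Finset P := fun A => paths.filter (fun p => ∀ k ∈ A, t p k = 0) with hF
  have hFsub : ∀ A, F A ⊆ paths := fun A => Finset.filter_subset _ _
  have hF0sub : ∀ A, (paths.filter fun p => S p = ∅) ⊆ F A := by
    intro A p hp
    rw [Finset.mem_filter] at hp
    rw [hF, Finset.mem_filter]
    refine ⟨hp.1, fun k _ => ?_⟩
    simp [ht, hp.2]
  have hFne : ∀ A, (F A).Nonempty := fun A => hne.mono (hF0sub A)
  have hne' : ∃ p ∈ paths.filter (fun p => S p = ∅), S p = ∅ := by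
    obtain ⟨p, hp⟩ := hne
    exact ⟨p, hp, (Finset.mem_filter.mp hp).2⟩
  have hFne' : ∀ A, ∃ p ∈ F A, S p = ∅ := by
    intro A
    obtain ⟨p, hp, hS⟩ := hne'
    exact ⟨p, hF0sub A hp, hS⟩
  have hneP : ∃ p ∈ paths, S p = ∅ := by
    obtain ⟨p, hp, hS⟩ := hne'
    exact ⟨p, Finset.filter_subset _ _ hp, hS⟩
  have hcF : ∀ A, ∀ p ∈ F A, 0 < c p := fun A p hp => hc p (hFsub A hp)
  have hc00 : ∀ p ∈ (paths.filter fun p => S p = ∅), 0 < c p :=
    fun p hp => hc p (Finset.filter_subset _ _ hp)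
  have hFins : ∀ A k, (F A).filter (fun p => Disjoint (S p) (C k)) = F (insert k A) := by
    intro A k
    ext p
    simp only [hF, Finset.mem_filter, Finset.mem_insert, forall_eq_or_imp, ht]
    have : Disjoint (S p) (C k) ↔ ((S p ∩ C k).card : ℝ) = 0 := by
      rw [Finset.disjoint_iff_inter_eq_empty, Nat.cast_eq_zero, Finset.card_eq_zero]
    rw [this]; tauto
  set Lf : Finset ℕ → ℝ := fun A => ∫ ξ, Real.log (mF (F A) c S ξ) ∂(law μ) with hLf
  have hmem : ∀ A, MemLp (fun ξ => Real.log (mF (F A) c S ξ)) 2 (law μ) :=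
    fun A => log_memLp hEM (hcF A) (hFne' A)
  have hint : ∀ A, Integrable (fun ξ => Real.log (mF (F A) c S ξ)) (law μ) :=
    fun A => (hmem A).integrable (by norm_num)
  have hFe : F ∅ = paths := by simp [hF]
  have hmem0 : MemLp (fun ξ => Real.log (mF (paths.filter fun p => S p = ∅) c S ξ)) 2 (law μ) :=
    log_memLp hEM hc00 hne'  
  have hGeq : ∀ ξ, G ξ = Real.log (mF paths c S ξ)
      - Real.log (mF (paths.filter fun p => S p = ∅) c S ξ) := by
    intro ξ
    rw [hG]
    exact Real.log_div (mF_pos hc (hne.mono (Finset.filter_subset _ _)) ξ).ne'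
      (mF_pos hc00 hne ξ).ne'
  have hGfun : G = (fun ξ => Real.log (mF paths c S ξ))
      - (fun ξ => Real.log (mF (paths.filter fun p => S p = ∅) c S ξ)) := funext hGeq
  have hmemP : MemLp (fun ξ => Real.log (mF paths c S ξ)) 2 (law μ) :=
    log_memLp hEM hc hneP
  have hGmem : MemLp G 2 (law μ) := by
    rw [hGfun]
    exact hmemP.sub hmem0
  have hG0 : ∀ ξ, 0 ≤ G ξ := by
    intro ξ
    rw [hGeq]
    have h1 := mF_mono (S := S) hc (Finset.filter_subset (fun p => S p = ∅) paths) ξ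
    have h2 := Real.log_le_log (mF_pos (S := S) hc00 hne ξ) h1
    linarith
  -- the increments
  have hgeq : ∀ A k ξ, Real.log (mF (F A) c S ξ / mF (F (insert k A)) c S ξ)
      = Real.log (mF (F A) c S ξ) - Real.log (mF (F (insert k A)) c S ξ) := by
    intro A k ξ
    exact Real.log_div (mF_pos (hcF A) (hFne A) ξ).ne'
      (mF_pos (hcF _) (hFne _) ξ).ne'
  have hinsF : ∀ A k, F (insert k A) ⊆ F A := by
    intro A k p hp
    simp only [hF, Finset.mem_filter, Finset.mem_insert, forall_eq_or_imp] at hp ⊢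
    exact ⟨hp.1, hp.2.2⟩
  have hg0 : ∀ A k ξ, 0 ≤ Real.log (mF (F A) c S ξ / mF (F (insert k A)) c S ξ) := by
    intro A k ξ
    rw [hgeq]
    have h2 := Real.log_le_log (mF_pos (S := S) (hcF _) (hFne _) ξ) (mF_mono (hcF A) (hinsF A k) ξ)
    linarith
  have hgle : ∀ A k ξ, Real.log (mF (F A) c S ξ / mF (F (insert k A)) c S ξ) ≤ G ξ := by
    intro A k ξ
    rw [hgeq, hGeq]
    have h1 := Real.log_le_log (mF_pos (S := S) (hcF A) (hFne A) ξ) (mF_mono hc (hFsub A) ξ)
    have h2 := Real.log_le_log (mF_pos (S := S) hc00 hne ξ)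
      (mF_mono (hcF (insert k A)) (hF0sub (insert k A)) ξ)
    linarith
  have hGsq : Integrable (fun ξ => G ξ ^ 2) (law μ) := hGmem.integrable_sq
  have hgfun : ∀ A k, (fun ξ => Real.log (mF (F A) c S ξ / mF (F (insert k A)) c S ξ))
      = (fun ξ => Real.log (mF (F A) c S ξ))
        - (fun ξ => Real.log (mF (F (insert k A)) c S ξ)) := fun A k => funext (hgeq A k)
  have hgmem : ∀ A k, MemLp (fun ξ => Real.log (mF (F A) c S ξ / mF (F (insert k A)) c S ξ)) 2
      (law μ) := by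
    intro A k
    rw [hgfun]
    exact (hmem A).sub (hmem _)
  have hgint : ∀ A k, ∫ ξ, Real.log (mF (F A) c S ξ / mF (F (insert k A)) c S ξ) ∂(law μ)
      = Lf A - Lf (insert k A) := by
    intro A k
    simp only [hgeq]
    exact integral_sub (hint A) (hint _)
  have hLmono : ∀ A k, 0 ≤ Lf A - Lf (insert k A) := by
    intro A k
    rw [← hgint]
    exact integral_nonneg (hg0 A k)
  set M : ℝ := Real.sqrt (∫ ξ, G ξ ^ 2 ∂(law μ)) with hM
  set cc : ℝ := kap μ a b / (4 * (b - a) * u * Real.sqrt c0) with hcc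
  have hba : 0 < b - a := by linarith
  have hden : 0 < 4 * (b - a) * u * Real.sqrt c0 := by positivity
  set τ : ℝ := Real.sqrt c0 * M * Real.exp (-u ^ 2) / u with hτ
  have hsq : Real.sqrt (c0 : ℝ) * Real.sqrt c0 = c0 := Real.mul_self_sqrt (by positivity)
  have hstep : ∀ A ⊆ Finset.range K, ∀ k ∈ Finset.range K, k ∉ A →
      cc * ∑ p ∈ paths.filter (fun p => ∀ a ∈ A, t p a = 0), pr μ paths c S p * t p k - τ
        ≤ Lf A - Lf (insert k A) := by
    intro A _ k hk _
    rw [Finset.mem_range] at hk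
    have h1 := cov_paths (u := u) (F := F A) (S := S) hab hEM (hcF A) (C k)
      (by rw [hFins]; exact hFne _) hu.le
    rw [hFins, hgint] at h1
    -- left side
    have h2 : ∑ p ∈ F A, pr μ paths c S p * t p k ≤
        ∫ ξ, ∑ p ∈ F A, (c p * Real.exp (∑ v ∈ S p, ξ v) / mF (F A) c S ξ) *
        ((S p ∩ C k).card : ℝ) ∂(law μ) := by
      change _ ≤ ∫ ξ, ∑ p ∈ F A, wp c S p ξ / mF (F A) c S ξ * ((S p ∩ C k).card : ℝ) ∂(law μ)
      rw [integral_finsetSum _ (fun p hp => (ratio_int (hcF A) S hp).mul_const _)]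
      apply Finset.sum_le_sum
      intro p hp
      rw [integral_mul_const]
      apply mul_le_mul_of_nonneg_right _ (by positivity)
      unfold pr
      apply integral_mono (ratio_int hc S (hFsub A hp)) (ratio_int (hcF A) S hp)
      intro ξ
      have hw := (wp_pos S (hcF A p hp) ξ).le
      exact div_le_div_of_nonneg_left hw (mF_pos (hcF A) ⟨p, hp⟩ ξ)
        (mF_mono hc (hFsub A) ξ)
    have h3 : Real.sqrt ((C k).card : ℝ) ≤ Real.sqrt c0 :=
      Real.sqrt_le_sqrt (by exact_mod_cast hcard k hk)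
    have h4 : ((C k).card : ℝ) ≤ c0 := by exact_mod_cast hcard k hk
    have h5 : Real.sqrt (∫ ξ, (Real.log (mF (F A) c S ξ / mF (F (insert k A)) c S ξ)) ^ 2
        ∂(law μ)) ≤ M := by
      apply Real.sqrt_le_sqrt
      apply integral_mono (hgmem A k).integrable_sq hGsq
      intro ξ
      exact pow_le_pow_left₀ (hg0 A k ξ) (hgle A k ξ) 2
    have h6 : kap μ a b * ∑ p ∈ F A, pr μ paths c S p * t p k ≤
        4 * (b - a) * (u * Real.sqrt c0 * (Lf A - Lf (insert k A))
          + c0 * M * Real.exp (-u ^ 2)) := by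
      calc kap μ a b * ∑ p ∈ F A, pr μ paths c S p * t p k
          ≤ _ := mul_le_mul_of_nonneg_left h2 hkap
        _ ≤ _ := h1
        _ ≤ _ := by
          have hL := hLmono A k
          have hMs : 0 ≤ M := Real.sqrt_nonneg _
          gcongr
    have h7 : (paths.filter (fun p => ∀ a ∈ A, t p a = 0)) = F A := rfl
    rw [h7, hcc, div_mul_eq_mul_div, sub_le_iff_le_add, div_le_iff₀ hden]
    calc kap μ a b * ∑ p ∈ F A, pr μ paths c S p * t p k ≤ _ := h6
      _ = (Lf A - Lf (insert k A) + τ) * (4 * (b - a) * u * Real.sqrt c0) := by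
        rw [hτ]
        have : Real.sqrt c0 * M * Real.exp (-u ^ 2) / u * (4 * (b - a) * u * Real.sqrt c0)
            = 4 * (b - a) * (Real.sqrt c0 * Real.sqrt c0) * M * Real.exp (-u ^ 2) := by
          field_simp
        rw [add_mul, this, hsq]
        ring
  have hperm := perm_avg paths (pr μ paths c S) t (Finset.range K) Lf cc τ hstep
  rw [Finset.card_range] at hperm
  have hfin : Lf ∅ - Lf (Finset.range K) ≤ ∫ ξ, G ξ ∂(law μ) := by
    rw [hLf]
    simp only [hFe]
    rw [← integral_sub (hmemP.integrable (by norm_num)) (hint _)]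
    apply integral_mono ((hmemP.integrable (by norm_num)).sub (hint _))
      (hGmem.integrable (by norm_num))
    intro ξ
    simp only [Pi.sub_apply]
    rw [hGeq]
    have h2 := Real.log_le_log (mF_pos (S := S) hc00 hne ξ)
      (mF_mono (hcF (Finset.range K)) (hF0sub (Finset.range K)) ξ)
    linarith
  have hfinal : cc * ∑ p ∈ paths, pr μ paths c S p * (TT t (Finset.range K) p /
      NN t (Finset.range K) p) ≤ (∫ ξ, G ξ ∂(law μ)) + K * τ := by linarith
  rw [hcc, div_mul_eq_mul_div, div_le_iff₀ hden] at hfinal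
  calc kap μ a b * ∑ p ∈ paths, pr μ paths c S p * (TT t (Finset.range K) p /
      NN t (Finset.range K) p) ≤ _ := hfinal
    _ = _ := by
      rw [hτ]
      have : (K : ℝ) * (Real.sqrt c0 * M * Real.exp (-u ^ 2) / u)
          * (4 * (b - a) * u * Real.sqrt c0)
          = 4 * (b - a) * K * (Real.sqrt c0 * Real.sqrt c0) * M * Real.exp (-u ^ 2) := by
        field_simp
      rw [add_mul, this, hsq]
      ring

/-- **(5.1) on abstract paths.** `S p` = the strip sites of the path `p`, `C l k` = the cell of the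
window `k` at the depth level `l`, `dep p` = the depth along the path. No disjointness of the cells
is needed. -/
theorem gain_abs {a b u X : ℝ} (hab : a < b) (hkap : 0 ≤ kap μ a b)
    (paths : Finset P) {c : P → ℝ} (hc : ∀ p ∈ paths, 0 < c p)
    (S : P → Finset Pt) (hne : (paths.filter fun p => S p = ∅).Nonempty)
    (hEM : Pool.Agent.W_7d29a1_h47.EM μ) (hu : 0 < u)
    {m K h t0 : ℕ} {o : ℤ} (hm : 2 ≤ m) (ho : 0 < o) (hX1 : 1 ≤ X) (hX : (K : ℝ) ≤ X)
    (C : ℕ → ℕ → Finset Pt) (c0 : ℕ) (hc0 : 0 < c0)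
    (hcard : ∀ l ∈ Finset.Ico 1 m, ∀ k < K, (C l k).card ≤ c0)
    (dep : P → ℕ → ℤ)
    (good : Finset P) (hgood : good ⊆ paths)
    (hT : ∀ p ∈ good, ∀ l ∈ Finset.Ico 1 m, ∀ k < K,
      (S p ∩ C l k).card = (vis (dep p) t0 h o l k).card)
    (hreg : ∀ p ∈ good, DReg (dep p) t0 h K o)
    (hreach : ∀ p ∈ good, ∃ k < K, ∃ i ∈ win t0 h k, (m : ℤ) * o ≤ dep p i) :
    kap μ a b * ((h : ℝ) * X ^ (-(1 / ((m - 1 : ℕ) : ℝ)))) *
        ∫ ξ, (∑ p ∈ good, c p * Real.exp (∑ v ∈ S p, ξ v)) / mF paths c S ξ ∂(law μ) ≤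
      ((m - 1 : ℕ) : ℝ) * (4 * (b - a) * (u * Real.sqrt c0 * ∫ ξ, Real.log (mF paths c S ξ /
          mF (paths.filter fun p => S p = ∅) c S ξ) ∂(law μ)
        + K * c0 * Real.sqrt (∫ ξ, (Real.log (mF paths c S ξ /
          mF (paths.filter fun p => S p = ∅) c S ξ)) ^ 2 ∂(law μ)) * Real.exp (-u ^ 2))) := by
  classical
  set E : ℝ := 4 * (b - a) * (u * Real.sqrt c0 * ∫ ξ, Real.log (mF paths c S ξ /
          mF (paths.filter fun p => S p = ∅) c S ξ) ∂(law μ)
        + K * c0 * Real.sqrt (∫ ξ, (Real.log (mF paths c S ξ /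
          mF (paths.filter fun p => S p = ∅) c S ξ)) ^ 2 ∂(law μ)) * Real.exp (-u ^ 2)) with hE
  set D : ℝ := (h : ℝ) * X ^ (-(1 / ((m - 1 : ℕ) : ℝ))) with hD
  have hlev : ∀ l ∈ Finset.Ico 1 m, kap μ a b * ∑ p ∈ good, pr μ paths c S p *
      ((Tl (dep p) t0 h K o l : ℝ) / (Nl (dep p) t0 h K o l : ℝ)) ≤ E := by
    intro l hl
    have h1 := cell_level (u := u) hab hkap paths hc S hne hEM hu K (C l) c0 hc0 (hcard l hl)
    refine le_trans ?_ h1
    apply mul_le_mul_of_nonneg_left _ hkap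
    have hnn : ∀ p ∈ paths, 0 ≤ pr μ paths c S p *
        (TT (fun p k => ((S p ∩ C l k).card : ℝ)) (Finset.range K) p /
          NN (fun p k => ((S p ∩ C l k).card : ℝ)) (Finset.range K) p) := by
      intro p hp
      apply mul_nonneg
      · exact integral_nonneg fun ξ => (ratio_mem hc S hp ξ).1
      · unfold TT NN
        apply div_nonneg
        · exact Finset.sum_nonneg fun k _ => by positivity
        · positivity
    refine le_trans (le_of_eq ?_) (Finset.sum_le_sum_of_subset_of_nonneg hgood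
      fun p hp _ => hnn p hp)
    apply Finset.sum_congr rfl
    intro p hp
    congr 1
    have hTT : TT (fun p k => ((S p ∩ C l k).card : ℝ)) (Finset.range K) p
        = (Tl (dep p) t0 h K o l : ℝ) := by
      unfold TT Tl
      push_cast
      apply Finset.sum_congr rfl
      intro k hk
      rw [hT p hp l hl k (Finset.mem_range.mp hk)]
    have hNN : NN (fun p k => ((S p ∩ C l k).card : ℝ)) (Finset.range K) p
        = (Nl (dep p) t0 h K o l : ℝ) := by
      unfold NN Nl
      congr 2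
      apply Finset.filter_congr
      intro k hk
      beta_reduce
      rw [hT p hp l hl k (Finset.mem_range.mp hk)]
      simp
    rw [hTT, hNN]
  have hsum := Finset.sum_le_sum hlev
  rw [← Finset.mul_sum, Finset.sum_comm, Finset.sum_const, Nat.card_Ico, nsmul_eq_mul] at hsum
  have hlow : D * ∑ p ∈ good, pr μ paths c S p ≤
      ∑ p ∈ good, ∑ l ∈ Finset.Ico 1 m, pr μ paths c S p *
        ((Tl (dep p) t0 h K o l : ℝ) / (Nl (dep p) t0 h K o l : ℝ)) := by
    rw [Finset.mul_sum]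
    apply Finset.sum_le_sum
    intro p hp
    rw [← Finset.mul_sum, mul_comm]
    apply mul_le_mul_of_nonneg_left _
      (integral_nonneg fun ξ => (ratio_mem hc S (hgood hp) ξ).1)
    exact depth_pigeon hm ho hX1 hX (hreg p hp) (hreach p hp)
  have hint : ∫ ξ, (∑ p ∈ good, c p * Real.exp (∑ v ∈ S p, ξ v)) / mF paths c S ξ ∂(law μ)
      = ∑ p ∈ good, pr μ paths c S p := by
    unfold pr
    rw [← integral_finsetSum _ (fun p hp => ratio_int hc S (hgood hp))]
    apply integral_congr_ae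
    refine ae_of_all _ fun ξ => ?_
    simp only [wp, Finset.sum_div]
  rw [hint]
  calc kap μ a b * D * ∑ p ∈ good, pr μ paths c S p
      = kap μ a b * (D * ∑ p ∈ good, pr μ paths c S p) := by ring
    _ ≤ _ := mul_le_mul_of_nonneg_left hlow hkap
    _ ≤ _ := hsum

end

end Pool.Agent.W_7d29a1_LB
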