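import Pool.Agent.W_7d29a1_LB.Cons29

/-!
STORM LB + UB + CURV0 (helper29): THE EXPONENTS OF THE POLYMER UNDER A FORCE, with the lower bound of the standard deviation at
every tilt as a third input.
-/

set_option autoImplicit false

namespace Pool.Agent.W_7d29a1_LB

open MeasureTheory ProbabilityTheory Filter Topology
open Pool.Agent.W_7d29a1_F Pool.Agent.W_7d29a1_H Pool.Agent.W_7d29a1_HS Pool.Agent.W_7d29a1_HK20
open Pool.Agent.W_7d29a1_HM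
open Pool.Agent.W_7d29a1_SR (toF mp_toF)
open Pool.Agent.W_7d29a1_h47 (EM Nondeg EM_of Nondeg_of map_toEnv walk endMGF)

/-- The lower bound `n ^ (1 / 3 - ε) ≤ E_n` at the tilt `s`. -/
def CV20 (μ : Measure ℝ) (s : ℝ) : Prop :=
  ∀ ε : ℝ, 0 < ε → ∃ n₁ : ℕ, ∀ n : ℕ, n₁ ≤ n → (n : ℝ) ^ (1 / 3 - ε) ≤ EE μ s n

/-- The lower bound of the standard deviation. -/
theorem sgm_cv29 (hC : ∀ (μ : Measure ℝ) [IsProbabilityMeasure μ], EM μ → Nondeg μ → ∀ s, CV20 μ s)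
    {Ω : Type*} [MeasurableSpace Ω] (P : Measure Ω) [IsProbabilityMeasure P]
    (ω : ℕ × ℤ → Ω → ℝ) (hmeas : ∀ p, Measurable (ω p)) (hindep : iIndepFun ω P)
    (hident : ∀ p q, IdentDistrib (ω p) (ω q) P P) (hnc : ¬ ∃ c : ℝ, ∀ᵐ x ∂P, ω (0, 0) x = c)
    (hexp : ∀ b : ℝ, Integrable (fun x => Real.exp (b * ω (0, 0) x)) P) {β : ℝ} (hβ : 0 < β)
    (h : ℝ) {ε : ℝ} (hε : 0 < ε) :
    ∀ᶠ n : ℕ in atTop, (n : ℝ) ^ (1 / 3 - ε) ≤ Real.sqrt (Var[fun x => Real.log (fZ β h (fun p => ω p x) n); P]) := by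
  obtain ⟨μ, hμdef⟩ : ∃ μ : Measure ℝ, μ = P.map fun x => β * ω (0, 0) x := ⟨_, rfl⟩
  have hm0 : Measurable fun x => β * ω (0, 0) x := (hmeas _).const_mul β
  have hprob : IsProbabilityMeasure μ := by
    rw [hμdef]
    exact Measure.isProbabilityMeasure_map hm0.aemeasurable
  have hμ : EM μ := by
    rw [hμdef]
    exact EM_of (hmeas _) hexp β
  have hnd : Nondeg μ := by
    rw [hμdef]
    exact Nondeg_of (hmeas _) hnc hβ
  have hmp := mp_toF hmeas hindep hident β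
  rw [← hμdef] at hmp
  have f := (inp20 μ hμ hnd).fac (2 * h)
  obtain ⟨a, A, ha, hA, h1⟩ := sgmS (P := P) (β := β) (ω := ω) f hmp
  obtain ⟨n₁, h2⟩ := hC μ hμ hnd (2 * h) (ε / 2) (by positivity)
  filter_upwards [eventually_ge_atTop 1, eventually_ge_atTop n₁, ev_pow20 (1 / a) (show 0 < ε / 2 by positivity)] with n h3 h4 h5
  have hn : (0 : ℝ) < n := by exact_mod_cast h3
  have e1 : (n : ℝ) ^ (1 / 3 - ε / 2) = (n : ℝ) ^ (ε / 2) * (n : ℝ) ^ (1 / 3 - ε) := by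
    rw [← Real.rpow_add hn]
    ring_nf
  rw [div_le_iff₀ ha] at h5
  have hp : 0 ≤ (n : ℝ) ^ (1 / 3 - ε) := Real.rpow_nonneg hn.le _
  calc (n : ℝ) ^ (1 / 3 - ε) ≤ (n : ℝ) ^ (ε / 2) * a * (n : ℝ) ^ (1 / 3 - ε) := le_mul_of_one_le_left hp h5
    _ = a * (n : ℝ) ^ (1 / 3 - ε / 2) := by
        rw [e1]
        ring
    _ ≤ a * EE μ (2 * h) n := mul_le_mul_of_nonneg_left (h2 n h4) ha.le
    _ ≤ _ := (h1 n h3).1

/-- **THE EXPONENTS**, from `w_n ≤ n ^ ε Var`, `Var ≤ n ^ ε w_n` and `n ^ (1 / 3 - ε) ≤ σ_n` at every tilt. -/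
theorem main_B29 (hL : ∀ (μ : Measure ℝ) [IsProbabilityMeasure μ], EM μ → Nondeg μ → ∀ s, LB20 μ s)
    (hU : ∀ (μ : Measure ℝ) [IsProbabilityMeasure μ], EM μ → Nondeg μ → ∀ s, UB20 μ s)
    (hC : ∀ (μ : Measure ℝ) [IsProbabilityMeasure μ], EM μ → Nondeg μ → ∀ s, CV20 μ s)
    {Ω : Type*} [MeasurableSpace Ω] (P : Measure Ω) [IsProbabilityMeasure P]
    (ω : ℕ × ℤ → Ω → ℝ) (hmeas : ∀ p, Measurable (ω p)) (hindep : iIndepFun ω P)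
    (hident : ∀ p q, IdentDistrib (ω p) (ω q) P P) (hnc : ¬ ∃ c : ℝ, ∀ᵐ x ∂P, ω (0, 0) x = c)
    (hexp : ∀ b : ℝ, Integrable (fun x => Real.exp (b * ω (0, 0) x)) P) {β : ℝ} (hβ : 0 < β) :
    ∃ (lam J : ℝ → ℝ) (σ : ℝ → ℕ → ℝ), Differentiable ℝ lam ∧ deriv lam 0 = 0 ∧ Set.range (deriv lam) = Set.Ioo (-1) 1 ∧
      (∀ h, ∀ᵐ x ∂P, Tendsto (fun n : ℕ => Real.log (endMGF β h (fun p => ω p x) n) / n) atTop (𝓝 (lam h))) ∧
      (∀ v, |v| < 1 → IsLUB (Set.range fun k => k * v - lam k) (J v)) ∧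
      (∀ h n, σ h n = Real.sqrt (Var[fun x => Real.log (fZ β h (fun p => ω p x) n); P])) ∧
      -- every force
      (∀ h : ℝ,
        (∀ (q : ℕ) (ε : ℝ), 0 < ε → ∀ᶠ n : ℕ in atTop,
          (n : ℝ) ^ (-ε) * σ h n ^ (2 * q) ≤
            ∫ x, fE β h (fun p => ω p x) n (fun s => |(walk s n : ℝ) - deriv lam h * n| ^ q) ∂P ∧
          ∫ x, fE β h (fun p => ω p x) n (fun s => |(walk s n : ℝ) - deriv lam h * n| ^ q) ∂P ≤
            ∫ x, fE β h (fun p => ω p x) n (fun s => mxv (deriv lam h) s ^ q) ∂P ∧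
          ∫ x, fE β h (fun p => ω p x) n (fun s => mxv (deriv lam h) s ^ q) ∂P ≤ (n : ℝ) ^ ε * σ h n ^ (2 * q)) ∧
        nuF P β h (deriv lam h) ω = 2 * limsup (fun n : ℕ => Real.log (σ h n) / Real.log n) atTop ∧
        chiF P β h ω = liminf (fun n : ℕ => Real.log (σ h n) / Real.log n) atTop ∧
        (∀ ε : ℝ, 0 < ε → ∀ᶠ n : ℕ in atTop, (n : ℝ) ^ (1 / 3 - ε) ≤ σ h n) ∧
        1 / 3 ≤ chiF P β h ω ∧ chiF P β h ω ≤ nuF P β h (deriv lam h) ω / 2 ∧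
        (∃ c : ℝ, 0 < c ∧ nuF P β h (deriv lam h) ω ≤ 1 - c ∧ ∀ᶠ n : ℕ in atTop, σ h n ≤ (n : ℝ) ^ (1 / 2 - c)) ∧
        (∀ κ : ℝ, Tendsto (fun u : ℝ => Real.log (J (deriv lam h + u) - J (deriv lam h) - h * u) / Real.log u) (𝓝[>] 0)
          (𝓝 κ) →
          Tendsto (fun n : ℕ => Real.log (σ h n) / Real.log n) atTop (𝓝 ((κ - 1) / (2 * κ - 1))) ∧
          nuF P β h (deriv lam h) ω = (2 * κ - 2) / (2 * κ - 1) ∧ chiF P β h ω = (κ - 1) / (2 * κ - 1))) ∧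
      -- a dense set of forces
      (∃ T : Set ℝ, Dense T ∧ ∀ h ∈ T,
        nuF P β h (deriv lam h) ω = 2 / 3 ∧ chiF P β h ω = 1 / 3 ∧
        Tendsto (fun n : ℕ => Real.log (σ h n) / Real.log n) atTop (𝓝 (1 / 3)) ∧
        ∃ c C : ℝ, 0 < c ∧
        (∀ r : ℝ, |r| ≤ 1 → c * r ^ 2 ≤ lam (h + r) - lam h - r * deriv lam h ∧
          lam (h + r) - lam h - r * deriv lam h ≤ C * r ^ 2) ∧
        (∀ᶠ n : ℕ in atTop,
          c * (n * σ h n) ≤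
            ∫ x, fE β h (fun p => ω p x) n (fun s => |(walk s n : ℝ) - deriv lam h * n| ^ 2) ∂P ∧
          ∫ x, fE β h (fun p => ω p x) n (fun s => mxv (deriv lam h) s ^ 2) ∂P ≤ C * (n * σ h n)) ∧
        (∀ᶠ n : ℕ in atTop, ∀ R : ℝ, 1 ≤ R → 1 - ∫ x, fP β h (fun p => ω p x) n
          {s | mxv (deriv lam h) s ≤ R * Real.sqrt (n * σ h n)} ∂P ≤ C * Real.exp (-(c * R ^ c))) ∧
        (∀ ε : ℝ, 0 < ε → ∃ a : ℝ, 0 < a ∧ ∀ᶠ n : ℕ in atTop, ∫ x, fP β h (fun p => ω p x) n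
          {s | |(walk s n : ℝ) - deriv lam h * n| ≤ a * Real.sqrt (n * σ h n)} ∂P ≤ ε) ∧
        (∀ q : ℕ, ∃ a A : ℝ, 0 < a ∧ ∀ᶠ n : ℕ in atTop,
          a * Real.sqrt (n * σ h n) ^ q ≤
            ∫ x, fE β h (fun p => ω p x) n (fun s => |(walk s n : ℝ) - deriv lam h * n| ^ q) ∂P ∧
          ∫ x, fE β h (fun p => ω p x) n (fun s => mxv (deriv lam h) s ^ q) ∂P ≤ A * Real.sqrt (n * σ h n) ^ q)) ∧
      -- almost every force
      (∀ᵐ h : ℝ, nuF P β h (deriv lam h) ω = 2 / 3 ∧ chiF P β h ω = 1 / 3 ∧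
        Tendsto (fun n : ℕ => Real.log (σ h n) / Real.log n) atTop (𝓝 (1 / 3)) ∧
        ∃ C : ℝ, ∀ᶠ n : ℕ in atTop,
          ∫ x, fE β h (fun p => ω p x) n (fun s => mxv (deriv lam h) s ^ 2) ∂P ≤ C * (n * σ h n)) ∧
      -- almost every velocity
      (∀ᵐ v : ℝ, ∀ h : ℝ, deriv lam h = v → ∃ c : ℝ, 0 < c ∧ ∀ᶠ n : ℕ in atTop, c * (n * σ h n) ≤
          ∫ x, fE β h (fun p => ω p x) n (fun s => |(walk s n : ℝ) - v * n| ^ 2) ∂P) := by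
  obtain ⟨lam, J, σ, hd, hd0, hr, hlim, hJ, hσ, hE, hT, hF, hV⟩ := main_A29 hL hU P ω hmeas hindep hident hnc hexp hβ
  have hlow : ∀ (h ε : ℝ), 0 < ε → ∀ᶠ n : ℕ in atTop, (n : ℝ) ^ (1 / 3 - ε) ≤ σ h n := fun h ε hε => by
    filter_upwards [sgm_cv29 hC P ω hmeas hindep hident hnc hexp hβ h hε] with n h1
    rw [hσ h n]
    exact h1
  have hB : ∀ h, Bd20 (σ h) := by
    intro h
    obtain ⟨-, -, -, ⟨c, hc, hev, -⟩, -⟩ := hE h
    filter_upwards [hev, eventually_ge_atTop 1] with n h1 h2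
    have hn1 : (1 : ℝ) ≤ n := by exact_mod_cast h2
    refine ⟨(Real.one_le_rpow hn1 (by positivity)).trans h1.1, h1.2.trans ?_⟩
    calc (n : ℝ) ^ (1 / 2 - c) ≤ (n : ℝ) ^ (1 : ℝ) := Real.rpow_le_rpow_of_exponent_le hn1 (by linarith)
      _ = n := Real.rpow_one _
  have hli : ∀ h, 1 / 3 ≤ liminf (lg20 (σ h)) atTop := fun h => by
    refine le_of_forall_pos_le_add fun ε hε => ?_
    rw [← sub_le_iff_le_add]
    exact low20 (hB h) (c := 1) one_pos ((hlow h ε hε).mono fun n h1 => by rw [one_mul]; exact h1)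
  refine ⟨lam, J, σ, hd, hd0, hr, hlim, hJ, hσ, fun h => ?_, hT, ?_, ?_⟩
  · obtain ⟨g1, g2, g3, ⟨c, hc, hev, -, g5, g6⟩, g7⟩ := hE h
    refine ⟨g1, g2, g3, hlow h, ?_, g5, ⟨c, hc, g6, hev.mono fun n h1 => h1.2⟩, g7⟩
    rw [g3]
    exact hli h
  · filter_upwards [hF] with h hh
    obtain ⟨h1, h2, h3, h4⟩ := hh
    obtain ⟨-, g2, g3, -, -⟩ := hE h
    have h5 : liminf (lg20 (σ h)) atTop ≤ limsup (lg20 (σ h)) atTop := inf_le_sup20 (hB h)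
    have h3' : limsup (lg20 (σ h)) atTop ≤ 1 / 3 := h3
    have h6 := hli h
    have g2' : nuF P β h (deriv lam h) ω = 2 * limsup (lg20 (σ h)) atTop := g2
    have g3' : chiF P β h ω = liminf (lg20 (σ h)) atTop := g3
    refine ⟨by linarith, by linarith, lg_tendsto29 (hB h) h6 h3', h4⟩
  · filter_upwards [hV] with v hv h hh
    obtain ⟨-, -, h3⟩ := hv h hh
    exact h3

end Pool.Agent.W_7d29a1_LB
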