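import Pool.Agent.W_7d29a1_LB.ConsL29
import Pool.Agent.W_7d29a1_LB.ConsB29

/-!
STORM LB + UB (helper29): THE EXPONENTS OF THE POLYMER UNDER A FORCE, with `E_n = n ^ (1 / 3 + o(1))` at every tilt as the third
input (the conclusion of a full solution), and with its upper half alone.
-/

set_option autoImplicit false

namespace Pool.Agent.W_7d29a1_LB

open MeasureTheory ProbabilityTheory Filter Topology
open Pool.Agent.W_7d29a1_F Pool.Agent.W_7d29a1_H Pool.Agent.W_7d29a1_HS Pool.Agent.W_7d29a1_HK20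
open Pool.Agent.W_7d29a1_HM
open Pool.Agent.W_7d29a1_SR (toF mp_toF)
open Pool.Agent.W_7d29a1_h47 (EM Nondeg EM_of Nondeg_of map_toEnv walk endMGF)

/-- The upper bound `E_n ≤ n ^ (1 / 3 + ε)` at the tilt `s`. -/
def CU29 (μ : Measure ℝ) (s : ℝ) : Prop :=
  ∀ ε : ℝ, 0 < ε → ∃ n₁ : ℕ, ∀ n : ℕ, n₁ ≤ n → EE μ s n ≤ (n : ℝ) ^ (1 / 3 + ε)

/-- The upper bound of the standard deviation. -/
theorem sgm_cu29 (hC : ∀ (μ : Measure ℝ) [IsProbabilityMeasure μ], EM μ → Nondeg μ → ∀ s, CU29 μ s)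
    {Ω : Type*} [MeasurableSpace Ω] (P : Measure Ω) [IsProbabilityMeasure P]
    (ω : ℕ × ℤ → Ω → ℝ) (hmeas : ∀ p, Measurable (ω p)) (hindep : iIndepFun ω P)
    (hident : ∀ p q, IdentDistrib (ω p) (ω q) P P) (hnc : ¬ ∃ c : ℝ, ∀ᵐ x ∂P, ω (0, 0) x = c)
    (hexp : ∀ b : ℝ, Integrable (fun x => Real.exp (b * ω (0, 0) x)) P) {β : ℝ} (hβ : 0 < β)
    (h : ℝ) {ε : ℝ} (hε : 0 < ε) :
    ∀ᶠ n : ℕ in atTop, Real.sqrt (Var[fun x => Real.log (fZ β h (fun p => ω p x) n); P]) ≤ (n : ℝ) ^ (1 / 3 + ε) := by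
  obtain ⟨μ, hμdef⟩ : ∃ μ : Measure ℝ, μ = P.map fun x => β * ω (0, 0) x := ⟨_, rfl⟩
  have hm0 : Measurable fun x => β * ω (0, 0) x := (hmeas _).const_mul β
  have hprob : IsProbabilityMeasure μ := by
    rw [hμdef]
    exact Measure.isProbabilityMeasure_map hm0.aemeasurable
  have hμ : EM μ := by
    rw [hμdef]
    exact EM_of (hmeas _) hexp β
  have hnd : Nondeg μ := by
    rw [hμdef]
    exact Nondeg_of (hmeas _) hnc hβ
  have hmp := mp_toF hmeas hindep hident β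
  rw [← hμdef] at hmp
  have f := (inp20 μ hμ hnd).fac (2 * h)
  obtain ⟨a, A, ha, hA, h1⟩ := sgmS (P := P) (β := β) (ω := ω) f hmp
  obtain ⟨n₁, h2⟩ := hC μ hμ hnd (2 * h) (ε / 2) (by positivity)
  filter_upwards [eventually_ge_atTop 1, eventually_ge_atTop n₁, ev_pow20 A (show 0 < ε / 2 by positivity)] with n h3 h4 h5
  have hn : (0 : ℝ) < n := by exact_mod_cast h3
  have e1 : (n : ℝ) ^ (1 / 3 + ε) = (n : ℝ) ^ (ε / 2) * (n : ℝ) ^ (1 / 3 + ε / 2) := by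
    rw [← Real.rpow_add hn]
    ring_nf
  have hp : 0 ≤ (n : ℝ) ^ (1 / 3 + ε / 2) := Real.rpow_nonneg hn.le _
  have hE := EE_pos (μ := μ) (s := 2 * h) n
  calc Real.sqrt (Var[fun x => Real.log (fZ β h (fun p => ω p x) n); P]) ≤ A * EE μ (2 * h) n := (h1 n h3).2
    _ ≤ (n : ℝ) ^ (ε / 2) * (n : ℝ) ^ (1 / 3 + ε / 2) := mul_le_mul h5 (h2 n h4) hE.le (Real.rpow_nonneg hn.le _)
    _ = (n : ℝ) ^ (1 / 3 + ε) := e1.symm

/-- The exponents of a sequence from `n ^ (b - ε) ≤ σ_n` for all `ε`. -/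
theorem inf_ge29 {σ : ℕ → ℝ} (hσ : Bd20 σ) {b : ℝ} (h : ∀ ε : ℝ, 0 < ε → ∀ᶠ n : ℕ in atTop, (n : ℝ) ^ (b - ε) ≤ σ n) :
    b ≤ liminf (lg20 σ) atTop := by
  refine le_of_forall_pos_le_add fun ε hε => ?_
  rw [← sub_le_iff_le_add]
  exact low20 hσ (c := 1) one_pos ((h ε hε).mono fun n h1 => by rw [one_mul]; exact h1)

/-- The exponents of a sequence from `σ_n ≤ n ^ (b + ε)` for all `ε`. -/
theorem sup_le29 {σ : ℕ → ℝ} (hσ : Bd20 σ) {b : ℝ} (h : ∀ ε : ℝ, 0 < ε → ∀ᶠ n : ℕ in atTop, σ n ≤ (n : ℝ) ^ (b + ε)) :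
    limsup (lg20 σ) atTop ≤ b := by
  refine le_of_forall_pos_le_add fun ε hε => ?_
  exact up20 hσ (C := 1) one_pos ((h ε hε).mono fun n h1 => by rw [one_mul]; exact h1)

/-- `σ ^ (2 q)` from `n ^ (1 / 3 - ε) ≤ σ ≤ n ^ (1 / 3 + ε)`. -/
theorem pow_third29 {σ : ℕ → ℝ} (h1 : ∀ ε : ℝ, 0 < ε → ∀ᶠ n : ℕ in atTop, (n : ℝ) ^ (1 / 3 - ε) ≤ σ n)
    (h2 : ∀ ε : ℝ, 0 < ε → ∀ᶠ n : ℕ in atTop, σ n ≤ (n : ℝ) ^ (1 / 3 + ε)) (q : ℕ) {ε : ℝ} (hε : 0 < ε) :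
    ∀ᶠ n : ℕ in atTop, (n : ℝ) ^ (2 / 3 * (q : ℝ) - ε) ≤ (n : ℝ) ^ (-(ε / 2)) * σ n ^ (2 * q) ∧
      (n : ℝ) ^ (ε / 2) * σ n ^ (2 * q) ≤ (n : ℝ) ^ (2 / 3 * (q : ℝ) + ε) := by
  have hd : 0 < ε / (4 * (q + 1)) := by positivity
  filter_upwards [h1 _ hd, h2 _ hd, eventually_ge_atTop 1] with n h3 h4 h5
  have hn : (0 : ℝ) < n := by exact_mod_cast h5
  have hn1 : (1 : ℝ) ≤ n := by exact_mod_cast h5
  have hx : ε / (4 * (q + 1)) * (2 * q) ≤ ε / 2 := by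
    have : ε / (4 * (q + 1)) * (2 * q) = ε / 2 * (q / (q + 1)) := by
      field_simp
      ring
    rw [this]
    have h6 : (q : ℝ) / (q + 1) ≤ 1 := by
      rw [div_le_one (by positivity)]
      linarith
    nlinarith
  constructor
  · have h7 := pow_le_pow_left₀ (Real.rpow_nonneg hn.le _) h3 (2 * q)
    rw [← Real.rpow_natCast, ← Real.rpow_mul hn.le] at h7
    refine le_trans ?_ (mul_le_mul_of_nonneg_left h7 (Real.rpow_nonneg hn.le _))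
    rw [← Real.rpow_add hn]
    refine Real.rpow_le_rpow_of_exponent_le hn1 ?_
    push_cast
    nlinarith
  · have h7 := pow_le_pow_left₀ ((Real.rpow_nonneg hn.le _).trans h3) h4 (2 * q)
    rw [← Real.rpow_natCast (n := 2 * q) (x := (n : ℝ) ^ (1 / 3 + ε / (4 * (q + 1)))), ← Real.rpow_mul hn.le] at h7
    refine (mul_le_mul_of_nonneg_left h7 (Real.rpow_nonneg hn.le _)).trans ?_
    rw [← Real.rpow_add hn]
    refine Real.rpow_le_rpow_of_exponent_le hn1 ?_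
    push_cast
    nlinarith

/-- **THE KPZ EXPONENTS AT EVERY FORCE**, from `w_n ≤ n ^ ε Var`, `Var ≤ n ^ ε w_n` and `E_n = n ^ (1 / 3 + o(1))`. -/
theorem main_C29 (hL : ∀ (μ : Measure ℝ) [IsProbabilityMeasure μ], EM μ → Nondeg μ → ∀ s, LB20 μ s)
    (hU : ∀ (μ : Measure ℝ) [IsProbabilityMeasure μ], EM μ → Nondeg μ → ∀ s, UB20 μ s)
    (hC : ∀ (μ : Measure ℝ) [IsProbabilityMeasure μ], EM μ → Nondeg μ → ∀ s, CV20 μ s)
    (hD : ∀ (μ : Measure ℝ) [IsProbabilityMeasure μ], EM μ → Nondeg μ → ∀ s, CU29 μ s)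
    {Ω : Type*} [MeasurableSpace Ω] (P : Measure Ω) [IsProbabilityMeasure P]
    (ω : ℕ × ℤ → Ω → ℝ) (hmeas : ∀ p, Measurable (ω p)) (hindep : iIndepFun ω P)
    (hident : ∀ p q, IdentDistrib (ω p) (ω q) P P) (hnc : ¬ ∃ c : ℝ, ∀ᵐ x ∂P, ω (0, 0) x = c)
    (hexp : ∀ b : ℝ, Integrable (fun x => Real.exp (b * ω (0, 0) x)) P) {β : ℝ} (hβ : 0 < β) :
    ∃ (lam : ℝ → ℝ) (σ : ℝ → ℕ → ℝ), Differentiable ℝ lam ∧ deriv lam 0 = 0 ∧ Set.range (deriv lam) = Set.Ioo (-1) 1 ∧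
      (∀ h, ∀ᵐ x ∂P, Tendsto (fun n : ℕ => Real.log (endMGF β h (fun p => ω p x) n) / n) atTop (𝓝 (lam h))) ∧
      (∀ h n, σ h n = Real.sqrt (Var[fun x => Real.log (fZ β h (fun p => ω p x) n); P])) ∧
      (∀ h : ℝ, nuF P β h (deriv lam h) ω = 2 / 3 ∧ chiF P β h ω = 1 / 3 ∧
        Tendsto (fun n : ℕ => Real.log (σ h n) / Real.log n) atTop (𝓝 (1 / 3)) ∧
        (∀ (q : ℕ) (ε : ℝ), 0 < ε → ∀ᶠ n : ℕ in atTop,
          (n : ℝ) ^ (2 / 3 * (q : ℝ) - ε) ≤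
            ∫ x, fE β h (fun p => ω p x) n (fun s => |(walk s n : ℝ) - deriv lam h * n| ^ q) ∂P ∧
          ∫ x, fE β h (fun p => ω p x) n (fun s => |(walk s n : ℝ) - deriv lam h * n| ^ q) ∂P ≤
            ∫ x, fE β h (fun p => ω p x) n (fun s => mxv (deriv lam h) s ^ q) ∂P ∧
          ∫ x, fE β h (fun p => ω p x) n (fun s => mxv (deriv lam h) s ^ q) ∂P ≤ (n : ℝ) ^ (2 / 3 * (q : ℝ) + ε))) := by
  obtain ⟨lam, J, σ, hd, hd0, hr, hlim, hJ, hσ, hE, hT, hF, hV⟩ := main_A29 hL hU P ω hmeas hindep hident hnc hexp hβ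
  refine ⟨lam, σ, hd, hd0, hr, hlim, hσ, fun h => ?_⟩
  obtain ⟨g1, g2, g3, ⟨c, hc, hev, -, -, -⟩, -⟩ := hE h
  have hlow : ∀ ε : ℝ, 0 < ε → ∀ᶠ n : ℕ in atTop, (n : ℝ) ^ (1 / 3 - ε) ≤ σ h n := fun ε hε =>
    (sgm_cv29 hC P ω hmeas hindep hident hnc hexp hβ h hε).mono fun n h1 => by
      rw [hσ h n]
      exact h1
  have hup : ∀ ε : ℝ, 0 < ε → ∀ᶠ n : ℕ in atTop, σ h n ≤ (n : ℝ) ^ (1 / 3 + ε) := fun ε hε =>
    (sgm_cu29 hD P ω hmeas hindep hident hnc hexp hβ h hε).mono fun n h1 => by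
      rw [hσ h n]
      exact h1
  have hB : Bd20 (σ h) := by
    filter_upwards [hev, eventually_ge_atTop 1] with n h1 h2
    have hn1 : (1 : ℝ) ≤ n := by exact_mod_cast h2
    refine ⟨(Real.one_le_rpow hn1 (by positivity)).trans h1.1, h1.2.trans ?_⟩
    calc (n : ℝ) ^ (1 / 2 - c) ≤ (n : ℝ) ^ (1 : ℝ) := Real.rpow_le_rpow_of_exponent_le hn1 (by linarith)
      _ = n := Real.rpow_one _
  have h1 := inf_ge29 hB hlow
  have h2 := sup_le29 hB hup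
  have h3 : Tendsto (fun n : ℕ => Real.log (σ h n) / Real.log n) atTop (𝓝 (1 / 3)) := lg_tendsto29 hB h1 h2
  refine ⟨?_, ?_, h3, fun q ε hε => ?_⟩
  · rw [g2, h3.limsup_eq]
    norm_num
  · rw [g3, h3.liminf_eq]
  · filter_upwards [g1 q (ε / 2) (by positivity), pow_third29 hlow hup q hε] with n h4 h5
    exact ⟨h5.1.trans h4.1, h4.2.1, h4.2.2.trans h5.2⟩

/-- **THE UPPER HALF AT EVERY FORCE** together with the lower bound along a sequence: the transversal exponent is `2 / 3` at every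
force. -/
theorem main_M29 (hL : ∀ (μ : Measure ℝ) [IsProbabilityMeasure μ], EM μ → Nondeg μ → ∀ s, LB20 μ s)
    (hU : ∀ (μ : Measure ℝ) [IsProbabilityMeasure μ], EM μ → Nondeg μ → ∀ s, UB20 μ s)
    (hC : ∀ (μ : Measure ℝ) [IsProbabilityMeasure μ], EM μ → Nondeg μ → ∀ s, CVL29 μ s)
    (hD : ∀ (μ : Measure ℝ) [IsProbabilityMeasure μ], EM μ → Nondeg μ → ∀ s, CU29 μ s)
    {Ω : Type*} [MeasurableSpace Ω] (P : Measure Ω) [IsProbabilityMeasure P]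
    (ω : ℕ × ℤ → Ω → ℝ) (hmeas : ∀ p, Measurable (ω p)) (hindep : iIndepFun ω P)
    (hident : ∀ p q, IdentDistrib (ω p) (ω q) P P) (hnc : ¬ ∃ c : ℝ, ∀ᵐ x ∂P, ω (0, 0) x = c)
    (hexp : ∀ b : ℝ, Integrable (fun x => Real.exp (b * ω (0, 0) x)) P) {β : ℝ} (hβ : 0 < β) :
    ∃ (lam : ℝ → ℝ) (σ : ℝ → ℕ → ℝ), Differentiable ℝ lam ∧ deriv lam 0 = 0 ∧ Set.range (deriv lam) = Set.Ioo (-1) 1 ∧
      (∀ h, ∀ᵐ x ∂P, Tendsto (fun n : ℕ => Real.log (endMGF β h (fun p => ω p x) n) / n) atTop (𝓝 (lam h))) ∧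
      (∀ h n, σ h n = Real.sqrt (Var[fun x => Real.log (fZ β h (fun p => ω p x) n); P])) ∧
      (∀ h : ℝ, nuF P β h (deriv lam h) ω = 2 / 3 ∧ 1 / 4 < chiF P β h ω ∧ chiF P β h ω ≤ 1 / 3 ∧
        limsup (fun n : ℕ => Real.log (σ h n) / Real.log n) atTop = 1 / 3) := by
  obtain ⟨lam, J, σ, hd, hd0, hr, hlim, hJ, hσ, hE, hT, hF, hV⟩ := main_A29 hL hU P ω hmeas hindep hident hnc hexp hβ
  refine ⟨lam, σ, hd, hd0, hr, hlim, hσ, fun h => ?_⟩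
  obtain ⟨g1, g2, g3, ⟨c, hc, hev, g4, g5, -⟩, -⟩ := hE h
  have hup : ∀ ε : ℝ, 0 < ε → ∀ᶠ n : ℕ in atTop, σ h n ≤ (n : ℝ) ^ (1 / 3 + ε) := fun ε hε =>
    (sgm_cu29 hD P ω hmeas hindep hident hnc hexp hβ h hε).mono fun n h1 => by
      rw [hσ h n]
      exact h1
  have hB : Bd20 (σ h) := by
    filter_upwards [hev, eventually_ge_atTop 1] with n h1 h2
    have hn1 : (1 : ℝ) ≤ n := by exact_mod_cast h2
    refine ⟨(Real.one_le_rpow hn1 (by positivity)).trans h1.1, h1.2.trans ?_⟩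
    calc (n : ℝ) ^ (1 / 2 - c) ≤ (n : ℝ) ^ (1 : ℝ) := Real.rpow_le_rpow_of_exponent_le hn1 (by linarith)
      _ = n := Real.rpow_one _
  have h1 : 1 / 3 ≤ limsup (lg20 (σ h)) atTop := by
    refine le_of_forall_pos_le_add fun ε hε => ?_
    rw [← sub_le_iff_le_add]
    refine sup_ge29 hB ((sgm_cvl29 hC P ω hmeas hindep hident hnc hexp hβ h hε).mono fun n h1 => ?_)
    rw [hσ h n]
    exact h1
  have h2 := sup_le29 hB hup
  have h3 : limsup (fun n : ℕ => Real.log (σ h n) / Real.log n) atTop = 1 / 3 := le_antisymm h2 h1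
  have h4 : nuF P β h (deriv lam h) ω = 2 / 3 := by
    rw [g2, h3]
    norm_num
  exact ⟨h4, by linarith, by linarith, h3⟩

end Pool.Agent.W_7d29a1_LB
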