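import Mathlib

/-!
STORM LB + UB (helper29): the curvature exponent of the rate function is `2` once `σ_n = n ^ (1 / 3 + o(1))` (pure part).
-/

set_option autoImplicit false

namespace Pool.Agent.W_7d29a1_LB

open Filter Topology

/-- Pure: `I (w_n / n) = σ_n / n` with `w_n = n ^ (2 / 3 + o(1))`, `σ_n = n ^ (1 / 3 + o(1))` gives `I u = u ^ (2 + o(1))`. -/
theorem kap29 {I : ℝ → ℝ} {σ w : ℕ → ℝ} {c C : ℝ} {n₁ : ℕ} (hc : 0 < c)
    (hreg : ∀ u R : ℝ, 1 ≤ R → |R * u| ≤ c → c * R ^ (1 + c) * I u ≤ I (R * u) ∧ I (R * u) ≤ C * R ^ C * I u)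
    (hpos : ∀ᶠ u : ℝ in 𝓝[>] 0, 0 < I u)
    (hIw : ∀ᶠ n : ℕ in atTop, n * I (w n / n) = σ n)
    (hw : ∀ m n : ℕ, n₁ ≤ m → m ≤ n → c * ((n : ℝ) / m) ^ c * w m ≤ w n)
    (hσ1 : ∀ ε : ℝ, 0 < ε → ∀ᶠ n : ℕ in atTop, (n : ℝ) ^ (1 / 3 - ε) ≤ σ n ∧ σ n ≤ (n : ℝ) ^ (1 / 3 + ε))
    (hw1 : ∀ ε : ℝ, 0 < ε → ∀ᶠ n : ℕ in atTop, (n : ℝ) ^ (2 / 3 - ε) ≤ w n ∧ w n ≤ (n : ℝ) ^ (2 / 3 + ε)) :
    Tendsto (fun u : ℝ => Real.log (I u) / Real.log u) (𝓝[>] 0) (𝓝 2) := by
  rw [Metric.tendsto_nhds]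
  intro ε hε
  obtain ⟨e, he0, he1, he2⟩ : ∃ e : ℝ, 0 < e ∧ e ≤ 1 / 12 ∧ e ≤ ε / 40 :=
    ⟨min (1 / 12) (ε / 40), lt_min (by norm_num) (by positivity), min_le_left _ _, min_le_right _ _⟩
  have hu0 : Tendsto (fun n : ℕ => w n / n) atTop (𝓝 0) := by
    have h1 : Tendsto (fun n : ℕ => (n : ℝ) ^ (-(1 / 6 : ℝ))) atTop (𝓝 0) :=
      (tendsto_rpow_neg_atTop (by norm_num)).comp tendsto_natCast_atTop_atTop
    refine squeeze_zero' ?_ ?_ h1
    · filter_upwards [hw1 (1 / 6) (by norm_num)] with n h2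
      exact div_nonneg ((Real.rpow_nonneg n.cast_nonneg _).trans h2.1) n.cast_nonneg
    · filter_upwards [hw1 (1 / 6) (by norm_num), eventually_ge_atTop 1] with n h2 h3
      have hn : (0 : ℝ) < n := by exact_mod_cast h3
      rw [div_le_iff₀ hn]
      calc w n ≤ (n : ℝ) ^ (2 / 3 + 1 / 6 : ℝ) := h2.2
        _ = (n : ℝ) ^ (-(1 / 6 : ℝ)) * n := by
            conv_rhs => rw [← Real.rpow_one (n : ℝ), ← Real.rpow_mul hn.le, ← Real.rpow_add hn]
            norm_num
  obtain ⟨K, hK⟩ : ∃ K : ℝ, K = |Real.log C| + |C * Real.log (2 / c)| + |Real.log c| + 2 * |Real.log (2 / c)| := ⟨_, rfl⟩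
  have hev : ∀ᶠ n : ℕ in atTop, n * I (w n / n) = σ n ∧ ((n : ℝ) ^ (1 / 3 - e) ≤ σ n ∧ σ n ≤ (n : ℝ) ^ (1 / 3 + e)) ∧
      ((n : ℝ) ^ (2 / 3 - e) ≤ w n ∧ w n ≤ (n : ℝ) ^ (2 / 3 + e)) ∧ n₁ ≤ n ∧ 2 ≤ n ∧ K / e ≤ Real.log n ∧ w n / n < c := by
    filter_upwards [hIw, hσ1 e he0, hw1 e he0, eventually_ge_atTop n₁, eventually_ge_atTop 2, (Real.tendsto_log_atTop.comp tendsto_natCast_atTop_atTop).eventually_ge_atTop (K / e),
      hu0.eventually_lt_const hc] with n a1 a2 a3 a4 a5 a6 a7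
    exact ⟨a1, a2, a3, a4, a5, a6, a7⟩
  obtain ⟨N, hN⟩ := eventually_atTop.1 hev
  have hwN : 0 < w N / N := by
    obtain ⟨-, -, h3, -, h5, -, -⟩ := hN N le_rfl
    have hn : (0 : ℝ) < N := by
      have : 0 < N := by omega
      exact_mod_cast this
    exact div_pos (lt_of_lt_of_le (Real.rpow_pos_of_pos hn _) h3.1) hn
  filter_upwards [hpos, Ioo_mem_nhdsGT hwN] with u hIu hu
  have hex : ∃ n : ℕ, N ≤ n ∧ w (n + 1) / ((n + 1 : ℕ) : ℝ) < u := by
    have h1 : ∀ᶠ n : ℕ in atTop, w (n + 1) / ((n + 1 : ℕ) : ℝ) < u :=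
      (tendsto_add_atTop_nat 1).eventually (hu0.eventually_lt_const hu.1)
    obtain ⟨n, hn⟩ := (h1.and (eventually_ge_atTop N)).exists
    exact ⟨n, hn.2, hn.1⟩
  classical
  obtain ⟨n, hnN, hn1, hn2⟩ : ∃ n : ℕ, N ≤ n ∧ w (n + 1) / ((n + 1 : ℕ) : ℝ) < u ∧ u ≤ w n / n := by
    refine ⟨Nat.find hex, (Nat.find_spec hex).1, (Nat.find_spec hex).2, ?_⟩
    by_contra hcon
    push Not at hcon
    have h3 := (Nat.find_spec hex).1
    rcases Nat.eq_or_lt_of_le h3 with h4 | h4
    · rw [← h4] at hcon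
      exact absurd hu.2 (not_lt.2 hcon.le)
    · have h5 := Nat.find_min hex (m := Nat.find hex - 1) (by omega)
      apply h5
      refine ⟨by omega, ?_⟩
      rw [show Nat.find hex - 1 + 1 = Nat.find hex by omega]
      exact hcon
  obtain ⟨b1, b2, b3, b4, b5, b6, b7⟩ := hN n hnN
  have hn0 : (0 : ℝ) < n := by
    have : 0 < n := by omega
    exact_mod_cast this
  have hL : 0 < Real.log n := Real.log_pos (by exact_mod_cast (by omega : 1 < n))
  have hwn : 0 < w n := lt_of_lt_of_le (Real.rpow_pos_of_pos hn0 _) b3.1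
  have hσn : 0 < σ n := lt_of_lt_of_le (Real.rpow_pos_of_pos hn0 _) b2.1
  have hun : 0 < w n / n := div_pos hwn hn0
  have hu1 := hu.1
  -- the ratio
  have hratio : w n / n ≤ 2 / c * u := by
    have h1 := hw n (n + 1) b4 (Nat.le_succ n)
    have h2 : (1 : ℝ) ≤ (((n + 1 : ℕ) : ℝ) / n) ^ c := by
      refine Real.one_le_rpow ?_ hc.le
      rw [le_div_iff₀ hn0]
      push_cast
      linarith
    have h3 : c * w n ≤ w (n + 1) := by
      refine le_trans ?_ h1
      have : c * w n * 1 ≤ c * w n * (((n + 1 : ℕ) : ℝ) / n) ^ c := mul_le_mul_of_nonneg_left h2 (by positivity)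
      linarith
    have hn11 : (0 : ℝ) < ((n + 1 : ℕ) : ℝ) := by positivity
    have h4 : w (n + 1) < u * ((n + 1 : ℕ) : ℝ) := (div_lt_iff₀ hn11).1 hn1
    have h5 : ((n + 1 : ℕ) : ℝ) ≤ 2 * n := by
      push_cast
      have : (1 : ℝ) ≤ n := by exact_mod_cast (by omega : 1 ≤ n)
      linarith
    rw [div_mul_eq_mul_div, div_le_div_iff₀ hn0 hc]
    have h6 : u * ((n + 1 : ℕ) : ℝ) ≤ u * (2 * n) := mul_le_mul_of_nonneg_left h5 hu1.le
    nlinarith
  obtain ⟨R, hR⟩ : ∃ R : ℝ, R = w n / n / u := ⟨_, rfl⟩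
  have hR1 : 1 ≤ R := by
    rw [hR, le_div_iff₀ hu1]
    linarith
  have hRu : R * u = w n / n := by
    rw [hR]
    field_simp
  have hR2 : R ≤ 2 / c := by
    rw [hR, div_le_iff₀ hu1]
    exact hratio
  obtain ⟨k1, k2⟩ := hreg u R hR1 (by rw [hRu, abs_of_pos hun]; exact b7.le)
  rw [hRu] at k1 k2
  have hI : I (w n / n) = σ n / n := by
    rw [eq_div_iff hn0.ne']
    linarith
  rw [hI] at k1 k2
  have hsn : 0 < σ n / n := div_pos hσn hn0
  have hRC : 0 < R ^ C := Real.rpow_pos_of_pos (by linarith) _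
  have hC0 : 0 < C := by
    by_contra hcon
    push Not at hcon
    have : C * R ^ C * I u ≤ 0 := mul_nonpos_of_nonpos_of_nonneg (mul_nonpos_of_nonpos_of_nonneg hcon hRC.le) hIu.le
    linarith
  -- the four logarithms
  have l1 : Real.log (I u) ≤ Real.log (σ n) - Real.log n - Real.log c := by
    have h1 : c * I u ≤ σ n / n := by
      refine le_trans ?_ k1
      have h2 : (1 : ℝ) ≤ R ^ (1 + c) := Real.one_le_rpow hR1 (by linarith)
      have : c * I u * 1 ≤ c * I u * R ^ (1 + c) := mul_le_mul_of_nonneg_left h2 (by positivity)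
      linarith
    have h3 := Real.log_le_log (by positivity) h1
    rw [Real.log_mul hc.ne' hIu.ne', Real.log_div hσn.ne' hn0.ne'] at h3
    linarith
  have l2 : Real.log (σ n) - Real.log n - Real.log C - C * Real.log (2 / c) ≤ Real.log (I u) := by
    have h1 : σ n / n ≤ C * (2 / c) ^ C * I u := by
      refine k2.trans (mul_le_mul_of_nonneg_right (mul_le_mul_of_nonneg_left ?_ hC0.le) hIu.le)
      exact Real.rpow_le_rpow (by linarith) hR2 hC0.le
    have hpc : 0 < 2 / c := by positivity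
    have h3 := Real.log_le_log hsn h1
    rw [Real.log_mul (by positivity) hIu.ne', Real.log_mul hC0.ne' (Real.rpow_pos_of_pos hpc _).ne', Real.log_rpow hpc,
      Real.log_div hσn.ne' hn0.ne'] at h3
    linarith
  have l3 : Real.log u ≤ Real.log (w n) - Real.log n := by
    have h3 := Real.log_le_log hu1 hn2
    rwa [Real.log_div hwn.ne' hn0.ne'] at h3
  have l4 : Real.log (w n) - Real.log n - Real.log (2 / c) ≤ Real.log u := by
    have hpc : 0 < 2 / c := by positivity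
    have h3 := Real.log_le_log hun hratio
    rw [Real.log_mul hpc.ne' hu1.ne', Real.log_div hwn.ne' hn0.ne'] at h3
    linarith
  have s1 : (1 / 3 - e) * Real.log n ≤ Real.log (σ n) := by
    have := Real.log_le_log (Real.rpow_pos_of_pos hn0 _) b2.1
    rwa [Real.log_rpow hn0] at this
  have s2 : Real.log (σ n) ≤ (1 / 3 + e) * Real.log n := by
    have := Real.log_le_log hσn b2.2
    rwa [Real.log_rpow hn0] at this
  have t1 : (2 / 3 - e) * Real.log n ≤ Real.log (w n) := by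
    have := Real.log_le_log (Real.rpow_pos_of_pos hn0 _) b3.1
    rwa [Real.log_rpow hn0] at this
  have t2 : Real.log (w n) ≤ (2 / 3 + e) * Real.log n := by
    have := Real.log_le_log hwn b3.2
    rwa [Real.log_rpow hn0] at this
  have hKL : K ≤ e * Real.log n := by
    rw [div_le_iff₀ he0] at b6
    linarith
  have q1 := neg_abs_le (Real.log C)
  have q1' := le_abs_self (Real.log C)
  have q2 := neg_abs_le (C * Real.log (2 / c))
  have q2' := le_abs_self (C * Real.log (2 / c))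
  have q3 := neg_abs_le (Real.log c)
  have q3' := le_abs_self (Real.log c)
  have q4 := neg_abs_le (Real.log (2 / c))
  have q4' := le_abs_self (Real.log (2 / c))
  have q5 := abs_nonneg (Real.log C)
  have q6 := abs_nonneg (C * Real.log (2 / c))
  have q7 := abs_nonneg (Real.log c)
  have q8 := abs_nonneg (Real.log (2 / c))
  have he4 : e * Real.log n ≤ Real.log n / 12 := by
    have := mul_le_mul_of_nonneg_right he1 hL.le
    linarith
  have s1' : Real.log n / 3 - e * Real.log n ≤ Real.log (σ n) := by linarith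
  have s2' : Real.log (σ n) ≤ Real.log n / 3 + e * Real.log n := by linarith
  have t1' : 2 * Real.log n / 3 - e * Real.log n ≤ Real.log (w n) := by linarith
  have t2' : Real.log (w n) ≤ 2 * Real.log n / 3 + e * Real.log n := by linarith
  have hlu : Real.log u ≤ -(Real.log n / 4) := by linarith
  have hlu0 : Real.log u < 0 := by linarith
  rw [Real.dist_eq]
  have hkey : |Real.log (I u) / Real.log u - 2| = |Real.log (I u) - 2 * Real.log u| / -Real.log u := by
    have hne := hlu0.ne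
    have h1 : Real.log (I u) / Real.log u - 2 = (Real.log (I u) - 2 * Real.log u) / Real.log u := by
      field_simp
    rw [h1, abs_div, abs_of_neg hlu0]
  have hnum : |Real.log (I u) - 2 * Real.log u| ≤ 4 * (e * Real.log n) := by
    rw [abs_le]
    constructor <;> linarith
  rw [hkey, div_lt_iff₀ (by linarith)]
  have he3 : 0 < e * Real.log n := by positivity
  have he5 : e * Real.log n ≤ ε / 40 * Real.log n := mul_le_mul_of_nonneg_right he2 hL.le
  have he6 : ε * (Real.log n / 4) ≤ ε * (-Real.log u) := mul_le_mul_of_nonneg_left (by linarith) hε.le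
  linarith

/-- Both sides: `I (-u)` and `I u` are comparable. -/
theorem kap_two29 {I : ℝ → ℝ} {c C : ℝ} (hc : 0 < c) (hpos : ∀ᶠ u : ℝ in 𝓝[>] 0, 0 < I u ∧ 0 < I (-u))
    (hsym : ∀ u, |u| ≤ c → I (-u) ≤ C * I u)
    (h : Tendsto (fun u : ℝ => Real.log (I u) / Real.log u) (𝓝[>] 0) (𝓝 2)) :
    Tendsto (fun u : ℝ => Real.log (I u) / Real.log |u|) (𝓝[≠] 0) (𝓝 2) := by
  have hsmall : ∀ᶠ u : ℝ in 𝓝[>] 0, 0 < u ∧ u < min c (1 / 2) := by
    filter_upwards [Ioo_mem_nhdsGT (show (0 : ℝ) < min c (1 / 2) by positivity)] with u hu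
    exact hu
  have hneg : Tendsto (fun u : ℝ => Real.log (I (-u)) / Real.log |(-u)|) (𝓝[>] 0) (𝓝 2) := by
    have h1 : Tendsto (fun u : ℝ => |Real.log C| * |(Real.log u)⁻¹|) (𝓝[>] 0) (𝓝 0) := by
      have h2 : Tendsto (fun u : ℝ => (Real.log u)⁻¹) (𝓝[>] 0) (𝓝 0) :=
        tendsto_inv_atBot_zero.comp Real.tendsto_log_nhdsGT_zero
      have h3 := (h2.abs).const_mul |Real.log C|
      simpa using h3
    have h4 : Tendsto (fun u : ℝ => (Real.log (I (-u)) - Real.log (I u)) * (Real.log u)⁻¹) (𝓝[>] 0) (𝓝 0) := by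
      refine squeeze_zero_norm' ?_ h1
      filter_upwards [hpos, hsmall] with u hu hs
      have a1 := hsym u (by rw [abs_of_pos hs.1]; exact (hs.2.trans_le (min_le_left _ _)).le)
      have a2 := hsym (-u) (by rw [abs_neg, abs_of_pos hs.1]; exact (hs.2.trans_le (min_le_left _ _)).le)
      rw [neg_neg] at a2
      have hC : 0 < C := by
        by_contra hcon
        push Not at hcon
        have := mul_nonpos_of_nonpos_of_nonneg hcon hu.1.le
        linarith [hu.2]
      have b1 := Real.log_le_log hu.2 a1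
      have b2 := Real.log_le_log hu.1 a2
      rw [Real.log_mul hC.ne' hu.1.ne'] at b1
      rw [Real.log_mul hC.ne' hu.2.ne'] at b2
      rw [Real.norm_eq_abs, abs_mul]
      refine mul_le_mul_of_nonneg_right ?_ (abs_nonneg _)
      have := le_abs_self (Real.log C)
      rw [abs_le]
      constructor <;> linarith
    have h5 := h.add h4
    rw [add_zero] at h5
    refine h5.congr' ?_
    filter_upwards [hsmall] with u hs
    rw [abs_neg, abs_of_pos hs.1, div_eq_mul_inv, div_eq_mul_inv]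
    ring
  rw [← nhdsLT_sup_nhdsGT]
  refine Tendsto.sup ?_ ?_
  · have h6 : Tendsto (fun u : ℝ => -u) (𝓝[<] 0) (𝓝[>] 0) := by
      have := tendsto_neg_nhdsLT (a := (0 : ℝ))
      rwa [neg_zero] at this
    have h7 := hneg.comp h6
    refine h7.congr fun u => ?_
    simp only [Function.comp_apply, neg_neg]
  · refine h.congr' ?_
    filter_upwards [hsmall] with u hs
    rw [abs_of_pos hs.1]

end Pool.Agent.W_7d29a1_LB
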