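import Pool.Agent.W_7d29a1_LB.ConsP29
import Pool.Agent.W_7d29a1_LB.KapF29

/-!
STORM LB + UB (helper29): the final form of the exponents at every force, once `w_n ≤ n ^ ε Var`, `Var ≤ n ^ ε w_n` and
`E_n = n ^ (1 / 3 + o(1))` at every tilt.
-/

set_option autoImplicit false

namespace Pool.Agent.W_7d29a1_LB

open MeasureTheory ProbabilityTheory Filter Topology
open Pool.Agent.W_7d29a1_HK20
open Pool.Agent.W_7d29a1_HM
open Pool.Agent.W_7d29a1_h47 (EM Nondeg walk endMGF)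

/-- **THE EXPONENTS OF THE POLYMER AT EVERY FORCE, final form**: from `w_n ≤ n ^ ε Var`, `Var ≤ n ^ ε w_n` and
`E_n = n ^ (1 / 3 + o(1))` at every tilt of the law of the model. -/
theorem main_Full29 (hL : ∀ (μ : Measure ℝ) [IsProbabilityMeasure μ], EM μ → Nondeg μ → ∀ s, LB20 μ s)
    (hU : ∀ (μ : Measure ℝ) [IsProbabilityMeasure μ], EM μ → Nondeg μ → ∀ s, UB20 μ s)
    {Ω : Type*} [MeasurableSpace Ω] (P : Measure Ω) [IsProbabilityMeasure P]
    (ω : ℕ × ℤ → Ω → ℝ) (hmeas : ∀ p, Measurable (ω p)) (hindep : iIndepFun ω P)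
    (hident : ∀ p q, IdentDistrib (ω p) (ω q) P P) (hnc : ¬ ∃ c : ℝ, ∀ᵐ x ∂P, ω (0, 0) x = c)
    (hexp : ∀ b : ℝ, Integrable (fun x => Real.exp (b * ω (0, 0) x)) P) {β : ℝ} (hβ : 0 < β)
    (hC : ∀ s, CV20 (P.map fun x => β * ω (0, 0) x) s)
    (hD : ∀ s, CU29 (P.map fun x => β * ω (0, 0) x) s) :
    ∃ (lam J : ℝ → ℝ) (σ : ℝ → ℕ → ℝ), Differentiable ℝ lam ∧ deriv lam 0 = 0 ∧ Set.range (deriv lam) = Set.Ioo (-1) 1 ∧
      (∀ h, ∀ᵐ x ∂P, Tendsto (fun n : ℕ => Real.log (endMGF β h (fun p => ω p x) n) / n) atTop (𝓝 (lam h))) ∧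
      (∀ v, |v| < 1 → IsLUB (Set.range fun k => k * v - lam k) (J v)) ∧
      (∀ h n, σ h n = Real.sqrt (Var[fun x => Real.log (fZ β h (fun p => ω p x) n); P])) ∧
      -- every force
      (∀ h : ℝ, nuF P β h (deriv lam h) ω = 2 / 3 ∧ chiF P β h ω = 1 / 3 ∧
        Tendsto (fun n : ℕ => Real.log (σ h n) / Real.log n) atTop (𝓝 (1 / 3)) ∧
        Tendsto (fun u : ℝ => Real.log (J (deriv lam h + u) - J (deriv lam h) - h * u) / Real.log |u|) (𝓝[≠] 0) (𝓝 2) ∧
        (∀ (q : ℕ) (ε : ℝ), 0 < ε → ∀ᶠ n : ℕ in atTop,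
          (n : ℝ) ^ (2 / 3 * (q : ℝ) - ε) ≤
            ∫ x, fE β h (fun p => ω p x) n (fun s => |(walk s n : ℝ) - deriv lam h * n| ^ q) ∂P ∧
          ∫ x, fE β h (fun p => ω p x) n (fun s => |(walk s n : ℝ) - deriv lam h * n| ^ q) ∂P ≤
            ∫ x, fE β h (fun p => ω p x) n (fun s => mxv (deriv lam h) s ^ q) ∂P ∧
          ∫ x, fE β h (fun p => ω p x) n (fun s => mxv (deriv lam h) s ^ q) ∂P ≤ (n : ℝ) ^ (2 / 3 * (q : ℝ) + ε))) ∧
      -- a dense set of forces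
      (∃ T : Set ℝ, Dense T ∧ ∀ h ∈ T,
        ∃ c C : ℝ, 0 < c ∧
        (∀ r : ℝ, |r| ≤ 1 → c * r ^ 2 ≤ lam (h + r) - lam h - r * deriv lam h ∧
          lam (h + r) - lam h - r * deriv lam h ≤ C * r ^ 2) ∧
        (∀ᶠ n : ℕ in atTop,
          c * (n * σ h n) ≤
            ∫ x, fE β h (fun p => ω p x) n (fun s => |(walk s n : ℝ) - deriv lam h * n| ^ 2) ∂P ∧
          ∫ x, fE β h (fun p => ω p x) n (fun s => mxv (deriv lam h) s ^ 2) ∂P ≤ C * (n * σ h n)) ∧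
        (∀ᶠ n : ℕ in atTop, ∀ R : ℝ, 1 ≤ R → 1 - ∫ x, fP β h (fun p => ω p x) n
          {s | mxv (deriv lam h) s ≤ R * Real.sqrt (n * σ h n)} ∂P ≤ C * Real.exp (-(c * R ^ c))) ∧
        (∀ ε : ℝ, 0 < ε → ∃ a : ℝ, 0 < a ∧ ∀ᶠ n : ℕ in atTop, ∫ x, fP β h (fun p => ω p x) n
          {s | |(walk s n : ℝ) - deriv lam h * n| ≤ a * Real.sqrt (n * σ h n)} ∂P ≤ ε) ∧
        (∀ q : ℕ, ∃ a A : ℝ, 0 < a ∧ ∀ᶠ n : ℕ in atTop,
          a * Real.sqrt (n * σ h n) ^ q ≤
            ∫ x, fE β h (fun p => ω p x) n (fun s => |(walk s n : ℝ) - deriv lam h * n| ^ q) ∂P ∧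
          ∫ x, fE β h (fun p => ω p x) n (fun s => mxv (deriv lam h) s ^ q) ∂P ≤ A * Real.sqrt (n * σ h n) ^ q)) ∧
      -- almost every force
      (∀ᵐ h : ℝ, ∃ C : ℝ, ∀ᶠ n : ℕ in atTop,
          ∫ x, fE β h (fun p => ω p x) n (fun s => mxv (deriv lam h) s ^ 2) ∂P ≤ C * (n * σ h n)) ∧
      -- almost every velocity
      (∀ᵐ v : ℝ, ∀ h : ℝ, deriv lam h = v →
        ∃ c : ℝ, 0 < c ∧ ∀ᶠ n : ℕ in atTop, c * (n * σ h n) ≤
          ∫ x, fE β h (fun p => ω p x) n (fun s => |(walk s n : ℝ) - v * n| ^ 2) ∂P) := by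
  obtain ⟨lam, J, σ, hd, hd0, hr, hlim, hJ, hσ, hE, ⟨T, hT, hTall⟩, hF, hV⟩ :=
    main_A29 hL hU P ω hmeas hindep hident hnc hexp hβ
  obtain ⟨lam', J', F, -, h0, -, hlim', -, hJ', hall⟩ := main_F P ω hmeas hindep hident hnc hexp hβ
  have hid : lam' = lam := by
    funext h
    obtain ⟨x, hx1, hx2, hx3⟩ := ((hlim' h).and ((hlim' 0).and (hlim h))).exists
    have h1 : Tendsto (fun n : ℕ => Real.log (endMGF β h (fun p => ω p x) n) / n) atTop (𝓝 ((F + lam' h) - (F + lam' 0))) :=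
      (hx1.sub hx2).congr fun n => by rw [log_endMGF29, sub_div]
    have h2 := tendsto_nhds_unique hx3 h1
    rw [h2, h0]
    ring
  subst hid
  refine ⟨lam', J, σ, hd, hd0, hr, hlim, hJ, hσ, fun h => ?_, ⟨T, hT, fun h hh => ?_⟩, ?_, ?_⟩
  · obtain ⟨g1, g2, g3, ⟨c, hc, hev, -, -, -⟩, -⟩ := hE h
    have hlow : ∀ ε : ℝ, 0 < ε → ∀ᶠ n : ℕ in atTop, (n : ℝ) ^ (1 / 3 - ε) ≤ σ h n := fun ε hε =>
      (sgm_cvP29 P ω hmeas hindep hident hnc hexp hβ hC h hε).mono fun n h1 => by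
        rw [hσ h n]
        exact h1
    have hup : ∀ ε : ℝ, 0 < ε → ∀ᶠ n : ℕ in atTop, σ h n ≤ (n : ℝ) ^ (1 / 3 + ε) := fun ε hε =>
      (sgm_cuP29 P ω hmeas hindep hident hnc hexp hβ hD h hε).mono fun n h1 => by
        rw [hσ h n]
        exact h1
    have hB : Bd20 (σ h) := by
      filter_upwards [hev, eventually_ge_atTop 1] with n h1 h2
      have hn1 : (1 : ℝ) ≤ n := by exact_mod_cast h2
      refine ⟨(Real.one_le_rpow hn1 (by positivity)).trans h1.1, h1.2.trans ?_⟩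
      calc (n : ℝ) ^ (1 / 2 - c) ≤ (n : ℝ) ^ (1 : ℝ) := Real.rpow_le_rpow_of_exponent_le hn1 (by linarith)
        _ = n := Real.rpow_one _
    have h1 := inf_ge29 hB hlow
    have h2 := sup_le29 hB hup
    have h3 : Tendsto (fun n : ℕ => Real.log (σ h n) / Real.log n) atTop (𝓝 (1 / 3)) := lg_tendsto29 hB h1 h2
    refine ⟨?_, ?_, h3, ?_, fun q ε hε => ?_⟩
    · rw [g2, h3.limsup_eq]
      norm_num
    · rw [g3, h3.liminf_eq]
    · obtain ⟨v, I, σ', w, c', C', n₁, hc', hv, hv1, hI, hIlow, hIup, hreg, -, hσ', -, hev', hreg2, -, -, -, -, hmom, -⟩ :=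
        hall h
      subst hv
      have hσσ : σ' = σ h := by
        funext n
        rw [hσ' n, hσ h n]
      subst hσσ
      obtain ⟨a, A, ha, hm⟩ := hmom 1
      have hw1 : ∀ ε : ℝ, 0 < ε → ∀ᶠ n : ℕ in atTop, (n : ℝ) ^ (2 / 3 - ε) ≤ w n ∧ w n ≤ (n : ℝ) ^ (2 / 3 + ε) := by
        intro ε hε
        filter_upwards [hm, pow_third29 hlow hup 1 (show 0 < ε / 4 by positivity),
          g1 1 (ε / 4 / 2) (by positivity), ev_pow20 (1 / a) (show 0 < ε / 2 by positivity),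
          ev_pow20 A (show 0 < ε / 2 by positivity), eventually_ge_atTop 1, hev'] with n k1 k3 k2' k4 k5 k6 k7
        have hn : (0 : ℝ) < n := by exact_mod_cast k6
        have hw0 : 0 ≤ w n := (Real.rpow_nonneg hn.le _).trans k7.2.2.1
        have hn1 : (1 : ℝ) ≤ n := by exact_mod_cast k6
        have e1 : (n : ℝ) ^ (2 / 3 - ε / 4) ≤ A * w n := by
          have k8 := ((k3.1.trans k2'.1).trans k2'.2.1).trans k1.2
          simpa using k8
        have e2 : a * w n ≤ (n : ℝ) ^ (2 / 3 + ε / 4) := by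
          have k8 := ((k1.1.trans k2'.2.1).trans k2'.2.2).trans k3.2
          simpa using k8
        constructor
        · have e3 : (n : ℝ) ^ (2 / 3 - ε) * (n : ℝ) ^ (ε / 2) ≤ (n : ℝ) ^ (2 / 3 - ε / 4) := by
            rw [← Real.rpow_add hn]
            exact Real.rpow_le_rpow_of_exponent_le hn1 (by linarith)
          have e4 : A * w n ≤ w n * (n : ℝ) ^ (ε / 2) := by
            rw [mul_comm]
            exact mul_le_mul_of_nonneg_left k5 hw0
          exact le_of_mul_le_mul_right ((e3.trans e1).trans e4) (Real.rpow_pos_of_pos hn _)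
        · have e3 : (n : ℝ) ^ (2 / 3 + ε / 4) * (n : ℝ) ^ (ε / 2) ≤ (n : ℝ) ^ (2 / 3 + ε) := by
            rw [← Real.rpow_add hn]
            exact Real.rpow_le_rpow_of_exponent_le hn1 (by linarith)
          refine le_trans ?_ e3
          have e4 : w n ≤ 1 / a * (n : ℝ) ^ (2 / 3 + ε / 4) := by
            rw [one_div, inv_mul_eq_div, le_div_iff₀ ha]
            linarith
          refine e4.trans ?_
          rw [mul_comm]
          exact mul_le_mul_of_nonneg_left k4 (Real.rpow_nonneg hn.le _)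
      have hv2 : 0 < 1 - |deriv lam' h| := by linarith
      have hposI : ∀ u : ℝ, u ≠ 0 → |u| < 1 - |deriv lam' h| → 0 < I u := by
        intro u hu0 hu
        have h8 := abs_nonneg (deriv lam' h)
        have h9 := abs_add_le (deriv lam' h) u
        have h10 := hIlow u (by linarith) (by linarith)
        exact lt_of_lt_of_le (mul_pos hc' (Real.rpow_pos_of_pos (abs_pos.2 hu0) _)) h10
      have hsm : ∀ᶠ u : ℝ in 𝓝[>] 0, 0 < u ∧ u < 1 - |deriv lam' h| := by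
        filter_upwards [Ioo_mem_nhdsGT hv2] with u hu
        exact hu
      have hk := kap29 (I := I) (σ := σ h) (w := w) hc' hreg
        (hsm.mono fun u hu => hposI u hu.1.ne' (by rw [abs_of_pos hu.1]; exact hu.2))
        (hev'.mono fun n h4 => h4.2.2.2.2.1) (fun m n h4 h5 => (hreg2 m n h4 h5).2.2.1)
        (fun ε hε => (hlow ε hε).and (hup ε hε)) hw1
      have hk2 := kap_two29 (C := C') hc'
        (hsm.mono fun u hu => ⟨hposI u hu.1.ne' (by rw [abs_of_pos hu.1]; exact hu.2),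
          hposI (-u) (neg_ne_zero.2 hu.1.ne') (by rw [abs_neg, abs_of_pos hu.1]; exact hu.2)⟩)
        (fun u hu => (hIup u hu).2) hk
      refine hk2.congr' ?_
      have hball : ∀ᶠ u : ℝ in 𝓝[≠] 0, |u| < 1 - |deriv lam' h| := by
        have : ∀ᶠ u : ℝ in 𝓝 0, |u| < 1 - |deriv lam' h| := by
          filter_upwards [Metric.ball_mem_nhds (0 : ℝ) hv2] with u hu
          simpa using hu
        exact this.filter_mono nhdsWithin_le_nhds
      filter_upwards [hball] with u hu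
      have h9 := abs_add_le (deriv lam' h) u
      have e1 : J (deriv lam' h + u) = J' (deriv lam' h + u) := (hJ _ (by linarith)).unique (hJ' _ (by linarith))
      have e2 : J (deriv lam' h) = J' (deriv lam' h) := (hJ _ hv1).unique (hJ' _ hv1)
      rw [hI u, e1, e2]
    · filter_upwards [g1 q (ε / 2) (by positivity), pow_third29 hlow hup q hε] with n h4 h5
      exact ⟨h5.1.trans h4.1, h4.2.1, h4.2.2.trans h5.2⟩
  · obtain ⟨-, -, -, c, C, hc, h1⟩ := hTall h hh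
    exact ⟨c, C, hc, h1⟩
  · filter_upwards [hF] with h hh
    exact hh.2.2.2
  · filter_upwards [hV] with v hv h hh
    exact (hv h hh).2.2

end Pool.Agent.W_7d29a1_LB
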