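import Pool.Agent.W_7d29a1_LB.ConsP29

/-!
STORM LB + UB (helper29): the exponents for every law, with the lower bound `ν_h ≥ 2 / 3` at every force for the laws of a class.
-/

set_option autoImplicit false

namespace Pool.Agent.W_7d29a1_LB

open MeasureTheory ProbabilityTheory Filter Topology
open Pool.Agent.W_7d29a1_HK20
open Pool.Agent.W_7d29a1_HM
open Pool.Agent.W_7d29a1_h47 (EM Nondeg walk endMGF)

/-- **THE EXPONENTS**, every law, and `ν_h ≥ 2 / 3` at every force if the law is in the class `K`. -/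
theorem main_G29 (hL : ∀ (μ : Measure ℝ) [IsProbabilityMeasure μ], EM μ → Nondeg μ → ∀ s, LB20 μ s)
    (hU : ∀ (μ : Measure ℝ) [IsProbabilityMeasure μ], EM μ → Nondeg μ → ∀ s, UB20 μ s)
    {Ω : Type*} [MeasurableSpace Ω] (P : Measure Ω) [IsProbabilityMeasure P]
    (ω : ℕ × ℤ → Ω → ℝ) (hmeas : ∀ p, Measurable (ω p)) (hindep : iIndepFun ω P)
    (hident : ∀ p q, IdentDistrib (ω p) (ω q) P P) (hnc : ¬ ∃ c : ℝ, ∀ᵐ x ∂P, ω (0, 0) x = c)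
    (hexp : ∀ b : ℝ, Integrable (fun x => Real.exp (b * ω (0, 0) x)) P) {β : ℝ} (hβ : 0 < β) {K : Prop}
    (hC : K → ∀ s, CVL29 (P.map fun x => β * ω (0, 0) x) s) :
    ∃ (lam J : ℝ → ℝ) (σ : ℝ → ℕ → ℝ), Differentiable ℝ lam ∧ deriv lam 0 = 0 ∧ Set.range (deriv lam) = Set.Ioo (-1) 1 ∧
      (∀ h, ∀ᵐ x ∂P, Tendsto (fun n : ℕ => Real.log (endMGF β h (fun p => ω p x) n) / n) atTop (𝓝 (lam h))) ∧
      (∀ v, |v| < 1 → IsLUB (Set.range fun k => k * v - lam k) (J v)) ∧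
      (∀ h n, σ h n = Real.sqrt (Var[fun x => Real.log (fZ β h (fun p => ω p x) n); P])) ∧
      -- every force, laws of the class `K`
      (K → ∀ h : ℝ, (∀ ε : ℝ, 0 < ε → ∃ᶠ n : ℕ in atTop, (n : ℝ) ^ (1 / 3 - ε) ≤ σ h n) ∧ 2 / 3 ≤ nuF P β h (deriv lam h) ω) ∧
      -- every force
      (∀ h : ℝ,
        (∀ (q : ℕ) (ε : ℝ), 0 < ε → ∀ᶠ n : ℕ in atTop,
          (n : ℝ) ^ (-ε) * σ h n ^ (2 * q) ≤
            ∫ x, fE β h (fun p => ω p x) n (fun s => |(walk s n : ℝ) - deriv lam h * n| ^ q) ∂P ∧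
          ∫ x, fE β h (fun p => ω p x) n (fun s => |(walk s n : ℝ) - deriv lam h * n| ^ q) ∂P ≤
            ∫ x, fE β h (fun p => ω p x) n (fun s => mxv (deriv lam h) s ^ q) ∂P ∧
          ∫ x, fE β h (fun p => ω p x) n (fun s => mxv (deriv lam h) s ^ q) ∂P ≤ (n : ℝ) ^ ε * σ h n ^ (2 * q)) ∧
        nuF P β h (deriv lam h) ω = 2 * limsup (fun n : ℕ => Real.log (σ h n) / Real.log n) atTop ∧
        chiF P β h ω = liminf (fun n : ℕ => Real.log (σ h n) / Real.log n) atTop ∧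
        (∃ c : ℝ, 0 < c ∧ (∀ᶠ n : ℕ in atTop, (n : ℝ) ^ (1 / 4 + c) ≤ σ h n ∧ σ h n ≤ (n : ℝ) ^ (1 / 2 - c)) ∧
          1 / 4 + c ≤ chiF P β h ω ∧ chiF P β h ω ≤ nuF P β h (deriv lam h) ω / 2 ∧
          nuF P β h (deriv lam h) ω ≤ 1 - c) ∧
        (∀ κ : ℝ, Tendsto (fun u : ℝ => Real.log (J (deriv lam h + u) - J (deriv lam h) - h * u) / Real.log u) (𝓝[>] 0)
          (𝓝 κ) →
          Tendsto (fun n : ℕ => Real.log (σ h n) / Real.log n) atTop (𝓝 ((κ - 1) / (2 * κ - 1))) ∧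
          nuF P β h (deriv lam h) ω = (2 * κ - 2) / (2 * κ - 1) ∧ chiF P β h ω = (κ - 1) / (2 * κ - 1))) ∧
      -- a dense set of forces
      (∃ T : Set ℝ, Dense T ∧ ∀ h ∈ T,
        nuF P β h (deriv lam h) ω = 2 / 3 ∧ chiF P β h ω = 1 / 3 ∧
        Tendsto (fun n : ℕ => Real.log (σ h n) / Real.log n) atTop (𝓝 (1 / 3)) ∧
        ∃ c C : ℝ, 0 < c ∧
        (∀ r : ℝ, |r| ≤ 1 → c * r ^ 2 ≤ lam (h + r) - lam h - r * deriv lam h ∧
          lam (h + r) - lam h - r * deriv lam h ≤ C * r ^ 2) ∧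
        (∀ᶠ n : ℕ in atTop,
          c * (n * σ h n) ≤
            ∫ x, fE β h (fun p => ω p x) n (fun s => |(walk s n : ℝ) - deriv lam h * n| ^ 2) ∂P ∧
          ∫ x, fE β h (fun p => ω p x) n (fun s => mxv (deriv lam h) s ^ 2) ∂P ≤ C * (n * σ h n)) ∧
        (∀ᶠ n : ℕ in atTop, ∀ R : ℝ, 1 ≤ R → 1 - ∫ x, fP β h (fun p => ω p x) n
          {s | mxv (deriv lam h) s ≤ R * Real.sqrt (n * σ h n)} ∂P ≤ C * Real.exp (-(c * R ^ c))) ∧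
        (∀ ε : ℝ, 0 < ε → ∃ a : ℝ, 0 < a ∧ ∀ᶠ n : ℕ in atTop, ∫ x, fP β h (fun p => ω p x) n
          {s | |(walk s n : ℝ) - deriv lam h * n| ≤ a * Real.sqrt (n * σ h n)} ∂P ≤ ε) ∧
        (∀ q : ℕ, ∃ a A : ℝ, 0 < a ∧ ∀ᶠ n : ℕ in atTop,
          a * Real.sqrt (n * σ h n) ^ q ≤
            ∫ x, fE β h (fun p => ω p x) n (fun s => |(walk s n : ℝ) - deriv lam h * n| ^ q) ∂P ∧
          ∫ x, fE β h (fun p => ω p x) n (fun s => mxv (deriv lam h) s ^ q) ∂P ≤ A * Real.sqrt (n * σ h n) ^ q)) ∧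
      -- almost every force
      (∀ᵐ h : ℝ, nuF P β h (deriv lam h) ω ≤ 2 / 3 ∧ chiF P β h ω ≤ 1 / 3 ∧
        limsup (fun n : ℕ => Real.log (σ h n) / Real.log n) atTop ≤ 1 / 3 ∧
        ∃ C : ℝ, ∀ᶠ n : ℕ in atTop,
          ∫ x, fE β h (fun p => ω p x) n (fun s => mxv (deriv lam h) s ^ 2) ∂P ≤ C * (n * σ h n)) ∧
      -- almost every velocity
      (∀ᵐ v : ℝ, ∀ h : ℝ, deriv lam h = v → 2 / 3 ≤ nuF P β h v ω ∧ 1 / 3 ≤ chiF P β h ω ∧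
        ∃ c : ℝ, 0 < c ∧ ∀ᶠ n : ℕ in atTop, c * (n * σ h n) ≤
          ∫ x, fE β h (fun p => ω p x) n (fun s => |(walk s n : ℝ) - v * n| ^ 2) ∂P) := by
  obtain ⟨lam, J, σ, hd, hd0, hr, hlim, hJ, hσ, hE, hT, hF, hV⟩ := main_A29 hL hU P ω hmeas hindep hident hnc hexp hβ
  refine ⟨lam, J, σ, hd, hd0, hr, hlim, hJ, hσ, fun hK h => ?_, hE, hT, hF, hV⟩
  have hlow : ∀ ε : ℝ, 0 < ε → ∃ᶠ n : ℕ in atTop, (n : ℝ) ^ (1 / 3 - ε) ≤ σ h n := fun ε hε =>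
    (sgm_cvlP29 P ω hmeas hindep hident hnc hexp hβ (hC hK) h hε).mono fun n h1 => by
      rw [hσ h n]
      exact h1
  obtain ⟨-, g2, -, ⟨c, hc, hev, -⟩, -⟩ := hE h
  have hB : Bd20 (σ h) := by
    filter_upwards [hev, eventually_ge_atTop 1] with n h1 h2
    have hn1 : (1 : ℝ) ≤ n := by exact_mod_cast h2
    refine ⟨(Real.one_le_rpow hn1 (by positivity)).trans h1.1, h1.2.trans ?_⟩
    calc (n : ℝ) ^ (1 / 2 - c) ≤ (n : ℝ) ^ (1 : ℝ) := Real.rpow_le_rpow_of_exponent_le hn1 (by linarith)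
      _ = n := Real.rpow_one _
  have hls : 1 / 3 ≤ limsup (lg20 (σ h)) atTop := by
    refine le_of_forall_pos_le_add fun ε hε => ?_
    rw [← sub_le_iff_le_add]
    exact sup_ge29 hB (hlow ε hε)
  refine ⟨hlow, ?_⟩
  have h3 : limsup (fun n : ℕ => Real.log (σ h n) / Real.log n) atTop = limsup (lg20 (σ h)) atTop := rfl
  rw [g2, h3]
  linarith

end Pool.Agent.W_7d29a1_LB
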