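import Pool.Agent.W_7d29a1_Z17.CoinB17

/-!
STORM LB (MP_7d29a1_pr), row 671, section 4: the covariance bound in a finite set of fresh sites (Lemma 4.1). (helper43)
-/

namespace Pool.Agent.W_7d29a1_LB

open MeasureTheory ProbabilityTheory Filter Topology
open Pool.Agent.W_7d29a1_F Pool.Agent.W_7d29a1_Z17

noncomputable section

variable {μ : Measure ℝ} [IsProbabilityMeasure μ]

/-- **One coordinate**: an integrable function `H` which is monotone in the coordinate `v`, with the sensitivity `G`,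
is positively correlated with `ph` at `v`. -/
theorem one_up {a b : ℝ} (hab : a < b) {v : Pt} {H G : Env → ℝ} (hH : Measurable H) (hG : Measurable G)
    (hHi : Integrable H (law μ)) (hG0 : ∀ η, 0 ≤ G η) (hGi : Integrable G (law μ))
    (hmono : ∀ η t, η v ≤ t → H η ≤ H (Function.update η v t))
    (hsens : ∀ η t, G η * min |η v - t| 1 ≤ |H η - H (Function.update η v t)|) :
    kap μ a b * ∫ η, G η ∂(law μ) ≤ 2 * ∫ η, H η * ph μ a b (η v) ∂(law μ) := by
  have hu := mp_upd (μ := μ) v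
  have hx := mp_exch (μ := μ) v
  have hev : Measurable fun η : Env => η v := measurable_pi_apply v
  have hph := ph_meas (μ := μ) a b
  have hcl := cl_meas a b
  have hpab := ph_abs (μ := μ) hab.le
  have hba : 0 ≤ b - a := by linarith
  have mU : Measurable fun q : Env × ℝ => H q.1 := hH.comp measurable_fst
  have mU' : Measurable fun q : Env × ℝ => H (Function.update q.1 v q.2) := hH.comp hu.measurable
  have mA : Measurable fun q : Env × ℝ => ph μ a b (q.1 v) := hph.comp (hev.comp measurable_fst)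
  have mB : Measurable fun q : Env × ℝ => ph μ a b q.2 := hph.comp measurable_snd
  have iU : Integrable (fun q : Env × ℝ => H q.1) ((law μ).prod μ) := hHi.comp_fst μ
  have iU' : Integrable (fun q : Env × ℝ => H (Function.update q.1 v q.2)) ((law μ).prod μ) :=
    hu.integrable_comp_of_integrable hHi
  have bdd : ∀ (f g : Env × ℝ → ℝ) (_ : Integrable f ((law μ).prod μ)) (_ : Measurable f) (_ : Measurable g)
      (_ : ∀ q, |g q| ≤ b - a), Integrable (fun q => f q * g q) ((law μ).prod μ) := by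
    intro f g hf hfm hg hB
    refine (hf.norm.mul_const (b - a)).mono' (hfm.mul hg).aestronglyMeasurable (ae_of_all _ fun q => ?_)
    rw [norm_mul]
    exact mul_le_mul_of_nonneg_left (hB q) (norm_nonneg _)
  have i1 : Integrable (fun q : Env × ℝ => H q.1 * ph μ a b (q.1 v)) ((law μ).prod μ) :=
    bdd _ _ iU mU mA fun q => hpab _
  have i2 : Integrable (fun q : Env × ℝ => H q.1 * ph μ a b q.2) ((law μ).prod μ) :=
    bdd _ _ iU mU mB fun q => hpab _
  have i3 : Integrable (fun q : Env × ℝ => H (Function.update q.1 v q.2) * ph μ a b (q.1 v)) ((law μ).prod μ) :=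
    bdd _ _ iU' mU' mA fun q => hpab _
  have i4 : Integrable (fun q : Env × ℝ => H (Function.update q.1 v q.2) * ph μ a b q.2) ((law μ).prod μ) :=
    bdd _ _ iU' mU' mB fun q => hpab _
  -- the four integrals
  have e1 : ∫ q : Env × ℝ, H q.1 * ph μ a b (q.1 v) ∂((law μ).prod μ) = ∫ η, H η * ph μ a b (η v) ∂(law μ) := by
    rw [integral_prod _ i1]
    simp
  have e2 : ∫ q : Env × ℝ, H q.1 * ph μ a b q.2 ∂((law μ).prod μ) = 0 := by
    rw [integral_prod _ i2]
    simp only [integral_const_mul, ph_zero hab.le, mul_zero, integral_zero]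
  have exch : ∀ f : Env × ℝ → ℝ, Measurable f →
      ∫ q : Env × ℝ, f (Function.update q.1 v q.2, q.1 v) ∂((law μ).prod μ) = ∫ q, f q ∂((law μ).prod μ) := by
    intro f hf
    have h := integral_map (μ := (law μ).prod μ) (φ := fun q : Env × ℝ => (Function.update q.1 v q.2, q.1 v))
      hx.measurable.aemeasurable (f := f) hf.aestronglyMeasurable
    rw [hx.map_eq] at h
    exact h.symm
  have e3 : ∫ q : Env × ℝ, H (Function.update q.1 v q.2) * ph μ a b (q.1 v) ∂((law μ).prod μ) = 0 := by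
    rw [← e2, ← exch (fun q => H q.1 * ph μ a b q.2) (mU.mul mB)]
  have e4 : ∫ q : Env × ℝ, H (Function.update q.1 v q.2) * ph μ a b q.2 ∂((law μ).prod μ) =
      ∫ η, H η * ph μ a b (η v) ∂(law μ) := by
    rw [← e1, ← exch (fun q => H q.1 * ph μ a b (q.1 v)) (mU.mul mA)]
    refine integral_congr_ae (ae_of_all _ fun q => ?_)
    simp
  have hmain : 2 * ∫ η, H η * ph μ a b (η v) ∂(law μ) =
      ∫ q : Env × ℝ, (H q.1 - H (Function.update q.1 v q.2)) * (ph μ a b (q.1 v) - ph μ a b q.2)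
        ∂((law μ).prod μ) := by
    have : ∀ q : Env × ℝ, (H q.1 - H (Function.update q.1 v q.2)) * (ph μ a b (q.1 v) - ph μ a b q.2) =
        (H q.1 * ph μ a b (q.1 v) - H q.1 * ph μ a b q.2) -
        (H (Function.update q.1 v q.2) * ph μ a b (q.1 v) - H (Function.update q.1 v q.2) * ph μ a b q.2) := by
      intro q
      ring
    have h1 := integral_sub (i1.sub i2) (i3.sub i4)
    simp only [Pi.sub_apply] at h1
    rw [integral_congr_ae (ae_of_all _ this), h1, integral_sub i1 i2, integral_sub i3 i4, e1, e2, e3, e4]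
    ring
  -- the pointwise bound
  have hpt : ∀ q : Env × ℝ, G q.1 * (min |q.1 v - q.2| 1 * |cl a b (q.1 v) - cl a b q.2|) ≤
      (H q.1 - H (Function.update q.1 v q.2)) * (ph μ a b (q.1 v) - ph μ a b q.2) := by
    intro q
    have hd : ph μ a b (q.1 v) - ph μ a b q.2 = cl a b (q.1 v) - cl a b q.2 := by
      unfold ph
      ring
    rw [hd]
    have hs := hsens q.1 q.2
    rcases le_total (q.1 v) q.2 with h | h
    · have h1 : H q.1 ≤ H (Function.update q.1 v q.2) := hmono q.1 q.2 h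
      have h2 : cl a b (q.1 v) ≤ cl a b q.2 := cl_mono a b h
      rw [abs_of_nonpos (by linarith : H q.1 - H (Function.update q.1 v q.2) ≤ 0)] at hs
      rw [abs_of_nonpos (by linarith : cl a b (q.1 v) - cl a b q.2 ≤ 0)]
      nlinarith
    · have h1 : H (Function.update q.1 v q.2) ≤ H q.1 := by
        have := hmono (Function.update q.1 v q.2) (q.1 v) (by simpa using h)
        simpa using this
      have h2 : cl a b q.2 ≤ cl a b (q.1 v) := cl_mono a b h
      rw [abs_of_nonneg (by linarith : 0 ≤ H q.1 - H (Function.update q.1 v q.2))] at hs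
      rw [abs_of_nonneg (by linarith : 0 ≤ cl a b (q.1 v) - cl a b q.2)]
      nlinarith
  -- the integral of the lower bound
  have mL : Measurable fun q : Env × ℝ => G q.1 * (min |q.1 v - q.2| 1 * |cl a b (q.1 v) - cl a b q.2|) := by
    have g1 : Measurable fun q : Env × ℝ => q.1 v := hev.comp measurable_fst
    have g2 : Measurable fun q : Env × ℝ => cl a b (q.1 v) := hcl.comp g1
    have g3 : Measurable fun q : Env × ℝ => cl a b q.2 := hcl.comp measurable_snd
    exact (hG.comp measurable_fst).mul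
      (((g1.sub measurable_snd).abs.min measurable_const).mul (g2.sub g3).abs)
  have clb : ∀ x t : ℝ, abs (min |x - t| 1 * |cl a b x - cl a b t|) ≤ b - a := by
    intro x t
    have h1 : |cl a b x - cl a b t| ≤ b - a := by
      rw [abs_le]
      constructor <;> linarith [cl_ge a b x, cl_ge a b t, cl_le hab.le x, cl_le hab.le t]
    have h2 : abs (min |x - t| 1) ≤ 1 := by
      rw [abs_of_nonneg (le_min (abs_nonneg _) zero_le_one)]
      exact min_le_right _ _
    rw [abs_mul, abs_abs]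
    calc _ ≤ 1 * (b - a) := mul_le_mul h2 h1 (abs_nonneg _) zero_le_one
      _ = b - a := one_mul _
  have iL : Integrable (fun q : Env × ℝ => G q.1 * (min |q.1 v - q.2| 1 * |cl a b (q.1 v) - cl a b q.2|))
      ((law μ).prod μ) := by
    have hG2 : Integrable (fun q : Env × ℝ => (b - a) * G q.1) ((law μ).prod μ) :=
      (hGi.comp_fst μ).const_mul _
    refine hG2.mono' mL.aestronglyMeasurable (ae_of_all _ fun q => ?_)
    rw [Real.norm_eq_abs, abs_mul, abs_of_nonneg (hG0 q.1), mul_comm]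
    exact mul_le_mul_of_nonneg_right (clb _ _) (hG0 _)
  have hL : kap μ a b * ∫ η, G η ∂(law μ) ≤
      ∫ q : Env × ℝ, G q.1 * (min |q.1 v - q.2| 1 * |cl a b (q.1 v) - cl a b q.2|) ∂((law μ).prod μ) := by
    rw [integral_prod _ iL, ← integral_const_mul]
    refine integral_mono_ae (hGi.const_mul _) iL.integral_prod_left (ae_of_all _ fun η => ?_)
    simp only [integral_const_mul]
    rw [mul_comm]
    exact mul_le_mul_of_nonneg_left (kap_le hab (η v)) (hG0 η)
  have iM : Integrable (fun q : Env × ℝ => (H q.1 - H (Function.update q.1 v q.2)) *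
      (ph μ a b (q.1 v) - ph μ a b q.2)) ((law μ).prod μ) := by
    have h := (i1.sub i2).sub (i3.sub i4)
    refine h.congr (ae_of_all _ fun q => ?_)
    simp only [Pi.sub_apply]
    ring
  have hfin := integral_mono iL iM hpt
  rw [← hmain] at hfin
  linarith

/-- **Many coordinates.** -/
theorem many_up {a b : ℝ} (hab : a < b) (D : Finset Pt) {H : Env → ℝ} {G : Pt → Env → ℝ} (hH : Measurable H)
    (hG : ∀ v ∈ D, Measurable (G v)) (hH0 : ∀ η, 0 ≤ H η) (hH2 : Integrable (fun η => H η ^ 2) (law μ))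
    (hG0 : ∀ v ∈ D, ∀ η, 0 ≤ G v η) (hGi : ∀ v ∈ D, Integrable (G v) (law μ))
    (hmono : ∀ v ∈ D, ∀ η t, η v ≤ t → H η ≤ H (Function.update η v t))
    (hsens : ∀ v ∈ D, ∀ η t, G v η * min |η v - t| 1 ≤ |H η - H (Function.update η v t)|) {u : ℝ} (hu : 0 ≤ u) :
    kap μ a b * ∫ η, ∑ v ∈ D, G v η ∂(law μ) ≤
      2 * (b - a) * (u * √(D.card : ℝ) * ∫ η, H η ∂(law μ) +
        D.card * √(∫ η, H η ^ 2 ∂(law μ)) * Real.exp (-u ^ 2)) := by
  classical
  have hba : 0 < b - a := by linarith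
  rcases D.eq_empty_or_nonempty with hD | hD
  · subst hD
    simp
  have hHi : Integrable H (law μ) := by
    have h1 : MemLp H 2 (law μ) := (memLp_two_iff_integrable_sq hH.aestronglyMeasurable).2 hH2
    exact h1.integrable (by norm_num)
  have hcard : (0 : ℝ) < D.card := by exact_mod_cast hD.card_pos
  have hev : ∀ v : Pt, Measurable fun η : Env => η v := fun v => measurable_pi_apply v
  have hph := ph_meas (μ := μ) a b
  have hpab := ph_abs (μ := μ) hab.le
  have he : ∀ v : Pt, MeasurePreserving (fun ξ : Env => ξ v) (law μ) μ := fun v => by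
    unfold law
    exact measurePreserving_eval_infinitePi _ _
  -- the sum over the sites
  have h1 : kap μ a b * ∫ η, ∑ v ∈ D, G v η ∂(law μ) ≤
      2 * ∑ v ∈ D, ∫ η, H η * ph μ a b (η v) ∂(law μ) := by
    rw [integral_finset_sum _ hGi, Finset.mul_sum, Finset.mul_sum]
    exact Finset.sum_le_sum fun v hv =>
      one_up (μ := μ) hab hH (hG v hv) hHi (hG0 v hv) (hGi v hv) (hmono v hv) (hsens v hv)
  have iv : ∀ v ∈ D, Integrable (fun η => H η * ph μ a b (η v)) (law μ) := by
    intro v _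
    refine (hHi.norm.mul_const (b - a)).mono' (hH.mul (hph.comp (hev v))).aestronglyMeasurable
      (ae_of_all _ fun η => ?_)
    rw [norm_mul]
    exact mul_le_mul_of_nonneg_left (hpab _) (norm_nonneg _)
  set Y : Env → ℝ := fun η => ∑ v ∈ D, ph μ a b (η v) with hY
  have hYm : Measurable Y := Finset.measurable_sum _ fun v _ => hph.comp (hev v)
  have hYb : ∀ η, Y η ≤ D.card * (b - a) := by
    intro η
    have : ∀ v ∈ D, ph μ a b (η v) ≤ b - a := fun v _ => (le_abs_self _).trans (hpab _)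
    have h := Finset.sum_le_card_nsmul D _ _ this
    rw [nsmul_eq_mul] at h
    exact h
  have h2 : ∑ v ∈ D, ∫ η, H η * ph μ a b (η v) ∂(law μ) = ∫ η, H η * Y η ∂(law μ) := by
    rw [← integral_finset_sum _ iv]
    refine integral_congr_ae (ae_of_all _ fun η => ?_)
    simp only [hY, Finset.mul_sum]
  -- Hoeffding
  set ε : ℝ := u * (b - a) * √(D.card : ℝ) with hε
  have hε0 : 0 ≤ ε := by positivity
  have hind : iIndepFun (fun (v : Pt) (η : Env) => ph μ a b (η v)) (law μ) := by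
    unfold law
    exact iIndepFun_infinitePi (P := fun _ : Pt => μ) (X := fun _ x => ph μ a b x) fun _ => hph
  have hsub : ∀ v ∈ D, HasSubgaussianMGF (fun η : Env => ph μ a b (η v)) ((‖b - a‖₊ / 2) ^ 2) (law μ) := by
    intro v _
    have hX : HasSubgaussianMGF (fun η : Env => (fun ξ : Env => cl a b (ξ v)) η -
        ∫ ξ : Env, cl a b (ξ v) ∂(law μ)) ((‖b - a‖₊ / 2) ^ 2) (law μ) :=
      hasSubgaussianMGF_of_mem_Icc ((cl_meas a b).comp (hev v)).aemeasurable
        (ae_of_all _ fun η => ⟨cl_ge a b _, cl_le hab.le _⟩)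
    have hm : ∫ ξ : Env, cl a b (ξ v) ∂(law μ) = ∫ t, cl a b t ∂μ := by
      have h := integral_map (μ := law μ) (φ := fun ξ : Env => ξ v) (hev v).aemeasurable (f := cl a b)
        (cl_meas a b).aestronglyMeasurable
      rw [(he v).map_eq] at h
      exact h.symm
    refine hX.congr (ae_of_all _ fun η => ?_)
    simp only [hm, ph]
  have hhoef : (law μ).real {η | ε ≤ Y η} ≤ Real.exp (-2 * u ^ 2) := by
    refine (HasSubgaussianMGF.measure_sum_ge_le_of_iIndepFun hind hsub hε0).trans (le_of_eq ?_)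
    congr 1
    have hc : (((‖b - a‖₊ / 2) ^ 2 : NNReal) : ℝ) = ((b - a) / 2) ^ 2 := by
      push_cast
      rw [Real.norm_eq_abs, abs_of_pos hba]
    rw [Finset.sum_const, nsmul_eq_mul, NNReal.coe_mul, hc, hε]
    push_cast
    have hs : √(D.card : ℝ) ^ 2 = D.card := Real.sq_sqrt hcard.le
    rw [mul_pow, mul_pow, hs]
    field_simp
  -- the truncation
  have hmS : MeasurableSet {η | ε ≤ Y η} := measurableSet_le measurable_const hYm
  set T : Env → ℝ := {η | ε ≤ Y η}.indicator (fun _ => (1 : ℝ)) with hT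
  have hTm : Measurable T := measurable_const.indicator hmS
  have hT01 : ∀ η, T η = 0 ∨ T η = 1 := by
    intro η
    by_cases h : ε ≤ Y η
    · right
      exact Set.indicator_of_mem (show η ∈ {η | ε ≤ Y η} from h) _
    · left
      exact Set.indicator_of_notMem (show η ∉ {η | ε ≤ Y η} from h) _
  have hpt : ∀ η, H η * Y η ≤ ε * H η + ((D.card : ℝ) * (b - a)) * (H η * T η) := by
    intro η
    by_cases h : ε ≤ Y η
    · have : T η = 1 := Set.indicator_of_mem (show η ∈ {η | ε ≤ Y η} from h) _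
      rw [this]
      have h3 : H η * Y η ≤ H η * (D.card * (b - a)) := mul_le_mul_of_nonneg_left (hYb η) (hH0 η)
      have h4 : 0 ≤ ε * H η := mul_nonneg hε0 (hH0 η)
      linarith
    · have : T η = 0 := Set.indicator_of_notMem (show η ∉ {η | ε ≤ Y η} from h) _
      rw [this]
      have h3 : H η * Y η ≤ H η * ε := mul_le_mul_of_nonneg_left (not_le.1 h).le (hH0 η)
      linarith
  have iHT : Integrable (fun η => H η * T η) (law μ) := by
    refine hHi.norm.mono' (hH.mul hTm).aestronglyMeasurable (ae_of_all _ fun η => ?_)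
    rw [norm_mul]
    rcases hT01 η with h | h <;> rw [h] <;> simp
  have iHY : Integrable (fun η => H η * Y η) (law μ) := by
    have := integrable_finset_sum D iv
    refine this.congr (ae_of_all _ fun η => ?_)
    simp only [hY, Finset.mul_sum]
  have hCS : ∫ η, H η * T η ∂(law μ) ≤ √(∫ η, H η ^ 2 ∂(law μ)) * Real.exp (-u ^ 2) := by
    have hL2 : MemLp H (ENNReal.ofReal 2) (law μ) := by
      have : ENNReal.ofReal 2 = 2 := by norm_num
      rw [this]
      exact (memLp_two_iff_integrable_sq hH.aestronglyMeasurable).2 hH2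
    have hT2 : MemLp T (ENNReal.ofReal 2) (law μ) := by
      refine MemLp.of_bound hTm.aestronglyMeasurable 1 (ae_of_all _ fun η => ?_)
      rcases hT01 η with h | h <;> rw [h] <;> simp
    have h := integral_mul_le_Lp_mul_Lq_of_nonneg (μ := law μ) (p := 2) (q := 2)
      (by constructor <;> norm_num) (f := H) (g := T) (ae_of_all _ hH0)
      (ae_of_all _ fun η => by rcases hT01 η with h | h <;> rw [h] <;> simp) hL2 hT2
    refine h.trans ?_
    have e1 : (∫ η, H η ^ (2 : ℝ) ∂(law μ)) ^ (1 / (2 : ℝ)) = √(∫ η, H η ^ 2 ∂(law μ)) := by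
      rw [Real.sqrt_eq_rpow]
      congr 1
      refine integral_congr_ae (ae_of_all _ fun η => ?_)
      simp only [Real.rpow_two]
    have e2 : (∫ η, T η ^ (2 : ℝ) ∂(law μ)) ^ (1 / (2 : ℝ)) ≤ Real.exp (-u ^ 2) := by
      have h3 : ∫ η, T η ^ (2 : ℝ) ∂(law μ) = (law μ).real {η | ε ≤ Y η} := by
        have h4 : ∀ η, T η ^ (2 : ℝ) = T η := by
          intro η
          rcases hT01 η with h | h <;> rw [h] <;> simp
        rw [integral_congr_ae (ae_of_all _ h4), hT, integral_indicator_const _ hmS, smul_eq_mul, mul_one]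
      rw [h3, ← Real.sqrt_eq_rpow]
      refine Real.sqrt_le_iff.2 ⟨(Real.exp_pos _).le, hhoef.trans (le_of_eq ?_)⟩
      rw [← Real.exp_nat_mul]
      congr 1
      push_cast
      ring
    rw [e1]
    exact mul_le_mul_of_nonneg_left e2 (Real.sqrt_nonneg _)
  have h5 : ∫ η, H η * Y η ∂(law μ) ≤ ε * ∫ η, H η ∂(law μ) +
      D.card * (b - a) * (√(∫ η, H η ^ 2 ∂(law μ)) * Real.exp (-u ^ 2)) := by
    have h6 := integral_mono iHY ((hHi.const_mul ε).add (iHT.const_mul ((D.card : ℝ) * (b - a)))) hpt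
    have h7 : ∫ η, ((fun η => ε * H η) + fun η => ((D.card : ℝ) * (b - a)) * (H η * T η)) η ∂(law μ) =
        ε * ∫ η, H η ∂(law μ) + ((D.card : ℝ) * (b - a)) * ∫ η, H η * T η ∂(law μ) := by
      rw [integral_add' (hHi.const_mul ε) (iHT.const_mul _), integral_const_mul, integral_const_mul]
    rw [h7] at h6
    refine h6.trans ?_
    have h8 := mul_le_mul_of_nonneg_left hCS (by positivity : (0 : ℝ) ≤ (D.card : ℝ) * (b - a))
    linarith
  calc kap μ a b * ∫ η, ∑ v ∈ D, G v η ∂(law μ) ≤ 2 * ∫ η, H η * Y η ∂(law μ) := by rw [← h2]; exact h1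
    _ ≤ 2 * (ε * ∫ η, H η ∂(law μ) + D.card * (b - a) * (√(∫ η, H η ^ 2 ∂(law μ)) * Real.exp (-u ^ 2))) := by
        linarith
    _ = _ := by
        rw [hε]
        ring

/-! ### The path form -/

/-- The mass of a family `F` of paths: `c p` is the constant weight of `p`, `S p` the set of its fresh sites. -/
def mF {P : Type*} (F : Finset P) (c : P → ℝ) (S : P → Finset Pt) (ξ : Env) : ℝ :=
  ∑ p ∈ F, c p * Real.exp (∑ v ∈ S p, ξ v)

section Paths

variable {P : Type*} {F : Finset P} {c : P → ℝ} {S : P → Finset Pt}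

lemma mF_pos (hc : ∀ p ∈ F, 0 < c p) (hne : F.Nonempty) (ξ : Env) : 0 < mF F c S ξ :=
  Finset.sum_pos (fun p hp => mul_pos (hc p hp) (Real.exp_pos _)) hne

lemma mF_nonneg (hc : ∀ p ∈ F, 0 < c p) (ξ : Env) : 0 ≤ mF F c S ξ :=
  Finset.sum_nonneg fun p hp => (mul_pos (hc p hp) (Real.exp_pos _)).le

lemma mF_meas (F : Finset P) (c : P → ℝ) (S : P → Finset Pt) : Measurable (mF F c S) := by
  unfold mF
  refine Finset.measurable_sum _ fun p _ => ?_
  exact (Real.measurable_exp.comp (Finset.measurable_sum _ fun v _ => measurable_pi_apply v)).const_mul _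

lemma mF_mono {F' : Finset P} (hc : ∀ p ∈ F, 0 < c p) (h : F' ⊆ F) (ξ : Env) : mF F' c S ξ ≤ mF F c S ξ :=
  Finset.sum_le_sum_of_subset_of_nonneg h fun p hp _ => (mul_pos (hc p hp) (Real.exp_pos _)).le

lemma sum_upd (D : Finset Pt) (v : Pt) (ξ : Env) (t : ℝ) :
    ∑ q ∈ D, Function.update ξ v t q = ∑ q ∈ D, ξ q + (if v ∈ D then t - ξ v else 0) := by
  classical
  by_cases h : v ∈ D
  · rw [if_pos h, ← Finset.add_sum_erase _ _ h, ← Finset.add_sum_erase D ξ h, Function.update_self]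
    have : ∑ q ∈ D.erase v, Function.update ξ v t q = ∑ q ∈ D.erase v, ξ q := by
      refine Finset.sum_congr rfl fun q hq => ?_
      rw [Function.update_of_ne (Finset.ne_of_mem_erase hq)]
    rw [this]
    ring
  · rw [if_neg h, add_zero]
    refine Finset.sum_congr rfl fun q hq => ?_
    rw [Function.update_of_ne]
    rintro rfl
    exact h hq

lemma mF_upd (F : Finset P) (c : P → ℝ) (S : P → Finset Pt) (v : Pt) (ξ : Env) (t : ℝ) :
    mF F c S (Function.update ξ v t) =
      mF F c S ξ + (Real.exp (t - ξ v) - 1) * mF (F.filter fun p => v ∈ S p) c S ξ := by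
  classical
  unfold mF
  rw [Finset.sum_filter, Finset.mul_sum, ← Finset.sum_add_distrib]
  refine Finset.sum_congr rfl fun p _ => ?_
  rw [sum_upd]
  by_cases h : v ∈ S p
  · rw [if_pos h, if_pos h, Real.exp_add]
    ring
  · rw [if_neg h, if_neg h]
    simp

lemma log_pt {P d : ℝ} (h0 : 0 ≤ P) (h1 : P ≤ 1) :
    (0 ≤ d → 0 ≤ Real.log (1 + P * (Real.exp d - 1))) ∧
      P / 2 * min |d| 1 ≤ |Real.log (1 + P * (Real.exp d - 1))| := by
  set m := min |d| 1 with hm
  have hm0 : 0 ≤ m := le_min (abs_nonneg _) zero_le_one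
  have hm1 : m ≤ 1 := min_le_right _ _
  have key : 0 ≤ d → P / 2 * m ≤ Real.log (1 + P * (Real.exp d - 1)) := by
    intro hd
    have hmd : m ≤ d := by
      rw [hm, abs_of_nonneg hd]
      exact min_le_left _ _
    have h2 : m ≤ Real.exp d - 1 := by
      have := Real.add_one_le_exp d
      linarith
    have hPm : 0 ≤ P * m := mul_nonneg h0 hm0
    have hPm1 : P * m ≤ 1 := by nlinarith
    have h3 : 1 + P * m ≤ 1 + P * (Real.exp d - 1) := by
      have := mul_le_mul_of_nonneg_left h2 h0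
      linarith
    have h4 : Real.log (1 + P * m) ≤ Real.log (1 + P * (Real.exp d - 1)) :=
      Real.log_le_log (by linarith) h3
    have h5 : 1 - (1 + P * m)⁻¹ ≤ Real.log (1 + P * m) := Real.one_sub_inv_le_log_of_pos (by linarith)
    have h6 : P / 2 * m ≤ 1 - (1 + P * m)⁻¹ := by
      have hpos : 0 < 1 + P * m := by linarith
      have e : 1 - (1 + P * m)⁻¹ = P * m / (1 + P * m) := by
        field_simp
        ring
      rw [e, le_div_iff₀ hpos]
      nlinarith
    linarith
  refine ⟨fun hd => ?_, ?_⟩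
  · have := key hd
    have h2 : 0 ≤ P / 2 * m := by positivity
    linarith
  · rcases le_total 0 d with hd | hd
    · exact (key hd).trans (le_abs_self _)
    · have hmd : m ≤ -d := by
        rw [hm, abs_of_nonpos hd]
        exact min_le_left _ _
      have he1 : Real.exp d ≤ 1 := Real.exp_le_one_iff.2 hd
      have hed := Real.exp_pos d
      have hpos : 0 < 1 + P * (Real.exp d - 1) := by nlinarith
      have h2 : Real.log (1 + P * (Real.exp d - 1)) ≤ P * (Real.exp d - 1) := by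
        have := Real.log_le_sub_one_of_pos hpos
        linarith
      have h3 : Real.exp d ≤ 1 - m / 2 := by
        have h4 : Real.exp d ≤ Real.exp (-m) := Real.exp_le_exp.2 (by linarith)
        have h5 : 1 + m ≤ Real.exp m := by
          have := Real.add_one_le_exp m
          linarith
        have h6 : Real.exp (-m) ≤ (1 + m)⁻¹ := by
          rw [Real.exp_neg]
          exact inv_anti₀ (by linarith) h5
        have h7 : (1 + m)⁻¹ ≤ 1 - m / 2 := by
          rw [inv_le_iff_one_le_mul₀ (by linarith)]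
          nlinarith
        linarith
      have h8 : P * (Real.exp d - 1) ≤ -(P / 2 * m) := by nlinarith
      have h9 := neg_le_abs (Real.log (1 + P * (Real.exp d - 1)))
      linarith

/-- The set of all fresh sites of the family. -/
lemma mF_le_exp (hc : ∀ p ∈ F, 0 < c p) (ξ : Env) :
    mF F c S ξ ≤ (∑ p ∈ F, c p) * Real.exp (∑ v ∈ F.biUnion S, |ξ v|) := by
  unfold mF
  rw [Finset.sum_mul]
  refine Finset.sum_le_sum fun p hp => mul_le_mul_of_nonneg_left (Real.exp_le_exp.2 ?_) (hc p hp).le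
  calc ∑ v ∈ S p, ξ v ≤ ∑ v ∈ S p, |ξ v| := Finset.sum_le_sum fun v _ => le_abs_self _
    _ ≤ _ := Finset.sum_le_sum_of_subset_of_nonneg (Finset.subset_biUnion_of_mem S hp) fun v _ _ => abs_nonneg _

lemma le_mF_exp {F' : Finset P} (hF : F' ⊆ F) (hc : ∀ p ∈ F, 0 < c p) (ξ : Env) :
    (∑ p ∈ F', c p) * Real.exp (-∑ v ∈ F.biUnion S, |ξ v|) ≤ mF F' c S ξ := by
  unfold mF
  rw [Finset.sum_mul]
  refine Finset.sum_le_sum fun p hp => mul_le_mul_of_nonneg_left (Real.exp_le_exp.2 ?_) (hc p (hF hp)).le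
  rw [neg_le]
  calc -∑ v ∈ S p, ξ v = ∑ v ∈ S p, -ξ v := by rw [Finset.sum_neg_distrib]
    _ ≤ ∑ v ∈ S p, |ξ v| := Finset.sum_le_sum fun v _ => neg_le_abs _
    _ ≤ _ := Finset.sum_le_sum_of_subset_of_nonneg (Finset.subset_biUnion_of_mem S (hF hp))
        fun v _ _ => abs_nonneg _

lemma lr_nonneg {F' : Finset P} (hF : F' ⊆ F) (hc : ∀ p ∈ F, 0 < c p) (hne : F'.Nonempty) (ξ : Env) :
    0 ≤ Real.log (mF F c S ξ / mF F' c S ξ) := by
  have h1 : 0 < mF F' c S ξ := mF_pos (fun p hp => hc p (hF hp)) hne ξ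
  exact Real.log_nonneg ((one_le_div h1).2 (mF_mono hc hF ξ))

/-- Smaller families in between have a smaller logarithm. -/
lemma lr_mono {F1 F2 F' : Finset P} (h2 : F' ⊆ F2) (h12 : F2 ⊆ F1) (h1 : F1 ⊆ F) (hc : ∀ p ∈ F, 0 < c p)
    (hne : F'.Nonempty) (ξ : Env) :
    Real.log (mF F1 c S ξ / mF F2 c S ξ) ≤ Real.log (mF F c S ξ / mF F' c S ξ) := by
  have hc' : ∀ p ∈ F', 0 < c p := fun p hp => hc p (h1 (h12 (h2 hp)))
  have hc2 : ∀ p ∈ F2, 0 < c p := fun p hp => hc p (h1 (h12 hp))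
  have hc1 : ∀ p ∈ F1, 0 < c p := fun p hp => hc p (h1 hp)
  have p' : 0 < mF F' c S ξ := mF_pos hc' hne ξ
  have p2 : 0 < mF F2 c S ξ := lt_of_lt_of_le p' (mF_mono hc2 h2 ξ)
  have p1 : 0 < mF F1 c S ξ := lt_of_lt_of_le p2 (mF_mono hc1 h12 ξ)
  refine Real.log_le_log (div_pos p1 p2) ?_
  exact div_le_div₀ (p1.le.trans (mF_mono hc h1 ξ)) (mF_mono hc h1 ξ) p' (mF_mono hc2 h2 ξ)

lemma lr_le {F' : Finset P} (hF : F' ⊆ F) (hc : ∀ p ∈ F, 0 < c p) (hne : F'.Nonempty) (ξ : Env) :
    Real.log (mF F c S ξ / mF F' c S ξ) ≤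
      Real.log ((∑ p ∈ F, c p) / ∑ p ∈ F', c p) + 2 * ∑ v ∈ F.biUnion S, |ξ v| := by
  set B : ℝ := ∑ v ∈ F.biUnion S, |ξ v| with hB
  have hc' : ∀ p ∈ F', 0 < c p := fun p hp => hc p (hF hp)
  have p' : 0 < mF F' c S ξ := mF_pos hc' hne ξ
  have pF : 0 < mF F c S ξ := lt_of_lt_of_le p' (mF_mono hc hF ξ)
  have a' : 0 < ∑ p ∈ F', c p := Finset.sum_pos hc' hne
  have aF : 0 < ∑ p ∈ F, c p := Finset.sum_pos hc (hne.mono hF)
  rw [Real.log_div pF.ne' p'.ne', Real.log_div aF.ne' a'.ne']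
  have h1 : Real.log (mF F c S ξ) ≤ Real.log (∑ p ∈ F, c p) + B := by
    have := Real.log_le_log pF (mF_le_exp (S := S) hc ξ)
    rwa [Real.log_mul aF.ne' (Real.exp_pos _).ne', Real.log_exp] at this
  have h2 : Real.log (∑ p ∈ F', c p) - B ≤ Real.log (mF F' c S ξ) := by
    have := Real.log_le_log (mul_pos a' (Real.exp_pos _)) (le_mF_exp (S := S) hF hc ξ)
    rwa [Real.log_mul a'.ne' (Real.exp_pos _).ne', Real.log_exp] at this
  linarith

lemma abs_memLp (hEM : Pool.Agent.W_7d29a1_h47.EM μ) (v : Pt) : MemLp (fun ξ : Env => |ξ v|) 2 (law μ) := by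
  have he : MeasurePreserving (fun ξ : Env => ξ v) (law μ) μ := by
    unfold law
    exact measurePreserving_eval_infinitePi _ _
  have hm : Measurable fun ξ : Env => |ξ v| := (measurable_pi_apply v).abs
  refine (memLp_two_iff_integrable_sq hm.aestronglyMeasurable).2 ?_
  have h1 : Integrable (fun x : ℝ => |x| ^ 2) μ := by
    have h2 := (hEM 1).const_mul 2
    refine h2.mono' (by fun_prop) (ae_of_all _ fun x => ?_)
    rw [Real.norm_eq_abs, abs_of_nonneg (by positivity), one_mul]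
    have := Real.quadratic_le_exp_of_nonneg (abs_nonneg x)
    have h3 := abs_nonneg x
    linarith
  exact he.integrable_comp_of_integrable (g := fun x : ℝ => |x| ^ 2) h1

lemma lr_memLp {F' : Finset P} (hEM : Pool.Agent.W_7d29a1_h47.EM μ) (hF : F' ⊆ F) (hc : ∀ p ∈ F, 0 < c p)
    (hne : F'.Nonempty) : MemLp (fun ξ => Real.log (mF F c S ξ / mF F' c S ξ)) 2 (law μ) := by
  have hm : Measurable fun ξ => Real.log (mF F c S ξ / mF F' c S ξ) :=
    Real.measurable_log.comp ((mF_meas F c S).div (mF_meas F' c S))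
  have h1 : MemLp (fun ξ : Env => Real.log ((∑ p ∈ F, c p) / ∑ p ∈ F', c p) +
      2 * ∑ v ∈ F.biUnion S, |ξ v|) 2 (law μ) := by
    have h2 : MemLp (fun ξ : Env => ∑ v ∈ F.biUnion S, |ξ v|) 2 (law μ) :=
      memLp_finset_sum (f := fun (v : Pt) (ξ : Env) => |ξ v|) _ fun v _ => abs_memLp hEM v
    have h3 : MemLp (fun _ : Env => Real.log ((∑ p ∈ F, c p) / ∑ p ∈ F', c p)) 2 (law μ) := memLp_const _
    exact h3.add (h2.const_mul 2)
  refine h1.mono hm.aestronglyMeasurable (ae_of_all _ fun ξ => ?_)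
  rw [Real.norm_eq_abs, Real.norm_eq_abs, abs_of_nonneg (lr_nonneg hF hc hne ξ)]
  exact (lr_le hF hc hne ξ).trans (le_abs_self _)

lemma lr_int {F' : Finset P} (hEM : Pool.Agent.W_7d29a1_h47.EM μ) (hF : F' ⊆ F) (hc : ∀ p ∈ F, 0 < c p)
    (hne : F'.Nonempty) : Integrable (fun ξ => Real.log (mF F c S ξ / mF F' c S ξ)) (law μ) :=
  (lr_memLp hEM hF hc hne).integrable (by norm_num)

lemma lr_sq_int {F' : Finset P} (hEM : Pool.Agent.W_7d29a1_h47.EM μ) (hF : F' ⊆ F) (hc : ∀ p ∈ F, 0 < c p)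
    (hne : F'.Nonempty) : Integrable (fun ξ => Real.log (mF F c S ξ / mF F' c S ξ) ^ 2) (law μ) :=
  (lr_memLp hEM hF hc hne).integrable_sq

/-- **Lemma 4.1.** -/
theorem cov_paths {a b : ℝ} (hab : a < b) (hEM : Pool.Agent.W_7d29a1_h47.EM μ)
    (hc : ∀ p ∈ F, 0 < c p) (C : Finset Pt) (hne : (F.filter fun p => Disjoint (S p) C).Nonempty) {u : ℝ}
    (hu : 0 ≤ u) :
    kap μ a b * ∫ ξ, ∑ p ∈ F, c p * Real.exp (∑ v ∈ S p, ξ v) / mF F c S ξ * ((S p ∩ C).card : ℝ) ∂(law μ) ≤
      4 * (b - a) * (u * √(C.card : ℝ) *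
          ∫ ξ, Real.log (mF F c S ξ / mF (F.filter fun p => Disjoint (S p) C) c S ξ) ∂(law μ) +
        C.card * √(∫ ξ, Real.log (mF F c S ξ / mF (F.filter fun p => Disjoint (S p) C) c S ξ) ^ 2 ∂(law μ)) *
          Real.exp (-u ^ 2)) := by
  set F' : Finset P := F.filter fun p => Disjoint (S p) C with hF'
  have hF : F' ⊆ F := Finset.filter_subset _ _
  have hneF : F.Nonempty := hne.mono hF
  have hc' : ∀ p ∈ F', 0 < c p := fun p hp => hc p (hF hp)
  have pF : ∀ ξ, 0 < mF F c S ξ := fun ξ => mF_pos hc hneF ξ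
  have p' : ∀ ξ, 0 < mF F' c S ξ := fun ξ => mF_pos hc' hne ξ
  set Fv : Pt → Finset P := fun v => F.filter fun p => v ∈ S p with hFv
  set Q : Pt → Env → ℝ := fun v ξ => mF (Fv v) c S ξ / mF F c S ξ with hQ
  have hQm : ∀ v, Measurable (Q v) := fun v => (mF_meas _ c S).div (mF_meas F c S)
  have hcv : ∀ v, ∀ p ∈ Fv v, 0 < c p := fun v p hp => hc p (Finset.filter_subset _ _ hp)
  have hQ0 : ∀ v ξ, 0 ≤ Q v ξ := fun v ξ => div_nonneg (mF_nonneg (hcv v) ξ) (pF ξ).le
  have hQ1 : ∀ v ξ, Q v ξ ≤ 1 := fun v ξ => (div_le_one (pF ξ)).2 (mF_mono hc (Finset.filter_subset _ _) ξ)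
  have hQi : ∀ v, Integrable (Q v) (law μ) := fun v =>
    Integrable.of_mem_Icc 0 1 (hQm v).aemeasurable (ae_of_all _ fun ξ => ⟨hQ0 v ξ, hQ1 v ξ⟩)
  set H : Env → ℝ := fun ξ => Real.log (mF F c S ξ / mF F' c S ξ) with hH
  have hHm : Measurable H := Real.measurable_log.comp ((mF_meas F c S).div (mF_meas F' c S))
  have hupd : ∀ v ∈ C, ∀ ξ t, H (Function.update ξ v t) =
      H ξ + Real.log (1 + Q v ξ * (Real.exp (t - ξ v) - 1)) := by
    intro v hv ξ t
    have e1 : mF F' c S (Function.update ξ v t) = mF F' c S ξ := by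
      rw [mF_upd]
      have : (F'.filter fun p => v ∈ S p) = ∅ := by
        rw [Finset.filter_eq_empty_iff]
        intro p hp hvp
        exact (Finset.disjoint_left.1 (Finset.mem_filter.1 hp).2) hvp hv
      rw [this]
      simp [mF]
    have e2 : mF F c S (Function.update ξ v t) = mF F c S ξ * (1 + Q v ξ * (Real.exp (t - ξ v) - 1)) := by
      rw [mF_upd]
      simp only [hQ, hFv]
      have := (pF ξ).ne'
      field_simp
    have hpos : 0 < 1 + Q v ξ * (Real.exp (t - ξ v) - 1) := by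
      have h1 := pF (Function.update ξ v t)
      rw [e2] at h1
      exact (mul_pos_iff_of_pos_left (pF ξ)).1 h1
    simp only [hH]
    rw [e1, e2, mul_div_right_comm, Real.log_mul (div_pos (pF ξ) (p' ξ)).ne' hpos.ne']
  have hmany := many_up (μ := μ) hab C (H := H) (G := fun v ξ => Q v ξ / 2) hHm
    (fun v _ => (hQm v).div_const 2) (fun ξ => lr_nonneg hF hc hne ξ) (lr_sq_int hEM hF hc hne)
    (fun v _ ξ => div_nonneg (hQ0 v ξ) (by norm_num)) (fun v _ => (hQi v).div_const 2)
    (fun v hv ξ t ht => by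
      rw [hupd v hv ξ t]
      have := (log_pt (d := t - ξ v) (hQ0 v ξ) (hQ1 v ξ)).1 (by linarith)
      linarith)
    (fun v hv ξ t => by
      rw [hupd v hv ξ t]
      have h1 := (log_pt (d := t - ξ v) (hQ0 v ξ) (hQ1 v ξ)).2
      have e1 : |ξ v - t| = |t - ξ v| := abs_sub_comm _ _
      have e2 : H ξ - (H ξ + Real.log (1 + Q v ξ * (Real.exp (t - ξ v) - 1))) =
          -Real.log (1 + Q v ξ * (Real.exp (t - ξ v) - 1)) := by ring
      rw [e1, e2, abs_neg]
      exact h1) hu
  have hsum : ∀ ξ, ∑ p ∈ F, c p * Real.exp (∑ v ∈ S p, ξ v) / mF F c S ξ * ((S p ∩ C).card : ℝ) =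
      2 * ∑ v ∈ C, Q v ξ / 2 := by
    intro ξ
    have h1 : ∀ p ∈ F, c p * Real.exp (∑ v ∈ S p, ξ v) / mF F c S ξ * ((S p ∩ C).card : ℝ) =
        ∑ v ∈ C, if v ∈ S p then c p * Real.exp (∑ v ∈ S p, ξ v) / mF F c S ξ else 0 := by
      intro p _
      rw [← Finset.sum_filter, Finset.sum_const, nsmul_eq_mul, Finset.filter_mem_eq_inter, mul_comm,
        Finset.inter_comm]
    rw [Finset.sum_congr rfl h1, Finset.sum_comm, Finset.mul_sum]
    refine Finset.sum_congr rfl fun v _ => ?_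
    simp only [hQ, hFv, mF]
    rw [← Finset.sum_filter, ← Finset.sum_div]
    ring
  have hint : ∫ ξ, ∑ p ∈ F, c p * Real.exp (∑ v ∈ S p, ξ v) / mF F c S ξ * ((S p ∩ C).card : ℝ) ∂(law μ) =
      2 * ∫ ξ, ∑ v ∈ C, Q v ξ / 2 ∂(law μ) := by
    rw [← integral_const_mul]
    exact integral_congr_ae (ae_of_all _ hsum)
  rw [hint]
  have e : (2 : ℝ) * (2 * (b - a) * (u * √(C.card : ℝ) * ∫ η, H η ∂(law μ) +
        C.card * √(∫ η, H η ^ 2 ∂(law μ)) * Real.exp (-u ^ 2))) =
      4 * (b - a) * (u * √(C.card : ℝ) * ∫ η, H η ∂(law μ) +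
        C.card * √(∫ η, H η ^ 2 ∂(law μ)) * Real.exp (-u ^ 2)) := by ring
  rw [← e]
  have h2 := mul_le_mul_of_nonneg_left hmany (by norm_num : (0 : ℝ) ≤ 2)
  refine le_trans (le_of_eq ?_) h2
  ring

end Paths

end

end Pool.Agent.W_7d29a1_LB
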