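import Pool.Agent.W_7d29a1_LB.GainA
import Pool.Agent.W_7d29a1_LB.SeamW
import Pool.Agent.W_7d29a1_LB.Cell

/-!
STORM LB (MP_7d29a1_pr, row 671, helper77), section 5.1 on the model: for a fixed environment `ω`, a fixed level `a` and the seam of `ω`
at this level, the gain of the fresh strip is at least a large factor times the probability that the polymer is regular with respect to
the seam and reaches the middle of the strip. (helper92)
-/

set_option autoImplicit false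

namespace Pool.Agent.W_7d29a1_LB

open MeasureTheory Finset
open Pool.Agent.W_7d29a1_F Pool.Agent.W_7d29a1_X Pool.Agent.W_7d29a1_Z17

noncomputable section

variable {μ : Measure ℝ} {s : ℝ}

/-- The total mass in the form of `SeamW`. -/
theorem ZZ_eq_Zt (a : ℝ) (z : ℤ) (η : Env) (n : ℕ) : ZZ μ s a z η n = Zt μ s η z n a := by
  unfold ZZ Zt
  rw [← log_psi, Real.exp_log (psi_pos _ _ _), show (0 : Pt) = (0, 0) from rfl, ← log_psi, Real.exp_log (psi_pos _ _ _)]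

/-- The mass of a region as a sum over paths. -/
theorem mass_paths (R : Set Pt) [DecidablePred (· ∈ R)] (η : Env) (z : ℤ) (n : ℕ) :
    ∑ S ∈ (range n).powerset, (if ∀ i < n, (((i : ℤ) + 1, z + pos S (i + 1)) : Pt) ∈ R then pth μ s (sh (0, z) η) n S else 0) =
      mass μ s R η z n := by
  unfold mass
  have h1 : ∀ y ∈ Icc (0 : ℤ) n, WR μ s R η (0, z) n y = ∑ S ∈ (range n).powerset,
      (if pos S n = y ∧ ∀ i < n, (((i : ℤ) + 1, z + pos S (i + 1)) : Pt) ∈ R then pth μ s (sh (0, z) η) n S else 0) := by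
    intro y _
    rw [sum_region]
    unfold WR K
    rw [add_sub_cancel_left]
  rw [sum_congr rfl h1, sum_comm]
  refine sum_congr rfl fun S _ => ?_
  by_cases h : ∀ i < n, (((i : ℤ) + 1, z + pos S (i + 1)) : Pt) ∈ R
  · rw [if_pos h]
    have h2 : ∀ y : ℤ, (pos S n = y ∧ ∀ i < n, (((i : ℤ) + 1, z + pos S (i + 1)) : Pt) ∈ R) ↔ pos S n = y := fun y => and_iff_left h
    simp only [h2]
    rw [sum_ite_eq, if_pos (mem_Icc.2 ⟨pos_nonneg _ _, pos_le _ _⟩)]
  · rw [if_neg h]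
    exact (sum_eq_zero fun y _ => if_neg fun h2 => h h2.2).symm

theorem Ss_empty {q : ℕ → ℤ} {w : ℕ} {z : ℤ} {n : ℕ} {p : Bool × Finset ℕ} :
    Ss q w z n p = ∅ ↔ ∀ i < n, (((i : ℤ) + 1, Xp z p (i + 1)) : Pt) ∈ (Sp q w)ᶜ := by
  constructor
  · intro h i hi h2
    rw [mem_Sp] at h2
    have : (((i : ℤ) + 1, Xp z p (i + 1) - q (i + 1)) : Pt) ∈ Ss q w z n p := mem_Ss.2 ⟨i, hi, h2, rfl⟩
    rw [h] at this
    exact absurd this (notMem_empty _)
  · intro h
    rw [eq_empty_iff_forall_notMem]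
    intro v hv
    obtain ⟨i, hi, h2, _⟩ := mem_Ss.1 hv
    exact h i hi (mem_Sp.2 h2)

/-- The retained mass in the form of `SeamW`. -/
theorem ZR_eq (a : ℝ) {x : ℤ} (hx : 1 ≤ x) {w : ℕ} (hw : 1 ≤ w) (ω : Env) (n : ℕ) :
    ZR μ s a (seam ω (a + s * x) x) w (x + w) ω n = Z0 μ s ω x n a := by
  classical
  have hst := seam_step ω (a + s * x) x
  have h0 : seam ω (a + s * x) x 0 = x := seam_zero _ _ _
  unfold ZR Z0
  rw [sum_filter, sum_Pths]
  have e1 : ∀ S : Finset ℕ, (Ss (seam ω (a + s * x) x) w (x + w) n (false, S) = ∅) =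
      (∀ i < n, (((i : ℤ) + 1, 0 + pos S (i + 1)) : Pt) ∈ (Sp (seam ω (a + s * x) x) w)ᶜ) := fun S => propext Ss_empty
  have e2 : ∀ S : Finset ℕ, (Ss (seam ω (a + s * x) x) w (x + w) n (true, S) = ∅) =
      (∀ i < n, (((i : ℤ) + 1, (x + w) + pos S (i + 1)) : Pt) ∈ (Sp (seam ω (a + s * x) x) w)ᶜ) := fun S => propext Ss_empty
  simp only [e1, e2]
  unfold wt2 st
  simp only [Bool.false_eq_true, if_false, if_true, one_mul]
  rw [mass_paths ((Sp (seam ω (a + s * x) x) w)ᶜ)]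
  have e3 : ∀ S : Finset ℕ, (if ∀ i < n, (((i : ℤ) + 1, (x + w) + pos S (i + 1)) : Pt) ∈ (Sp (seam ω (a + s * x) x) w)ᶜ then
      Real.exp (-a) * pth μ s (sh (0, x + w) (ins (seam ω (a + s * x) x) w ω fun _ => 0)) n S else 0) =
      Real.exp (-a) * (if ∀ i < n, (((i : ℤ) + 1, (x + w) + pos S (i + 1)) : Pt) ∈ (Sp (seam ω (a + s * x) x) w)ᶜ then
        pth μ s (sh (0, x + w) (ins (seam ω (a + s * x) x) w ω fun _ => 0)) n S else 0) := by
    intro S
    split_ifs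
    · rfl
    · rw [mul_zero]
  simp only [e3]
  rw [← mul_sum, mass_paths ((Sp (seam ω (a + s * x) x) w)ᶜ), mass_avoid_left (by rw [h0]; exact hx) (fun i => (hst i).1) hw]
  have e4 := mass_avoid_right (μ := μ) (s := s) (q := seam ω (a + s * x) x) (fun i => (hst i).2) hw ω (fun _ => 0) n
  rw [h0] at e4
  rw [e4]

/-- The depth of a path in the strip. -/
def dp (q : ℕ → ℤ) (w : ℕ) (z : ℤ) (p : Bool × Finset ℕ) (i : ℕ) : ℤ := min (Xp z p i - q i + 1) (q i + w - Xp z p i)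

/-- The cells: the rows of the window `k`, the depths at least `l o`. -/
def Cl (t0 h w : ℕ) (o : ℤ) (l k : ℕ) : Finset Pt :=
  ((win t0 h k).image fun i : ℕ => (i : ℤ)) ×ˢ Icc ((l : ℤ) * o - 1) ((w : ℤ) - l * o)

theorem Cl_card {t0 h w : ℕ} {o : ℤ} (ho : 0 < o) {l : ℕ} (hl : 1 ≤ l) (k : ℕ) : (Cl t0 h w o l k).card ≤ h * w := by
  unfold Cl
  rw [card_product, card_image_of_injective _ fun a b hab => by exact_mod_cast hab, card_win, Int.card_Icc]
  refine Nat.mul_le_mul_left _ ?_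
  have h1 : (1 : ℤ) ≤ l * o := by
    have : (1 : ℤ) ≤ l := by exact_mod_cast hl
    nlinarith
  omega

theorem Cl_disj {t0 h w : ℕ} {o : ℤ} (l : ℕ) {k k' : ℕ} (hk : k ≠ k') : Disjoint (Cl t0 h w o l k) (Cl t0 h w o l k') := by
  rw [Finset.disjoint_left]
  intro v hv hv'
  unfold Cl win at hv hv'
  rw [mem_product, mem_image] at hv hv'
  obtain ⟨i, hi, hi'⟩ := hv.1
  obtain ⟨j, hj, hj'⟩ := hv'.1
  rw [mem_Ico] at hi hj
  have e : i = j := by
    have : (i : ℤ) = j := hi'.trans hj'.symm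
    exact_mod_cast this
  subst e
  rcases lt_or_gt_of_ne hk with h1 | h1
  · have h2 := Nat.mul_le_mul_right h (show k + 1 ≤ k' from h1)
    omega
  · have h2 := Nat.mul_le_mul_right h (show k' + 1 ≤ k from h1)
    omega

theorem Ss_Cl {q : ℕ → ℤ} {w : ℕ} {z : ℤ} {n t0 h K : ℕ} {o : ℤ} (ho : 0 < o) (ht0 : 1 ≤ t0) (hn : t0 + K * h ≤ n + 1)
    (p : Bool × Finset ℕ) {l : ℕ} (hl : 1 ≤ l) {k : ℕ} (hk : k < K) :
    (Ss q w z n p ∩ Cl t0 h w o l k).card = (vis (dp q w z p) t0 h o l k).card := by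
  have h1 : (1 : ℤ) ≤ l * o := by
    have : (1 : ℤ) ≤ l := by exact_mod_cast hl
    nlinarith
  have e : Ss q w z n p ∩ Cl t0 h w o l k = (vis (dp q w z p) t0 h o l k).image fun i : ℕ => (((i : ℤ), Xp z p i - q i) : Pt) := by
    ext v
    rw [mem_inter, mem_Ss, mem_image]
    unfold Cl vis dp
    rw [mem_product, mem_image]
    constructor
    · rintro ⟨⟨i, _, h2, rfl⟩, ⟨j, hj, hj'⟩, h4⟩
      rw [mem_Icc] at h4
      have h5 : j = i + 1 := by
        have : (j : ℤ) = (i : ℤ) + 1 := hj'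
        omega
      subst h5
      refine ⟨i + 1, mem_filter.2 ⟨hj, le_min ?_ ?_⟩, ?_⟩
      · have := h4.1
        simp only at this
        omega
      · have := h4.2
        simp only at this
        omega
      · push_cast
        rfl
    · rintro ⟨j, hj, rfl⟩
      rw [mem_filter, le_min_iff] at hj
      have hw := hj.1
      unfold win at hw
      rw [mem_Ico] at hw
      have h6 := Nat.mul_le_mul_right h (show k + 1 ≤ K from hk)
      obtain ⟨i, rfl⟩ : ∃ i, j = i + 1 := ⟨j - 1, by omega⟩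
      refine ⟨⟨i, by omega, ⟨by omega, by omega⟩, by push_cast; rfl⟩, ⟨i + 1, hj.1, rfl⟩, ?_⟩
      rw [mem_Icc]
      simp only
      omega
  rw [e, card_image_of_injOn]
  intro i _ j _ hij
  have := congrArg Prod.fst hij
  have h3 : (i : ℤ) = j := this
  exact_mod_cast h3

/-- The probability of an event of the path under the measure of the two starts. -/
def GA (μ : Measure ℝ) (s a : ℝ) (z : ℤ) (η : Env) (n : ℕ) (A : Finset (Bool × Finset ℕ)) : ℝ :=
  (∑ p ∈ A, wt2 μ s a z η n p) / Zt μ s η z n a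

open Classical in
/-- The paths which are regular with respect to the curve and reach the middle of the strip. -/
def Good (q : ℕ → ℤ) (w : ℕ) (z : ℤ) (n t0 h K m : ℕ) (o : ℤ) : Finset (Bool × Finset ℕ) :=
  (Pths n).filter fun p => DReg (dp q w z p) t0 h K o ∧ ∃ k < K, ∃ i ∈ win t0 h k, (m : ℤ) * o ≤ dp q w z p i

theorem mem_Good {q : ℕ → ℤ} {w : ℕ} {z : ℤ} {n t0 h K m : ℕ} {o : ℤ} {p : Bool × Finset ℕ} : p ∈ Good q w z n t0 h K m o ↔
    p ∈ Pths n ∧ DReg (dp q w z p) t0 h K o ∧ ∃ k < K, ∃ i ∈ win t0 h k, (m : ℤ) * o ≤ dp q w z p i := by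
  classical
  unfold Good
  rw [mem_filter]

/-- **THE GAIN OF THE STRIP**, for a fixed environment `ω` and a fixed level `a`. -/
theorem gain [IsProbabilityMeasure μ] {α β : ℝ} (hαβ : α < β) (hkap : 0 ≤ kap μ α β) (hEM : Pool.Agent.W_7d29a1_h47.EM μ)
    (ω : Env) (a : ℝ) {x : ℤ} (hx : 1 ≤ x) {w : ℕ} (hw : 1 ≤ w) {n t0 h K m : ℕ} {o : ℤ} {u X : ℝ} (hh : 1 ≤ h) (ht0 : 1 ≤ t0) (hn : t0 + K * h ≤ n + 1) (hm : 2 ≤ m)
    (ho : 0 < o) (hu : 0 < u) (hX1 : 1 ≤ X) (hX : (K : ℝ) ≤ X) :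
    kap μ α β * (h * X ^ (-(1 / ((m - 1 : ℕ) : ℝ)))) * ∫ ξ, GA μ s a (x + w) (ins (seam ω (a + s * x) x) w ω ξ) n
        (Good (seam ω (a + s * x) x) w (x + w) n t0 h K m o) ∂(law μ) ≤
      ((m - 1 : ℕ) : ℝ) * (4 * (β - α) * (u * √((h * w : ℕ) : ℝ) *
          ∫ ξ, Real.log (Zt μ s (ins (seam ω (a + s * x) x) w ω ξ) (x + w) n a / Z0 μ s ω x n a) ∂(law μ) +
        K * (h * w : ℕ) * √(∫ ξ, Real.log (Zt μ s (ins (seam ω (a + s * x) x) w ω ξ) (x + w) n a / Z0 μ s ω x n a) ^ 2 ∂(law μ)) *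
          Real.exp (-u ^ 2))) := by
  classical
  obtain ⟨q, hq⟩ : ∃ q : ℕ → ℤ, q = seam ω (a + s * x) x := ⟨_, rfl⟩
  have hqx : ∀ i, x ≤ q i := fun i => by rw [hq]; exact le_seam _ _ _ i
  have hZR := ZR_eq (μ := μ) (s := s) a hx hw ω n
  rw [← hq] at hZR ⊢
  have hmF : ∀ ξ, mF (Pths n) (wt2 μ s a (x + w) (ins q w ω fun _ => 0) n) (Ss q w (x + w) n) ξ = Zt μ s (ins q w ω ξ) (x + w) n a := by
    intro ξ
    unfold mF
    rw [← ZZ_eq_Zt, ← sum_wt2]
    exact sum_congr rfl fun p _ => (wt2_ins a q w (x + w) ω ξ n p).symm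
  have hnum : ∀ ξ, ∑ p ∈ Good q w (x + w) n t0 h K m o, wt2 μ s a (x + w) (ins q w ω fun _ => 0) n p *
      Real.exp (∑ v ∈ Ss q w (x + w) n p, ξ v) = ∑ p ∈ Good q w (x + w) n t0 h K m o, wt2 μ s a (x + w) (ins q w ω ξ) n p :=
    fun ξ => sum_congr rfl fun p _ => (wt2_ins a q w (x + w) ω ξ n p).symm
  have hne : ((Pths n).filter fun p => Ss q w (x + w) n p = ∅).Nonempty := by
    refine ⟨(false, ∅), mem_filter.2 ⟨?_, ?_⟩⟩
    · unfold Pths
      rw [mem_product]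
      exact ⟨mem_univ _, mem_powerset.2 (empty_subset _)⟩
    · rw [Ss_empty]
      intro i _ h2
      rw [mem_Sp] at h2
      have h3 := hqx (i + 1)
      have h4 : Xp (x + w) (false, ∅) (i + 1) = 0 := by
        unfold Xp st pos
        simp
      rw [h4] at h2
      omega
  have key := gain_abs (μ := μ) (u := u) (X := X) hαβ hkap (Pths n) (c := wt2 μ s a (x + w) (ins q w ω fun _ => 0) n)
    (fun p _ => wt2_pos _ _ _ _ _) (Ss q w (x + w) n) hne hEM hu (m := m) (K := K) (h := h) (t0 := t0) (o := o) hm ho hX1 hX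
    (Cl t0 h w o) (h * w) (Nat.mul_pos hh hw) (fun l hl k _ => Cl_card ho (mem_Ico.1 hl).1 k) (dp q w (x + w))
    (Good q w (x + w) n t0 h K m o) (fun p hp => (mem_Good.1 hp).1)
    (fun p _ l hl k hk => Ss_Cl ho ht0 hn p (mem_Ico.1 hl).1 hk)
    (fun p hp => (mem_Good.1 hp).2.1) (fun p hp => (mem_Good.1 hp).2.2)
  have hZR' : ∀ ξ, mF ((Pths n).filter fun p => Ss q w (x + w) n p = ∅) (wt2 μ s a (x + w) (ins q w ω fun _ => 0) n)
      (Ss q w (x + w) n) ξ = Z0 μ s ω x n a := by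
    intro ξ
    rw [← hZR]
    unfold mF ZR
    refine sum_congr rfl fun p hp => ?_
    rw [(mem_filter.1 hp).2, sum_empty, Real.exp_zero, mul_one]
  simp only [hmF, hnum, hZR'] at key
  exact key

end

end Pool.Agent.W_7d29a1_LB
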