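import Pool.Agent.W_7d29a1_LB.Seam
import Pool.Agent.W_7d29a1_X.Path89

/-!
STORM LB (MP_7d29a1_pr, row 671, helper77), section 5.1 on the model, part A: the paths of the two starts `(0, 0)` and `(0, z)` as pairs
`(b, S)`, their weights, the strip sites in the frame of the seam, the total mass and the retained mass. (helper92)
-/

set_option autoImplicit false

namespace Pool.Agent.W_7d29a1_LB

open MeasureTheory Finset
open Pool.Agent.W_7d29a1_F Pool.Agent.W_7d29a1_X

noncomputable section

variable {μ : Measure ℝ} {s : ℝ}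

/-- The start of the path `(b, S)`. -/
def st (z : ℤ) (b : Bool) : ℤ := if b = true then z else 0

/-- The position of the path `(b, S)`. -/
def Xp (z : ℤ) (p : Bool × Finset ℕ) (i : ℕ) : ℤ := st z p.1 + pos p.2 i

/-- All paths of length `n`. -/
def Pths (n : ℕ) : Finset (Bool × Finset ℕ) := univ ×ˢ (range n).powerset

/-- The weight of a path: the paths of the start `z` have the additional factor `exp (-a)`. -/
def wt2 (μ : Measure ℝ) (s a : ℝ) (z : ℤ) (η : Env) (n : ℕ) (p : Bool × Finset ℕ) : ℝ :=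
  (if p.1 = true then Real.exp (-a) else 1) * pth μ s (sh (0, st z p.1) η) n p.2

/-- The total mass. -/
def ZZ (μ : Measure ℝ) (s a : ℝ) (z : ℤ) (η : Env) (n : ℕ) : ℝ := Real.exp (V μ s η 0 n) + Real.exp (-a) * Real.exp (V μ s η (0, z) n)

theorem wt2_pos (a : ℝ) (z : ℤ) (η : Env) (n : ℕ) (p : Bool × Finset ℕ) : 0 < wt2 μ s a z η n p := by
  unfold wt2 pth
  refine mul_pos ?_ (mul_pos (Real.exp_pos _) (prod_pos fun _ _ => Real.exp_pos _))
  split_ifs
  · exact Real.exp_pos _
  · exact one_pos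

theorem sum_Pths (n : ℕ) (f : Bool × Finset ℕ → ℝ) :
    ∑ p ∈ Pths n, f p = ∑ S ∈ (range n).powerset, f (false, S) + ∑ S ∈ (range n).powerset, f (true, S) := by
  unfold Pths
  rw [sum_product]
  simp [add_comm]

/-- The sum of the weights of all paths. -/
theorem sum_pth_one (η : Env) (n : ℕ) (z : ℤ) :
    ∑ S ∈ (range n).powerset, pth μ s (sh (0, z) η) n S = Real.exp (V μ s η (0, z) n) := by
  have h := GS_sum (μ := μ) (s := s) (sh (0, z) η) n
  unfold GS at h
  rw [← sum_div, div_eq_one_iff_eq (Real.exp_pos _).ne', V_sh, zero_add] at h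
  exact h

theorem sh_zero (η : Env) : sh (0, 0) η = η := by
  funext p
  unfold sh
  rw [show ((0, 0) : Pt) = 0 from rfl, add_zero]

theorem sum_wt2 (a : ℝ) (z : ℤ) (η : Env) (n : ℕ) : ∑ p ∈ Pths n, wt2 μ s a z η n p = ZZ μ s a z η n := by
  rw [sum_Pths]
  unfold wt2 ZZ st
  simp only [Bool.false_eq_true, if_false, if_true, one_mul]
  rw [← mul_sum, sum_pth_one, sum_pth_one]
  rfl

theorem ZZ_pos (a : ℝ) (z : ℤ) (η : Env) (n : ℕ) : 0 < ZZ μ s a z η n :=
  add_pos (Real.exp_pos _) (mul_pos (Real.exp_pos _) (Real.exp_pos _))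

/-- The weight as the Gibbs weight of the start times the Gibbs weight of the path. -/
theorem wt2_false (a : ℝ) (z : ℤ) (η : Env) (n : ℕ) (S : Finset ℕ) :
    wt2 μ s a z η n (false, S) = Real.exp (V μ s η 0 n) * GS μ s η n S := by
  unfold wt2 st GS
  simp only [Bool.false_eq_true, if_false, one_mul]
  rw [sh_zero, mul_div_cancel₀ _ (Real.exp_pos _).ne']

theorem wt2_true (a : ℝ) (z : ℤ) (η : Env) (n : ℕ) (S : Finset ℕ) :
    wt2 μ s a z η n (true, S) = Real.exp (-a) * Real.exp (V μ s η (0, z) n) * GS μ s (sh (0, z) η) n S := by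
  unfold wt2 st GS
  simp only [if_true]
  rw [V_sh, zero_add, mul_assoc, mul_div_cancel₀ _ (Real.exp_pos _).ne']

/-! ### The strip sites in the frame of the seam -/

/-- The strip sites of a path, in the frame of the seam. -/
def Ss (q : ℕ → ℤ) (w : ℕ) (z : ℤ) (n : ℕ) (p : Bool × Finset ℕ) : Finset Pt :=
  ((range n).filter fun i : ℕ => q (i + 1) ≤ Xp z p (i + 1) ∧ Xp z p (i + 1) < q (i + 1) + w).image
    fun i : ℕ => (((i : ℤ) + 1, Xp z p (i + 1) - q (i + 1)) : Pt)

theorem mem_Ss {q : ℕ → ℤ} {w : ℕ} {z : ℤ} {n : ℕ} {p : Bool × Finset ℕ} {v : Pt} : v ∈ Ss q w z n p ↔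
    ∃ i < n, (q (i + 1) ≤ Xp z p (i + 1) ∧ Xp z p (i + 1) < q (i + 1) + w) ∧ (((i : ℤ) + 1, Xp z p (i + 1) - q (i + 1)) : Pt) = v := by
  unfold Ss
  simp only [mem_image, mem_filter, mem_range]
  constructor
  · rintro ⟨i, ⟨h1, h2⟩, h3⟩
    exact ⟨i, h1, h2, h3⟩
  · rintro ⟨i, h1, h2, h3⟩
    exact ⟨i, ⟨h1, h2⟩, h3⟩

/-- The weight is the weight outside the strip times the weight of the strip sites. -/
theorem wt2_ins (a : ℝ) (q : ℕ → ℤ) (w : ℕ) (z : ℤ) (ω ξ : Env) (n : ℕ) (p : Bool × Finset ℕ) :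
    wt2 μ s a z (ins q w ω ξ) n p = wt2 μ s a z (ins q w ω fun _ => 0) n p * Real.exp (∑ v ∈ Ss q w z n p, ξ v) := by
  unfold wt2 pth
  have h1 : ∀ i ∈ range n, Real.exp (sh (0, st z p.1) (ins q w ω ξ) ((i : ℤ) + 1, pos p.2 (i + 1))) =
      Real.exp (sh (0, st z p.1) (ins q w ω fun _ => 0) ((i : ℤ) + 1, pos p.2 (i + 1))) *
        (if q (i + 1) ≤ Xp z p (i + 1) ∧ Xp z p (i + 1) < q (i + 1) + w then
          Real.exp (ξ ((i : ℤ) + 1, Xp z p (i + 1) - q (i + 1))) else 1) := by
    intro i _
    unfold sh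
    have e : (((i : ℤ) + 1, pos p.2 (i + 1)) : Pt) + (0, st z p.1) = ((i : ℤ) + 1, Xp z p (i + 1)) := by
      unfold Xp
      rw [Prod.mk_add_mk, add_zero, add_comm (pos p.2 (i + 1))]
    rw [e]
    have et : ((((i : ℤ) + 1, Xp z p (i + 1)) : Pt).1).toNat = i + 1 := toNat_succ i
    by_cases h2 : Xp z p (i + 1) < q (i + 1)
    · rw [if_neg (fun h3 => by omega), mul_one, ins_left (by rw [et]; exact h2), ins_left (by rw [et]; exact h2)]
    · by_cases h3 : Xp z p (i + 1) < q (i + 1) + w
      · rw [if_pos ⟨not_lt.1 h2, h3⟩, ins_strip (by rw [et]; exact not_lt.1 h2) (by rw [et]; exact h3),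
          ins_strip (by rw [et]; exact not_lt.1 h2) (by rw [et]; exact h3), et, Real.exp_zero, one_mul]
      · rw [if_neg (fun h4 => h3 h4.2), mul_one, ins_right (by rw [et]; omega), ins_right (by rw [et]; omega)]
  rw [prod_congr rfl h1, prod_mul_distrib]
  have h2 : ∏ i ∈ range n, (if q (i + 1) ≤ Xp z p (i + 1) ∧ Xp z p (i + 1) < q (i + 1) + w then
      Real.exp (ξ ((i : ℤ) + 1, Xp z p (i + 1) - q (i + 1))) else 1) = Real.exp (∑ v ∈ Ss q w z n p, ξ v) := by
    unfold Ss
    rw [sum_image, Real.exp_sum, prod_filter]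
    intro i _ j _ hij
    have := congrArg Prod.fst hij
    have h3 : (i : ℤ) + 1 = j + 1 := this
    omega
  rw [h2]
  ring

/-- The retained mass: the mass of the paths which avoid the strip. -/
def ZR (μ : Measure ℝ) (s a : ℝ) (q : ℕ → ℤ) (w : ℕ) (z : ℤ) (ω : Env) (n : ℕ) : ℝ :=
  ∑ p ∈ (Pths n).filter (fun p => Ss q w z n p = ∅), wt2 μ s a z (ins q w ω fun _ => 0) n p

/-- The paths in a region. -/
theorem sum_region (R : Set Pt) [DecidablePred (· ∈ R)] (η : Env) (z : ℤ) : ∀ (n : ℕ) (y : ℤ),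
    ∑ S ∈ (range n).powerset, (if pos S n = y ∧ ∀ i < n, (((i : ℤ) + 1, z + pos S (i + 1)) : Pt) ∈ R then
      pth μ s (sh (0, z) η) n S else 0) = Real.exp (s * y - n * lam μ s) * K R η z n (z + y)
  | 0, y => by
    rw [K_zero]
    simp only [range_zero, powerset_empty, sum_singleton]
    by_cases h : y = 0
    · subst h
      rw [if_pos ⟨by simp [pos], fun i hi => absurd hi (by omega)⟩, if_pos (by ring)]
      unfold pth
      simp [pos]
    · rw [if_neg (fun h1 => h (by rw [← h1.1]; simp [pos])), if_neg (by omega), mul_zero]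
  | n + 1, y => by
    have ih := sum_region R η z n
    rw [K_succ, range_add_one, sum_powerset_insert (by simp)]
    have hsh : ∀ y' : ℤ, sh (0, z) η ((n : ℤ) + 1, y') = η ((n : ℤ) + 1, z + y') := by
      intro y'
      unfold sh
      rw [Prod.mk_add_mk, add_zero, add_comm y' z]
    have h1 : ∑ S ∈ (range n).powerset, (if pos S (n + 1) = y ∧ ∀ i < n + 1, (((i : ℤ) + 1, z + pos S (i + 1)) : Pt) ∈ R then
        pth μ s (sh (0, z) η) (n + 1) S else 0) = R.indicator (fun p => Real.exp (η p)) ((n : ℤ) + 1, z + y) *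
          (Real.exp (-lam μ s) * (Real.exp (s * y - n * lam μ s) * K R η z n (z + y))) := by
      rw [← ih y, mul_sum, mul_sum]
      refine sum_congr rfl fun S hS => ?_
      rw [mem_powerset] at hS
      have hp := pos_succ_of hS
      by_cases hx : pos S n = y
      · by_cases hR : ∀ i < n, (((i : ℤ) + 1, z + pos S (i + 1)) : Pt) ∈ R
        · by_cases hy : (((n : ℤ) + 1, z + y) : Pt) ∈ R
          · have hall : ∀ i < n + 1, (((i : ℤ) + 1, z + pos S (i + 1)) : Pt) ∈ R := by
              intro i hi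
              rcases Nat.lt_succ_iff_lt_or_eq.1 hi with h | h
              · exact hR i h
              · rw [h, hp, hx]; exact hy
            rw [if_pos ⟨hp.trans hx, hall⟩, if_pos ⟨hx, hR⟩, Set.indicator_of_mem hy, pth_succ_of _ hS, hsh, hx]
            ring
          · rw [if_neg (fun h => hy ?_), Set.indicator_of_notMem hy, zero_mul]
            have := h.2 n (by omega)
            rwa [hp, hx] at this
        · rw [if_neg (fun h => hR fun i hi => h.2 i (by omega)), if_neg (fun h => hR h.2), mul_zero, mul_zero]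
      · rw [if_neg (fun h => hx (hp ▸ h.1)), if_neg (fun h => hx h.1), mul_zero, mul_zero]
    have h2 : ∑ S ∈ (range n).powerset, (if pos (insert n S) (n + 1) = y ∧
        ∀ i < n + 1, (((i : ℤ) + 1, z + pos (insert n S) (i + 1)) : Pt) ∈ R then
        pth μ s (sh (0, z) η) (n + 1) (insert n S) else 0) = R.indicator (fun p => Real.exp (η p)) ((n : ℤ) + 1, z + y) *
          (Real.exp (-lam μ s) * (Real.exp s * (Real.exp (s * ((y - 1 : ℤ) : ℝ) - n * lam μ s) * K R η z n (z + (y - 1))))) := by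
      rw [← ih (y - 1), mul_sum, mul_sum, mul_sum]
      refine sum_congr rfl fun S hS => ?_
      rw [mem_powerset] at hS
      have hp := pos_insert_succ hS
      have hq : ∀ i < n, pos (insert n S) (i + 1) = pos S (i + 1) := fun i hi => pos_insert (by omega)
      by_cases hx : pos S n = y - 1
      · have hxy : pos S n + 1 = y := by omega
        by_cases hR : ∀ i < n, (((i : ℤ) + 1, z + pos S (i + 1)) : Pt) ∈ R
        · by_cases hy : (((n : ℤ) + 1, z + y) : Pt) ∈ R
          · have hall : ∀ i < n + 1, (((i : ℤ) + 1, z + pos (insert n S) (i + 1)) : Pt) ∈ R := by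
              intro i hi
              rcases Nat.lt_succ_iff_lt_or_eq.1 hi with h | h
              · rw [hq i h]; exact hR i h
              · rw [h, hp, hxy]; exact hy
            rw [if_pos ⟨hp.trans hxy, hall⟩, if_pos ⟨hx, hR⟩, Set.indicator_of_mem hy, pth_succ_insert _ hS, hsh, hxy]
            ring
          · rw [if_neg (fun h => hy ?_), Set.indicator_of_notMem hy, zero_mul]
            have := h.2 n (by omega)
            rwa [hp, hxy] at this
        · rw [if_neg (fun h => hR fun i hi => by have := h.2 i (by omega); rwa [hq i hi] at this), if_neg (fun h => hR h.2),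
            mul_zero, mul_zero, mul_zero]
      · rw [if_neg (fun h => hx (by have := h.1; omega)), if_neg (fun h => hx h.1), mul_zero, mul_zero, mul_zero]
    rw [h1, h2]
    have e1 : Real.exp (-lam μ s) * Real.exp (s * y - n * lam μ s) = Real.exp (s * y - ((n + 1 : ℕ) : ℝ) * lam μ s) := by
      rw [← Real.exp_add]
      congr 1
      push_cast
      ring
    have e2 : Real.exp s * Real.exp (s * ((y - 1 : ℤ) : ℝ) - n * lam μ s) = Real.exp (s * y - n * lam μ s) := by
      rw [← Real.exp_add]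
      congr 1
      push_cast
      ring
    rw [← e1, show z + (y - 1) = z + y - 1 by ring]
    calc _ = R.indicator (fun p => Real.exp (η p)) ((n : ℤ) + 1, z + y) * (Real.exp (-lam μ s) *
          (Real.exp (s * y - n * lam μ s) * K R η z n (z + y) +
            (Real.exp s * Real.exp (s * ((y - 1 : ℤ) : ℝ) - n * lam μ s)) * K R η z n (z + y - 1))) := by ring
      _ = _ := by rw [e2]; ring

end

end Pool.Agent.W_7d29a1_LB
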