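import Pool.Agent.W_7d29a1_LB.IdentM
import Pool.Agent.W_7d29a1_UB.Crude57

/-!
STORM LB (MP_7d29a1_pr, row 671, helper77): the second moment of the logarithm of the gain at a fixed level, on the law of the pair
(environment, fresh strip). Crude: at most a constant times the fourth power of the length, uniformly in the level, in the distance of
the two starts and in the width of the strip. (helper43)
-/

set_option autoImplicit false

namespace Pool.Agent.W_7d29a1_LB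

open MeasureTheory ProbabilityTheory Filter Topology
open Pool.Agent.W_7d29a1_F Pool.Agent.W_7d29a1_H
open Pool.Agent.W_7d29a1_h47 (EM)
open Pool.Agent.W_7d29a1_UB (Ac57 Ac57_nonneg abs_V_le57 Sub_Ac57 Qb57 card_Qb57)

noncomputable section

variable {μ : Measure ℝ} {s : ℝ}

/-- The logarithm of the mass of the two starts. -/
theorem log_Zt_le43 (η : Env) (x : ℤ) (n : ℕ) (a : ℝ) :
    Real.log (Zt μ s η x n a) ≤ |V μ s η 0 n| + |V μ s η (0, x) n| + |a| + 1 := by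
  have hlog2 : Real.log 2 ≤ 1 := by
    have := Real.log_two_lt_d9
    linarith
  have h0 := abs_nonneg (V μ s η 0 n)
  have h1 := abs_nonneg (V μ s η (0, x) n)
  have h2 := abs_nonneg a
  have h3 : Zt μ s η x n a ≤ 2 * Real.exp (|V μ s η 0 n| + |V μ s η (0, x) n| + |a|) := by
    rw [Zt_eq27, ← Real.exp_add]
    have e1 : Real.exp (V μ s η 0 n) ≤ Real.exp (|V μ s η 0 n| + |V μ s η (0, x) n| + |a|) :=
      Real.exp_le_exp.2 (by linarith [le_abs_self (V μ s η 0 n)])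
    have e2 : Real.exp (-a + V μ s η (0, x) n) ≤ Real.exp (|V μ s η 0 n| + |V μ s η (0, x) n| + |a|) :=
      Real.exp_le_exp.2 (by linarith [le_abs_self (V μ s η (0, x) n), neg_le_abs a])
    linarith
  have h4 := Real.log_le_log (Zt_pos η x n a) h3
  rw [Real.log_mul (by norm_num) (Real.exp_pos _).ne', Real.log_exp] at h4
  linarith

/-- The logarithm of the gain as a difference. -/
theorem gain_eq43 (ω ξ : Env) (a : ℝ) {x : ℤ} (hx : 1 ≤ x) (n w : ℕ) :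
    Real.log (Zt μ s (ins (seam ω (a + s * x) x) w ω ξ) (x + w) n a / Z0 μ s ω x n a) =
      Real.log (Zt μ s (ins (seam ω (a + s * x) x) w ω ξ) (x + w) n a) - Real.log (Z0 μ s ω x n a) :=
  Real.log_div (Zt_pos _ _ _ _).ne' (Z0_pos _ _ hx _).ne'

/-- The logarithm of the gain is nonnegative. -/
theorem gain_nonneg43 (ω ξ : Env) (a : ℝ) {x : ℤ} (hx : 1 ≤ x) (n : ℕ) {w : ℕ} (hw : 1 ≤ w) :
    0 ≤ Real.log (Zt μ s (ins (seam ω (a + s * x) x) w ω ξ) (x + w) n a / Z0 μ s ω x n a) := by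
  rw [gain_eq43 ω ξ a hx]
  have h1 := Real.log_le_log (Z0_pos ω a hx n) (Z0_le_Zt (μ := μ) (s := s) ω ξ a hx n hw)
  linarith

/-- The crude bound of the logarithm of the gain. -/
theorem gain_le43 (ω ξ : Env) (a : ℝ) {x : ℤ} (hx : 1 ≤ x) (n w : ℕ) :
    Real.log (Zt μ s (ins (seam ω (a + s * x) x) w ω ξ) (x + w) n a / Z0 μ s ω x n a) ≤
      |V μ s (ins (seam ω (a + s * x) x) w ω ξ) 0 n| + |V μ s (ins (seam ω (a + s * x) x) w ω ξ) (0, x + w) n| +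
        (|a| + 1 + n * |lam μ s|) + ∑ j ∈ Finset.range n, |ω ((j : ℤ) + 1, 0)| := by
  rw [gain_eq43 ω ξ a hx]
  have h1 := log_Zt_le43 (μ := μ) (s := s) (ins (seam ω (a + s * x) x) w ω ξ) (x + w) n a
  have h2 := log_Z0_ge27 (μ := μ) (s := s) ω a hx n
  have h3 : -∑ j ∈ Finset.range n, |ω ((j : ℤ) + 1, 0)| ≤ ∑ j ∈ Finset.range n, ω ((j : ℤ) + 1, 0) := by
    have h4 := Finset.abs_sum_le_sum_abs (fun j : ℕ => ω ((j : ℤ) + 1, 0)) (Finset.range n)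
    exact (abs_le.1 h4).1
  have h5 : (n : ℝ) * lam μ s ≤ n * |lam μ s| := mul_le_mul_of_nonneg_left (le_abs_self _) (Nat.cast_nonneg n)
  linarith

/-- The square of the logarithm of the gain. -/
theorem gain_sq_le43 (ω ξ : Env) (a : ℝ) {x : ℤ} (hx : 1 ≤ x) (n : ℕ) {w : ℕ} (hw : 1 ≤ w) :
    Real.log (Zt μ s (ins (seam ω (a + s * x) x) w ω ξ) (x + w) n a / Z0 μ s ω x n a) ^ 2 ≤
      4 * (V μ s (ins (seam ω (a + s * x) x) w ω ξ) 0 n ^ 2 +
        V μ s (ins (seam ω (a + s * x) x) w ω ξ) (0, x + w) n ^ 2 +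
        (|a| + 1 + n * |lam μ s|) ^ 2 + (∑ j ∈ Finset.range n, |ω ((j : ℤ) + 1, 0)|) ^ 2) := by
  have h0 := gain_nonneg43 (μ := μ) (s := s) ω ξ a hx n hw
  have h1 := gain_le43 (μ := μ) (s := s) ω ξ a hx n w
  generalize Real.log (Zt μ s (ins (seam ω (a + s * x) x) w ω ξ) (x + w) n a / Z0 μ s ω x n a) = L at h0 h1 ⊢
  rw [← sq_abs (V μ s (ins (seam ω (a + s * x) x) w ω ξ) 0 n),
    ← sq_abs (V μ s (ins (seam ω (a + s * x) x) w ω ξ) (0, x + w) n)]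
  generalize |V μ s (ins (seam ω (a + s * x) x) w ω ξ) 0 n| = A at h1 ⊢
  generalize |V μ s (ins (seam ω (a + s * x) x) w ω ξ) (0, x + w) n| = B at h1 ⊢
  generalize |a| + 1 + n * |lam μ s| = D at h1 ⊢
  generalize ∑ j ∈ Finset.range n, |ω ((j : ℤ) + 1, 0)| = F at h1 ⊢
  have h2 := pow_le_pow_left₀ h0 h1 2
  nlinarith [sq_nonneg (A - B), sq_nonneg (A - D), sq_nonneg (A - F), sq_nonneg (B - D), sq_nonneg (B - F), sq_nonneg (D - F)]

/-- Measurability on the pair (environment, strip). -/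
theorem measurable_Zt_ins43 (a : ℝ) (x : ℤ) (n w : ℕ) : Measurable fun v : Env × Env =>
    Zt μ s (ins (seam v.1 (a + s * x) x) w v.1 v.2) (x + w) n a :=
  (measurable_Zt (μ := μ) (s := s) (x + w) n a).comp
    (measurable_ins (q := fun v : Env × Env => seam v.1 (a + s * x) x)
      (fun i => (measurable_seam (a + s * x) x i).comp measurable_fst) w measurable_fst measurable_snd)

theorem measurable_Z0_fst43 (a : ℝ) (x : ℤ) (n : ℕ) : Measurable fun v : Env × Env => Z0 μ s v.1 x n a :=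
  (measurable_Z0 x n a).comp measurable_fst

theorem measurable_gain43 (a : ℝ) (x : ℤ) (n w : ℕ) : Measurable fun v : Env × Env =>
    Real.log (Zt μ s (ins (seam v.1 (a + s * x) x) w v.1 v.2) (x + w) n a / Z0 μ s v.1 x n a) :=
  Real.measurable_log.comp ((measurable_Zt_ins43 a x n w).div (measurable_Z0_fst43 a x n))

variable [IsProbabilityMeasure μ]

theorem sq_sum_coord43 (hμ : EM μ) : ∃ m : ℝ, 0 ≤ m ∧ ∀ Q : Finset Pt,
    ∫ η, (∑ p ∈ Q, |η p|) ^ 2 ∂(law μ) ≤ (Q.card : ℝ) ^ 2 * m := by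
  have hS : ∀ Q : Finset Pt, Sub fun η : Env => ∑ p ∈ Q, |η p| := fun Q => Sub.sum Q fun p _ => (Sub.coord p).abs
  refine ⟨∫ η, |η ((0, 0) : Pt)| ^ 2 ∂(law μ), integral_nonneg fun _ => by positivity, fun Q => ?_⟩
  have hi : ∀ p : Pt, Integrable (fun η : Env => |η p| ^ 2) (law μ) := fun p => (Sub.coord p).abs.sq_integrable hμ
  have e1 : ∀ p : Pt, ∫ η, |η p| ^ 2 ∂(law μ) = ∫ η, |η ((0, 0) : Pt)| ^ 2 ∂(law μ) := by
    intro p
    have hm : Measurable fun η : Env => |η ((0, 0) : Pt)| ^ 2 := ((measurable_pi_apply ((0, 0) : Pt)).abs).pow_const 2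
    have h := int_sh (μ := μ) p (f := fun η => |η ((0, 0) : Pt)| ^ 2) hm
    rw [← h]
    refine integral_congr_ae (Eventually.of_forall fun η => ?_)
    show |η p| ^ 2 = |η ((0, 0) + p)| ^ 2
    have : ((0 : ℤ), (0 : ℤ)) + p = p := zero_add p
    rw [this]
  calc ∫ η, (∑ p ∈ Q, |η p|) ^ 2 ∂(law μ)
      ≤ ∫ η, (Q.card : ℝ) * ∑ p ∈ Q, |η p| ^ 2 ∂(law μ) :=
        integral_mono ((hS Q).sq_integrable hμ) ((integrable_finsetSum _ fun p _ => hi p).const_mul _)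
          fun η => sq_sum_le_card_mul_sum_sq
    _ = (Q.card : ℝ) ^ 2 * ∫ η, |η ((0, 0) : Pt)| ^ 2 ∂(law μ) := by
        rw [integral_const_mul, integral_finsetSum _ fun p _ => hi p]
        simp only [e1, Finset.sum_const, nsmul_eq_mul]
        ring

/-- The second moment of the luck. -/
theorem V_sq_le43 (hμ : EM μ) (s : ℝ) : ∃ M : ℝ, 0 ≤ M ∧ ∀ (n : ℕ) (z : Pt),
    ∫ η, V μ s η z n ^ 2 ∂(law μ) ≤ M * ((n : ℝ) + 1) ^ 4 := by
  obtain ⟨m, hm, hQ⟩ := sq_sum_coord43 (μ := μ) hμ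
  obtain ⟨κ, hκ⟩ : ∃ κ, κ = |lam μ s| + |s| + Real.log 2 := ⟨_, rfl⟩
  refine ⟨2 * κ ^ 2 + 2 * m, by positivity, fun n z => ?_⟩
  have hn : (0 : ℝ) ≤ n := Nat.cast_nonneg n
  have hS : Sub fun η : Env => ∑ p ∈ Qb57 n, |η p| := Sub.sum _ fun p _ => (Sub.coord p).abs
  have h0 : ∫ η, V μ s η z n ^ 2 ∂(law μ) = ∫ η, V μ s η 0 n ^ 2 ∂(law μ) :=
    integral_V_fun (μ := μ) (s := s) (f := fun u : ℝ => u ^ 2) (by fun_prop) z n
  rw [h0]
  calc ∫ η, V μ s η 0 n ^ 2 ∂(law μ) ≤ ∫ η, (2 * (n * κ) ^ 2 + 2 * (∑ p ∈ Qb57 n, |η p|) ^ 2) ∂(law μ) := by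
        refine integral_mono (V_sq_int hμ s 0 n) ((integrable_const _).add ((hS.sq_integrable hμ).const_mul 2)) fun η => ?_
        have h1 := abs_V_le57 (μ := μ) (s := s) η n
        have h2 := pow_le_pow_left₀ (abs_nonneg _) h1 2
        rw [sq_abs] at h2
        refine h2.trans ?_
        unfold Ac57
        rw [← hκ]
        show _ ≤ 2 * (n * κ) ^ 2 + 2 * (∑ p ∈ Qb57 n, |η p|) ^ 2
        nlinarith [sq_nonneg (n * κ - ∑ p ∈ Qb57 n, |η p|)]
    _ = 2 * (n * κ) ^ 2 + 2 * ∫ η, (∑ p ∈ Qb57 n, |η p|) ^ 2 ∂(law μ) := by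
        have g5 : ∫ η, 2 * (∑ p ∈ Qb57 n, |η p|) ^ 2 ∂(law μ) = 2 * ∫ η, (∑ p ∈ Qb57 n, |η p|) ^ 2 ∂(law μ) := integral_const_mul _ _
        rw [integral_add (integrable_const _) ((hS.sq_integrable hμ).const_mul 2), g5]
        simp
    _ ≤ 2 * (n * κ) ^ 2 + 2 * (((n : ℝ) + 1) ^ 4 * m) := by
        have h2 := hQ (Qb57 n)
        have h3 : ((Qb57 n).card : ℝ) ^ 2 ≤ ((n : ℝ) + 1) ^ 4 := by
          calc ((Qb57 n).card : ℝ) ^ 2 ≤ (((n : ℝ) + 1) ^ 2) ^ 2 := pow_le_pow_left₀ (Nat.cast_nonneg _) (card_Qb57 n) 2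
            _ = ((n : ℝ) + 1) ^ 4 := by ring
        have h4 := mul_le_mul_of_nonneg_right h3 hm
        linarith
    _ ≤ (2 * κ ^ 2 + 2 * m) * ((n : ℝ) + 1) ^ 4 := by
        have h4 : (n : ℝ) ^ 2 ≤ ((n : ℝ) + 1) ^ 4 := by
          calc (n : ℝ) ^ 2 ≤ ((n : ℝ) + 1) ^ 2 := pow_le_pow_left₀ hn (by linarith) 2
            _ ≤ ((n : ℝ) + 1) ^ 4 := pow_le_pow_right₀ (by linarith) (by norm_num)
        have h5 := mul_le_mul_of_nonneg_left h4 (sq_nonneg κ)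
        rw [mul_pow]
        nlinarith

/-- **The second moment of the logarithm of the gain.** -/
theorem gain_sq (hEM : EM μ) (s : ℝ) : ∃ C : ℝ, 0 < C ∧ ∀ n : ℕ, 1 ≤ n → ∀ a : ℝ, |a| ≤ (n : ℝ) ^ 2 →
    ∀ x : ℤ, 1 ≤ x → ∀ w : ℕ, 1 ≤ w →
    Integrable (fun v : Env × Env =>
      Real.log (Zt μ s (ins (seam v.1 (a + s * x) x) w v.1 v.2) (x + w) n a / Z0 μ s v.1 x n a) ^ 2) ((law μ).prod (law μ)) ∧
    ∫ v : Env × Env, Real.log (Zt μ s (ins (seam v.1 (a + s * x) x) w v.1 v.2) (x + w) n a / Z0 μ s v.1 x n a) ^ 2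
      ∂((law μ).prod (law μ)) ≤ C * (n : ℝ) ^ 4 := by
  obtain ⟨M, hM, hV⟩ := V_sq_le43 (μ := μ) hEM s
  obtain ⟨m, hm, hQ⟩ := sq_sum_coord43 (μ := μ) hEM
  refine ⟨4 * (32 * M + (2 + |lam μ s|) ^ 2 + m) + 1, by positivity, fun n hn a ha x hx w hw => ?_⟩
  have hn1 : (1 : ℝ) ≤ n := by exact_mod_cast hn
  have hT := mp_ins_seam (μ := μ) (a + s * x) x w
  have hcomp : ∀ f : Env → ℝ, Measurable f → Integrable f (law μ) →
      Integrable (fun v : Env × Env => f (ins (seam v.1 (a + s * x) x) w v.1 v.2)) ((law μ).prod (law μ)) ∧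
      ∫ v : Env × Env, f (ins (seam v.1 (a + s * x) x) w v.1 v.2) ∂((law μ).prod (law μ)) = ∫ η, f η ∂(law μ) := by
    intro f hf hi
    constructor
    · exact (hT.integrable_comp hf.aestronglyMeasurable).2 hi
    · rw [← integral_map hT.measurable.aemeasurable hf.aestronglyMeasurable, hT.map_eq]
  obtain ⟨i0, e0⟩ := hcomp (fun η => V μ s η 0 n ^ 2) ((V_meas s 0 n).pow_const 2) (V_sq_int hEM s 0 n)
  obtain ⟨i1, e1⟩ := hcomp (fun η => V μ s η (0, x + w) n ^ 2) ((V_meas s (0, x + w) n).pow_const 2)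
    (V_sq_int hEM s (0, x + w) n)
  obtain ⟨Q, hQe⟩ : ∃ Q : Finset Pt, Q = (Finset.range n).image fun j : ℕ => (((j : ℤ) + 1, 0) : Pt) := ⟨_, rfl⟩
  have hinj : Set.InjOn (fun j : ℕ => (((j : ℤ) + 1, 0) : Pt)) (Finset.range n : Finset ℕ) := fun i _ j _ h => by
    have h1 : (i : ℤ) + 1 = (j : ℤ) + 1 := congrArg Prod.fst h
    omega
  have hsum : ∀ η : Env, ∑ j ∈ Finset.range n, |η ((j : ℤ) + 1, 0)| = ∑ p ∈ Q, |η p| := fun η => by
    rw [hQe, Finset.sum_image hinj]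
  have hcard : (Q.card : ℝ) ≤ n := by
    rw [hQe]
    have h1 := Finset.card_image_le (s := Finset.range n) (f := fun j : ℕ => (((j : ℤ) + 1, 0) : Pt))
    rw [Finset.card_range] at h1
    exact_mod_cast h1
  have hS : Sub fun η : Env => ∑ j ∈ Finset.range n, |η ((j : ℤ) + 1, 0)| := Sub.sum _ fun p _ => (Sub.coord _).abs
  have i2' : Integrable (fun η : Env => (∑ j ∈ Finset.range n, |η ((j : ℤ) + 1, 0)|) ^ 2) (law μ) := hS.sq_integrable hEM
  have i2 : Integrable (fun v : Env × Env => (∑ j ∈ Finset.range n, |v.1 ((j : ℤ) + 1, 0)|) ^ 2) ((law μ).prod (law μ)) :=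
    i2'.comp_fst _
  have e2 : ∫ v : Env × Env, (∑ j ∈ Finset.range n, |v.1 ((j : ℤ) + 1, 0)|) ^ 2 ∂((law μ).prod (law μ)) ≤ (n : ℝ) ^ 2 * m := by
    have h1 : ∫ v : Env × Env, (∑ j ∈ Finset.range n, |v.1 ((j : ℤ) + 1, 0)|) ^ 2 ∂((law μ).prod (law μ)) =
        ∫ η : Env, (∑ j ∈ Finset.range n, |η ((j : ℤ) + 1, 0)|) ^ 2 ∂(law μ) := by
      have h2 : MeasurePreserving (Prod.fst : Env × Env → Env) ((law μ).prod (law μ)) (law μ) := measurePreserving_fst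
      have h3 := integral_map (μ := (law μ).prod (law μ)) (φ := (Prod.fst : Env × Env → Env)) h2.measurable.aemeasurable
        (f := fun η : Env => (∑ j ∈ Finset.range n, |η ((j : ℤ) + 1, 0)|) ^ 2)
        (hS.1.pow_const 2).aestronglyMeasurable
      rw [h2.map_eq] at h3
      exact h3.symm
    rw [h1]
    simp only [hsum]
    refine (hQ Q).trans (mul_le_mul_of_nonneg_right ?_ hm)
    exact pow_le_pow_left₀ (Nat.cast_nonneg _) hcard 2
  have iB : Integrable (fun v : Env × Env => 4 * (V μ s (ins (seam v.1 (a + s * x) x) w v.1 v.2) 0 n ^ 2 +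
        V μ s (ins (seam v.1 (a + s * x) x) w v.1 v.2) (0, x + w) n ^ 2 +
        (|a| + 1 + n * |lam μ s|) ^ 2 + (∑ j ∈ Finset.range n, |v.1 ((j : ℤ) + 1, 0)|) ^ 2)) ((law μ).prod (law μ)) :=
    (((i0.add i1).add (integrable_const _)).add i2).const_mul 4
  have hi : Integrable (fun v : Env × Env =>
      Real.log (Zt μ s (ins (seam v.1 (a + s * x) x) w v.1 v.2) (x + w) n a / Z0 μ s v.1 x n a) ^ 2)
      ((law μ).prod (law μ)) := by
    refine iB.mono' ((measurable_gain43 a x n w).pow_const 2).aestronglyMeasurable (Eventually.of_forall fun v => ?_)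
    rw [Real.norm_eq_abs, abs_of_nonneg (sq_nonneg _)]
    exact gain_sq_le43 v.1 v.2 a hx n hw
  refine ⟨hi, ?_⟩
  have h1 : ∫ v : Env × Env, Real.log (Zt μ s (ins (seam v.1 (a + s * x) x) w v.1 v.2) (x + w) n a / Z0 μ s v.1 x n a) ^ 2
      ∂((law μ).prod (law μ)) ≤ ∫ v : Env × Env, 4 * (V μ s (ins (seam v.1 (a + s * x) x) w v.1 v.2) 0 n ^ 2 +
        V μ s (ins (seam v.1 (a + s * x) x) w v.1 v.2) (0, x + w) n ^ 2 +
        (|a| + 1 + n * |lam μ s|) ^ 2 + (∑ j ∈ Finset.range n, |v.1 ((j : ℤ) + 1, 0)|) ^ 2) ∂((law μ).prod (law μ)) :=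
    integral_mono hi iB fun v => gain_sq_le43 v.1 v.2 a hx n hw
  have h2 : ∫ v : Env × Env, 4 * (V μ s (ins (seam v.1 (a + s * x) x) w v.1 v.2) 0 n ^ 2 +
        V μ s (ins (seam v.1 (a + s * x) x) w v.1 v.2) (0, x + w) n ^ 2 +
        (|a| + 1 + n * |lam μ s|) ^ 2 + (∑ j ∈ Finset.range n, |v.1 ((j : ℤ) + 1, 0)|) ^ 2) ∂((law μ).prod (law μ)) =
      4 * (∫ η, V μ s η 0 n ^ 2 ∂(law μ) + ∫ η, V μ s η (0, x + w) n ^ 2 ∂(law μ) + (|a| + 1 + n * |lam μ s|) ^ 2 +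
        ∫ v : Env × Env, (∑ j ∈ Finset.range n, |v.1 ((j : ℤ) + 1, 0)|) ^ 2 ∂((law μ).prod (law μ))) := by
    rw [integral_const_mul]
    congr 1
    have j1 := integral_add ((i0.add i1).add (integrable_const ((|a| + 1 + n * |lam μ s|) ^ 2))) i2
    have j2 := integral_add (i0.add i1) (integrable_const (μ := (law μ).prod (law μ)) ((|a| + 1 + n * |lam μ s|) ^ 2))
    have j3 := integral_add i0 i1
    have j4 : ∫ _v : Env × Env, (|a| + 1 + n * |lam μ s|) ^ 2 ∂((law μ).prod (law μ)) = (|a| + 1 + n * |lam μ s|) ^ 2 := by simp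
    simp only [Pi.add_apply] at j1 j2 j3
    rw [j1, j2, j3, j4, e0, e1]
  have h3 := hV n 0
  have h4 := hV n (0, x + w)
  have h5 : ((n : ℝ) + 1) ^ 4 ≤ 16 * (n : ℝ) ^ 4 := by
    calc ((n : ℝ) + 1) ^ 4 ≤ (2 * (n : ℝ)) ^ 4 := pow_le_pow_left₀ (by positivity) (by linarith) 4
      _ = 16 * (n : ℝ) ^ 4 := by ring
  have h6 : |a| + 1 + n * |lam μ s| ≤ (2 + |lam μ s|) * (n : ℝ) ^ 2 := by
    have h7 : (n : ℝ) ≤ (n : ℝ) ^ 2 := by nlinarith
    have h8 : (1 : ℝ) ≤ (n : ℝ) ^ 2 := by nlinarith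
    have h9 := mul_le_mul_of_nonneg_right h7 (abs_nonneg (lam μ s))
    nlinarith
  have h7 : (|a| + 1 + n * |lam μ s|) ^ 2 ≤ (2 + |lam μ s|) ^ 2 * (n : ℝ) ^ 4 := by
    calc (|a| + 1 + n * |lam μ s|) ^ 2 ≤ ((2 + |lam μ s|) * (n : ℝ) ^ 2) ^ 2 := pow_le_pow_left₀ (by positivity) h6 2
      _ = (2 + |lam μ s|) ^ 2 * (n : ℝ) ^ 4 := by ring
  have h8 : (n : ℝ) ^ 2 * m ≤ m * (n : ℝ) ^ 4 := by
    have h9 : (n : ℝ) ^ 2 ≤ (n : ℝ) ^ 4 := pow_le_pow_right₀ hn1 (by norm_num)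
    nlinarith
  have h9 := mul_le_mul_of_nonneg_left h5 hM
  have h10 : (0 : ℝ) ≤ (n : ℝ) ^ 4 := by positivity
  rw [h2] at h1
  refine h1.trans ?_
  calc 4 * (∫ η, V μ s η 0 n ^ 2 ∂(law μ) + ∫ η, V μ s η (0, x + w) n ^ 2 ∂(law μ) + (|a| + 1 + n * |lam μ s|) ^ 2 +
        ∫ v : Env × Env, (∑ j ∈ Finset.range n, |v.1 ((j : ℤ) + 1, 0)|) ^ 2 ∂((law μ).prod (law μ)))
      ≤ 4 * (M * (16 * (n : ℝ) ^ 4) + M * (16 * (n : ℝ) ^ 4) + (2 + |lam μ s|) ^ 2 * (n : ℝ) ^ 4 + m * (n : ℝ) ^ 4) := by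
        linarith
    _ = (4 * (32 * M + (2 + |lam μ s|) ^ 2 + m)) * (n : ℝ) ^ 4 := by ring
    _ ≤ (4 * (32 * M + (2 + |lam μ s|) ^ 2 + m) + 1) * (n : ℝ) ^ 4 := by nlinarith

/-- The logarithm of the gain is integrable. -/
theorem gain_int43 (hEM : EM μ) (s : ℝ) (n : ℕ) (a : ℝ) {x : ℤ} (hx : 1 ≤ x) {w : ℕ} (hw : 1 ≤ w) :
    Integrable (fun v : Env × Env =>
      Real.log (Zt μ s (ins (seam v.1 (a + s * x) x) w v.1 v.2) (x + w) n a / Z0 μ s v.1 x n a)) ((law μ).prod (law μ)) := by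
  have hT := mp_ins_seam (μ := μ) (a + s * x) x w
  have i0 : Integrable (fun v : Env × Env => |V μ s (ins (seam v.1 (a + s * x) x) w v.1 v.2) 0 n|) ((law μ).prod (law μ)) :=
    (hT.integrable_comp (V_meas s 0 n).abs.aestronglyMeasurable).2 (V_int hEM s 0 n).abs
  have i1 : Integrable (fun v : Env × Env => |V μ s (ins (seam v.1 (a + s * x) x) w v.1 v.2) (0, x + w) n|)
      ((law μ).prod (law μ)) :=
    (hT.integrable_comp (V_meas s (0, x + w) n).abs.aestronglyMeasurable).2 (V_int hEM s (0, x + w) n).abs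
  have hS : Sub fun η : Env => ∑ j ∈ Finset.range n, |η ((j : ℤ) + 1, 0)| := Sub.sum _ fun p _ => (Sub.coord _).abs
  have i2 : Integrable (fun v : Env × Env => ∑ j ∈ Finset.range n, |v.1 ((j : ℤ) + 1, 0)|) ((law μ).prod (law μ)) :=
    (hS.integrable hEM).comp_fst _
  refine ((((i0.add i1).add (integrable_const (|a| + 1 + n * |lam μ s|))).add i2)).mono'
    (measurable_gain43 a x n w).aestronglyMeasurable (Eventually.of_forall fun v => ?_)
  rw [Real.norm_eq_abs, abs_of_nonneg (gain_nonneg43 v.1 v.2 a hx n hw)]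
  exact gain_le43 v.1 v.2 a hx n w

end

end Pool.Agent.W_7d29a1_LB
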