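import Pool.Agent.W_7d29a1_LB.Gain
import Pool.Agent.W_7d29a1_LB.GainL

/-!
STORM LB (MP_7d29a1_pr, row 671, helper77), section 5.1 on the model, the form for the step: averages over the environment and the strip.
(helper92)
-/

set_option autoImplicit false

namespace Pool.Agent.W_7d29a1_LB

open MeasureTheory Finset
open Pool.Agent.W_7d29a1_F Pool.Agent.W_7d29a1_X Pool.Agent.W_7d29a1_Z17

noncomputable section

variable {μ : Measure ℝ} {s : ℝ}

/-! ### Measurability -/

theorem meas_wt2 (a : ℝ) (z : ℤ) (n : ℕ) (p : Bool × Finset ℕ) : Measurable fun η : Env => wt2 μ s a z η n p := by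
  unfold wt2 pth sh
  refine measurable_const.mul (measurable_const.mul (Finset.measurable_prod _ fun i _ => ?_))
  exact Real.measurable_exp.comp (measurable_pi_apply _)

theorem meas_dp {T : Type*} [MeasurableSpace T] {q : T → ℕ → ℤ} (hq : ∀ i, Measurable fun t => q t i) (w : ℕ) (z : ℤ)
    (p : Bool × Finset ℕ) (i : ℕ) : Measurable fun t => dp (q t) w z p i := by
  unfold dp
  exact ((measurable_const.sub (hq i)).add_const 1).min (((hq i).add_const _).sub_const _)

theorem meas_Good {T : Type*} [MeasurableSpace T] {q : T → ℕ → ℤ} (hq : ∀ i, Measurable fun t => q t i) (w : ℕ) (z : ℤ)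
    (n t0 h K m : ℕ) (o : ℤ) (p : Bool × Finset ℕ) : MeasurableSet {t | p ∈ Good (q t) w z n t0 h K m o} := by
  have hd := meas_dp hq w z p
  simp only [mem_Good]
  refine measurableSet_setOfPred.2 ?_
  refine measurable_const.and (Measurable.and ?_ ?_)
  · unfold DReg
    refine Measurable.forall fun k => Measurable.imp measurable_const ?_
    refine Measurable.forall fun i => Measurable.imp measurable_const ?_
    refine Measurable.forall fun j => Measurable.imp measurable_const ?_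
    refine Measurable.imp (measurableSet_setOfPred.1 (measurableSet_lt measurable_const (hd i))) ?_
    exact measurableSet_setOfPred.1 (measurableSet_le (hd i) ((hd j).add_const o))
  · refine Measurable.exists fun k => Measurable.and measurable_const ?_
    refine Measurable.exists fun i => Measurable.and measurable_const ?_
    exact measurableSet_setOfPred.1 (measurableSet_le measurable_const (hd i))

theorem GA_nonneg (a : ℝ) (z : ℤ) (η : Env) (n : ℕ) (A : Finset (Bool × Finset ℕ)) : 0 ≤ GA μ s a z η n A :=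
  div_nonneg (sum_nonneg fun _ _ => (wt2_pos _ _ _ _ _).le) (Zt_pos _ _ _ _).le

theorem GA_le_one (a : ℝ) (z : ℤ) (η : Env) (n : ℕ) {A : Finset (Bool × Finset ℕ)} (hA : A ⊆ Pths n) : GA μ s a z η n A ≤ 1 := by
  unfold GA
  rw [div_le_one (Zt_pos _ _ _ _), ← ZZ_eq_Zt, ← sum_wt2]
  exact sum_le_sum_of_subset_of_nonneg hA fun _ _ _ => (wt2_pos _ _ _ _ _).le

theorem Good_subset (q : ℕ → ℤ) (w : ℕ) (z : ℤ) (n t0 h K m : ℕ) (o : ℤ) : Good q w z n t0 h K m o ⊆ Pths n :=
  fun _ hp => (mem_Good.1 hp).1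

/-- `GA` as the mixture of the two Gibbs measures. -/
theorem GA_eq (a : ℝ) (z : ℤ) (η : Env) (n : ℕ) {A : Finset (Bool × Finset ℕ)} (hA : A ⊆ Pths n) :
    GA μ s a z η n A = Real.exp (V μ s η 0 n) / Zt μ s η z n a *
        (∑ S ∈ (range n).powerset, if (false, S) ∈ A then GS μ s η n S else 0) +
      Real.exp (-a) * Real.exp (V μ s η (0, z) n) / Zt μ s η z n a *
        (∑ S ∈ (range n).powerset, if (true, S) ∈ A then GS μ s (sh (0, z) η) n S else 0) := by
  unfold GA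
  have h1 : ∑ p ∈ A, wt2 μ s a z η n p = ∑ p ∈ Pths n, if p ∈ A then wt2 μ s a z η n p else 0 := by
    rw [← sum_filter, filter_mem_eq_inter, inter_eq_right.2 hA]
  rw [h1, sum_Pths, add_div, sum_div, sum_div, mul_sum, mul_sum]
  congr 1
  · refine sum_congr rfl fun S _ => ?_
    split_ifs
    · rw [wt2_false]
      ring
    · rw [zero_div, mul_zero]
  · refine sum_congr rfl fun S _ => ?_
    split_ifs
    · rw [wt2_true]
      ring
    · rw [zero_div, mul_zero]

/-- The environment with the strip. -/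
def eta (w : ℕ) (b : ℝ) (x : ℤ) (v : Env × Env) : Env := ins (seam v.1 b x) w v.1 v.2

theorem meas_eta (w : ℕ) (b : ℝ) (x : ℤ) : Measurable (eta w b x) := by
  unfold eta
  exact measurable_ins (fun i => (measurable_seam b x i).comp measurable_fst) w measurable_fst measurable_snd

theorem meas_GA (a : ℝ) (x : ℤ) (w n t0 h K m : ℕ) (o : ℤ) : Measurable fun v : Env × Env =>
    GA μ s a (x + w) (ins (seam v.1 (a + s * x) x) w v.1 v.2) n (Good (seam v.1 (a + s * x) x) w (x + w) n t0 h K m o) := by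
  classical
  have he : Measurable fun v : Env × Env => ins (seam v.1 (a + s * x) x) w v.1 v.2 := meas_eta w (a + s * x) x
  have hq : ∀ i, Measurable fun v : Env × Env => seam v.1 (a + s * x) x i := fun i =>
    (measurable_seam (a + s * x) x i).comp measurable_fst
  unfold GA
  refine Measurable.div ?_ ((measurable_Zt (x + w) n a).comp he)
  have h1 : (fun v : Env × Env => ∑ p ∈ Good (seam v.1 (a + s * x) x) w (x + w) n t0 h K m o,
      wt2 μ s a (x + w) (ins (seam v.1 (a + s * x) x) w v.1 v.2) n p) = fun v : Env × Env => ∑ p ∈ Pths n,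
        {v : Env × Env | p ∈ Good (seam v.1 (a + s * x) x) w (x + w) n t0 h K m o}.indicator
          (fun v => wt2 μ s a (x + w) (ins (seam v.1 (a + s * x) x) w v.1 v.2) n p) v := by
    funext v
    simp only [Set.indicator_apply, Set.mem_ofPred_eq]
    rw [← sum_filter, filter_mem_eq_inter, inter_eq_right.2 (Good_subset _ _ _ _ _ _ _ _ _)]
  rw [h1]
  exact Finset.measurable_sum _ fun p _ => ((meas_wt2 a (x + w) n p).comp he).indicator (meas_Good hq w (x + w) n t0 h K m o p)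

theorem int_GA [IsProbabilityMeasure μ] (a : ℝ) (x : ℤ) (w n t0 h K m : ℕ) (o : ℤ) : Integrable (fun v : Env × Env =>
    GA μ s a (x + w) (ins (seam v.1 (a + s * x) x) w v.1 v.2) n (Good (seam v.1 (a + s * x) x) w (x + w) n t0 h K m o))
      ((law μ).prod (law μ)) :=
  Integrable.of_mem_Icc 0 1 (meas_GA a x w n t0 h K m o).aemeasurable
    (ae_of_all _ fun _ => ⟨GA_nonneg _ _ _ _ _, GA_le_one _ _ _ _ (Good_subset _ _ _ _ _ _ _ _ _)⟩)

theorem meas_lg (a : ℝ) (x : ℤ) (w n : ℕ) : Measurable fun v : Env × Env =>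
    Real.log (Zt μ s (ins (seam v.1 (a + s * x) x) w v.1 v.2) (x + w) n a / Z0 μ s v.1 x n a) := by
  have he : Measurable fun v : Env × Env => ins (seam v.1 (a + s * x) x) w v.1 v.2 := meas_eta w (a + s * x) x
  exact Real.measurable_log.comp (((measurable_Zt (x + w) n a).comp he).div ((measurable_Z0 x n a).comp measurable_fst))

private theorem int_aux {T : Type*} [MeasurableSpace T] {P : Measure T} [IsProbabilityMeasure P] {G1 G2 : T → ℝ} (M c A B E : ℝ)
    (h1 : Integrable G1 P) (h2 : Integrable G2 P) :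
    Integrable (fun t => M * (c * (A * G1 t + B * (1 + G2 t) * E))) P := by
  have e : (fun t => M * (c * (A * G1 t + B * (1 + G2 t) * E))) = fun t => M * c * A * G1 t + (M * c * B * E * G2 t + M * c * B * E) := by
    funext t
    ring
  rw [e]
  exact (h1.const_mul _).add ((h2.const_mul _).add (integrable_const _))

private theorem val_aux {T : Type*} [MeasurableSpace T] {P : Measure T} [IsProbabilityMeasure P] {G1 G2 : T → ℝ} (M c A B E : ℝ)
    (h1 : Integrable G1 P) (h2 : Integrable G2 P) :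
    ∫ t, M * (c * (A * G1 t + B * (1 + G2 t) * E)) ∂P = M * (c * (A * ∫ t, G1 t ∂P + B * (1 + ∫ t, G2 t ∂P) * E)) := by
  have e : (fun t => M * (c * (A * G1 t + B * (1 + G2 t) * E))) = fun t => M * c * A * G1 t + (M * c * B * E * G2 t + M * c * B * E) := by
    funext t
    ring
  have i1 : Integrable (fun t => M * c * A * G1 t) P := h1.const_mul _
  have i2 : Integrable (fun t => M * c * B * E * G2 t) P := h2.const_mul _
  have i3 : Integrable (fun _ : T => M * c * B * E) P := integrable_const _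
  have i23 : Integrable (fun t => M * c * B * E * G2 t + M * c * B * E) P := i2.add i3
  rw [e, integral_add i1 i23, integral_add i2 i3, integral_const_mul, integral_const_mul, integral_const]
  simp
  ring

/-- **THE GAIN OF THE STRIP**, averaged over the environment. -/
theorem gain2 [IsProbabilityMeasure μ] (hEM : Pool.Agent.W_7d29a1_h47.EM μ) (hnd : Pool.Agent.W_7d29a1_h47.Nondeg μ) (s : ℝ) :
    ∃ κ C : ℝ, 0 < κ ∧ 0 < C ∧ ∀ n : ℕ, 1 ≤ n → ∀ a : ℝ, |a| ≤ (n : ℝ) ^ 2 → ∀ x : ℤ, 1 ≤ x → ∀ w : ℕ, 1 ≤ w →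
      Integrable (fun v : Env × Env => Real.log (Zt μ s (ins (seam v.1 (a + s * x) x) w v.1 v.2) (x + w) n a / Z0 μ s v.1 x n a))
        ((law μ).prod (law μ)) ∧
      ∀ (t0 h K m : ℕ) (o : ℤ) (u X : ℝ), 1 ≤ t0 → 1 ≤ h → t0 + K * h ≤ n + 1 → 2 ≤ m → 0 < o → 1 ≤ u → 1 ≤ X → (K : ℝ) ≤ X →
      κ * (h * X ^ (-(1 / ((m - 1 : ℕ) : ℝ)))) / (((m - 1 : ℕ) : ℝ) * u * √((h * w : ℕ) : ℝ)) *
          ∫ v : Env × Env, GA μ s a (x + w) (ins (seam v.1 (a + s * x) x) w v.1 v.2) n
            (Good (seam v.1 (a + s * x) x) w (x + w) n t0 h K m o) ∂((law μ).prod (law μ)) ≤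
        ∫ v : Env × Env, Real.log (Zt μ s (ins (seam v.1 (a + s * x) x) w v.1 v.2) (x + w) n a / Z0 μ s v.1 x n a)
          ∂((law μ).prod (law μ)) + C * (n : ℝ) ^ 5 * √((h * w : ℕ) : ℝ) * Real.exp (-u ^ 2) := by
  obtain ⟨α, β, hαβ, hα, hβ⟩ := Pool.Agent.W_7d29a1_h47.exists_gap hnd
  obtain ⟨C, hC, hsq⟩ := gain_sq hEM s
  have hk := kap_pos hαβ hα hβ
  have hba : 0 < β - α := by linarith
  refine ⟨kap μ α β / (4 * (β - α)), 1 + C, by positivity, by linarith, fun n hn a ha x hx w hw => ?_⟩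
  obtain ⟨hi2, hle2⟩ := hsq n hn a ha x hx w hw
  obtain ⟨g, hg⟩ : ∃ g : Env × Env → ℝ, g = fun v : Env × Env =>
    Real.log (Zt μ s (ins (seam v.1 (a + s * x) x) w v.1 v.2) (x + w) n a / Z0 μ s v.1 x n a) := ⟨_, rfl⟩
  have hgv : ∀ ω ξ, g (ω, ξ) = Real.log (Zt μ s (ins (seam ω (a + s * x) x) w ω ξ) (x + w) n a / Z0 μ s ω x n a) := fun ω ξ => by
    rw [hg]
  have hgm : Measurable g := by rw [hg]; exact meas_lg a x w n
  have hi2' : Integrable (fun v => g v ^ 2) ((law μ).prod (law μ)) := by rw [hg]; exact hi2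
  have hle2' : ∫ v, g v ^ 2 ∂((law μ).prod (law μ)) ≤ C * (n : ℝ) ^ 4 := by rw [hg]; exact hle2
  have hi1 : Integrable g ((law μ).prod (law μ)) :=
    ((memLp_two_iff_integrable_sq hgm.aestronglyMeasurable).2 hi2').integrable (by norm_num)
  refine ⟨by rw [← hg]; exact hi1, fun t0 h K m o u X ht0 hh hK hm ho hu hX1 hX => ?_⟩
  rw [← hg]
  obtain ⟨f, hf⟩ : ∃ f : Env × Env → ℝ, f = fun v : Env × Env => GA μ s a (x + w) (ins (seam v.1 (a + s * x) x) w v.1 v.2) n
    (Good (seam v.1 (a + s * x) x) w (x + w) n t0 h K m o) := ⟨_, rfl⟩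
  have hfi : Integrable f ((law μ).prod (law μ)) := by rw [hf]; exact int_GA a x w n t0 h K m o
  rw [← hf]
  have hfv : ∀ ω ξ, f (ω, ξ) = GA μ s a (x + w) (ins (seam ω (a + s * x) x) w ω ξ) n
      (Good (seam ω (a + s * x) x) w (x + w) n t0 h K m o) := fun ω ξ => by rw [hf]
  obtain ⟨F, hF⟩ : ∃ F : ℝ, F = h * X ^ (-(1 / ((m - 1 : ℕ) : ℝ))) := ⟨_, rfl⟩
  obtain ⟨M, hM⟩ : ∃ M : ℝ, M = ((m - 1 : ℕ) : ℝ) := ⟨_, rfl⟩
  have hM1 : 1 ≤ M := by
    rw [hM]
    exact_mod_cast (by omega : 1 ≤ m - 1)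
  obtain ⟨r, hr⟩ : ∃ r : ℝ, r = √((h * w : ℕ) : ℝ) := ⟨_, rfl⟩
  have hhw : (1 : ℝ) ≤ ((h * w : ℕ) : ℝ) := by exact_mod_cast Nat.one_le_iff_ne_zero.2 (by positivity)
  have hr1 : 1 ≤ r := by rw [hr]; exact Real.one_le_sqrt.2 hhw
  have hrr : ((h * w : ℕ) : ℝ) = r * r := by rw [hr]; exact (Real.mul_self_sqrt (by linarith)).symm
  have key : ∀ ω : Env, kap μ α β * F * ∫ ξ, f (ω, ξ) ∂(law μ) ≤
      M * (4 * (β - α) * (u * r * ∫ ξ, g (ω, ξ) ∂(law μ) + K * (h * w : ℕ) * (1 + ∫ ξ, g (ω, ξ) ^ 2 ∂(law μ)) * Real.exp (-u ^ 2))) := by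
    intro ω
    have h1 := gain (μ := μ) (s := s) hαβ hk.le hEM ω a hx hw (n := n) (t0 := t0) (h := h) (K := K) (m := m) (o := o) (u := u)
      (X := X) hh ht0 hK hm ho (by linarith) hX1 hX
    rw [← hF, ← hM, ← hr] at h1
    simp only [← hgv, ← hfv] at h1
    refine h1.trans ?_
    have h2 : 0 ≤ ∫ ξ, g (ω, ξ) ^ 2 ∂(law μ) := integral_nonneg fun _ => sq_nonneg _
    have h3 : √(∫ ξ, g (ω, ξ) ^ 2 ∂(law μ)) ≤ 1 + ∫ ξ, g (ω, ξ) ^ 2 ∂(law μ) := by
      rw [Real.sqrt_le_left (by linarith)]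
      nlinarith
    gcongr
  have hint : kap μ α β * F * ∫ v, f v ∂((law μ).prod (law μ)) ≤ M * (4 * (β - α) * (u * r * ∫ v, g v ∂((law μ).prod (law μ)) +
      K * (h * w : ℕ) * (1 + ∫ v, g v ^ 2 ∂((law μ).prod (law μ))) * Real.exp (-u ^ 2))) := by
    rw [integral_prod _ hfi, integral_prod _ hi1, integral_prod _ hi2']
    have a1 := hfi.integral_prod_left
    have a2 := hi1.integral_prod_left
    have a3 := hi2'.integral_prod_left
    refine le_trans (le_of_eq ?_) ((integral_mono (a1.const_mul _) (int_aux _ _ _ _ _ a2 a3) key).trans (le_of_eq ?_))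
    · rw [integral_const_mul]
    · exact val_aux _ _ _ _ _ a2 a3
  have hn1 : (1 : ℝ) ≤ n := by exact_mod_cast hn
  have hKn : (K : ℝ) ≤ n := by
    have h5 : K ≤ K * h := Nat.le_mul_of_pos_right K (by omega)
    exact_mod_cast (by omega : K ≤ n)
  have hM0 : 0 < M := by linarith
  have hu0 : 0 < u := by linarith
  have hr0 : 0 < r := by linarith
  have hE := Real.exp_pos (-u ^ 2)
  have h6 : 1 + ∫ v, g v ^ 2 ∂((law μ).prod (law μ)) ≤ (1 + C) * (n : ℝ) ^ 4 := by
    have : (1 : ℝ) ≤ (n : ℝ) ^ 4 := one_le_pow₀ hn1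
    nlinarith
  rw [← hF, ← hM, ← hr, div_mul_eq_mul_div, div_le_iff₀ (by positivity)]
  have h7 : kap μ α β / (4 * (β - α)) * F * ∫ v, f v ∂((law μ).prod (law μ)) ≤ M * (u * r * ∫ v, g v ∂((law μ).prod (law μ)) +
      K * (h * w : ℕ) * (1 + ∫ v, g v ^ 2 ∂((law μ).prod (law μ))) * Real.exp (-u ^ 2)) := by
    rw [div_mul_eq_mul_div, div_mul_eq_mul_div, div_le_iff₀ (by positivity)]
    linarith
  refine h7.trans ?_
  have h8 : K * ((h * w : ℕ) : ℝ) * (1 + ∫ v, g v ^ 2 ∂((law μ).prod (law μ))) * Real.exp (-u ^ 2) ≤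
      u * r * ((1 + C) * (n : ℝ) ^ 5 * r * Real.exp (-u ^ 2)) := by
    have h9 : K * (r * r) * (1 + ∫ v, g v ^ 2 ∂((law μ).prod (law μ))) * Real.exp (-u ^ 2) ≤
        n * (r * r) * ((1 + C) * (n : ℝ) ^ 4) * Real.exp (-u ^ 2) := by
      have h10 : 0 ≤ 1 + ∫ v, g v ^ 2 ∂((law μ).prod (law μ)) := by
        have : 0 ≤ ∫ v, g v ^ 2 ∂((law μ).prod (law μ)) := integral_nonneg fun _ => sq_nonneg _
        linarith
      gcongr
    rw [hrr]
    refine h9.trans ?_
    have h11 : n * (r * r) * ((1 + C) * (n : ℝ) ^ 4) * Real.exp (-u ^ 2) = 1 * (r * ((1 + C) * (n : ℝ) ^ 5 * r * Real.exp (-u ^ 2))) := by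
      ring
    rw [h11, mul_assoc u]
    exact mul_le_mul_of_nonneg_right hu (by positivity)
  nlinarith [mul_le_mul_of_nonneg_left h8 hM0.le]

end

end Pool.Agent.W_7d29a1_LB
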