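import Pool.Agent.W_7d29a1_LB.StepNumC
import Pool.Agent.W_7d29a1_LB.Bdd14

/-!
STORM LB (MP_7d29a1_pr, proofs row 671), section 6: separation and boundedness in the form used by `Step`. (helper14)
-/

set_option autoImplicit false

namespace Pool.Agent.W_7d29a1_LB

open MeasureTheory ProbabilityTheory Filter Topology
open Pool.Agent.W_7d29a1_F Pool.Agent.W_7d29a1_h4g Pool.Agent.W_7d29a1_H
open Pool.Agent.W_7d29a1_HS (In wd)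
open Pool.Agent.W_7d29a1_HZ (wd' EE' wd'_pow EE'_pow wd'_eq)

variable {μ : Measure ℝ} [IsProbabilityMeasure μ] {s c C : ℝ} {n₀ : ℕ}

/-- The width is much smaller than the time. -/
theorem wd_small14 (h : In μ s c C n₀) : ∃ N₀ : ℕ, ∀ n : ℕ, N₀ ≤ n → ∀ t : ℕ, 1 ≤ t → t ≤ n → 2 * wd' μ s t ≤ n := by
  obtain ⟨a, K, ha, ha1, hK, hw⟩ := wd'_pow h
  obtain ⟨N₀, hN₀⟩ := eventually_atTop.1 ((evp14 ha (2 * (K * wd' μ s 1))).and (eventually_ge_atTop 1))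
  refine ⟨N₀, fun n hn t ht htn => ?_⟩
  obtain ⟨m1, m2⟩ := hN₀ n hn
  have hn0 : (0 : ℝ) < n := by exact_mod_cast m2
  have h1 := (hw 1 t le_rfl ht).2.2
  rw [Nat.cast_one, div_one] at h1
  have ht0 : (0 : ℝ) ≤ t := Nat.cast_nonneg _
  have htn' : (t : ℝ) ≤ n := by exact_mod_cast htn
  have h2 : (t : ℝ) ^ (1 - a) ≤ (n : ℝ) ^ (1 - a) := Real.rpow_le_rpow ht0 htn' (by linarith)
  have w1 := wd1_14 μ s 1
  have h3 : (n : ℝ) ^ a * (n : ℝ) ^ (1 - a) = n := by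
    rw [← Real.rpow_add hn0]
    simp
  have h4 : wd' μ s t ≤ K * (n : ℝ) ^ (1 - a) * wd' μ s 1 :=
    h1.trans (mul_le_mul_of_nonneg_right (mul_le_mul_of_nonneg_left h2 (by linarith)) (by linarith))
  calc 2 * wd' μ s t ≤ 2 * (K * (n : ℝ) ^ (1 - a) * wd' μ s 1) := by linarith
    _ = 2 * (K * wd' μ s 1) * (n : ℝ) ^ (1 - a) := by ring
    _ ≤ (n : ℝ) ^ a * (n : ℝ) ^ (1 - a) := mul_le_mul_of_nonneg_right m1 (by positivity)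
    _ = n := h3

/-- The rows `t1` and `T0 n e2 t1`. -/
theorem rows14 (h : In μ s c C n₀) : ∃ K a : ℝ, 1 ≤ K ∧ 0 < a ∧ a < 1 ∧ ∀ d e : ℝ, 0 < d → 0 < e → e ≤ d →
    ∃ N₀ : ℕ, ∀ n : ℕ, N₀ ≤ n → ∀ x t1 : ℕ, (n : ℝ) ^ (3 * d) ≤ x → IsT1 μ s x t1 → t1 ≤ n →
      1 ≤ T0 n e t1 ∧ T0 n e t1 ≤ t1 ∧ (n : ℝ) ^ d ≤ T0 n e t1 ∧ wd' μ s t1 ≤ K * x ∧ 1 ≤ x ∧
      (n : ℝ) ^ (a * e) * wd' μ s (T0 n e t1) ≤ K * x := by
  obtain ⟨a, K, ha, ha1, hK, hw⟩ := wd'_pow h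
  have hK0 : 0 < K := by linarith
  obtain ⟨K1, hK1⟩ : ∃ K1 : ℝ, K1 = K * wd' μ s 1 := ⟨_, rfl⟩
  have hK1' : 1 ≤ K1 := by
    rw [hK1]
    have := wd1_14 μ s 1
    nlinarith
  refine ⟨4 * K ^ 2, a, by nlinarith, ha, ha1, fun δ e hδ he hed => ?_⟩
  have ev : ∀ᶠ n : ℕ in atTop, 1 ≤ n ∧ 2 ≤ (n : ℝ) ^ e ∧ 2 * K1 ≤ (n : ℝ) ^ δ := by
    filter_upwards [eventually_ge_atTop 1, evp14 he 2, evp14 hδ (2 * K1)] with n h1 h2 h3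
    exact ⟨h1, h2, h3⟩
  obtain ⟨N₀, hN₀⟩ := eventually_atTop.1 ev
  refine ⟨N₀, fun n hn x t1 hx1 hT g3 => ?_⟩
  obtain ⟨g1, g2⟩ := hT
  obtain ⟨n1, n2, n3⟩ := hN₀ n hn
  have hnR : (1 : ℝ) ≤ n := by exact_mod_cast n1
  have hn0 : (0 : ℝ) < n := by linarith
  have p3 : (n : ℝ) ^ (3 * δ) = (n : ℝ) ^ δ * ((n : ℝ) ^ δ * (n : ℝ) ^ δ) := by
    rw [← Real.rpow_add hn0, ← Real.rpow_add hn0]
    congr 1
    ring
  have p2 : 1 ≤ (n : ℝ) ^ δ := Real.one_le_rpow hnR hδ.le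
  have pe : (n : ℝ) ^ e ≤ (n : ℝ) ^ δ := Real.rpow_le_rpow_of_exponent_le hnR hed
  have hne0 : 0 < (n : ℝ) ^ e := by positivity
  have hx0 : (2 * K1) * (n : ℝ) ^ e * (n : ℝ) ^ δ ≤ x := by
    refine le_trans ?_ hx1
    rw [p3, mul_assoc]
    refine mul_le_mul n3 (mul_le_mul_of_nonneg_right pe (by positivity)) (by positivity) (by positivity)
  have hx4 : 4 ≤ (x : ℝ) := by
    have h1 : 4 ≤ 2 * K1 * (n : ℝ) ^ e := by nlinarith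
    have h2 : 2 * K1 * (n : ℝ) ^ e * 1 ≤ 2 * K1 * (n : ℝ) ^ e * (n : ℝ) ^ δ :=
      mul_le_mul_of_nonneg_left p2 (by positivity)
    linarith
  have t1pos : 1 ≤ t1 := by
    rcases Nat.eq_zero_or_pos t1 with h0 | h0
    · rw [h0, wd0_14] at g1
      linarith
    · exact h0
  have ht1R : (1 : ℝ) ≤ t1 := by exact_mod_cast t1pos
  have ht10 : (0 : ℝ) < t1 := by linarith
  have g4 : (x : ℝ) ≤ K1 * t1 := by
    have h1 := (hw 1 t1 le_rfl t1pos).2.2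
    have h2 : ((t1 : ℝ) / ((1 : ℕ) : ℝ)) ^ (1 - a) ≤ t1 := by
      rw [Nat.cast_one, div_one]
      calc (t1 : ℝ) ^ (1 - a) ≤ (t1 : ℝ) ^ (1 : ℝ) := Real.rpow_le_rpow_of_exponent_le ht1R (by linarith)
        _ = t1 := Real.rpow_one _
    have h3 := wd1_14 μ s 1
    calc (x : ℝ) ≤ wd' μ s t1 := g1
      _ ≤ K * ((t1 : ℝ) / ((1 : ℕ) : ℝ)) ^ (1 - a) * wd' μ s 1 := h1
      _ ≤ K * t1 * wd' μ s 1 := by
        refine mul_le_mul_of_nonneg_right (mul_le_mul_of_nonneg_left h2 hK0.le) (by linarith)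
      _ = K1 * t1 := by rw [hK1]; ring
  have g5 : 2 * (n : ℝ) ^ e * (n : ℝ) ^ δ ≤ t1 := by
    have h1 : K1 * (2 * (n : ℝ) ^ e * (n : ℝ) ^ δ) ≤ K1 * t1 := by
      calc K1 * (2 * (n : ℝ) ^ e * (n : ℝ) ^ δ) = 2 * K1 * (n : ℝ) ^ e * (n : ℝ) ^ δ := by ring
        _ ≤ x := hx0
        _ ≤ _ := g4
    exact le_of_mul_le_mul_left h1 (by linarith)
  have t12 : 2 ≤ t1 := by
    have h1 : (2 : ℝ) * 2 * 1 ≤ 2 * (n : ℝ) ^ e * (n : ℝ) ^ δ := by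
      refine mul_le_mul (by linarith) p2 (by norm_num) (by positivity)
    have h2 : (2 : ℝ) ≤ t1 := by linarith
    exact_mod_cast h2
  have g6 : wd' μ s t1 ≤ 2 * K * x := by
    have h1 := (hw (t1 - 1) t1 (by omega) (by omega)).2.2
    have h31 : (1 : ℝ) ≤ ((t1 - 1 : ℕ) : ℝ) := by exact_mod_cast (by omega : 1 ≤ t1 - 1)
    have h2 : ((t1 : ℝ) / ((t1 - 1 : ℕ) : ℝ)) ≤ 2 := by
      rw [div_le_iff₀ (by linarith)]
      have h4 : (t1 : ℝ) = ((t1 - 1 : ℕ) : ℝ) + 1 := by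
        have : t1 = (t1 - 1) + 1 := by omega
        exact_mod_cast this
      linarith
    have h0 : 1 ≤ ((t1 : ℝ) / ((t1 - 1 : ℕ) : ℝ)) := by
      rw [one_le_div (by linarith)]
      exact_mod_cast (by omega : t1 - 1 ≤ t1)
    have h3 : ((t1 : ℝ) / ((t1 - 1 : ℕ) : ℝ)) ^ (1 - a) ≤ 2 := by
      calc ((t1 : ℝ) / ((t1 - 1 : ℕ) : ℝ)) ^ (1 - a) ≤ ((t1 : ℝ) / ((t1 - 1 : ℕ) : ℝ)) ^ (1 : ℝ) :=
            Real.rpow_le_rpow_of_exponent_le h0 (by linarith)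
        _ = _ := Real.rpow_one _
        _ ≤ 2 := h2
    have h4 := (g2 (t1 - 1) (by omega)).le
    have h5 := wd1_14 μ s (t1 - 1)
    calc wd' μ s t1 ≤ K * ((t1 : ℝ) / ((t1 - 1 : ℕ) : ℝ)) ^ (1 - a) * wd' μ s (t1 - 1) := h1
      _ ≤ K * 2 * x := by
        refine mul_le_mul (mul_le_mul_of_nonneg_left h3 hK0.le) h4 (by linarith) (by positivity)
      _ = 2 * K * x := by ring
  -- the time `T0`
  obtain ⟨t0, ht0⟩ : ∃ t0 : ℕ, t0 = T0 n e t1 := ⟨_, rfl⟩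
  rw [← ht0]
  have eT : (t1 : ℝ) * (n : ℝ) ^ (-e) = (t1 : ℝ) / (n : ℝ) ^ e := by
    rw [Real.rpow_neg hn0.le, div_eq_mul_inv]
  have q1 : (t1 : ℝ) / (n : ℝ) ^ e ≤ t0 := by
    rw [ht0, ← eT]
    exact Nat.le_ceil _
  have q2 : (t0 : ℝ) < (t1 : ℝ) / (n : ℝ) ^ e + 1 := by
    rw [ht0, ← eT]
    exact Nat.ceil_lt_add_one (by positivity)
  have q3 : 2 * (n : ℝ) ^ δ ≤ (t1 : ℝ) / (n : ℝ) ^ e := by
    rw [le_div_iff₀ hne0]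
    calc 2 * (n : ℝ) ^ δ * (n : ℝ) ^ e = 2 * (n : ℝ) ^ e * (n : ℝ) ^ δ := by ring
      _ ≤ _ := g5
  have q4 : (n : ℝ) ^ δ ≤ t0 := by linarith
  have q5 : (n : ℝ) ^ e * t0 ≤ 2 * t1 := by
    have h1 : (t0 : ℝ) ≤ 2 * ((t1 : ℝ) / (n : ℝ) ^ e) := by linarith
    calc (n : ℝ) ^ e * t0 ≤ (n : ℝ) ^ e * (2 * ((t1 : ℝ) / (n : ℝ) ^ e)) := mul_le_mul_of_nonneg_left h1 hne0.le
      _ = 2 * t1 := by field_simp
  have q7 : t0 ≤ t1 := by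
    have h1 : (2 : ℝ) * t0 ≤ 2 * t1 := by
      have h2 : (2 : ℝ) * t0 ≤ (n : ℝ) ^ e * t0 := mul_le_mul_of_nonneg_right n2 (Nat.cast_nonneg _)
      linarith
    have h3 : (t0 : ℝ) ≤ t1 := by linarith
    exact_mod_cast h3
  have q8 : 1 ≤ t0 := by
    have : (1 : ℝ) ≤ t0 := by linarith
    exact_mod_cast this
  have ht00 : (0 : ℝ) < t0 := by exact_mod_cast q8
  have hw0 := wd1_14 μ s t0
  obtain ⟨-, r1, -⟩ := hw t0 t1 q8 q7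
  have r0 : 1 ≤ (t1 : ℝ) / t0 := by
    rw [one_le_div ht00]
    exact_mod_cast q7
  refine ⟨q8, q7, q4, ?_, ?_, ?_⟩
  · nlinarith
  · have : (1 : ℝ) ≤ x := by linarith
    exact_mod_cast this
  · have h1 : (n : ℝ) ^ e / 2 ≤ (t1 : ℝ) / t0 := by
      rw [div_le_div_iff₀ (by norm_num) ht00]
      linarith
    have h2 : (n : ℝ) ^ (a * e) / 2 ≤ ((t1 : ℝ) / t0) ^ a := by
      calc (n : ℝ) ^ (a * e) / 2 ≤ (n : ℝ) ^ (a * e) / 2 ^ a := by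
            refine div_le_div_of_nonneg_left (by positivity) (by positivity) ?_
            calc (2 : ℝ) ^ a ≤ 2 ^ (1 : ℝ) := Real.rpow_le_rpow_of_exponent_le (by norm_num) ha1.le
              _ = 2 := Real.rpow_one _
        _ = ((n : ℝ) ^ e / 2) ^ a := by
          rw [Real.div_rpow hne0.le (by norm_num), ← Real.rpow_mul hn0.le, mul_comm e a]
        _ ≤ _ := Real.rpow_le_rpow (by positivity) h1 ha.le
    have h3 : K⁻¹ * ((n : ℝ) ^ (a * e) / 2) * wd' μ s t0 ≤ wd' μ s t1 :=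
      (mul_le_mul_of_nonneg_right (mul_le_mul_of_nonneg_left h2 (by positivity)) (by linarith)).trans r1
    have h4 : (n : ℝ) ^ (a * e) * wd' μ s t0 = 2 * K * (K⁻¹ * ((n : ℝ) ^ (a * e) / 2) * wd' μ s t0) := by
      field_simp
    rw [h4]
    calc 2 * K * (K⁻¹ * ((n : ℝ) ^ (a * e) / 2) * wd' μ s t0) ≤ 2 * K * (2 * K * x) :=
          mul_le_mul_of_nonneg_left (h3.trans g6) (by positivity)
      _ = 4 * K ^ 2 * x := by ring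

/-- **SEPARATION**, at the rows `t1` (the width reaches `x`) and `T0 n e2 t1`; also with smaller exponents. -/
theorem sepH' (h : In μ s c C n₀) {d e2 : ℝ} (hd : 0 < d) (he2 : 0 < e2) (hed : e2 ≤ d) : ∃ e1 e c' : ℝ, 0 < e1 ∧ 0 < e ∧ 0 < c' ∧
    ∀ e1' e' : ℝ, 0 < e1' → e1' ≤ e1 → 0 < e' → e' ≤ e → ∃ n₁ : ℕ, ∀ n : ℕ, n₁ ≤ n → ∀ x t1 : ℕ, (n : ℝ) ^ (3 * d) ≤ x →
    IsT1 μ s x t1 → t1 ≤ n →
    law μ {ω | ¬ ∀ a : ℝ, |a| ≤ 3 * (n : ℝ) ^ e' * EE' μ s t1 + 1 →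
      sl μ s * T0 n e2 t1 + 2 * ((n : ℝ) ^ e1' * wd' μ s (T0 n e2 t1)) < seam ω (a + s * x) x (T0 n e2 t1) ∧
      (seam ω (a + s * x) x (T0 n e2 t1) : ℝ) < x + sl μ s * T0 n e2 t1 - 2 * ((n : ℝ) ^ e1' * wd' μ s (T0 n e2 t1))} ≤
      ENNReal.ofReal (Real.exp (-(n : ℝ) ^ c')) := by
  obtain ⟨K, a, hK, ha, -, hr⟩ := rows14 h
  obtain ⟨N₁, hN₁⟩ := wd_small14 h
  obtain ⟨N₂, hN₂⟩ := hr d e2 hd he2 hed
  obtain ⟨e1, e, c', he1, he, hc', hsep⟩ := sep14 h hK ha (half_pos hd) he2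
  refine ⟨e1 / 2, e, c', by positivity, he, hc', fun e1' e' h1 h2 h3 h4 => ?_⟩
  obtain ⟨N₃, hN₃⟩ := hsep e' (2 * e1') h3 h4 (by positivity) (by linarith)
  refine ⟨max (max N₁ N₂) (max N₃ 2), fun n hn x t1 hx hT ht1 => ?_⟩
  have m1 : N₁ ≤ n := ((le_max_left _ _).trans (le_max_left _ _)).trans hn
  have m2 : N₂ ≤ n := ((le_max_right _ _).trans (le_max_left _ _)).trans hn
  have m3 : N₃ ≤ n := ((le_max_left _ _).trans (le_max_right _ _)).trans hn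
  have m4 : 2 ≤ n := ((le_max_right _ _).trans (le_max_right _ _)).trans hn
  obtain ⟨r1, r2, r3, r4, r5, r6⟩ := hN₂ n m2 x t1 hx hT ht1
  have hnR : (1 : ℝ) < n := by exact_mod_cast (by omega : 1 < n)
  have hxn : x ≤ n := by
    have k1 := hN₁ n m1 t1 (r1.trans r2) ht1
    have k2 := hT.1
    have k3 := wd1_14 μ s t1
    have : (x : ℝ) ≤ n := by linarith
    exact_mod_cast this
  have key := hN₃ n m3 x (T0 n e2 t1) t1 r5 hxn r1 r2 ht1 (by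
    have : 2 * (d / 2) = d := by ring
    rw [this]
    exact r3) hT.1 r4 r6
  refine (measure_mono fun ω hω => ?_).trans key
  rw [Set.mem_ofPred_eq] at hω ⊢
  intro hS
  refine hω fun a ha' => ?_
  obtain ⟨k1, k2⟩ := hS a ha'
  have k3 : (n : ℝ) ^ e1' < (n : ℝ) ^ (2 * e1') := Real.rpow_lt_rpow_of_exponent_lt hnR (by linarith)
  have k4 := wd1_14 μ s (T0 n e2 t1)
  have k5 : (n : ℝ) ^ e1' * wd' μ s (T0 n e2 t1) < (n : ℝ) ^ (2 * e1') * wd' μ s (T0 n e2 t1) :=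
    mul_lt_mul_of_pos_right k3 (by linarith)
  have k6 : 2 * (n : ℝ) ^ (2 * e1') * wd' μ s (T0 n e2 t1) = 2 * ((n : ℝ) ^ (2 * e1') * wd' μ s (T0 n e2 t1)) := by ring
  rw [k6] at k1 k2
  constructor <;> linarith

/-- **SEPARATION** in the form used by `Step`. -/
theorem sepH (h : In μ s c C n₀) {d e2 : ℝ} (hd : 0 < d) (he2 : 0 < e2) (hed : e2 ≤ d) : ∃ e1 e c' : ℝ, 0 < e1 ∧ 0 < e ∧ 0 < c' ∧
    ∃ n₁ : ℕ, ∀ n : ℕ, n₁ ≤ n → ∀ x t1 : ℕ, (n : ℝ) ^ (3 * d) ≤ x → IsT1 μ s x t1 → t1 ≤ n →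
    law μ {ω | ¬ ∀ a : ℝ, |a| ≤ 3 * (n : ℝ) ^ e * EE' μ s t1 + 1 →
      sl μ s * T0 n e2 t1 + 2 * ((n : ℝ) ^ e1 * wd' μ s (T0 n e2 t1)) < seam ω (a + s * x) x (T0 n e2 t1) ∧
      (seam ω (a + s * x) x (T0 n e2 t1) : ℝ) < x + sl μ s * T0 n e2 t1 - 2 * ((n : ℝ) ^ e1 * wd' μ s (T0 n e2 t1))} ≤
      ENNReal.ofReal (Real.exp (-(n : ℝ) ^ c')) := by
  obtain ⟨e1, e, c', he1, he, hc', hs⟩ := sepH' h hd he2 hed
  exact ⟨e1, e, c', he1, he, hc', hs e1 e he1 le_rfl he le_rfl⟩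

/-- **BOUNDEDNESS** in the form used by `Step`. -/
theorem bddH (h : In μ s c C n₀) (hNS : NSFr μ s) {d e : ℝ} (hd : 0 < d) (he : 0 < e) : ∃ c' : ℝ, 0 < c' ∧ ∃ n₁ : ℕ, ∀ n : ℕ, n₁ ≤ n →
    ∀ x' t1 : ℕ, (n : ℝ) ^ d ≤ t1 → t1 ≤ n → (x' : ℝ) ≤ 2 * wd' μ s t1 →
    law μ {η | 3 * (n : ℝ) ^ e * EE' μ s t1 < |V μ s η (0, (x' : ℤ)) n - V μ s η (0, 0) n|} ≤ ENNReal.ofReal (Real.exp (-(n : ℝ) ^ c')) := by
  obtain ⟨N₁, hN₁⟩ := wd_small14 h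
  obtain ⟨c', hc', N₂, hN₂⟩ := bdd14_of h hNS (half_pos hd) e he
  refine ⟨c', hc', max N₁ (max N₂ 1), fun n hn x' t1 hd1 ht1 hx => ?_⟩
  have m1 : N₁ ≤ n := (le_max_left _ _).trans hn
  have m2 : N₂ ≤ n := ((le_max_left _ _).trans (le_max_right _ _)).trans hn
  have m3 : 1 ≤ n := ((le_max_right _ _).trans (le_max_right _ _)).trans hn
  have hnR : (1 : ℝ) ≤ n := by exact_mod_cast m3
  have ht : 1 ≤ t1 := by
    have : (1 : ℝ) ≤ t1 := (Real.one_le_rpow hnR hd.le).trans hd1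
    exact_mod_cast this
  have hxn : x' ≤ n := by
    have : (x' : ℝ) ≤ n := hx.trans (hN₁ n m1 t1 ht ht1)
    exact_mod_cast this
  exact hN₂ n m2 x' t1 hxn hx ht1 (by
    have : 2 * (d / 2) = d := by ring
    rw [this]
    exact hd1)

end Pool.Agent.W_7d29a1_LB
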