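import Pool.Agent.W_7d29a1_LB.Loss

/-! STORM LB (MP_7d29a1_pr, row 671, helper77), section 3: the identity for the sum over all levels
in abstract form, with the real analysis of LB/Loss. (helper27) -/

set_option autoImplicit false

namespace Pool.Agent.W_7d29a1_LB

open MeasureTheory Real Set
open Pool.Agent.W_7d29a1_LB.Loss

noncomputable section

/-- pointwise loss: the retained mass against the full mass of the level `a`. -/
theorem log_sub_le27 {a u v z : ℝ} (hz : |exp u - exp (-a) * exp v| ≤ z) (hne : a ≠ v - u) :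
    log (exp u + exp (-a) * exp v) - log z ≤ llc (a - (v - u)) := by
  have hr : exp (-a) * exp v = exp u * exp (v - u - a) := by
    rw [← exp_add, ← exp_add]; congr 1; ring
  rw [hr] at hz ⊢
  have ht : a - (v - u) ≠ 0 := sub_ne_zero.mpr hne
  set t := a - (v - u) with htdef
  have hvt : v - u - a = -t := by rw [htdef]; ring
  rw [hvt] at hz ⊢
  have hu := exp_pos u
  have h1 : exp u + exp u * exp (-t) = exp u * (1 + exp (-t)) := by ring
  have h2 : |exp u - exp u * exp (-t)| = exp u * |1 - exp (-t)| := by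
    rw [show exp u - exp u * exp (-t) = exp u * (1 - exp (-t)) by ring, abs_mul, abs_of_pos hu]
  have hne1 : 1 - exp (-t) ≠ 0 := by
    intro h
    have : exp (-t) = 1 := by linarith
    rw [exp_eq_one_iff] at this
    exact ht (by linarith)
  have hpos : 0 < |1 - exp (-t)| := abs_pos.mpr hne1
  have hpos2 : 0 < exp u * |1 - exp (-t)| := mul_pos hu hpos
  have h3 : log (exp u * |1 - exp (-t)|) ≤ log z := log_le_log hpos2 (h2 ▸ hz)
  have h4 : 0 < 1 + exp (-t) := by positivity
  have h5 : log (exp u * (1 + exp (-t))) - log (exp u * |1 - exp (-t)|)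
      = log ((1 + exp (-t)) / |1 - exp (-t)|) := by
    rw [log_mul hu.ne' h4.ne', log_mul hu.ne' hpos.ne', log_div h4.ne' hpos.ne']; ring
  have h6 : (1 + exp (-t)) / |1 - exp (-t)| = (1 + exp (-|t|)) / (1 - exp (-|t|)) := by
    rcases lt_or_gt_of_ne ht with h | h
    · have e1 : 1 < exp (-t) := by rw [one_lt_exp_iff]; linarith
      rw [abs_of_neg h, neg_neg, abs_of_neg (by linarith : 1 - exp (-t) < 0)]
      have e2 : exp t < 1 := by rw [exp_lt_one_iff]; exact h
      have e3 : exp (-t) * exp t = 1 := by rw [← exp_add]; simp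
      rw [div_eq_div_iff (by linarith) (by linarith)]
      nlinarith
    · have e1 : exp (-t) < 1 := by rw [exp_lt_one_iff]; linarith
      rw [abs_of_pos h, abs_of_pos (by linarith : 0 < 1 - exp (-t))]
  rw [h1]
  unfold llc
  rw [← h6, ← h5]
  linarith

theorem log_lvl27 (u v a : ℝ) : log (exp u + exp (-a) * exp v) = u + log (1 + exp (v - u - a)) := by
  have : exp u + exp (-a) * exp v = exp u * (1 + exp (v - u - a)) := by
    rw [mul_add, mul_one, ← exp_add, ← exp_add]
    congr 2; ring
  rw [this, log_mul (exp_pos _).ne' (by positivity), log_exp]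

theorem log_one_exp_bd27 (t : ℝ) : |log (1 + exp t)| ≤ log 2 + |t| := by
  have h0 : 0 ≤ log (1 + exp t) := log_nonneg (by linarith [exp_pos t])
  rw [abs_of_nonneg h0]
  have h1 : 1 + exp t ≤ 2 * exp |t| := by
    have : exp t ≤ exp |t| := exp_le_exp.mpr (le_abs_self t)
    have : 1 ≤ exp |t| := one_le_exp (abs_nonneg t)
    linarith
  calc log (1 + exp t) ≤ log (2 * exp |t|) := log_le_log (by positivity) h1
    _ = log 2 + |t| := by rw [log_mul (by norm_num) (exp_pos _).ne', log_exp]

theorem meas_lvl27 {E : Type*} [MeasurableSpace E] {B : E → ℝ} (mB : Measurable B) :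
    Measurable (fun p : ℝ × E => log (1 + exp (B p.2 - p.1))) := by
  fun_prop

/-- Fubini for the level integral. -/
theorem fub_lvl27 {E : Type*} [MeasurableSpace E] {Q : Measure E} [IsProbabilityMeasure Q]
    {B : E → ℝ} (mB : Measurable B) (iB : Integrable B Q) {A : ℝ} (hA : 0 ≤ A) :
    IntervalIntegrable (fun a => ∫ e, log (1 + exp (B e - a)) ∂Q) volume (-A) A ∧
    ∫ a in (-A)..A, ∫ e, log (1 + exp (B e - a)) ∂Q = ∫ e, Phi A (B e) ∂Q := by
  have hle : -A ≤ A := by linarith
  have hint : Integrable (fun p : ℝ × E => log (1 + exp (B p.2 - p.1)))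
      ((volume.restrict (Ioc (-A) A)).prod Q) := by
    have hdom : Integrable (fun p : ℝ × E => log 2 + |B p.2| + |p.1|)
        ((volume.restrict (Ioc (-A) A)).prod Q) := by
      have i1 : Integrable (fun p : ℝ × E => |B p.2|) ((volume.restrict (Ioc (-A) A)).prod Q) :=
        iB.abs.comp_snd _
      have i2 : Integrable (fun p : ℝ × E => |p.1|) ((volume.restrict (Ioc (-A) A)).prod Q) := by
        have : Integrable (fun a : ℝ => |a|) (volume.restrict (Ioc (-A) A)) :=
          (continuous_abs.integrableOn_Icc).mono_set Ioc_subset_Icc_self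
        exact this.comp_fst _
      exact ((integrable_const _).add i1).add i2
    refine hdom.mono' (meas_lvl27 mB).aestronglyMeasurable (Filter.Eventually.of_forall fun p => ?_)
    rw [norm_eq_abs]
    refine (log_one_exp_bd27 _).trans ?_
    have := abs_sub (B p.2) p.1
    linarith
  constructor
  · rw [intervalIntegrable_iff_integrableOn_Ioc_of_le hle]
    exact hint.integral_prod_left
  · rw [intervalIntegral.integral_of_le hle]
    unfold Phi
    simp_rw [intervalIntegral.integral_of_le hle]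
    exact integral_integral_swap hint

/-- the total loss over all levels. -/
theorem fub_loss27 {E : Type*} [MeasurableSpace E] {Q : Measure E} [IsProbabilityMeasure Q]
    {B : E → ℝ} (mB : Measurable B) :
    (∀ᵐ a : ℝ, Integrable (fun e => llc (a - B e)) Q) ∧
    Integrable (fun a => ∫ e, llc (a - B e) ∂Q) ∧
    ∫ a, ∫ e, llc (a - B e) ∂Q ≤ 11 := by
  have hm : AEStronglyMeasurable (fun p : ℝ × E => llc (p.1 - B p.2))
      ((volume : Measure ℝ).prod Q) := by
    apply Measurable.aestronglyMeasurable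
    exact llc_measurable.comp (measurable_fst.sub (mB.comp measurable_snd))
  have hint : Integrable (fun p : ℝ × E => llc (p.1 - B p.2)) ((volume : Measure ℝ).prod Q) := by
    rw [integrable_prod_iff' hm]
    constructor
    · refine Filter.Eventually.of_forall fun e => ?_
      exact llc_integrable.comp_sub_right (B e)
    · have : (fun e : E => ∫ a, ‖llc (a - B e)‖) = fun _ : E => ∫ a, ‖llc a‖ := by
        funext e
        exact integral_sub_right_eq_self (fun a => ‖llc a‖) (B e)
      rw [this]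
      exact integrable_const _
  refine ⟨hint.prod_right_ae, hint.integral_prod_left, ?_⟩
  rw [integral_integral_swap hint]
  have : (fun e : E => ∫ a, llc (a - B e)) = fun _ : E => ∫ a, llc a := by
    funext e
    exact integral_sub_right_eq_self llc (B e)
  rw [this]
  simpa using llc_integral_le

/-- **THE IDENTITY (3.1).** For every level `a` the map `et a` preserves the law; the mass `Z0 a` is
retained and the full mass at the level `a` is gained. Then a lower bound `k a` for the gain
`E log (Z a / Z0 a)` at the levels `abs a ≤ A'` has a total bounded by half of the growth of the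
second moment, up to a constant. -/
theorem ident27 {Ω E : Type*} [MeasurableSpace Ω] [MeasurableSpace E]
    {P : Measure Ω} {Q : Measure E} [IsProbabilityMeasure P] [IsProbabilityMeasure Q]
    {om : Ω → E} (hom : MeasurePreserving om P Q)
    {et : ℝ → Ω → E} (het : ∀ a, MeasurePreserving (et a) P Q)
    {U0 Ux Uy : E → ℝ} (m0 : Measurable U0) (mx : Measurable Ux) (my : Measurable Uy)
    (i0 : MemLp U0 2 Q) (ix : MemLp Ux 2 Q) (iy : MemLp Uy 2 Q)
    (ex : ∫ e, Ux e ∂Q = ∫ e, U0 e ∂Q) (ey : ∫ e, Uy e ∂Q = ∫ e, U0 e ∂Q)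
    {Z0 : ℝ → Ω → ℝ} (mZ : ∀ a, AEStronglyMeasurable (fun o => log (Z0 a o)) P)
    (pZ : ∀ a o, 0 < Z0 a o)
    (hZ : ∀ a o, |exp (U0 (om o)) - exp (-a) * exp (Ux (om o))| ≤ Z0 a o)
    (hZ' : ∀ a o, Z0 a o ≤ exp (U0 (et a o)) + exp (-a) * exp (Uy (et a o)))
    {l : ℝ → Ω → ℝ} (il : ∀ a, Integrable (l a) P) (hl : ∀ a o, l a o ≤ log (Z0 a o))
    {A A' : ℝ} (hA' : 0 ≤ A') (hAA : A' ≤ A)
    {k : ℝ → ℝ} (ik : IntervalIntegrable k volume (-A') A')
    (hk : ∀ a, |a| ≤ A' → k a ≤
      ∫ o, (log (exp (U0 (et a o)) + exp (-a) * exp (Uy (et a o))) - log (Z0 a o)) ∂P) :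
    ∫ a in (-A')..A', k a ≤
      (∫ e, (Uy e - U0 e) ^ 2 ∂Q - ∫ e, (Ux e - U0 e) ^ 2 ∂Q) / 2 + 11
        + exp (-(A / 2)) * ∫ e, (Ux e - U0 e) ^ 2 ∂Q
        + ∫ e, (if A / 2 < |Ux e - U0 e| then (Ux e - U0 e) ^ 2 else 0) ∂Q := by
  have hA : 0 ≤ A := hA'.trans hAA
  -- first moments
  have j0 : Integrable U0 Q := i0.integrable one_le_two
  have jx : Integrable Ux Q := ix.integrable one_le_two
  have jy : Integrable Uy Q := iy.integrable one_le_two
  have lB : MemLp (fun e => Ux e - U0 e) 2 Q := ix.sub i0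
  have lC : MemLp (fun e => Uy e - U0 e) 2 Q := iy.sub i0
  have mB : Measurable (fun e => Ux e - U0 e) := mx.sub m0
  have mC : Measurable (fun e => Uy e - U0 e) := my.sub m0
  have jB : Integrable (fun e => Ux e - U0 e) Q := jx.sub j0
  have jC : Integrable (fun e => Uy e - U0 e) Q := jy.sub j0
  have eB : ∫ e, (Ux e - U0 e) ∂Q = 0 := by rw [integral_sub jx j0, ex, sub_self]
  have eC : ∫ e, (Uy e - U0 e) ∂Q = 0 := by rw [integral_sub jy j0, ey, sub_self]
  -- the level functions
  have ilv : ∀ (D : E → ℝ), Measurable D → Integrable D Q → ∀ a : ℝ,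
      Integrable (fun e => log (1 + exp (D e - a))) Q := by
    intro D mD iD a
    refine Integrable.mono' (g := fun e => log 2 + (|D e| + |a|)) ?_ ?_ ?_
    · exact (integrable_const _).add (iD.abs.add (integrable_const _))
    · exact (by fun_prop : Measurable fun e => log (1 + exp (D e - a))).aestronglyMeasurable
    · refine Filter.Eventually.of_forall fun e => ?_
      rw [norm_eq_abs]
      refine (log_one_exp_bd27 _).trans ?_
      have := abs_sub (D e) a
      linarith
  set F : ℝ → ℝ := fun a => ∫ e, log (1 + exp ((Uy e - U0 e) - a)) ∂Q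
    - ∫ e, log (1 + exp ((Ux e - U0 e) - a)) ∂Q with hF
  set Hl : ℝ → ℝ := fun a => ∫ e, llc (a - (Ux e - U0 e)) ∂Q with hHl
  obtain ⟨q1, q2, q3⟩ := fub_loss27 (Q := Q) mB
  have hH0 : ∀ a, 0 ≤ Hl a := fun a => integral_nonneg fun e => llc_nonneg _
  -- the gain at one level
  have hlev : ∀ᵐ a : ℝ,
      ∫ o, (log (exp (U0 (et a o)) + exp (-a) * exp (Uy (et a o))) - log (Z0 a o)) ∂P ≤ F a + Hl a := by
    have hcount : ∀ᵐ a : ℝ, Q {e | Ux e - U0 e = a} = 0 := by
      have hc := MeasureTheory.Measure.countable_meas_level_set_pos (μ := Q) mB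
      have h0 : (volume : Measure ℝ) {t : ℝ | 0 < Q {e | Ux e - U0 e = t}} = 0 := hc.measure_zero _
      rw [ae_iff]
      refine measure_mono_null (fun a ha => ?_) h0
      exact pos_iff_ne_zero.mpr ha
    filter_upwards [hcount, q1] with a ha qa
    -- integrals over P
    have hlogZ : (fun o => log (exp (U0 (et a o)) + exp (-a) * exp (Uy (et a o))))
        = (fun e => U0 e + log (1 + exp ((Uy e - U0 e) - a))) ∘ et a := by
      funext o; simp only [Function.comp]; rw [log_lvl27]
    have iZe : Integrable (fun e => U0 e + log (1 + exp ((Uy e - U0 e) - a))) Q :=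
      j0.add (ilv _ mC jC a)
    have iZP : Integrable (fun o => log (exp (U0 (et a o)) + exp (-a) * exp (Uy (et a o)))) P := by
      rw [hlogZ]
      exact (het a).integrable_comp_of_integrable iZe
    have eZP : ∫ o, log (exp (U0 (et a o)) + exp (-a) * exp (Uy (et a o))) ∂P
        = ∫ e, (U0 e + log (1 + exp ((Uy e - U0 e) - a))) ∂Q := by
      rw [← (het a).map_eq, integral_map (het a).measurable.aemeasurable]
      · simp only [log_lvl27]
      · rw [(het a).map_eq]; exact iZe.aestronglyMeasurable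
    have iMe : Integrable (fun e => U0 e + log (1 + exp ((Ux e - U0 e) - a))) Q :=
      j0.add (ilv _ mB jB a)
    have iMP : Integrable (fun o => log (exp (U0 (om o)) + exp (-a) * exp (Ux (om o)))) P := by
      have : (fun o => log (exp (U0 (om o)) + exp (-a) * exp (Ux (om o))))
        = (fun e => U0 e + log (1 + exp ((Ux e - U0 e) - a))) ∘ om := by
        funext o; simp only [Function.comp]; rw [log_lvl27]
      rw [this]
      exact hom.integrable_comp_of_integrable iMe
    have eMP : ∫ o, log (exp (U0 (om o)) + exp (-a) * exp (Ux (om o))) ∂P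
        = ∫ e, (U0 e + log (1 + exp ((Ux e - U0 e) - a))) ∂Q := by
      rw [← hom.map_eq, integral_map hom.measurable.aemeasurable]
      · simp only [log_lvl27]
      · rw [hom.map_eq]; exact iMe.aestronglyMeasurable
    -- log Z0 integrable
    have iZ0 : Integrable (fun o => log (Z0 a o)) P := by
      refine Integrable.mono' ((il a).abs.add iZP.abs) (mZ a) (Filter.Eventually.of_forall fun o => ?_)
      rw [norm_eq_abs, abs_le]
      have h1 := hl a o
      have h2 : log (Z0 a o) ≤ log (exp (U0 (et a o)) + exp (-a) * exp (Uy (et a o))) :=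
        log_le_log (pZ a o) (hZ' a o)
      have h3 := neg_abs_le (l a o)
      have h4 := le_abs_self (log (exp (U0 (et a o)) + exp (-a) * exp (Uy (et a o))))
      have h5 := abs_nonneg (l a o)
      have h6 := abs_nonneg (log (exp (U0 (et a o)) + exp (-a) * exp (Uy (et a o))))
      simp only [Pi.add_apply]
      constructor <;> linarith
    -- loss
    have hloss : ∫ o, (log (exp (U0 (om o)) + exp (-a) * exp (Ux (om o))) - log (Z0 a o)) ∂P
        ≤ Hl a := by
      have e1 : Hl a = ∫ o, llc (a - (Ux (om o) - U0 (om o))) ∂P := by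
        rw [hHl]
        simp only
        conv_lhs => rw [← hom.map_eq]
        rw [integral_map hom.measurable.aemeasurable]
        rw [hom.map_eq]; exact qa.aestronglyMeasurable
      rw [e1]
      have iq : Integrable (fun o => llc (a - (Ux (om o) - U0 (om o)))) P :=
        hom.integrable_comp_of_integrable qa
      refine integral_mono_ae (iMP.sub iZ0) iq ?_
      have hae : ∀ᵐ e ∂Q, Ux e - U0 e ≠ a := by
        rw [ae_iff]
        simpa using ha
      have hae2 := hom.quasiMeasurePreserving.ae hae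
      filter_upwards [hae2] with o ho
      exact log_sub_le27 (hZ a o) (fun h => ho h.symm)
    have hsplit : ∫ o, (log (exp (U0 (et a o)) + exp (-a) * exp (Uy (et a o))) - log (Z0 a o)) ∂P
        = (∫ o, log (exp (U0 (et a o)) + exp (-a) * exp (Uy (et a o))) ∂P
          - ∫ o, log (exp (U0 (om o)) + exp (-a) * exp (Ux (om o))) ∂P)
          + ∫ o, (log (exp (U0 (om o)) + exp (-a) * exp (Ux (om o))) - log (Z0 a o)) ∂P := by
      rw [integral_sub iZP iZ0, integral_sub iMP iZ0]; ring
    rw [hsplit, eZP, eMP, integral_add j0 (ilv _ mC jC a), integral_add j0 (ilv _ mB jB a)]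
    have : F a = ∫ e, log (1 + exp ((Uy e - U0 e) - a)) ∂Q
      - ∫ e, log (1 + exp ((Ux e - U0 e) - a)) ∂Q := rfl
    linarith
  have hlev0 : ∀ a : ℝ,
      0 ≤ ∫ o, (log (exp (U0 (et a o)) + exp (-a) * exp (Uy (et a o))) - log (Z0 a o)) ∂P := by
    intro a
    refine integral_nonneg fun o => ?_
    have h2 : log (Z0 a o) ≤ log (exp (U0 (et a o)) + exp (-a) * exp (Uy (et a o))) :=
      log_le_log (pZ a o) (hZ' a o)
    simp only [Pi.zero_apply]
    linarith
  -- integrate
  obtain ⟨f1, f2⟩ := fub_lvl27 (Q := Q) mC jC hA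
  obtain ⟨g1, g2⟩ := fub_lvl27 (Q := Q) mB jB hA
  have iF : IntervalIntegrable F volume (-A) A := f1.sub g1
  have iH : IntervalIntegrable Hl volume (-A) A := q2.intervalIntegrable
  have iFH : IntervalIntegrable (fun a => F a + Hl a) volume (-A) A := iF.add iH
  have hsub : Icc (-A') A' ⊆ Icc (-A) A := Icc_subset_Icc (by linarith) hAA
  have iFH' : IntervalIntegrable (fun a => F a + Hl a) volume (-A') A' := by
    refine iFH.mono_set ?_
    rw [uIcc_of_le (by linarith), uIcc_of_le (by linarith)]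
    exact hsub
  have s1 : ∫ a in (-A')..A', k a ≤ ∫ a in (-A')..A', (F a + Hl a) := by
    refine intervalIntegral.integral_mono_ae_restrict (by linarith) ik iFH' ?_
    rw [Filter.EventuallyLE, ae_restrict_iff' measurableSet_Icc]
    filter_upwards [hlev] with a ha hmem
    exact (hk a (abs_le.mpr hmem)).trans ha
  have s2 : ∫ a in (-A')..A', (F a + Hl a) ≤ ∫ a in (-A)..A, (F a + Hl a) := by
    refine intervalIntegral.integral_mono_interval (by linarith) (by linarith) hAA ?_ iFH
    refine ae_restrict_of_ae ?_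
    filter_upwards [hlev] with a ha
    exact (hlev0 a).trans ha
  have s3 : ∫ a in (-A)..A, (F a + Hl a)
      = (∫ e, Phi A (Uy e - U0 e) ∂Q - ∫ e, Phi A (Ux e - U0 e) ∂Q) + ∫ a in (-A)..A, Hl a := by
    rw [intervalIntegral.integral_add iF iH, intervalIntegral.integral_sub f1 g1, f2, g2]
  have s4 : ∫ a in (-A)..A, Hl a ≤ 11 := by
    rw [intervalIntegral.integral_of_le (by linarith)]
    refine le_trans ?_ q3
    exact setIntegral_le_integral q2 (Filter.Eventually.of_forall hH0)
  have s5 := Phi_expect hA lB lC (le_of_eq (eC.trans eB.symm))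
  linarith

/-- **THE IDENTITY (3.1), final form** (`A` to infinity): no error term at all. -/
theorem ident27_lim {Ω E : Type*} [MeasurableSpace Ω] [MeasurableSpace E]
    {P : Measure Ω} {Q : Measure E} [IsProbabilityMeasure P] [IsProbabilityMeasure Q]
    {om : Ω → E} (hom : MeasurePreserving om P Q)
    {et : ℝ → Ω → E} (het : ∀ a, MeasurePreserving (et a) P Q)
    {U0 Ux Uy : E → ℝ} (m0 : Measurable U0) (mx : Measurable Ux) (my : Measurable Uy)
    (i0 : MemLp U0 2 Q) (ix : MemLp Ux 2 Q) (iy : MemLp Uy 2 Q)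
    (ex : ∫ e, Ux e ∂Q = ∫ e, U0 e ∂Q) (ey : ∫ e, Uy e ∂Q = ∫ e, U0 e ∂Q)
    {Z0 : ℝ → Ω → ℝ} (mZ : ∀ a, AEStronglyMeasurable (fun o => log (Z0 a o)) P)
    (pZ : ∀ a o, 0 < Z0 a o)
    (hZ : ∀ a o, |exp (U0 (om o)) - exp (-a) * exp (Ux (om o))| ≤ Z0 a o)
    (hZ' : ∀ a o, Z0 a o ≤ exp (U0 (et a o)) + exp (-a) * exp (Uy (et a o)))
    {l : ℝ → Ω → ℝ} (il : ∀ a, Integrable (l a) P) (hl : ∀ a o, l a o ≤ log (Z0 a o))
    {A' : ℝ} (hA' : 0 ≤ A')
    {k : ℝ → ℝ} (ik : IntervalIntegrable k volume (-A') A')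
    (hk : ∀ a, |a| ≤ A' → k a ≤
      ∫ o, (log (exp (U0 (et a o)) + exp (-a) * exp (Uy (et a o))) - log (Z0 a o)) ∂P) :
    ∫ a in (-A')..A', k a ≤
      (∫ e, (Uy e - U0 e) ^ 2 ∂Q - ∫ e, (Ux e - U0 e) ^ 2 ∂Q) / 2 + 11 := by
  have lB : MemLp (fun e => Ux e - U0 e) 2 Q := ix.sub i0
  have mB : Measurable (fun e => Ux e - U0 e) := mx.sub m0
  have iB2 : Integrable (fun e => (Ux e - U0 e) ^ 2) Q := lB.integrable_sq
  have hbound : ∀ j : ℕ, A' ≤ 2 * (j : ℝ) → ∫ a in (-A')..A', k a ≤
      (∫ e, (Uy e - U0 e) ^ 2 ∂Q - ∫ e, (Ux e - U0 e) ^ 2 ∂Q) / 2 + 11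
        + exp (-(j : ℝ)) * ∫ e, (Ux e - U0 e) ^ 2 ∂Q
        + ∫ e, (if (j : ℝ) < |Ux e - U0 e| then (Ux e - U0 e) ^ 2 else 0) ∂Q := by
    intro j hj
    have h := ident27 hom het m0 mx my i0 ix iy ex ey mZ pZ hZ hZ' il hl hA' hj ik hk
    have e2 : 2 * (j : ℝ) / 2 = (j : ℝ) := by ring
    rw [e2] at h
    exact h
  have t1 : Filter.Tendsto (fun j : ℕ => exp (-(j : ℝ)) * ∫ e, (Ux e - U0 e) ^ 2 ∂Q)
      Filter.atTop (nhds (0 * ∫ e, (Ux e - U0 e) ^ 2 ∂Q)) :=
    ((tendsto_exp_neg_atTop_nhds_zero.comp tendsto_natCast_atTop_atTop)).mul_const _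
  have t2 : Filter.Tendsto (fun j : ℕ =>
      ∫ e, (if (j : ℝ) < |Ux e - U0 e| then (Ux e - U0 e) ^ 2 else 0) ∂Q)
      Filter.atTop (nhds (∫ _ : E, (0 : ℝ) ∂Q)) := by
    refine tendsto_integral_of_dominated_convergence (fun e => (Ux e - U0 e) ^ 2) ?_ iB2 ?_ ?_
    · intro j
      exact (Measurable.ite (measurableSet_lt measurable_const mB.abs) (mB.pow_const 2)
        measurable_const).aestronglyMeasurable
    · intro j
      refine Filter.Eventually.of_forall fun e => ?_
      split_ifs
      · rw [norm_eq_abs, abs_of_nonneg (sq_nonneg _)]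
      · rw [norm_zero]; exact sq_nonneg _
    · refine Filter.Eventually.of_forall fun e => ?_
      obtain ⟨j0, hj0⟩ := exists_nat_ge |Ux e - U0 e|
      refine tendsto_const_nhds.congr' ?_
      filter_upwards [Filter.eventually_ge_atTop j0] with j hj
      have : (j0 : ℝ) ≤ j := by exact_mod_cast hj
      rw [if_neg (not_lt.mpr (hj0.trans this))]
  rw [integral_zero] at t2
  have t3 := ((tendsto_const_nhds (x := (∫ e, (Uy e - U0 e) ^ 2 ∂Q
    - ∫ e, (Ux e - U0 e) ^ 2 ∂Q) / 2 + 11) (f := Filter.atTop (α := ℕ))).add t1).add t2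
  rw [zero_mul, add_zero, add_zero] at t3
  refine ge_of_tendsto t3 ?_
  obtain ⟨J, hJ⟩ := exists_nat_ge A'
  filter_upwards [Filter.eventually_ge_atTop J] with j hj
  refine hbound j ?_
  have h1 : (J : ℝ) ≤ j := by exact_mod_cast hj
  have h2 : (0 : ℝ) ≤ j := Nat.cast_nonneg j
  linarith

end

end Pool.Agent.W_7d29a1_LB
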