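import Mathlib

/-!
STORM LB, Fubini over the level `a`: the levels at distance at most `1` from `B`, and the exceptional levels near finitely many
values. Pure.
-/

set_option autoImplicit false

namespace Pool.Agent.W_7d29a1_LB

open MeasureTheory

variable {Ω : Type*} [MeasurableSpace Ω] {P : Measure Ω} {B f : Ω → ℝ}

private lemma lev_meas (hB : Measurable B) (hf : Measurable f) :
    Measurable fun z : ℝ × Ω => (if |B z.2 - z.1| ≤ 1 then f z.2 else 0) := by
  refine Measurable.ite ?_ (hf.comp measurable_snd) measurable_const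
  exact measurableSet_le ((hB.comp measurable_snd).sub measurable_fst).abs measurable_const

private lemma lev_int [IsFiniteMeasure P] (hB : Measurable B) (hf : Measurable f)
    (hf0 : ∀ ω, 0 ≤ f ω) (hf1 : ∀ ω, f ω ≤ 1) (A : ℝ) :
    Integrable (fun z : ℝ × Ω => (if |B z.2 - z.1| ≤ 1 then f z.2 else 0))
      ((volume.restrict (Set.Icc (-A) A)).prod P) := by
  refine Integrable.of_bound (lev_meas hB hf).aestronglyMeasurable 1
    (Filter.Eventually.of_forall fun z => ?_)
  rw [Real.norm_eq_abs]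
  split_ifs
  · rw [abs_of_nonneg (hf0 _)]
    exact hf1 _
  · simp

/-- The function of the level is integrable. -/
theorem lev_integrable [IsFiniteMeasure P] (hB : Measurable B) (hf : Measurable f)
    (hf0 : ∀ ω, 0 ≤ f ω) (hf1 : ∀ ω, f ω ≤ 1) (A : ℝ) :
    IntegrableOn (fun a => ∫ ω, (if |B ω - a| ≤ 1 then f ω else 0) ∂P) (Set.Icc (-A) A) :=
  (lev_int hB hf hf0 hf1 A).integral_prod_left

/-- The inner integral over the levels. -/
private lemma lev_inner (b c A : ℝ) :
    ∫ a in Set.Icc (-A) A, (if |b - a| ≤ 1 then c else 0) =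
      c * (volume (Set.Icc (b - 1) (b + 1) ∩ Set.Icc (-A) A)).toReal := by
  have h1 : (fun a : ℝ => (if |b - a| ≤ 1 then c else 0)) =
      (Set.Icc (b - 1) (b + 1)).indicator fun _ => c := by
    funext a
    by_cases h : |b - a| ≤ 1
    · rw [if_pos h, Set.indicator_of_mem]
      have := abs_le.1 h
      exact ⟨by linarith, by linarith⟩
    · rw [if_neg h, Set.indicator_of_notMem]
      intro h2
      exact h (abs_le.2 ⟨by linarith [h2.1, h2.2], by linarith [h2.1, h2.2]⟩)
  rw [h1, integral_indicator measurableSet_Icc, Measure.restrict_restrict measurableSet_Icc,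
    setIntegral_const, smul_eq_mul, mul_comm]
  rfl

private lemma lev_le (b A : ℝ) :
    (volume (Set.Icc (b - 1) (b + 1) ∩ Set.Icc (-A) A)).toReal ≤ 2 := by
  have h1 : volume (Set.Icc (b - 1) (b + 1) ∩ Set.Icc (-A) A) ≤ ENNReal.ofReal 2 := by
    refine (measure_mono Set.inter_subset_left).trans ?_
    rw [Real.volume_Icc]
    exact ENNReal.ofReal_le_ofReal (by linarith)
  exact ENNReal.toReal_le_of_le_ofReal (by norm_num) h1

private lemma lev_ge {b A : ℝ} (h : |b| ≤ A - 1) :
    (volume (Set.Icc (b - 1) (b + 1) ∩ Set.Icc (-A) A)).toReal = 2 := by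
  have h1 := abs_le.1 h
  have h2 : Set.Icc (b - 1) (b + 1) ∩ Set.Icc (-A) A = Set.Icc (b - 1) (b + 1) := by
    refine Set.inter_eq_left.2 fun a ha => ⟨?_, ?_⟩
    · linarith [ha.1, h1.1]
    · linarith [ha.2, h1.2]
  rw [h2, Real.volume_Icc, show b + 1 - (b - 1) = 2 by ring]
  exact ENNReal.toReal_ofReal (by norm_num)

private lemma lev_swap [IsProbabilityMeasure P] (hB : Measurable B) (hf : Measurable f)
    (hf0 : ∀ ω, 0 ≤ f ω) (hf1 : ∀ ω, f ω ≤ 1) (A : ℝ) :
    ∫ a in Set.Icc (-A) A, (∫ ω, (if |B ω - a| ≤ 1 then f ω else 0) ∂P) =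
      ∫ ω, f ω * (volume (Set.Icc (B ω - 1) (B ω + 1) ∩ Set.Icc (-A) A)).toReal ∂P := by
  rw [integral_integral_swap (lev_int hB hf hf0 hf1 A)]
  exact integral_congr_ae (Filter.Eventually.of_forall fun ω => lev_inner (B ω) (f ω) A)

private lemma lev_mint [IsProbabilityMeasure P] (hB : Measurable B) (hf : Measurable f)
    (hf0 : ∀ ω, 0 ≤ f ω) (hf1 : ∀ ω, f ω ≤ 1) (A : ℝ) : Integrable (fun ω =>
      f ω * (volume (Set.Icc (B ω - 1) (B ω + 1) ∩ Set.Icc (-A) A)).toReal) P := by
  have h := (lev_int (P := P) hB hf hf0 hf1 A).integral_prod_right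
  refine h.congr (Filter.Eventually.of_forall fun ω => ?_)
  exact lev_inner (B ω) (f ω) A

/-- **Upper bound**: every `ω` is near the levels of an interval of the length `2` only. -/
theorem lev_upper [IsProbabilityMeasure P] (hB : Measurable B) (hf : Measurable f)
    (hf0 : ∀ ω, 0 ≤ f ω) (hf1 : ∀ ω, f ω ≤ 1) (A : ℝ) :
    ∫ a in Set.Icc (-A) A, (∫ ω, (if |B ω - a| ≤ 1 then f ω else 0) ∂P) ≤ 2 * ∫ ω, f ω ∂P := by
  rw [lev_swap hB hf hf0 hf1 A, ← integral_const_mul]
  have hfi : Integrable f P := Integrable.of_bound hf.aestronglyMeasurable 1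
    (Filter.Eventually.of_forall fun ω => by
      rw [Real.norm_eq_abs, abs_of_nonneg (hf0 ω)]; exact hf1 ω)
  refine integral_mono (lev_mint hB hf hf0 hf1 A) (hfi.const_mul 2) fun ω => ?_
  have := mul_le_mul_of_nonneg_left (lev_le (B ω) A) (hf0 ω)
  simpa [mul_comm] using this

/-- **Lower bound**. -/
theorem lev_lower [IsProbabilityMeasure P] (hB : Measurable B) (hf : Measurable f)
    (hf0 : ∀ ω, 0 ≤ f ω) (hf1 : ∀ ω, f ω ≤ 1) (A : ℝ) :
    2 * ∫ ω, f ω ∂P - 2 * P.real {ω | A - 1 < |B ω|} ≤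
      ∫ a in Set.Icc (-A) A, (∫ ω, (if |B ω - a| ≤ 1 then f ω else 0) ∂P) := by
  rw [lev_swap hB hf hf0 hf1 A]
  have hfi : Integrable f P := Integrable.of_bound hf.aestronglyMeasurable 1
    (Filter.Eventually.of_forall fun ω => by
      rw [Real.norm_eq_abs, abs_of_nonneg (hf0 ω)]; exact hf1 ω)
  have hS : MeasurableSet {ω | A - 1 < |B ω|} := measurableSet_lt measurable_const hB.abs
  have hi : Integrable ({ω | A - 1 < |B ω|}.indicator fun _ => (1 : ℝ)) P :=
    (integrable_const 1).indicator hS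
  have e1 : P.real {ω | A - 1 < |B ω|} = ∫ ω, {ω | A - 1 < |B ω|}.indicator (fun _ => (1 : ℝ)) ω ∂P := by
    rw [integral_indicator hS, setIntegral_const, smul_eq_mul, mul_one]
  rw [e1, ← integral_const_mul, ← integral_const_mul, ← integral_sub (hfi.const_mul 2) (hi.const_mul 2)]
  refine integral_mono ((hfi.const_mul 2).sub (hi.const_mul 2)) (lev_mint hB hf hf0 hf1 A) fun ω => ?_
  by_cases h : A - 1 < |B ω|
  · have h1 : {ω | A - 1 < |B ω|}.indicator (fun _ => (1 : ℝ)) ω = 1 :=
      Set.indicator_of_mem (show ω ∈ {ω | A - 1 < |B ω|} from h) _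
    simp only [h1]
    have h2 := mul_nonneg (hf0 ω) (ENNReal.toReal_nonneg
      (a := volume (Set.Icc (B ω - 1) (B ω + 1) ∩ Set.Icc (-A) A)))
    have := hf1 ω
    linarith
  · have h1 : {ω | A - 1 < |B ω|}.indicator (fun _ => (1 : ℝ)) ω = 0 :=
      Set.indicator_of_notMem (show ω ∉ {ω | A - 1 < |B ω|} from h) _
    simp only [h1]
    rw [lev_ge (not_lt.1 h)]
    linarith

/-- The form used in STEP: a loss `g ≤ 1` of the second function. -/
theorem lev_main [IsProbabilityMeasure P] (hB : Measurable B) {g : Ω → ℝ} (hg : Measurable g)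
    (hg0 : ∀ ω, 0 ≤ g ω) (hg1 : ∀ ω, g ω ≤ 1) (A : ℝ) :
    2 - 2 * ∫ ω, g ω ∂P - 2 * P.real {ω | A - 1 < |B ω|} ≤
      ∫ a in Set.Icc (-A) A, (∫ ω, (if |B ω - a| ≤ 1 then 1 - g ω else 0) ∂P) := by
  have h := lev_lower (P := P) hB (f := fun ω => 1 - g ω) (measurable_const.sub hg)
    (fun ω => by linarith [hg1 ω]) (fun ω => by linarith [hg0 ω]) A
  have hgi : Integrable g P := Integrable.of_bound hg.aestronglyMeasurable 1
    (Filter.Eventually.of_forall fun ω => by
      rw [Real.norm_eq_abs, abs_of_nonneg (hg0 ω)]; exact hg1 ω)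
  rw [integral_sub (integrable_const 1) hgi] at h
  simp only [integral_const, probReal_univ, smul_eq_mul, mul_one] at h
  linarith

/-- **The exceptional levels**: the levels at distance less than `ε` from one of finitely many values. -/
theorem lev_exc {ι : Type*} (s : Finset ι) (v : ι → ℝ) (ε : ℝ) :
    volume {a : ℝ | ∃ i ∈ s, |v i - a| < ε} ≤ ENNReal.ofReal (2 * ε * s.card) := by
  have h1 : {a : ℝ | ∃ i ∈ s, |v i - a| < ε} ⊆ ⋃ i ∈ s, Set.Icc (v i - ε) (v i + ε) := by
    rintro a ⟨i, hi, h⟩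
    have := abs_lt.1 h
    refine Set.mem_biUnion hi ⟨by linarith, by linarith⟩
  refine (measure_mono h1).trans ((measure_biUnion_finset_le s _).trans ?_)
  have h2 : ∀ i ∈ s, volume (Set.Icc (v i - ε) (v i + ε)) = ENNReal.ofReal (2 * ε) := fun i _ => by
    rw [Real.volume_Icc]
    congr 1
    ring
  rw [Finset.sum_congr rfl h2, Finset.sum_const, nsmul_eq_mul, mul_comm (2 * ε),
    ENNReal.ofReal_mul (Nat.cast_nonneg _), ENNReal.ofReal_natCast]

end Pool.Agent.W_7d29a1_LB
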