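import Mathlib

/-! STORM LB (MP_7d29a1_pr), section 3, pure real part. -/

open MeasureTheory Set Real
open scoped Interval

namespace Pool.Agent.W_7d29a1_LB.Loss

/-- softplus -/
noncomputable def H (s : ℝ) : ℝ := Real.log (1 + Real.exp s)

/-- the loss function `log coth (|t|/2)` -/
noncomputable def llc (t : ℝ) : ℝ := Real.log ((1 + Real.exp (-|t|)) / (1 - Real.exp (-|t|)))

theorem llc_zero : llc 0 = 0 := by
  simp [llc]

theorem llc_nonneg (t : ℝ) : 0 ≤ llc t := by
  unfold llc
  rcases eq_or_ne t 0 with h | h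
  · simp [h]
  · have h1 : 0 < |t| := abs_pos.mpr h
    have h2 : Real.exp (-|t|) < 1 := by
      rw [Real.exp_lt_one_iff]; linarith
    have h3 : 0 < Real.exp (-|t|) := Real.exp_pos _
    apply Real.log_nonneg
    rw [le_div_iff₀ (by linarith)]
    linarith

theorem log_one_add_le_sqrt {z : ℝ} (hz : 0 ≤ z) : Real.log (1 + z) ≤ Real.sqrt z := by
  -- with `r = sqrt z`: `1 + r^2 ≤ exp r`
  set r := Real.sqrt z with hr
  have hr0 : 0 ≤ r := Real.sqrt_nonneg z
  have hz2 : z = r ^ 2 := by rw [hr, Real.sq_sqrt hz]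
  rw [hz2, Real.log_le_iff_le_exp (by positivity)]
  have h := Real.sum_le_exp_of_nonneg hr0 4
  simp only [Finset.sum_range_succ, Finset.sum_range_zero, Nat.factorial] at h
  norm_num at h
  nlinarith [mul_nonneg hr0 (sq_nonneg (r - 3/2)), mul_nonneg hr0 hr0]

/-- `e^t - 1 ≥ t e^(t/2)` for `t ≥ 0`. -/
theorem exp_sub_one_ge {t : ℝ} (ht : 0 ≤ t) : t * Real.exp (t / 2) ≤ Real.exp t - 1 := by
  have h1 : t / 2 ≤ Real.sinh (t / 2) := Real.self_le_sinh_iff.mpr (by linarith)
  rw [Real.sinh_eq] at h1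
  have h2 : Real.exp t = Real.exp (t / 2) * Real.exp (t / 2) := by
    rw [← Real.exp_add]; ring_nf
  have h3 : Real.exp (t / 2) * Real.exp (-(t / 2)) = 1 := by
    rw [← Real.exp_add]; simp
  have h4 : 0 < Real.exp (t / 2) := Real.exp_pos _
  have h5 : t ≤ Real.exp (t / 2) - Real.exp (-(t / 2)) := by linarith
  have h6 := mul_le_mul_of_nonneg_left h5 h4.le
  nlinarith

/-- domination of `llc` by a Gamma integrand. -/
noncomputable def dom (t : ℝ) : ℝ := Real.sqrt 2 * (t ^ ((1:ℝ) / 2 - 1) * Real.exp (-(1/4 * t)))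

theorem llc_le_dom {t : ℝ} (ht : 0 < t) : llc t ≤ dom t := by
  have e0 : 0 < Real.exp (-t) := Real.exp_pos _
  have e1 : Real.exp (-t) < 1 := by rw [Real.exp_lt_one_iff]; linarith
  have e2 : Real.exp (-t) * Real.exp t = 1 := by rw [← Real.exp_add]; simp
  have e3 : 1 < Real.exp t := Real.one_lt_exp_iff.mpr ht
  have h1 : (1 + Real.exp (-t)) / (1 - Real.exp (-t)) = 1 + 2 / (Real.exp t - 1) := by
    rw [div_eq_iff (by linarith)]
    have : Real.exp t - 1 ≠ 0 := by linarith
    field_simp
    nlinarith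
  have h2 : llc t = Real.log (1 + 2 / (Real.exp t - 1)) := by
    unfold llc
    rw [abs_of_pos ht, h1]
  have h3 : 0 ≤ 2 / (Real.exp t - 1) := by
    apply div_nonneg (by norm_num) (by linarith)
  rw [h2]
  refine (log_one_add_le_sqrt h3).trans ?_
  have h4 : 0 < t * Real.exp (t / 2) := mul_pos ht (Real.exp_pos _)
  have h5 : 2 / (Real.exp t - 1) ≤ 2 / (t * Real.exp (t / 2)) := by
    apply div_le_div_of_nonneg_left (by norm_num) h4 (exp_sub_one_ge ht.le)
  refine (Real.sqrt_le_sqrt h5).trans ?_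
  have h6 : (2:ℝ) / (t * Real.exp (t / 2)) = 2 * (t ^ (-(1:ℝ)) * Real.exp (-(t / 2))) := by
    rw [Real.rpow_neg_one, Real.exp_neg]
    field_simp
  rw [h6]
  unfold dom
  rw [Real.sqrt_mul (by norm_num)]
  apply mul_le_mul_of_nonneg_left _ (Real.sqrt_nonneg _)
  rw [Real.sqrt_mul (by positivity), Real.sqrt_eq_rpow, Real.sqrt_eq_rpow, ← Real.rpow_mul ht.le, ← Real.exp_mul]
  apply le_of_eq
  congr 1
  · norm_num
  · congr 1; ring

theorem dom_integrableOn : IntegrableOn dom (Ioi 0) := by
  have h := Real.integral_rpow_mul_exp_neg_mul_Ioi (a := 1/2) (r := 1/4) (by norm_num) (by norm_num)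
  have hne : (∫ t : ℝ in Ioi 0, t ^ ((1:ℝ) / 2 - 1) * Real.exp (-(1/4 * t))) ≠ 0 := by
    rw [h]
    have := Real.Gamma_pos_of_pos (s := 1/2) (by norm_num)
    positivity
  have h2 : IntegrableOn (fun t : ℝ => t ^ ((1:ℝ) / 2 - 1) * Real.exp (-(1/4 * t))) (Ioi 0) := by
    by_contra hc
    exact hne (integral_undef hc)
  exact h2.const_mul _

theorem dom_integral : ∫ t in Ioi 0, dom t ≤ 11 / 2 := by
  have h := Real.integral_rpow_mul_exp_neg_mul_Ioi (a := 1/2) (r := 1/4) (by norm_num) (by norm_num)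
  have h1 : ∫ t in Ioi 0, dom t = Real.sqrt 2 * (2 * Real.sqrt Real.pi) := by
    unfold dom
    rw [integral_const_mul, h, Real.Gamma_one_half_eq]
    congr 2
    rw [show (1:ℝ) / (1/4) = 2 ^ (2:ℝ) by norm_num, ← Real.rpow_mul (by norm_num)]
    norm_num
  rw [h1]
  have h2 : Real.sqrt 2 ≤ 1.42 := by
    rw [Real.sqrt_le_left (by norm_num)]; norm_num
  have h3 : Real.sqrt Real.pi ≤ 1.78 := by
    rw [Real.sqrt_le_left (by norm_num)]
    have := Real.pi_lt_d2
    linarith
  have h4 := Real.sqrt_nonneg 2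
  have h5 := Real.sqrt_nonneg Real.pi
  nlinarith

theorem llc_measurable : Measurable llc := by
  unfold llc
  fun_prop

theorem llc_even (t : ℝ) : llc |t| = llc t := by
  unfold llc
  rw [abs_abs]

theorem llc_integrableOn_Ioi : IntegrableOn llc (Ioi 0) := by
  refine Integrable.mono' dom_integrableOn llc_measurable.aestronglyMeasurable ?_
  refine (ae_restrict_iff' measurableSet_Ioi).mpr (Filter.Eventually.of_forall ?_)
  intro t ht
  rw [Real.norm_of_nonneg (llc_nonneg t)]
  exact llc_le_dom ht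

theorem llc_integrable : Integrable llc := by
  have hf : IntegrableOn (fun t : ℝ => llc |t|) (Ioi 0) := by
    simpa [llc_even] using llc_integrableOn_Ioi
  have int_Iic : IntegrableOn (fun x ↦ llc |x|) (Iic 0) := by
    rw [← Measure.map_neg_eq_self (volume : Measure ℝ)]
    let m : MeasurableEmbedding fun x : ℝ => -x := (Homeomorph.neg ℝ).measurableEmbedding
    rw [m.integrableOn_map_iff]
    simp_rw [Function.comp_def, abs_neg, neg_preimage, neg_Iic, neg_zero]
    exact Iff.mpr integrableOn_Ici_iff_integrableOn_Ioi hf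
  have h : Integrable (fun t : ℝ => llc |t|) := by
    rw [← integrableOn_univ, ← Iic_union_Ioi (a := (0:ℝ))]
    exact int_Iic.union hf
  simpa [llc_even] using h

theorem llc_integral_le : ∫ t, llc t ≤ 11 := by
  have h1 : ∫ t, llc t = 2 * ∫ t in Ioi 0, llc t := by
    rw [← integral_comp_abs]
    simp [llc_even]
  rw [h1]
  have h2 : ∫ t in Ioi 0, llc t ≤ ∫ t in Ioi 0, dom t := by
    apply setIntegral_mono_on llc_integrableOn_Ioi dom_integrableOn measurableSet_Ioi
    intro t ht
    exact llc_le_dom ht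
  have := dom_integral
  linarith

/-- every shift: integrable in `a` -/
theorem llc_sub_integrable (B : ℝ) : Integrable (fun a => llc (a - B)) :=
  llc_integrable.comp_sub_right B

theorem llc_sub_integral (B : ℝ) : ∫ a, llc (a - B) = ∫ a, llc a :=
  integral_sub_right_eq_self llc B

/-- the total loss is at most 11, on every set of levels. -/
theorem llc_set_integral_le (B : ℝ) (S : Set ℝ) : ∫ a in S, llc (a - B) ≤ 11 := by
  refine le_trans (setIntegral_le_integral (llc_sub_integrable B)
    (Filter.Eventually.of_forall fun a => llc_nonneg _)) ?_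
  rw [llc_sub_integral]
  exact llc_integral_le

/-- pointwise form of the loss: `M - log Z0 ≤ llc (a - B)` as soon as
`Z0 ≥ |1 - e^(B-a)| · psi0`, here divided by `psi0`. For `a ≠ B`. -/
theorem log_ratio_le_llc {B a : ℝ} (hne : a ≠ B) {r : ℝ} (hr : |1 - Real.exp (B - a)| ≤ r) :
    Real.log (1 + Real.exp (B - a)) - Real.log r ≤ llc (a - B) := by
  have hpos : 0 < |1 - Real.exp (B - a)| := by
    rw [abs_pos, sub_ne_zero]
    intro h
    have : B - a = 0 := by
      rw [← Real.exp_eq_one_iff]; exact h.symm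
    exact hne (by linarith)
  have h1 : Real.log (1 + Real.exp (B - a)) - Real.log r ≤
      Real.log (1 + Real.exp (B - a)) - Real.log |1 - Real.exp (B - a)| := by
    have := Real.log_le_log hpos hr
    linarith
  refine h1.trans (le_of_eq ?_)
  rw [← Real.log_div (by positivity) hpos.ne']
  unfold llc
  congr 1
  rcases lt_or_gt_of_ne hne with h | h
  · -- a < B
    have e1 : |a - B| = B - a := by rw [abs_of_neg (by linarith)]; ring
    have e2 : 1 < Real.exp (B - a) := Real.one_lt_exp_iff.mpr (by linarith)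
    have e3 : Real.exp (-(B - a)) * Real.exp (B - a) = 1 := by rw [← Real.exp_add]; simp
    have e4 : Real.exp (-(B - a)) < 1 := by rw [Real.exp_lt_one_iff]; linarith
    rw [e1, abs_of_neg (by linarith), div_eq_div_iff (by linarith) (by linarith)]
    nlinarith
  · have e1 : |a - B| = a - B := abs_of_pos (by linarith)
    have e2 : Real.exp (B - a) < 1 := by rw [Real.exp_lt_one_iff]; linarith
    rw [e1, abs_of_pos (by linarith), neg_sub]

/-! ## softplus -/

theorem H_pos (s : ℝ) : 0 < H s := by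
  unfold H
  apply Real.log_pos
  have := Real.exp_pos s
  linarith

theorem H_continuous : Continuous H := by
  unfold H
  refine Continuous.log (by fun_prop) ?_
  intro x
  have := Real.exp_pos x
  linarith

theorem H_eq (s : ℝ) : H s = s + H (-s) := by
  unfold H
  have h1 : 1 + Real.exp s = Real.exp s * (1 + Real.exp (-s)) := by
    rw [mul_add, ← Real.exp_add]; simp [add_comm]
  rw [h1, Real.log_mul (Real.exp_pos _).ne' (by positivity), Real.log_exp]

theorem H_mono : Monotone H := by
  intro x y h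
  unfold H
  apply Real.log_le_log (by positivity)
  have := Real.exp_le_exp.mpr h
  linarith

/-- increments of softplus are monotone (convexity) -/
theorem H_incr {x y b : ℝ} (hxy : x ≤ y) (hb : 0 ≤ b) : H (x + b) - H x ≤ H (y + b) - H y := by
  have h1 : H (x + b) + H y ≤ H (y + b) + H x := by
    unfold H
    rw [← Real.log_mul (by positivity) (by positivity), ← Real.log_mul (by positivity) (by positivity)]
    apply Real.log_le_log (by positivity)
    rw [Real.exp_add, Real.exp_add]
    have e1 := Real.exp_le_exp.mpr hxy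
    have e2 := Real.one_le_exp hb
    nlinarith [mul_nonneg (sub_nonneg.mpr e1) (sub_nonneg.mpr e2)]
  linarith

/-- Lipschitz: `H y - H x ≤ e^y (y - x)` for `x ≤ y`. -/
theorem H_lip {x y : ℝ} (hxy : x ≤ y) : H y - H x ≤ Real.exp y * (y - x) := by
  unfold H
  rw [← Real.log_div (by positivity) (by positivity)]
  refine (Real.log_le_sub_one_of_pos (by positivity)).trans ?_
  have h0 : (0:ℝ) < 1 + Real.exp x := by positivity
  have h1 : (1 + Real.exp y) / (1 + Real.exp x) - 1 = (Real.exp y - Real.exp x) / (1 + Real.exp x) := by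
    field_simp
    ring
  rw [h1]
  have h2 : Real.exp y - Real.exp x ≤ Real.exp y * (y - x) := by
    have e1 : Real.exp x = Real.exp y * Real.exp (x - y) := by
      rw [← Real.exp_add]; ring_nf
    have e2 : x - y + 1 ≤ Real.exp (x - y) := Real.add_one_le_exp _
    have e3 := mul_le_mul_of_nonneg_left e2 (Real.exp_pos y).le
    rw [e1]
    nlinarith
  have h3 : 0 ≤ Real.exp y - Real.exp x := by
    have := Real.exp_le_exp.mpr hxy; linarith
  calc (Real.exp y - Real.exp x) / (1 + Real.exp x) ≤ (Real.exp y - Real.exp x) / 1 := by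
        apply div_le_div_of_nonneg_left h3 (by norm_num)
        have := Real.exp_pos x; linarith
    _ ≤ _ := by simpa using h2

/-- `Phi A b = ∫_(-A)^A log (1 + e^(b-a)) da` -/
noncomputable def Phi (A b : ℝ) : ℝ := ∫ a in (-A)..A, H (b - a)

/-- the remainder -/
noncomputable def Rem (A b : ℝ) : ℝ := Phi A 0 + A * b + b ^ 2 / 2 - Phi A b

theorem Phi_eq (A b : ℝ) : Phi A b = ∫ s in (b - A)..(b + A), H s := by
  unfold Phi
  rw [intervalIntegral.integral_comp_sub_left]
  congr 1
  ring

theorem Phi_hasDerivAt (A b : ℝ) : HasDerivAt (Phi A) (H (b + A) - H (b - A)) b := by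
  have h1 : HasDerivAt (fun u => ∫ s in (0:ℝ)..u, H s) (H (b + A)) (b + A) :=
    intervalIntegral.integral_hasDerivAt_right (H_continuous.intervalIntegrable _ _)
      (H_continuous.stronglyMeasurableAtFilter _ _) H_continuous.continuousAt
  have h2 : HasDerivAt (fun u => ∫ s in (0:ℝ)..u, H s) (H (b - A)) (b - A) :=
    intervalIntegral.integral_hasDerivAt_right (H_continuous.intervalIntegrable _ _)
      (H_continuous.stronglyMeasurableAtFilter _ _) H_continuous.continuousAt
  have h3 : HasDerivAt (fun b => ∫ s in (0:ℝ)..(b + A), H s) (H (b + A)) b := by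
    simpa using h1.comp_add_const b A
  have h4 : HasDerivAt (fun b => ∫ s in (0:ℝ)..(b - A), H s) (H (b - A)) b := by
    simpa using h2.comp_sub_const b A
  have h5 : Phi A = fun b => (∫ s in (0:ℝ)..(b + A), H s) - ∫ s in (0:ℝ)..(b - A), H s := by
    funext u
    rw [Phi_eq, intervalIntegral.integral_interval_sub_left (H_continuous.intervalIntegrable _ _)
      (H_continuous.intervalIntegrable _ _)]
  rw [h5]
  exact h3.sub h4

theorem Phi_continuous (A : ℝ) : Continuous (Phi A) :=
  continuous_iff_continuousAt.mpr fun b => (Phi_hasDerivAt A b).continuousAt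

theorem hasDerivAt_sq_half (b : ℝ) : HasDerivAt (fun b : ℝ => b ^ 2 / 2) b b :=
  ((hasDerivAt_pow 2 b).div_const 2).congr_deriv (by norm_num)

/-- derivative of the remainder -/
theorem Rem_hasDerivAt (A b : ℝ) : HasDerivAt (Rem A) (H (b - A) - H (-b - A)) b := by
  have h1 := Phi_hasDerivAt A b
  have h2 : HasDerivAt (fun b : ℝ => Phi A 0 + A * b + b ^ 2 / 2) (A + b) b := by
    have a1 : HasDerivAt (fun b : ℝ => A * b) A b := by
      simpa using (hasDerivAt_id b).const_mul A
    exact (a1.const_add (Phi A 0)).add (hasDerivAt_sq_half b)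
  have h3 := h2.sub h1
  have e : A + b - (H (b + A) - H (b - A)) = H (b - A) - H (-b - A) := by
    have := H_eq (b + A)
    have e2 : -(b + A) = -b - A := by ring
    rw [e2] at this
    linarith
  rw [e] at h3
  exact h3

theorem Rem_zero (A : ℝ) : Rem A 0 = 0 := by
  unfold Rem
  simp

theorem Rem_neg (A b : ℝ) : Rem A (-b) = Rem A b := by
  have hd : ∀ x, HasDerivAt (fun x => Rem A (-x) - Rem A x) 0 x := by
    intro x
    have h1 : HasDerivAt (fun x => Rem A (-x)) ((H (-x - A) - H (-(-x) - A)) * (-1)) x :=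
      (Rem_hasDerivAt A (-x)).comp x (hasDerivAt_neg x)
    exact (h1.sub (Rem_hasDerivAt A x)).congr_deriv (by rw [neg_neg]; ring)
  have hc := is_const_of_deriv_eq_zero (fun x => (hd x).differentiableAt) (fun x => (hd x).deriv) b 0
  simp only [neg_zero, sub_self] at hc
  linarith

theorem Rem_nonneg_aux {A b : ℝ} (hb : 0 ≤ b) : 0 ≤ Rem A b := by
  have hm : MonotoneOn (Rem A) (Ici 0) := by
    apply monotoneOn_of_deriv_nonneg (convex_Ici 0)
    · exact fun x _ => (Rem_hasDerivAt A x).continuousAt.continuousWithinAt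
    · exact fun x _ => (Rem_hasDerivAt A x).differentiableAt.differentiableWithinAt
    · intro x hx
      rw [interior_Ici] at hx
      rw [(Rem_hasDerivAt A x).deriv]
      have := H_mono (show -x - A ≤ x - A by have : (0:ℝ) < x := hx; linarith)
      linarith
  have := hm (show (0:ℝ) ∈ Ici (0:ℝ) by simp) (show b ∈ Ici (0:ℝ) from hb) hb
  rwa [Rem_zero] at this

theorem Rem_le_aux {A b : ℝ} (hA : 0 ≤ A) (hb : 0 ≤ b) : Rem A b ≤ b ^ 2 / 2 := by
  have hd : ∀ x, HasDerivAt (fun x => x ^ 2 / 2 - Rem A x) (x - (H (x - A) - H (-x - A))) x := by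
    intro x
    exact (hasDerivAt_sq_half x).sub (Rem_hasDerivAt A x)
  have hm : MonotoneOn (fun x => x ^ 2 / 2 - Rem A x) (Ici 0) := by
    apply monotoneOn_of_deriv_nonneg (convex_Ici 0)
    · exact fun x _ => (hd x).continuousAt.continuousWithinAt
    · exact fun x _ => (hd x).differentiableAt.differentiableWithinAt
    · intro x hx
      rw [interior_Ici] at hx
      rw [(hd x).deriv]
      have hx0 : (0:ℝ) < x := hx
      have h1 := H_incr (x := -A) (y := A) (b := x) (by linarith) hx0.le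
      have h2 := H_eq A
      have h3 := H_eq (A + x)
      have e1 : -(A + x) = -x - A := by ring
      have e2 : -A + x = x - A := by ring
      rw [e1] at h3
      rw [e2] at h1
      linarith
  have := hm (show (0:ℝ) ∈ Ici (0:ℝ) by simp) (show b ∈ Ici (0:ℝ) from hb) hb
  simp only [Rem_zero] at this
  norm_num at this
  linarith

theorem Rem_small_aux {A b : ℝ} (hb : 0 ≤ b) (hbA : b ≤ A / 2) :
    Rem A b ≤ Real.exp (-(A / 2)) * b ^ 2 := by
  have hd : ∀ x, HasDerivAt (fun x => Real.exp (-(A / 2)) * x ^ 2 - Rem A x)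
      (Real.exp (-(A / 2)) * (2 * x) - (H (x - A) - H (-x - A))) x := by
    intro x
    have a2 : HasDerivAt (fun b : ℝ => Real.exp (-(A / 2)) * b ^ 2) (Real.exp (-(A / 2)) * (2 * x)) x :=
      ((hasDerivAt_pow 2 x).const_mul (Real.exp (-(A / 2)))).congr_deriv (by norm_num)
    exact a2.sub (Rem_hasDerivAt A x)
  have hm : MonotoneOn (fun x => Real.exp (-(A / 2)) * x ^ 2 - Rem A x) (Icc 0 (A / 2)) := by
    apply monotoneOn_of_deriv_nonneg (convex_Icc 0 (A / 2))
    · exact fun x _ => (hd x).continuousAt.continuousWithinAt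
    · exact fun x _ => (hd x).differentiableAt.differentiableWithinAt
    · intro x hx
      rw [interior_Icc] at hx
      rw [(hd x).deriv]
      have hx0 : (0:ℝ) < x := hx.1
      have hx1 : x < A / 2 := hx.2
      have h1 := H_lip (x := -x - A) (y := x - A) (by linarith)
      have h2 : Real.exp (x - A) ≤ Real.exp (-(A / 2)) := Real.exp_le_exp.mpr (by linarith)
      have h3 : x - A - (-x - A) = 2 * x := by ring
      rw [h3] at h1
      have h4 := mul_le_mul_of_nonneg_right h2 (show 0 ≤ 2 * x by linarith)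
      linarith
  have hA : 0 ≤ A / 2 := hb.trans hbA
  have := hm (show (0:ℝ) ∈ Icc (0:ℝ) (A / 2) from ⟨le_rfl, hA⟩) (show b ∈ Icc (0:ℝ) (A / 2) from ⟨hb, hbA⟩) hb
  simp only [Rem_zero] at this
  norm_num at this
  linarith

theorem Rem_abs (A b : ℝ) : Rem A b = Rem A |b| := by
  rcases le_total 0 b with h | h
  · rw [abs_of_nonneg h]
  · rw [abs_of_nonpos h, Rem_neg]

theorem Rem_nonneg (A b : ℝ) : 0 ≤ Rem A b := by
  rw [Rem_abs]; exact Rem_nonneg_aux (abs_nonneg b)

theorem Rem_le {A : ℝ} (hA : 0 ≤ A) (b : ℝ) : Rem A b ≤ b ^ 2 / 2 := by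
  rw [Rem_abs, ← sq_abs b]; exact Rem_le_aux hA (abs_nonneg b)

theorem Rem_small {A b : ℝ} (hb : |b| ≤ A / 2) : Rem A b ≤ Real.exp (-(A / 2)) * b ^ 2 := by
  rw [Rem_abs, ← sq_abs b]; exact Rem_small_aux (abs_nonneg b) hb

/-- (b) upper bound, all `b` -/
theorem Phi_le (A b : ℝ) : Phi A b ≤ Phi A 0 + A * b + b ^ 2 / 2 := by
  have := Rem_nonneg A b
  unfold Rem at this
  linarith

/-- (b) lower bound, all `b` -/
theorem Phi_ge {A : ℝ} (hA : 0 ≤ A) (b : ℝ) :
    Phi A 0 + A * b + b ^ 2 / 2 - (Real.exp (-(A / 2)) * b ^ 2 + (if A / 2 < |b| then b ^ 2 else 0))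
      ≤ Phi A b := by
  have h1 := Rem_le hA b
  have h0 : 0 ≤ Real.exp (-(A / 2)) * b ^ 2 := by positivity
  unfold Rem at h1
  split_ifs with h
  · nlinarith [sq_nonneg b]
  · have h2 := Rem_small (not_lt.mp h)
    unfold Rem at h2
    linarith

theorem Phi_nonneg {A : ℝ} (hA : 0 ≤ A) (b : ℝ) : 0 ≤ Phi A b :=
  intervalIntegral.integral_nonneg (by linarith) fun a _ => (H_pos _).le

section Expect

variable {Ω Ω' : Type*} [MeasurableSpace Ω] [MeasurableSpace Ω'] {P : Measure Ω} {Q : Measure Ω'}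
  [IsProbabilityMeasure P] [IsProbabilityMeasure Q]

theorem Phi_integrable {A : ℝ} (hA : 0 ≤ A) {B : Ω → ℝ} (hB : MemLp B 2 P) :
    Integrable (fun ω => Phi A (B ω)) P := by
  have h1 : Integrable (fun ω => Phi A 0 + A * B ω + B ω ^ 2 / 2) P := by
    have i1 : Integrable B P := hB.integrable (by norm_num)
    have i2 : Integrable (fun ω => B ω ^ 2) P := hB.integrable_sq
    exact ((integrable_const _).add (i1.const_mul A)).add (i2.div_const 2)
  refine Integrable.mono' h1 ((Phi_continuous A).comp_aestronglyMeasurable hB.1) ?_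
  refine Filter.Eventually.of_forall fun ω => ?_
  rw [Real.norm_of_nonneg (Phi_nonneg hA _)]
  exact Phi_le A _

/-- (c) the form with expectations -/
theorem Phi_expect {A : ℝ} (hA : 0 ≤ A) {B : Ω → ℝ} {B' : Ω' → ℝ} (hB : MemLp B 2 P)
    (hB' : MemLp B' 2 Q) (hmean : ∫ ω, B' ω ∂Q ≤ ∫ ω, B ω ∂P) :
    ∫ ω, Phi A (B' ω) ∂Q - ∫ ω, Phi A (B ω) ∂P ≤
      (∫ ω, B' ω ^ 2 ∂Q - ∫ ω, B ω ^ 2 ∂P) / 2 + Real.exp (-(A / 2)) * ∫ ω, B ω ^ 2 ∂P
        + ∫ ω, (if A / 2 < |B ω| then B ω ^ 2 else 0) ∂P := by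
  have i1 : Integrable B P := hB.integrable (by norm_num)
  have i2 : Integrable (fun ω => B ω ^ 2) P := hB.integrable_sq
  have i1' : Integrable B' Q := hB'.integrable (by norm_num)
  have i2' : Integrable (fun ω => B' ω ^ 2) Q := hB'.integrable_sq
  have i3 : Integrable (fun ω => if A / 2 < |B ω| then B ω ^ 2 else 0) P := by
    refine Integrable.mono' i2 ?_ ?_
    · have hm : Measurable fun b : ℝ => if A / 2 < |b| then b ^ 2 else 0 := by
        apply Measurable.ite _ (by fun_prop) measurable_const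
        exact measurableSet_lt measurable_const (by fun_prop)
      exact (hm.comp_aemeasurable hB.1.aemeasurable).aestronglyMeasurable
    · refine Filter.Eventually.of_forall fun ω => ?_
      split_ifs
      · rw [Real.norm_of_nonneg (by positivity)]
      · rw [norm_zero]; positivity
  have h1 : ∫ ω, Phi A (B' ω) ∂Q ≤ ∫ ω, (Phi A 0 + A * B' ω + B' ω ^ 2 / 2) ∂Q := by
    apply integral_mono (Phi_integrable hA hB')
    · exact ((integrable_const _).add (i1'.const_mul A)).add (i2'.div_const 2)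
    · exact fun ω => Phi_le A _
  have h2 : ∫ ω, (Phi A 0 + A * B ω + B ω ^ 2 / 2
      - (Real.exp (-(A / 2)) * B ω ^ 2 + (if A / 2 < |B ω| then B ω ^ 2 else 0))) ∂P
      ≤ ∫ ω, Phi A (B ω) ∂P := by
    apply integral_mono _ (Phi_integrable hA hB)
    · exact fun ω => Phi_ge hA _
    · exact (((integrable_const _).add (i1.const_mul A)).add (i2.div_const 2)).sub
        ((i2.const_mul _).add i3)
  have q1 : Integrable (fun ω => Phi A 0 + A * B' ω) Q := (integrable_const _).add (i1'.const_mul A)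
  have q2 : Integrable (fun ω => B' ω ^ 2 / 2) Q := i2'.div_const 2
  have p1 : Integrable (fun ω => Phi A 0 + A * B ω) P := (integrable_const _).add (i1.const_mul A)
  have p2 : Integrable (fun ω => B ω ^ 2 / 2) P := i2.div_const 2
  have p3 : Integrable (fun ω => Real.exp (-(A / 2)) * B ω ^ 2) P := i2.const_mul _
  have p4 : Integrable (fun ω => Phi A 0 + A * B ω + B ω ^ 2 / 2) P := p1.add p2
  have p5 : Integrable (fun ω => Real.exp (-(A / 2)) * B ω ^ 2 +
    (if A / 2 < |B ω| then B ω ^ 2 else 0)) P := p3.add i3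
  have e1 : ∫ ω, (Phi A 0 + A * B' ω + B' ω ^ 2 / 2) ∂Q =
      Phi A 0 + A * ∫ ω, B' ω ∂Q + (∫ ω, B' ω ^ 2 ∂Q) / 2 := by
    rw [integral_add q1 q2, integral_add (integrable_const _) (i1'.const_mul A), integral_const_mul,
      integral_div]
    simp
  have e2 : ∫ ω, (Phi A 0 + A * B ω + B ω ^ 2 / 2
      - (Real.exp (-(A / 2)) * B ω ^ 2 + (if A / 2 < |B ω| then B ω ^ 2 else 0))) ∂P =
      Phi A 0 + A * ∫ ω, B ω ∂P + (∫ ω, B ω ^ 2 ∂P) / 2
      - (Real.exp (-(A / 2)) * ∫ ω, B ω ^ 2 ∂P + ∫ ω, (if A / 2 < |B ω| then B ω ^ 2 else 0) ∂P) := by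
    rw [integral_sub p4 p5, integral_add p1 p2, integral_add (integrable_const _) (i1.const_mul A),
      integral_const_mul, integral_div, integral_add p3 i3, integral_const_mul]
    simp
  rw [e1] at h1
  rw [e2] at h2
  have h3 := mul_le_mul_of_nonneg_left hmean hA
  linarith

end Expect

end Pool.Agent.W_7d29a1_LB.Loss
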