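import Pool.Agent.W_7d29a1_F.Defs

/-!
STORM LB (MP_7d29a1_pr, row 671 of the table `proofs`, helper77), section 1 and the deterministic part of section 2: the competition
seam of the starts `(0, 0)` and `(0, x)` at the level `b`, the retained mass, and the insertion of a strip along the seam.
Unnormalised kernels `K R η z i y` of the paths from `(0, z)` to `(i, y)` in `R` (weights at the sites after the first).
-/

set_option autoImplicit false

namespace Pool.Agent.W_7d29a1_LB

open Pool.Agent.W_7d29a1_F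

noncomputable section

/-- The kernel of the paths from `(0, z)` to `(i, y)` in the region `R`. -/
def K (R : Set Pt) (η : Env) (z : ℤ) (i : ℕ) (y : ℤ) : ℝ := Zr R η (0, z) i (y - z)

theorem K_zero (R : Set Pt) (η : Env) (z y : ℤ) : K R η z 0 y = if y = z then 1 else 0 := by
  unfold K
  show (if y - z = 0 then (1 : ℝ) else 0) = _
  by_cases h : y = z
  · rw [if_pos h, if_pos (by omega)]
  · rw [if_neg h, if_neg (by omega)]

theorem K_succ (R : Set Pt) (η : Env) (z : ℤ) (i : ℕ) (y : ℤ) :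
    K R η z (i + 1) y = R.indicator (fun p => Real.exp (η p)) ((i : ℤ) + 1, y) * (K R η z i y + K R η z i (y - 1)) := by
  unfold K
  show R.indicator (fun p => Real.exp (η p)) ((0 : ℤ) + ((i : ℤ) + 1), z + (y - z)) *
    (Zr R η (0, z) i (y - z) + Zr R η (0, z) i (y - z - 1)) = _
  rw [zero_add, add_sub_cancel, show y - 1 - z = y - z - 1 by ring]

theorem K_nonneg (R : Set Pt) (η : Env) (z : ℤ) : ∀ (i : ℕ) (y : ℤ), 0 ≤ K R η z i y
  | 0, y => by rw [K_zero]; split_ifs <;> norm_num
  | i + 1, y => by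
    rw [K_succ]
    exact mul_nonneg (Set.indicator_nonneg (fun _ _ => (Real.exp_pos _).le) _)
      (add_nonneg (K_nonneg R η z i y) (K_nonneg R η z i (y - 1)))

theorem K_univ_succ (η : Env) (z : ℤ) (i : ℕ) (y : ℤ) :
    K Set.univ η z (i + 1) y = Real.exp (η ((i : ℤ) + 1, y)) * (K Set.univ η z i y + K Set.univ η z i (y - 1)) := by
  rw [K_succ, Set.indicator_univ]

/-- The kernels grow with the region. -/
theorem K_mono {R R' : Set Pt} (h : R ⊆ R') (η : Env) (z : ℤ) : ∀ (i : ℕ) (y : ℤ), K R η z i y ≤ K R' η z i y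
  | 0, y => by rw [K_zero, K_zero]
  | i + 1, y => by
    rw [K_succ, K_succ]
    exact mul_le_mul (Set.indicator_le_indicator_of_subset h (fun _ => (Real.exp_pos _).le) _)
      (add_le_add (K_mono h η z i y) (K_mono h η z i (y - 1)))
      (add_nonneg (K_nonneg _ _ _ _ _) (K_nonneg _ _ _ _ _)) (Set.indicator_nonneg (fun _ _ => (Real.exp_pos _).le) _)

/-- The kernels see the rows `1, …, i`. -/
theorem K_congr {R : Set Pt} {η η' : Env} (z : ℤ) : ∀ (i : ℕ) (y : ℤ),
    (∀ p : Pt, 1 ≤ p.1 → p.1 ≤ i → η p = η' p) → K R η z i y = K R η' z i y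
  | 0, y, _ => by rw [K_zero, K_zero]
  | i + 1, y, h => by
    have h1 : ∀ p : Pt, 1 ≤ p.1 → p.1 ≤ i → η p = η' p := fun p h2 h3 => h p h2 (by push_cast; omega)
    rw [K_succ, K_succ, K_congr z i y h1, K_congr z i (y - 1) h1]
    congr 1
    have h2 : η ((i : ℤ) + 1, y) = η' ((i : ℤ) + 1, y) := h _ (by show (1 : ℤ) ≤ (i : ℤ) + 1; omega) (by
      show ((i : ℤ) + 1) ≤ ((i + 1 : ℕ) : ℤ); push_cast; omega)
    by_cases h3 : (((i : ℤ) + 1, y) : Pt) ∈ R
    · rw [Set.indicator_of_mem h3, Set.indicator_of_mem h3, h2]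
    · rw [Set.indicator_of_notMem h3, Set.indicator_of_notMem h3]

/-- **The competition seam** of the starts `(0, 0)` and `(0, x)` at the level `b`. -/
def seam (η : Env) (b : ℝ) (x : ℤ) : ℕ → ℤ
  | 0 => x
  | i + 1 => if K Set.univ η x i (seam η b x i) + K Set.univ η x i (seam η b x i - 1) <
      Real.exp b * (K Set.univ η 0 i (seam η b x i) + K Set.univ η 0 i (seam η b x i - 1))
      then seam η b x i + 1 else seam η b x i

theorem seam_zero (η : Env) (b : ℝ) (x : ℤ) : seam η b x 0 = x := rfl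

theorem seam_succ (η : Env) (b : ℝ) (x : ℤ) (i : ℕ) : seam η b x (i + 1) =
    if K Set.univ η x i (seam η b x i) + K Set.univ η x i (seam η b x i - 1) <
      Real.exp b * (K Set.univ η 0 i (seam η b x i) + K Set.univ η 0 i (seam η b x i - 1))
      then seam η b x i + 1 else seam η b x i := rfl

/-- The steps of the seam are `0` or `1`. -/
theorem seam_step (η : Env) (b : ℝ) (x : ℤ) (i : ℕ) :
    seam η b x i ≤ seam η b x (i + 1) ∧ seam η b x (i + 1) ≤ seam η b x i + 1 := by
  rw [seam_succ]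
  split_ifs <;> omega

theorem le_seam (η : Env) (b : ℝ) (x : ℤ) : ∀ i : ℕ, x ≤ seam η b x i
  | 0 => le_rfl
  | i + 1 => (le_seam η b x i).trans (seam_step η b x i).1

/-- **The seam is predictable**: `seam i` sees the rows `1, …, i - 1`. -/
theorem seam_congr {η η' : Env} (b : ℝ) (x : ℤ) : ∀ i : ℕ,
    (∀ p : Pt, 1 ≤ p.1 → p.1 < i → η p = η' p) → seam η b x i = seam η' b x i
  | 0, _ => rfl
  | i + 1, h => by
    have h1 : seam η b x i = seam η' b x i := seam_congr b x i fun p h2 h3 => h p h2 (by push_cast; omega)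
    have h2 : ∀ p : Pt, 1 ≤ p.1 → p.1 ≤ i → η p = η' p := fun p h3 h4 => h p h3 (by push_cast; omega)
    rw [seam_succ, seam_succ, h1, K_congr x i _ h2, K_congr x i _ h2, K_congr 0 i _ h2, K_congr 0 i _ h2]

/-- **The invariants of the seam**: on its left the start `0` (with the weight `exp b`) wins, on its right the start `x`. -/
theorem seam_inv (η : Env) (b : ℝ) {x : ℤ} (hx : 1 ≤ x) : ∀ i : ℕ,
    (∀ y, y < seam η b x i → K Set.univ η x i y ≤ Real.exp b * K Set.univ η 0 i y) ∧
    (∀ y, seam η b x i ≤ y → Real.exp b * K Set.univ η 0 i y ≤ K Set.univ η x i y)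
  | 0 => by
    refine ⟨fun y hy => ?_, fun y hy => ?_⟩
    · rw [seam_zero] at hy
      rw [K_zero, if_neg (by omega)]
      exact mul_nonneg (Real.exp_pos b).le (K_nonneg _ _ _ _ _)
    · rw [seam_zero] at hy
      rw [K_zero, if_neg (by omega), mul_zero]
      exact K_nonneg _ _ _ _ _
  | i + 1 => by
    obtain ⟨hL, hR⟩ := seam_inv η b hx i
    have hs := seam_succ η b x i
    have key : ∀ y : ℤ, Real.exp b * K Set.univ η 0 (i + 1) y = Real.exp (η ((i : ℤ) + 1, y)) *
        (Real.exp b * (K Set.univ η 0 i y + K Set.univ η 0 i (y - 1))) := fun y => by rw [K_univ_succ]; ring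
    refine ⟨fun y hy => ?_, fun y hy => ?_⟩
    · rw [key, K_univ_succ]
      refine mul_le_mul_of_nonneg_left ?_ (Real.exp_pos _).le
      by_cases h : y < seam η b x i
      · have h1 := hL y h
        have h2 := hL (y - 1) (by omega)
        linarith
      · rw [hs] at hy
        split_ifs at hy with h1
        · have h2 : y = seam η b x i := by omega
          rw [h2]
          exact h1.le
        · exact absurd hy h
    · rw [key, K_univ_succ]
      refine mul_le_mul_of_nonneg_left ?_ (Real.exp_pos _).le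
      by_cases h : seam η b x i + 1 ≤ y
      · have h1 := hR y (by omega)
        have h2 := hR (y - 1) (by omega)
        linarith
      · rw [hs] at hy
        split_ifs at hy with h1
        · exact absurd hy h
        · have h2 : y = seam η b x i := by omega
          rw [h2]
          exact not_lt.1 h1

/-- The sites on the left of the curve `q`. -/
def Lt (q : ℕ → ℤ) : Set Pt := {p | p.2 < q p.1.toNat}

/-- The sites on the right of the curve `q`. -/
def Rg (q : ℕ → ℤ) : Set Pt := {p | q p.1.toNat ≤ p.2}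

/-- The strip of the width `w` on the right of the curve `q`. -/
def Sp (q : ℕ → ℤ) (w : ℕ) : Set Pt := {p | q p.1.toNat ≤ p.2 ∧ p.2 < q p.1.toNat + w}

theorem toNat_succ (i : ℕ) : ((i : ℤ) + 1).toNat = i + 1 := by omega

theorem mem_Lt {q : ℕ → ℤ} {i : ℕ} {y : ℤ} : (((i : ℤ) + 1, y) : Pt) ∈ Lt q ↔ y < q (i + 1) := by
  show y < q ((i : ℤ) + 1).toNat ↔ _
  rw [toNat_succ]

theorem mem_Rg {q : ℕ → ℤ} {i : ℕ} {y : ℤ} : (((i : ℤ) + 1, y) : Pt) ∈ Rg q ↔ q (i + 1) ≤ y := by
  show q ((i : ℤ) + 1).toNat ≤ y ↔ _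
  rw [toNat_succ]

theorem mem_Sp {q : ℕ → ℤ} {w i : ℕ} {y : ℤ} : (((i : ℤ) + 1, y) : Pt) ∈ Sp q w ↔ q (i + 1) ≤ y ∧ y < q (i + 1) + w := by
  show (q ((i : ℤ) + 1).toNat ≤ y ∧ y < q ((i : ℤ) + 1).toNat + w) ↔ _
  rw [toNat_succ]

/-- The mass on the left of the curve sits on the left of the curve. -/
theorem K_Lt_eq_zero {q : ℕ → ℤ} (h0 : 1 ≤ q 0) (η : Env) : ∀ (i : ℕ) (y : ℤ), q i ≤ y → K (Lt q) η 0 i y = 0
  | 0, y, h => by rw [K_zero, if_neg (by omega)]
  | i + 1, y, h => by
    rw [K_succ, Set.indicator_of_notMem (fun h1 => by rw [mem_Lt] at h1; omega), zero_mul]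

/-- The mass on the right of the curve sits on the right of the curve. -/
theorem K_Rg_eq_zero (q : ℕ → ℤ) (η : Env) : ∀ (i : ℕ) (y : ℤ), y < q i → K (Rg q) η (q 0) i y = 0
  | 0, y, h => by rw [K_zero, if_neg (by omega)]
  | i + 1, y, h => by
    rw [K_succ, Set.indicator_of_notMem (fun h1 => by rw [mem_Rg] at h1; omega), zero_mul]

/-- **(1.1), left**: the paths from `0` which leave the left side are dominated by the paths from `x`. -/
theorem retL (η : Env) (b : ℝ) {x : ℤ} (hx : 1 ≤ x) : ∀ (i : ℕ) (y : ℤ),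
    K Set.univ η 0 i y ≤ K (Lt (seam η b x)) η 0 i y + Real.exp (-b) * K Set.univ η x i y
  | 0, y => by
    rw [K_zero, K_zero]
    have := mul_nonneg (Real.exp_pos (-b)).le (K_nonneg Set.univ η x 0 y)
    linarith
  | i + 1, y => by
    by_cases h : y < seam η b x (i + 1)
    · rw [K_univ_succ, K_univ_succ, K_succ, Set.indicator_of_mem (mem_Lt.2 h)]
      have h1 := retL η b hx i y
      have h2 := retL η b hx i (y - 1)
      have h3 : K Set.univ η 0 i y + K Set.univ η 0 i (y - 1) ≤
          (K (Lt (seam η b x)) η 0 i y + K (Lt (seam η b x)) η 0 i (y - 1)) +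
            Real.exp (-b) * (K Set.univ η x i y + K Set.univ η x i (y - 1)) := by linarith
      have h4 := mul_le_mul_of_nonneg_left h3 (Real.exp_pos (η ((i : ℤ) + 1, y))).le
      calc _ ≤ _ := h4
        _ = _ := by ring
    · have h1 := (seam_inv η b hx (i + 1)).2 y (not_lt.1 h)
      have h2 := mul_le_mul_of_nonneg_left h1 (Real.exp_pos (-b)).le
      rw [← mul_assoc, ← Real.exp_add, neg_add_cancel, Real.exp_zero, one_mul] at h2
      exact h2.trans (le_add_of_nonneg_left (K_nonneg _ _ _ _ _))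

/-- **(1.1), right**: the paths from `x` which leave the right side are dominated by the paths from `0`. -/
theorem retR (η : Env) (b : ℝ) {x : ℤ} (hx : 1 ≤ x) : ∀ (i : ℕ) (y : ℤ),
    K Set.univ η x i y ≤ K (Rg (seam η b x)) η x i y + Real.exp b * K Set.univ η 0 i y
  | 0, y => by
    rw [K_zero, K_zero]
    have := mul_nonneg (Real.exp_pos b).le (K_nonneg Set.univ η 0 0 y)
    linarith
  | i + 1, y => by
    by_cases h : seam η b x (i + 1) ≤ y
    · rw [K_univ_succ, K_univ_succ, K_succ, Set.indicator_of_mem (mem_Rg.2 h)]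
      have h1 := retR η b hx i y
      have h2 := retR η b hx i (y - 1)
      have h3 : K Set.univ η x i y + K Set.univ η x i (y - 1) ≤
          (K (Rg (seam η b x)) η x i y + K (Rg (seam η b x)) η x i (y - 1)) +
            Real.exp b * (K Set.univ η 0 i y + K Set.univ η 0 i (y - 1)) := by linarith
      have h4 := mul_le_mul_of_nonneg_left h3 (Real.exp_pos (η ((i : ℤ) + 1, y))).le
      calc _ ≤ _ := h4
        _ = _ := by ring
    · exact ((seam_inv η b hx (i + 1)).1 y (not_le.1 h)).trans (le_add_of_nonneg_left (K_nonneg _ _ _ _ _))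

/-! ### The insertion of a strip -/

/-- **The insertion** of the strip `ξ` of the width `w` along the curve `q`. -/
def ins (q : ℕ → ℤ) (w : ℕ) (ω ξ : Env) : Env := fun p =>
  if p.2 < q p.1.toNat then ω p else if p.2 < q p.1.toNat + w then ξ (p.1, p.2 - q p.1.toNat) else ω (p.1, p.2 - w)

theorem ins_left {q : ℕ → ℤ} {w : ℕ} {ω ξ : Env} {p : Pt} (h : p.2 < q p.1.toNat) : ins q w ω ξ p = ω p := by
  unfold ins
  rw [if_pos h]

theorem ins_strip {q : ℕ → ℤ} {w : ℕ} {ω ξ : Env} {p : Pt} (h : q p.1.toNat ≤ p.2) (h' : p.2 < q p.1.toNat + w) :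
    ins q w ω ξ p = ξ (p.1, p.2 - q p.1.toNat) := by
  unfold ins
  rw [if_neg (not_lt.2 h), if_pos h']

theorem ins_right {q : ℕ → ℤ} {w : ℕ} {ω ξ : Env} {p : Pt} (h : q p.1.toNat + w ≤ p.2) :
    ins q w ω ξ p = ω (p.1, p.2 - w) := by
  unfold ins
  rw [if_neg (by omega), if_neg (not_lt.2 h)]

/-- The paths of the new environment from `0` which avoid the strip are the paths of the old one on the left of the curve. -/
theorem K_avoid_left {q : ℕ → ℤ} (h0 : 1 ≤ q 0) (hq : ∀ i, q i ≤ q (i + 1)) {w : ℕ} (hw : 1 ≤ w) (ω ξ : Env) :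
    ∀ (i : ℕ) (y : ℤ), K (Sp q w)ᶜ (ins q w ω ξ) 0 i y = K (Lt q) ω 0 i y
  | 0, y => by rw [K_zero, K_zero]
  | i + 1, y => by
    rw [K_succ, K_succ, K_avoid_left h0 hq hw ω ξ i y, K_avoid_left h0 hq hw ω ξ i (y - 1)]
    rcases lt_or_ge y (q (i + 1)) with h | h
    · rw [Set.indicator_of_mem (mem_Lt.2 h), Set.indicator_of_mem (fun h1 => by rw [mem_Sp] at h1; omega)]
      show Real.exp (ins q w ω ξ ((i : ℤ) + 1, y)) * _ = Real.exp (ω ((i : ℤ) + 1, y)) * _
      rw [ins_left (by show y < q ((i : ℤ) + 1).toNat; rw [toNat_succ]; exact h)]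
    · have h1 : K (Lt q) ω 0 i y = 0 := K_Lt_eq_zero h0 ω i y ((hq i).trans h)
      rcases lt_or_ge y (q (i + 1) + w) with h2 | h2
      · rw [Set.indicator_of_notMem (Set.notMem_compl_iff.2 (mem_Sp.2 ⟨h, h2⟩)),
          Set.indicator_of_notMem (fun h3 => by rw [mem_Lt] at h3; omega), zero_mul]
      · have h3 : K (Lt q) ω 0 i (y - 1) = 0 := K_Lt_eq_zero h0 ω i (y - 1) (by have := hq i; omega)
        rw [h1, h3, add_zero, mul_zero, mul_zero]

/-- The paths of the new environment from `x + w` which avoid the strip are the paths of the old one on the right of the curve. -/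
theorem K_avoid_right {q : ℕ → ℤ} (hq : ∀ i, q (i + 1) ≤ q i + 1) {w : ℕ} (hw : 1 ≤ w) (ω ξ : Env) :
    ∀ (i : ℕ) (y : ℤ), K (Sp q w)ᶜ (ins q w ω ξ) (q 0 + w) i y = K (Rg q) ω (q 0) i (y - w)
  | 0, y => by
    rw [K_zero, K_zero]
    by_cases h : y = q 0 + w
    · rw [if_pos h, if_pos (by omega)]
    · rw [if_neg h, if_neg (by omega)]
  | i + 1, y => by
    rw [K_succ, K_succ, K_avoid_right hq hw ω ξ i y, K_avoid_right hq hw ω ξ i (y - 1),
      show y - 1 - (w : ℤ) = y - w - 1 by ring]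
    rcases lt_or_ge y (q (i + 1)) with h | h
    · have h1 : K (Rg q) ω (q 0) i (y - w) = 0 := K_Rg_eq_zero q ω i _ (by have := hq i; omega)
      have h2 : K (Rg q) ω (q 0) i (y - w - 1) = 0 := K_Rg_eq_zero q ω i _ (by have := hq i; omega)
      rw [h1, h2, add_zero, mul_zero, mul_zero]
    · rcases lt_or_ge y (q (i + 1) + w) with h2 | h2
      · rw [Set.indicator_of_notMem (Set.notMem_compl_iff.2 (mem_Sp.2 ⟨h, h2⟩)),
          Set.indicator_of_notMem (fun h3 => by rw [mem_Rg] at h3; omega), zero_mul]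
      · rw [Set.indicator_of_mem (fun h1 => by rw [mem_Sp] at h1; omega),
          Set.indicator_of_mem (mem_Rg.2 (by omega))]
        show Real.exp (ins q w ω ξ ((i : ℤ) + 1, y)) * _ = Real.exp (ω ((i : ℤ) + 1, y - w)) * _
        rw [ins_right (by show q ((i : ℤ) + 1).toNat + w ≤ y; rw [toNat_succ]; exact h2)]

end

end Pool.Agent.W_7d29a1_LB
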