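import Pool.Agent.W_7d29a1_LB.SeamW
import Pool.Agent.W_7d29a1_HZ.Act

/-!
STORM LB (MP_7d29a1_pr, row 671, helper77), section 6.4, the deterministic part: a path which stays on one side of the seam and is
regular exists as soon as the level is not exceptional, and it forces the increments of the seam. Exceptional levels: the set of the
pairs (level, environment) is measurable and its sections are small. (helper30)
-/

set_option autoImplicit false

namespace Pool.Agent.W_7d29a1_LB

open MeasureTheory ProbabilityTheory Filter Topology Finset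
open Pool.Agent.W_7d29a1_F Pool.Agent.W_7d29a1_X
open Pool.Agent.W_7d29a1_HZ (gp P1 gp_nonneg P1_eq measurable_gp)
open scoped ENNReal

noncomputable section

variable {μ : Measure ℝ} {s : ℝ}

/-! ### The paths of a region -/

/-- The path `S` of the length `n` stays in the region `R`. -/
def Stay (R : Set Pt) (n : ℕ) (S : Finset ℕ) : Prop := ∀ i < n, (((i : ℤ) + 1, pos S (i + 1)) : Pt) ∈ R

private theorem stay_succ30 (R : Set Pt) (n : ℕ) (S : Finset ℕ) :
    Stay R (n + 1) S ↔ Stay R n S ∧ (((n : ℤ) + 1, pos S (n + 1)) : Pt) ∈ R := by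
  constructor
  · intro h
    exact ⟨fun i hi => h i (by omega), h n (by omega)⟩
  · rintro ⟨h1, h2⟩ i hi
    rcases Nat.lt_succ_iff_lt_or_eq.1 hi with h | h
    · exact h1 i h
    · rw [h]
      exact h2

private theorem stay_insert30 (R : Set Pt) {n : ℕ} (S : Finset ℕ) : Stay R n (insert n S) ↔ Stay R n S := by
  unfold Stay
  refine forall₂_congr fun i hi => ?_
  rw [pos_insert (by omega)]

open Classical in
/-- The kernels as sums over paths. -/
theorem Zr_paths30 (R : Set Pt) (η : Env) : ∀ (n : ℕ) (y : ℤ), Zr R η 0 n y =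
    ∑ S ∈ (range n).powerset, if pos S n = y ∧ Stay R n S then ∏ i ∈ range n, Real.exp (η ((i : ℤ) + 1, pos S (i + 1))) else 0
  | 0, y => by
    rw [Zr_zero89, range_zero, powerset_empty, sum_singleton]
    by_cases h : y = 0
    · rw [if_pos h, if_pos ⟨by rw [pos_zero]; exact h.symm, fun i hi => absurd hi (Nat.not_lt_zero i)⟩, prod_empty]
    · rw [if_neg h, if_neg]
      rintro ⟨h1, _⟩
      rw [pos_zero] at h1
      exact h h1.symm
  | n + 1, y => by
    have e0 : (((0 : Pt).1 + ((n : ℤ) + 1), (0 : Pt).2 + y) : Pt) = ((n : ℤ) + 1, y) := by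
      show (((0 : ℤ) + ((n : ℤ) + 1), (0 : ℤ) + y) : Pt) = _
      rw [zero_add, zero_add]
    rw [Zr_succ89, Zr_paths30 R η n y, Zr_paths30 R η n (y - 1), range_add_one, sum_powerset_insert (by simp), mul_add, mul_sum,
      mul_sum, e0]
    congr 1
    · refine sum_congr rfl fun S hS => ?_
      rw [mem_powerset] at hS
      have h1 : pos S (n + 1) = pos S n := pos_succ_of hS
      rw [stay_succ30, h1, prod_insert (by simp), h1]
      by_cases h2 : pos S n = y
      · subst h2
        by_cases h3 : (((n : ℤ) + 1, pos S n) : Pt) ∈ R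
        · rw [Set.indicator_of_mem h3]
          by_cases h4 : Stay R n S
          · rw [if_pos ⟨rfl, h4⟩, if_pos ⟨rfl, h4, h3⟩]
          · rw [if_neg (fun h => h4 h.2), if_neg (fun h => h4 h.2.1), mul_zero]
        · rw [Set.indicator_of_notMem h3, zero_mul, if_neg (fun h => h3 h.2.2)]
      · rw [if_neg (fun h => h2 h.1), if_neg (fun h => h2 h.1), mul_zero]
    · refine sum_congr rfl fun S hS => ?_
      rw [mem_powerset] at hS
      have h1 : pos (insert n S) (n + 1) = pos S n + 1 := pos_insert_succ hS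
      have h5 : ∏ i ∈ range n, Real.exp (η ((i : ℤ) + 1, pos (insert n S) (i + 1))) =
          ∏ i ∈ range n, Real.exp (η ((i : ℤ) + 1, pos S (i + 1))) := by
        refine prod_congr rfl fun i hi => ?_
        rw [mem_range] at hi
        rw [pos_insert (by omega)]
      rw [stay_succ30, stay_insert30, h1, prod_insert (by simp), h1, h5]
      by_cases h2 : pos S n = y - 1
      · have h6 : pos S n + 1 = y := by omega
        rw [h6]
        by_cases h3 : (((n : ℤ) + 1, y) : Pt) ∈ R
        · rw [Set.indicator_of_mem h3]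
          by_cases h4 : Stay R n S
          · rw [if_pos ⟨h2, h4⟩, if_pos ⟨rfl, h4, h3⟩]
          · rw [if_neg (fun h => h4 h.2), if_neg (fun h => h4 h.2.1), mul_zero]
        · rw [Set.indicator_of_notMem h3, zero_mul, if_neg (fun h => h3 h.2.2)]
      · rw [if_neg (fun h => h2 h.1), if_neg (fun h => h2 (by omega)), mul_zero]

open Classical in
/-- The normalised kernels as sums over paths. -/
theorem WR_paths30 (R : Set Pt) (η : Env) (n : ℕ) (y : ℤ) : WR μ s R η 0 n y =
    ∑ S ∈ (range n).powerset, if pos S n = y ∧ Stay R n S then pth μ s η n S else 0 := by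
  unfold WR
  rw [Zr_paths30, mul_sum]
  refine sum_congr rfl fun S _ => ?_
  split_ifs with h
  · unfold pth
    rw [h.1]
  · rw [mul_zero]

open Classical in
/-- The quenched probability of the paths with the property `A`, from `(0, 0)` to `(N, y)`. -/
def Qn (μ : Measure ℝ) (s : ℝ) (A : Finset ℕ → Prop) (η : Env) (N : ℕ) (y : ℤ) : ℝ :=
  ∑ S ∈ (range N).powerset, if A S then gp μ s η N y S else 0

/-- A region with more mass than the bad paths contains a good path. -/
theorem exists_path30 {R : Set Pt} {η : Env} {N : ℕ} {y : ℤ} (h0 : 0 ≤ y) (h1 : y ≤ N) {A : Finset ℕ → Prop} {m : ℝ}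
    (hm : m * W μ s η 0 N y ≤ WR μ s R η 0 N y) (hQ : Qn μ s A η N y < m) :
    ∃ S, S ∈ (range N).powerset ∧ pos S N = y ∧ Stay R N S ∧ ¬ A S := by
  classical
  by_contra hne
  push Not at hne
  have hW : 0 < W μ s η 0 N y := W_pos _ _ h0 h1
  have h2 : WR μ s R η 0 N y ≤ Qn μ s A η N y * W μ s η 0 N y := by
    rw [WR_paths30]
    unfold Qn
    rw [sum_mul]
    refine sum_le_sum fun S hS => ?_
    by_cases h3 : pos S N = y ∧ Stay R N S
    · have h4 : A S := hne S hS h3.1 h3.2
      rw [if_pos h3, if_pos h4]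
      unfold gp
      rw [if_pos h3.1, div_mul_cancel₀ _ hW.ne']
    · rw [if_neg h3]
      refine mul_nonneg ?_ hW.le
      split_ifs
      · exact gp_nonneg _ _ _ _
      · exact le_rfl
  have h5 := mul_lt_mul_of_pos_right hQ hW
  linarith

theorem Qn_nonneg (A : Finset ℕ → Prop) (η : Env) (N : ℕ) (y : ℤ) : 0 ≤ Qn μ s A η N y := by
  classical
  unfold Qn
  refine sum_nonneg fun S _ => ?_
  split_ifs
  · exact gp_nonneg _ _ _ _
  · exact le_rfl

theorem measurable_Qn (A : Finset ℕ → Prop) (N : ℕ) (y : ℤ) : Measurable fun η : Env => Qn μ s A η N y := by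
  classical
  unfold Qn
  refine Finset.measurable_sum _ fun S _ => ?_
  by_cases h : A S
  · simp only [if_pos h]
    exact measurable_gp N y S
  · simp only [if_neg h]
    exact measurable_const

/-- The mean of the quenched probability. -/
theorem lintegral_Qn [IsProbabilityMeasure μ] (A : Finset ℕ → Prop) (N : ℕ) (y : ℤ) :
    ∫⁻ η, ENNReal.ofReal (Qn μ s A η N y) ∂law μ = P1 μ s N y (fun _ S => A S) := by
  classical
  rw [P1_eq]
  have e : ∀ η : Env, ENNReal.ofReal (Qn μ s A η N y) =
      ∑ S ∈ (range N).powerset, if A S then ENNReal.ofReal (gp μ s η N y S) else 0 := by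
    intro η
    unfold Qn
    rw [ENNReal.ofReal_sum_of_nonneg]
    · refine sum_congr rfl fun S _ => ?_
      split_ifs
      · rfl
      · exact ENNReal.ofReal_zero
    · intro S _
      split_ifs
      · exact gp_nonneg _ _ _ _
      · exact le_rfl
  simp only [e]
  rw [lintegral_finsetSum]
  · refine sum_congr rfl fun S _ => ?_
    by_cases h : A S
    · simp [h]
    · simp [h]
  · intro S _
    by_cases h : A S
    · simp only [if_pos h]
      exact (measurable_gp N y S).ennreal_ofReal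
    · simp only [if_neg h]
      exact measurable_const

/-- Markov. -/
theorem Qn_markov [IsProbabilityMeasure μ] (A : Finset ℕ → Prop) (N : ℕ) (y : ℤ) {e p : ℝ} (he : 0 < e)
    (hp : P1 μ s N y (fun _ S => A S) ≤ ENNReal.ofReal p) : law μ {η | e ≤ Qn μ s A η N y} ≤ ENNReal.ofReal (p / e) := by
  have h1 : {η : Env | e ≤ Qn μ s A η N y} ⊆ {η | ENNReal.ofReal e ≤ ENNReal.ofReal (Qn μ s A η N y)} :=
    fun η hη => ENNReal.ofReal_le_ofReal hη
  refine (measure_mono h1).trans ((meas_ge_le_lintegral_div (measurable_Qn A N y).ennreal_ofReal.aemeasurable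
    (ENNReal.ofReal_pos.2 he).ne' ENNReal.ofReal_ne_top).trans ?_)
  rw [lintegral_Qn, ENNReal.ofReal_div_of_pos he]
  exact ENNReal.div_le_div_right hp _

/-! ### The retained mass at a level which is not exceptional -/

/-- The level `b` is not exceptional with the margin `m`, for the rows up to `n`. -/
def Marg (η : Env) (b : ℝ) (x : ℤ) (n : ℕ) (m : ℝ) : Prop :=
  ∀ i : ℕ, i ≤ n → ∀ y : ℤ, 0 < K Set.univ η 0 i y → 0 < K Set.univ η x i y →
    m ≤ |Real.log (K Set.univ η x i y) - Real.log (K Set.univ η 0 i y) - b|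

private theorem half_le30 {m : ℝ} (h0 : 0 ≤ m) (h1 : m ≤ 1) : m / 2 ≤ 1 - Real.exp (-m) := by
  have h2 := Real.add_one_le_exp m
  have h3 : Real.exp (-m) * Real.exp m = 1 := by rw [← Real.exp_add, neg_add_cancel, Real.exp_zero]
  have h4 := mul_le_mul_of_nonneg_left h2 (Real.exp_pos (-m)).le
  rw [h3] at h4
  by_contra h5
  push Not at h5
  have h6 : 1 - m / 2 < Real.exp (-m) := by linarith
  have h7 : (1 - m / 2) * (m + 1) < Real.exp (-m) * (m + 1) := mul_lt_mul_of_pos_right h6 (by linarith)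
  nlinarith

theorem retL_m {η : Env} {b : ℝ} {x : ℤ} (hx : 1 ≤ x) {n : ℕ} {m : ℝ} (hm0 : 0 ≤ m) (hm1 : m ≤ 1) (hM : Marg η b x n m)
    {i : ℕ} (hi : i ≤ n) {y : ℤ} (hy : y < seam η b x i) (hK : 0 < K Set.univ η 0 i y) :
    m / 2 * K Set.univ η 0 i y ≤ K (Lt (seam η b x)) η 0 i y := by
  have h1 := retL η b hx i y
  rcases eq_or_lt_of_le (K_nonneg Set.univ η x i y) with h2 | h2
  · rw [← h2, mul_zero, add_zero] at h1
    nlinarith
  · have h3 := (seam_inv η b hx i).1 y hy
    have h4 := hM i hi y hK h2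
    have h5 : Real.log (K Set.univ η x i y) ≤ b + Real.log (K Set.univ η 0 i y) := by
      have h6 := Real.log_le_log h2 h3
      rwa [Real.log_mul (Real.exp_pos b).ne' hK.ne', Real.log_exp] at h6
    rw [abs_of_nonpos (by linarith)] at h4
    have h7 : K Set.univ η x i y ≤ Real.exp (b - m) * K Set.univ η 0 i y := by
      have h8 : Real.log (K Set.univ η x i y) ≤ (b - m) + Real.log (K Set.univ η 0 i y) := by linarith
      have h9 := Real.exp_le_exp.2 h8
      rwa [Real.exp_log h2, Real.exp_add, Real.exp_log hK] at h9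
    have h10 := mul_le_mul_of_nonneg_left h7 (Real.exp_pos (-b)).le
    rw [← mul_assoc, ← Real.exp_add, show -b + (b - m) = -m by ring] at h10
    have h11 := mul_le_mul_of_nonneg_right (half_le30 hm0 hm1) hK.le
    rw [sub_mul, one_mul] at h11
    linarith

theorem retR_m {η : Env} {b : ℝ} {x : ℤ} (hx : 1 ≤ x) {n : ℕ} {m : ℝ} (hm0 : 0 ≤ m) (hm1 : m ≤ 1) (hM : Marg η b x n m)
    {i : ℕ} (hi : i ≤ n) {y : ℤ} (hy : seam η b x i ≤ y) (hK : 0 < K Set.univ η x i y) :
    m / 2 * K Set.univ η x i y ≤ K (Rg (seam η b x)) η x i y := by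
  have h1 := retR η b hx i y
  rcases eq_or_lt_of_le (K_nonneg Set.univ η 0 i y) with h2 | h2
  · rw [← h2, mul_zero, add_zero] at h1
    nlinarith
  · have h3 := (seam_inv η b hx i).2 y hy
    have h4 := hM i hi y h2 hK
    have h5 : b + Real.log (K Set.univ η 0 i y) ≤ Real.log (K Set.univ η x i y) := by
      have h6 := Real.log_le_log (mul_pos (Real.exp_pos b) h2) h3
      rwa [Real.log_mul (Real.exp_pos b).ne' h2.ne', Real.log_exp] at h6
    rw [abs_of_nonneg (by linarith)] at h4
    have h7 : Real.exp b * K Set.univ η 0 i y ≤ Real.exp (-m) * K Set.univ η x i y := by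
      have h8 : b + Real.log (K Set.univ η 0 i y) ≤ -m + Real.log (K Set.univ η x i y) := by linarith
      have h9 := Real.exp_le_exp.2 h8
      rwa [Real.exp_add, Real.exp_add, Real.exp_log h2, Real.exp_log hK] at h9
    have h11 := mul_le_mul_of_nonneg_right (half_le30 hm0 hm1) hK.le
    rw [sub_mul, one_mul] at h11
    linarith

/-! ### The increments of the seam -/

theorem seam_le30 (η : Env) (b : ℝ) (x : ℤ) : ∀ i : ℕ, seam η b x i ≤ x + i
  | 0 => by rw [seam_zero]; push_cast; omega
  | i + 1 => by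
    have h1 := seam_le30 η b x i
    have h2 := (seam_step η b x i).2
    push_cast
    omega

/-- **The increments of the seam (6.4), deterministic form**: `v` the slope, `G` the bound of the increments of the good paths. -/
theorem reg_det30 {η : Env} {b : ℝ} {x : ℤ} (hx : 1 ≤ x) {n : ℕ} {m : ℝ} (hm0 : 0 ≤ m) (hm1 : m ≤ 1) (hM : Marg η b x n m)
    {N : ℕ} (hN : N ≤ n) (h1 : seam η b x N - 1 ≤ N) {v : ℝ} {G : ℕ → ℝ} (hG : 0 ≤ G 0) {A : Finset ℕ → Prop}
    (hA : ∀ S, ¬ A S → ∀ t : ℕ, t < N → |((pos S N - pos S t : ℤ) : ℝ) - v * ((N - t : ℕ) : ℝ)| ≤ G (N - t))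
    (hQL : Qn μ s A η N (seam η b x N - 1) < m / 2)
    (hQR : Qn μ s A (sh ((0 : ℤ), x) η) N (seam η b x N - x) < m / 2) {t : ℕ} (ht : t ≤ N) :
    |((seam η b x N - seam η b x t : ℤ) : ℝ) - v * ((N - t : ℕ) : ℝ)| ≤ G (N - t) := by
  rcases eq_or_lt_of_le ht with h2 | h2
  · rw [h2, Nat.sub_self, sub_self]
    simpa using hG
  have hle := le_seam η b x N
  have hle2 := seam_le30 η b x N
  rw [abs_le]
  constructor
  · -- the path from `x`
    have hK : 0 < K Set.univ η x N (seam η b x N) := Zr_pos η ((0 : ℤ), x) (by omega) (by omega)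
    have h3 := retR_m hx hm0 hm1 hM hN le_rfl hK
    have e1 : WR μ s Set.univ η ((0 : ℤ), x) N (seam η b x N - x) = W μ s (sh ((0 : ℤ), x) η) 0 N (seam η b x N - x) := by
      rw [W_sh, zero_add]
      rfl
    have e2 : WR μ s (Rg (seam η b x)) η ((0 : ℤ), x) N (seam η b x N - x) =
        WR μ s {p | p + ((0 : ℤ), x) ∈ Rg (seam η b x)} (sh ((0 : ℤ), x) η) 0 N (seam η b x N - x) := by
      rw [WR_sh, zero_add]
    have h4 : m / 2 * W μ s (sh ((0 : ℤ), x) η) 0 N (seam η b x N - x) ≤
        WR μ s {p | p + ((0 : ℤ), x) ∈ Rg (seam η b x)} (sh ((0 : ℤ), x) η) 0 N (seam η b x N - x) := by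
      rw [← e1, ← e2]
      unfold WR
      have h5 := mul_le_mul_of_nonneg_left h3 (Real.exp_pos (s * ((seam η b x N - x : ℤ) : ℝ) - N * lam μ s)).le
      unfold K at h5
      calc _ = _ := by ring
        _ ≤ _ := h5
    obtain ⟨S, hS, hSN, hSt, hSA⟩ := exists_path30 (by omega) (by omega) h4 hQR
    have h6 := (abs_le.1 (hA S hSA t h2)).1
    have h7 : seam η b x t ≤ x + pos S t := by
      rcases Nat.eq_zero_or_pos t with h8 | h8
      · rw [h8, seam_zero, pos_zero, add_zero]
      · have h9 := hSt (t - 1) (by omega)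
        have h10 : (((t - 1 : ℕ) : ℤ) + 1, pos S (t - 1 + 1)) + ((0 : ℤ), x) = (((t - 1 : ℕ) : ℤ) + 1, x + pos S t) := by
          rw [Nat.sub_add_cancel h8]
          refine Prod.ext ?_ ?_
          · show ((t - 1 : ℕ) : ℤ) + 1 + 0 = _
            rw [add_zero]
          · show pos S t + x = _
            rw [add_comm]
        have h11 : (((t - 1 : ℕ) : ℤ) + 1, pos S (t - 1 + 1)) + ((0 : ℤ), x) ∈ Rg (seam η b x) := h9
        rw [h10, mem_Rg, Nat.sub_add_cancel h8] at h11
        exact h11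
    rw [hSN] at h6
    have h12 : ((seam η b x N - x - pos S t : ℤ) : ℝ) ≤ ((seam η b x N - seam η b x t : ℤ) : ℝ) := by
      exact_mod_cast (by omega : seam η b x N - x - pos S t ≤ seam η b x N - seam η b x t)
    linarith
  · -- the path from `0`
    have hK : 0 < K Set.univ η 0 N (seam η b x N - 1) := Zr_pos η ((0 : ℤ), (0 : ℤ)) (by omega) (by omega)
    have h3 := retL_m hx hm0 hm1 hM hN (by omega : seam η b x N - 1 < seam η b x N) hK
    have h4 : m / 2 * W μ s η 0 N (seam η b x N - 1) ≤ WR μ s (Lt (seam η b x)) η 0 N (seam η b x N - 1) := by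
      unfold W WR
      have h5 := mul_le_mul_of_nonneg_left h3 (Real.exp_pos (s * ((seam η b x N - 1 : ℤ) : ℝ) - N * lam μ s)).le
      unfold K at h5
      rw [sub_zero] at h5
      calc _ = Real.exp (s * ((seam η b x N - 1 : ℤ) : ℝ) - N * lam μ s) *
            (m / 2 * Zr Set.univ η ((0 : ℤ), (0 : ℤ)) N (seam η b x N - 1)) := by
            rw [show ((0 : ℤ), (0 : ℤ)) = (0 : Pt) from rfl]
            ring
        _ ≤ _ := h5
    obtain ⟨S, hS, hSN, hSt, hSA⟩ := exists_path30 (by omega) h1 h4 hQL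
    have h6 := (abs_le.1 (hA S hSA t h2)).2
    have h7 : pos S t ≤ seam η b x t - 1 := by
      rcases Nat.eq_zero_or_pos t with h8 | h8
      · rw [h8, seam_zero, pos_zero]
        omega
      · have h9 := hSt (t - 1) (by omega)
        rw [mem_Lt, Nat.sub_add_cancel h8] at h9
        omega
    rw [hSN] at h6
    have h12 : ((seam η b x N - seam η b x t : ℤ) : ℝ) ≤ ((seam η b x N - 1 - pos S t : ℤ) : ℝ) := by
      exact_mod_cast (by omega : seam η b x N - seam η b x t ≤ seam η b x N - 1 - pos S t)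
    linarith

/-! ### Exceptional levels -/

private theorem K_zero_of30 {η : Env} {z : ℤ} {i : ℕ} {y : ℤ} (h : ¬ (0 ≤ y - z ∧ y - z ≤ i)) : K Set.univ η z i y = 0 :=
  Zr_eq_zero Set.univ η (0, z) h

/-- The pairs (level, environment) with an exceptional level, the levels of `W μ s`. -/
def Exc (s : ℝ) (x : ℤ) (n : ℕ) (m : ℝ) : Set (ℝ × Env) := {p | ¬ Marg p.2 (p.1 + s * x) x n m}

private theorem Exc_eq30 (s : ℝ) (x : ℤ) (n : ℕ) (m : ℝ) : Exc s x n m =
    ⋃ q ∈ range (n + 1) ×ˢ Icc (0 : ℤ) n, {p : ℝ × Env | 0 < K Set.univ p.2 0 q.1 q.2 ∧ 0 < K Set.univ p.2 x q.1 q.2 ∧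
      |Real.log (K Set.univ p.2 x q.1 q.2) - Real.log (K Set.univ p.2 0 q.1 q.2) - (p.1 + s * x)| < m} := by
  ext p
  rw [Set.mem_iUnion₂]
  constructor
  · intro hp
    have hp' : ¬ Marg p.2 (p.1 + s * x) x n m := hp
    unfold Marg at hp'
    push Not at hp'
    obtain ⟨i, hi, y, h1, h2, h3⟩ := hp'
    have h4 : 0 ≤ y - 0 ∧ y - 0 ≤ i := by
      by_contra h5
      rw [K_zero_of30 h5] at h1
      exact lt_irrefl _ h1
    refine ⟨(i, y), ?_, h1, h2, h3⟩
    rw [mem_product, mem_range, mem_Icc]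
    exact ⟨by omega, by omega, by show y ≤ (n : ℤ); omega⟩
  · rintro ⟨q, hq, h1, h2, h3⟩ hM
    rw [mem_product, mem_range] at hq
    exact absurd (hM q.1 (by omega) q.2 h1 h2) (not_le.2 h3)

theorem measurableSet_Exc (s : ℝ) (x : ℤ) (n : ℕ) (m : ℝ) : MeasurableSet (Exc s x n m) := by
  rw [Exc_eq30]
  refine Finset.measurableSet_biUnion _ fun q _ => ?_
  have h0 : Measurable fun p : ℝ × Env => K Set.univ p.2 0 q.1 q.2 := (measurable_K Set.univ 0 q.1 q.2).comp measurable_snd
  have hx : Measurable fun p : ℝ × Env => K Set.univ p.2 x q.1 q.2 := (measurable_K Set.univ x q.1 q.2).comp measurable_snd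
  refine (measurableSet_lt measurable_const h0).inter ((measurableSet_lt measurable_const hx).inter ?_)
  have h1 : Measurable fun p : ℝ × Env =>
      Real.log (K Set.univ p.2 x q.1 q.2) - Real.log (K Set.univ p.2 0 q.1 q.2) - (p.1 + s * x) :=
    (hx.log.sub h0.log).sub (measurable_fst.add measurable_const)
  exact measurableSet_lt (by simpa only [Real.norm_eq_abs] using h1.norm) measurable_const

theorem volume_Exc (s : ℝ) (x : ℤ) (n : ℕ) (m : ℝ) (om : Env) :
    volume {a : ℝ | (a, om) ∈ Exc s x n m} ≤ ENNReal.ofReal (2 * m * ((n : ℝ) + 1) ^ 2) := by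
  have h1 : {a : ℝ | (a, om) ∈ Exc s x n m} ⊆ ⋃ q ∈ range (n + 1) ×ˢ Icc (0 : ℤ) n,
      Metric.ball (Real.log (K Set.univ om x q.1 q.2) - Real.log (K Set.univ om 0 q.1 q.2) - s * x) m := by
    intro a ha
    have ha' : (a, om) ∈ Exc s x n m := ha
    rw [Exc_eq30, Set.mem_iUnion₂] at ha'
    obtain ⟨q, hq, _, _, h2⟩ := ha'
    rw [Set.mem_iUnion₂]
    refine ⟨q, hq, ?_⟩
    rw [Metric.mem_ball, Real.dist_eq, abs_sub_comm]
    have e : Real.log (K Set.univ om x q.1 q.2) - Real.log (K Set.univ om 0 q.1 q.2) - s * x - a =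
        Real.log (K Set.univ om x q.1 q.2) - Real.log (K Set.univ om 0 q.1 q.2) - (a + s * x) := by ring
    rw [e]
    exact h2
  refine (measure_mono h1).trans ((measure_biUnion_finset_le _ _).trans ?_)
  simp only [Real.volume_ball]
  rw [sum_const, nsmul_eq_mul, card_product, card_range, Int.card_Icc]
  have e1 : ((n : ℤ) + 1 - 0).toNat = n + 1 := by omega
  have e2 : ENNReal.ofReal (2 * m * ((n : ℝ) + 1) ^ 2) = (((n + 1) * (n + 1) : ℕ) : ℝ≥0∞) * ENNReal.ofReal (2 * m) := by
    rw [← ENNReal.ofReal_natCast, ← ENNReal.ofReal_mul (Nat.cast_nonneg _)]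
    congr 1
    push_cast
    ring
  rw [e1, e2]

end

end Pool.Agent.W_7d29a1_LB
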