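import Pool.Agent.W_7d29a1_LB.SeamP30
import Pool.Agent.W_7d29a1_HZ.NS

/-!
STORM LB (MP_7d29a1_pr, row 671, helper77), section 6.4 REGULAR: at all the levels which are not exceptional, the increments of the
competition seam backwards from a row `t'` where the seam is not far from the centre (seen from both starts) are of the order of the
width. From the leaf NS (regularity of the point to point paths) by the retained mass at both sides of the seam. (helper30)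
-/

set_option autoImplicit false

namespace Pool.Agent.W_7d29a1_LB

open MeasureTheory ProbabilityTheory Filter Topology Finset
open Pool.Agent.W_7d29a1_F Pool.Agent.W_7d29a1_X Pool.Agent.W_7d29a1_h4g Pool.Agent.W_7d29a1_H
open Pool.Agent.W_7d29a1_HS (In wd)
open Pool.Agent.W_7d29a1_HZ (gp P1 NSp ns wd' wd'_pow)
open scoped ENNReal

variable {μ : Measure ℝ} {s : ℝ} [IsProbabilityMeasure μ] {c C : ℝ} {n₀ : ℕ}

private theorem ev_pow30 {α : ℝ} (hα : 0 < α) (M : ℝ) : ∀ᶠ n : ℕ in atTop, M ≤ (n : ℝ) ^ α :=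
  ((tendsto_rpow_atTop hα).comp tendsto_natCast_atTop_atTop).eventually_ge_atTop M

private theorem num30 {α : ℝ} (hα : 0 < α) : ∀ᶠ n : ℕ in atTop,
    4 * ((n : ℝ) + 1) ^ 2 * (n : ℝ) ^ 4 * Real.exp (-(n : ℝ) ^ (2 * α)) ≤ Real.exp (-(n : ℝ) ^ α) := by
  filter_upwards [ev_pow30 hα (6 / α + 5), eventually_ge_atTop 1] with n hn hn1
  have hnR : (1 : ℝ) ≤ n := by exact_mod_cast hn1
  have hn0 : (0 : ℝ) < n := by linarith
  obtain ⟨u, hu⟩ : ∃ u : ℝ, u = (n : ℝ) ^ α := ⟨_, rfl⟩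
  have hu2 : (n : ℝ) ^ (2 * α) = u ^ 2 := by
    rw [hu, ← Real.rpow_natCast, ← Real.rpow_mul hn0.le]
    congr 1
    push_cast
    ring
  have hlog : Real.log n ≤ u / α := by
    rw [hu]
    exact Real.log_le_rpow_div hn0.le hα
  rw [← hu] at hn ⊢
  rw [hu2]
  have h6 : (0 : ℝ) < 6 / α := by positivity
  have hu1 : 1 ≤ u := by linarith
  have h1 : 4 + 6 * Real.log n + u ≤ u ^ 2 := by
    have h2 : (6 / α + 5) * u ≤ u * u := mul_le_mul_of_nonneg_right hn (by linarith)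
    have h3 : 6 * Real.log n ≤ 6 / α * u := by
      calc 6 * Real.log n ≤ 6 * (u / α) := by linarith
        _ = 6 / α * u := by ring
    nlinarith
  have h16 : (16 : ℝ) ≤ Real.exp 4 := by
    have h2 : (2 : ℝ) ≤ Real.exp 1 := by
      have := Real.add_one_le_exp (1 : ℝ)
      linarith
    have h3 : Real.exp 4 = Real.exp 1 ^ 4 := by
      rw [← Real.exp_nat_mul]
      norm_num
    rw [h3]
    calc (16 : ℝ) = 2 ^ 4 := by norm_num
      _ ≤ Real.exp 1 ^ 4 := pow_le_pow_left₀ (by norm_num) h2 4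
  have h4 : 4 * ((n : ℝ) + 1) ^ 2 * (n : ℝ) ^ 4 ≤ Real.exp (4 + 6 * Real.log n) := by
    have h5 : Real.exp (6 * Real.log n) = (n : ℝ) ^ 6 := by
      have h7 : 6 * Real.log n = ((6 : ℕ) : ℝ) * Real.log n := by norm_num
      rw [h7, Real.exp_nat_mul, Real.exp_log hn0]
    rw [Real.exp_add, h5]
    have h8 : ((n : ℝ) + 1) ^ 2 ≤ (2 * n) ^ 2 := pow_le_pow_left₀ (by linarith) (by linarith) 2
    calc 4 * ((n : ℝ) + 1) ^ 2 * (n : ℝ) ^ 4 ≤ 4 * (2 * n) ^ 2 * (n : ℝ) ^ 4 := by gcongr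
      _ = 16 * (n : ℝ) ^ 6 := by ring
      _ ≤ Real.exp 4 * (n : ℝ) ^ 6 := mul_le_mul_of_nonneg_right h16 (by positivity)
  calc 4 * ((n : ℝ) + 1) ^ 2 * (n : ℝ) ^ 4 * Real.exp (-u ^ 2) ≤ Real.exp (4 + 6 * Real.log n) * Real.exp (-u ^ 2) :=
        mul_le_mul_of_nonneg_right h4 (Real.exp_pos _).le
    _ = Real.exp (4 + 6 * Real.log n - u ^ 2) := by rw [← Real.exp_add]; ring_nf
    _ ≤ Real.exp (-u) := Real.exp_le_exp.2 (by linarith)

/-- **REGULAR (6.4)**: the increments of the seam, backwards from a row where the seam is not far from the centre. The exceptional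
levels (of `W μ s`) are `Exc s x n (n ^ 4)⁻¹`. -/
theorem seam_reg (h : In μ s c C n₀) {ε θ : ℝ} (hε : 0 < ε) (hθ : 0 < θ) :
    ∃ ρ c' : ℝ, 0 < ρ ∧ 0 < c' ∧ ∃ N₀ : ℕ, ∀ n : ℕ, N₀ ≤ n → ∀ x : ℤ, 1 ≤ x →
      MeasurableSet (Exc s x n ((n : ℝ) ^ 4)⁻¹) ∧
      (∀ om : Env, volume {a : ℝ | (a, om) ∈ Exc s x n ((n : ℝ) ^ 4)⁻¹} ≤ ENNReal.ofReal (n : ℝ)⁻¹) ∧
      ∃ B : Set Env, MeasurableSet B ∧ law μ B ≤ ENNReal.ofReal (Real.exp (-(n : ℝ) ^ c')) ∧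
        ∀ om : Env, om ∉ B → ∀ a : ℝ, (a, om) ∉ Exc s x n ((n : ℝ) ^ 4)⁻¹ → ∀ t' : ℕ, (n : ℝ) ^ θ ≤ t' → t' ≤ n →
          |(seam om (a + s * x) x t' : ℝ) - sl μ s * t'| ≤ (n : ℝ) ^ ρ * wd' μ s t' →
          |(seam om (a + s * x) x t' : ℝ) - x - sl μ s * t'| ≤ (n : ℝ) ^ ρ * wd' μ s t' →
          ∀ t : ℕ, t ≤ t' → |(seam om (a + s * x) x t' : ℝ) - seam om (a + s * x) x t - sl μ s * ((t' : ℝ) - t)| ≤
            (n : ℝ) ^ ε * wd' μ s (t' - t) := by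
  obtain ⟨δ, c1, hδ, hc1, L₀, hns⟩ := ns h ε hε
  obtain ⟨a, K, ha0, ha1, hK, hw⟩ := wd'_pow h
  have hsl0 := h.sl_pos
  have hsl1 := h.sl_lt
  have hw1 : ∀ k : ℕ, 1 ≤ wd' μ s k := fun k => le_max_left _ _
  obtain ⟨ρ, hρ⟩ : ∃ ρ : ℝ, ρ = min (θ * δ / 2) (θ * a / 2) := ⟨_, rfl⟩
  have hρ0 : 0 < ρ := by
    rw [hρ]
    exact lt_min (by positivity) (by positivity)
  have hρ1 : ρ ≤ θ * δ / 2 := hρ ▸ min_le_left _ _
  have hρ2 : ρ ≤ θ * a / 2 := hρ ▸ min_le_right _ _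
  refine ⟨ρ, θ * c1 / 2, hρ0, by positivity, ?_⟩
  have hev : ∀ᶠ n : ℕ in atTop, 8 ≤ n ∧ (L₀ : ℝ) ≤ (n : ℝ) ^ θ ∧ 2 ≤ (n : ℝ) ^ (θ * δ / 2) ∧
      K * wd' μ s 1 / (1 - sl μ s) ≤ (n : ℝ) ^ (θ * a / 2) ∧
      4 * ((n : ℝ) + 1) ^ 2 * (n : ℝ) ^ 4 * Real.exp (-(n : ℝ) ^ (2 * (θ * c1 / 2))) ≤ Real.exp (-(n : ℝ) ^ (θ * c1 / 2)) :=
    (eventually_ge_atTop 8).and ((ev_pow30 hθ _).and ((ev_pow30 (by positivity) _).and ((ev_pow30 (by positivity) _).and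
      (num30 (by positivity)))))
  obtain ⟨N₀, hN₀⟩ := eventually_atTop.1 hev
  refine ⟨N₀, fun n hn x hx => ?_⟩
  obtain ⟨hn8, hnL, hn2, hnK, hnum⟩ := hN₀ n hn
  have hn8R : (8 : ℝ) ≤ n := by exact_mod_cast hn8
  have hn0 : (0 : ℝ) < n := by linarith
  have hn1 : (1 : ℝ) ≤ n := by linarith
  obtain ⟨m, hm⟩ : ∃ m : ℝ, m = ((n : ℝ) ^ 4)⁻¹ := ⟨_, rfl⟩
  have hm0 : 0 < m := by
    rw [hm]
    positivity
  have hm1 : m ≤ 1 := by
    rw [hm]
    exact inv_le_one_of_one_le₀ (one_le_pow₀ hn1)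
  rw [← hm]
  refine ⟨measurableSet_Exc _ _ _ _, fun om => (volume_Exc s x n m om).trans (ENNReal.ofReal_le_ofReal ?_), ?_⟩
  · rw [hm, ← div_eq_mul_inv 2, div_mul_eq_mul_div, div_le_iff₀ (by positivity)]
    have h1 : ((n : ℝ) + 1) ^ 2 ≤ (2 * n) ^ 2 := pow_le_pow_left₀ (by linarith) (by linarith) 2
    have h2 : (n : ℝ)⁻¹ * (n : ℝ) ^ 4 = (n : ℝ) * (n : ℝ) ^ 2 := by
      field_simp
    rw [h2]
    have h3 : 8 * (n : ℝ) ^ 2 ≤ (n : ℝ) * (n : ℝ) ^ 2 := mul_le_mul_of_nonneg_right hn8R (by positivity)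
    nlinarith
  -- the bad set
  obtain ⟨A, hA⟩ : ∃ A : ℕ → Finset ℕ → Prop, A = fun N S => ¬ NSp μ s N N ε S := ⟨_, rfl⟩
  classical
  obtain ⟨D, hD⟩ : ∃ D : Finset (ℕ × ℤ), D = (range (n + 1) ×ˢ Icc (0 : ℤ) n).filter fun q =>
      (n : ℝ) ^ θ ≤ q.1 ∧ q.2 ≤ q.1 ∧ |(q.2 : ℝ) - sl μ s * q.1| ≤ (q.1 : ℝ) ^ δ * wd' μ s q.1 := ⟨_, rfl⟩
  have hDm : ∀ q, q ∈ D ↔ (q.1 ≤ n ∧ 0 ≤ q.2 ∧ q.2 ≤ n) ∧ (n : ℝ) ^ θ ≤ q.1 ∧ q.2 ≤ q.1 ∧
      |(q.2 : ℝ) - sl μ s * q.1| ≤ (q.1 : ℝ) ^ δ * wd' μ s q.1 := by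
    intro q
    rw [hD, mem_filter, mem_product, mem_range, mem_Icc, Nat.lt_succ_iff]
  refine ⟨⋃ q ∈ D, ({η : Env | m / 2 ≤ Qn μ s (A q.1) η q.1 q.2} ∪
    (sh ((0 : ℤ), x)) ⁻¹' {η : Env | m / 2 ≤ Qn μ s (A q.1) η q.1 q.2}), ?_, ?_, ?_⟩
  · refine Finset.measurableSet_biUnion _ fun q _ => ?_
    have h1 : MeasurableSet {η : Env | m / 2 ≤ Qn μ s (A q.1) η q.1 q.2} :=
      measurableSet_le measurable_const (measurable_Qn _ _ _)
    exact h1.union ((mp_sh (μ := μ) ((0 : ℤ), x)).measurable h1)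
  · have hq : ∀ q ∈ D, law μ ({η : Env | m / 2 ≤ Qn μ s (A q.1) η q.1 q.2} ∪
        (sh ((0 : ℤ), x)) ⁻¹' {η : Env | m / 2 ≤ Qn μ s (A q.1) η q.1 q.2}) ≤
        ENNReal.ofReal (4 * (n : ℝ) ^ 4 * Real.exp (-(n : ℝ) ^ (2 * (θ * c1 / 2)))) := by
      intro q hqD
      obtain ⟨⟨hq1, hq2, hq3⟩, hq4, hq5, hq6⟩ := (hDm q).1 hqD
      have hL : L₀ ≤ q.1 := by exact_mod_cast hnL.trans hq4
      have h1 := hns q.1 hL q.1 (by omega) le_rfl q.2 hq2 hq5 hq6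
      have h2 : P1 μ s q.1 q.2 (fun _ S => A q.1 S) ≤ ENNReal.ofReal (Real.exp (-(n : ℝ) ^ (2 * (θ * c1 / 2)))) := by
        rw [hA]
        refine h1.trans (ENNReal.ofReal_le_ofReal (Real.exp_le_exp.2 (neg_le_neg ?_)))
        have h3 : (n : ℝ) ^ (2 * (θ * c1 / 2)) = ((n : ℝ) ^ θ) ^ c1 := by
          rw [← Real.rpow_mul hn0.le]
          congr 1
          ring
        rw [h3]
        exact Real.rpow_le_rpow (Real.rpow_nonneg hn0.le _) hq4 hc1.le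
      have h4 := Qn_markov (A q.1) q.1 q.2 (half_pos hm0) h2
      have h5 : law μ ((sh ((0 : ℤ), x)) ⁻¹' {η : Env | m / 2 ≤ Qn μ s (A q.1) η q.1 q.2}) =
          law μ {η : Env | m / 2 ≤ Qn μ s (A q.1) η q.1 q.2} :=
        (mp_sh ((0 : ℤ), x)).measure_preimage (measurableSet_le measurable_const (measurable_Qn _ _ _)).nullMeasurableSet
      refine (measure_union_le _ _).trans ?_
      rw [h5]
      refine (add_le_add h4 h4).trans ?_
      rw [← ENNReal.ofReal_add (by positivity) (by positivity)]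
      refine ENNReal.ofReal_le_ofReal (le_of_eq ?_)
      rw [hm]
      field_simp
      ring
    refine (measure_biUnion_finset_le _ _).trans ((sum_le_sum hq).trans ?_)
    rw [sum_const, nsmul_eq_mul]
    have hcard : D.card ≤ (n + 1) * (n + 1) := by
      rw [hD]
      refine (card_filter_le _ _).trans ?_
      rw [card_product, card_range, Int.card_Icc]
      exact Nat.mul_le_mul_left _ (by omega)
    refine (mul_le_mul_left (Nat.cast_le.2 hcard) _).trans ?_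
    rw [← ENNReal.ofReal_natCast, ← ENNReal.ofReal_mul (Nat.cast_nonneg _)]
    refine ENNReal.ofReal_le_ofReal (le_trans (le_of_eq ?_) hnum)
    push_cast
    ring
  · intro om hom b hb t' ht'θ ht'n hs1 hs2 t ht
    rw [Set.mem_iUnion₂] at hom
    push Not at hom
    have hM : Marg om (b + s * x) x n m := by
      by_contra h1
      exact hb h1
    obtain ⟨q, hq⟩ : ∃ q : ℕ → ℤ, q = seam om (b + s * x) x := ⟨_, rfl⟩
    have hqx : x ≤ q t' := by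
      rw [hq]
      exact le_seam _ _ _ _
    have hqx' : q t' ≤ x + t' := by
      rw [hq]
      exact seam_le30 _ _ _ _
    rw [← hq] at hs1 hs2 ⊢
    have hθ0 : (0 : ℝ) < (n : ℝ) ^ θ := Real.rpow_pos_of_pos hn0 _
    have ht'0 : (0 : ℝ) < t' := hθ0.trans_le ht'θ
    have ht'1 : 1 ≤ t' := by exact_mod_cast ht'0
    have hpρ : (0 : ℝ) < (n : ℝ) ^ ρ := Real.rpow_pos_of_pos hn0 _
    have hpρ1 : (1 : ℝ) ≤ (n : ℝ) ^ ρ := Real.one_le_rpow hn1 hρ0.le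
    -- the two displacements are in the cone of the leaf NS
    have hδ1 : 2 * (n : ℝ) ^ ρ ≤ (t' : ℝ) ^ δ := by
      calc 2 * (n : ℝ) ^ ρ ≤ (n : ℝ) ^ (θ * δ / 2) * (n : ℝ) ^ (θ * δ / 2) :=
            mul_le_mul hn2 (Real.rpow_le_rpow_of_exponent_le hn1 hρ1) hpρ.le (by positivity)
        _ = ((n : ℝ) ^ θ) ^ δ := by
            rw [← Real.rpow_add hn0, ← Real.rpow_mul hn0.le]
            congr 1
            ring
        _ ≤ (t' : ℝ) ^ δ := Real.rpow_le_rpow hθ0.le ht'θ hδ.le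
    have hwp := hw1 t'
    have hqN : q t' ≤ t' := by
      have h1 : (n : ℝ) ^ ρ * wd' μ s t' ≤ (1 - sl μ s) * t' := by
        have h2 := (hw 1 t' le_rfl ht'1).2.2
        rw [Nat.cast_one, div_one] at h2
        have h3 : (n : ℝ) ^ ρ ≤ (t' : ℝ) ^ (a / 2) := by
          calc (n : ℝ) ^ ρ ≤ (n : ℝ) ^ (θ * a / 2) := Real.rpow_le_rpow_of_exponent_le hn1 hρ2
            _ = ((n : ℝ) ^ θ) ^ (a / 2) := by
                rw [← Real.rpow_mul hn0.le]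
                congr 1
                ring
            _ ≤ (t' : ℝ) ^ (a / 2) := Real.rpow_le_rpow hθ0.le ht'θ (by positivity)
        have h4 : K * wd' μ s 1 ≤ (1 - sl μ s) * (t' : ℝ) ^ (a / 2) := by
          have h5 : K * wd' μ s 1 / (1 - sl μ s) ≤ (t' : ℝ) ^ (a / 2) := by
            refine hnK.trans ?_
            calc (n : ℝ) ^ (θ * a / 2) = ((n : ℝ) ^ θ) ^ (a / 2) := by
                  rw [← Real.rpow_mul hn0.le]
                  congr 1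
                  ring
              _ ≤ (t' : ℝ) ^ (a / 2) := Real.rpow_le_rpow hθ0.le ht'θ (by positivity)
          rw [div_le_iff₀ (by linarith)] at h5
          linarith
        have h6 : (t' : ℝ) ^ (a / 2) * (t' : ℝ) ^ (1 - a) * (t' : ℝ) ^ (a / 2) = t' := by
          rw [← Real.rpow_add ht'0, ← Real.rpow_add ht'0]
          have h7 : a / 2 + (1 - a) + a / 2 = 1 := by ring
          rw [h7, Real.rpow_one]
        have hp1 : (0 : ℝ) ≤ (t' : ℝ) ^ (1 - a) := by positivity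
        have hp2 : (0 : ℝ) ≤ (t' : ℝ) ^ (a / 2) := by positivity
        calc (n : ℝ) ^ ρ * wd' μ s t' ≤ (t' : ℝ) ^ (a / 2) * (K * (t' : ℝ) ^ (1 - a) * wd' μ s 1) :=
              mul_le_mul h3 h2 (by linarith) hp2
          _ = (t' : ℝ) ^ (a / 2) * (t' : ℝ) ^ (1 - a) * (K * wd' μ s 1) := by ring
          _ ≤ (t' : ℝ) ^ (a / 2) * (t' : ℝ) ^ (1 - a) * ((1 - sl μ s) * (t' : ℝ) ^ (a / 2)) :=
              mul_le_mul_of_nonneg_left h4 (mul_nonneg hp2 hp1)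
          _ = (1 - sl μ s) * ((t' : ℝ) ^ (a / 2) * (t' : ℝ) ^ (1 - a) * (t' : ℝ) ^ (a / 2)) := by ring
          _ = (1 - sl μ s) * t' := by rw [h6]
      have h8 := (abs_le.1 hs1).2
      have h9 : (q t' : ℝ) ≤ t' := by
        have h10 : (1 - sl μ s) * (t' : ℝ) = t' - sl μ s * t' := by ring
        linarith
      exact_mod_cast h9
    have hDL : (t', q t' - 1) ∈ D := by
      rw [hDm]
      refine ⟨⟨ht'n, by show 0 ≤ q t' - 1; omega, by show q t' - 1 ≤ (n : ℤ); omega⟩, ht'θ, by show q t' - 1 ≤ (t' : ℤ); omega, ?_⟩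
      show |((q t' - 1 : ℤ) : ℝ) - sl μ s * t'| ≤ (t' : ℝ) ^ δ * wd' μ s t'
      have h1 : |((q t' - 1 : ℤ) : ℝ) - sl μ s * t'| ≤ |(q t' : ℝ) - sl μ s * t'| + 1 := by
        push_cast
        calc |(q t' : ℝ) - 1 - sl μ s * t'| = |((q t' : ℝ) - sl μ s * t') + (-1)| := by ring_nf
          _ ≤ |(q t' : ℝ) - sl μ s * t'| + |(-1 : ℝ)| := abs_add_le _ _
          _ = |(q t' : ℝ) - sl μ s * t'| + 1 := by norm_num
      have h2 : (1 : ℝ) ≤ (n : ℝ) ^ ρ * wd' μ s t' := one_le_mul_of_one_le_of_one_le hpρ1 hwp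
      have h3 := mul_le_mul_of_nonneg_right hδ1 (by linarith : (0 : ℝ) ≤ wd' μ s t')
      linarith
    have hDR : (t', q t' - x) ∈ D := by
      rw [hDm]
      refine ⟨⟨ht'n, by show 0 ≤ q t' - x; omega, by show q t' - x ≤ (n : ℤ); omega⟩, ht'θ, by show q t' - x ≤ (t' : ℤ); omega, ?_⟩
      show |((q t' - x : ℤ) : ℝ) - sl μ s * t'| ≤ (t' : ℝ) ^ δ * wd' μ s t'
      push_cast
      have h3 := mul_le_mul_of_nonneg_right hδ1 (by linarith : (0 : ℝ) ≤ wd' μ s t')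
      have h4 : 0 ≤ (n : ℝ) ^ ρ * wd' μ s t' := mul_nonneg hpρ.le (by linarith)
      linarith
    have hQL : Qn μ s (A t') om t' (q t' - 1) < m / 2 := by
      have h1 := hom (t', q t' - 1) hDL
      rw [Set.mem_union] at h1
      push Not at h1
      exact not_le.1 h1.1
    have hQR : Qn μ s (A t') (sh ((0 : ℤ), x) om) t' (q t' - x) < m / 2 := by
      have h1 := hom (t', q t' - x) hDR
      rw [Set.mem_union] at h1
      push Not at h1
      exact not_le.1 h1.2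
    rw [hq] at hQL hQR hqN ⊢
    have hfin := reg_det30 hx hm0.le hm1 hM ht'n (by omega) (v := sl μ s) (G := fun k => (t' : ℝ) ^ ε * wd' μ s k)
      (mul_nonneg (by positivity) (by linarith [hw1 0])) (A := A t') (fun S hS u hu => by
        rw [hA] at hS
        have h1 : NSp μ s t' t' ε S := not_not.1 hS
        have h2 := h1 u (t' - u) (by omega) (by omega)
        rw [Nat.add_sub_cancel' hu.le] at h2
        exact h2) hQL hQR ht
    have e1 : ((t' - t : ℕ) : ℝ) = (t' : ℝ) - t := Nat.cast_sub ht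
    rw [e1] at hfin
    push_cast at hfin
    refine hfin.trans (mul_le_mul_of_nonneg_right (Real.rpow_le_rpow ht'0.le (by exact_mod_cast ht'n) hε.le) (by linarith [hw1 (t' - t)]))

end Pool.Agent.W_7d29a1_LB
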