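import Pool.Agent.W_7d29a1_LB.SeamW
import Pool.Agent.W_7d29a1_LB.Swap82
import Pool.Agent.W_7d29a1_LB.Law
import Pool.Agent.W_7d29a1_HZ.NS

/-!
STORM LB (MP_7d29a1_pr, row 671), Step, the pointwise lower bound of the Gibbs measure of the two starts: on the good environments one
of two paths which meet is good. (helper61)
-/

set_option autoImplicit false

namespace Pool.Agent.W_7d29a1_LB

open MeasureTheory ProbabilityTheory Finset
open Pool.Agent.W_7d29a1_F Pool.Agent.W_7d29a1_X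
open Pool.Agent.W_7d29a1_HZ (NSp)

noncomputable section

variable {μ : Measure ℝ} {s : ℝ}

/-- The mean of `F` (start `0`) and `F'` (start `x`) under the Gibbs measure of the two starts at the level `a`. -/
def GB (μ : Measure ℝ) (s : ℝ) (η : Env) (x : ℤ) (n : ℕ) (a : ℝ) (F F' : Finset ℕ → ℝ) : ℝ :=
  (psi μ s η 0 n * ∑ S ∈ (range n).powerset, GS μ s η n S * F S +
    Real.exp (-a) * psi μ s η x n * ∑ S ∈ (range n).powerset, GS μ s (sh (0, x) η) n S * F' S) / Zt μ s η x n a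

theorem sum_GS_nonneg (η : Env) (n : ℕ) {F : Finset ℕ → ℝ} (hF : ∀ S, 0 ≤ F S) :
    0 ≤ ∑ S ∈ (range n).powerset, GS μ s η n S * F S :=
  sum_nonneg fun S _ => mul_nonneg (GS_nonneg _ _ _) (hF S)

theorem sum_GS_le_one (η : Env) (n : ℕ) {F : Finset ℕ → ℝ} (hF : ∀ S, F S ≤ 1) :
    ∑ S ∈ (range n).powerset, GS μ s η n S * F S ≤ 1 := by
  rw [← GS_sum (μ := μ) (s := s) η n]
  exact sum_le_sum fun S _ => mul_le_of_le_one_right (GS_nonneg _ _ _) (hF S)

theorem GB_nonneg (η : Env) (x : ℤ) (n : ℕ) (a : ℝ) {F F' : Finset ℕ → ℝ} (hF : ∀ S, 0 ≤ F S) (hF' : ∀ S, 0 ≤ F' S) :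
    0 ≤ GB μ s η x n a F F' :=
  div_nonneg (add_nonneg (mul_nonneg (psi_pos _ _ _).le (sum_GS_nonneg _ _ hF))
    (mul_nonneg (mul_pos (Real.exp_pos _) (psi_pos _ _ _)).le (sum_GS_nonneg _ _ hF'))) (Zt_pos _ _ _ _).le

theorem GB_le_one (η : Env) (x : ℤ) (n : ℕ) (a : ℝ) {F F' : Finset ℕ → ℝ} (hF : ∀ S, F S ≤ 1) (hF' : ∀ S, F' S ≤ 1) :
    GB μ s η x n a F F' ≤ 1 := by
  unfold GB
  rw [div_le_one (Zt_pos _ _ _ _)]
  unfold Zt
  exact add_le_add (mul_le_of_le_one_right (psi_pos _ _ _).le (sum_GS_le_one _ _ hF))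
    (mul_le_of_le_one_right (mul_pos (Real.exp_pos _) (psi_pos _ _ _)).le (sum_GS_le_one _ _ hF'))

/-- At the levels close to the difference of the two free energies both starts have a probability at least `1 / 4`. -/
theorem GB_ge (η : Env) (x : ℤ) (n : ℕ) (a : ℝ) {F F' : Finset ℕ → ℝ} (hF : ∀ S, 0 ≤ F S) (hF' : ∀ S, 0 ≤ F' S)
    (ha : |V μ s η (0, x) n - V μ s η (0, 0) n - a| ≤ 1) :
    (1 / 4) * (∑ S ∈ (range n).powerset, GS μ s η n S * F S + ∑ S ∈ (range n).powerset, GS μ s (sh (0, x) η) n S * F' S) ≤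
      GB μ s η x n a F F' := by
  unfold GB
  rw [le_div_iff₀ (Zt_pos _ _ _ _)]
  obtain ⟨α, hα⟩ : ∃ α : ℝ, α = ∑ S ∈ (range n).powerset, GS μ s η n S * F S := ⟨_, rfl⟩
  obtain ⟨β, hβ⟩ : ∃ β : ℝ, β = ∑ S ∈ (range n).powerset, GS μ s (sh (0, x) η) n S * F' S := ⟨_, rfl⟩
  have hα0 : 0 ≤ α := by rw [hα]; exact sum_GS_nonneg _ _ hF
  have hβ0 : 0 ≤ β := by rw [hβ]; exact sum_GS_nonneg _ _ hF'
  rw [← hα, ← hβ]
  obtain ⟨P, hP⟩ : ∃ P : ℝ, P = psi μ s η 0 n := ⟨_, rfl⟩
  obtain ⟨Q, hQ⟩ : ∃ Q : ℝ, Q = Real.exp (-a) * psi μ s η x n := ⟨_, rfl⟩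
  have hP0 : 0 < P := by rw [hP]; exact psi_pos _ _ _
  have hQ0 : 0 < Q := by rw [hQ]; exact mul_pos (Real.exp_pos _) (psi_pos _ _ _)
  have hlP : Real.log P = V μ s η (0, 0) n := by rw [hP]; exact log_psi _ _ _
  have hlQ : Real.log Q = -a + V μ s η (0, x) n := by
    rw [hQ, Real.log_mul (Real.exp_pos _).ne' (psi_pos _ _ _).ne', Real.log_exp, log_psi]
  rw [abs_le] at ha
  have he : Real.exp 1 ≤ 3 := by have := Real.exp_one_lt_d9; linarith
  have h1 : Q ≤ 3 * P := by
    have h2 : Real.log Q ≤ 1 + Real.log P := by rw [hlP, hlQ]; linarith [ha.2]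
    have h3 := Real.exp_le_exp.2 h2
    rw [Real.exp_log hQ0, Real.exp_add, Real.exp_log hP0] at h3
    exact h3.trans (mul_le_mul_of_nonneg_right he hP0.le)
  have h2 : P ≤ 3 * Q := by
    have h2 : Real.log P ≤ 1 + Real.log Q := by rw [hlP, hlQ]; linarith [ha.1]
    have h3 := Real.exp_le_exp.2 h2
    rw [Real.exp_log hP0, Real.exp_add, Real.exp_log hQ0] at h3
    exact h3.trans (mul_le_mul_of_nonneg_right he hQ0.le)
  unfold Zt
  rw [← hP, ← hQ]
  nlinarith [mul_nonneg hα0 (sub_nonneg.2 h1), mul_nonneg hβ0 (sub_nonneg.2 h2)]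

open Classical in
/-- The quenched probability that the increments are not controlled. -/
def r0 (μ : Measure ℝ) (s : ℝ) (n : ℕ) (ε : ℝ) (η : Env) : ℝ :=
  ∑ S ∈ (range n).powerset, GS μ s η n S * (if NSp μ s n n ε S then 0 else 1)

open Classical in
/-- The quenched probability that the two paths do not meet in the rows `0, …, n / 2`. -/
def nm (μ : Measure ℝ) (s : ℝ) (x : ℤ) (n : ℕ) (η : Env) : ℝ :=
  PP μ s x n η fun S S' => if ∀ i ≤ n / 2, pos S i < x + pos S' i then 1 else 0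

/-- The sum of the three small quenched probabilities. -/
def fb (μ : Measure ℝ) (s : ℝ) (x : ℤ) (n : ℕ) (ε : ℝ) (η : Env) : ℝ :=
  nm μ s x n η + r0 μ s n ε η + r0 μ s n ε (sh (0, x) η)

theorem r0_nonneg (n : ℕ) (ε : ℝ) (η : Env) : 0 ≤ r0 μ s n ε η :=
  sum_GS_nonneg η n fun S => by split_ifs <;> norm_num

theorem nm_nonneg (x : ℤ) (n : ℕ) (η : Env) : 0 ≤ nm μ s x n η := by
  rw [← PP_const (μ := μ) (s := s) x n η 0]
  exact PP_mono x n η fun S _ S' _ => by split_ifs <;> norm_num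

theorem fb_nonneg (x : ℤ) (n : ℕ) (ε : ℝ) (η : Env) : 0 ≤ fb μ s x n ε η :=
  add_nonneg (add_nonneg (nm_nonneg _ _ _) (r0_nonneg _ _ _)) (r0_nonneg _ _ _)

theorem measurable_sh (x : ℤ) : Measurable fun η : Env => sh (0, x) η := measurable_pi_lambda _ fun p => measurable_pi_apply _

theorem measurable_r0 (n : ℕ) (ε : ℝ) : Measurable fun η : Env => r0 μ s n ε η :=
  Finset.measurable_fun_sum _ fun S _ => (Pool.Agent.W_7d29a1_HX.XT.measurable_GS n S).mul_const _

theorem measurable_nm (x : ℤ) (n : ℕ) : Measurable fun η : Env => nm μ s x n η := measurable_PP x n _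

theorem measurable_fb (x : ℤ) (n : ℕ) (ε : ℝ) : Measurable fun η : Env => fb μ s x n ε η :=
  ((measurable_nm x n).add (measurable_r0 n ε)).add ((measurable_r0 n ε).comp (measurable_sh x))

theorem r0_le_one (n : ℕ) (ε : ℝ) (η : Env) : r0 μ s n ε η ≤ 1 :=
  sum_GS_le_one η n fun S => by split_ifs <;> norm_num

theorem nm_le_one (x : ℤ) (n : ℕ) (η : Env) : nm μ s x n η ≤ 1 := by
  rw [← PP_const (μ := μ) (s := s) x n η 1]
  exact PP_mono x n η fun S _ S' _ => by split_ifs <;> norm_num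

theorem fb_le (x : ℤ) (n : ℕ) (ε : ℝ) (η : Env) : fb μ s x n ε η ≤ 3 := by
  have h1 := nm_le_one (μ := μ) (s := s) x n η
  have h2 := r0_le_one (μ := μ) (s := s) n ε η
  have h3 := r0_le_one (μ := μ) (s := s) n ε (sh (0, x) η)
  unfold fb
  linarith

open Classical in
/-- Two paths which meet and have controlled increments: one of them is good. -/
theorem pair_ge (η : Env) (x : ℤ) (n : ℕ) (ε : ℝ) (good good' : Finset ℕ → Prop)
    (hdet : ∀ S S' : Finset ℕ, S ⊆ range n → S' ⊆ range n → NSp μ s n n ε S → NSp μ s n n ε S' →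
      (∃ i ≤ n / 2, x + pos S' i ≤ pos S i) → good S ∨ good' S') :
    1 - fb μ s x n ε η ≤ ∑ S ∈ (range n).powerset, GS μ s η n S * (if good S then 1 else 0) +
      ∑ S ∈ (range n).powerset, GS μ s (sh (0, x) η) n S * (if good' S then 1 else 0) := by
  have h1 : PP μ s x n η (fun _ _ => (1 : ℝ)) ≤ PP μ s x n η (fun S S' =>
      ((if ∀ i ≤ n / 2, pos S i < x + pos S' i then (1 : ℝ) else 0) + ((fun S _ => if NSp μ s n n ε S then (0 : ℝ) else 1) S S' +
        (fun _ S' => if NSp μ s n n ε S' then (0 : ℝ) else 1) S S')) +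
        ((fun S _ => if good S then (1 : ℝ) else 0) S S' + (fun _ S' => if good' S' then (1 : ℝ) else 0) S S')) := by
    refine PP_mono x n η fun S hS S' hS' => ?_
    rw [mem_powerset] at hS hS'
    dsimp only
    by_cases h1 : NSp μ s n n ε S
    · by_cases h2 : NSp μ s n n ε S'
      · by_cases h3 : ∀ i ≤ n / 2, pos S i < x + pos S' i
        · rw [if_pos h3]
          have e1 : (0 : ℝ) ≤ (if NSp μ s n n ε S then (0 : ℝ) else 1) := by split_ifs <;> norm_num
          have e2 : (0 : ℝ) ≤ (if NSp μ s n n ε S' then (0 : ℝ) else 1) := by split_ifs <;> norm_num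
          have e3 : (0 : ℝ) ≤ (if good S then (1 : ℝ) else 0) := by split_ifs <;> norm_num
          have e4 : (0 : ℝ) ≤ (if good' S' then (1 : ℝ) else 0) := by split_ifs <;> norm_num
          linarith
        · rw [if_neg h3]
          push Not at h3
          rw [if_pos h1, if_pos h2]
          rcases hdet S S' hS hS' h1 h2 h3 with h4 | h4
          · rw [if_pos h4]
            have e4 : (0 : ℝ) ≤ (if good' S' then (1 : ℝ) else 0) := by split_ifs <;> norm_num
            linarith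
          · rw [if_pos h4]
            have e3 : (0 : ℝ) ≤ (if good S then (1 : ℝ) else 0) := by split_ifs <;> norm_num
            linarith
      · rw [if_neg h2]
        have e0 : (0 : ℝ) ≤ (if ∀ i ≤ n / 2, pos S i < x + pos S' i then (1 : ℝ) else 0) := by split_ifs <;> norm_num
        have e1 : (0 : ℝ) ≤ (if NSp μ s n n ε S then (0 : ℝ) else 1) := by split_ifs <;> norm_num
        have e3 : (0 : ℝ) ≤ (if good S then (1 : ℝ) else 0) := by split_ifs <;> norm_num
        have e4 : (0 : ℝ) ≤ (if good' S' then (1 : ℝ) else 0) := by split_ifs <;> norm_num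
        linarith
    · rw [if_neg h1]
      have e0 : (0 : ℝ) ≤ (if ∀ i ≤ n / 2, pos S i < x + pos S' i then (1 : ℝ) else 0) := by split_ifs <;> norm_num
      have e2 : (0 : ℝ) ≤ (if NSp μ s n n ε S' then (0 : ℝ) else 1) := by split_ifs <;> norm_num
      have e3 : (0 : ℝ) ≤ (if good S then (1 : ℝ) else 0) := by split_ifs <;> norm_num
      have e4 : (0 : ℝ) ≤ (if good' S' then (1 : ℝ) else 0) := by split_ifs <;> norm_num
      linarith
  rw [PP_const, PP_add, PP_add, PP_add, PP_add] at h1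
  rw [PP_left, PP_right, PP_left, PP_right] at h1
  have e1 : nm μ s x n η = PP μ s x n η (fun S S' => if ∀ i ≤ n / 2, pos S i < x + pos S' i then (1 : ℝ) else 0) := rfl
  unfold fb r0
  rw [e1]
  linarith

end

end Pool.Agent.W_7d29a1_LB
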