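import Pool.Agent.W_7d29a1_LB.StepDet
import Pool.Agent.W_7d29a1_LB.StepPw

/-!
STORM LB (MP_7d29a1_pr, row 671), Step: two paths with controlled increments which meet, a regular seam which separates them at the
row `t0`: one of the two paths is regular and reaches the middle line of the strip. (helper61)
-/

set_option autoImplicit false

namespace Pool.Agent.W_7d29a1_LB

open MeasureTheory ProbabilityTheory Finset
open Pool.Agent.W_7d29a1_F Pool.Agent.W_7d29a1_X Pool.Agent.W_7d29a1_H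
open Pool.Agent.W_7d29a1_HZ (NSp wd')

noncomputable section

variable {μ : Measure ℝ} {s : ℝ}

theorem St1_pos (S : Finset ℕ) (z : ℤ) : St1 fun i => z + pos S i := by
  intro i
  have h : pos S i ≤ pos S (i + 1) ∧ pos S (i + 1) ≤ pos S i + 1 := by
    unfold pos
    have e1 : S ∩ range (i + 1) = (S ∩ {i}) ∪ (S ∩ range i) := by
      rw [range_add_one, insert_eq, inter_union_distrib_left]
    have e2 : (S ∩ range i).card ≤ (S ∩ range (i + 1)).card := card_le_card (by rw [e1]; exact subset_union_right)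
    have e3 : (S ∩ range (i + 1)).card ≤ 1 + (S ∩ range i).card := by
      rw [e1]
      refine (card_union_le _ _).trans (Nat.add_le_add_right ?_ _)
      exact (card_le_card inter_subset_right).trans (card_singleton i).le
    constructor
    · exact_mod_cast e2
    · have : ((S ∩ range (i + 1)).card : ℤ) ≤ ((1 + (S ∩ range i).card : ℕ) : ℤ) := by exact_mod_cast e3
      push_cast at this ⊢
      linarith
  exact ⟨by dsimp only; linarith [h.1], by dsimp only; linarith [h.2]⟩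

/-- **The deterministic part of Step.** -/
theorem hdet_of {n w t0 hh K m o : ℕ} {x : ℤ} {q : ℕ → ℤ} {εs R ρX ρq : ℝ} {c2 : ℕ → ℝ} (hs0 : 0 ≤ sl μ s) (hs1 : sl μ s ≤ 1)
    (hx : 1 ≤ x) (hq : St1 q) (hhh : 1 ≤ hh) (ht0n : t0 ≤ n) (hw : w = 2 * ((m + 1) * o))
    (hK1 : n / 2 < t0 + K * hh) (hK2 : t0 + K * hh ≤ n) (hR0 : 0 ≤ R) (hρX0 : 0 ≤ ρX)
    (hsep1 : sl μ s * t0 + 2 * R < q t0) (hsep2 : (q t0 : ℝ) ≤ x + sl μ s * t0 - 2 * R)
    (hR : ∀ i : ℕ, 1 ≤ i → i ≤ t0 → (n : ℝ) ^ εs * wd' μ s i ≤ R)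
    (hρX : ∀ i : ℕ, 1 ≤ i → i ≤ hh → (n : ℝ) ^ εs * wd' μ s i ≤ ρX)
    (hqr : ∀ i j : ℕ, t0 ≤ i → i ≤ j → j ≤ n → j ≤ i + hh → |(q j : ℝ) - sl μ s * j| ≤ c2 j → |(q j : ℝ) - x - sl μ s * j| ≤ c2 j →
      |((q j : ℝ) - q i) - sl μ s * ((j : ℝ) - i)| ≤ ρq)
    (hc : ∀ i j : ℕ, t0 ≤ i → t0 ≤ j → i ≤ j + hh → j ≤ i + hh → j ≤ n → i ≤ n →
      (n : ℝ) ^ εs * wd' μ s i + 2 * x + 2 * w + hh ≤ c2 j)
    (ho : ρX + ρq ≤ o) (S S' : Finset ℕ) (hS : NSp μ s n n εs S) (hS' : NSp μ s n n εs S')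
    (hmeet : ∃ i ≤ n / 2, x + w + pos S' i ≤ pos S i) :
    (DReg (dpt q w (fun i => 0 + pos S i)) t0 hh K o ∧
      ∃ k < K, ∃ j ∈ win t0 hh k, (m : ℤ) * (o : ℤ) ≤ dpt q w (fun i => 0 + pos S i) j) ∨
    (DReg (dpt q w (fun i => (x + w) + pos S' i)) t0 hh K o ∧
      ∃ k < K, ∃ j ∈ win t0 hh k, (m : ℤ) * (o : ℤ) ≤ dpt q w (fun i => (x + w) + pos S' i) j) := by
  have hxR : (1 : ℝ) ≤ x := by exact_mod_cast hx
  have hwR : (0 : ℝ) ≤ w := Nat.cast_nonneg _
  have hhR : (0 : ℝ) ≤ hh := Nat.cast_nonneg _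
  have h4R : 4 * R < x := by linarith
  have nn : ∀ i, 0 ≤ (n : ℝ) ^ εs * wd' μ s i := fun i =>
    mul_nonneg (Real.rpow_nonneg (Nat.cast_nonneg _) _) (zero_le_one.trans (le_max_left _ _))
  -- the increments of a path from the row `0`
  have inc0 : ∀ (A : Finset ℕ), NSp μ s n n εs A → ∀ i : ℕ, i ≤ n → |(pos A i : ℝ) - sl μ s * i| ≤ (n : ℝ) ^ εs * wd' μ s i := by
    intro A hA i hi
    rcases Nat.eq_zero_or_pos i with h1 | h1
    · rw [h1, pos_zero]
      simpa using nn 0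
    · have h2 := hA 0 i h1 (by omega)
      rw [zero_add, pos_zero, sub_zero] at h2
      exact h2
  have inc : ∀ (A : Finset ℕ), NSp μ s n n εs A → ∀ i j : ℕ, i ≤ j → j ≤ n → j ≤ i + hh →
      |((pos A j : ℝ) - pos A i) - sl μ s * ((j : ℝ) - i)| ≤ ρX := by
    intro A hA i j hij hjn hji
    rcases Nat.eq_or_lt_of_le hij with h1 | h1
    · rw [h1]
      simpa using hρX0
    · have h2 := hA i (j - i) (by omega) (by omega)
      rw [show i + (j - i) = j by omega] at h2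
      push_cast [Nat.cast_sub hij] at h2
      exact h2.trans (hρX (j - i) (by omega) (by omega))
  have incR : ∀ (A : Finset ℕ), NSp μ s n n εs A → ∀ i : ℕ, i ≤ t0 → |(pos A i : ℝ) - sl μ s * i| ≤ R := by
    intro A hA i hi
    rcases Nat.eq_zero_or_pos i with h1 | h1
    · rw [h1, pos_zero]
      simpa using hR0
    · exact (inc0 A hA i (hi.trans ht0n)).trans (hR i h1 hi)
  have hX : St1 fun i => 0 + pos S i := St1_pos S 0
  have hX' : St1 fun i => (x + w) + pos S' i := St1_pos S' (x + w)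
  -- separation
  have a1 : 0 + pos S t0 ≤ q t0 := by
    have h1 := (abs_le.1 (incR S hS t0 le_rfl)).2
    have h2 : ((0 + pos S t0 : ℤ) : ℝ) ≤ q t0 := by push_cast; linarith
    exact_mod_cast h2
  have a2 : q t0 + w ≤ (x + w) + pos S' t0 := by
    have h1 := (abs_le.1 (incR S' hS' t0 le_rfl)).1
    have h2 : ((q t0 + w : ℤ) : ℝ) ≤ (((x + w) + pos S' t0 : ℤ) : ℝ) := by push_cast; linarith
    exact_mod_cast h2
  have a3 : ∀ i ≤ t0, 0 + pos S i < (x + w) + pos S' i := by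
    intro i hi
    have h1 := (abs_le.1 (incR S hS i hi)).2
    have h2 := (abs_le.1 (incR S' hS' i hi)).1
    have h3 : ((0 + pos S i : ℤ) : ℝ) < (((x + w) + pos S' i : ℤ) : ℝ) := by push_cast; linarith
    exact_mod_cast h3
  -- regularity
  have b1 : DReg (dpt q w (fun i => 0 + pos S i)) t0 hh K o := by
    refine dreg_of (z := 0) (x := x) (c1 := fun i => (n : ℝ) ^ εs * wd' μ s i) (c2 := c2) (n := n) (ρX := ρX) (ρq := ρq)
      hs0 hs1 hq hK2 (fun i j _ hij hjn hji => ?_) hqr (fun i hi hin => ?_) (fun i j hi hj hij hji hjn hin => ?_)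
      (by exact_mod_cast ho)
    · have := inc S hS i j hij hjn hji
      push_cast
      rw [zero_add, zero_add]
      exact this
    · have := inc0 S hS i hin
      push_cast
      rw [zero_add, sub_zero]
      exact this
    · have h1 := hc i j hi hj hij hji hjn hin
      rw [abs_zero, abs_of_nonneg (by linarith : (0 : ℝ) ≤ (x : ℝ))]
      linarith
  have b2 : DReg (dpt q w (fun i => (x + w) + pos S' i)) t0 hh K o := by
    refine dreg_of (z := x + w) (x := x) (c1 := fun i => (n : ℝ) ^ εs * wd' μ s i) (c2 := c2) (n := n) (ρX := ρX) (ρq := ρq)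
      hs0 hs1 hq hK2 (fun i j _ hij hjn hji => ?_) hqr (fun i hi hin => ?_) (fun i j hi hj hij hji hjn hin => ?_)
      (by exact_mod_cast ho)
    · have := inc S' hS' i j hij hjn hji
      push_cast
      rw [show ((x : ℝ) + w + (pos S' j : ℝ) - (x + w + (pos S' i : ℝ))) = (pos S' j : ℝ) - pos S' i by ring]
      exact this
    · have := inc0 S' hS' i hin
      push_cast
      rw [show ((x : ℝ) + w + (pos S' i : ℝ) - (x + w)) = (pos S' i : ℝ) by ring]
      exact this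
    · have h1 := hc i j hi hj hij hji hjn hin
      rw [abs_of_nonneg (by linarith : (0 : ℝ) ≤ (x : ℝ) + w), abs_of_nonneg (by linarith : (0 : ℝ) ≤ (x : ℝ))]
      linarith
  rcases reach_pair (q := q) (X := fun i => 0 + pos S i) (X' := fun i => (x + w) + pos S' i) hq hX hX' hhh hw hK1 a1 a2 a3
    (by obtain ⟨i, h1, h2⟩ := hmeet; exact ⟨i, h1, by show (x + w) + pos S' i ≤ 0 + pos S i; linarith⟩) with h1 | h1
  · exact Or.inl ⟨b1, h1⟩
  · exact Or.inr ⟨b2, h1⟩

end

end Pool.Agent.W_7d29a1_LB
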