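import Pool.Agent.W_7d29a1_LB.StepNum
import Pool.Agent.W_7d29a1_HZ.PB

/-!
STORM LB (MP_7d29a1_pr, row 671), Step, the numbers: the window and the width of the strip. (helper61)
-/

set_option autoImplicit false

namespace Pool.Agent.W_7d29a1_LB

open MeasureTheory ProbabilityTheory Filter Topology
open Pool.Agent.W_7d29a1_HS (In wd)
open Pool.Agent.W_7d29a1_HZ (wd' EE' wd'_pow EE'_pow)

variable {μ : Measure ℝ} {s : ℝ} [IsProbabilityMeasure μ] {c C : ℝ} {n₀ : ℕ}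

/-- The length of the windows. -/
noncomputable def hN (δ : ℝ) (n : ℕ) : ℕ := ⌊(n : ℝ) ^ δ⌋₊

/-- The mesh of the depths. -/
noncomputable def oN (μ : Measure ℝ) (s : ℝ) (δ ε : ℝ) (n : ℕ) : ℕ := ⌈(n : ℝ) ^ ε * wd' μ s (hN δ n)⌉₊

/-- The width of the strip. -/
noncomputable def wN (μ : Measure ℝ) (s : ℝ) (δ ε : ℝ) (m n : ℕ) : ℕ := 2 * ((m + 1) * oN μ s δ ε n)

theorem wd'_one_le (n : ℕ) : 1 ≤ wd' μ s n := le_max_left _ _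

theorem EE'_one_le (n : ℕ) : 1 ≤ EE' μ s n := le_max_left _ _

theorem oN_ge (δ ε : ℝ) (n : ℕ) : (n : ℝ) ^ ε * wd' μ s (hN δ n) ≤ oN μ s δ ε n := Nat.le_ceil _

theorem hN_le (δ : ℝ) (n : ℕ) : (hN δ n : ℝ) ≤ (n : ℝ) ^ δ := Nat.floor_le (by positivity)

theorem hN_ge {δ : ℝ} (hδ : 0 ≤ δ) {n : ℕ} (hn : 1 ≤ n) : (n : ℝ) ^ δ / 2 ≤ hN δ n ∧ 1 ≤ hN δ n := by
  have hnR : (1 : ℝ) ≤ n := by exact_mod_cast hn
  have h1 : (1 : ℝ) ≤ (n : ℝ) ^ δ := Real.one_le_rpow hnR hδ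
  have h2 : 1 ≤ hN δ n := Nat.le_floor (by exact_mod_cast h1)
  have h3 : (n : ℝ) ^ δ < hN δ n + 1 := Nat.lt_floor_add_one _
  have h4 : (1 : ℝ) ≤ hN δ n := by exact_mod_cast h2
  exact ⟨by linarith, h2⟩

theorem oN_pos {δ ε : ℝ} {n : ℕ} (hn : 1 ≤ n) : 1 ≤ oN μ s δ ε n := by
  unfold oN
  rw [Nat.one_le_ceil_iff]
  have hnR : (0 : ℝ) < n := by exact_mod_cast hn
  exact mul_pos (Real.rpow_pos_of_pos hnR _) (lt_of_lt_of_le one_pos (wd'_one_le _))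

/-- **The choice of the numbers.** -/
theorem choice61 {a K : ℝ} (ha : 0 < a) (ha1 : a < 1) (hK : 1 ≤ K)
    (hw : ∀ m n : ℕ, 1 ≤ m → m ≤ n → wd' μ s m ≤ K * wd' μ s n ∧ K⁻¹ * ((n : ℝ) / m) ^ a * wd' μ s m ≤ wd' μ s n ∧
      wd' μ s n ≤ K * ((n : ℝ) / m) ^ (1 - a) * wd' μ s m) {δ : ℝ} (hδ : 0 < δ) (m : ℕ) :
    ∃ C₁ : ℝ, 0 < C₁ ∧ ∀ᶠ n : ℕ in atTop, (wN μ s δ (δ * a / 4) m n : ℝ) ≤ C₁ * (n : ℝ) ^ (δ - 3 * δ * a / 4) ∧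
      (wN μ s δ (δ * a / 4) m n : ℝ) ≤ (n : ℝ) ^ (2 * δ) ∧ 1 ≤ wN μ s δ (δ * a / 4) m n := by
  obtain ⟨K₁, hK₁⟩ : ∃ K₁ : ℝ, K₁ = K * wd' μ s 1 := ⟨_, rfl⟩
  have hK₁0 : 0 < K₁ := by rw [hK₁]; exact mul_pos (by linarith) (lt_of_lt_of_le one_pos (wd'_one_le _))
  refine ⟨2 * (m + 1) * (K₁ + 1), by positivity, ?_⟩
  have hexp : 0 < δ - 3 * δ * a / 4 := by nlinarith
  have hexp2 : δ - 3 * δ * a / 4 < 2 * δ := by nlinarith [mul_pos hδ ha]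
  have ht : Tendsto (fun n : ℕ => (n : ℝ) ^ (2 * δ - (δ - 3 * δ * a / 4))) atTop atTop :=
    (tendsto_rpow_atTop (by linarith)).comp tendsto_natCast_atTop_atTop
  filter_upwards [ht.eventually_ge_atTop (2 * (m + 1) * (K₁ + 1)), eventually_ge_atTop 1] with n hn hn1
  have hnR : (1 : ℝ) ≤ n := by exact_mod_cast hn1
  have hn0 : (0 : ℝ) < n := by linarith
  obtain ⟨hh1, hh2⟩ := hN_ge hδ.le hn1
  have hhR : (1 : ℝ) ≤ hN δ n := by exact_mod_cast hh2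
  have h1 : wd' μ s (hN δ n) ≤ K₁ * (n : ℝ) ^ (δ * (1 - a)) := by
    have h2 := (hw 1 (hN δ n) le_rfl hh2).2.2
    rw [Nat.cast_one, div_one] at h2
    have h3 : (hN δ n : ℝ) ^ (1 - a) ≤ (n : ℝ) ^ (δ * (1 - a)) := by
      rw [Real.rpow_mul hn0.le]
      exact Real.rpow_le_rpow (by linarith) (hN_le δ n) (by linarith)
    calc wd' μ s (hN δ n) ≤ K * (hN δ n : ℝ) ^ (1 - a) * wd' μ s 1 := h2
      _ = K₁ * (hN δ n : ℝ) ^ (1 - a) := by rw [hK₁]; ring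
      _ ≤ _ := mul_le_mul_of_nonneg_left h3 hK₁0.le
  have h2 : (oN μ s δ (δ * a / 4) n : ℝ) ≤ (K₁ + 1) * (n : ℝ) ^ (δ - 3 * δ * a / 4) := by
    have h3 : (oN μ s δ (δ * a / 4) n : ℝ) < (n : ℝ) ^ (δ * a / 4) * wd' μ s (hN δ n) + 1 :=
      Nat.ceil_lt_add_one (mul_nonneg (by positivity) (zero_le_one.trans (wd'_one_le _)))
    have h4 : (n : ℝ) ^ (δ * a / 4) * wd' μ s (hN δ n) ≤ K₁ * (n : ℝ) ^ (δ - 3 * δ * a / 4) := by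
      calc (n : ℝ) ^ (δ * a / 4) * wd' μ s (hN δ n) ≤ (n : ℝ) ^ (δ * a / 4) * (K₁ * (n : ℝ) ^ (δ * (1 - a))) :=
            mul_le_mul_of_nonneg_left h1 (by positivity)
        _ = K₁ * ((n : ℝ) ^ (δ * a / 4) * (n : ℝ) ^ (δ * (1 - a))) := by ring
        _ = _ := by
            rw [← Real.rpow_add hn0]
            congr 2
            ring
    have h5 : (1 : ℝ) ≤ (n : ℝ) ^ (δ - 3 * δ * a / 4) := Real.one_le_rpow hnR hexp.le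
    linarith
  have h3 : (wN μ s δ (δ * a / 4) m n : ℝ) ≤ 2 * (m + 1) * (K₁ + 1) * (n : ℝ) ^ (δ - 3 * δ * a / 4) := by
    unfold wN
    push_cast
    have h4 : (0 : ℝ) ≤ 2 * (m + 1) := by positivity
    calc 2 * ((m + 1) * (oN μ s δ (δ * a / 4) n : ℝ)) = 2 * (m + 1) * (oN μ s δ (δ * a / 4) n : ℝ) := by ring
      _ ≤ 2 * (m + 1) * ((K₁ + 1) * (n : ℝ) ^ (δ - 3 * δ * a / 4)) := mul_le_mul_of_nonneg_left h2 h4
      _ = _ := by ring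
  refine ⟨h3, h3.trans ?_, ?_⟩
  · calc 2 * (m + 1) * (K₁ + 1) * (n : ℝ) ^ (δ - 3 * δ * a / 4) ≤
          (n : ℝ) ^ (2 * δ - (δ - 3 * δ * a / 4)) * (n : ℝ) ^ (δ - 3 * δ * a / 4) :=
          mul_le_mul_of_nonneg_right hn (by positivity)
      _ = (n : ℝ) ^ (2 * δ) := by
          rw [← Real.rpow_add hn0]
          congr 1
          ring
  · have := oN_pos (μ := μ) (s := s) (δ := δ) (ε := δ * a / 4) hn1
    unfold wN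
    nlinarith

end Pool.Agent.W_7d29a1_LB
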