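import Pool.Agent.W_7d29a1_LB.StepCore
import Pool.Agent.W_7d29a1_LB.StepHd
import Pool.Agent.W_7d29a1_LB.StepNumB
import Pool.Agent.W_7d29a1_LB.Sep14
import Pool.Agent.W_7d29a1_LB.SeamReg
import Pool.Agent.W_7d29a1_LB.NSF14
import Pool.Agent.W_7d29a1_LB.Meet
import Pool.Agent.W_7d29a1_LB.Bdd14

/-!
STORM LB (MP_7d29a1_pr, row 671), Step: the variance of the difference of the free energies of two starts grows by one if the distance
of the starts grows by a small power of `n`; from the leaves NSFr, Sep, Bdd. (helper61)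
-/

set_option autoImplicit false

namespace Pool.Agent.W_7d29a1_LB

open MeasureTheory ProbabilityTheory Filter Topology Finset
open Pool.Agent.W_7d29a1_F Pool.Agent.W_7d29a1_X Pool.Agent.W_7d29a1_H
open Pool.Agent.W_7d29a1_HS (In wd)
open Pool.Agent.W_7d29a1_HZ (NSp wd' EE' wd'_pow EE'_pow wd'_eq)

noncomputable section

variable {μ : Measure ℝ} {s : ℝ}

theorem evt_pow {e M : ℝ} (he : 0 < e) : ∀ᶠ n : ℕ in atTop, M ≤ (n : ℝ) ^ e :=
  ((tendsto_rpow_atTop he).comp tendsto_natCast_atTop_atTop).eventually_ge_atTop M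

theorem evt_tiny {c M : ℝ} (hc : 0 < c) (k : ℕ) {η : ℝ} (hη : 0 < η) :
    ∀ᶠ n : ℕ in atTop, M * (n : ℝ) ^ k * Real.exp (-(n : ℝ) ^ c) ≤ η := by
  obtain ⟨j, hj⟩ : ∃ j : ℕ, (k : ℝ) ≤ c * j := by
    obtain ⟨j, hj⟩ := exists_nat_ge ((k : ℝ) / c)
    exact ⟨j, by rw [div_le_iff₀ hc] at hj; linarith⟩
  have h1 : Tendsto (fun n : ℕ => |M| * (((n : ℝ) ^ c) ^ j * Real.exp (-(n : ℝ) ^ c))) atTop (𝓝 (|M| * 0)) :=
    ((Real.tendsto_pow_mul_exp_neg_atTop_nhds_zero j).comp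
      ((tendsto_rpow_atTop hc).comp tendsto_natCast_atTop_atTop)).const_mul _
  rw [mul_zero] at h1
  filter_upwards [h1.eventually_lt_const hη, eventually_ge_atTop 1] with n hn hn1
  have hnR : (1 : ℝ) ≤ n := by exact_mod_cast hn1
  have h2 : (n : ℝ) ^ k ≤ ((n : ℝ) ^ c) ^ j := by
    rw [← Real.rpow_natCast, ← Real.rpow_natCast, ← Real.rpow_mul (by linarith)]
    exact Real.rpow_le_rpow_of_exponent_le hnR hj
  calc M * (n : ℝ) ^ k * Real.exp (-(n : ℝ) ^ c) ≤ |M| * (((n : ℝ) ^ c) ^ j * Real.exp (-(n : ℝ) ^ c)) := by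
        rw [mul_assoc]
        exact mul_le_mul (le_abs_self M) (mul_le_mul_of_nonneg_right h2 (Real.exp_pos _).le)
          (mul_nonneg (by positivity) (Real.exp_pos _).le) (abs_nonneg _)
    _ ≤ η := hn.le

open Classical in
/-- The mean of the small quenched probabilities. -/
theorem int_fb_le [IsProbabilityMeasure μ] {x : ℤ} {n : ℕ} {ε p q : ℝ}
    (h1 : E2 μ s x n (fun S S' => if met x (n / 2) (S, S') then 0 else 1) ≤ p) (h2 : ∫ η, r0 μ s n ε η ∂(law μ) ≤ q) :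
    ∫ η, fb μ s x n ε η ∂(law μ) ≤ p + q + q := by
  have i1 : Integrable (fun η : Env => nm μ s x n η) (law μ) := integrable_PP x n _
  have i2 : Integrable (fun η : Env => r0 μ s n ε η) (law μ) := by
    refine Integrable.of_bound (measurable_r0 n ε).aestronglyMeasurable 1 (Filter.Eventually.of_forall fun η => ?_)
    rw [Real.norm_eq_abs, abs_of_nonneg (r0_nonneg n ε η)]
    exact r0_le_one n ε η
  have hmp := mp_sh (μ := μ) (0, x)
  have i3 : Integrable (fun η : Env => r0 μ s n ε (sh (0, x) η)) (law μ) := hmp.integrable_comp_of_integrable i2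
  have e3 : ∫ η, r0 μ s n ε (sh (0, x) η) ∂(law μ) = ∫ η, r0 μ s n ε η ∂(law μ) := by
    have h3 := integral_map (μ := law μ) hmp.measurable.aemeasurable (f := fun η => r0 μ s n ε η)
      (by rw [hmp.map_eq]; exact (measurable_r0 n ε).aestronglyMeasurable)
    rw [hmp.map_eq] at h3
    exact h3.symm
  have e1 : ∫ η, nm μ s x n η ∂(law μ) ≤ p := by
    refine le_trans ?_ h1
    refine integral_mono i1 (integrable_PP x n _) fun η => ?_
    refine PP_mono x n η fun S _ S' _ => ?_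
    by_cases h3 : ∀ i ≤ n / 2, pos S i < x + pos S' i
    · have h4 : ¬ met x (n / 2) (S, S') := by
        rintro ⟨i, hi, h5⟩
        have h6 := h3 i hi
        unfold dst at h5
        dsimp only at h5
        omega
      rw [if_pos h3, if_neg h4]
    · rw [if_neg h3]
      split_ifs <;> norm_num
  unfold fb
  have e4 : ∫ η, (nm μ s x n η + r0 μ s n ε η + r0 μ s n ε (sh (0, x) η)) ∂(law μ) =
      ∫ η, nm μ s x n η ∂(law μ) + ∫ η, r0 μ s n ε η ∂(law μ) + ∫ η, r0 μ s n ε (sh (0, x) η) ∂(law μ) := by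
    rw [integral_add (f := fun η => nm μ s x n η + r0 μ s n ε η) (i1.add i2) i3, integral_add i1 i2]
  rw [e4, e3]
  linarith

/-- **Bdd** (6.2): the difference of the free energies of two starts. -/
def BddH (μ : Measure ℝ) [IsProbabilityMeasure μ] (s : ℝ) : Prop := ∀ δ : ℝ, 0 < δ → ∀ e : ℝ, 0 < e → ∃ c' : ℝ, 0 < c' ∧ ∃ n₁ : ℕ,
  ∀ n : ℕ, n₁ ≤ n → ∀ x t1 : ℕ, x ≤ n → (x : ℝ) ≤ 2 * wd' μ s t1 → t1 ≤ n → (n : ℝ) ^ (2 * δ) ≤ t1 →
    law μ {η | 3 * (n : ℝ) ^ e * EE' μ s t1 < |V μ s η (0, (x : ℤ)) n - V μ s η 0 n|} ≤ ENNReal.ofReal (Real.exp (-(n : ℝ) ^ c'))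

theorem real_le_of {P : Measure Env} [IsProbabilityMeasure P] {A : Set Env} {r : ℝ} (hr : 0 ≤ r) (h : P A ≤ ENNReal.ofReal r) :
    P.real A ≤ r := ENNReal.toReal_le_of_le_ofReal hr h

theorem dp_false {q : ℕ → ℤ} {w : ℕ} {z : ℤ} {S : Finset ℕ} : dp q w z (false, S) = dpt q w (fun i => 0 + pos S i) := by
  funext i
  unfold dp dpt Xp st
  simp

theorem dp_true {q : ℕ → ℤ} {w : ℕ} {z : ℤ} {S : Finset ℕ} : dp q w z (true, S) = dpt q w (fun i => z + pos S i) := by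
  funext i
  unfold dp dpt Xp st
  simp

theorem mem_Pths' {n : ℕ} {b : Bool} {S : Finset ℕ} (h : S ⊆ range n) : (b, S) ∈ Pths n := by
  unfold Pths
  rw [mem_product]
  exact ⟨mem_univ _, mem_powerset.2 h⟩

theorem num_cone61 {E P K K₃ wi wj x w hh : ℝ} (k1 : E * wi ≤ P * (2 * K * wj)) (k2 : x ≤ K₃ * K * P * wj) (hw : w ≤ x) (hh' : hh ≤ x)
    (k3 : (2 * K + 5 * (K₃ * K)) * (P * wj) ≤ P * (P * wj)) : E * wi + 2 * x + 2 * w + hh ≤ P * P * wj := by linarith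

theorem num_mesh61 {E P K W o : ℝ} (h3 : E * (K * W) ≤ P * (K * W)) (h4 : 2 * K * (P * W) ≤ P * (P * W)) (h5 : P * P * W ≤ o) :
    E * (K * W) + P * (K * W) ≤ o := by linarith

/-- **STEP**, from the leaves. -/
theorem step_of [IsProbabilityMeasure μ] {c C : ℝ} {n₀ : ℕ} (h : In μ s c C n₀) (hNS : NSFr μ s) (hBdd : BddH μ s)
    {δ : ℝ} (hδ : 0 < δ) (hδ1 : δ ≤ 1 / 10) :
    ∃ n₁ : ℕ, ∀ n : ℕ, n₁ ≤ n → ∃ w : ℕ, 1 ≤ w ∧ (w : ℝ) ≤ (n : ℝ) ^ (2 * δ) ∧ ∀ x : ℕ, (n : ℝ) ^ (3 * δ) ≤ x →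
      ((x + w : ℕ) : ℝ) ≤ (n : ℝ) ^ (-δ) * wd' μ s n →
      ∫ η, (V μ s η (0, (x : ℤ)) n - V μ s η 0 n) ^ 2 ∂(law μ) + 1 ≤ ∫ η, (V μ s η (0, ((x + w : ℕ) : ℤ)) n - V μ s η 0 n) ^ 2 ∂(law μ) := by
  obtain ⟨a, K, ha, ha1, hK, hw⟩ := wd'_pow h
  obtain ⟨b, K', hb, hb1, hK', hE⟩ := EE'_pow h
  have hsl0 : 0 ≤ sl μ s := h.sl_pos.le
  have hsl1 : sl μ s ≤ 1 := h.sl_lt.le
  have hδa : 0 < δ * a := mul_pos hδ ha
  -- the number of depths
  obtain ⟨m, hm⟩ : ∃ m : ℕ, m = ⌈16 / (δ * a)⌉₊ + 2 := ⟨_, rfl⟩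
  have hm2 : 2 ≤ m := by omega
  have hm1 : 1 / ((m - 1 : ℕ) : ℝ) ≤ δ * a / 16 := by
    have h1 : 16 / (δ * a) ≤ ((m - 1 : ℕ) : ℝ) := by
      have h2 : ⌈16 / (δ * a)⌉₊ ≤ m - 1 := by omega
      exact (Nat.le_ceil _).trans (by exact_mod_cast h2)
    have h3 : 0 < 16 / (δ * a) := by positivity
    calc 1 / ((m - 1 : ℕ) : ℝ) ≤ 1 / (16 / (δ * a)) := one_div_le_one_div_of_le h3 h1
      _ = δ * a / 16 := by rw [one_div_div]
  obtain ⟨κ, Cg, hκ, hCg, hgain⟩ := gain2 (μ := μ) h.em h.nd s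
  obtain ⟨C₁, hC₁, hch⟩ := choice61 (μ := μ) (s := s) ha ha1 hK hw hδ m
  have hfac := facN_large hκ hδ ha hC₁ hm2 hm1 50
  obtain ⟨ρ, c1, hρ, hc1, N₁, hreg⟩ := seam_reg h (ε := δ * a / 8) (θ := δ) (by positivity) hδ
  obtain ⟨ε₂, hε₂⟩ : ∃ ε₂ : ℝ, ε₂ = min (ρ / 2) (δ / 2) := ⟨_, rfl⟩
  have hε₂0 : 0 < ε₂ := by rw [hε₂]; positivity
  have hε₂δ : 2 * ε₂ ≤ δ := by
    have h1 : ε₂ ≤ δ / 2 := by rw [hε₂]; exact min_le_right _ _
    linarith
  have hε₂ρ : ε₂ ≤ ρ / 2 := by rw [hε₂]; exact min_le_left _ _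
  obtain ⟨K₃, a₃, hK₃, ha₃, ha₃1, htimes⟩ := times14 h
  obtain ⟨N₇, hrows⟩ := htimes δ hδ (by linarith) ε₂ hε₂0 hε₂δ
  obtain ⟨e1, e, c2, he1, he, hc2, hsep0⟩ := sep14 h (K₀ := K₃) (a₀ := a₃) (δ := δ) (e := ε₂) hK₃ ha₃ hδ hε₂0
  obtain ⟨e', he'⟩ : ∃ e' : ℝ, e' = min e (1 / 2) := ⟨_, rfl⟩
  have he'0 : 0 < e' := by rw [he']; positivity
  have he'e : e' ≤ e := by rw [he']; exact min_le_left _ _
  have he'h : e' ≤ 1 / 2 := by rw [he']; exact min_le_right _ _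
  obtain ⟨N₂, hsep⟩ := hsep0 e' e1 he'0 he'e he1 le_rfl
  obtain ⟨c3, hc3, N₃, hbdd⟩ := hBdd δ hδ e' he'0
  obtain ⟨εs, hεs⟩ : ∃ εs : ℝ, εs = min (min (e1 / 2) (ρ / 2)) (δ * a / 8) := ⟨_, rfl⟩
  have hεs0 : 0 < εs := by rw [hεs]; positivity
  have hεs1 : εs ≤ e1 / 2 := by rw [hεs]; exact (min_le_left _ _).trans (min_le_left _ _)
  have hεs2 : εs ≤ ρ / 2 := by rw [hεs]; exact (min_le_left _ _).trans (min_le_right _ _)
  have hεs3 : εs ≤ δ * a / 8 := by rw [hεs]; exact min_le_right _ _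
  obtain ⟨c4, hc4, N₄, hns⟩ := hNS εs hεs0
  obtain ⟨N₅, hmeet⟩ := meet_of h hNS hδ (show δ ≤ 1 by linarith)
  obtain ⟨N₆, hwe⟩ := wd'_eq h
  obtain ⟨K₂, hK₂⟩ : ∃ K₂ : ℝ, K₂ = K' * EE' μ s 1 := ⟨_, rfl⟩
  have hK₂0 : 0 < K₂ := by rw [hK₂]; exact mul_pos (by linarith) (lt_of_lt_of_le one_pos (EE'_one_le _))
  refine eventually_atTop.1 ?_
  filter_upwards [hch, hfac, evt_pow (M := K * wd' μ s 1) ha, evt_pow (M := K) (show (0 : ℝ) < e1 / 2 by positivity),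
    evt_pow (M := 2 * K) (show (0 : ℝ) < δ * a / 8 by positivity),
    evt_pow (M := 2 * K + 5 * (K₃ * K)) (show (0 : ℝ) < ρ / 2 by positivity),
    evt_tiny (M := 2) hc1 2 (show (0 : ℝ) < 1 / 64 by norm_num), evt_tiny (M := 2) hc2 2 (show (0 : ℝ) < 1 / 64 by norm_num),
    evt_tiny (M := 1) hc3 0 (show (0 : ℝ) < 1 / 64 by norm_num), evt_tiny (M := 1) hc4 0 (show (0 : ℝ) < 1 / 64 by norm_num),
    evt_tiny (M := 2 * Cg) (show (0 : ℝ) < δ * a / 8 by positivity) 8 one_pos,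
    evt_pow (M := 64) (show (0 : ℝ) < δ / 2 by positivity),
    eventually_ge_atTop (N₁ + N₂ + N₃ + N₄ + N₅ + N₆ + N₇ + 64 + ⌈3 * K₂ + 1⌉₊)] with n q123 q4 q5 q6 q7 q8 q9 q10 q11 q12 q13 q14 q15
  obtain ⟨q1, q2, q3⟩ := q123
  obtain ⟨hh, hhh⟩ : ∃ hh : ℕ, hh = hN δ n := ⟨_, rfl⟩
  obtain ⟨o, ho⟩ : ∃ o : ℕ, o = oN μ s δ (δ * a / 4) n := ⟨_, rfl⟩
  obtain ⟨w, hwd⟩ : ∃ w : ℕ, w = wN μ s δ (δ * a / 4) m n := ⟨_, rfl⟩
  rw [← hwd] at q1 q2 q3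
  have hn64 : 64 ≤ n := by omega
  have hnR : (64 : ℝ) ≤ n := by exact_mod_cast hn64
  have hn0 : (0 : ℝ) < n := by linarith
  have hn1 : (1 : ℝ) ≤ n := by linarith
  have hnK : 3 * K₂ + 1 ≤ n := by
    have h1 : ⌈3 * K₂ + 1⌉₊ ≤ n := by omega
    exact (Nat.le_ceil _).trans (by exact_mod_cast h1)
  obtain ⟨hh1, hh2⟩ := hN_ge hδ.le (show 1 ≤ n by omega)
  have hh3 := hN_le δ n
  rw [← hhh] at hh1 hh2 hh3
  have ho1 : 1 ≤ o := by rw [ho]; exact oN_pos (by omega)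
  have ho2 : (n : ℝ) ^ (δ * a / 4) * wd' μ s hh ≤ o := by rw [ho, hhh]; exact oN_ge _ _ _
  have hw2 : w = 2 * ((m + 1) * o) := by rw [hwd, ho]; rfl
  refine ⟨w, q3, q2, fun x hx hxw => ?_⟩
  -- the point `x`
  have hpd1 : (1 : ℝ) ≤ (n : ℝ) ^ (3 * δ) := Real.one_le_rpow hn1 (by positivity)
  have hx1R : (1 : ℝ) ≤ x := hpd1.trans hx
  have hx1 : 1 ≤ x := by exact_mod_cast hx1R
  have hwR : (0 : ℝ) ≤ w := Nat.cast_nonneg _
  have hwx : (w : ℝ) ≤ x := (q2.trans (Real.rpow_le_rpow_of_exponent_le hn1 (by linarith))).trans hx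
  have hwdn : 0 ≤ wd' μ s n := zero_le_one.trans (wd'_one_le _)
  have hxn : (x : ℝ) ≤ wd' μ s n := by
    have h1 : (n : ℝ) ^ (-δ) ≤ 1 := Real.rpow_le_one_of_one_le_of_nonpos hn1 (by linarith)
    push_cast at hxw
    have h2 : (n : ℝ) ^ (-δ) * wd' μ s n ≤ 1 * wd' μ s n := mul_le_mul_of_nonneg_right h1 hwdn
    linarith
  obtain ⟨t1, t0, hT0a, ht01, ht18, hT0b', hT1, hT1', -, -, hxT, hwt1⟩ := hrows n (by omega) x hx (by
    refine le_trans ?_ hxw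
    push_cast
    linarith)
  have ht1 : 1 ≤ t1 := hT0a.trans ht01
  have ht1n : t1 ≤ n := by omega
  have hT0c : t0 ≤ n / 4 := by omega
  have hT0b : (n : ℝ) ^ δ ≤ t0 := (Real.rpow_le_rpow_of_exponent_le hn1 (by linarith)).trans hT0b'
  have hwnn : wd' μ s n ≤ n := by
    have h1 := (hw 1 n le_rfl (by omega)).2.2
    rw [Nat.cast_one, div_one] at h1
    calc wd' μ s n ≤ K * (n : ℝ) ^ (1 - a) * wd' μ s 1 := h1
      _ = K * wd' μ s 1 * (n : ℝ) ^ (1 - a) := by ring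
      _ ≤ (n : ℝ) ^ a * (n : ℝ) ^ (1 - a) := mul_le_mul_of_nonneg_right q5 (by positivity)
      _ = n := by rw [← Real.rpow_add hn0, add_sub_cancel, Real.rpow_one]
  have hxwn : x + w ≤ n := by
    have h1 : (n : ℝ) ^ (-δ) ≤ 1 := Real.rpow_le_one_of_one_le_of_nonpos hn1 (by linarith)
    have h2 : (n : ℝ) ^ (-δ) * wd' μ s n ≤ 1 * wd' μ s n := mul_le_mul_of_nonneg_right h1 hwdn
    have h3 : ((x + w : ℕ) : ℝ) ≤ n := hxw.trans (by linarith)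
    exact_mod_cast h3
  -- the windows
  have hhn : hh ≤ t0 := by
    have : (hh : ℝ) ≤ t0 := hh3.trans hT0b
    exact_mod_cast this
  obtain ⟨Kw, hKw⟩ : ∃ Kw : ℕ, Kw = (n / 2 - t0) / hh + 1 := ⟨_, rfl⟩
  have hKw0 : (n / 2 - t0) / hh * hh ≤ n / 2 - t0 := Nat.div_mul_le_self _ _
  have hKw1 : Kw * hh = (n / 2 - t0) / hh * hh + hh := by rw [hKw]; ring
  have hK1 : n / 2 < t0 + Kw * hh := by
    have h1 := Nat.lt_div_mul_add (a := n / 2 - t0) (show 0 < hh by omega)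
    rw [hKw1]
    omega
  have hK2 : t0 + Kw * hh ≤ n := by
    rw [hKw1]
    omega
  have hKwn : (Kw : ℝ) ≤ n := by
    have h1 : Kw ≤ Kw * hh := Nat.le_mul_of_pos_right _ (by omega)
    have h2 : Kw ≤ n := by omega
    exact_mod_cast h2
  -- the levels
  obtain ⟨A', hA'⟩ : ∃ A' : ℝ, A' = 3 * (n : ℝ) ^ e' * EE' μ s t1 + 1 := ⟨_, rfl⟩
  have hEt : 1 ≤ EE' μ s t1 := EE'_one_le _
  have hA0 : 0 ≤ A' := by rw [hA']; positivity
  have hA2 : A' ≤ (n : ℝ) ^ 2 := by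
    have h1 := (hE 1 t1 le_rfl ht1).2.2
    rw [Nat.cast_one, div_one] at h1
    have h2 : Real.sqrt t1 ≤ Real.sqrt n := Real.sqrt_le_sqrt (by exact_mod_cast ht1n)
    have h3 : (n : ℝ) ^ e' ≤ Real.sqrt n := by
      rw [Real.sqrt_eq_rpow]
      exact Real.rpow_le_rpow_of_exponent_le hn1 he'h
    have h4 : EE' μ s t1 ≤ K₂ * Real.sqrt n := by
      calc EE' μ s t1 ≤ K' * Real.sqrt t1 * EE' μ s 1 := h1
        _ = K₂ * Real.sqrt t1 := by rw [hK₂]; ring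
        _ ≤ _ := mul_le_mul_of_nonneg_left h2 hK₂0.le
    have h5 : (n : ℝ) ^ e' * EE' μ s t1 ≤ Real.sqrt n * (K₂ * Real.sqrt n) :=
      mul_le_mul h3 h4 (by linarith) (Real.sqrt_nonneg _)
    have h6 : Real.sqrt n * (K₂ * Real.sqrt n) = K₂ * n := by
      rw [mul_left_comm, Real.mul_self_sqrt hn0.le]
    rw [h6] at h5
    have h7 : (3 * K₂ + 1) * n ≤ n * n := mul_le_mul_of_nonneg_right hnK hn0.le
    have h8 : (3 * K₂ + 1) * n = 3 * (K₂ * n) + n := by ring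
    have h9 : 3 * (n : ℝ) ^ e' * EE' μ s t1 = 3 * ((n : ℝ) ^ e' * EE' μ s t1) := by ring
    rw [hA', h9, sq]
    linarith
  -- the bad environments
  obtain ⟨mExc, vExc, B, mB, hB, hregB⟩ := hreg n (by omega) x (by exact_mod_cast hx1)
  obtain ⟨Bs, hBs⟩ : ∃ Bs : Set Env, Bs = {η | ¬ SepE μ s n x t0 t1 e' e1 η} := ⟨_, rfl⟩
  have hBs1 := hsep n (by omega) x t0 t1 hx1 (by omega) hT0a ht01 ht1n hT0b' hT1 hT1' hwt1
  rw [← hBs] at hBs1
  have hΩ : (law μ).real (B ∪ Bs) ≤ Real.exp (-(n : ℝ) ^ c1) + Real.exp (-(n : ℝ) ^ c2) :=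
    (measureReal_union_le _ _).trans (add_le_add (real_le_of (Real.exp_pos _).le hB) (real_le_of (Real.exp_pos _).le hBs1))
  -- the small numbers
  have hu1 : (1 : ℝ) ≤ (n : ℝ) ^ (δ * a / 16) := Real.one_le_rpow hn1 (by positivity)
  have hu2 : ((n : ℝ) ^ (δ * a / 16)) ^ 2 = (n : ℝ) ^ (δ * a / 8) := by
    rw [← Real.rpow_natCast, ← Real.rpow_mul hn0.le]
    congr 1
    push_cast
    ring
  have hhw : ((hh * w : ℕ) : ℝ) ≤ (n : ℝ) ^ 2 := by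
    push_cast
    have h1 : (hh : ℝ) ≤ n := by
      calc (hh : ℝ) ≤ (n : ℝ) ^ δ := hh3
        _ ≤ (n : ℝ) ^ (1 : ℝ) := Real.rpow_le_rpow_of_exponent_le hn1 (by linarith)
        _ = n := Real.rpow_one _
    have h2 : (w : ℝ) ≤ n := by
      calc (w : ℝ) ≤ (n : ℝ) ^ (2 * δ) := q2
        _ ≤ (n : ℝ) ^ (1 : ℝ) := Real.rpow_le_rpow_of_exponent_le hn1 (by linarith)
        _ = n := Real.rpow_one _
    rw [sq]
    exact mul_le_mul h1 h2 hwR hn0.le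
  have hsq : √((hh * w : ℕ) : ℝ) ≤ n := by
    rw [Real.sqrt_le_left hn0.le]
    exact hhw
  have hfac50 : 50 ≤ κ * (hh * (n : ℝ) ^ (-(1 / ((m - 1 : ℕ) : ℝ)))) / (((m - 1 : ℕ) : ℝ) * (n : ℝ) ^ (δ * a / 16) * √((hh * w : ℕ) : ℝ)) := by
    have h1 := q4 hh w n hh1 hh3 (by exact_mod_cast (show 0 < w by omega)) q1 hn1 le_rfl
    unfold facN at h1
    refine h1.trans (le_of_eq ?_)
    push_cast
    generalize (n : ℝ) ^ (-(1 / ((m - 1 : ℕ) : ℝ))) = F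
    generalize ((m - 1 : ℕ) : ℝ) = M
    generalize (n : ℝ) ^ (δ * a / 16) = U
    generalize √((hh : ℝ) * w) = R
    ring
  have hfbv : ∫ η, fb μ s ((x : ℤ) + (w : ℤ)) n εs η ∂(law μ) ≤ 1 / 64 + 1 / 64 + 1 / 64 := by
    have h1 := hmeet n (by omega) (x + w) (by omega) (by rw [← (hwe n (by omega)).1]; exact hxw)
    have h2 := hns n (by omega)
    have h3 : (n : ℝ) ^ (-(δ / 2)) ≤ 1 / 64 := by
      rw [Real.rpow_neg hn0.le, ← one_div]
      exact one_div_le_one_div_of_le (by norm_num) q14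
    rw [pow_zero, mul_one, one_mul] at q12
    refine int_fb_le (p := 1 / 64) (q := 1 / 64) ?_ ?_
    · push_cast at h1
      exact h1.trans h3
    · refine le_trans (le_of_eq ?_) (h2.trans q12)
      refine integral_congr_ae (Filter.Eventually.of_forall fun η => ?_)
      unfold r0
      refine sum_congr rfl fun S _ => ?_
      by_cases h5 : NSp μ s n n εs S
      · rw [if_pos h5]
      · rw [if_neg h5]
  have hbv : (law μ).real {η | A' - 1 < |Bd μ s ((x : ℤ) + (w : ℤ)) n η|} ≤ 1 / 64 := by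
    have h1 := hbdd n (by omega) (x + w) t1 hxwn (by push_cast; linarith) ht1n (hT0b'.trans (by exact_mod_cast ht01))
    rw [pow_zero, mul_one, one_mul] at q11
    have h2 : A' - 1 = 3 * (n : ℝ) ^ e' * EE' μ s t1 := by rw [hA']; ring
    rw [h2]
    push_cast at h1
    exact (real_le_of (Real.exp_pos _).le h1).trans q11
  have hnu : (n : ℝ)⁻¹ ≤ 1 / 64 := by
    rw [← one_div]
    exact one_div_le_one_div_of_le (by norm_num) hnR
  have hΩ2 : 2 * A' * (law μ).real (B ∪ Bs) ≤ 1 / 64 + 1 / 64 := by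
    have h1 : 2 * A' * (law μ).real (B ∪ Bs) ≤ 2 * (n : ℝ) ^ 2 * (Real.exp (-(n : ℝ) ^ c1) + Real.exp (-(n : ℝ) ^ c2)) :=
      mul_le_mul (by linarith) hΩ measureReal_nonneg (by positivity)
    rw [mul_add] at h1
    linarith
  have hτ : 2 * A' * (Cg * (n : ℝ) ^ 5 * √((hh * w : ℕ) : ℝ) * Real.exp (-((n : ℝ) ^ (δ * a / 16)) ^ 2)) ≤ 1 := by
    rw [hu2]
    refine le_trans ?_ q13
    have h1 : 0 < Real.exp (-(n : ℝ) ^ (δ * a / 8)) := Real.exp_pos _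
    have h2 : 2 * A' * (Cg * (n : ℝ) ^ 5 * √((hh * w : ℕ) : ℝ)) ≤ 2 * (n : ℝ) ^ 2 * (Cg * (n : ℝ) ^ 5 * n) :=
      mul_le_mul (by linarith) (mul_le_mul_of_nonneg_left hsq (by positivity)) (by positivity) (by positivity)
    calc 2 * A' * (Cg * (n : ℝ) ^ 5 * √((hh * w : ℕ) : ℝ) * Real.exp (-(n : ℝ) ^ (δ * a / 8))) =
          (2 * A' * (Cg * (n : ℝ) ^ 5 * √((hh * w : ℕ) : ℝ))) * Real.exp (-(n : ℝ) ^ (δ * a / 8)) := by ring
      _ ≤ (2 * (n : ℝ) ^ 2 * (Cg * (n : ℝ) ^ 5 * n)) * Real.exp (-(n : ℝ) ^ (δ * a / 8)) := mul_le_mul_of_nonneg_right h2 h1.le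
      _ = _ := by ring
  -- the deterministic part
  have hdet : ∀ a : ℝ, |a| ≤ A' → ∀ ω, ω ∉ B ∪ Bs → (a, ω) ∉ Exc s x n ((n : ℝ) ^ 4)⁻¹ → ∀ S S' : Finset ℕ, S ⊆ range n → S' ⊆ range n →
      NSp μ s n n εs S → NSp μ s n n εs S' → (∃ i ≤ n / 2, (x : ℤ) + w + pos S' i ≤ pos S i) →
      (false, S) ∈ Good (seam ω (a + s * ((x : ℤ) : ℝ)) x) w (x + w) n t0 hh Kw m o ∨
        (true, S') ∈ Good (seam ω (a + s * ((x : ℤ) : ℝ)) x) w (x + w) n t0 hh Kw m o := by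
    intro a' ha' ω hω hN S S' hS hS' hNSS hNSS' hmt
    have hωB : ω ∉ B := fun h1 => hω (Or.inl h1)
    have hωS : ω ∉ Bs := fun h1 => hω (Or.inr h1)
    rw [hBs, Set.mem_ofPred_eq, not_not] at hωS
    obtain ⟨s1, s2⟩ := hωS a' (ha'.trans (by rw [hA']))
    rw [mul_assoc] at s1 s2
    have hwt0 : 0 ≤ wd' μ s t0 := zero_le_one.trans (wd'_one_le _)
    have hwhh : 1 ≤ wd' μ s hh := wd'_one_le _
    have hrg := hregB ω hωB a' hN
    have hkey : (DReg (dpt (seam ω (a' + s * ((x : ℤ) : ℝ)) x) w (fun i => 0 + pos S i)) t0 hh Kw o ∧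
        ∃ k < Kw, ∃ j ∈ win t0 hh k, (m : ℤ) * (o : ℤ) ≤ dpt (seam ω (a' + s * ((x : ℤ) : ℝ)) x) w (fun i => 0 + pos S i) j) ∨
        (DReg (dpt (seam ω (a' + s * ((x : ℤ) : ℝ)) x) w (fun i => ((x : ℤ) + w) + pos S' i)) t0 hh Kw o ∧
        ∃ k < Kw, ∃ j ∈ win t0 hh k, (m : ℤ) * (o : ℤ) ≤
          dpt (seam ω (a' + s * ((x : ℤ) : ℝ)) x) w (fun i => ((x : ℤ) + w) + pos S' i) j) := by
     refine hdet_of (μ := μ) (s := s) (n := n) (w := w) (t0 := t0) (hh := hh) (K := Kw) (m := m) (o := o) (x := (x : ℤ))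
      (q := seam ω (a' + s * ((x : ℤ) : ℝ)) x) (εs := εs) (R := (n : ℝ) ^ e1 * wd' μ s t0) (ρX := (n : ℝ) ^ εs * (K * wd' μ s hh))
      (ρq := (n : ℝ) ^ (δ * a / 8) * (K * wd' μ s hh)) (c2 := fun j => (n : ℝ) ^ ρ * wd' μ s j) hsl0 hsl1 (by exact_mod_cast hx1)
      (fun i => seam_step ω _ _ i) hh2 (by omega) hw2 hK1 hK2 (by positivity)
      (mul_nonneg (by positivity) (mul_nonneg (zero_le_one.trans hK) (zero_le_one.trans hwhh))) s1 (by rw [Int.cast_natCast]; exact s2) (fun i hi1 hi2 => ?_)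
      (fun i hi1 hi2 => ?_) (fun i j hi hij hjn hji cj1 cj2 => ?_) (fun i j hi hj hij hji hjn hin => ?_) ?_ S S' hNSS hNSS' hmt
     · -- `hR`
       have h1 := (hw i t0 hi1 hi2).1
       have h2 : (n : ℝ) ^ εs * K ≤ (n : ℝ) ^ e1 := by
         have h3 : (n : ℝ) ^ εs ≤ (n : ℝ) ^ (e1 / 2) := Real.rpow_le_rpow_of_exponent_le hn1 hεs1
         calc (n : ℝ) ^ εs * K ≤ (n : ℝ) ^ (e1 / 2) * (n : ℝ) ^ (e1 / 2) := mul_le_mul h3 q6 (by linarith) (by positivity)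
           _ = (n : ℝ) ^ e1 := by rw [← Real.rpow_add hn0]; congr 1; ring
       calc (n : ℝ) ^ εs * wd' μ s i ≤ (n : ℝ) ^ εs * (K * wd' μ s t0) := mul_le_mul_of_nonneg_left h1 (by positivity)
         _ = (n : ℝ) ^ εs * K * wd' μ s t0 := by ring
         _ ≤ _ := mul_le_mul_of_nonneg_right h2 hwt0
     · -- `hρX`
       exact mul_le_mul_of_nonneg_left (hw i hh hi1 hi2).1 (by positivity)
     · -- the seam
       have hj0 : t0 ≤ j := hi.trans hij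
       have h1 := hrg j (hT0b.trans (by exact_mod_cast hj0)) hjn cj1 (by push_cast; exact cj2) i hij
       refine h1.trans (mul_le_mul_of_nonneg_left ?_ (by positivity))
       rcases Nat.eq_zero_or_pos (j - i) with h2 | h2
       · rw [h2]
         have h3 : wd' μ s 0 = 1 := by
           unfold wd' wd
           simp
         rw [h3]
         exact one_le_mul_of_one_le_of_one_le hK hwhh
       · exact (hw (j - i) hh h2 (by omega)).1
     · -- the cones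
       have hj1 : 1 ≤ j := by omega
       have hwj : 1 ≤ wd' μ s j := wd'_one_le _
       have h1 : wd' μ s i ≤ 2 * K * wd' μ s j := by
         rcases le_total i j with h2 | h2
         · have h3 := (hw i j (by omega) h2).1
           have h4 : 0 ≤ K * wd' μ s j := mul_nonneg (zero_le_one.trans hK) (zero_le_one.trans hwj)
           rw [mul_assoc]
           linarith only [h3, h4]
         · have h3 := (hw j i hj1 h2).2.2
           have hjR : (0 : ℝ) < j := by exact_mod_cast hj1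
           have h4 : (i : ℝ) / j ≤ 2 := by
             rw [div_le_iff₀ hjR]
             have : i ≤ 2 * j := by omega
             exact_mod_cast this
           have h5 : (1 : ℝ) ≤ (i : ℝ) / j := by
             rw [le_div_iff₀ hjR, one_mul]
             exact_mod_cast h2
           have h6 : ((i : ℝ) / j) ^ (1 - a) ≤ 2 := by
             calc ((i : ℝ) / j) ^ (1 - a) ≤ ((i : ℝ) / j) ^ (1 : ℝ) := Real.rpow_le_rpow_of_exponent_le h5 (by linarith)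
               _ = (i : ℝ) / j := Real.rpow_one _
               _ ≤ 2 := h4
           refine h3.trans ?_
           refine mul_le_mul_of_nonneg_right ?_ (zero_le_one.trans hwj)
           rw [mul_comm 2 K]
           exact mul_le_mul_of_nonneg_left h6 (zero_le_one.trans hK)
       have h2 : (x : ℝ) ≤ K₃ * K * (n : ℝ) ^ ε₂ * wd' μ s j := by
         have h3 := (hw t0 j hT0a hj).1
         refine hxT.trans ?_
         calc K₃ * (n : ℝ) ^ ε₂ * wd' μ s t0 ≤ K₃ * (n : ℝ) ^ ε₂ * (K * wd' μ s j) := mul_le_mul_of_nonneg_left h3 (by positivity)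
           _ = _ := by ring
       have h3 : (hh : ℝ) ≤ x := (hh3.trans (Real.rpow_le_rpow_of_exponent_le hn1 (by linarith))).trans hx
       have h4 : (n : ℝ) ^ εs ≤ (n : ℝ) ^ (ρ / 2) := Real.rpow_le_rpow_of_exponent_le hn1 hεs2
       have h5 : (n : ℝ) ^ ε₂ ≤ (n : ℝ) ^ (ρ / 2) := Real.rpow_le_rpow_of_exponent_le hn1 hε₂ρ
       have h6 : (n : ℝ) ^ (ρ / 2) * (n : ℝ) ^ (ρ / 2) = (n : ℝ) ^ ρ := by
         rw [← Real.rpow_add hn0]
         congr 1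
         ring
       obtain ⟨P, hP⟩ : ∃ P : ℝ, P = (n : ℝ) ^ (ρ / 2) := ⟨_, rfl⟩
       have hP0 : 0 < P := by rw [hP]; positivity
       rw [← hP] at h4 h5 h6 q8
       have k1 : (n : ℝ) ^ εs * wd' μ s i ≤ P * (2 * K * wd' μ s j) :=
         mul_le_mul h4 h1 (zero_le_one.trans (wd'_one_le _)) hP0.le
       have k2 : (x : ℝ) ≤ K₃ * K * P * wd' μ s j :=
         h2.trans (mul_le_mul_of_nonneg_right (mul_le_mul_of_nonneg_left h5 (mul_nonneg (zero_le_one.trans hK₃) (zero_le_one.trans hK))) (zero_le_one.trans hwj))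
       have k3 : (2 * K + 5 * (K₃ * K)) * (P * wd' μ s j) ≤ P * (P * wd' μ s j) := mul_le_mul_of_nonneg_right q8 (by positivity)
       show (n : ℝ) ^ εs * wd' μ s i + 2 * ((x : ℤ) : ℝ) + 2 * w + hh ≤ (n : ℝ) ^ ρ * wd' μ s j
       rw [← h6, Int.cast_natCast]
       exact num_cone61 k1 k2 hwx h3 k3
     · -- the mesh
       have h1 : (n : ℝ) ^ εs ≤ (n : ℝ) ^ (δ * a / 8) := Real.rpow_le_rpow_of_exponent_le hn1 hεs3
       have h2 : (n : ℝ) ^ (δ * a / 8) * (n : ℝ) ^ (δ * a / 8) = (n : ℝ) ^ (δ * a / 4) := by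
         rw [← Real.rpow_add hn0]
         congr 1
         ring
       obtain ⟨P, hP⟩ : ∃ P : ℝ, P = (n : ℝ) ^ (δ * a / 8) := ⟨_, rfl⟩
       have hP0 : 0 < P := by rw [hP]; positivity
       rw [← h2, ← hP] at ho2
       rw [← hP] at h1 q7
       rw [← hP]
       have h3 : (n : ℝ) ^ εs * (K * wd' μ s hh) ≤ P * (K * wd' μ s hh) :=
         mul_le_mul_of_nonneg_right h1 (mul_nonneg (zero_le_one.trans hK) (zero_le_one.trans hwhh))
       have h4 : 2 * K * (P * wd' μ s hh) ≤ P * (P * wd' μ s hh) := mul_le_mul_of_nonneg_right q7 (by positivity)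
       exact num_mesh61 h3 h4 ho2
    rcases hkey with h1 | h1
    · left
      rw [mem_Good, dp_false]
      exact ⟨mem_Pths' hS, h1⟩
    · right
      rw [mem_Good, dp_true]
      exact ⟨mem_Pths' hS', h1⟩
  have hcore := step_core (μ := μ) (s := s) h.em (n := n) (x := (x : ℤ)) (by exact_mod_cast hx1) (w := w) q3 (t0 := t0) (hh := hh) (K := Kw)
    (m := m) (o := (o : ℤ)) (ε := εs) (A' := A')
    (fac := κ * (hh * (n : ℝ) ^ (-(1 / ((m - 1 : ℕ) : ℝ)))) / (((m - 1 : ℕ) : ℝ) * (n : ℝ) ^ (δ * a / 16) * √((hh * w : ℕ) : ℝ)))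
    (ν := (n : ℝ)⁻¹) (τ := Cg * (n : ℝ) ^ 5 * √((hh * w : ℕ) : ℝ) * Real.exp (-((n : ℝ) ^ (δ * a / 16)) ^ 2)) hA0 (by positivity)
    (fun a' ha' => by
      obtain ⟨g1, g2⟩ := hgain n (by omega) a' (ha'.trans hA2) x (by exact_mod_cast hx1) w q3
      exact ⟨g1, g2 t0 hh Kw m o ((n : ℝ) ^ (δ * a / 16)) n hT0a hh2 (by omega) hm2 (by exact_mod_cast ho1) hu1 hn1 hKwn⟩)
    (B ∪ Bs) mExc vExc hdet (by linarith) hτ hfac50
  push_cast
  exact hcore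

/-- **STEP.** -/
theorem step [IsProbabilityMeasure μ] {c C : ℝ} {n₀ : ℕ} (h : In μ s c C n₀) {δ : ℝ} (hδ : 0 < δ) (hδ1 : δ ≤ 1 / 10) :
    ∃ n₁ : ℕ, ∀ n : ℕ, n₁ ≤ n → ∃ w : ℕ, 1 ≤ w ∧ (w : ℝ) ≤ (n : ℝ) ^ (2 * δ) ∧ ∀ x : ℕ, (n : ℝ) ^ (3 * δ) ≤ x →
      ((x + w : ℕ) : ℝ) ≤ (n : ℝ) ^ (-δ) * wd' μ s n →
      ∫ η, (V μ s η (0, (x : ℤ)) n - V μ s η 0 n) ^ 2 ∂(law μ) + 1 ≤ ∫ η, (V μ s η (0, ((x + w : ℕ) : ℤ)) n - V μ s η 0 n) ^ 2 ∂(law μ) :=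
  step_of h (nsf14 h) (fun _ hδ' => bdd14_of h (nsf14 h) hδ') hδ hδ1

end

end Pool.Agent.W_7d29a1_LB
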