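import Pool.Agent.W_7d29a1_LB.Lev41

/-!
STORM LB (MP_7d29a1_pr, row 671), Step: the integral over the levels of the lower bound of the gain. (helper61)
-/

set_option autoImplicit false

namespace Pool.Agent.W_7d29a1_LB

open MeasureTheory

variable {Ω X : Type*} [MeasurableSpace Ω] [MeasurableSpace X] {P : Measure X} [IsProbabilityMeasure P] {Q : Measure Ω}
  [IsProbabilityMeasure Q]

/-- The exceptional levels. -/
theorem exc_int {N : Set (ℝ × Ω)} (hN : MeasurableSet N) {ν : ℝ}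
    (hν : ∀ ω, volume {a | (a, ω) ∈ N} ≤ ENNReal.ofReal ν) (hν0 : 0 ≤ ν) (A : ℝ) :
    IntegrableOn (fun a => Q.real {ω | (a, ω) ∈ N}) (Set.Icc (-A) A) ∧
      ∫ a in Set.Icc (-A) A, Q.real {ω | (a, ω) ∈ N} ≤ ν := by
  have hm : Measurable fun a : ℝ => Q {ω | (a, ω) ∈ N} := measurable_measure_prodMk_left hN
  have hfin : volume (Set.Icc (-A) A) ≠ ⊤ := by
    rw [Real.volume_Icc]
    exact ENNReal.ofReal_ne_top
  have hi : IntegrableOn (fun a => Q.real {ω | (a, ω) ∈ N}) (Set.Icc (-A) A) := by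
    refine IntegrableOn.of_bound (lt_top_iff_ne_top.2 hfin) (hm.ennreal_toReal).aestronglyMeasurable 1
      (Filter.Eventually.of_forall fun a => ?_)
    rw [Real.norm_eq_abs, abs_of_nonneg measureReal_nonneg]
    exact measureReal_le_one
  refine ⟨hi, ?_⟩
  have h1 : ∫ a in Set.Icc (-A) A, Q.real {ω | (a, ω) ∈ N} = (∫⁻ a in Set.Icc (-A) A, Q {ω | (a, ω) ∈ N}).toReal := by
    rw [integral_eq_lintegral_of_nonneg_ae (Filter.Eventually.of_forall fun a => measureReal_nonneg)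
      (hm.ennreal_toReal).aestronglyMeasurable]
    congr 1
    refine lintegral_congr fun a => ?_
    rw [ofReal_measureReal]
  have h2 : ∫⁻ a in Set.Icc (-A) A, Q {ω | (a, ω) ∈ N} ≤ ENNReal.ofReal ν := by
    calc ∫⁻ a in Set.Icc (-A) A, Q {ω | (a, ω) ∈ N} ≤ ∫⁻ a, Q {ω | (a, ω) ∈ N} := lintegral_mono' Measure.restrict_le_self le_rfl
      _ = (volume.prod Q) N := (Measure.prod_apply hN).symm
      _ = ∫⁻ ω, volume {a | (a, ω) ∈ N} ∂Q := Measure.prod_apply_symm hN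
      _ ≤ ∫⁻ _ω, ENNReal.ofReal ν ∂Q := lintegral_mono hν
      _ = ENNReal.ofReal ν := by rw [lintegral_const, measure_univ, mul_one]
  rw [h1]
  exact ENNReal.toReal_le_of_le_ofReal hν0 h2

/-- **The integral over the levels of the lower bound of the gain.** -/
theorem fub61 {B g : X → ℝ} (hB : Measurable B) (hg : Measurable g) (hg0 : ∀ x, 0 ≤ g x) (hg1 : ∀ x, g x ≤ 1)
    {N : Set (ℝ × Ω)} (hN : MeasurableSet N) {ν : ℝ} (hν : ∀ ω, volume {a | (a, ω) ∈ N} ≤ ENNReal.ofReal ν) (hν0 : 0 ≤ ν)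
    {A fac θ τ : ℝ} (hA : 0 ≤ A) (hfac : 0 ≤ fac) :
    IntervalIntegrable (fun a => fac * ((1 / 4) * ∫ x, (if |B x - a| ≤ 1 then 1 - g x else 0) ∂P - θ - Q.real {ω | (a, ω) ∈ N}) - τ)
      volume (-A) A ∧
    fac * ((1 / 2) - (1 / 2) * ∫ x, g x ∂P - (1 / 2) * P.real {x | A - 1 < |B x|} - 2 * A * θ - ν) - 2 * A * τ ≤
      ∫ a in (-A)..A, (fac * ((1 / 4) * ∫ x, (if |B x - a| ≤ 1 then 1 - g x else 0) ∂P - θ - Q.real {ω | (a, ω) ∈ N}) - τ) := by
  have hAA : -A ≤ A := by linarith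
  have i1 := lev_integrable (P := P) hB (f := fun x => 1 - g x) (measurable_const.sub hg)
    (fun x => by linarith [hg1 x]) (fun x => by linarith [hg0 x]) A
  have l1 := lev_main (P := P) hB hg hg0 hg1 A
  obtain ⟨i2, l2⟩ := exc_int (Q := Q) hN hν hν0 A
  have hfin : volume (Set.Icc (-A) A) ≠ ⊤ := by
    rw [Real.volume_Icc]
    exact ENNReal.ofReal_ne_top
  have ic : ∀ r : ℝ, IntegrableOn (fun _ : ℝ => r) (Set.Icc (-A) A) := fun r => integrableOn_const hfin
  have hc : ∀ r : ℝ, ∫ _a in Set.Icc (-A) A, r = 2 * A * r := fun r => by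
    rw [setIntegral_const, smul_eq_mul, Measure.real, Real.volume_Icc, ENNReal.toReal_ofReal (by linarith)]
    ring
  have i3 := (((i1.const_mul (1 / 4)).sub (ic θ)).sub i2)
  have i4 := (i3.const_mul fac).sub (ic τ)
  have i4' : IntegrableOn (fun a => fac * ((1 / 4) * ∫ x, (if |B x - a| ≤ 1 then 1 - g x else 0) ∂P - θ -
      Q.real {ω | (a, ω) ∈ N}) - τ) (Set.Icc (-A) A) := i4
  refine ⟨?_, ?_⟩
  · rw [intervalIntegrable_iff_integrableOn_Icc_of_le hAA]
    exact i4'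
  · rw [intervalIntegral.integral_of_le hAA, ← integral_Icc_eq_integral_Ioc]
    have e1 : ∫ a in Set.Icc (-A) A, (fac * ((1 / 4) * ∫ x, (if |B x - a| ≤ 1 then 1 - g x else 0) ∂P - θ -
        Q.real {ω | (a, ω) ∈ N}) - τ) =
        fac * ((1 / 4) * (∫ a in Set.Icc (-A) A, (∫ x, (if |B x - a| ≤ 1 then 1 - g x else 0) ∂P)) - 2 * A * θ -
          ∫ a in Set.Icc (-A) A, Q.real {ω | (a, ω) ∈ N}) - 2 * A * τ := by
      have s1 := integral_sub (μ := volume.restrict (Set.Icc (-A) A)) (i3.const_mul fac) (ic τ)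
      have s2 := integral_sub (μ := volume.restrict (Set.Icc (-A) A)) ((i1.const_mul (1 / 4)).sub (ic θ)) i2
      have s3 := integral_sub (μ := volume.restrict (Set.Icc (-A) A)) (i1.const_mul (1 / 4)) (ic θ)
      simp only [Pi.sub_apply] at s1 s2 s3
      rw [integral_const_mul] at s1 s3
      rw [hc] at s1 s3
      rw [s1, s2, s3]
    rw [e1]
    have h2 : fac * ((1 / 2) - (1 / 2) * ∫ x, g x ∂P - (1 / 2) * P.real {x | A - 1 < |B x|} - 2 * A * θ - ν) ≤
        fac * ((1 / 4) * (∫ a in Set.Icc (-A) A, (∫ x, (if |B x - a| ≤ 1 then 1 - g x else 0) ∂P)) - 2 * A * θ -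
          ∫ a in Set.Icc (-A) A, Q.real {ω | (a, ω) ∈ N}) := mul_le_mul_of_nonneg_left (by linarith) hfac
    linarith

end Pool.Agent.W_7d29a1_LB
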