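import Pool.Agent.W_7d29a1_LB.StepLv
import Pool.Agent.W_7d29a1_LB.StepFub
import Pool.Agent.W_7d29a1_LB.GainB
import Pool.Agent.W_7d29a1_LB.IdentM

/-!
STORM LB (MP_7d29a1_pr, row 671), Step at one scale: from the gain, the identity and the deterministic part. (helper61)
-/

set_option autoImplicit false

namespace Pool.Agent.W_7d29a1_LB

open MeasureTheory ProbabilityTheory Finset
open Pool.Agent.W_7d29a1_F Pool.Agent.W_7d29a1_X
open Pool.Agent.W_7d29a1_HZ (NSp)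

noncomputable section

variable {μ : Measure ℝ} {s : ℝ}

/-- `GA` of Gain is `GB`. -/
theorem GA_eq_GB (a : ℝ) (z : ℤ) (η : Env) (n : ℕ) {A : Finset (Bool × Finset ℕ)} (hA : A ⊆ Pths n) :
    GA μ s a z η n A = GB μ s η z n a (fun S => @ite ℝ ((false, S) ∈ A) (Classical.propDecidable _) 1 0)
      (fun S => @ite ℝ ((true, S) ∈ A) (Classical.propDecidable _) 1 0) := by
  rw [GA_eq a z η n hA]
  unfold GB
  have e1 : psi μ s η 0 n = Real.exp (V μ s η 0 n) := by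
    rw [← Real.exp_log (psi_pos η 0 n), log_psi]
    rfl
  have e2 : psi μ s η z n = Real.exp (V μ s η (0, z) n) := by rw [← Real.exp_log (psi_pos η z n), log_psi]
  rw [e1, e2]
  have e3 : ∀ (b : Bool) (f : Finset ℕ → ℝ), ∑ S ∈ (range n).powerset, f S * @ite ℝ ((b, S) ∈ A) (Classical.propDecidable _) 1 0 =
      ∑ S ∈ (range n).powerset, if (b, S) ∈ A then f S else 0 := fun b f => by
    refine sum_congr rfl fun S _ => ?_
    by_cases h : (b, S) ∈ A
    · rw [if_pos h, if_pos h, mul_one]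
    · rw [if_neg h, if_neg h, mul_zero]
  rw [e3 false, e3 true]
  ring

/-- **Step at one scale.** -/
theorem step_core [IsProbabilityMeasure μ] (hEM : Pool.Agent.W_7d29a1_h47.EM μ) {n : ℕ} {x : ℤ} (hx : 1 ≤ x) {w : ℕ} (hw : 1 ≤ w)
    {t0 hh K m : ℕ} {o : ℤ} {ε A' fac ν τ : ℝ} (hA0 : 0 ≤ A') (hν0 : 0 ≤ ν)
    (hgain : ∀ a : ℝ, |a| ≤ A' →
      Integrable (fun v : Env × Env => Real.log (Zt μ s (ins (seam v.1 (a + s * x) x) w v.1 v.2) (x + w) n a / Z0 μ s v.1 x n a))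
        ((law μ).prod (law μ)) ∧
      fac * ∫ v : Env × Env, GA μ s a (x + w) (ins (seam v.1 (a + s * x) x) w v.1 v.2) n
          (Good (seam v.1 (a + s * x) x) w (x + w) n t0 hh K m o) ∂((law μ).prod (law μ)) ≤
        ∫ v : Env × Env, Real.log (Zt μ s (ins (seam v.1 (a + s * x) x) w v.1 v.2) (x + w) n a / Z0 μ s v.1 x n a)
          ∂((law μ).prod (law μ)) + τ)
    (Ω₀ : Set Env) {N : Set (ℝ × Env)} (hN : MeasurableSet N) (hν : ∀ om, volume {a | (a, om) ∈ N} ≤ ENNReal.ofReal ν)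
    (hdet : ∀ a : ℝ, |a| ≤ A' → ∀ ω, ω ∉ Ω₀ → (a, ω) ∉ N → ∀ S S' : Finset ℕ, S ⊆ range n → S' ⊆ range n →
      NSp μ s n n ε S → NSp μ s n n ε S' → (∃ i ≤ n / 2, x + w + pos S' i ≤ pos S i) →
      (false, S) ∈ Good (seam ω (a + s * x) x) w (x + w) n t0 hh K m o ∨
        (true, S') ∈ Good (seam ω (a + s * x) x) w (x + w) n t0 hh K m o)
    (hnum : 1 / 4 ≤ 1 / 2 - (1 / 2) * ∫ η, fb μ s (x + w) n ε η ∂(law μ) -
      (1 / 2) * (law μ).real {η | A' - 1 < |Bd μ s (x + w) n η|} - 2 * A' * (law μ).real Ω₀ - ν)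
    (hτ : 2 * A' * τ ≤ 1) (hfac : 50 ≤ fac) :
    ∫ η, (V μ s η (0, x) n - V μ s η 0 n) ^ 2 ∂(law μ) + 1 ≤ ∫ η, (V μ s η (0, x + w) n - V μ s η 0 n) ^ 2 ∂(law μ) := by
  classical
  obtain ⟨ik, hk⟩ := fub61 (P := law μ) (Q := law μ) (measurable_Bd (μ := μ) (s := s) (x + w) n)
    (measurable_gb (μ := μ) (s := s) (x + w) n ε) (gb_nonneg (x + w) n ε) (gb_le_one (x + w) n ε) hN hν hν0
    (A := A') (fac := fac) (θ := (law μ).real Ω₀) (τ := τ) hA0 (by linarith)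
  have hid := identM (μ := μ) hEM s n hx hw hA0 ik (fun a ha => ?_)
  · have h1 := integral_gb_le (μ := μ) (s := s) (x + w) n ε
    have h2 : fac * (1 / 4) ≤ fac * ((1 / 2) - (1 / 2) * ∫ η, gb μ s (x + w) n ε η ∂(law μ) -
        (1 / 2) * (law μ).real {η | A' - 1 < |Bd μ s (x + w) n η|} - 2 * A' * (law μ).real Ω₀ - ν) :=
      mul_le_mul_of_nonneg_left (by linarith) (by linarith)
    linarith
  · obtain ⟨hi, hg⟩ := hgain a ha
    have h1 := level_ge (μ := μ) (s := s) (x := x) (w := w) (n := n) (ε := ε) (a := a)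
      (fun ω S => (false, S) ∈ Good (seam ω (a + s * x) x) w (x + w) n t0 hh K m o)
      (fun ω S => (true, S) ∈ Good (seam ω (a + s * x) x) w (x + w) n t0 hh K m o) Ω₀ {ω | (a, ω) ∈ N}
      (fun ω h1 h2 S S' => hdet a ha ω h1 h2 S S')
      (int_GA (μ := μ) (s := s) a x w n t0 hh K m o) (fun v => GA_eq_GB a (x + w) _ n (Good_subset _ _ _ _ _ _ _ _ _))
    have h2 := mul_le_mul_of_nonneg_left h1 (show 0 ≤ fac by linarith)
    have h3 : ∫ v : Env × Env, Real.log (Zt μ s (ins (seam v.1 (a + s * x) x) w v.1 v.2) (x + w) n a / Z0 μ s v.1 x n a)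
          ∂((law μ).prod (law μ)) = ∫ v : Env × Env, (Real.log (Zt μ s (ins (seam v.1 (a + s * x) x) w v.1 v.2) (x + w) n a) -
            Real.log (Z0 μ s v.1 x n a)) ∂((law μ).prod (law μ)) :=
      integral_congr_ae (Filter.Eventually.of_forall fun v => Real.log_div (Zt_pos _ _ _ _).ne' (Z0_pos _ _ hx _).ne')
    rw [← h3]
    have h4 : fac * ((1 / 4) * ∫ η, (if |Bd μ s (x + w) n η - a| ≤ 1 then 1 - gb μ s (x + w) n ε η else 0) ∂(law μ) -
        (law μ).real Ω₀ - (law μ).real {ω | (a, ω) ∈ N}) ≤ fac * ∫ v : Env × Env, GA μ s a (x + w)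
          (ins (seam v.1 (a + s * x) x) w v.1 v.2) n (Good (seam v.1 (a + s * x) x) w (x + w) n t0 hh K m o)
            ∂((law μ).prod (law μ)) := h2
    linarith

end

end Pool.Agent.W_7d29a1_LB
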