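import Pool.Agent.W_7d29a1_LB.Depth

/-!
STORM LB (MP_7d29a1_pr, row 671), Step, deterministic part: two paths on the two sides of the strip which meet; one of them is
regular and reaches the middle line of the strip. (helper61)
-/

open Finset

namespace Pool.Agent.W_7d29a1_LB

/-- The depth in the strip. -/
def dpt (q : ℕ → ℤ) (w : ℕ) (X : ℕ → ℤ) (i : ℕ) : ℤ := min (X i - q i + 1) (q i + w - X i)

/-- Steps `0` or `1`. -/
def St1 (q : ℕ → ℤ) : Prop := ∀ i, q i ≤ q (i + 1) ∧ q (i + 1) ≤ q i + 1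

theorem St1.mono {q : ℕ → ℤ} (hq : St1 q) {i j : ℕ} (hij : i ≤ j) : q i ≤ q j ∧ q j ≤ q i + (j - i : ℕ) := by
  induction j, hij using Nat.le_induction with
  | base => simp
  | succ j hij ih =>
    obtain ⟨h1, h2⟩ := hq j
    have : j + 1 - i = (j - i) + 1 := by omega
    rw [this]
    push_cast
    constructor <;> omega

/-- The discrete intermediate value theorem. -/
theorem ivt {f : ℕ → ℤ} (hf : ∀ i, f (i + 1) ≤ f i + 1) {a b : ℕ} (hab : a ≤ b) {c : ℤ} (ha : f a ≤ c) (hb : c ≤ f b) :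
    ∃ i, a ≤ i ∧ i ≤ b ∧ f i = c := by
  induction b, hab using Nat.le_induction with
  | base => exact ⟨a, le_rfl, le_rfl, le_antisymm ha hb⟩
  | succ b hab ih =>
    by_cases h : c ≤ f b
    · obtain ⟨i, h1, h2, h3⟩ := ih h
      exact ⟨i, h1, by omega, h3⟩
    · have := hf b
      exact ⟨b + 1, by omega, le_rfl, by omega⟩

theorem ivt' {f : ℕ → ℤ} (hf : ∀ i, f i ≤ f (i + 1) + 1) {a b : ℕ} (hab : a ≤ b) {c : ℤ} (ha : c ≤ f a) (hb : f b ≤ c) :
    ∃ i, a ≤ i ∧ i ≤ b ∧ f i = c := by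
  obtain ⟨i, h1, h2, h3⟩ := ivt (f := fun i => -f i) (fun i => by have := hf i; omega) hab (c := -c) (by omega) (by omega)
  exact ⟨i, h1, h2, by omega⟩

/-- A path which reaches the middle line reaches the depth `m * o`. -/
theorem reach_of {q X : ℕ → ℤ} {w h t0 K m o n i : ℕ} (hh : 1 ≤ h) (hw : w = 2 * ((m + 1) * o)) (hK : n / 2 < t0 + K * h)
    (hi0 : t0 ≤ i) (hi1 : i ≤ n / 2) (hi : X i - q i = ((m + 1) * o : ℕ)) :
    ∃ k < K, ∃ j ∈ win t0 h k, (m : ℤ) * (o : ℤ) ≤ dpt q w X j := by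
  have h1 : i - t0 < K * h := by omega
  refine ⟨(i - t0) / h, (Nat.div_lt_iff_lt_mul (by omega)).2 h1, i, ?_, ?_⟩
  · unfold win
    rw [Finset.mem_Ico]
    have h2 := Nat.div_add_mod (i - t0) h
    have h3 := Nat.mod_lt (i - t0) (show 0 < h by omega)
    have h4 : (i - t0) / h * h = h * ((i - t0) / h) := mul_comm _ _
    have h5 : ((i - t0) / h + 1) * h = h * ((i - t0) / h) + h := by ring
    rw [h4, h5]
    omega
  · unfold dpt
    have e1 : ((w : ℕ) : ℤ) = 2 * ((m + 1) * o) := by rw [hw]; push_cast; ring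
    have e2 : (((m + 1) * o : ℕ) : ℤ) = (m + 1) * o := by push_cast; ring
    rw [e2] at hi
    have e3 : (0 : ℤ) ≤ (o : ℤ) := by positivity
    refine le_min ?_ ?_
    · nlinarith
    · rw [e1]
      nlinarith

/-- Two paths on the two sides of the strip which meet later: one of them reaches the middle line. -/
theorem reach_pair {q X X' : ℕ → ℤ} {w h t0 K m o n : ℕ} (hq : St1 q) (hX : St1 X) (hX' : St1 X') (hh : 1 ≤ h)
    (hw : w = 2 * ((m + 1) * o)) (hK : n / 2 < t0 + K * h) (hs1 : X t0 ≤ q t0) (hs2 : q t0 + w ≤ X' t0)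
    (hs3 : ∀ i ≤ t0, X i < X' i) (hmeet : ∃ i ≤ n / 2, X' i ≤ X i) :
    (∃ k < K, ∃ j ∈ win t0 h k, (m : ℤ) * (o : ℤ) ≤ dpt q w X j) ∨
    (∃ k < K, ∃ j ∈ win t0 h k, (m : ℤ) * (o : ℤ) ≤ dpt q w X' j) := by
  obtain ⟨j, hj, hm⟩ := hmeet
  have hj0 : t0 ≤ j := by
    by_contra h1
    have := hs3 j (by omega)
    omega
  by_cases h1 : X' j - q j ≤ (((m + 1) * o : ℕ) : ℤ)
  · right
    obtain ⟨i, h2, h3, h4⟩ := ivt' (f := fun i => X' i - q i) (fun i => by
      have := (hX' i).1; have := (hq i).2; show X' i - q i ≤ X' (i + 1) - q (i + 1) + 1; omega) hj0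
      (c := (((m + 1) * o : ℕ) : ℤ)) (by
        show (((m + 1) * o : ℕ) : ℤ) ≤ X' t0 - q t0
        rw [hw] at hs2
        push_cast at hs2 ⊢
        have : (0 : ℤ) ≤ ((m : ℤ) + 1) * o := by positivity
        linarith) h1
    exact reach_of hh hw hK h2 (h3.trans hj) h4
  · left
    obtain ⟨i, h2, h3, h4⟩ := ivt (f := fun i => X i - q i) (fun i => by
      have := (hX i).2; have := (hq i).1; show X (i + 1) - q (i + 1) ≤ X i - q i + 1; omega) hj0
      (c := (((m + 1) * o : ℕ) : ℤ)) (by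
        show X t0 - q t0 ≤ (((m + 1) * o : ℕ) : ℤ)
        have : (0 : ℤ) ≤ (((m + 1) * o : ℕ) : ℤ) := by positivity
        linarith) (by show (((m + 1) * o : ℕ) : ℤ) ≤ X j - q j; omega)
    exact reach_of hh hw hK h2 (h3.trans hj) h4

/-- The path is regular with respect to the seam, from the increments of both. -/
theorem dreg_of {sl ρX ρq z x : ℝ} {q X : ℕ → ℤ} {w h t0 K n : ℕ} {o : ℤ} {c1 c2 : ℕ → ℝ} (hsl0 : 0 ≤ sl) (hsl1 : sl ≤ 1)
    (hq : St1 q) (hKn : t0 + K * h ≤ n)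
    (hXr : ∀ i j : ℕ, t0 ≤ i → i ≤ j → j ≤ n → j ≤ i + h → |((X j : ℝ) - X i) - sl * ((j : ℝ) - i)| ≤ ρX)
    (hqr : ∀ i j : ℕ, t0 ≤ i → i ≤ j → j ≤ n → j ≤ i + h → |(q j : ℝ) - sl * j| ≤ c2 j → |(q j : ℝ) - x - sl * j| ≤ c2 j →
      |((q j : ℝ) - q i) - sl * ((j : ℝ) - i)| ≤ ρq)
    (hXc : ∀ i : ℕ, t0 ≤ i → i ≤ n → |(X i : ℝ) - z - sl * i| ≤ c1 i)
    (hc : ∀ i j : ℕ, t0 ≤ i → t0 ≤ j → i ≤ j + h → j ≤ i + h → j ≤ n → i ≤ n → c1 i + |z| + w + |x| + h ≤ c2 j)
    (ho : ρX + ρq ≤ o) : DReg (dpt q w X) t0 h K o := by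
  intro k hk i hi j hj hpos
  unfold win at hi hj
  rw [Finset.mem_Ico] at hi hj
  have hk1 : (k + 1) * h ≤ K * h := Nat.mul_le_mul_right _ hk
  have hkh : (k + 1) * h = k * h + h := by ring
  rw [hkh] at hi hj hk1
  have hi0 : t0 ≤ i := by omega
  have hj0 : t0 ≤ j := by omega
  have hin : i ≤ n := by omega
  have hjn : j ≤ n := by omega
  have hij : i ≤ j + h := by omega
  have hji : j ≤ i + h := by omega
  unfold dpt at hpos ⊢
  have hp1 : q i ≤ X i := by have := lt_of_lt_of_le hpos (min_le_left _ _); omega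
  have hp2 : X i < q i + w := by have := lt_of_lt_of_le hpos (min_le_right _ _); omega
  have hp1' : (q i : ℝ) ≤ X i := by exact_mod_cast hp1
  have hp2' : (X i : ℝ) ≤ q i + w := by exact_mod_cast hp2.le
  -- the seam is in the cone at the row `i`
  have hci := hXc i hi0 hin
  have hqi : |(q i : ℝ) - sl * i| ≤ c1 i + |z| + w := by
    rw [abs_le] at hci ⊢
    have h1 := neg_abs_le z
    have h2 := le_abs_self z
    have h3 : (0 : ℝ) ≤ w := Nat.cast_nonneg _
    constructor <;> linarith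
  -- the seam at the larger row
  have cone : ∀ l : ℕ, t0 ≤ l → l ≤ n → i ≤ l + h → l ≤ i + h → |(q l : ℝ) - sl * l| ≤ c1 i + |z| + w + h := by
    intro l hl0 hln hil hli
    have hd : |((q l : ℝ) - q i) - sl * ((l : ℝ) - i)| ≤ h := by
      rcases le_total i l with h1 | h1
      · obtain ⟨h2, h3⟩ := hq.mono h1
        have h2' : (q i : ℝ) ≤ q l := by exact_mod_cast h2
        have h3' : (q l : ℝ) ≤ q i + ((l - i : ℕ) : ℝ) := by exact_mod_cast h3
        rw [Nat.cast_sub h1] at h3'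
        have h4 : (l : ℝ) - i ≤ h := by
          have : (l : ℝ) ≤ i + h := by exact_mod_cast hli
          linarith
        have h5 : (0 : ℝ) ≤ (l : ℝ) - i := by
          have : (i : ℝ) ≤ l := by exact_mod_cast h1
          linarith
        have h6 : sl * ((l : ℝ) - i) ≤ (l : ℝ) - i := by nlinarith
        have h7 : 0 ≤ sl * ((l : ℝ) - i) := mul_nonneg hsl0 h5
        rw [abs_le]
        constructor <;> linarith
      · obtain ⟨h2, h3⟩ := hq.mono h1
        have h2' : (q l : ℝ) ≤ q i := by exact_mod_cast h2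
        have h3' : (q i : ℝ) ≤ q l + ((i - l : ℕ) : ℝ) := by exact_mod_cast h3
        rw [Nat.cast_sub h1] at h3'
        have h4 : (i : ℝ) - l ≤ h := by
          have : (i : ℝ) ≤ l + h := by exact_mod_cast hil
          linarith
        have h5 : (0 : ℝ) ≤ (i : ℝ) - l := by
          have : (l : ℝ) ≤ i := by exact_mod_cast h1
          linarith
        have h6 : sl * ((i : ℝ) - l) ≤ (i : ℝ) - l := by nlinarith
        have h7 : 0 ≤ sl * ((i : ℝ) - l) := mul_nonneg hsl0 h5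
        rw [abs_le]
        constructor <;> linarith
    rw [abs_le] at hd hqi ⊢
    constructor <;> linarith
  have hcone2 : ∀ l : ℕ, t0 ≤ l → l ≤ n → i ≤ l + h → l ≤ i + h →
      |(q l : ℝ) - sl * l| ≤ c2 l ∧ |(q l : ℝ) - x - sl * l| ≤ c2 l := by
    intro l hl0 hln hil hli
    have h1 := cone l hl0 hln hil hli
    have h2 := hc i l hi0 hl0 hil hli hln hin
    have h3 := neg_abs_le x
    have h4 := le_abs_self x
    have h5 := abs_nonneg x
    constructor
    · linarith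
    · rw [abs_le] at h1 ⊢
      constructor <;> linarith
  have key : |(((X j - q j : ℤ) : ℝ)) - ((X i - q i : ℤ) : ℝ)| ≤ o := by
    push_cast
    rcases le_total i j with h1 | h1
    · have h2 := hXr i j hi0 h1 hjn hji
      obtain ⟨h3, h4⟩ := hcone2 j hj0 hjn hij hji
      have h5 := hqr i j hi0 h1 hjn hji h3 h4
      rw [abs_le] at h2 h5 ⊢
      constructor <;> linarith
    · have h2 := hXr j i hj0 h1 hin hij
      obtain ⟨h3, h4⟩ := hcone2 i hi0 hin (by omega) (by omega)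
      have h5 := hqr j i hj0 h1 hin hij h3 h4
      rw [abs_le] at h2 h5 ⊢
      constructor <;> linarith
  have key' : |(X j - q j) - (X i - q i)| ≤ o := by
    have : ((|(X j - q j) - (X i - q i)| : ℤ) : ℝ) ≤ (o : ℝ) := by push_cast; push_cast at key; exact key
    exact_mod_cast this
  rw [abs_le] at key'
  obtain ⟨k1, k2⟩ := key'
  have a1 : min (X i - q i + 1) (q i + w - X i) ≤ X i - q i + 1 := min_le_left _ _
  have a2 : min (X i - q i + 1) (q i + w - X i) ≤ q i + w - X i := min_le_right _ _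
  rcases min_choice (X j - q j + 1) (q j + w - X j) with h1 | h1
  · rw [h1]; omega
  · rw [h1]; omega

end Pool.Agent.W_7d29a1_LB
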