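import Pool.Agent.W_7d29a1_LB.StepPw

/-!
STORM LB (MP_7d29a1_pr, row 671), Step: the lower bound of the gain at a single level, from the gain at every environment. (helper61)
-/

set_option autoImplicit false

namespace Pool.Agent.W_7d29a1_LB

open MeasureTheory ProbabilityTheory Finset
open Pool.Agent.W_7d29a1_F Pool.Agent.W_7d29a1_X
open Pool.Agent.W_7d29a1_HZ (NSp)

noncomputable section

variable {μ : Measure ℝ} {s : ℝ}

/-- The difference of the free energies of the starts `(0, x)` and `(0, 0)`. -/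
def Bd (μ : Measure ℝ) (s : ℝ) (x : ℤ) (n : ℕ) (η : Env) : ℝ := V μ s η (0, x) n - V μ s η (0, 0) n

theorem measurable_Bd (x : ℤ) (n : ℕ) : Measurable fun η : Env => Bd μ s x n η :=
  (measurable_V (0, x) n).sub (measurable_V (0, 0) n)

/-- The small quenched probabilities, cut at `1`. -/
def gb (μ : Measure ℝ) (s : ℝ) (x : ℤ) (n : ℕ) (ε : ℝ) (η : Env) : ℝ := min 1 (fb μ s x n ε η)

theorem gb_nonneg (x : ℤ) (n : ℕ) (ε : ℝ) (η : Env) : 0 ≤ gb μ s x n ε η := le_min zero_le_one (fb_nonneg x n ε η)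

theorem gb_le_one (x : ℤ) (n : ℕ) (ε : ℝ) (η : Env) : gb μ s x n ε η ≤ 1 := min_le_left _ _

theorem measurable_gb (x : ℤ) (n : ℕ) (ε : ℝ) : Measurable fun η : Env => gb μ s x n ε η :=
  measurable_const.min (measurable_fb x n ε)

theorem integral_gb_le [IsProbabilityMeasure μ] (x : ℤ) (n : ℕ) (ε : ℝ) :
    ∫ η, gb μ s x n ε η ∂(law μ) ≤ ∫ η, fb μ s x n ε η ∂(law μ) := by
  refine integral_mono ?_ ?_ fun η => min_le_right _ _
  · refine Integrable.of_bound (measurable_gb x n ε).aestronglyMeasurable 1 (Filter.Eventually.of_forall fun η => ?_)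
    rw [Real.norm_eq_abs, abs_of_nonneg (gb_nonneg x n ε η)]
    exact gb_le_one x n ε η
  · refine Integrable.of_bound (measurable_fb x n ε).aestronglyMeasurable 3 (Filter.Eventually.of_forall fun η => ?_)
    rw [Real.norm_eq_abs, abs_of_nonneg (fb_nonneg x n ε η)]
    exact fb_le x n ε η

/-- The lower bound of the Gibbs measure, as a function of the environment. -/
def lw (μ : Measure ℝ) (s : ℝ) (x : ℤ) (n : ℕ) (ε a : ℝ) (η : Env) : ℝ :=
  if |Bd μ s x n η - a| ≤ 1 then 1 - gb μ s x n ε η else 0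

theorem measurableSet_lv (x : ℤ) (n : ℕ) (a : ℝ) : MeasurableSet {η : Env | |Bd μ s x n η - a| ≤ 1} :=
  measurableSet_le ((measurable_Bd x n).sub_const a).abs measurable_const

theorem measurable_lw (x : ℤ) (n : ℕ) (ε a : ℝ) : Measurable fun η : Env => lw μ s x n ε a η :=
  Measurable.ite (measurableSet_lv x n a) (measurable_const.sub (measurable_gb x n ε)) measurable_const

theorem lw_nonneg (x : ℤ) (n : ℕ) (ε a : ℝ) (η : Env) : 0 ≤ lw μ s x n ε a η := by
  unfold lw
  split_ifs
  · linarith [gb_le_one (μ := μ) (s := s) x n ε η]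
  · exact le_rfl

theorem lw_le_one (x : ℤ) (n : ℕ) (ε a : ℝ) (η : Env) : lw μ s x n ε a η ≤ 1 := by
  unfold lw
  split_ifs
  · linarith [gb_nonneg (μ := μ) (s := s) x n ε η]
  · exact zero_le_one

theorem integrable_lw [IsProbabilityMeasure μ] (x : ℤ) (n : ℕ) (ε a : ℝ) : Integrable (fun η : Env => lw μ s x n ε a η) (law μ) :=
  Integrable.of_bound (measurable_lw x n ε a).aestronglyMeasurable 1 (Filter.Eventually.of_forall fun η => by
    rw [Real.norm_eq_abs, abs_of_nonneg (lw_nonneg x n ε a η)]; exact lw_le_one x n ε a η)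

theorem measurable_GB (x : ℤ) (n : ℕ) (a : ℝ) (F F' : Finset ℕ → ℝ) : Measurable fun η : Env => GB μ s η x n a F F' := by
  unfold GB
  refine Measurable.div (Measurable.add (Measurable.mul (measurable_psi 0 n) (Finset.measurable_fun_sum _ fun S _ =>
    (Pool.Agent.W_7d29a1_HX.XT.measurable_GS n S).mul_const _)) (Measurable.mul ((measurable_psi x n).const_mul _)
    (Finset.measurable_fun_sum _ fun S _ => ((Pool.Agent.W_7d29a1_HX.XT.measurable_GS n S).comp (measurable_sh x)).mul_const _)))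
    (measurable_Zt x n a)

open Classical in
/-- At the good environments the Gibbs measure of the good paths is at least `lw / 4`. -/
theorem lw_le_GB (η : Env) (x : ℤ) (n : ℕ) (ε a : ℝ) (good good' : Finset ℕ → Prop)
    (hdet : ∀ S S' : Finset ℕ, S ⊆ range n → S' ⊆ range n → NSp μ s n n ε S → NSp μ s n n ε S' →
      (∃ i ≤ n / 2, x + pos S' i ≤ pos S i) → good S ∨ good' S') :
    (1 / 4) * lw μ s x n ε a η ≤ GB μ s η x n a (fun S => if good S then 1 else 0) (fun S => if good' S then 1 else 0) := by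
  have h0 : ∀ (g : Finset ℕ → Prop) (S : Finset ℕ), (0 : ℝ) ≤ (if g S then (1 : ℝ) else 0) := fun g S => by
    split_ifs <;> norm_num
  unfold lw
  by_cases h : |Bd μ s x n η - a| ≤ 1
  · rw [if_pos h]
    have h1 := pair_ge (μ := μ) (s := s) η x n ε good good' hdet
    have h2 := GB_nonneg (μ := μ) (s := s) η x n a (h0 good) (h0 good')
    have h3 := (mul_le_mul_of_nonneg_left h1 (by norm_num)).trans (GB_ge η x n a (h0 good) (h0 good') h)
    rcases min_choice 1 (fb μ s x n ε η) with h4 | h4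
    · unfold gb
      rw [h4, sub_self, mul_zero]
      exact h2
    · unfold gb
      rw [h4]
      exact h3
  · rw [if_neg h, mul_zero]
    exact GB_nonneg η x n a (h0 good) (h0 good')

open Classical in
/-- **The Gibbs measure of the good paths at a single level.** -/
theorem level_ge [IsProbabilityMeasure μ] {x : ℤ} {w n : ℕ} {ε a : ℝ} (good good' : Env → Finset ℕ → Prop) (Ω₀ Na : Set Env)
    (hdet : ∀ ω, ω ∉ Ω₀ → ω ∉ Na → ∀ S S' : Finset ℕ, S ⊆ range n → S' ⊆ range n → NSp μ s n n ε S → NSp μ s n n ε S' →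
      (∃ i ≤ n / 2, x + w + pos S' i ≤ pos S i) → good ω S ∨ good' ω S')
    {Gf : Env × Env → ℝ} (hGf : Integrable Gf ((law μ).prod (law μ)))
    (hGe : ∀ v, Gf v = GB μ s (ins (seam v.1 (a + s * x) x) w v.1 v.2) (x + w) n a
      (fun S => if good v.1 S then 1 else 0) (fun S => if good' v.1 S then 1 else 0)) :
    (1 / 4) * ∫ η, lw μ s (x + w) n ε a η ∂(law μ) - (law μ).real Ω₀ - (law μ).real Na ≤ ∫ v, Gf v ∂((law μ).prod (law μ)) := by
  have h0 : ∀ (g : Finset ℕ → Prop) (S : Finset ℕ), (0 : ℝ) ≤ (if g S then (1 : ℝ) else 0) := fun g S => by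
    split_ifs <;> norm_num
  have hmp := mp_ins_seam (μ := μ) (a + s * x) x w
  -- the lower bound as a function of the pair
  obtain ⟨Ψ, hΨ⟩ : ∃ Ψ : Env × Env → ℝ, Ψ = fun v => (1 / 4) * lw μ s (x + w) n ε a (ins (seam v.1 (a + s * x) x) w v.1 v.2) :=
    ⟨_, rfl⟩
  have iΨ : Integrable Ψ ((law μ).prod (law μ)) := by
    rw [hΨ]
    exact (hmp.integrable_comp_of_integrable (integrable_lw (x + w) n ε a)).const_mul _
  have eΨ : ∫ v, Ψ v ∂((law μ).prod (law μ)) = (1 / 4) * ∫ η, lw μ s (x + w) n ε a η ∂(law μ) := by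
    rw [hΨ, integral_const_mul]
    congr 1
    have h2 := integral_map (μ := (law μ).prod (law μ)) hmp.measurable.aemeasurable
      (f := fun η => lw μ s (x + w) n ε a η) (by rw [hmp.map_eq]; exact (measurable_lw (x + w) n ε a).aestronglyMeasurable)
    rw [hmp.map_eq] at h2
    exact h2.symm
  -- the bad environments
  obtain ⟨T, hT⟩ : ∃ T : Set Env, T = toMeasurable (law μ) (Ω₀ ∪ Na) := ⟨_, rfl⟩
  have mT : MeasurableSet T := by rw [hT]; exact measurableSet_toMeasurable _ _
  have hT1 : (law μ).real T ≤ (law μ).real Ω₀ + (law μ).real Na := by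
    have h2 : (law μ).real T = (law μ).real (Ω₀ ∪ Na) := by
      unfold Measure.real
      rw [hT, measure_toMeasurable]
    rw [h2]
    exact measureReal_union_le _ _
  have hTs : ∀ ω, ω ∉ T → ω ∉ Ω₀ ∧ ω ∉ Na := fun ω h => by
    rw [hT] at h
    have h2 : ω ∉ Ω₀ ∪ Na := fun h3 => h (subset_toMeasurable _ _ h3)
    exact ⟨fun h3 => h2 (Or.inl h3), fun h3 => h2 (Or.inr h3)⟩
  have hmp1 : MeasurePreserving (Prod.fst : Env × Env → Env) ((law μ).prod (law μ)) (law μ) := measurePreserving_fst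
  have mT' : MeasurableSet (Prod.fst ⁻¹' T : Set (Env × Env)) := measurable_fst mT
  have i4 : Integrable ((Prod.fst ⁻¹' T : Set (Env × Env)).indicator (fun _ => (1 : ℝ))) ((law μ).prod (law μ)) :=
    (integrable_const 1).indicator mT'
  have h5 : ∫ v, (Ψ v - (Prod.fst ⁻¹' T : Set (Env × Env)).indicator (fun _ => (1 : ℝ)) v) ∂((law μ).prod (law μ)) ≤
      ∫ v, Gf v ∂((law μ).prod (law μ)) := by
    refine integral_mono (iΨ.sub i4) hGf fun v => ?_
    show Ψ v - (Prod.fst ⁻¹' T : Set (Env × Env)).indicator (fun _ => (1 : ℝ)) v ≤ Gf v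
    rw [hΨ, hGe v]
    by_cases h : v.1 ∈ T
    · rw [Set.indicator_of_mem (show v ∈ Prod.fst ⁻¹' T from h)]
      have h1 := lw_le_one (μ := μ) (s := s) (x + w) n ε a (ins (seam v.1 (a + s * x) x) w v.1 v.2)
      have h2 := GB_nonneg (μ := μ) (s := s) (ins (seam v.1 (a + s * x) x) w v.1 v.2) (x + w) n a (h0 (good v.1)) (h0 (good' v.1))
      dsimp only
      linarith
    · rw [Set.indicator_of_notMem (show v ∉ Prod.fst ⁻¹' T from h), sub_zero]
      obtain ⟨h3, h4⟩ := hTs v.1 h
      exact lw_le_GB (ins (seam v.1 (a + s * x) x) w v.1 v.2) (x + w) n ε a (good v.1) (good' v.1) (hdet v.1 h3 h4)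
  rw [integral_sub iΨ i4, eΨ, integral_indicator_const _ mT', smul_eq_mul, mul_one] at h5
  have h6 : ((law μ).prod (law μ)).real (Prod.fst ⁻¹' T) = (law μ).real T := by
    unfold Measure.real
    rw [hmp1.measure_preimage mT.nullMeasurableSet]
  rw [h6] at h5
  linarith

end

end Pool.Agent.W_7d29a1_LB
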