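import Mathlib

/-!
STORM LB (MP_7d29a1_pr, row 671), Step, the numbers: the factor of the gain is a power of `n`. (helper61)
-/

set_option autoImplicit false

namespace Pool.Agent.W_7d29a1_LB

open Filter Topology

/-- The factor of the gain. -/
noncomputable def facN (κ u h w X : ℝ) (m : ℕ) : ℝ :=
  κ / (u * Real.sqrt (h * w)) * (h * X ^ (-(1 / ((m - 1 : ℕ) : ℝ)))) / ((m - 1 : ℕ) : ℝ)

theorem facN_large {κ δ a C : ℝ} (hκ : 0 < κ) (hδ : 0 < δ) (ha : 0 < a) (hC : 0 < C) {m : ℕ} (hm : 2 ≤ m)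
    (hm1 : 1 / ((m - 1 : ℕ) : ℝ) ≤ δ * a / 16) (M : ℝ) :
    ∀ᶠ n : ℕ in atTop, ∀ h w X : ℝ, (n : ℝ) ^ δ / 2 ≤ h → h ≤ (n : ℝ) ^ δ → 0 < w → w ≤ C * (n : ℝ) ^ (δ - 3 * δ * a / 4) →
      1 ≤ X → X ≤ n → M ≤ facN κ ((n : ℝ) ^ (δ * a / 16)) h w X m := by
  obtain ⟨q, hq⟩ : ∃ q : ℝ, q = ((m - 1 : ℕ) : ℝ) := ⟨_, rfl⟩
  have hq0 : 0 < q := by
    rw [hq]
    have : 0 < m - 1 := by omega
    exact_mod_cast this
  obtain ⟨c, hc⟩ : ∃ c : ℝ, c = κ / (2 * Real.sqrt C * q) := ⟨_, rfl⟩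
  have hsC : 0 < Real.sqrt C := Real.sqrt_pos.2 hC
  have hc0 : 0 < c := by rw [hc]; positivity
  have hδa : 0 < δ * a / 4 := by positivity
  have ht : Tendsto (fun n : ℕ => c * (n : ℝ) ^ (δ * a / 4)) atTop atTop :=
    ((tendsto_rpow_atTop hδa).comp tendsto_natCast_atTop_atTop).const_mul_atTop hc0
  filter_upwards [ht.eventually_ge_atTop M, eventually_ge_atTop 1] with n hn hn1 h w X h1 h2 hw hw1 hX1 hX2
  have hnR : (1 : ℝ) ≤ n := by exact_mod_cast hn1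
  have hn0 : (0 : ℝ) < n := by linarith
  refine hn.trans ?_
  unfold facN
  rw [← hq] at hm1 ⊢
  have hh0 : 0 < h := lt_of_lt_of_le (by positivity) h1
  -- the square root
  have e1 : Real.sqrt (h * w) ≤ Real.sqrt C * (n : ℝ) ^ (δ - 3 * δ * a / 8) := by
    have h3 : h * w ≤ C * ((n : ℝ) ^ (δ - 3 * δ * a / 8)) ^ 2 := by
      have e2 : ((n : ℝ) ^ (δ - 3 * δ * a / 8)) ^ 2 = (n : ℝ) ^ δ * (n : ℝ) ^ (δ - 3 * δ * a / 4) := by
        rw [← Real.rpow_natCast, ← Real.rpow_mul hn0.le, ← Real.rpow_add hn0]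
        congr 1
        push_cast
        ring
      rw [e2]
      calc h * w ≤ (n : ℝ) ^ δ * (C * (n : ℝ) ^ (δ - 3 * δ * a / 4)) := mul_le_mul h2 hw1 hw.le (by positivity)
        _ = _ := by ring
    calc Real.sqrt (h * w) ≤ Real.sqrt (C * ((n : ℝ) ^ (δ - 3 * δ * a / 8)) ^ 2) := Real.sqrt_le_sqrt h3
      _ = _ := by rw [Real.sqrt_mul hC.le, Real.sqrt_sq (by positivity)]
  have hs0 : 0 < Real.sqrt (h * w) := Real.sqrt_pos.2 (mul_pos hh0 hw)
  have e3 : (n : ℝ) ^ (-(δ * a / 16)) ≤ X ^ (-(1 / q)) := by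
    calc (n : ℝ) ^ (-(δ * a / 16)) ≤ (n : ℝ) ^ (-(1 / q)) := Real.rpow_le_rpow_of_exponent_le hnR (by linarith)
      _ ≤ X ^ (-(1 / q)) := Real.rpow_le_rpow_of_nonpos (by linarith) hX2 (by have : 0 < 1 / q := by positivity
                                                                              linarith)
  have e4 : κ / ((n : ℝ) ^ (δ * a / 16) * (Real.sqrt C * (n : ℝ) ^ (δ - 3 * δ * a / 8))) ≤
      κ / ((n : ℝ) ^ (δ * a / 16) * Real.sqrt (h * w)) :=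
    div_le_div_of_nonneg_left hκ.le (by positivity) (mul_le_mul_of_nonneg_left e1 (by positivity))
  have e5 : (n : ℝ) ^ δ / 2 * (n : ℝ) ^ (-(δ * a / 16)) ≤ h * X ^ (-(1 / q)) :=
    mul_le_mul h1 e3 (by positivity) hh0.le
  calc c * (n : ℝ) ^ (δ * a / 4) = κ / ((n : ℝ) ^ (δ * a / 16) * (Real.sqrt C * (n : ℝ) ^ (δ - 3 * δ * a / 8))) *
        ((n : ℝ) ^ δ / 2 * (n : ℝ) ^ (-(δ * a / 16))) / q := by
        rw [hc]
        have e6 : (n : ℝ) ^ (δ * a / 4) * ((n : ℝ) ^ (δ * a / 16) * (n : ℝ) ^ (δ - 3 * δ * a / 8)) =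
            (n : ℝ) ^ δ * (n : ℝ) ^ (-(δ * a / 16)) := by
          rw [← Real.rpow_add hn0, ← Real.rpow_add hn0, ← Real.rpow_add hn0]
          congr 1
          ring
        have p1 : 0 < (n : ℝ) ^ (δ * a / 16) := by positivity
        have p2 : 0 < (n : ℝ) ^ (δ - 3 * δ * a / 8) := by positivity
        revert e6 p1 p2
        generalize (n : ℝ) ^ (δ * a / 16) = P1
        generalize (n : ℝ) ^ (δ - 3 * δ * a / 8) = P2
        generalize (n : ℝ) ^ (δ * a / 4) = P3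
        generalize (n : ℝ) ^ (-(δ * a / 16)) = P4
        generalize (n : ℝ) ^ δ = P5
        intro e6 p1 p2
        field_simp
        linarith
    _ ≤ κ / ((n : ℝ) ^ (δ * a / 16) * Real.sqrt (h * w)) * (h * X ^ (-(1 / q))) / q := by
        apply div_le_div_of_nonneg_right _ hq0.le
        exact mul_le_mul e4 e5 (by positivity) (by positivity)

end Pool.Agent.W_7d29a1_LB
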