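import Pool.Agent.W_7d29a1_LB.StepNumB

/-!
STORM LB (MP_7d29a1_pr, row 671), Step, the numbers: the rows `t1` and `t0`. (helper61)
-/

set_option autoImplicit false

namespace Pool.Agent.W_7d29a1_LB

open MeasureTheory ProbabilityTheory Filter Topology
open Pool.Agent.W_7d29a1_HS (In wd)
open Pool.Agent.W_7d29a1_HZ (wd' EE' wd'_pow EE'_pow)

variable {μ : Measure ℝ} {s : ℝ} [IsProbabilityMeasure μ]

/-- `t1` is the first row with `wd' t1 ≥ x`. -/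
def IsT1 (μ : Measure ℝ) (s : ℝ) (x t1 : ℕ) : Prop := (x : ℝ) ≤ wd' μ s t1 ∧ ∀ t, t < t1 → wd' μ s t < x

/-- `t0 = ⌈t1 n ^ (-ε)⌉`. -/
noncomputable def T0 (n : ℕ) (ε : ℝ) (t1 : ℕ) : ℕ := ⌈(t1 : ℝ) * (n : ℝ) ^ (-ε)⌉₊

theorem evt_pow {e M : ℝ} (he : 0 < e) : ∀ᶠ n : ℕ in atTop, M ≤ (n : ℝ) ^ e :=
  ((tendsto_rpow_atTop he).comp tendsto_natCast_atTop_atTop).eventually_ge_atTop M

/-- **The rows `t1` and `t0`.** -/
theorem rows61 {a K : ℝ} (ha : 0 < a) (ha1 : a < 1) (hK : 1 ≤ K)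
    (hw : ∀ m n : ℕ, 1 ≤ m → m ≤ n → wd' μ s m ≤ K * wd' μ s n ∧ K⁻¹ * ((n : ℝ) / m) ^ a * wd' μ s m ≤ wd' μ s n ∧
      wd' μ s n ≤ K * ((n : ℝ) / m) ^ (1 - a) * wd' μ s m) {δ ε : ℝ} (hδ : 0 < δ) (hε : 0 < ε) (hεδ : ε ≤ δ) :
    ∀ᶠ n : ℕ in atTop, ∀ x : ℕ, (n : ℝ) ^ (3 * δ) ≤ x → (x : ℝ) ≤ wd' μ s n → ∃ t1 : ℕ, IsT1 μ s x t1 ∧ 1 ≤ t1 ∧ t1 ≤ n ∧
      1 ≤ T0 n ε t1 ∧ (n : ℝ) ^ δ ≤ T0 n ε t1 ∧ T0 n ε t1 ≤ n / 4 ∧
      (x : ℝ) ≤ K * (n : ℝ) ^ ε * wd' μ s (T0 n ε t1) := by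
  obtain ⟨K₁, hK₁⟩ : ∃ K₁ : ℝ, K₁ = K * wd' μ s 1 := ⟨_, rfl⟩
  have hK₁0 : 0 < K₁ := by rw [hK₁]; exact mul_pos (by linarith) (lt_of_lt_of_le one_pos (wd'_one_le _))
  filter_upwards [evt_pow (M := K₁) hδ, evt_pow (M := 8) hε, evt_pow (M := 2) (show (0 : ℝ) < 3 * δ by positivity),
    eventually_ge_atTop 16] with n n1 n2 n3 n4 x hx hxn
  have hnR : (16 : ℝ) ≤ n := by exact_mod_cast n4
  have hn0 : (0 : ℝ) < n := by linarith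
  have hx2 : (2 : ℝ) ≤ x := n3.trans hx
  classical
  have hex : ∃ t : ℕ, (x : ℝ) ≤ wd' μ s t := ⟨n, hxn⟩
  obtain ⟨t1, ht1⟩ : ∃ t1 : ℕ, t1 = Nat.find hex := ⟨_, rfl⟩
  have a1 : (x : ℝ) ≤ wd' μ s t1 := by rw [ht1]; exact Nat.find_spec hex
  have a2 : ∀ t, t < t1 → wd' μ s t < x := fun t ht => by
    rw [ht1] at ht
    exact not_le.1 (Nat.find_min hex ht)
  have a3 : t1 ≤ n := by rw [ht1]; exact Nat.find_min' hex hxn
  have a4 : 1 ≤ t1 := by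
    rcases Nat.eq_zero_or_pos t1 with h | h
    · exfalso
      have h1 : wd' μ s 0 = 1 := by
        unfold wd' wd
        simp
      rw [h, h1] at a1
      linarith
    · exact h
  have hT1 : (1 : ℝ) ≤ t1 := by exact_mod_cast a4
  have hT1n : (t1 : ℝ) ≤ n := by exact_mod_cast a3
  obtain ⟨p, hp⟩ : ∃ p : ℝ, p = (n : ℝ) ^ (-ε) := ⟨_, rfl⟩
  have hp0 : 0 < p := by rw [hp]; positivity
  have hpq : p * (n : ℝ) ^ ε = 1 := by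
    rw [hp, ← Real.rpow_add hn0, neg_add_cancel, Real.rpow_zero]
  have hT0 : (t1 : ℝ) * p ≤ T0 n ε t1 := by
    unfold T0
    rw [← hp]
    exact Nat.le_ceil _
  have hT0' : (T0 n ε t1 : ℝ) < t1 * p + 1 := by
    unfold T0
    rw [← hp]
    exact Nat.ceil_lt_add_one (by positivity)
  have b1 : 1 ≤ T0 n ε t1 := by
    have : (0 : ℝ) < T0 n ε t1 := lt_of_lt_of_le (by positivity) hT0
    exact_mod_cast this
  -- the lower bound of `t1`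
  have b2 : (x : ℝ) ≤ K₁ * t1 := by
    have h1 := (hw 1 t1 le_rfl a4).2.2
    rw [Nat.cast_one, div_one] at h1
    have h2 : (t1 : ℝ) ^ (1 - a) ≤ t1 := by
      calc (t1 : ℝ) ^ (1 - a) ≤ (t1 : ℝ) ^ (1 : ℝ) := Real.rpow_le_rpow_of_exponent_le hT1 (by linarith)
        _ = t1 := Real.rpow_one _
    calc (x : ℝ) ≤ K * (t1 : ℝ) ^ (1 - a) * wd' μ s 1 := a1.trans h1
      _ = K₁ * (t1 : ℝ) ^ (1 - a) := by rw [hK₁]; ring
      _ ≤ _ := mul_le_mul_of_nonneg_left h2 hK₁0.le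
  have b3 : (n : ℝ) ^ δ ≤ T0 n ε t1 := by
    have h1 : (n : ℝ) ^ (3 * δ) ≤ K₁ * t1 := hx.trans b2
    have h2 : (n : ℝ) ^ (3 * δ) = (n : ℝ) ^ δ * (n : ℝ) ^ δ * (n : ℝ) ^ δ := by
      rw [← Real.rpow_add hn0, ← Real.rpow_add hn0]
      congr 1
      ring
    have h3 : (n : ℝ) ^ ε ≤ (n : ℝ) ^ δ := Real.rpow_le_rpow_of_exponent_le (by linarith) hεδ
    have hd : 0 < (n : ℝ) ^ δ := by positivity
    -- `n ^ δ n ^ δ ≤ t1`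
    have h4 : (n : ℝ) ^ δ * (n : ℝ) ^ δ ≤ t1 := by
      rw [h2] at h1
      have h5 : (n : ℝ) ^ δ * (n : ℝ) ^ δ * (n : ℝ) ^ δ ≤ (n : ℝ) ^ δ * t1 :=
        h1.trans (mul_le_mul_of_nonneg_right n1 (by linarith))
      have h6 : (n : ℝ) ^ δ * ((n : ℝ) ^ δ * (n : ℝ) ^ δ) ≤ (n : ℝ) ^ δ * t1 := by linarith
      exact le_of_mul_le_mul_left h6 hd
    have h5 : (n : ℝ) ^ δ * (n : ℝ) ^ ε ≤ t1 := (mul_le_mul_of_nonneg_left h3 hd.le).trans h4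
    calc (n : ℝ) ^ δ = (n : ℝ) ^ δ * (n : ℝ) ^ ε * p := by rw [mul_assoc, mul_comm ((n : ℝ) ^ ε) p, hpq, mul_one]
      _ ≤ t1 * p := mul_le_mul_of_nonneg_right h5 hp0.le
      _ ≤ _ := hT0
  have b4 : T0 n ε t1 ≤ n / 4 := by
    rw [Nat.le_div_iff_mul_le (by norm_num)]
    have h1 : (t1 : ℝ) * p ≤ n / 8 := by
      have h2 : p ≤ 1 / 8 := by
        have h3 : p * 8 ≤ 1 := by
          calc p * 8 ≤ p * (n : ℝ) ^ ε := mul_le_mul_of_nonneg_left n2 hp0.le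
            _ = 1 := hpq
        linarith
      calc (t1 : ℝ) * p ≤ n * (1 / 8) := mul_le_mul hT1n h2 hp0.le hn0.le
        _ = n / 8 := by ring
    have h2 : ((T0 n ε t1 * 4 : ℕ) : ℝ) ≤ n := by
      push_cast
      linarith
    exact_mod_cast h2
  have b5 : (x : ℝ) ≤ K * (n : ℝ) ^ ε * wd' μ s (T0 n ε t1) := by
    have hle : T0 n ε t1 ≤ t1 := by
      unfold T0
      rw [← hp]
      refine Nat.ceil_le.2 ?_
      have h2 : p ≤ 1 := by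
        have h3 : p * 8 ≤ 1 := by
          calc p * 8 ≤ p * (n : ℝ) ^ ε := mul_le_mul_of_nonneg_left n2 hp0.le
            _ = 1 := hpq
        linarith
      calc (t1 : ℝ) * p ≤ t1 * 1 := mul_le_mul_of_nonneg_left h2 (by linarith)
        _ = t1 := mul_one _
    have h1 := (hw (T0 n ε t1) t1 b1 hle).2.2
    have hT : (0 : ℝ) < T0 n ε t1 := by exact_mod_cast b1
    have h2 : (t1 : ℝ) / T0 n ε t1 ≤ (n : ℝ) ^ ε := by
      rw [div_le_iff₀ hT]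
      calc (t1 : ℝ) = t1 * p * (n : ℝ) ^ ε := by rw [mul_assoc, hpq, mul_one]
        _ ≤ T0 n ε t1 * (n : ℝ) ^ ε := mul_le_mul_of_nonneg_right hT0 (by positivity)
        _ = _ := mul_comm _ _
    have h3 : ((t1 : ℝ) / T0 n ε t1) ^ (1 - a) ≤ (n : ℝ) ^ ε := by
      have h4 : (1 : ℝ) ≤ (t1 : ℝ) / T0 n ε t1 := by
        rw [le_div_iff₀ hT, one_mul]
        exact_mod_cast hle
      calc ((t1 : ℝ) / T0 n ε t1) ^ (1 - a) ≤ ((t1 : ℝ) / T0 n ε t1) ^ (1 : ℝ) :=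
            Real.rpow_le_rpow_of_exponent_le h4 (by linarith)
        _ = (t1 : ℝ) / T0 n ε t1 := Real.rpow_one _
        _ ≤ _ := h2
    refine (a1.trans h1).trans ?_
    exact mul_le_mul_of_nonneg_right (mul_le_mul_of_nonneg_left h3 (by linarith)) (zero_le_one.trans (wd'_one_le _))
  exact ⟨t1, ⟨a1, a2⟩, a4, a3, b1, b3, b4, b5⟩

end Pool.Agent.W_7d29a1_LB
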